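import Mathlib

/-!
# Type `A_l`: the Cartan matrix, the weights of the vector representation, the basic invariants
-/

namespace Pool.Agent.LS

open MvPolynomial Finset

/-- the Cartan matrix of type `A_l` -/
def AA (l : ℕ) : Matrix (Fin l) (Fin l) ℤ :=
  fun i j => if i = j then 2 else if (i : ℕ) + 1 = j ∨ (j : ℕ) + 1 = i then -1 else 0

/-- coefficient of the simple root `α_{j+1}` in the weight `ε_{a+1}` of the vector representation -/
def qA (l a j : ℕ) : ℚ := ((l : ℚ) - j) / (l + 1) - if j < a then 1 else 0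

/-- the weight `ε_{a+1}` of the vector representation, in terms of the simple roots -/
noncomputable def ebar (l : ℕ) (k : Type*) [CommRing k] [Algebra ℚ k] (a : Fin (l + 1)) :
    MvPolynomial (Fin l) k :=
  ∑ j : Fin l, C (algebraMap ℚ k (qA l a j)) * X j

/-- the basic invariant of degree `j + 2`: the elementary symmetric function of the `ε_a` -/
noncomputable def PT (l : ℕ) (k : Type*) [CommRing k] [Algebra ℚ k] (j : ℕ) :
    MvPolynomial (Fin l) k :=
  aeval (ebar l k) (esymm (Fin (l + 1)) k (j + 2))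

/-- the generators of the algebra of symbols: `gk (j, 0) = P_j (x_{·,1})` and
`gk (j, q+1) = ∑_i (∂P_j/∂x_i) (x_{·,1}) x_{i,q+2}` -/
noncomputable def gk (l : ℕ) (k : Type*) [CommRing k] [Algebra ℚ k] (jq : Fin l × ℕ) :
    MvPolynomial (Fin l × ℕ) k :=
  match jq.2 with
  | 0 => rename (fun i => (i, 0)) (PT l k jq.1)
  | (q + 1) => ∑ i, rename (fun i => (i, 0)) (pderiv i (PT l k jq.1)) * X (i, q + 1)

/-- the degree of `gk` for the grading in which `x_{i,1}` has degree 2 and the other variables
have degree 1 -/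
def del (l : ℕ) (jq : Fin l × ℕ) : ℕ :=
  match jq.2 with
  | 0 => 2 * (jq.1 + 2)
  | (_ + 1) => 2 * (jq.1 + 2) - 1

end Pool.Agent.LS
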