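import Mathlib

/-!
# Chevalley's theorem, part b : algebraic independence of a minimal system of invariants
-/

namespace Pool.Agent.LS

open MvPolynomial Finset

section AlgInd

variable {K : Type*} [Field K]

/-- homogeneous components of a product with a homogeneous polynomial -/
theorem homComp_mul {σ : Type*} (n d : ℕ) (c p : MvPolynomial σ K) (hp : p.IsHomogeneous d) :
    homogeneousComponent n (c * p)
      = if d ≤ n then homogeneousComponent (n - d) c * p else 0 := by
  have h1 : c * p = ∑ k ∈ range (c.totalDegree + 1), homogeneousComponent k c * p := by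
    rw [← sum_mul, sum_homogeneousComponent]
  have h2 : ∀ k, homogeneousComponent n (homogeneousComponent k c * p)
      = if n = k + d then homogeneousComponent k c * p else 0 := fun k =>
    homogeneousComponent_of_mem ((homogeneousComponent_isHomogeneous k c).mul hp)
  rw [h1, map_sum]
  simp_rw [h2]
  split_ifs with hd
  · by_cases hk : n - d ∈ range (c.totalDegree + 1)
    · rw [sum_eq_single_of_mem (n - d) hk]
      · rw [if_pos (by omega)]
      · intro b _ hb
        rw [if_neg (by omega)]
    · rw [sum_eq_zero, homogeneousComponent_eq_zero, zero_mul]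
      · rw [mem_range] at hk
        omega
      · intro b hb
        rw [if_neg]
        intro h
        apply hk
        have : n - d = b := by omega
        rwa [this]
  · apply sum_eq_zero
    intro b _
    rw [if_neg (by omega)]

/-- chain rule -/
theorem pderiv_aeval' {m : ℕ} {σ : Type*} (P : Fin m → MvPolynomial σ K) (a : σ)
    (H : MvPolynomial (Fin m) K) :
    pderiv a (aeval P H) = ∑ i, aeval P (pderiv i H) * pderiv a (P i) := by
  induction H using MvPolynomial.induction_on with
  | C c =>
    rw [← algebraMap_eq, AlgHom.commutes, Derivation.map_algebraMap]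
    symm
    apply sum_eq_zero
    intro i _
    rw [Derivation.map_algebraMap, map_zero, zero_mul]
  | add p q hp hq =>
    rw [map_add, map_add, hp, hq, ← sum_add_distrib]
    apply sum_congr rfl
    intro i _
    rw [map_add, map_add, add_mul]
  | mul_X p j hp =>
    rw [map_mul, Derivation.leibniz, hp, aeval_X, smul_eq_mul, smul_eq_mul]
    have h : ∀ i, aeval P (pderiv i (p * X j)) * pderiv a (P i)
        = aeval P p * (if i = j then pderiv a (P i) else 0)
          + P j * (aeval P (pderiv i p) * pderiv a (P i)) := by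
      intro i
      rw [Derivation.leibniz, pderiv_X, smul_eq_mul, smul_eq_mul, map_add, map_mul, map_mul, aeval_X]
      by_cases hij : i = j
      · subst hij
        simp
        ring
      · rw [Pi.single_eq_of_ne (Ne.symm hij), if_neg hij, map_zero]
        ring
    simp_rw [h]
    rw [sum_add_distrib, ← mul_sum, ← mul_sum]
    simp

/-- evaluation of a weighted homogeneous polynomial -/
theorem aeval_weighted {m : ℕ} {σ : Type*} (P : Fin m → MvPolynomial σ K) (d : Fin m → ℕ)
    (hP : ∀ i, (P i).IsHomogeneous (d i)) (H : MvPolynomial (Fin m) K) (n : ℕ)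
    (hH : H.IsWeightedHomogeneous d n) : (aeval P H).IsHomogeneous n := by
  rw [aeval_def, eval₂_eq']
  apply IsHomogeneous.sum
  intro s hs
  have h1 : Finsupp.weight d s = n := hH (mem_support_iff.1 hs)
  have h2 : (∏ i, P i ^ s i).IsHomogeneous (∑ i, d i * s i) := by
    apply IsHomogeneous.prod
    intro i _
    exact (hP i).pow (s i)
  have h3 : ∑ i, d i * s i = n := by
    rw [← h1, Finsupp.weight_apply, Finsupp.sum_fintype]
    · apply sum_congr rfl
      intro i _
      rw [smul_eq_mul, mul_comm]
    · intro i
      simp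
  rw [h3] at h2
  exact h2.C_mul _

/-- Lemma 1 with arbitrary coefficients -/
theorem lemma1_general {l m : ℕ} (Inv : MvPolynomial (Fin l) K → Prop)
    (I : Ideal (MvPolynomial (Fin l) K))
    (hlem : ∀ (g h : Fin m → MvPolynomial (Fin l) K) (j0 : Fin m), (∀ i, Inv (g i)) →
      (∀ i, ∃ e, (h i).IsHomogeneous e) → ∑ i, h i * g i = 0 →
      (¬ ∃ a : Fin m → MvPolynomial (Fin l) K, (∀ i, Inv (a i)) ∧
        g j0 = ∑ i ∈ univ.erase j0, a i * g i) → h j0 ∈ I)
    (g h : Fin m → MvPolynomial (Fin l) K) (e : Fin m → ℕ) (j0 : Fin m) (hg : ∀ i, Inv (g i))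
    (hge : ∀ i, (g i).IsHomogeneous (e i)) (hsum : ∑ i, h i * g i = 0)
    (hnot : ¬ ∃ a : Fin m → MvPolynomial (Fin l) K, (∀ i, Inv (a i)) ∧
        g j0 = ∑ i ∈ univ.erase j0, a i * g i) : h j0 ∈ I := by
  have hk : ∀ k, homogeneousComponent k (h j0) ∈ I := by
    intro k
    set h' : Fin m → MvPolynomial (Fin l) K := fun i =>
      if e i ≤ k + e j0 then homogeneousComponent (k + e j0 - e i) (h i) else 0 with hh'
    have h1 := hlem g h' j0 hg ?_ ?_ hnot
    · have h2 : h' j0 = homogeneousComponent k (h j0) := by
        rw [hh']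
        simp
      rwa [h2] at h1
    · intro i
      by_cases hi : e i ≤ k + e j0
      · refine ⟨k + e j0 - e i, ?_⟩
        rw [hh']
        simp only [if_pos hi]
        exact homogeneousComponent_isHomogeneous _ _
      · refine ⟨0, ?_⟩
        rw [hh']
        simp only [if_neg hi]
        exact isHomogeneous_zero _ _ _
    · have h2 := congrArg (homogeneousComponent (k + e j0)) hsum
      rw [map_sum, map_zero] at h2
      rw [← h2]
      apply sum_congr rfl
      intro i _
      rw [homComp_mul _ (e i) _ _ (hge i), hh']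
      by_cases hi : e i ≤ k + e j0
      · simp only [if_pos hi]
      · simp only [if_neg hi, zero_mul]
  rw [← sum_homogeneousComponent (h j0)]
  exact Ideal.sum_mem _ fun k _ => hk k

variable [CharZero K]

/-- a weighted homogeneous relation of a minimal system of generators is impossible -/
theorem algInd_of_lemma1 {l m : ℕ} (Inv : Subalgebra K (MvPolynomial (Fin l) K))
    (P : Fin m → MvPolynomial (Fin l) K) (d : Fin m → ℕ) (hd : ∀ i, 0 < d i)
    (hP : ∀ i, (P i).IsHomogeneous (d i)) (hPI : ∀ i, P i ∈ Inv)
    (hmin : ∀ j, P j ∉ Ideal.span (P '' {i | i ≠ j}))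
    (hlem : ∀ (g h : Fin m → MvPolynomial (Fin l) K) (j0 : Fin m), (∀ i, g i ∈ Inv) →
      (∀ i, ∃ e, (h i).IsHomogeneous e) → ∑ i, h i * g i = 0 →
      (¬ ∃ a : Fin m → MvPolynomial (Fin l) K, (∀ i, a i ∈ Inv) ∧
        g j0 = ∑ i ∈ univ.erase j0, a i * g i) → h j0 ∈ Ideal.span (Set.range P)) :
    AlgebraicIndependent K P := by
  classical
  rw [algebraicIndependent_iff]
  by_contra hcon
  push Not at hcon
  obtain ⟨H0, hH0, hH0ne⟩ := hcon
  -- homogeneous relation
  have hex : ∃ n, ∃ H : MvPolynomial (Fin m) K, H.IsWeightedHomogeneous d n ∧ aeval P H = 0 ∧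
      H ≠ 0 := by
    have h1 : ∃ n, weightedHomogeneousComponent d n H0 ≠ 0 := by
      by_contra hc
      push Not at hc
      apply hH0ne
      ext s
      have h2 := congrArg (coeff s) (hc (Finsupp.weight d s))
      rw [coeff_weightedHomogeneousComponent, if_pos rfl] at h2
      rw [h2]
    obtain ⟨n, hn⟩ := h1
    refine ⟨n, _, weightedHomogeneousComponent_isWeightedHomogeneous n H0, ?_, hn⟩
    -- aeval of the component is the component of aeval
    have hfin : (weightedHomogeneousComponent d · H0).support.Finite :=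
      weightedHomogeneousComponent_finsupp H0
    have h3 : H0 = ∑ k ∈ hfin.toFinset, weightedHomogeneousComponent d k H0 := by
      have := sum_weightedHomogeneousComponent d H0
      rw [finsum_eq_sum _ hfin] at this
      exact this.symm
    have h4 : ∀ k, homogeneousComponent n (aeval P (weightedHomogeneousComponent d k H0))
        = if n = k then aeval P (weightedHomogeneousComponent d k H0) else 0 := fun k =>
      homogeneousComponent_of_mem (aeval_weighted P d hP _ k
        (weightedHomogeneousComponent_isWeightedHomogeneous k H0))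
    have h5 : homogeneousComponent n (aeval P H0)
        = aeval P (weightedHomogeneousComponent d n H0) := by
      conv_lhs => rw [h3]
      rw [map_sum, map_sum]
      simp_rw [h4]
      rw [sum_eq_single_of_mem n]
      · rw [if_pos rfl]
      · simpa using hn
      · intro b _ hb
        rw [if_neg (Ne.symm hb)]
    rw [← h5, hH0, map_zero]
  obtain ⟨H, hH, hH1, hH2⟩ := Nat.find_spec hex
  set n := Nat.find hex with hn
  have hmin' : ∀ n', n' < n → ∀ H : MvPolynomial (Fin m) K, H.IsWeightedHomogeneous d n' →
      aeval P H = 0 → H = 0 := by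
    intro n' hn' H' h1 h2
    by_contra h3
    exact Nat.find_min hex hn' ⟨H', h1, h2, h3⟩
  -- partial derivatives
  set g : Fin m → MvPolynomial (Fin l) K := fun i => aeval P (pderiv i H) with hg
  have hpd : ∀ i, pderiv i H ≠ 0 → d i ≤ n ∧ (pderiv i H).IsWeightedHomogeneous d (n - d i) := by
    intro i hi
    have h1 : d i ≤ n := by
      by_contra hc
      push Not at hc
      apply hi
      rw [H.as_sum, map_sum]
      apply sum_eq_zero
      intro s hs
      rw [pderiv_monomial]
      have h2 : Finsupp.weight d s = n := hH (mem_support_iff.1 hs)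
      have h3 : s i = 0 := by
        by_contra h4
        have h5 : s i • d i ≤ Finsupp.weight d s := by
          rw [Finsupp.weight_apply, Finsupp.sum_fintype _ _ (by simp)]
          exact single_le_sum (f := fun i => s i • d i) (fun _ _ => Nat.zero_le _) (mem_univ i)
        rw [smul_eq_mul, h2] at h5
        have : 1 ≤ s i := Nat.one_le_iff_ne_zero.2 h4
        nlinarith
      rw [h3]
      simp
    exact ⟨h1, hH.pderiv (by omega)⟩
  have hghom : ∀ i, (g i).IsHomogeneous (n - d i) := by
    intro i
    by_cases hi : pderiv i H = 0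
    · rw [hg]
      simp only [hi, map_zero]
      exact isHomogeneous_zero _ _ _
    · exact aeval_weighted P d hP _ _ (hpd i hi).2
  have hgI : ∀ i, g i ∈ Inv := by
    intro i
    have h1 : ∀ Q : MvPolynomial (Fin m) K, aeval P Q ∈ Inv := by
      intro Q
      have h2 : aeval P Q ∈ Algebra.adjoin K (Set.range P) := by
        rw [Algebra.adjoin_range_eq_range_aeval]
        exact ⟨Q, rfl⟩
      have h3 : Algebra.adjoin K (Set.range P) ≤ Inv := by
        apply Algebra.adjoin_le
        rintro _ ⟨i, rfl⟩
        exact hPI i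
      exact h3 h2
    exact h1 _
  have hgne : ∃ i, g i ≠ 0 := by
    by_contra hc
    push Not at hc
    have h1 : ∀ i, pderiv i H = 0 := by
      intro i
      by_contra hi
      obtain ⟨h2, h3⟩ := hpd i hi
      have h4 : n - d i < n := by have := hd i; omega
      exact hi (hmin' _ h4 _ h3 (hc i))
    have h2 := hH.sum_weight_X_mul_pderiv
    have h3 : ∑ i : Fin m, d i • (X i * pderiv i H) = 0 := by
      apply sum_eq_zero
      intro i _
      rw [h1 i, mul_zero, smul_zero]
    rw [h3] at h2
    have h4 : n = 0 := by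
      by_contra h5
      have h6 : (n : MvPolynomial (Fin m) K) * H = 0 := by
        rw [← nsmul_eq_mul]
        exact h2.symm
      rcases mul_eq_zero.1 h6 with h7 | h7
      · exact h5 (by exact_mod_cast h7)
      · exact hH2 h7
    -- constant
    have h5 : H = C (coeff 0 H) := by
      ext s
      rw [coeff_C]
      split_ifs with hs
      · rw [hs]
      · by_contra h6
        have h7 : Finsupp.weight d s = n := hH h6
        rw [h4, Finsupp.weight_apply, Finsupp.sum_fintype _ _ (by simp)] at h7
        apply hs
        ext i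
        have h8 := (sum_eq_zero_iff_of_nonneg (fun i _ => Nat.zero_le _)).1 h7 i (mem_univ i)
        rw [smul_eq_mul] at h8
        have h9 := hd i
        rcases Nat.mul_eq_zero.1 h8 with h10 | h10
        · rw [h10]; rfl
        · omega
    rw [h5, ← algebraMap_eq, AlgHom.commutes] at hH1
    have h6 : coeff 0 H = 0 := by
      rw [algebraMap_eq] at hH1
      exact C_injective _ _ (by rw [hH1, C_0])
    rw [h6, C_0] at h5
    exact hH2 h5
  have hrel : ∀ a : Fin l, ∑ i, pderiv a (P i) * g i = 0 := by
    intro a
    have h1 := pderiv_aeval' P a H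
    rw [hH1, map_zero] at h1
    rw [h1]
    apply sum_congr rfl
    intro i _
    rw [mul_comm]
  -- minimal generating subset
  have hexJ : ∃ k, ∃ J : Finset (Fin m), J.card = k ∧ ∀ i, ∃ a : Fin m → MvPolynomial (Fin l) K,
      (∀ j, a j ∈ Inv) ∧ g i = ∑ j ∈ J, a j * g j := by
    refine ⟨_, univ, rfl, fun i => ⟨fun j => if j = i then 1 else 0, ?_, ?_⟩⟩
    · intro j
      beta_reduce
      split_ifs
      · exact Inv.one_mem
      · exact Inv.zero_mem
    · simp
  obtain ⟨J, hJcard, hJ⟩ := Nat.find_spec hexJ
  have hJmin : ∀ J' : Finset (Fin m), J'.card < J.card → ¬ ∀ i,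
      ∃ a : Fin m → MvPolynomial (Fin l) K, (∀ j, a j ∈ Inv) ∧ g i = ∑ j ∈ J', a j * g j := by
    intro J' hJ' h1
    rw [hJcard] at hJ'
    exact Nat.find_min hexJ hJ' ⟨J', rfl, h1⟩
  obtain ⟨i0, hi0⟩ := hgne
  have hJne : J.Nonempty := by
    rw [nonempty_iff_ne_empty]
    rintro rfl
    obtain ⟨a, _, ha⟩ := hJ i0
    exact hi0 (by rw [ha, sum_empty])
  obtain ⟨j0, hj0⟩ := hJne
  -- coefficients
  have hcoef : ∀ i, ∃ a : Fin m → MvPolynomial (Fin l) K, (∀ j, a j ∈ Inv) ∧
      g i = ∑ j ∈ J, a j * g j ∧ (i ∈ J → ∀ j, a j = if j = i then 1 else 0) := by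
    intro i
    by_cases hi : i ∈ J
    · refine ⟨fun j => if j = i then 1 else 0, ?_, ?_, fun _ _ => rfl⟩
      · intro j
        beta_reduce
        split_ifs
        · exact Inv.one_mem
        · exact Inv.zero_mem
      · simp [hi]
    · obtain ⟨a, ha1, ha2⟩ := hJ i
      exact ⟨a, ha1, ha2, fun h => absurd h hi⟩
  choose a ha1 ha2 ha3 using hcoef
  -- the new relation
  set h : Fin l → Fin m → MvPolynomial (Fin l) K := fun b j => ∑ i, pderiv b (P i) * a i j with hh
  have hrel2 : ∀ b, ∑ j, h b j * (if j ∈ J then g j else 0) = 0 := by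
    intro b
    refine Eq.trans ?_ (hrel b)
    have h1 : ∀ i, pderiv b (P i) * g i
        = ∑ j, pderiv b (P i) * a i j * (if j ∈ J then g j else 0) := by
      intro i
      conv_lhs => rw [ha2 i]
      rw [mul_sum]
      simp only [mul_ite, mul_zero]
      rw [sum_ite_mem, univ_inter]
      apply sum_congr rfl
      intro j _
      ring
    simp_rw [h1]
    rw [sum_comm]
    apply sum_congr rfl
    intro j _
    rw [hh]
    simp only
    rw [sum_mul]
  have hmem : ∀ b, h b j0 ∈ Ideal.span (Set.range P) := by
    intro b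
    apply lemma1_general (fun f => f ∈ Inv) _ hlem
      (fun j => if j ∈ J then g j else 0) (h b) (fun i => n - d i) j0
    · intro i
      split_ifs
      · exact hgI i
      · exact Inv.zero_mem
    · intro i
      split_ifs
      · exact hghom i
      · exact isHomogeneous_zero _ _ _
    · exact hrel2 b
    · rintro ⟨c, hc1, hc2⟩
      rw [if_pos hj0] at hc2
      apply hJmin (J.erase j0) (card_erase_lt_of_mem hj0)
      have hc3 : g j0 = ∑ i ∈ J.erase j0, c i * g i := by
        rw [hc2]
        simp only [mul_ite, mul_zero]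
        rw [sum_ite_mem]
        apply sum_congr _ fun _ _ => rfl
        ext x
        simp only [mem_inter, mem_erase, mem_univ, and_true]
      intro i
      refine ⟨fun j => a i j + a i j0 * c j, fun j => Inv.add_mem (ha1 i j)
        (Inv.mul_mem (ha1 i j0) (hc1 j)), ?_⟩
      rw [ha2 i, ← add_sum_erase _ _ hj0]
      simp only [add_mul]
      rw [sum_add_distrib, add_comm]
      congr 1
      rw [hc3, mul_sum]
      apply sum_congr rfl
      intro j _
      ring
  -- Euler
  have heuler : ∑ b, X b * h b j0 = ∑ i, C ((d i : ℕ) : K) * (a i j0 * P i) := by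
    rw [hh]
    simp only
    simp_rw [mul_sum]
    rw [sum_comm]
    apply sum_congr rfl
    intro i _
    have h1 := (hP i).sum_X_mul_pderiv
    rw [nsmul_eq_mul] at h1
    have h2 : ∑ b, X b * (pderiv b (P i) * a i j0) = (∑ b, X b * pderiv b (P i)) * a i j0 := by
      rw [sum_mul]
      apply sum_congr rfl
      intro b _
      ring
    rw [h2, h1]
    have h3 : (C ((d i : ℕ) : K) : MvPolynomial (Fin l) K) = ((d i : ℕ) : MvPolynomial (Fin l) K) := by
      simp
    rw [h3]
    ring
  -- left side
  have hleft : ∀ b, ∃ c : Fin m → MvPolynomial (Fin l) K, h b j0 = ∑ i, c i * P i := by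
    intro b
    have h1 := hmem b
    rw [Ideal.mem_span_range_iff_exists_fun] at h1
    obtain ⟨c, hc⟩ := h1
    exact ⟨c, hc.symm⟩
  choose c hc using hleft
  have hleft2 : ∑ b, X b * h b j0 = ∑ i, (∑ b, X b * c b i) * P i := by
    simp_rw [hc, mul_sum, sum_mul]
    rw [sum_comm]
    apply sum_congr rfl
    intro i _
    apply sum_congr rfl
    intro b _
    ring
  rw [hleft2] at heuler
  -- component of degree d j0
  have hcomp := congrArg (homogeneousComponent (d j0)) heuler
  rw [map_sum, map_sum] at hcomp
  apply hmin j0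
  have hspan : ∀ i, i ≠ j0 → ∀ f : MvPolynomial (Fin l) K,
      homogeneousComponent (d j0) (f * P i) ∈ Ideal.span (P '' {i | i ≠ j0}) := by
    intro i hi f
    rw [homComp_mul _ _ _ _ (hP i)]
    split_ifs
    · exact Ideal.mul_mem_left _ _ (Ideal.subset_span ⟨i, hi, rfl⟩)
    · exact Ideal.zero_mem _
  have hL : ∑ i, homogeneousComponent (d j0) ((∑ b, X b * c b i) * P i)
      ∈ Ideal.span (P '' {i | i ≠ j0}) := by
    rw [← add_sum_erase _ _ (mem_univ j0)]
    apply Ideal.add_mem
    · rw [homComp_mul _ _ _ _ (hP j0), if_pos le_rfl, Nat.sub_self, homogeneousComponent_zero]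
      have h0 : coeff 0 (∑ b, X b * c b j0 : MvPolynomial (Fin l) K) = 0 := by
        rw [coeff_sum]
        apply sum_eq_zero
        intro b _
        have : constantCoeff (X b * c b j0 : MvPolynomial (Fin l) K) = 0 := by
          rw [map_mul, constantCoeff_X, zero_mul]
        exact this
      rw [h0, C_0, zero_mul]
      exact Ideal.zero_mem _
    · apply Ideal.sum_mem
      intro i hi
      exact hspan i (ne_of_mem_erase hi) _
  rw [hcomp, ← add_sum_erase _ _ (mem_univ j0)] at hL
  have hR : ∑ x ∈ univ.erase j0, homogeneousComponent (d j0) (C ((d x : ℕ) : K) * (a x j0 * P x))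
      ∈ Ideal.span (P '' {i | i ≠ j0}) := by
    apply Ideal.sum_mem
    intro i hi
    rw [← mul_assoc]
    exact hspan i (ne_of_mem_erase hi) _
  have hfin := (Submodule.add_mem_iff_left _ hR).1 hL
  rw [ha3 j0 hj0 j0, if_pos rfl, one_mul, homComp_mul _ _ _ _ (hP j0), if_pos le_rfl, Nat.sub_self,
    homogeneousComponent_zero, coeff_C, if_pos rfl] at hfin
  have hd0 : ((d j0 : ℕ) : K) ≠ 0 := by
    have := hd j0
    exact_mod_cast this.ne'
  have h9 : P j0 = C (((d j0 : ℕ) : K)⁻¹) * (C ((d j0 : ℕ) : K) * P j0) := by
    rw [← mul_assoc, ← C_mul, inv_mul_cancel₀ hd0, C_1, one_mul]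
  rw [h9]
  exact Ideal.mul_mem_left _ _ hfin

end AlgInd

end Pool.Agent.LS
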