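import Mathlib

/-!
# The derivation lemma

`S` a domain over a field `K`, `G` a finite group of automorphisms, `S^G` generated by the `P j`.
-/

namespace Pool.Agent.LS

open Finset

set_option linter.unusedSectionVars false

section Der

variable {K : Type*} [Field K] {S : Type*} [CommRing S] [IsDomain S] [Algebra K S]

/-- the orbit of `x` as a finset -/
noncomputable def orb (G : Subgroup (S ≃ₐ[K] S)) [Finite G] (x : S) : Finset S :=
  (Set.finite_range (fun g : G => (g : S ≃ₐ[K] S) x)).toFinset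

theorem mem_orb {G : Subgroup (S ≃ₐ[K] S)} [Finite G] {x z : S} :
    z ∈ orb G x ↔ ∃ g ∈ G, g x = z := by
  simp [orb]

theorem self_mem_orb (G : Subgroup (S ≃ₐ[K] S)) [Finite G] (x : S) : x ∈ orb G x :=
  mem_orb.2 ⟨1, G.one_mem, rfl⟩

/-- the orbit polynomial -/
noncomputable def orbPoly (G : Subgroup (S ≃ₐ[K] S)) [Finite G] (x : S) : Polynomial S :=
  ∏ z ∈ orb G x, (Polynomial.X - Polynomial.C z)

theorem orbPoly_map (G : Subgroup (S ≃ₐ[K] S)) [Finite G] (x : S) (g : S ≃ₐ[K] S) (hg : g ∈ G) :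
    (orbPoly G x).map (g : S →+* S) = orbPoly G x := by
  classical
  rw [orbPoly, Polynomial.map_prod]
  refine Finset.prod_bij (fun z _ => g z) ?_ ?_ ?_ ?_
  · intro z hz
    obtain ⟨h, hh, rfl⟩ := mem_orb.1 hz
    exact mem_orb.2 ⟨g * h, G.mul_mem hg hh, rfl⟩
  · intro a _ b _ hab
    exact g.injective hab
  · intro z hz
    obtain ⟨h, hh, rfl⟩ := mem_orb.1 hz
    refine ⟨g⁻¹ (h x), mem_orb.2 ⟨g⁻¹ * h, G.mul_mem (G.inv_mem hg) hh, rfl⟩, ?_⟩
    exact g.apply_symm_apply (h x)
  · intro z _
    simp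

theorem orbPoly_coeff_inv (G : Subgroup (S ≃ₐ[K] S)) [Finite G] (x : S) (k : ℕ)
    (g : S ≃ₐ[K] S) (hg : g ∈ G) : g ((orbPoly G x).coeff k) = (orbPoly G x).coeff k := by
  have h := congrArg (fun p => p.coeff k) (orbPoly_map G x g hg)
  simpa [Polynomial.coeff_map] using h

theorem orbPoly_eval (G : Subgroup (S ≃ₐ[K] S)) [Finite G] (x : S) :
    (orbPoly G x).eval x = 0 := by
  rw [orbPoly, Polynomial.eval_prod]
  apply Finset.prod_eq_zero (self_mem_orb G x)
  simp

theorem orbPoly_derivative_eval [DecidableEq S] (G : Subgroup (S ≃ₐ[K] S)) [Finite G] (x : S) :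
    (orbPoly G x).derivative.eval x = ∏ z ∈ (orb G x).erase x, (x - z) := by
  rw [orbPoly, ← Finset.mul_prod_erase _ _ (self_mem_orb G x), Polynomial.derivative_mul]
  simp [Polynomial.eval_prod]

theorem derivation_eval (D : Derivation K S S) (F : Polynomial S) (x : S) :
    D (F.eval x) = ∑ k ∈ range (F.natDegree + 1), D (F.coeff k) * x ^ k
      + F.derivative.eval x * D x := by
  rw [Polynomial.eval_eq_sum_range, map_sum, Polynomial.derivative_eval,
    Polynomial.sum_over_range _ (by simp), Finset.sum_mul, ← Finset.sum_add_distrib]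
  refine Finset.sum_congr rfl fun k _ => ?_
  rw [Derivation.leibniz, Derivation.leibniz_pow, smul_eq_mul, smul_eq_mul, smul_eq_mul,
    nsmul_eq_mul]
  ring

/-- relation for the elements killed by the combination `∑ c_b φ(E_b)`, `D_b f = lam_b E_b`. -/
theorem exists_E_of_mem_adjoin {ι κ : Type*} [Fintype ι] {L : Type*} [Field L] [Algebra K L]
    (φ : S →ₐ[K] L) (D : ι → Derivation K S S) (lam : ι → S) (P : κ → S)
    (T : κ → ι → S) (hT : ∀ j b, D b (P j) = lam b * T j b) (c : ι → L)
    (hc : ∀ j, ∑ b, φ (T j b) * c b = 0) (f : S) (hf : f ∈ Algebra.adjoin K (Set.range P)) :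
    ∃ E : ι → S, (∀ b, D b f = lam b * E b) ∧ ∑ b, φ (E b) * c b = 0 := by
  induction hf using Algebra.adjoin_induction with
  | mem x hx =>
    obtain ⟨j, rfl⟩ := hx
    exact ⟨T j, hT j, hc j⟩
  | algebraMap r =>
    exact ⟨0, fun b => by simp, by simp⟩
  | add x y _ _ hx hy =>
    obtain ⟨E, hE, hE0⟩ := hx
    obtain ⟨E', hE', hE0'⟩ := hy
    refine ⟨E + E', fun b => ?_, ?_⟩
    · rw [map_add, hE, hE', Pi.add_apply]; ring
    · simp only [Pi.add_apply, map_add, add_mul, Finset.sum_add_distrib, hE0, hE0', add_zero]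
  | mul x y _ _ hx hy =>
    obtain ⟨E, hE, hE0⟩ := hx
    obtain ⟨E', hE', hE0'⟩ := hy
    refine ⟨fun b => x * E' b + y * E b, fun b => ?_, ?_⟩
    · rw [Derivation.leibniz, hE, hE', smul_eq_mul, smul_eq_mul]; ring
    · have : ∀ b, φ (x * E' b + y * E b) * c b = φ x * (φ (E' b) * c b) + φ y * (φ (E b) * c b) := by
        intro b
        rw [map_add, map_mul, map_mul]; ring
      simp only [this, Finset.sum_add_distrib, ← Finset.mul_sum, hE0, hE0', mul_zero, add_zero]

/-- **Derivation lemma.** -/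
theorem der_lemma [Infinite K] (G : Subgroup (S ≃ₐ[K] S)) [Finite G] {ι κ : Type*} [Fintype ι]
    [DecidableEq ι]
    {L : Type*} [Field L] [Algebra K L] (φ : S →ₐ[K] L) (P : κ → S)
    (hP : ∀ f, (∀ g ∈ G, g f = f) → f ∈ Algebra.adjoin K (Set.range P))
    (D : ι → Derivation K S S) (lam : ι → S) (hlam : ∀ b, lam b ≠ 0)
    (T : κ → ι → S) (hT : ∀ j b, D b (P j) = lam b * T j b)
    (Y : ι → S) (kap : ι → K) (hkap : ∀ b, kap b ≠ 0)
    (hY : ∀ a b, D a (Y b) = if a = b then lam a * algebraMap K S (kap b) else 0)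
    (c : ι → L) (hc : ∀ j, ∑ b, φ (T j b) * c b = 0) (hc0 : c ≠ 0) :
    ∃ w ∈ G, (∃ b, w (Y b) ≠ Y b) ∧ ∀ b, φ (w (Y b)) = φ (Y b) := by
  classical
  by_contra hcon
  push Not at hcon
  -- the linear combination `y_t`
  let y : (ι → K) →ₗ[K] S := Fintype.linearCombination K Y
  have hy : ∀ t, y t = ∑ b, t b • Y b := fun t => by simp [y, Fintype.linearCombination_apply]
  let G' := {w : G // ∃ b, (w : S ≃ₐ[K] S) (Y b) ≠ Y b}
  let V : Option G' → Submodule K (ι → K) := fun o => match o with
    | none => LinearMap.ker (∑ b, (LinearMap.toSpanSingleton K L (algebraMap K L (kap b) * c b)).comp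
        (LinearMap.proj b))
    | some w => LinearMap.ker ((φ.toLinearMap.comp ((w.1 : S ≃ₐ[K] S).toLinearMap - LinearMap.id)).comp y)
  have hVtop : ∀ o, V o ≠ ⊤ := by
    intro o ho
    match o with
    | none =>
      obtain ⟨b, hb⟩ := Function.ne_iff.1 hc0
      have h1 : Pi.single b (1 : K) ∈ V none := by rw [ho]; trivial
      simp only [V, LinearMap.mem_ker, LinearMap.coe_sum, Finset.sum_apply, LinearMap.comp_apply,
        LinearMap.proj_apply, LinearMap.toSpanSingleton_apply] at h1
      rw [Finset.sum_eq_single b] at h1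
      · rw [Pi.single_eq_same, one_smul] at h1
        rcases mul_eq_zero.1 h1 with h2 | h2
        · exact hkap b ((map_eq_zero _).1 h2)
        · exact hb h2
      · intro a _ hab
        rw [Pi.single_eq_of_ne hab, zero_smul]
      · intro h; exact absurd (Finset.mem_univ b) h
    | some w =>
      obtain ⟨b, hb⟩ := hcon w.1 w.1.2 w.2
      apply hb
      have h1 : Pi.single b (1 : K) ∈ V (some w) := by rw [ho]; trivial
      simp only [V, LinearMap.mem_ker, LinearMap.comp_apply, LinearMap.sub_apply,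
        LinearMap.id_apply, AlgHom.toLinearMap_apply, AlgEquiv.toLinearMap_apply] at h1
      rw [hy, Finset.sum_eq_single b] at h1
      · rw [Pi.single_eq_same, one_smul, map_sub, sub_eq_zero] at h1
        exact h1
      · intro a _ hab
        rw [Pi.single_eq_of_ne hab, zero_smul]
      · intro h; exact absurd (Finset.mem_univ b) h
  have hfin : Finite (Option G') := inferInstance
  obtain ⟨t, ht⟩ : ∃ t, ∀ o, t ∉ V o := by
    by_contra hall
    push Not at hall
    obtain ⟨o, ho⟩ := Subspace.exists_eq_top_of_iUnion_eq_univ (p := V) (by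
      rw [Set.eq_univ_iff_forall]
      intro t
      obtain ⟨o, ho⟩ := hall t
      exact Set.mem_iUnion.2 ⟨o, ho⟩)
    exact hVtop o ho
  -- the element `y t`
  set x := y t with hx
  set F := orbPoly G x with hF
  have hDx : ∀ a, D a x = lam a * algebraMap K S (t a * kap a) := by
    intro a
    rw [hx, hy, map_sum, Finset.sum_eq_single a]
    · rw [Derivation.map_smul, hY, if_pos rfl, Algebra.smul_def, map_mul]; ring
    · intro b _ hab
      rw [Derivation.map_smul, hY, if_neg (Ne.symm hab), smul_zero]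
    · intro h; exact absurd (Finset.mem_univ a) h
  have hE : ∀ k, ∃ E : ι → S, (∀ b, D b (F.coeff k) = lam b * E b) ∧ ∑ b, φ (E b) * c b = 0 := by
    intro k
    apply exists_E_of_mem_adjoin φ D lam P T hT c hc
    apply hP
    intro g hg
    exact orbPoly_coeff_inv G x k g hg
  choose E hE1 hE2 using hE
  have hkey : ∀ b, ∑ k ∈ range (F.natDegree + 1), E k b * x ^ k
      + (∏ z ∈ (orb G x).erase x, (x - z)) * algebraMap K S (t b * kap b) = 0 := by
    intro b
    have h1 := derivation_eval (D b) F x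
    rw [hF, orbPoly_eval, map_zero, ← hF, hDx, hF, orbPoly_derivative_eval, ← hF] at h1
    have h2 : lam b * (∑ k ∈ range (F.natDegree + 1), E k b * x ^ k
      + (∏ z ∈ (orb G x).erase x, (x - z)) * algebraMap K S (t b * kap b)) = 0 := by
      rw [mul_add, Finset.mul_sum, h1]
      congr 1
      · refine Finset.sum_congr rfl fun k _ => ?_
        rw [hE1]; ring
      · ring
    exact (mul_eq_zero.1 h2).resolve_left (hlam b)
  have hsum : φ (∏ z ∈ (orb G x).erase x, (x - z)) * ∑ b, algebraMap K L (t b * kap b) * c b = 0 := by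
    have h1 : ∑ b, φ (∑ k ∈ range (F.natDegree + 1), E k b * x ^ k
      + (∏ z ∈ (orb G x).erase x, (x - z)) * algebraMap K S (t b * kap b)) * c b = 0 := by
      apply Finset.sum_eq_zero
      intro b _
      rw [hkey, map_zero, zero_mul]
    have h2 : ∑ b, φ (∑ k ∈ range (F.natDegree + 1), E k b * x ^ k) * c b = 0 := by
      simp only [map_sum, Finset.sum_mul, map_mul, map_pow]
      rw [Finset.sum_comm]
      apply Finset.sum_eq_zero
      intro k _
      have : ∀ b, φ (E k b) * φ x ^ k * c b = φ x ^ k * (φ (E k b) * c b) := fun b => by ring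
      simp only [this, ← Finset.mul_sum, hE2, mul_zero]
    simp only [map_add, add_mul, Finset.sum_add_distrib] at h1
    rw [h2, zero_add] at h1
    rw [Finset.mul_sum, ← h1]
    refine Finset.sum_congr rfl fun b _ => ?_
    rw [map_mul φ, AlgHom.commutes]
    ring
  rcases mul_eq_zero.1 hsum with h1 | h1
  · rw [map_prod, Finset.prod_eq_zero_iff] at h1
    obtain ⟨z, hz, hz0⟩ := h1
    rw [Finset.mem_erase] at hz
    obtain ⟨w, hw, hwz⟩ := mem_orb.1 hz.2
    have hne : ∃ b, w (Y b) ≠ Y b := by
      by_contra hall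
      push Not at hall
      apply hz.1
      rw [← hwz, hx, hy, map_sum]
      refine Finset.sum_congr rfl fun b _ => ?_
      rw [map_smul, hall]
    apply ht (some ⟨⟨w, hw⟩, hne⟩)
    simp only [V, LinearMap.mem_ker, LinearMap.comp_apply, LinearMap.sub_apply,
        LinearMap.id_apply, AlgHom.toLinearMap_apply, AlgEquiv.toLinearMap_apply]
    rw [← hx, hwz, map_sub, sub_eq_zero]
    rw [map_sub, sub_eq_zero] at hz0
    exact hz0.symm
  · apply ht none
    simp only [V, LinearMap.mem_ker, LinearMap.coe_sum, Finset.sum_apply, LinearMap.comp_apply,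
        LinearMap.proj_apply, LinearMap.toSpanSingleton_apply]
    rw [← h1]
    refine Finset.sum_congr rfl fun b _ => ?_
    rw [Algebra.smul_def, map_mul]; ring

end Der

end Pool.Agent.LS
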