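import Pool.Agent.LS.W
import Pool.Agent.LS.Der

/-!
# Ramification of `S` over `S^W`
-/

namespace Pool.Agent.LS

open MvPolynomial Finset Matrix

set_option linter.unusedSectionVars false

section LinForms

variable {l : ℕ}

/-- linear form with complex coefficients -/
noncomputable def linC (v : Fin l → ℂ) : MvPolynomial (Fin l) ℂ := ∑ k, C (v k) * X k

theorem coeff_linC (v : Fin l → ℂ) (j : Fin l) :
    coeff (Finsupp.single j 1) (linC v) = v j := by
  classical
  rw [linC, coeff_sum, sum_eq_single j]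
  · rw [coeff_C_mul, coeff_X, if_pos rfl, mul_one]
  · intro k _ hk
    rw [coeff_C_mul, coeff_X, if_neg, mul_zero]
    intro h
    exact hk (Finsupp.single_left_injective one_ne_zero h)
  · simp

theorem linC_eq_zero {v : Fin l → ℂ} (h : linC v = 0) : v = 0 := by
  funext j
  rw [← coeff_linC v j, h, coeff_zero]; rfl

theorem isHomogeneous_linC (v : Fin l → ℂ) : (linC v).IsHomogeneous 1 := by
  apply IsHomogeneous.sum
  intro b _
  have h := (isHomogeneous_C (Fin l) (v b)).mul (isHomogeneous_X ℂ b)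
  rwa [zero_add] at h

theorem totalDegree_linC {v : Fin l → ℂ} (hv : v ≠ 0) : (linC v).totalDegree = 1 :=
  (isHomogeneous_linC v).totalDegree (fun h => hv (linC_eq_zero h))

theorem irreducible_linC {v : Fin l → ℂ} (hv : v ≠ 0) : Irreducible (linC v) := by
  apply irreducible_of_totalDegree_eq_one (totalDegree_linC hv)
  intro x hx
  obtain ⟨j, hj⟩ := Function.ne_iff.1 hv
  have h1 := hx (Finsupp.single j 1)
  rw [coeff_linC] at h1
  rw [isUnit_iff_ne_zero]
  rintro rfl
  exact hj (zero_dvd_iff.1 h1)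

theorem prime_linC {v : Fin l → ℂ} (hv : v ≠ 0) : Prime (linC v) :=
  (irreducible_linC hv).prime

theorem linC_dvd {v w : Fin l → ℂ} (hv : v ≠ 0) (h : linC v ∣ linC w) :
    ∃ c : ℂ, linC w = C c * linC v := by
  by_cases hw : w = 0
  · refine ⟨0, ?_⟩
    rw [hw]; simp [linC]
  · obtain ⟨g, hg⟩ := h
    have hg0 : g ≠ 0 := by
      rintro rfl
      rw [mul_zero] at hg
      exact hw (linC_eq_zero hg)
    have h1 := congrArg totalDegree hg
    rw [totalDegree_mul_of_isDomain (fun h => hv (linC_eq_zero h)) hg0, totalDegree_linC hv,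
      totalDegree_linC hw] at h1
    have h2 : g.totalDegree = 0 := by omega
    rw [totalDegree_eq_zero_iff_eq_C] at h2
    refine ⟨coeff 0 g, ?_⟩
    rw [hg]
    nth_rewrite 1 [h2]
    ring

theorem linC_single (i : Fin l) : linC (Pi.single i (1 : ℂ)) = X i := by
  rw [linC, sum_eq_single i]
  · simp
  · intro j _ hj
    simp [hj]
  · simp

theorem prime_X' (i : Fin l) : Prime (X i : MvPolynomial (Fin l) ℂ) := by
  rw [← linC_single]
  apply prime_linC
  intro h
  have := congrFun h i
  simp at this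

end LinForms

section Unram

variable {l : ℕ} {A : Matrix (Fin l) (Fin l) ℤ}

/-- the residue field map at a prime element -/
noncomputable def resMap (q : MvPolynomial (Fin l) ℂ) :
    MvPolynomial (Fin l) ℂ →ₐ[ℂ] FractionRing (MvPolynomial (Fin l) ℂ ⧸ Ideal.span {q}) :=
  (IsScalarTower.toAlgHom ℂ (MvPolynomial (Fin l) ℂ ⧸ Ideal.span {q}) _).comp
    (Ideal.Quotient.mkₐ ℂ (Ideal.span {q}))

theorem resMap_eq_zero {q : MvPolynomial (Fin l) ℂ} (f : MvPolynomial (Fin l) ℂ) :
    resMap q f = 0 ↔ q ∣ f := by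
  rw [resMap, AlgHom.comp_apply, IsScalarTower.toAlgHom_apply, Ideal.Quotient.mkₐ_eq_mk]
  rw [FaithfulSMul.algebraMap_eq_zero_iff, Ideal.Quotient.eq_zero_iff_mem, Ideal.mem_span_singleton]

variable (P : Fin l → MvPolynomial (Fin l) ℂ)

/-- Jacobian matrix, rows `j`, columns `a` -/
noncomputable def jacM : Matrix (Fin l) (Fin l) (MvPolynomial (Fin l) ℂ) :=
  Matrix.of fun j a => pderiv a (P j)

/-- the derivation lemma for the coordinate derivations -/
theorem der_coord (hA : SimplyLaced A)
    (hgen : ∀ f : MvPolynomial (Fin l) ℂ, (∀ i, refl A i f = f) →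
      f ∈ Algebra.adjoin ℂ (Set.range P))
    {L : Type*} [Field L] [Algebra ℂ L] (φ : MvPolynomial (Fin l) ℂ →ₐ[ℂ] L)
    (h0 : φ (jacM P).det = 0) :
    ∃ w ∈ WG hA, w ≠ 1 ∧ ∀ b, φ (w (X b)) = φ (X b) := by
  have : Finite (WG hA) := finite_WG hA
  have h1 : ((jacM P).map φ).det = 0 := by
    rw [← h0]
    exact (AlgHom.map_det φ (jacM P)).symm
  obtain ⟨c, hc0, hc⟩ := Matrix.exists_mulVec_eq_zero_iff.2 h1
  obtain ⟨w, hw, ⟨b, hb⟩, hφ⟩ := der_lemma (WG hA) φ P (fun f hf => hgen f ((inv_iff hA f).2 hf))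
    (fun b => pderiv b) (fun _ => 1) (fun _ => one_ne_zero) (fun j b => pderiv b (P j))
    (fun j b => by rw [one_mul]) (fun b => X b) (fun _ => 1) (fun _ => one_ne_zero)
    (fun a b => by
      rw [pderiv_X]
      by_cases h : a = b
      · subst h; simp
      · rw [Pi.single_eq_of_ne (Ne.symm h), if_neg h])
    c (fun j => by
      have := congrFun hc j
      simpa [Matrix.mulVec, dotProduct, jacM] using this) hc0
  refine ⟨w, hw, ?_, hφ⟩
  rintro rfl
  exact hb rfl

theorem jac_ne_zero (hA : SimplyLaced A)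
    (hgen : ∀ f : MvPolynomial (Fin l) ℂ, (∀ i, refl A i f = f) →
      f ∈ Algebra.adjoin ℂ (Set.range P)) : (jacM P).det ≠ 0 := by
  intro h0
  obtain ⟨w, hw, hne, hφ⟩ := der_coord P hA hgen
    (IsScalarTower.toAlgHom ℂ (MvPolynomial (Fin l) ℂ) (FractionRing (MvPolynomial (Fin l) ℂ)))
    (by rw [h0, map_zero])
  apply hne
  apply WG_ext
  intro a
  exact IsFractionRing.injective (MvPolynomial (Fin l) ℂ) (FractionRing (MvPolynomial (Fin l) ℂ))
    (hφ a)

/-- every prime factor of the Jacobian is conjugate to a simple root -/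
theorem prime_dvd_jac (hA : SimplyLaced A)
    (hgen : ∀ f : MvPolynomial (Fin l) ℂ, (∀ i, refl A i f = f) →
      f ∈ Algebra.adjoin ℂ (Set.range P))
    (q : MvPolynomial (Fin l) ℂ) (hq : Prime q) (hdvd : q ∣ (jacM P).det) :
    ∃ w ∈ WG hA, ∃ i, Associated (w q) (X i) := by
  have hprime : (Ideal.span {q}).IsPrime := (Ideal.span_singleton_prime hq.ne_zero).2 hq
  obtain ⟨w, hw, hne, hφ⟩ := der_coord P hA hgen (resMap q) ((resMap_eq_zero _).2 hdvd)
  have hd : ∀ b, q ∣ w (X b) - X b := by
    intro b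
    rw [← resMap_eq_zero, map_sub, hφ, sub_self]
  obtain ⟨m, hm, _⟩ := WG_lin hA w hw
  have hlin : ∀ a, w (X a) - X a = linC (fun b => ((m a b : ℤ) : ℂ) - (Pi.single a (1 : ℂ) : Fin l → ℂ) b) := by
    intro a
    rw [hm, ← linC_single a, linC, linC, ← sum_sub_distrib]
    apply sum_congr rfl
    intro k _
    rw [map_sub]; ring
  -- pick `b` with `w X_b ≠ X_b`
  obtain ⟨b, hb⟩ : ∃ b, w (X b) ≠ X b := by
    by_contra hall
    push Not at hall
    exact hne (WG_ext _ _ hall)
  set v : Fin l → ℂ := fun k => ((m b k : ℤ) : ℂ) - (Pi.single b (1 : ℂ) : Fin l → ℂ) k with hv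
  have hv0 : v ≠ 0 := by
    intro h
    apply hb
    rw [← sub_eq_zero, hlin, ← hv, h]
    simp [linC]
  have hqv : Associated q (linC v) := by
    apply hq.irreducible.associated_of_dvd (irreducible_linC hv0)
    rw [hv, ← hlin]
    exact hd b
  obtain ⟨r, hr, hr0, c, hc0, hrc⟩ := WG_reflection_root hA w hw hne v (by
    intro a
    have h1 : linC v ∣ w (X a) - X a := hqv.symm.dvd.trans (hd a)
    rw [hlin] at h1
    obtain ⟨c, hc⟩ := linC_dvd hv0 h1
    exact ⟨c, by rw [hlin, hc]; rfl⟩)
  obtain ⟨u, hu, i, hui⟩ := WG_conj_simple hA r hr hr0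
  refine ⟨u, hu, i, ?_⟩
  rw [← hui]
  have h1 : Associated q (lin r) := by
    rw [hrc]
    refine hqv.trans ?_
    have hunit : IsUnit (C c : MvPolynomial (Fin l) ℂ) := (isUnit_iff_ne_zero.2 hc0).map C
    obtain ⟨e, he⟩ := hunit
    refine ⟨e, ?_⟩
    rw [he, mul_comm]
    rfl
  obtain ⟨e, he⟩ := h1
  refine ⟨Units.map (u : MvPolynomial (Fin l) ℂ →* MvPolynomial (Fin l) ℂ) e, ?_⟩
  rw [← he, map_mul]
  rfl


/-! ### Adapted coordinates at a simple root -/

/-- the derivation in the direction of the simple root `i` -/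
noncomputable def dirD (A : Matrix (Fin l) (Fin l) ℤ) (i : Fin l) :
    Derivation ℂ (MvPolynomial (Fin l) ℂ) (MvPolynomial (Fin l) ℂ) :=
  ∑ a, ((A i a : ℂ) / 2) • pderiv a

theorem dirD_apply (i : Fin l) (f : MvPolynomial (Fin l) ℂ) :
    dirD A i f = ∑ a, C ((A i a : ℂ) / 2) * pderiv a f := by
  have h := map_sum (Derivation.coeFnAddMonoidHom (R := ℂ) (A := MvPolynomial (Fin l) ℂ)
    (M := MvPolynomial (Fin l) ℂ)) (fun a : Fin l => ((A i a : ℂ) / 2) • pderiv a) univ
  have h2 := congrFun h f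
  rw [Finset.sum_apply] at h2
  refine Eq.trans h2 (sum_congr rfl fun a _ => ?_)
  rw [← smul_eq_C_mul]
  rfl

theorem dirD_X (i b : Fin l) : dirD A i (X b) = C ((A i b : ℂ) / 2) := by
  rw [dirD_apply, sum_eq_single b]
  · rw [pderiv_X_self, mul_one]
  · intro a _ ha
    rw [pderiv_X_of_ne (Ne.symm ha), mul_zero]
  · intro h; exact absurd (mem_univ b) h

theorem dirD_refl (hA : SimplyLaced A) (i : Fin l) (f : MvPolynomial (Fin l) ℂ) :
    dirD A i (refl A i f) = - refl A i (dirD A i f) := by
  have hC : ∀ c : ℂ, refl A i (C c) = C c := fun c => by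
    rw [← algebraMap_eq, AlgHom.commutes]
  induction f using MvPolynomial.induction_on with
  | C a => rw [hC, derivation_C, map_zero, neg_zero]
  | add p q hp hq => rw [map_add, map_add, hp, hq, map_add, map_add]; ring
  | mul_X p j ih =>
    rw [map_mul, Derivation.leibniz, Derivation.leibniz, ih, refl_X, map_sub, dirD_X,
      Derivation.leibniz, derivation_C, dirD_X, hA.diag, smul_eq_mul, smul_eq_mul, smul_eq_mul,
      smul_eq_mul, smul_eq_mul, smul_eq_mul, map_add, map_mul, map_mul, hC, refl_X]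
    have : (((2 : ℤ) : ℂ) / 2) = 1 := by norm_num
    rw [this, C_1]
    have h2 : (C (A i j : ℂ) : MvPolynomial (Fin l) ℂ) = C ((A i j : ℂ) / 2) + C ((A i j : ℂ) / 2) := by
      rw [← map_add]; congr 1; ring
    rw [h2]
    ring

theorem X_dvd_dirD (hA : SimplyLaced A) (i : Fin l) (f : MvPolynomial (Fin l) ℂ)
    (hf : refl A i f = f) : X i ∣ dirD A i f := by
  have h1 := dirD_refl hA i f
  rw [hf] at h1
  have h2 := X_dvd_sub_refl (A := A) i (dirD A i f)
  have h3 : dirD A i f - refl A i (dirD A i f) = C 2 * dirD A i f := by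
    have : refl A i (dirD A i f) = - dirD A i f := (neg_eq_iff_eq_neg.2 h1).symm
    rw [this]
    have h4 : (C (2 : ℂ) : MvPolynomial (Fin l) ℂ) = 2 := map_ofNat C 2
    rw [h4]; ring
  rw [h3] at h2
  have hunit : IsUnit (C (2 : ℂ) : MvPolynomial (Fin l) ℂ) :=
    (isUnit_iff_ne_zero.2 two_ne_zero).map C
  exact (hunit.dvd_mul_left).1 h2

/-- Jacobian in adapted coordinates at the simple root `i`, divided by `X i`: it is not divisible
by `X i`. -/
theorem exists_frame (hA : SimplyLaced A) (hinv : ∀ i j, refl A i (P j) = P j)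
    (hgen : ∀ f : MvPolynomial (Fin l) ℂ, (∀ i, refl A i f = f) →
      f ∈ Algebra.adjoin ℂ (Set.range P)) (i : Fin l) :
    ∃ T : Matrix (Fin l) (Fin l) (MvPolynomial (Fin l) ℂ),
      (∀ j b, b ≠ i → T j b = pderiv b (P j)) ∧ (∀ j, X i * T j i = dirD A i (P j)) ∧
      ¬ X i ∣ T.det := by
  classical
  have hex : ∀ j, ∃ E, dirD A i (P j) = X i * E := fun j => X_dvd_dirD hA i (P j) (hinv i j)
  choose E hE using hex
  let T : Matrix (Fin l) (Fin l) (MvPolynomial (Fin l) ℂ) :=
    Matrix.of fun j b => if b = i then E j else pderiv b (P j)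
  refine ⟨T, ?_, ?_, ?_⟩
  · intro j b hb
    simp [T, hb]
  · intro j
    simp [T, hE]
  intro hdvd
  have hprime : (Ideal.span {(X i : MvPolynomial (Fin l) ℂ)}).IsPrime :=
    (Ideal.span_singleton_prime (prime_X' i).ne_zero).2 (prime_X' i)
  have hfin : Finite (WG hA) := finite_WG hA
  set φ := resMap (X i : MvPolynomial (Fin l) ℂ) with hφdef
  have h1 : (T.map φ).det = 0 := by
    have h2 := (resMap_eq_zero _).2 hdvd
    rw [← h2]
    exact (AlgHom.map_det φ T).symm
  obtain ⟨c, hc0, hc⟩ := Matrix.exists_mulVec_eq_zero_iff.2 h1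
  let D : Fin l → Derivation ℂ (MvPolynomial (Fin l) ℂ) (MvPolynomial (Fin l) ℂ) :=
    fun b => if b = i then dirD A i else pderiv b
  let lam : Fin l → MvPolynomial (Fin l) ℂ := fun b => if b = i then X i else 1
  let Y : Fin l → MvPolynomial (Fin l) ℂ :=
    fun b => if b = i then X i ^ 2 else X b - C ((A i b : ℂ) / 2) * X i
  let kap : Fin l → ℂ := fun b => if b = i then 2 else 1
  obtain ⟨w, hw, ⟨b, hb⟩, hφ⟩ := der_lemma (WG hA) φ P (fun f hf => hgen f ((inv_iff hA f).2 hf))
    D lam (fun b => by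
      by_cases h : b = i
      · simp only [lam, h, if_true]; exact (prime_X' i).ne_zero
      · simp [lam, h])
    (fun j b => T j b)
    (fun j b => by
      by_cases h : b = i
      · subst h; simp only [D, lam, T, if_true, Matrix.of_apply]; exact hE j
      · simp [D, lam, T, h])
    Y kap (fun b => by
      by_cases h : b = i
      · simp [kap, h]
      · simp [kap, h])
    (fun a b => by
      by_cases ha : a = i
      · subst ha
        by_cases hb : b = a
        · subst hb
          simp only [D, Y, lam, kap, if_true]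
          rw [pow_two, Derivation.leibniz, dirD_X, hA.diag, smul_eq_mul, algebraMap_eq]
          have : (((2 : ℤ) : ℂ) / 2) = 1 := by norm_num
          rw [this, C_1]
          have h4 : (C (2 : ℂ) : MvPolynomial (Fin l) ℂ) = 2 := map_ofNat C 2
          rw [h4]; ring
        · simp only [D, Y, if_neg hb, if_neg (Ne.symm hb), if_true]
          rw [map_sub, Derivation.leibniz, derivation_C, dirD_X, dirD_X, hA.diag, smul_eq_mul,
            smul_eq_mul]
          have : (((2 : ℤ) : ℂ) / 2) = 1 := by norm_num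
          rw [this, C_1]
          ring
      · by_cases hb : b = i
        · subst hb
          simp only [D, Y, if_neg ha, if_true]
          rw [pow_two, Derivation.leibniz, pderiv_X_of_ne (Ne.symm ha)]
          simp
        · simp only [D, Y, lam, kap, if_neg ha, if_neg hb]
          rw [map_sub, Derivation.leibniz, pderiv_C, pderiv_X_of_ne (Ne.symm ha)]
          by_cases hab : a = b
          · subst hab; simp
          · rw [if_neg hab, pderiv_X_of_ne (Ne.symm hab)]; simp)
    c (fun j => by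
      have := congrFun hc j
      simpa [Matrix.mulVec, dotProduct] using this) hc0
  -- `w` fixes the wall
  have hXi : (X i : MvPolynomial (Fin l) ℂ) ∣ w (X i) := by
    have h2 := hφ i
    simp only [Y, if_true] at h2
    rw [← sub_eq_zero, ← map_sub, hφdef, resMap_eq_zero, map_pow] at h2
    have h3 : (X i : MvPolynomial (Fin l) ℂ) ∣ w (X i) ^ 2 := by
      have h4 := dvd_add h2 (dvd_pow_self (X i : MvPolynomial (Fin l) ℂ) two_ne_zero)
      rwa [sub_add_cancel] at h4
    exact (prime_X' i).dvd_of_dvd_pow h3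
  have hXb : ∀ b, (X i : MvPolynomial (Fin l) ℂ) ∣ w (X b) - X b := by
    intro b
    by_cases h : b = i
    · subst h
      exact dvd_sub hXi dvd_rfl
    · have h2 := hφ b
      simp only [Y, if_neg h] at h2
      rw [← sub_eq_zero, ← map_sub, hφdef, resMap_eq_zero, map_sub, map_mul] at h2
      have h3 : w (X b) - X b = (w (X b) - w (C ((A i b : ℂ) / 2)) * w (X i)
          - (X b - C ((A i b : ℂ) / 2) * X i)) + (w (C ((A i b : ℂ) / 2)) * w (X i)
          - C ((A i b : ℂ) / 2) * X i) := by ring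
      rw [h3]
      exact dvd_add h2 (dvd_sub (hXi.mul_left _) (dvd_mul_left _ _))
  obtain ⟨L, hL⟩ := (mem_WG hA w).1 hw
  have hc : ∀ j, ∃ c : ℤ, wv A L (ee j) = ee j + c • ee i := by
    intro j
    refine ⟨(wv A L (ee j) - ee j) i, ?_⟩
    have h2 := hXb j
    rw [hL, wp_X, ← lin_ee j, ← lin_sub] at h2
    have h3 : ∀ k, k ≠ i → (wv A L (ee j) - ee j) k = 0 := by
      intro k hk
      obtain ⟨g, hg⟩ := h2
      have h4 := congrArg (coeff (Finsupp.single k 1)) hg
      rw [coeff_lin, coeff_X_mul', if_neg] at h4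
      · exact_mod_cast h4
      · rw [Finsupp.mem_support_iff, Finsupp.single_eq_of_ne (Ne.symm hk)]
        simp
    funext k
    by_cases hk : k = i
    · subst hk
      simp [ee]
    · have h5 := h3 k hk
      rw [Pi.sub_apply, sub_eq_zero] at h5
      rw [h5]
      simp [ee, hk]
  rcases eq_one_or_sv hA i L hc with h | h
  · apply hb
    have hw1 : w = 1 := by
      apply WG_ext
      intro a
      rw [hL, wp_X, h]
      exact lin_ee a
    rw [hw1]
    rfl
  · apply hb
    have hw1 : w = reflE hA i := by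
      apply WG_ext
      intro a
      rw [hL, wp_X, h, ← refl_lin, lin_ee]
      rfl
    rw [hw1, reflE_apply]
    by_cases hbi : b = i
    · subst hbi
      simp only [Y, if_true]
      rw [map_pow, refl_X, hA.diag]
      have h4 : (C (((2 : ℤ) : ℂ)) : MvPolynomial (Fin l) ℂ) = 2 := by
        have : (((2 : ℤ) : ℂ)) = 2 := by norm_num
        rw [this]; exact map_ofNat C 2
      rw [h4]; ring
    · simp only [Y, if_neg hbi]
      rw [map_sub, map_mul, refl_X, refl_X, hA.diag, ← algebraMap_eq, AlgHom.commutes, algebraMap_eq]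
      have h4 : (C (((2 : ℤ) : ℂ)) : MvPolynomial (Fin l) ℂ) = 2 := by
        have : (((2 : ℤ) : ℂ)) = 2 := by norm_num
        rw [this]; exact map_ofNat C 2
      have h2 : (C (A i b : ℂ) : MvPolynomial (Fin l) ℂ) = C ((A i b : ℂ) / 2) + C ((A i b : ℂ) / 2) := by
        rw [← map_add]; congr 1; ring
      rw [h4, h2]
      ring

end Unram

end Pool.Agent.LS
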