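import Pool.Agent.LS.Count
import Pool.Agent.LS.Unram
import Pool.Agent.LS.Chev2

/-!
# Algebraic independence of the basic invariants and of their jets
-/

namespace Pool.Agent.LS

open MvPolynomial Finset

section Jac

variable {l : ℕ}

theorem totalDegree_pderiv_le {σ : Type*} (j : σ) (H : MvPolynomial σ ℂ) (n : ℕ)
    (hH : H.totalDegree ≤ n + 1) : (pderiv j H).totalDegree ≤ n := by
  rw [totalDegree, Finset.sup_le_iff]
  intro m hm
  rw [mem_support_iff, coeff_pderiv] at hm
  have h1 : coeff (m + Finsupp.single j 1) H ≠ 0 := left_ne_zero_of_mul hm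
  have h2 := (le_totalDegree (mem_support_iff.2 h1)).trans hH
  rw [Finsupp.sum_add_index' (fun _ => rfl) (fun _ _ _ => rfl),
    Finsupp.sum_single_index rfl] at h2
  omega

theorem eq_C_of_pderiv_eq_zero {σ : Type*} (H : MvPolynomial σ ℂ)
    (hH : ∀ j, pderiv j H = 0) : H = C (coeff 0 H) := by
  classical
  ext m
  rw [coeff_C]
  split_ifs with h
  · rw [h]
  · by_contra hne
    have hm : m ≠ 0 := fun h0 => h h0.symm
    obtain ⟨j, hj⟩ := Finsupp.ne_iff.1 hm
    rw [Finsupp.zero_apply] at hj
    have h1 := congrArg (coeff (m - Finsupp.single j 1)) (hH j)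
    rw [coeff_pderiv, coeff_zero] at h1
    have h2 : m - Finsupp.single j 1 + Finsupp.single j 1 = m := by
      ext i
      rw [Finsupp.add_apply, Finsupp.tsub_apply]
      by_cases hi : i = j
      · subst hi
        rw [Finsupp.single_eq_same]
        omega
      · rw [Finsupp.single_eq_of_ne hi]
        omega
    rw [h2] at h1
    rcases mul_eq_zero.1 h1 with h3 | h3
    · exact hne h3
    · have h4 : (((m - Finsupp.single j 1 : σ →₀ ℕ) j + 1 : ℕ) : ℂ) ≠ 0 :=
        Nat.cast_ne_zero.2 (Nat.succ_ne_zero _)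
      apply h4
      push_cast
      exact h3

/-- Jacobian criterion (easy direction, characteristic zero) -/
theorem algebraicIndependent_of_jac (P : Fin l → MvPolynomial (Fin l) ℂ)
    (hJ : (jacM P).det ≠ 0) : AlgebraicIndependent ℂ P := by
  have key : ∀ n : ℕ, ∀ H : MvPolynomial (Fin l) ℂ, H.totalDegree ≤ n → aeval P H = 0 → H = 0 := by
    intro n
    induction n with
    | zero =>
      intro H hdeg h0
      have h1 := (totalDegree_eq_zero_iff_eq_C).1 (Nat.le_zero.1 hdeg)
      rw [h1] at h0 ⊢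
      rw [← algebraMap_eq, AlgHom.commutes, algebraMap_eq] at h0
      rw [C_eq_zero.1 h0, C_0]
    | succ n ih =>
      intro H hdeg h0
      have hv : (fun j => aeval P (pderiv j H)) = 0 := by
        apply Matrix.eq_zero_of_vecMul_eq_zero hJ
        funext a
        rw [Matrix.vecMul, dotProduct, Pi.zero_apply]
        have h1 := pderiv_aeval' P a H
        rw [h0, map_zero] at h1
        rw [h1]
        rfl
      have hd : ∀ j, pderiv j H = 0 := fun j =>
        ih _ (totalDegree_pderiv_le j H n hdeg) (congrFun hv j)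
      have h1 := eq_C_of_pderiv_eq_zero H hd
      rw [h1] at h0 ⊢
      rw [← algebraMap_eq, AlgHom.commutes, algebraMap_eq] at h0
      rw [C_eq_zero.1 h0, C_0]
  rw [algebraicIndependent_iff]
  intro H h0
  exact key _ H le_rfl h0

end Jac

section Scal

variable {σ S : Type*} [CommRing S]

theorem coeff_scal (D : S) (F : MvPolynomial σ S) (m : σ →₀ ℕ) :
    coeff m (aeval (fun i => C D * X i : σ → MvPolynomial σ S) F)
      = coeff m F * D ^ (m.sum fun _ e => e) := by
  classical
  rw [aeval_def, eval₂_eq, coeff_sum]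
  have hterm : ∀ d ∈ F.support, coeff m (algebraMap S (MvPolynomial σ S) (coeff d F) *
      ∏ i ∈ d.support, (C D * X i : MvPolynomial σ S) ^ d i)
      = if d = m then coeff m F * D ^ (m.sum fun _ e => e) else 0 := by
    intro d _
    have h1 : ∏ i ∈ d.support, (C D * X i : MvPolynomial σ S) ^ d i
        = C (D ^ (d.sum fun _ e => e)) * monomial d 1 := by
      rw [monomial_eq, C_1, one_mul, Finsupp.prod, Finsupp.sum]
      rw [C_pow, ← Finset.prod_pow_eq_pow_sum, ← Finset.prod_mul_distrib]
      refine Finset.prod_congr rfl fun i _ => ?_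
      rw [mul_pow]
    rw [h1, algebraMap_eq, ← mul_assoc, ← C_mul, coeff_C_mul, coeff_monomial]
    split_ifs with h
    · subst h
      rw [mul_one]
    · rw [mul_zero]
  rw [Finset.sum_congr rfl hterm, Finset.sum_ite_eq' F.support m]
  split_ifs with h
  · rfl
  · rw [notMem_support_iff.1 h, zero_mul]

theorem algebraicIndependent_scal [IsDomain S] (D : S) (hD : D ≠ 0) :
    AlgebraicIndependent S (fun i => C D * X i : σ → MvPolynomial σ S) := by
  rw [algebraicIndependent_iff]
  intro F hF
  ext m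
  have h1 := congrArg (coeff m) hF
  rw [coeff_scal, coeff_zero] at h1
  rw [coeff_zero]
  exact (mul_eq_zero.1 h1).resolve_right (pow_ne_zero _ hD)

end Scal

section Jets

variable {l : ℕ} {A : Matrix (Fin l) (Fin l) ℤ}

/-- the substitution `x_{i,1} ↦ x_i`, `x_{i,k+2} ↦ ∑_j adj(J)_{ij} z_{j,k}` -/
noncomputable def Th (P : Fin l → MvPolynomial (Fin l) ℂ) :
    MvPolynomial (Fin l × ℕ) ℂ →ₐ[ℂ] MvPolynomial (Fin l × ℕ) (MvPolynomial (Fin l) ℂ) :=
  aeval (fun a : Fin l × ℕ =>
    match a with
    | (i, 0) => C (X i)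
    | (i, k + 1) => ∑ j, C ((jacM P).adjugate i j) * X (j, k))

theorem Th_rename (P : Fin l → MvPolynomial (Fin l) ℂ) (f : MvPolynomial (Fin l) ℂ) :
    Th P (rename (fun i : Fin l => ((i, 0) : Fin l × ℕ)) f) = C f := by
  rw [Th, aeval_rename]
  have h : ((IsScalarTower.toAlgHom ℂ (MvPolynomial (Fin l) ℂ)
      (MvPolynomial (Fin l × ℕ) (MvPolynomial (Fin l) ℂ))).comp
        (AlgHom.id ℂ (MvPolynomial (Fin l) ℂ))) f = C f := rfl
  rw [← h]
  refine DFunLike.congr_fun ?_ f
  apply algHom_ext
  intro i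
  rw [aeval_X]
  rfl

theorem Th_omega (B : BasicInvariants A) (j : Fin l) (k : ℕ) :
    Th B.P (omega B j k) = C (jacM B.P).det * X (j, k) := by
  rw [omega, map_sum]
  have h1 : ∀ i, Th B.P (rename (fun i : Fin l => ((i, 0) : Fin l × ℕ)) (pderiv i (B.P j)) *
      X (i, k + 1)) = ∑ j', C ((jacM B.P) j i * (jacM B.P).adjugate i j') * X (j', k) := by
    intro i
    rw [map_mul, Th_rename]
    have h2 : Th B.P (X (i, k + 1)) = ∑ j, C ((jacM B.P).adjugate i j) * X (j, k) := by
      rw [Th, aeval_X]
    rw [h2, mul_sum]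
    refine Finset.sum_congr rfl fun j' _ => ?_
    rw [C_mul, mul_assoc]
    rfl
  rw [Finset.sum_congr rfl fun i _ => h1 i, Finset.sum_comm]
  have h3 : ∀ j', ∑ i, C ((jacM B.P) j i * (jacM B.P).adjugate i j') * X (j', k)
      = (C (if j = j' then (jacM B.P).det else 0) * X (j', k) :
        MvPolynomial (Fin l × ℕ) (MvPolynomial (Fin l) ℂ)) := by
    intro j'
    rw [← sum_mul, ← map_sum]
    congr 2
    have h4 := congrFun (congrFun (Matrix.mul_adjugate (jacM B.P)) j) j'
    rw [Matrix.mul_apply, Matrix.smul_apply, Matrix.one_apply, smul_eq_mul] at h4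
    rw [h4]
    split_ifs
    · rw [mul_one]
    · rw [mul_zero]
  rw [Finset.sum_congr rfl fun j' _ => h3 j']
  rw [Finset.sum_eq_single j]
  · rw [if_pos rfl]
  · intro b _ hb
    rw [if_neg (Ne.symm hb), C_0, zero_mul]
  · intro h
    exact absurd (mem_univ j) h

/-- reindexing of the generators -/
def jetEquiv (l : ℕ) : Fin l × ℕ ≃ (Fin l × ℕ) ⊕ Fin l where
  toFun a := match a with
    | (j, 0) => Sum.inr j
    | (j, k + 1) => Sum.inl (j, k)
  invFun b := match b with
    | Sum.inr j => (j, 0)
    | Sum.inl (j, k) => (j, k + 1)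
  left_inv := by
    rintro ⟨j, k⟩
    cases k <;> rfl
  right_inv := by
    rintro (⟨j, k⟩ | j) <;> rfl

/-- **the basic invariants are algebraically independent** -/
theorem algebraicIndependent_P (hA : SimplyLaced A) (B : BasicInvariants A) :
    AlgebraicIndependent ℂ B.P :=
  algebraicIndependent_of_jac B.P (jac_ne_zero B.P hA B.gen)

/-- **the basic invariants and their jets are algebraically independent** -/
theorem algebraicIndependent_gens (hA : SimplyLaced A) (B : BasicInvariants A) :
    AlgebraicIndependent ℂ (gens B) := by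
  have hJ := jac_ne_zero B.P hA B.gen
  have hy : AlgebraicIndependent (MvPolynomial (Fin l) ℂ)
      (fun a => C (jacM B.P).det * X a :
        Fin l × ℕ → MvPolynomial (Fin l × ℕ) (MvPolynomial (Fin l) ℂ)) :=
    algebraicIndependent_scal _ hJ
  have h1 := (algebraicIndependent_P hA B).sumElim_comp hy
  have h2 := (algebraicIndependent_equiv (jetEquiv l)).2 h1
  have h3 : (Sum.elim (fun a => C (jacM B.P).det * X a :
        Fin l × ℕ → MvPolynomial (Fin l × ℕ) (MvPolynomial (Fin l) ℂ))
        (algebraMap (MvPolynomial (Fin l) ℂ)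
          (MvPolynomial (Fin l × ℕ) (MvPolynomial (Fin l) ℂ)) ∘ B.P)) ∘ (jetEquiv l)
      = Th B.P ∘ gens B := by
    funext a
    obtain ⟨j, k⟩ := a
    cases k with
    | zero => exact (Th_rename B.P (B.P j)).symm
    | succ k => exact (Th_omega B j k).symm
  rw [h3] at h2
  exact AlgebraicIndependent.of_comp _ h2

/-- **linear independence of the monomials in the generators** -/
theorem linearIndependent_gens (hA : SimplyLaced A) (B : BasicInvariants A) :
    LinearIndependent ℂ (fun m : Fin l × ℕ →₀ ℕ => m.prod (fun a e => gens B a ^ e)) := by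
  have h1 : (fun m : Fin l × ℕ →₀ ℕ => m.prod (fun a e => gens B a ^ e))
      = (aeval (gens B)).toLinearMap ∘ (fun m => (monomial m (1 : ℂ))) := by
    funext m
    rw [Function.comp_apply, AlgHom.toLinearMap_apply, aeval_monomial, map_one, one_mul]
  rw [h1]
  have h2 : LinearIndependent ℂ (fun m : Fin l × ℕ →₀ ℕ => (monomial m (1 : ℂ))) := by
    have h3 := (basisMonomials (Fin l × ℕ) ℂ).linearIndependent
    rwa [coe_basisMonomials] at h3
  exact h2.map' _ (LinearMap.ker_eq_bot.2 (algebraicIndependent_gens hA B))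

/-- the dimension of the weight `N` part of `ℂ[P_j, ω_{j,n}]` is exactly `vac` -/
theorem finrank_adjoin_eq_vac (hA : SimplyLaced A) (B : BasicInvariants A)
    (hd : ∀ j, 1 ≤ B.d j) (N : ℕ) :
    Module.finrank ℂ ↥(Subalgebra.toSubmodule (Algebra.adjoin ℂ
        (Set.range (P0 B) ∪ Set.range (fun jn : Fin l × ℕ => omega B jn.1 jn.2))) ⊓
        weightedHomogeneousSubmodule ℂ (fun a : Fin l × ℕ => a.2 + 1) N)
      = vac B.d N := by
  classical
  refine le_antisymm (finrank_adjoin_le_vac B hd N) ?_
  have hfin := finite_vac B.d hd N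
  have := Fintype.ofFinite {m : Fin l × ℕ →₀ ℕ // m.sum (fun t e => e * (B.d t.1 + t.2)) = N}
  set V := Subalgebra.toSubmodule (Algebra.adjoin ℂ
        (Set.range (P0 B) ∪ Set.range (fun jn : Fin l × ℕ => omega B jn.1 jn.2))) ⊓
        weightedHomogeneousSubmodule ℂ (fun a : Fin l × ℕ => a.2 + 1) N with hV
  have hmem : ∀ m : {m : Fin l × ℕ →₀ ℕ // m.sum (fun t e => e * (B.d t.1 + t.2)) = N},
      m.1.prod (fun a e => gens B a ^ e) ∈ V := by
    intro m
    refine ⟨?_, ?_⟩
    · rw [← range_gens]
      apply Subalgebra.prod_mem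
      intro a _
      exact Subalgebra.pow_mem _ (Algebra.subset_adjoin (Set.mem_range_self a)) _
    · have h1 := isWeightedHomogeneous_monomial_gen (fun a : Fin l × ℕ => a.2 + 1)
        (fun t : Fin l × ℕ => B.d t.1 + t.2) (gens B) (gens_wh B hd) m.1
      rw [m.2] at h1
      exact (mem_weightedHomogeneousSubmodule _ _ _ _).2 h1
  have hle : V ≤ Submodule.span ℂ (Set.range
      (fun m : {m : Fin l × ℕ →₀ ℕ // m.sum (fun t e => e * (B.d t.1 + t.2)) = N} =>
        m.1.prod (fun a e => gens B a ^ e))) := by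
    intro f hf
    have hf1 := hf.1
    rw [← range_gens] at hf1
    exact mem_span_of_mem_adjoin (fun a : Fin l × ℕ => a.2 + 1)
      (fun t : Fin l × ℕ => B.d t.1 + t.2) (gens B) (gens_wh B hd) N hf1 hf.2
  have hsp : FiniteDimensional ℂ ↥(Submodule.span ℂ (Set.range
      (fun m : {m : Fin l × ℕ →₀ ℕ // m.sum (fun t e => e * (B.d t.1 + t.2)) = N} =>
        m.1.prod (fun a e => gens B a ^ e)))) :=
    FiniteDimensional.span_of_finite ℂ (Set.finite_range _)
  have hfd : FiniteDimensional ℂ ↥V := Submodule.finiteDimensional_of_le hle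
  have hli : LinearIndependent ℂ
      (fun m : {m : Fin l × ℕ →₀ ℕ // m.sum (fun t e => e * (B.d t.1 + t.2)) = N} =>
        (⟨m.1.prod (fun a e => gens B a ^ e), hmem m⟩ : ↥V)) := by
    apply LinearIndependent.of_comp V.subtype
    exact (linearIndependent_gens hA B).comp Subtype.val Subtype.val_injective
  have h2 := hli.fintype_card_le_finrank
  rw [vac, Nat.card_eq_fintype_card]
  exact h2

end Jets

end Pool.Agent.LS
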