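import Pool.Agent.LS.ADef
import Pool.Agent.LS.AInd

/-!
# Type A: explicit basic invariants
-/

namespace Pool.Agent.LS

open MvPolynomial Finset

section SL

variable (l : ℕ)

theorem AA_eq (i j : Fin l) : AA l i j = 2 * (if (j : ℕ) = i then 1 else 0)
    - (if (j : ℕ) = i + 1 then 1 else 0) - (if (j : ℕ) + 1 = i then 1 else 0) := by
  unfold AA
  by_cases h : i = j
  · subst h
    rw [if_pos rfl, if_pos rfl, if_neg (by omega), if_neg (by omega)]
    norm_num
  · have h' : (j : ℕ) ≠ i := fun h0 => h (Fin.ext h0.symm)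
    rw [if_neg h, if_neg h']
    by_cases h1 : (j : ℕ) = i + 1
    · rw [if_pos (Or.inl h1.symm), if_pos h1, if_neg (by omega)]
      norm_num
    · by_cases h2 : (j : ℕ) + 1 = i
      · rw [if_pos (Or.inr h2), if_neg h1, if_pos h2]
        norm_num
      · rw [if_neg (by rintro (h3 | h3); exacts [h1 h3.symm, h2 h3]), if_neg h1, if_neg h2]
        norm_num

theorem sum_ite_fin {R : Type*} [AddCommMonoid R] (F : ℕ → R) (n : ℕ) :
    ∑ j : Fin l, (if (j : ℕ) = n then F j else 0) = if n < l then F n else 0 := by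
  split_ifs with h
  · rw [Finset.sum_eq_single (⟨n, h⟩ : Fin l)]
    · rw [if_pos rfl]
    · intro b _ hb
      rw [if_neg (fun h0 => hb (Fin.ext h0))]
    · intro h0
      exact absurd (mem_univ _) h0
  · apply Finset.sum_eq_zero
    intro j _
    rw [if_neg (by omega)]

/-- multiplication by the Cartan matrix = second difference -/
theorem sum_AA {R : Type*} [CommRing R] (i : Fin l) (F : ℕ → R) :
    ∑ j : Fin l, ((AA l i j : ℤ) : R) * F j
      = 2 * F i - (if (i : ℕ) + 1 < l then F (i + 1) else 0)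
        - (if 0 < (i : ℕ) then F (i - 1) else 0) := by
  have h1 : ∀ j : Fin l, ((AA l i j : ℤ) : R) * F j
      = 2 * (if (j : ℕ) = i then F j else 0) - (if (j : ℕ) = i + 1 then F j else 0)
        - (if (j : ℕ) + 1 = i then F j else 0) := by
    intro j
    rw [AA_eq]
    push_cast
    split_ifs <;> ring
  rw [Finset.sum_congr rfl fun j _ => h1 j, sum_sub_distrib, sum_sub_distrib, ← mul_sum,
    sum_ite_fin, sum_ite_fin, if_pos i.2]
  congr 1
  by_cases h0 : 0 < (i : ℕ)
  · rw [if_pos h0]
    have h2 : ∀ j : Fin l, (if (j : ℕ) + 1 = i then F j else 0)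
        = if (j : ℕ) = (i : ℕ) - 1 then F j else 0 := by
      intro j
      by_cases h3 : (j : ℕ) + 1 = i
      · rw [if_pos h3, if_pos (by omega)]
      · rw [if_neg h3, if_neg (by omega)]
    rw [Finset.sum_congr rfl fun j _ => h2 j, sum_ite_fin, if_pos (by omega)]
  · rw [if_neg h0]
    apply Finset.sum_eq_zero
    intro j _
    rw [if_neg (by omega)]

theorem AA_pos (v : Fin l → ℤ) (hv : v ≠ 0) : 0 < ∑ i, ∑ j, v i * AA l i j * v j := by
  set u : ℕ → ℤ := fun n => if h : n < l then v ⟨n, h⟩ else 0 with hu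
  have huv : ∀ i : Fin l, v i = u i := by
    intro i
    rw [hu]
    simp only [i.2, dif_pos]
  have hul : u l = 0 := by
    rw [hu]
    simp
  have h1 : ∑ i : Fin l, ∑ j, v i * AA l i j * v j
      = ∑ i : Fin l, u i * (2 * u i - (if (i : ℕ) + 1 < l then u (i + 1) else 0)
        - (if 0 < (i : ℕ) then u (i - 1) else 0)) := by
    refine Finset.sum_congr rfl fun i _ => ?_
    rw [← sum_AA l i u, mul_sum]
    refine Finset.sum_congr rfl fun j _ => ?_
    rw [huv i, huv j, mul_assoc, Int.cast_id]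
  have h2 : ∀ i : Fin l, (if (i : ℕ) + 1 < l then u (i + 1) else 0) = u (i + 1) := by
    intro i
    split_ifs with h
    · rfl
    · have : (i : ℕ) + 1 = l := by omega
      rw [this, hul]
  have h3 : ∀ n : ℕ, n ≤ l → ∑ i ∈ range n, u i * (2 * u i - u (i + 1)
        - (if 0 < i then u (i - 1) else 0))
      = u 0 ^ 2 + ∑ i ∈ range n, (u i - u (i + 1)) ^ 2 - u n ^ 2 + u n * (if 0 < n then u (n - 1) else 0) := by
    intro n
    induction n with
    | zero => intro _; simp
    | succ n ih =>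
      intro hn
      rw [sum_range_succ, sum_range_succ, ih (by omega), if_pos (Nat.succ_pos n),
        Nat.add_sub_cancel]
      ring
  have h4 : ∑ i : Fin l, ∑ j, v i * AA l i j * v j
      = u 0 ^ 2 + ∑ i ∈ range l, (u i - u (i + 1)) ^ 2 := by
    rw [h1, Finset.sum_congr rfl fun i _ => by rw [h2 i]]
    rw [Fin.sum_univ_eq_sum_range (fun i => u i * (2 * u i - u (i + 1)
        - (if 0 < i then u (i - 1) else 0))) l, h3 l le_rfl, hul]
    ring
  rw [h4]
  by_contra hle
  have h5 : ∀ i ∈ range l, 0 ≤ (u i - u (i + 1)) ^ 2 := fun i _ => sq_nonneg _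
  have h6 : 0 ≤ ∑ i ∈ range l, (u i - u (i + 1)) ^ 2 := sum_nonneg h5
  have h7 : u 0 ^ 2 = 0 := by
    have := sq_nonneg (u 0)
    linarith [not_lt.1 hle]
  have h8 : ∑ i ∈ range l, (u i - u (i + 1)) ^ 2 = 0 := by
    linarith [not_lt.1 hle]
  have h9 := (sum_eq_zero_iff_of_nonneg h5).1 h8
  have h10 : ∀ n, n ≤ l → u n = 0 := by
    intro n
    induction n with
    | zero => intro _; exact pow_eq_zero_iff (two_ne_zero) |>.1 h7
    | succ n ih =>
      intro hn
      have h11 := h9 n (mem_range.2 (by omega))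
      have h12 := pow_eq_zero_iff (two_ne_zero) |>.1 h11
      rw [ih (by omega), zero_sub, neg_eq_zero] at h12
      exact h12
  apply hv
  funext i
  rw [huv i, h10 i (le_of_lt i.2)]
  rfl

theorem AA_simplyLaced : SimplyLaced (AA l) where
  symm i j := by
    unfold AA
    by_cases h : i = j
    · subst h
      rfl
    · rw [if_neg h, if_neg (Ne.symm h)]
      congr 1
      exact propext or_comm
  diag i := by
    unfold AA
    rw [if_pos rfl]
  off i j h := by
    unfold AA
    rw [if_neg h]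
    split_ifs
    · exact Or.inr rfl
    · exact Or.inl rfl
  pos := AA_pos l

end SL

section Eps

variable (l : ℕ)

theorem sum_AA_qA (i : Fin l) (a : Fin (l + 1)) :
    ∑ j : Fin l, ((AA l i j : ℤ) : ℚ) * qA l a j
      = (if (a : ℕ) = i then 1 else 0) - (if (a : ℕ) = i + 1 then 1 else 0) := by
  rw [sum_AA l i (qA l a)]
  have hl : ((l : ℚ) + 1) ≠ 0 := by positivity
  have ha := a.2
  have hi := i.2
  have h1 : (if (i : ℕ) + 1 < l then qA l a (i + 1) else 0) = qA l a (i + 1) := by
    split_ifs with h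
    · rfl
    · have h2 : (i : ℕ) + 1 = l := by omega
      unfold qA
      rw [h2, sub_self, zero_div, if_neg (by omega), sub_zero]
  have h3 : (if 0 < (i : ℕ) then qA l a (i - 1) else 0)
      = ((l : ℚ) - i + 1) / (l + 1) - if (i : ℕ) < a + 1 then 1 else 0 := by
    split_ifs with h h4 h4
    · unfold qA
      rw [if_pos (by omega)]
      have h5 : (((i : ℕ) - 1 : ℕ) : ℚ) = (i : ℚ) - 1 := by
        rw [Nat.cast_sub (by omega)]
        norm_num
      rw [h5]
      ring
    · unfold qA
      rw [if_neg (by omega)]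
      have h5 : (((i : ℕ) - 1 : ℕ) : ℚ) = (i : ℚ) - 1 := by
        rw [Nat.cast_sub (by omega)]
        norm_num
      rw [h5]
      ring
    · have h5 : (i : ℕ) = 0 := by omega
      rw [h5]
      field_simp
      push_cast
      ring
    · omega
  rw [h1, h3]
  unfold qA
  push_cast
  have h6 : (2 * (((l : ℚ) - (i : ℕ)) / (l + 1) - if (i : ℕ) < (a : ℕ) then 1 else 0)
      - (((l : ℚ) - ((i : ℕ) + 1)) / (l + 1) - if (i : ℕ) + 1 < (a : ℕ) then 1 else 0)
      - (((l : ℚ) - (i : ℕ) + 1) / (l + 1) - if (i : ℕ) < (a : ℕ) + 1 then 1 else 0))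
      = - 2 * (if (i : ℕ) < (a : ℕ) then 1 else 0) + (if (i : ℕ) + 1 < (a : ℕ) then 1 else 0)
        + (if (i : ℕ) < (a : ℕ) + 1 then 1 else 0) := by
    field_simp
    ring
  rw [h6]
  split_ifs <;> first | omega | norm_num

theorem qA_sub (i j : ℕ) : qA l i j - qA l (i + 1) j = if j = i then 1 else 0 := by
  unfold qA
  split_ifs <;> first | omega | ring

theorem ebar_sub (i : Fin l) : ebar l ℂ i.castSucc - ebar l ℂ i.succ = X i := by
  unfold ebar
  rw [← sum_sub_distrib]
  have h1 : ∀ j : Fin l, (C (algebraMap ℚ ℂ (qA l (i.castSucc : Fin (l + 1)) j)) * X j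
      - C (algebraMap ℚ ℂ (qA l (i.succ : Fin (l + 1)) j)) * X j : MvPolynomial (Fin l) ℂ)
      = if j = i then X j else 0 := by
    intro j
    rw [← sub_mul, ← C_sub, ← map_sub, Fin.val_castSucc, Fin.val_succ, qA_sub]
    by_cases h : j = i
    · rw [if_pos h, if_pos (by rw [h]), map_one, C_1, one_mul]
    · rw [if_neg h, if_neg (fun h0 => h (Fin.ext h0)), map_zero, C_0, zero_mul]
  rw [Finset.sum_congr rfl fun j _ => h1 j, Finset.sum_ite_eq' univ i, if_pos (mem_univ i)]

theorem refl_ebar (i : Fin l) (a : Fin (l + 1)) :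
    refl (AA l) i (ebar l ℂ a) = ebar l ℂ (Equiv.swap i.castSucc i.succ a) := by
  have h1 : refl (AA l) i (ebar l ℂ a) = ebar l ℂ a
      - C (algebraMap ℚ ℂ (∑ j : Fin l, ((AA l i j : ℤ) : ℚ) * qA l a j)) * X i := by
    unfold ebar refl
    rw [map_sum, map_sum, map_sum, sum_mul, ← sum_sub_distrib]
    refine Finset.sum_congr rfl fun j _ => ?_
    have h0 : algebraMap ℚ ℂ ((AA l i j : ℤ) : ℚ) = ((AA l i j : ℤ) : ℂ) := map_intCast _ _
    rw [map_mul, aeval_X, ← algebraMap_eq, AlgHom.commutes, algebraMap_eq, map_mul, C_mul, h0]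
    ring
  rw [h1, sum_AA_qA]
  have h2 := ebar_sub l i
  by_cases h3 : a = i.castSucc
  · rw [h3, Equiv.swap_apply_left, Fin.val_castSucc, if_pos rfl, if_neg (by omega), sub_zero,
      map_one, C_1, one_mul, ← h2]
    ring
  · by_cases h4 : a = i.succ
    · rw [h4, Equiv.swap_apply_right, Fin.val_succ, if_neg (by omega), if_pos rfl, zero_sub,
        map_neg, map_one, C_neg, C_1, ← h2]
      ring
    · rw [Equiv.swap_apply_of_ne_of_ne h3 h4]
      have h5 : (a : ℕ) ≠ i := fun h0 => h3 (Fin.ext h0)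
      have h6 : (a : ℕ) ≠ i + 1 := fun h0 => h4 (Fin.ext h0)
      rw [if_neg h5, if_neg h6, sub_zero, map_zero, C_0, zero_mul, sub_zero]

theorem sum_ebar : ∑ a, ebar l ℂ a = 0 := by
  unfold ebar
  rw [Finset.sum_comm]
  apply Finset.sum_eq_zero
  intro i _
  rw [← sum_mul, ← map_sum, ← map_sum]
  have h1 : ∑ a : Fin (l + 1), qA l a i = 0 := by
    unfold qA
    rw [sum_sub_distrib, sum_const, card_univ, Fintype.card_fin, nsmul_eq_mul]
    have h2 : ∑ a : Fin (l + 1), (if (i : ℕ) < (a : ℕ) then (1 : ℚ) else 0) = (l : ℚ) - i := by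
      rw [Fin.sum_univ_eq_sum_range (fun a => if (i : ℕ) < a then (1 : ℚ) else 0) (l + 1)]
      rw [← Finset.sum_filter, sum_const, nsmul_eq_mul, mul_one]
      have h3 : (range (l + 1)).filter (fun a => (i : ℕ) < a) = Finset.Ioc (i : ℕ) l := by
        ext a
        rw [mem_filter, mem_range, mem_Ioc]
        omega
      rw [h3, Nat.card_Ioc, Nat.cast_sub (le_of_lt i.2)]
    rw [h2]
    have hl : ((l : ℚ) + 1) ≠ 0 := by positivity
    push_cast
    field_simp
    ring
  rw [h1, map_zero, C_0, zero_mul]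

/-- `X_i ↦ e_i - e_{i+1}` -/
noncomputable def phiA : MvPolynomial (Fin l) ℂ →ₐ[ℂ] MvPolynomial (Fin (l + 1)) ℂ :=
  aeval (fun i => X i.castSucc - X i.succ)

theorem ebar_phiA (f : MvPolynomial (Fin l) ℂ) : aeval (ebar l ℂ) (phiA l f) = f := by
  have h : ((aeval (ebar l ℂ)).comp (phiA l)) = AlgHom.id ℂ _ := by
    apply algHom_ext
    intro i
    rw [AlgHom.comp_apply, phiA, aeval_X, map_sub, aeval_X, aeval_X, ebar_sub]
    rfl
  exact DFunLike.congr_fun h f

theorem rename_phiA (i : Fin l) (f : MvPolynomial (Fin l) ℂ) :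
    rename (Equiv.swap i.castSucc i.succ) (phiA l f) = phiA l (refl (AA l) i f) := by
  have h : (rename (Equiv.swap i.castSucc i.succ)).comp (phiA l)
      = (phiA l).comp (refl (AA l) i) := by
    apply algHom_ext
    intro j
    rw [AlgHom.comp_apply, AlgHom.comp_apply, phiA, aeval_X, refl, aeval_X, map_sub, map_sub,
      map_mul, aeval_X, aeval_X, rename_X, rename_X, ← algebraMap_eq, AlgHom.commutes,
      algebraMap_eq, AA_eq]
    have key : ∀ a : Fin (l + 1), (X (Equiv.swap i.castSucc i.succ a) :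
        MvPolynomial (Fin (l + 1)) ℂ) = X a - (if a = i.castSucc then 1 else 0)
          * (X i.castSucc - X i.succ) + (if a = i.succ then 1 else 0)
          * (X i.castSucc - X i.succ) := by
      intro a
      by_cases h3 : a = i.castSucc
      · have h4 : a ≠ i.succ := by
          rw [h3]
          intro h0
          have := congrArg Fin.val h0
          rw [Fin.val_castSucc, Fin.val_succ] at this
          omega
        rw [if_pos h3, if_neg h4, h3, Equiv.swap_apply_left]
        ring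
      · by_cases h4 : a = i.succ
        · rw [if_neg h3, if_pos h4, h4, Equiv.swap_apply_right]
          ring
        · rw [if_neg h3, if_neg h4, Equiv.swap_apply_of_ne_of_ne h3 h4]
          ring
    rw [key, key]
    have e1 : (j.castSucc = i.castSucc) ↔ (j : ℕ) = i := by
      rw [Fin.ext_iff, Fin.val_castSucc, Fin.val_castSucc]
    have e2 : (j.castSucc = i.succ) ↔ (j : ℕ) = i + 1 := by
      rw [Fin.ext_iff, Fin.val_castSucc, Fin.val_succ]
    have e3 : (j.succ = i.castSucc) ↔ (j : ℕ) + 1 = i := by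
      rw [Fin.ext_iff, Fin.val_succ, Fin.val_castSucc]
    have e4 : (j.succ = i.succ) ↔ (j : ℕ) = i := by
      rw [Fin.ext_iff, Fin.val_succ, Fin.val_succ]
      omega
    simp only [e1, e2, e3, e4]
    push_cast
    split_ifs <;> first | omega | (simp only [map_one, map_zero, map_sub, map_mul, map_ofNat]; ring)
  exact DFunLike.congr_fun h f

theorem isSymmetric_phiA (f : MvPolynomial (Fin l) ℂ) (hf : ∀ i, refl (AA l) i f = f) :
    (phiA l f).IsSymmetric := by
  let S : Submonoid (Equiv.Perm (Fin (l + 1))) :=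
    { carrier := {e | rename e (phiA l f) = phiA l f}
      one_mem' := by
        show rename (⇑(1 : Equiv.Perm (Fin (l + 1)))) (phiA l f) = phiA l f
        rw [Equiv.Perm.coe_one, rename_id]
        rfl
      mul_mem' := by
        intro a b ha hb
        show rename (⇑(a * b)) (phiA l f) = phiA l f
        rw [Equiv.Perm.coe_mul, ← rename_rename, (hb : rename b (phiA l f) = phiA l f)]
        exact ha }
  have h1 : Submonoid.closure (Set.range fun i : Fin l ↦ Equiv.swap i.castSucc i.succ) ≤ S := by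
    rw [Submonoid.closure_le]
    rintro _ ⟨i, rfl⟩
    show rename (Equiv.swap i.castSucc i.succ) (phiA l f) = phiA l f
    rw [rename_phiA, hf i]
  rw [Equiv.Perm.mclosure_swap_castSucc_succ] at h1
  intro e
  exact h1 (Submonoid.mem_top e)

theorem exists_esymm (g : MvPolynomial (Fin (l + 1)) ℂ) (hg : g.IsSymmetric) :
    ∃ p : MvPolynomial (Fin (l + 1)) ℂ,
      aeval (fun i : Fin (l + 1) ↦ esymm (Fin (l + 1)) ℂ (i + 1)) p = g := by
  obtain ⟨p, hp⟩ := esymmAlgHom_surjective ℂ
    (le_of_eq (Fintype.card_fin (l + 1))) ⟨g, hg⟩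
  exact ⟨p, (esymmAlgHom_apply p).symm.trans (congrArg Subtype.val hp)⟩

theorem ebar_esymm_mem (i : Fin (l + 1)) :
    aeval (ebar l ℂ) (esymm (Fin (l + 1)) ℂ ((i : ℕ) + 1)) ∈
      Algebra.adjoin ℂ (Set.range (fun j : Fin l => PT l ℂ j)) := by
  refine Fin.cases ?_ (fun j => ?_) i
  · have h4 : aeval (ebar l ℂ) (esymm (Fin (l + 1)) ℂ (((0 : Fin (l + 1)) : ℕ) + 1)) = 0 := by
      rw [Fin.val_zero, zero_add, esymm_one, map_sum]
      rw [Finset.sum_congr rfl fun a _ => aeval_X (ebar l ℂ) a]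
      exact sum_ebar l
    rw [h4]
    exact Subalgebra.zero_mem _
  · have h5 : aeval (ebar l ℂ) (esymm (Fin (l + 1)) ℂ (((j.succ : Fin (l + 1)) : ℕ) + 1))
        = PT l ℂ j := by
      rw [Fin.val_succ]
      rfl
    rw [h5]
    exact Algebra.subset_adjoin (Set.mem_range_self (f := fun j : Fin l => PT l ℂ j) j)

theorem PT_gen_aux (p : MvPolynomial (Fin (l + 1)) ℂ) :
    aeval (ebar l ℂ) (aeval (fun i : Fin (l + 1) ↦ esymm (Fin (l + 1)) ℂ ((i : ℕ) + 1)) p) ∈
      Algebra.adjoin ℂ (Set.range (fun j : Fin l => PT l ℂ j)) := by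
  induction p using MvPolynomial.induction_on with
  | C c =>
    rw [← algebraMap_eq, AlgHom.commutes, AlgHom.commutes]
    exact Subalgebra.algebraMap_mem _ _
  | add p q hp hq =>
    rw [map_add, map_add]
    exact Subalgebra.add_mem _ hp hq
  | mul_X p i hp =>
    rw [map_mul, map_mul, aeval_X]
    exact Subalgebra.mul_mem _ hp (ebar_esymm_mem l i)

theorem PT_gen (f : MvPolynomial (Fin l) ℂ) (hf : ∀ i, refl (AA l) i f = f) :
    f ∈ Algebra.adjoin ℂ (Set.range (fun j : Fin l => PT l ℂ j)) := by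
  obtain ⟨p, h1⟩ := exists_esymm l (phiA l f) (isSymmetric_phiA l f hf)
  rw [← ebar_phiA l f, ← h1]
  exact PT_gen_aux l p

theorem refl_PT (i j : Fin l) : refl (AA l) i (PT l ℂ j) = PT l ℂ j := by
  unfold PT
  have h1 : (refl (AA l) i).comp (aeval (ebar l ℂ)) =
      (aeval (ebar l ℂ)).comp (rename (Equiv.swap i.castSucc i.succ)) := by
    apply algHom_ext
    intro a
    rw [AlgHom.comp_apply, AlgHom.comp_apply, aeval_X, rename_X, aeval_X, refl_ebar]
  have h2 := DFunLike.congr_fun h1 (esymm (Fin (l + 1)) ℂ (j + 2))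
  rw [AlgHom.comp_apply, AlgHom.comp_apply, rename_esymm] at h2
  exact h2

theorem ebar_homog (a : Fin (l + 1)) : (ebar l ℂ a).IsHomogeneous 1 := by
  unfold ebar
  apply IsHomogeneous.sum
  intro i _
  exact (isHomogeneous_X ℂ i).C_mul _

theorem PT_homog (j : Fin l) : (PT l ℂ j).IsHomogeneous (j + 2) := by
  unfold PT esymm
  rw [map_sum]
  apply IsHomogeneous.sum
  intro s hs
  have h0 : aeval (ebar l ℂ) (∏ i ∈ s, X i : MvPolynomial (Fin (l + 1)) ℂ)
      = ∏ i ∈ s, ebar l ℂ i := by
    rw [map_prod (aeval (R := ℂ) (ebar l ℂ))]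
    exact Finset.prod_congr rfl fun i _ => aeval_X _ i
  rw [h0]
  have h1 : (∏ i ∈ s, ebar l ℂ i).IsHomogeneous (∑ i ∈ s, 1) := by
    apply IsHomogeneous.prod
    intro i _
    exact ebar_homog l i
  rw [sum_const, smul_eq_mul, mul_one, (mem_powersetCard.1 hs).2] at h1
  exact h1

/-- **explicit basic invariants of type `A_l`** -/
noncomputable def basicA : BasicInvariants (AA l) where
  d j := j + 2
  P j := PT l ℂ j
  homog := PT_homog l
  inv := refl_PT l
  gen := PT_gen l

theorem gens_basicA : gens (basicA l) = gk l ℂ := by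
  funext a
  obtain ⟨j, k⟩ := a
  cases k <;> rfl

/-- `PT` and its jets are algebraically independent -/
theorem algebraicIndependent_gk : AlgebraicIndependent ℂ (gk l ℂ) := by
  rw [← gens_basicA]
  exact algebraicIndependent_gens (AA_simplyLaced l) (basicA l)

theorem linearIndependent_gk :
    LinearIndependent ℂ (fun m : Fin l × ℕ →₀ ℕ => m.prod (fun a e => gk l ℂ a ^ e)) := by
  rw [← gens_basicA]
  exact linearIndependent_gens (AA_simplyLaced l) (basicA l)

end Eps

end Pool.Agent.LS
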