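import Pool.Agent.LS.Roots

/-!
# The Weyl group as a finite group of automorphisms of the polynomial ring
-/

namespace Pool.Agent.LS

open MvPolynomial Finset Matrix

section WeylGroup

variable {l : ℕ} {A : Matrix (Fin l) (Fin l) ℤ}

/-- linear form attached to a vector of the root lattice -/
noncomputable def lin (v : Fin l → ℤ) : MvPolynomial (Fin l) ℂ := ∑ j, C ((v j : ℤ) : ℂ) * X j

theorem lin_add (v w : Fin l → ℤ) : lin (v + w) = lin v + lin w := by
  simp [lin, add_mul, sum_add_distrib]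

theorem lin_smul (c : ℤ) (v : Fin l → ℤ) : lin (c • v) = C (c : ℂ) * lin v := by
  simp [lin, mul_sum, mul_assoc]

theorem lin_sub (v w : Fin l → ℤ) : lin (v - w) = lin v - lin w := by
  simp [lin, sub_mul, sum_sub_distrib]

theorem lin_ee (i : Fin l) : lin (ee i) = X i := by
  rw [lin, sum_eq_single i]
  · simp [ee]
  · intro j _ hj
    simp [ee, hj]
  · simp

theorem coeff_lin (v : Fin l → ℤ) (j : Fin l) :
    coeff (Finsupp.single j 1) (lin v) = ((v j : ℤ) : ℂ) := by
  classical
  rw [lin, coeff_sum, sum_eq_single j]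
  · rw [coeff_C_mul, coeff_X, if_pos rfl, mul_one]
  · intro k _ hk
    rw [coeff_C_mul, coeff_X, if_neg, mul_zero]
    intro h
    exact hk (Finsupp.single_left_injective one_ne_zero h)
  · simp

theorem lin_injective : Function.Injective (lin : (Fin l → ℤ) → MvPolynomial (Fin l) ℂ) := by
  intro v w h
  funext j
  have h1 := congrArg (coeff (Finsupp.single j 1)) h
  rw [coeff_lin, coeff_lin] at h1
  exact_mod_cast h1

theorem refl_X (i j : Fin l) : refl A i (X j) = X j - C (A i j : ℂ) * X i := by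
  rw [refl, aeval_X]

theorem refl_lin (i : Fin l) (v : Fin l → ℤ) : refl A i (lin v) = lin (sv A i v) := by
  rw [sv_apply, lin_sub, lin_smul, lin_ee]
  have h1 : refl A i (lin v) = ∑ j, C ((v j : ℤ) : ℂ) * (X j - C (A i j : ℂ) * X i) := by
    rw [lin, map_sum]
    apply sum_congr rfl
    intro j _
    rw [map_mul, refl_X]
    congr 1
    rw [← algebraMap_eq, AlgHom.commutes]
  rw [h1]
  simp_rw [mul_sub]
  rw [sum_sub_distrib]
  congr 1
  rw [Matrix.mulVec, dotProduct]
  push_cast
  rw [map_sum, sum_mul]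
  apply sum_congr rfl
  intro j _
  rw [map_mul]
  ring

theorem refl_refl_X (hA : SimplyLaced A) (i j : Fin l) : refl A i (refl A i (X j)) = X j := by
  rw [← lin_ee, refl_lin, refl_lin, sv_sv hA]

theorem refl_comp_refl (hA : SimplyLaced A) (i : Fin l) :
    (refl A i).comp (refl A i) = AlgHom.id ℂ _ := by
  apply algHom_ext
  intro j
  rw [AlgHom.comp_apply, refl_refl_X hA, AlgHom.id_apply]

/-- simple reflection as an algebra automorphism -/
noncomputable def reflE (hA : SimplyLaced A) (i : Fin l) :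
    MvPolynomial (Fin l) ℂ ≃ₐ[ℂ] MvPolynomial (Fin l) ℂ :=
  AlgEquiv.ofAlgHom (refl A i) (refl A i) (refl_comp_refl hA i) (refl_comp_refl hA i)

@[simp] theorem reflE_apply (hA : SimplyLaced A) (i : Fin l) (f : MvPolynomial (Fin l) ℂ) :
    reflE hA i f = refl A i f := rfl

/-- the Weyl group -/
noncomputable def WG (hA : SimplyLaced A) :
    Subgroup (MvPolynomial (Fin l) ℂ ≃ₐ[ℂ] MvPolynomial (Fin l) ℂ) :=
  Subgroup.closure (Set.range (reflE hA))

/-- word acting on the polynomial ring -/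
noncomputable def wp (hA : SimplyLaced A) (L : List (Fin l)) :
    MvPolynomial (Fin l) ℂ ≃ₐ[ℂ] MvPolynomial (Fin l) ℂ := (L.map (reflE hA)).prod

@[simp] theorem wp_nil (hA : SimplyLaced A) : wp hA [] = 1 := rfl

@[simp] theorem wp_cons (hA : SimplyLaced A) (i : Fin l) (L : List (Fin l)) :
    wp hA (i :: L) = reflE hA i * wp hA L := by
  simp [wp]

@[simp] theorem wp_append (hA : SimplyLaced A) (L M : List (Fin l)) :
    wp hA (L ++ M) = wp hA L * wp hA M := by
  simp [wp]

theorem wp_lin (hA : SimplyLaced A) (L : List (Fin l)) (v : Fin l → ℤ) :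
    wp hA L (lin v) = lin (wv A L v) := by
  induction L with
  | nil => rfl
  | cons i L ih =>
    rw [wp_cons, wv_cons, AlgEquiv.mul_apply, Module.End.mul_apply, ih, reflE_apply, refl_lin]

theorem wp_X (hA : SimplyLaced A) (L : List (Fin l)) (j : Fin l) :
    wp hA L (X j) = lin (wv A L (ee j)) := by
  rw [← lin_ee, wp_lin]

theorem wp_mem (hA : SimplyLaced A) (L : List (Fin l)) : wp hA L ∈ WG hA := by
  induction L with
  | nil => exact Subgroup.one_mem _
  | cons i L ih =>
    rw [wp_cons]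
    exact Subgroup.mul_mem _ (Subgroup.subset_closure ⟨i, rfl⟩) ih

theorem reflE_mul_self (hA : SimplyLaced A) (i : Fin l) : reflE hA i * reflE hA i = 1 := by
  apply AlgEquiv.ext
  intro f
  rw [AlgEquiv.mul_apply, reflE_apply, reflE_apply, ← AlgHom.comp_apply, refl_comp_refl hA]
  rfl

theorem reflE_inv (hA : SimplyLaced A) (i : Fin l) : (reflE hA i)⁻¹ = reflE hA i :=
  inv_eq_of_mul_eq_one_left (reflE_mul_self hA i)

theorem mem_WG (hA : SimplyLaced A) (w : MvPolynomial (Fin l) ℂ ≃ₐ[ℂ] MvPolynomial (Fin l) ℂ) :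
    w ∈ WG hA ↔ ∃ L, w = wp hA L := by
  constructor
  · intro h
    induction h using Subgroup.closure_induction_left with
    | one => exact ⟨[], rfl⟩
    | mul_left x hx y _ ih =>
      obtain ⟨i, rfl⟩ := hx
      obtain ⟨L, rfl⟩ := ih
      exact ⟨i :: L, by rw [wp_cons]⟩
    | inv_mul_cancel x hx y _ ih =>
      obtain ⟨i, rfl⟩ := hx
      obtain ⟨L, rfl⟩ := ih
      exact ⟨i :: L, by rw [wp_cons, reflE_inv]⟩
  · rintro ⟨L, rfl⟩
    exact wp_mem hA L

theorem reflE_mem (hA : SimplyLaced A) (i : Fin l) : reflE hA i ∈ WG hA :=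
  Subgroup.subset_closure ⟨i, rfl⟩

/-- elements of the Weyl group are given by integral matrices preserving the form -/
theorem WG_lin (hA : SimplyLaced A) (w : MvPolynomial (Fin l) ℂ ≃ₐ[ℂ] MvPolynomial (Fin l) ℂ)
    (hw : w ∈ WG hA) : ∃ m : Matrix (Fin l) (Fin l) ℤ,
      (∀ a, w (X a) = ∑ b, C ((m a b : ℤ) : ℂ) * X b) ∧ m * A * m.transpose = A := by
  obtain ⟨L, rfl⟩ := (mem_WG hA w).1 hw
  refine ⟨Matrix.of fun a b => wv A L (ee a) b, fun a => wp_X hA L a, ?_⟩
  ext a c
  have h1 := bil_wv hA L (ee a) (ee c)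
  rw [bil_ee_ee, bil_eq_sum] at h1
  rw [← h1, Matrix.mul_apply, sum_comm]
  apply sum_congr rfl
  intro j _
  rw [Matrix.mul_apply, Matrix.transpose_apply, Matrix.of_apply, sum_mul]
  rfl

theorem WG_homog (hA : SimplyLaced A) (w : MvPolynomial (Fin l) ℂ ≃ₐ[ℂ] MvPolynomial (Fin l) ℂ)
    (hw : w ∈ WG hA) (i : Fin l) : (w (X i)).IsHomogeneous 1 := by
  obtain ⟨m, hm, _⟩ := WG_lin hA w hw
  rw [hm]
  apply IsHomogeneous.sum
  intro b _
  have h := (isHomogeneous_C (Fin l) ((m i b : ℤ) : ℂ)).mul (isHomogeneous_X ℂ b)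
  rwa [zero_add] at h

theorem WG_ext (w w' : MvPolynomial (Fin l) ℂ ≃ₐ[ℂ] MvPolynomial (Fin l) ℂ)
    (h : ∀ a, w (X a) = w' (X a)) : w = w' := by
  apply AlgEquiv.ext
  intro f
  have : (w : MvPolynomial (Fin l) ℂ →ₐ[ℂ] MvPolynomial (Fin l) ℂ) = w' := algHom_ext h
  exact DFunLike.congr_fun this f

theorem finite_WG (hA : SimplyLaced A) : Finite (WG hA) := by
  have hfin : Finite {v : Fin l → ℤ | IsRt A v} := (finite_roots hA).to_subtype
  have hex : ∀ w : WG hA, ∀ a, ∃ v : {v : Fin l → ℤ | IsRt A v}, w.1 (X a) = lin v.1 := by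
    intro w a
    obtain ⟨L, hL⟩ := (mem_WG hA w.1).1 w.2
    exact ⟨⟨wv A L (ee a), (isRt_ee hA a).wv hA L⟩, by rw [hL, wp_X]⟩
  choose f hf using hex
  apply Finite.of_injective (fun w : WG hA => f w)
  intro w w' h
  apply Subtype.ext
  apply WG_ext
  intro a
  rw [hf, hf]
  have h1 : f w = f w' := h
  rw [h1]

/-- invariance under the simple reflections is invariance under the Weyl group -/
theorem inv_iff (hA : SimplyLaced A) (f : MvPolynomial (Fin l) ℂ) :
    (∀ i, refl A i f = f) ↔ ∀ w ∈ WG hA, w f = f := by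
  constructor
  · intro h w hw
    obtain ⟨L, rfl⟩ := (mem_WG hA w).1 hw
    induction L with
    | nil => rfl
    | cons i L ih => rw [wp_cons, AlgEquiv.mul_apply, ih (wp_mem hA L), reflE_apply, h]
  · intro h i
    exact h _ (reflE_mem hA i)

/-- `s_i f - f` is divisible by `X_i` -/
theorem X_dvd_sub_refl (i : Fin l) (f : MvPolynomial (Fin l) ℂ) : X i ∣ f - refl A i f := by
  induction f using MvPolynomial.induction_on with
  | C a =>
    rw [← algebraMap_eq, AlgHom.commutes, sub_self]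
    exact dvd_zero _
  | add p q hp hq =>
    rw [map_add]
    have : p + q - (refl A i p + refl A i q) = (p - refl A i p) + (q - refl A i q) := by ring
    rw [this]
    exact dvd_add hp hq
  | mul_X p j ih =>
    rw [map_mul, refl_X]
    have : p * X j - refl A i p * (X j - C (A i j : ℂ) * X i)
        = (p - refl A i p) * X j + X i * (C (A i j : ℂ) * refl A i p) := by ring
    rw [this]
    exact dvd_add (ih.mul_right _) (dvd_mul_right _ _)

/-- an element of the Weyl group acting as a reflection `w X_a - X_a ∈ ℂ q` (`q` a linear form with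
complex coefficients) comes from a root: `q` is proportional to the linear form of a positive
root. -/
theorem WG_reflection_root (hA : SimplyLaced A)
    (w : MvPolynomial (Fin l) ℂ ≃ₐ[ℂ] MvPolynomial (Fin l) ℂ) (hw : w ∈ WG hA) (hne : w ≠ 1)
    (q : Fin l → ℂ) (h : ∀ a, ∃ c : ℂ, w (X a) - X a = C c * ∑ k, C (q k) * X k) :
    ∃ b : Fin l → ℤ, IsRt A b ∧ 0 ≤ b ∧ ∃ c : ℂ, c ≠ 0 ∧ lin b = C c * ∑ k, C (q k) * X k := by
  obtain ⟨L, rfl⟩ := (mem_WG hA w).1 hw
  have hL : wv A L ≠ 1 := by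
    intro h1
    apply hne
    apply WG_ext
    intro a
    rw [wp_X, h1]
    exact lin_ee a
  have hco : ∀ k, coeff (Finsupp.single k 1) (∑ k, C (q k) * X k : MvPolynomial (Fin l) ℂ) = q k := by
    intro k
    classical
    rw [coeff_sum, sum_eq_single k]
    · rw [coeff_C_mul, coeff_X, if_pos rfl, mul_one]
    · intro j _ hj
      rw [coeff_C_mul, coeff_X, if_neg, mul_zero]
      intro h2
      exact hj (Finsupp.single_left_injective one_ne_zero h2)
    · simp
  obtain ⟨b, hb, hb0, c, hc, hbc⟩ := reflection_root hA L hL q (by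
    intro j
    obtain ⟨c, hc⟩ := h j
    refine ⟨c, fun k => ?_⟩
    have h1 := congrArg (coeff (Finsupp.single k 1)) hc
    rw [wp_X, ← lin_ee j, ← lin_sub, coeff_lin, coeff_C_mul, hco] at h1
    exact h1)
  refine ⟨b, hb, hb0, c, hc, ?_⟩
  rw [lin, mul_sum]
  apply sum_congr rfl
  intro k _
  rw [hbc, map_mul, mul_assoc]

/-- every positive root is conjugate to a simple root -/
theorem WG_conj_simple (hA : SimplyLaced A) (b : Fin l → ℤ) (h : IsRt A b) (hb : 0 ≤ b) :
    ∃ w ∈ WG hA, ∃ i, w (lin b) = X i := by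
  obtain ⟨L, i, hL⟩ := conj_simple hA b h hb
  exact ⟨wp hA L, wp_mem hA L, i, by rw [wp_lin, hL, lin_ee]⟩

end WeylGroup

end Pool.Agent.LS
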