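import Pool.Agent.LS.Chev1
import Pool.Agent.LS.Der
import Pool.Agent.LS.W

/-!
# Chevalley's theorem for finite reflection groups, and basic invariants of Weyl groups
-/

namespace Pool.Agent.LS

open MvPolynomial Finset

section

variable {K : Type*} [Field K] [CharZero K] {l : ℕ}
  {W : Subgroup (MvPolynomial (Fin l) K ≃ₐ[K] MvPolynomial (Fin l) K)}

theorem card_le_of_algInd {m : ℕ} (P : Fin m → MvPolynomial (Fin l) K)
    (h : AlgebraicIndependent K P) : m ≤ l := by
  have h1 := h.lift_cardinalMk_le_trdeg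
  rw [MvPolynomial.trdeg_of_isDomain] at h1
  simpa using h1

theorem le_card_of_gen [Finite W] {m : ℕ} (P : Fin m → MvPolynomial (Fin l) K)
    (hP : ∀ f, (∀ w ∈ W, w f = f) → f ∈ Algebra.adjoin K (Set.range P)) : l ≤ m := by
  by_contra hlt
  push Not at hlt
  let L := FractionRing (MvPolynomial (Fin l) K)
  let φ : MvPolynomial (Fin l) K →ₐ[K] L := IsScalarTower.toAlgHom K (MvPolynomial (Fin l) K) L
  have hφ : Function.Injective φ := IsFractionRing.injective (MvPolynomial (Fin l) K) L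
  let M : Matrix (Fin m) (Fin l) L := Matrix.of fun j b => φ (pderiv b (P j))
  have hker : LinearMap.ker M.mulVecLin ≠ ⊥ := by
    apply LinearMap.ker_ne_bot_of_finrank_lt
    simpa using hlt
  obtain ⟨c, hc, hc0⟩ := (Submodule.ne_bot_iff _).1 hker
  obtain ⟨w, _, ⟨b, hb⟩, hw⟩ := der_lemma W φ P hP (fun b => pderiv b) (fun _ => 1)
    (fun _ => one_ne_zero) (fun j b => pderiv b (P j)) (fun j b => by rw [one_mul])
    (fun b => X b) (fun _ => 1) (fun _ => one_ne_zero) (by
      intro a b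
      rw [pderiv_X]
      by_cases hab : a = b
      · subst hab
        simp
      · rw [Pi.single_eq_of_ne (Ne.symm hab), if_neg hab]) c (by
      intro j
      have h1 := congrFun (LinearMap.mem_ker.1 hc) j
      exact h1) hc0
  exact hb (hφ (hw b))

/-- **Chevalley's theorem.** -/
theorem chevalley [Finite W] (hlin : ∀ w ∈ W, ∀ i, (w (X i)).IsHomogeneous 1)
    (Sg : Set (MvPolynomial (Fin l) K ≃ₐ[K] MvPolynomial (Fin l) K))
    (hS : Subgroup.closure Sg = W)
    (hrefl : ∀ s ∈ Sg, ∃ a : MvPolynomial (Fin l) K, a ≠ 0 ∧ a.IsHomogeneous 1 ∧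
      ∀ f, a ∣ f - s f) :
    ∃ (d : Fin l → ℕ) (P : Fin l → MvPolynomial (Fin l) K), (∀ j, 0 < d j) ∧
      (∀ j, (P j).IsHomogeneous (d j)) ∧ (∀ w ∈ W, ∀ j, w (P j) = P j) ∧
      AlgebraicIndependent K P ∧
      ∀ f, (∀ w ∈ W, w f = f) → f ∈ Algebra.adjoin K (Set.range P) := by
  obtain ⟨m, d, P, h1, h2, h3, h4, h5⟩ := chevalley_aux hlin Sg hS hrefl
  have hm : m = l := le_antisymm (card_le_of_algInd P h4) (le_card_of_gen P h5)
  subst hm
  exact ⟨d, P, h1, h2, h3, h4, h5⟩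

end

/-- basic invariants exist for every simply laced Cartan matrix of finite type -/
theorem exists_basic {l : ℕ} {A : Matrix (Fin l) (Fin l) ℤ} (hA : SimplyLaced A) :
    ∃ (d : Fin l → ℕ) (P : Fin l → MvPolynomial (Fin l) ℂ), (∀ j, 0 < d j) ∧
      (∀ j, (P j).IsHomogeneous (d j)) ∧ (∀ i j, refl A i (P j) = P j) ∧
      AlgebraicIndependent ℂ P ∧
      ∀ f, (∀ i, refl A i f = f) → f ∈ Algebra.adjoin ℂ (Set.range P) := by
  have := finite_WG hA
  obtain ⟨d, P, h1, h2, h3, h4, h5⟩ := chevalley (W := WG hA) (WG_homog hA)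
    (Set.range (reflE hA)) rfl (by
      rintro _ ⟨i, rfl⟩
      exact ⟨X i, X_ne_zero i, isHomogeneous_X _ i, fun f => X_dvd_sub_refl i f⟩)
  refine ⟨d, P, h1, h2, ?_, h4, ?_⟩
  · intro i j
    exact (inv_iff hA (P j)).2 (fun w hw => h3 w hw j) i
  · intro f hf
    exact h5 f ((inv_iff hA f).1 hf)

end Pool.Agent.LS
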