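import Pool.Agent.LS.Chev2

/-!
# Chevalley's theorem, part a : Reynolds operator, Hilbert ideal, Lemma 1
-/

namespace Pool.Agent.LS

open MvPolynomial Finset

section Chev

set_option linter.unusedSectionVars false

variable {K : Type*} [Field K] [CharZero K] {l : ℕ}
  (W : Subgroup (MvPolynomial (Fin l) K ≃ₐ[K] MvPolynomial (Fin l) K))

/-- the subalgebra of invariants -/
noncomputable def invS : Subalgebra K (MvPolynomial (Fin l) K) where
  carrier := {f | ∀ w ∈ W, w f = f}
  mul_mem' := by
    intro f g hf hg w hw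
    rw [map_mul, hf w hw, hg w hw]
  add_mem' := by
    intro f g hf hg w hw
    rw [map_add, hf w hw, hg w hw]
  algebraMap_mem' := by
    intro c w _
    exact w.commutes c

theorem mem_invS {f : MvPolynomial (Fin l) K} : f ∈ invS W ↔ ∀ w ∈ W, w f = f := Iff.rfl

/-- Reynolds operator -/
noncomputable def reyn [Fintype W] : MvPolynomial (Fin l) K →ₗ[K] MvPolynomial (Fin l) K :=
  ((Fintype.card W : K)⁻¹) • ∑ w : W, (w.1.toLinearMap)

/-- the Hilbert ideal -/
noncomputable def hilb : Ideal (MvPolynomial (Fin l) K) :=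
  Ideal.span {f | f ∈ invS W ∧ ∃ n, 0 < n ∧ f.IsHomogeneous n}

variable {W}

theorem reyn_apply [Fintype W] (f : MvPolynomial (Fin l) K) :
    reyn W f = ((Fintype.card W : K)⁻¹) • ∑ w : W, w.1 f := by
  simp [reyn, LinearMap.sum_apply]

theorem card_ne_zero' [Fintype W] : (Fintype.card W : K) ≠ 0 := by
  have : 0 < Fintype.card W := Fintype.card_pos
  exact_mod_cast this.ne'

theorem reyn_mem [Fintype W] (f : MvPolynomial (Fin l) K) : reyn W f ∈ invS W := by
  intro w hw
  rw [reyn_apply, map_smul, map_sum]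
  congr 1
  exact Fintype.sum_equiv (Equiv.mulLeft (⟨w, hw⟩ : W)) _ _ fun x => rfl

theorem reyn_of_mem [Fintype W] {f : MvPolynomial (Fin l) K} (hf : f ∈ invS W) :
    reyn W f = f := by
  rw [reyn_apply]
  have : ∀ w : W, w.1 f = f := fun w => hf w.1 w.2
  simp_rw [this]
  rw [sum_const, card_univ, ← Nat.cast_smul_eq_nsmul K, smul_smul, inv_mul_cancel₀ card_ne_zero',
    one_smul]

theorem reyn_mul [Fintype W] (f : MvPolynomial (Fin l) K) {g : MvPolynomial (Fin l) K}
    (hg : g ∈ invS W) : reyn W (f * g) = reyn W f * g := by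
  rw [reyn_apply, reyn_apply, smul_mul_assoc, sum_mul]
  congr 1
  apply sum_congr rfl
  intro w _
  rw [map_mul, hg w.1 w.2]

theorem map_homog (w : MvPolynomial (Fin l) K ≃ₐ[K] MvPolynomial (Fin l) K)
    (hw : ∀ i, (w (X i)).IsHomogeneous 1) {f : MvPolynomial (Fin l) K} {n : ℕ}
    (hf : f.IsHomogeneous n) : (w f).IsHomogeneous n := by
  have h1 : w f = aeval (fun i => w (X i)) f := by
    have h2 : (w : MvPolynomial (Fin l) K →ₐ[K] MvPolynomial (Fin l) K)
        = aeval (fun i => w (X i)) := by
      apply algHom_ext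
      intro i
      rw [aeval_X]
      rfl
    exact DFunLike.congr_fun h2 f
  rw [h1]
  have h3 := hf.aeval (fun i => w (X i)) hw
  rwa [one_mul] at h3

theorem map_homComp (w : MvPolynomial (Fin l) K ≃ₐ[K] MvPolynomial (Fin l) K)
    (hw : ∀ i, (w (X i)).IsHomogeneous 1) (f : MvPolynomial (Fin l) K) (n : ℕ) :
    w (homogeneousComponent n f) = homogeneousComponent n (w f) := by
  have h1 : w f = ∑ k ∈ range (f.totalDegree + 1), w (homogeneousComponent k f) := by
    rw [← map_sum, sum_homogeneousComponent]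
  have h2 : ∀ k, homogeneousComponent n (w (homogeneousComponent k f))
      = if n = k then w (homogeneousComponent k f) else 0 := fun k =>
    homogeneousComponent_of_mem (map_homog w hw (homogeneousComponent_isHomogeneous k f))
  rw [h1, map_sum]
  simp_rw [h2]
  rw [sum_ite_eq]
  split_ifs with h
  · rfl
  · rw [homogeneousComponent_eq_zero, map_zero]
    rw [mem_range] at h
    omega

variable (hlin : ∀ w ∈ W, ∀ i, (w (X i)).IsHomogeneous 1)

include hlin

theorem reyn_homog [Fintype W] {f : MvPolynomial (Fin l) K} {n : ℕ}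
    (hf : f.IsHomogeneous n) : (reyn W f).IsHomogeneous n := by
  rw [reyn_apply, smul_eq_C_mul]
  apply IsHomogeneous.C_mul
  apply IsHomogeneous.sum
  intro w _
  exact map_homog w.1 (hlin w.1 w.2) hf

theorem homComp_mem {f : MvPolynomial (Fin l) K} (hf : f ∈ invS W) (n : ℕ) :
    homogeneousComponent n f ∈ invS W := by
  intro w hw
  rw [map_homComp w (hlin w hw), hf w hw]

omit hlin in
theorem hilb_stable {f : MvPolynomial (Fin l) K} (hf : f ∈ hilb W)
    (w : MvPolynomial (Fin l) K ≃ₐ[K] MvPolynomial (Fin l) K) (hw : w ∈ W) : w f ∈ hilb W := by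
  unfold hilb at hf
  induction hf using Submodule.span_induction with
  | mem x hx =>
    rw [hx.1 w hw]
    exact Ideal.subset_span hx
  | zero =>
    rw [map_zero]
    exact Ideal.zero_mem _
  | add x y _ _ hx hy =>
    rw [map_add]
    exact Ideal.add_mem _ hx hy
  | smul a x _ hx =>
    rw [smul_eq_mul, map_mul]
    exact Ideal.mul_mem_left _ _ hx

/-- Chevalley's Lemma 1 -/
theorem lemma1 [Finite W]
    (Sg : Set (MvPolynomial (Fin l) K ≃ₐ[K] MvPolynomial (Fin l) K))
    (hS : Subgroup.closure Sg = W)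
    (hrefl : ∀ s ∈ Sg, ∃ a : MvPolynomial (Fin l) K, a ≠ 0 ∧ a.IsHomogeneous 1 ∧
      ∀ f, a ∣ f - s f) {m : ℕ} (e : ℕ) :
    ∀ (g h : Fin m → MvPolynomial (Fin l) K) (j0 : Fin m), (∀ i, g i ∈ invS W) →
      (h j0).IsHomogeneous e → ∑ i, h i * g i = 0 →
      (¬ ∃ a : Fin m → MvPolynomial (Fin l) K, (∀ i, a i ∈ invS W) ∧
        g j0 = ∑ i ∈ univ.erase j0, a i * g i) → h j0 ∈ hilb W := by
  classical
  have := Fintype.ofFinite W
  induction e with
  | zero =>
    intro g h j0 hg hh hsum hnot
    obtain ⟨c, hc⟩ : ∃ c : K, h j0 = C c := by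
      rw [← totalDegree_zero_iff_isHomogeneous, totalDegree_eq_zero_iff_eq_C] at hh
      exact ⟨_, hh⟩
    rcases eq_or_ne c 0 with h0 | h0
    · rw [hc, h0, C_0]
      exact Ideal.zero_mem _
    · exfalso
      apply hnot
      refine ⟨fun i => C (-c⁻¹) * reyn W (h i), fun i =>
        (invS W).mul_mem ((invS W).algebraMap_mem _) (reyn_mem _), ?_⟩
      rw [← add_sum_erase _ _ (mem_univ j0), hc] at hsum
      have h1 := congrArg (reyn W) hsum
      rw [map_add, map_zero, ← smul_eq_C_mul, map_smul, reyn_of_mem (hg j0), map_sum] at h1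
      have h2 : ∀ i, reyn W (h i * g i) = reyn W (h i) * g i := fun i => reyn_mul _ (hg i)
      simp_rw [h2] at h1
      have h3 : ∑ i ∈ univ.erase j0, C (-c⁻¹) * reyn W (h i) * g i
          = C (-c⁻¹) * ∑ i ∈ univ.erase j0, reyn W (h i) * g i := by
        rw [mul_sum]
        apply sum_congr rfl
        intro i _
        ring
      rw [h3]
      have h4 : ∑ i ∈ univ.erase j0, reyn W (h i) * g i = - (C c * g j0) := by
        rw [smul_eq_C_mul] at h1
        linear_combination h1
      rw [h4, C_neg]
      have h5 : (C c⁻¹ * C c : MvPolynomial (Fin l) K) = 1 := by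
        rw [← C_mul, inv_mul_cancel₀ h0, C_1]
      linear_combination (-g j0) * h5
  | succ e ih =>
    intro g h j0 hg hh hsum hnot
    -- each reflection
    have hs : ∀ s ∈ Sg, h j0 - s (h j0) ∈ hilb W := by
      intro s hsS
      have hsW : s ∈ W := by
        rw [← hS]
        exact Subgroup.subset_closure hsS
      obtain ⟨a, ha0, ha1, ha2⟩ := hrefl s hsS
      choose q hq using fun i => ha2 (h i)
      have h1 : ∑ i, q i * g i = 0 := by
        have h2 : a * ∑ i, q i * g i = 0 := by
          have h3 := congrArg s hsum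
          rw [map_sum, map_zero] at h3
          have h4 : ∀ i, s (h i * g i) = s (h i) * g i := by
            intro i
            rw [map_mul, hg i s hsW]
          simp_rw [h4] at h3
          have h5 : ∑ i, (h i - s (h i)) * g i = 0 := by
            simp_rw [sub_mul]
            rw [sum_sub_distrib, hsum, h3, sub_zero]
          rw [← h5, mul_sum]
          apply sum_congr rfl
          intro i _
          rw [hq i]
          ring
        exact (mul_eq_zero.1 h2).resolve_left ha0
      have h2 : (q j0).IsHomogeneous e := by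
        have h3 : (h j0 - s (h j0)).IsHomogeneous (e + 1) :=
          hh.sub (map_homog s (hlin s hsW) hh)
        have h4 := homogeneousComponent_eq_self h3
        rw [hq j0, mul_comm, homComp_mul _ 1 _ _ ha1, if_pos (by omega), Nat.add_sub_cancel] at h4
        have h5 := mul_right_cancel₀ ha0 h4
        rw [← h5]
        exact homogeneousComponent_isHomogeneous _ _
      have h3 := ih g q j0 hg h2 h1 hnot
      rw [hq j0]
      exact Ideal.mul_mem_left _ _ h3
    have hall : ∀ w ∈ W, h j0 - w (h j0) ∈ hilb W := by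
      intro w hw
      rw [← hS] at hw
      induction hw using Subgroup.closure_induction with
      | mem x hx => exact hs x hx
      | one =>
        rw [AlgEquiv.one_apply, sub_self]
        exact Ideal.zero_mem _
      | mul x y hx hy ihx ihy =>
        have h1 : h j0 - (x * y) (h j0) = (h j0 - x (h j0)) + x (h j0 - y (h j0)) := by
          rw [AlgEquiv.mul_apply, map_sub]
          ring
        rw [h1]
        rw [hS] at hx
        exact Ideal.add_mem _ ihx (hilb_stable ihy x hx)
      | inv x hx ihx =>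
        have h1 : h j0 - x⁻¹ (h j0) = - x⁻¹ (h j0 - x (h j0)) := by
          have h2 : x⁻¹ (x (h j0)) = h j0 := by
            rw [← AlgEquiv.mul_apply, inv_mul_cancel, AlgEquiv.one_apply]
          rw [map_sub, h2]
          ring
        rw [h1]
        rw [hS] at hx
        exact (hilb W).neg_mem (hilb_stable ihx _ (W.inv_mem hx))
    have h1 : h j0 - reyn W (h j0) ∈ hilb W := by
      have h2 : h j0 - reyn W (h j0)
          = C ((Fintype.card W : K)⁻¹) * ∑ w : W, (h j0 - w.1 (h j0)) := by
        rw [sum_sub_distrib, sum_const, card_univ, mul_sub, reyn_apply, smul_eq_C_mul]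
        congr 1
        rw [← Nat.cast_smul_eq_nsmul K, smul_eq_C_mul, ← mul_assoc, ← C_mul,
          inv_mul_cancel₀ card_ne_zero', C_1, one_mul]
      rw [h2]
      exact Ideal.mul_mem_left _ _ (Ideal.sum_mem _ fun w _ => hall w.1 w.2)
    have h2 : reyn W (h j0) ∈ hilb W :=
      Ideal.subset_span ⟨reyn_mem _, e + 1, by omega, reyn_homog hlin hh⟩
    have h3 := (hilb W).add_mem h1 h2
    rwa [sub_add_cancel] at h3

/-- generators of the Hilbert ideal generate the invariants -/
theorem inv_le_adjoin [Finite W] {m : ℕ} (P : Fin m → MvPolynomial (Fin l) K) (d : Fin m → ℕ)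
    (hd : ∀ i, 0 < d i) (hP : ∀ i, (P i).IsHomogeneous (d i)) (hPI : ∀ i, P i ∈ invS W)
    (hspan : hilb W = Ideal.span (Set.range P)) (f : MvPolynomial (Fin l) K) (hf : f ∈ invS W) :
    f ∈ Algebra.adjoin K (Set.range P) := by
  classical
  have := Fintype.ofFinite W
  have key : ∀ (n : ℕ) (f : MvPolynomial (Fin l) K), f ∈ invS W → f.IsHomogeneous n →
      f ∈ Algebra.adjoin K (Set.range P) := by
    intro n
    induction n using Nat.strong_induction_on with
    | _ n ih =>
      intro f hf hfn
      rcases Nat.eq_zero_or_pos n with h0 | h0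
      · rw [h0, ← totalDegree_zero_iff_isHomogeneous, totalDegree_eq_zero_iff_eq_C] at hfn
        rw [hfn]
        exact Subalgebra.algebraMap_mem _ _
      · have h1 : f ∈ hilb W := Ideal.subset_span ⟨hf, n, h0, hfn⟩
        rw [hspan, Ideal.mem_span_range_iff_exists_fun] at h1
        obtain ⟨c, hc⟩ := h1
        have h2 := congrArg (reyn W) (congrArg (homogeneousComponent n) hc)
        rw [homogeneousComponent_eq_self hfn, reyn_of_mem hf, map_sum, map_sum] at h2
        rw [← h2]
        apply Subalgebra.sum_mem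
        intro i _
        rw [homComp_mul _ _ _ _ (hP i)]
        split_ifs with hdi
        · rw [reyn_mul _ (hPI i)]
          apply Subalgebra.mul_mem
          · apply ih (n - d i) (by have := hd i; omega) _ (reyn_mem _)
            exact reyn_homog hlin (homogeneousComponent_isHomogeneous _ _)
          · exact Algebra.subset_adjoin ⟨i, rfl⟩
        · rw [map_zero]
          exact Subalgebra.zero_mem _
  rw [← sum_homogeneousComponent f]
  apply Subalgebra.sum_mem
  intro k _
  exact key k _ (homComp_mem hlin hf k) (homogeneousComponent_isHomogeneous _ _)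

omit hlin in
/-- a minimal system of homogeneous invariants generating the Hilbert ideal -/
theorem exists_min_gen : ∃ (m : ℕ) (P : Fin m → MvPolynomial (Fin l) K) (d : Fin m → ℕ),
    (∀ i, 0 < d i) ∧ (∀ i, (P i).IsHomogeneous (d i)) ∧ (∀ i, P i ∈ invS W) ∧
    hilb W = Ideal.span (Set.range P) ∧ ∀ j, P j ∉ Ideal.span (P '' {i | i ≠ j}) := by
  classical
  have hex : ∃ (m : ℕ), ∃ (P : Fin m → MvPolynomial (Fin l) K),
      (∀ i, P i ∈ invS W ∧ ∃ n, 0 < n ∧ (P i).IsHomogeneous n) ∧
      hilb W = Ideal.span (Set.range P) := by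
    have hfg : (Submodule.span (MvPolynomial (Fin l) K)
        {f | f ∈ invS W ∧ ∃ n, 0 < n ∧ f.IsHomogeneous n}).FG :=
      IsNoetherian.noetherian (hilb W)
    rw [Submodule.fg_span_iff_fg_span_finset_subset] at hfg
    obtain ⟨s, hs1, hs2⟩ := hfg
    refine ⟨s.card, fun i => (s.equivFin.symm i : MvPolynomial (Fin l) K), ?_, ?_⟩
    · intro i
      exact hs1 (s.equivFin.symm i).2
    · unfold hilb Ideal.span
      rw [hs2]
      congr 1
      ext x
      constructor
      · intro hx
        exact ⟨s.equivFin ⟨x, hx⟩, by simp⟩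
      · rintro ⟨i, rfl⟩
        exact (s.equivFin.symm i).2
  obtain ⟨P, hP1, hP2⟩ := Nat.find_spec hex
  have hmin : ∀ m' < Nat.find hex, ¬ ∃ (P : Fin m' → MvPolynomial (Fin l) K),
      (∀ i, P i ∈ invS W ∧ ∃ n, 0 < n ∧ (P i).IsHomogeneous n) ∧
      hilb W = Ideal.span (Set.range P) := fun m' h => Nat.find_min hex h
  choose hPI d hd hPd using hP1
  refine ⟨Nat.find hex, P, d, hd, hPd, hPI, hP2, ?_⟩
  generalize Nat.find hex = m at P hP2 hmin hPI d hd hPd
  intro j hj
  cases m with
  | zero => exact j.elim0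
  | succ m =>
    apply hmin m (Nat.lt_succ_self m)
    refine ⟨fun i => P (j.succAbove i), fun i => ⟨hPI _, d _, hd _, hPd _⟩, ?_⟩
    rw [hP2]
    apply le_antisymm
    · rw [Ideal.span_le]
      rintro _ ⟨i, rfl⟩
      have hsub : Ideal.span (P '' {i | i ≠ j})
          ≤ Ideal.span (Set.range fun i => P (j.succAbove i)) := by
        apply Ideal.span_mono
        rintro _ ⟨k, hk, rfl⟩
        obtain ⟨k', hk'⟩ := Fin.exists_succAbove_eq hk
        exact ⟨k', by rw [← hk']⟩
      by_cases hi : i = j
      · rw [hi]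
        exact hsub hj
      · exact hsub (Ideal.subset_span ⟨i, hi, rfl⟩)
    · apply Ideal.span_mono
      rintro _ ⟨i, rfl⟩
      exact ⟨_, rfl⟩

/-- Chevalley's theorem (with an a priori unknown number of generators) -/
theorem chevalley_aux [Finite W]
    (Sg : Set (MvPolynomial (Fin l) K ≃ₐ[K] MvPolynomial (Fin l) K))
    (hS : Subgroup.closure Sg = W)
    (hrefl : ∀ s ∈ Sg, ∃ a : MvPolynomial (Fin l) K, a ≠ 0 ∧ a.IsHomogeneous 1 ∧
      ∀ f, a ∣ f - s f) :
    ∃ (m : ℕ) (d : Fin m → ℕ) (P : Fin m → MvPolynomial (Fin l) K), (∀ j, 0 < d j) ∧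
      (∀ j, (P j).IsHomogeneous (d j)) ∧ (∀ w ∈ W, ∀ j, w (P j) = P j) ∧
      AlgebraicIndependent K P ∧
      ∀ f, (∀ w ∈ W, w f = f) → f ∈ Algebra.adjoin K (Set.range P) := by
  obtain ⟨m, P, d, hd, hP, hPI, hspan, hmin⟩ := exists_min_gen (W := W)
  refine ⟨m, d, P, hd, hP, fun w hw j => hPI j w hw, ?_, fun f hf =>
    inv_le_adjoin hlin P d hd hP hPI hspan f hf⟩
  apply algInd_of_lemma1 (invS W) P d hd hP hPI hmin
  intro g h j0 hg hh hsum hnot
  obtain ⟨e, he⟩ := hh j0
  rw [← hspan]
  exact lemma1 hlin Sg hS hrefl e g h j0 hg he hsum hnot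

end Chev

end Pool.Agent.LS
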