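import Mathlib

/-!
# Pure lemmas for MP_ef3403_al (module A)
-/

namespace Pool.Agent.LS

open Finset

/-- number of partitions -/
noncomputable def pN (n : ℕ) : ℕ := Fintype.card (Nat.Partition n)

/-- pairs `(r,s)`, `r,s ≥ 1`, `r s ≤ N` -/
def II (N : ℕ) : Finset (ℕ × ℕ) := ((Icc 1 N) ×ˢ (Icc 1 N)).filter (fun rs => rs.1 * rs.2 ≤ N)

theorem mul_count_le {N : ℕ} (lam : Nat.Partition N) (s : ℕ) : lam.parts.count s * s ≤ N := by
  have h1 : Multiset.replicate (lam.parts.count s) s ≤ lam.parts := Multiset.le_count_iff_replicate_le.1 le_rfl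
  obtain ⟨u, hu⟩ := Multiset.le_iff_exists_add.1 h1
  have h2 := lam.parts_sum
  rw [hu, Multiset.sum_add, Multiset.sum_replicate, smul_eq_mul] at h2
  omega

theorem card_filter_count (N r s : ℕ) (hs : 1 ≤ s) (hrs : r * s ≤ N) :
    ((Finset.univ : Finset (Nat.Partition N)).filter (fun lam => r ≤ lam.parts.count s)).card
      = pN (N - r * s) := by
  rw [pN, ← Finset.card_univ]
  refine Finset.card_bij'
    (fun lam hlam => (⟨lam.parts - Multiset.replicate r s, ?_, ?_⟩ : Nat.Partition (N - r * s)))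
    (fun mu _ => (⟨mu.parts + Multiset.replicate r s, ?_, ?_⟩ : Nat.Partition N)) ?_ ?_ ?_ ?_
  · intro i hi
    exact lam.parts_pos (Multiset.mem_of_le (Multiset.sub_le_self _ _) hi)
  · have h1 : Multiset.replicate r s ≤ lam.parts :=
      Multiset.le_count_iff_replicate_le.1 (Finset.mem_filter.1 hlam).2
    have h2 : lam.parts - Multiset.replicate r s + Multiset.replicate r s = lam.parts :=
      tsub_add_cancel_of_le h1
    have h3 := lam.parts_sum
    rw [← h2, Multiset.sum_add, Multiset.sum_replicate, smul_eq_mul] at h3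
    omega
  · intro i hi
    rcases Multiset.mem_add.1 hi with h | h
    · exact mu.parts_pos h
    · rw [Multiset.eq_of_mem_replicate h]; omega
  · rw [Multiset.sum_add, mu.parts_sum, Multiset.sum_replicate, smul_eq_mul]
    omega
  · intro lam _
    exact Finset.mem_univ _
  · intro mu _
    rw [Finset.mem_filter]
    refine ⟨Finset.mem_univ _, ?_⟩
    simp
  · intro lam hlam
    have h1 : Multiset.replicate r s ≤ lam.parts :=
      Multiset.le_count_iff_replicate_le.1 (Finset.mem_filter.1 hlam).2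
    ext1
    exact tsub_add_cancel_of_le h1
  · intro mu _
    ext1
    exact add_tsub_cancel_right _ _

/-- A1 -/
theorem sum_card_parts (N : ℕ) :
    ∑ lam : Nat.Partition N, Multiset.card lam.parts = ∑ rs ∈ II N, pN (N - rs.1 * rs.2) := by
  have h1 : ∀ lam : Nat.Partition N, Multiset.card lam.parts
      = ∑ rs ∈ (Icc 1 N) ×ˢ (Icc 1 N), if rs.1 ≤ lam.parts.count rs.2 then 1 else 0 := by
    intro lam
    rw [Finset.sum_product_right]
    rw [← Multiset.sum_count_eq_card (s := Icc 1 N) (m := lam.parts)]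
    · refine Finset.sum_congr rfl (fun s hs => ?_)
      rw [Finset.sum_boole, Nat.cast_id]
      have h2 := mul_count_le lam s
      have h3 : lam.parts.count s ≤ N := by
        have := (Finset.mem_Icc.1 hs).1
        nlinarith
      have h4 : (Icc 1 N).filter (fun r => r ≤ lam.parts.count s) = Icc 1 (lam.parts.count s) := by
        ext r
        simp only [mem_filter, mem_Icc]
        omega
      rw [h4, Nat.card_Icc]
      omega
    · intro a ha
      rw [Finset.mem_Icc]
      exact ⟨lam.parts_pos ha, lam.le_of_mem_parts ha⟩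
  simp_rw [h1]
  rw [Finset.sum_comm, II, Finset.sum_filter]
  refine Finset.sum_congr rfl ?_
  rintro ⟨r, s⟩ hrs
  rw [Finset.mem_product, Finset.mem_Icc, Finset.mem_Icc] at hrs
  simp only at hrs ⊢
  rw [Finset.sum_boole, Nat.cast_id]
  split_ifs with h
  · exact card_filter_count N r s hrs.2.1 h
  · rw [Finset.card_eq_zero, Finset.filter_eq_empty_iff]
    intro lam _ h2
    apply h
    exact (Nat.mul_le_mul_right s h2).trans (mul_count_le lam s)

/-- A2 -/
theorem pow_dvd_det_of_corank {F : Type*} [Field F] {n c : Type*} [Fintype n] [DecidableEq n]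
    [Fintype c] (A : Matrix n n (Polynomial F)) (t0 : F) (B : c → n → F)
    (hB : LinearIndependent F B)
    (h : ∀ i j, ∑ k, (A i k).eval t0 * B j k = 0) :
    (Polynomial.X - Polynomial.C t0) ^ (Fintype.card c) ∣ A.det := by
  classical
  have hid : LinearIndepOn F id (Set.range B) := hB.linearIndepOn_id
  let b := Module.Basis.extend hid
  have hfin : Finite (hid.extend (Set.subset_univ _)) := Module.Finite.finite_basis b
  let hfin' : Fintype (hid.extend (Set.subset_univ _)) := Fintype.ofFinite _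
  have hcard : Fintype.card n = Fintype.card (hid.extend (Set.subset_univ _)) := by
    rw [← Module.finrank_eq_card_basis b, Module.finrank_fintype_fun_eq_card]
  let e : n ≃ (hid.extend (Set.subset_univ _)) := Fintype.equivOfCardEq hcard
  let b' : Module.Basis n F (n → F) := b.reindex e.symm
  let P : Matrix n n F := (Pi.basisFun F n).toMatrix b'
  have hP : ∀ i j, P i j = b (e j) i := by
    intro i j
    simp [P, b', Module.Basis.toMatrix_apply]
  have hPdet : P.det ≠ 0 := by
    have h1 : P * b'.toMatrix (Pi.basisFun F n) = 1 := Module.Basis.toMatrix_mul_toMatrix_flip _ _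
    have h2 := congrArg Matrix.det h1
    rw [Matrix.det_mul, Matrix.det_one] at h2
    intro h3
    rw [h3, zero_mul] at h2
    exact zero_ne_one h2
  let x : c → (hid.extend (Set.subset_univ _)) := fun k =>
    ⟨B k, Module.Basis.subset_extend hid ⟨k, rfl⟩⟩
  have hx : Function.Injective (fun k => e.symm (x k)) := by
    intro k k' hk
    have h1 : x k = x k' := e.symm.injective hk
    exact hB.injective (congrArg Subtype.val h1)
  let J : Finset n := Finset.univ.image (fun k => e.symm (x k))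
  have hJ : J.card = Fintype.card c := by
    rw [Finset.card_image_of_injective _ hx, Finset.card_univ]
  have hcol : ∀ i j, j ∈ J →
      (Polynomial.X - Polynomial.C t0) ∣ (A * P.map Polynomial.C) i j := by
    intro i j hj
    rw [Polynomial.dvd_iff_isRoot, Polynomial.IsRoot.def, Matrix.mul_apply, Polynomial.eval_finsetSum]
    obtain ⟨k, -, hk⟩ := Finset.mem_image.1 hj
    rw [← h i k]
    refine Finset.sum_congr rfl (fun y _ => ?_)
    rw [Polynomial.eval_mul, Matrix.map_apply, Polynomial.eval_C, hP, ← hk, e.apply_symm_apply]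
    have : b (x k) = B k := Module.Basis.extend_apply_self hid (x k)
    rw [this]
  choose! Q hQ using hcol
  have hM : A * P.map Polynomial.C = Matrix.of fun i j =>
      (if j ∈ J then (Polynomial.X - Polynomial.C t0) else 1) *
        (Matrix.of (fun i j => if j ∈ J then Q i j else (A * P.map Polynomial.C) i j)) i j := by
    ext1 i j
    rw [Matrix.of_apply, Matrix.of_apply]
    by_cases hj : j ∈ J
    · rw [if_pos hj, if_pos hj]; exact hQ i j hj
    · rw [if_neg hj, if_neg hj, one_mul]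
  have hdet := congrArg Matrix.det hM
  rw [Matrix.det_mul_row (fun j => if j ∈ J
      then (Polynomial.X - Polynomial.C t0) else (1 : Polynomial F))] at hdet
  have hprod : (∏ j, if j ∈ J then (Polynomial.X - Polynomial.C t0) else (1 : Polynomial F))
      = (Polynomial.X - Polynomial.C t0) ^ (Fintype.card c) := by
    rw [Finset.prod_ite_mem, Finset.univ_inter, Finset.prod_const, hJ]
  have hAP : (A * P.map Polynomial.C).det = A.det * Polynomial.C P.det := by
    rw [Matrix.det_mul]
    congr 1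
    exact (RingHom.map_det Polynomial.C P).symm
  have hdvd : (Polynomial.X - Polynomial.C t0) ^ (Fintype.card c) ∣ A.det * Polynomial.C P.det := by
    rw [← hAP, hdet, hprod]
    exact Dvd.intro _ rfl
  have hu : IsUnit (Polynomial.C P.det) := Polynomial.isUnit_C.2 (isUnit_iff_ne_zero.2 hPdet)
  exact (IsUnit.dvd_mul_right hu).1 hdvd

theorem natDegree_prod_le' {R : Type*} [CommRing R] {ι : Type*} (s : Finset ι)
    (f : ι → Polynomial R) (d : ι → ℕ) (h : ∀ i ∈ s, (f i).natDegree ≤ d i) :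
    (∏ i ∈ s, f i).natDegree ≤ ∑ i ∈ s, d i :=
  (Polynomial.natDegree_prod_le s f).trans (Finset.sum_le_sum h)

theorem coeff_prod_of_natDegree_le' {R : Type*} [CommRing R] {ι : Type*} (s : Finset ι)
    (f : ι → Polynomial R) (d : ι → ℕ) (h : ∀ i ∈ s, (f i).natDegree ≤ d i) :
    (∏ i ∈ s, f i).coeff (∑ i ∈ s, d i) = ∏ i ∈ s, (f i).coeff (d i) := by
  classical
  induction s using Finset.induction_on with
  | empty => simp
  | insert a s ha ih =>
    rw [Finset.prod_insert ha, Finset.sum_insert ha, Finset.prod_insert ha,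
      Polynomial.coeff_mul_add_eq_of_natDegree_le (h a (Finset.mem_insert_self a s))
        (natDegree_prod_le' s f d (fun i hi => h i (Finset.mem_insert_of_mem hi))),
      ih (fun i hi => h i (Finset.mem_insert_of_mem hi))]

/-- A3 -/
theorem natDegree_det_le {R : Type*} [CommRing R] {n : Type*} [Fintype n] [DecidableEq n]
    (A : Matrix n n (Polynomial R)) (d : n → ℕ) (h : ∀ i j, (A i j).natDegree ≤ d i) :
    A.det.natDegree ≤ ∑ i, d i := by
  rw [Matrix.det_apply]
  refine Polynomial.natDegree_sum_le_of_forall_le _ _ (fun σ _ => ?_)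
  refine (Polynomial.natDegree_smul_le _ _).trans ?_
  refine (natDegree_prod_le' Finset.univ (fun i => A (σ i) i) (fun i => d (σ i))
    (fun i _ => h _ _)).trans ?_
  rw [Equiv.sum_comp σ d]

/-- A3 -/
theorem coeff_det_of_natDegree_le {R : Type*} [CommRing R] {n : Type*} [Fintype n] [DecidableEq n]
    (A : Matrix n n (Polynomial R)) (d : n → ℕ) (h : ∀ i j, (A i j).natDegree ≤ d i) :
    A.det.coeff (∑ i, d i) = (Matrix.of fun i j => (A i j).coeff (d i)).det := by
  rw [Matrix.det_apply, Matrix.det_apply, Polynomial.finsetSum_coeff]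
  refine Finset.sum_congr rfl (fun σ _ => ?_)
  have h1 := coeff_prod_of_natDegree_le' Finset.univ (fun i => A (σ i) i) (fun i => d (σ i))
    (fun i _ => h _ _)
  rw [Equiv.sum_comp σ d] at h1
  simp only [Matrix.of_apply]
  rw [Units.smul_def, Units.smul_def, Polynomial.coeff_smul, h1]

/-- A4 -/
theorem eq_prod_of_dvd {F : Type*} [Field F] {ι : Type*} (s : Finset ι) (t : ι → F) (m : ι → ℕ)
    (ht : Set.InjOn t s) (D : Polynomial F)
    (hdvd : ∀ i ∈ s, (Polynomial.X - Polynomial.C (t i)) ^ (m i) ∣ D)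
    (hdeg : D.natDegree ≤ ∑ i ∈ s, m i) :
    D = Polynomial.C (D.coeff (∑ i ∈ s, m i)) * ∏ i ∈ s, (Polynomial.X - Polynomial.C (t i)) ^ (m i) := by
  classical
  have hcop : (s : Set ι).Pairwise (Function.onFun IsCoprime
      (fun i => (Polynomial.X - Polynomial.C (t i)) ^ (m i))) := by
    intro i hi j hj hij
    exact IsCoprime.pow (Polynomial.isCoprime_X_sub_C_of_isUnit_sub
      (isUnit_iff_ne_zero.2 (sub_ne_zero.2 (fun h => hij (ht hi hj h)))))
  obtain ⟨Q, hQ⟩ := Finset.prod_dvd_of_coprime hcop hdvd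
  have hmonic : (∏ i ∈ s, (Polynomial.X - Polynomial.C (t i)) ^ (m i)).Monic :=
    Polynomial.monic_prod_of_monic _ _ (fun i _ => (Polynomial.monic_X_sub_C _).pow _)
  have hnd : (∏ i ∈ s, (Polynomial.X - Polynomial.C (t i)) ^ (m i)).natDegree = ∑ i ∈ s, m i := by
    rw [Polynomial.natDegree_prod_of_monic _ _ (fun i _ => (Polynomial.monic_X_sub_C _).pow _)]
    refine Finset.sum_congr rfl (fun i _ => ?_)
    rw [Polynomial.natDegree_pow, Polynomial.natDegree_X_sub_C, mul_one]
  have hQd : Q.natDegree = 0 := by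
    by_cases hQ0 : Q = 0
    · rw [hQ0]; simp
    · rw [hQ, hmonic.natDegree_mul' hQ0, hnd] at hdeg
      omega
  obtain ⟨q, rfl⟩ := Polynomial.natDegree_eq_zero.1 hQd
  have h1 : D.coeff (∑ i ∈ s, m i) = q := by
    rw [hQ, Polynomial.coeff_mul_C]
    have h2 := hmonic.coeff_natDegree
    rw [hnd] at h2
    rw [h2, one_mul]
  rw [h1, mul_comm]
  exact hQ

/-- A5 -/
theorem eval_ne_zero_of_identity (N p : ℕ) (hp : 1 ≤ p) (e : ℕ → ℕ) (E : Polynomial ℚ)
    (h : E * ∏ rs ∈ II N, (Polynomial.C ((rs.1 : ℚ) - 1) * Polynomial.X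
          - Polynomial.C (rs.2 : ℚ)) ^ (e (rs.1 * rs.2))
      = ∏ rs ∈ II N, (Polynomial.C ((rs.1 : ℚ) + 1) * Polynomial.X
          - Polynomial.C (rs.2 : ℚ)) ^ (e (rs.1 * rs.2))) :
    E.eval (p : ℚ) ≠ 0 := by
  classical
  -- the exponents
  set L := (II N).filter (fun rs => rs.2 = p * (rs.1 - 1)) with hL
  set R := (II N).filter (fun rs => rs.2 = p * (rs.1 + 1)) with hR
  have hII : ∀ r s, (r, s) ∈ II N ↔ 1 ≤ r ∧ 1 ≤ s ∧ r * s ≤ N := by
    intro r s
    simp only [II, mem_filter, mem_product, mem_Icc]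
    constructor
    · rintro ⟨⟨⟨h1, h2⟩, h3, h4⟩, h5⟩
      exact ⟨h1, h3, h5⟩
    · rintro ⟨h1, h2, h3⟩
      refine ⟨⟨⟨h1, ?_⟩, h2, ?_⟩, h3⟩
      · nlinarith
      · nlinarith
  have hsum : ∑ rs ∈ L, e (rs.1 * rs.2) = ∑ rs ∈ R, e (rs.1 * rs.2) := by
    have key : ∀ r s, (r, s) ∈ L ↔ 2 ≤ r ∧ s = p * (r - 1) ∧ r * s ≤ N := by
      intro r s
      rw [hL, mem_filter, hII]
      constructor
      · rintro ⟨⟨h1, h2, h3⟩, h4⟩
        refine ⟨?_, h4, h3⟩
        by_contra h5
        have h6 : r = 1 := by omega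
        subst h6
        simp at h4
        omega
      · rintro ⟨h1, h2, h3⟩
        refine ⟨⟨by omega, ?_, h3⟩, h2⟩
        rw [h2]
        exact Nat.mul_pos hp (by omega)
    have key' : ∀ r s, (r, s) ∈ R ↔ 1 ≤ r ∧ s = p * (r + 1) ∧ r * s ≤ N := by
      intro r s
      rw [hR, mem_filter, hII]
      constructor
      · rintro ⟨⟨h1, h2, h3⟩, h4⟩
        exact ⟨h1, h4, h3⟩
      · rintro ⟨h1, h2, h3⟩
        refine ⟨⟨by omega, ?_, h3⟩, h2⟩
        rw [h2]
        exact Nat.mul_pos hp (by omega)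
    refine Finset.sum_nbij' (fun rs => (rs.1 - 1, rs.2 + p)) (fun rs => (rs.1 + 1, rs.2 - p))
      ?_ ?_ ?_ ?_ ?_
    · rintro ⟨r, s⟩ hrs
      rw [key] at hrs
      obtain ⟨h1, h2, h3⟩ := hrs
      obtain ⟨q, rfl⟩ : ∃ q, r = q + 1 := ⟨r - 1, by omega⟩
      rw [key']
      simp only [Nat.add_sub_cancel] at h2 ⊢
      refine ⟨by omega, by rw [h2]; ring, ?_⟩
      calc q * (s + p) = (q + 1) * s := by rw [h2]; ring
        _ ≤ N := h3
    · rintro ⟨r, s⟩ hrs
      rw [key'] at hrs
      obtain ⟨h1, h2, h3⟩ := hrs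
      rw [key]
      have h4 : s - p = p * r := by rw [h2, mul_add, mul_one, Nat.add_sub_cancel]
      refine ⟨by simp only; omega, by simp only [Nat.add_sub_cancel]; exact h4, ?_⟩
      calc (r + 1) * (s - p) = r * s := by rw [h4, h2]; ring
        _ ≤ N := h3
    · rintro ⟨r, s⟩ hrs
      rw [key] at hrs
      obtain ⟨h1, h2, h3⟩ := hrs
      ext
      · simp only; omega
      · simp
    · rintro ⟨r, s⟩ hrs
      rw [key'] at hrs
      obtain ⟨h1, h2, h3⟩ := hrs
      have h5 : p ≤ s := by rw [h2]; nlinarith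
      ext
      · simp
      · simp only; omega
    · rintro ⟨r, s⟩ hrs
      rw [key] at hrs
      obtain ⟨h1, h2, h3⟩ := hrs
      obtain ⟨q, rfl⟩ : ∃ q, r = q + 1 := ⟨r - 1, by omega⟩
      simp only [Nat.add_sub_cancel] at h2 ⊢
      congr 1
      rw [h2]; ring
  -- factorisation of both products
  have hLf : ∏ rs ∈ II N, (Polynomial.C ((rs.1 : ℚ) - 1) * Polynomial.X
          - Polynomial.C (rs.2 : ℚ)) ^ (e (rs.1 * rs.2))
      = (Polynomial.X - Polynomial.C (p : ℚ)) ^ (∑ rs ∈ L, e (rs.1 * rs.2)) *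
        ((∏ rs ∈ L, (Polynomial.C ((rs.1 : ℚ) - 1)) ^ (e (rs.1 * rs.2))) *
        ∏ rs ∈ (II N).filter (fun rs => ¬ rs.2 = p * (rs.1 - 1)),
          (Polynomial.C ((rs.1 : ℚ) - 1) * Polynomial.X
          - Polynomial.C (rs.2 : ℚ)) ^ (e (rs.1 * rs.2))) := by
    rw [← Finset.prod_filter_mul_prod_filter_not (II N) (fun rs => rs.2 = p * (rs.1 - 1)),
      ← mul_assoc, ← Finset.prod_pow_eq_pow_sum, ← Finset.prod_mul_distrib]
    congr 1
    refine Finset.prod_congr rfl ?_
    rintro ⟨r, s⟩ hrs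
    rw [mem_filter, hII] at hrs
    obtain ⟨⟨h1, h2, h3⟩, h4⟩ := hrs
    rw [← mul_pow]
    congr 1
    obtain ⟨q, rfl⟩ : ∃ q, r = q + 1 := ⟨r - 1, by omega⟩
    simp only [Nat.add_sub_cancel] at h4 ⊢
    rw [h4]
    push_cast
    rw [add_sub_cancel_right, Polynomial.C_mul]
    ring
  have hRf : ∏ rs ∈ II N, (Polynomial.C ((rs.1 : ℚ) + 1) * Polynomial.X
          - Polynomial.C (rs.2 : ℚ)) ^ (e (rs.1 * rs.2))
      = (Polynomial.X - Polynomial.C (p : ℚ)) ^ (∑ rs ∈ R, e (rs.1 * rs.2)) *
        ((∏ rs ∈ R, (Polynomial.C ((rs.1 : ℚ) + 1)) ^ (e (rs.1 * rs.2))) *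
        ∏ rs ∈ (II N).filter (fun rs => ¬ rs.2 = p * (rs.1 + 1)),
          (Polynomial.C ((rs.1 : ℚ) + 1) * Polynomial.X
          - Polynomial.C (rs.2 : ℚ)) ^ (e (rs.1 * rs.2))) := by
    rw [← Finset.prod_filter_mul_prod_filter_not (II N) (fun rs => rs.2 = p * (rs.1 + 1)),
      ← mul_assoc, ← Finset.prod_pow_eq_pow_sum, ← Finset.prod_mul_distrib]
    congr 1
    refine Finset.prod_congr rfl ?_
    rintro ⟨r, s⟩ hrs
    rw [mem_filter, hII] at hrs
    obtain ⟨⟨h1, h2, h3⟩, h4⟩ := hrs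
    rw [← mul_pow]
    congr 1
    simp only at h4 ⊢
    rw [h4]
    push_cast
    rw [Polynomial.C_mul]
    ring
  rw [hLf, hRf, ← hsum, mul_left_comm] at h
  have h2 := mul_left_cancel₀ (pow_ne_zero _ (Polynomial.X_sub_C_ne_zero (p : ℚ))) h
  have h3 := congrArg (Polynomial.eval (p : ℚ)) h2
  rw [Polynomial.eval_mul] at h3
  intro h0
  rw [h0, zero_mul, Polynomial.eval_mul, Polynomial.eval_prod, Polynomial.eval_prod] at h3
  have h4 := h3.symm
  rw [mul_eq_zero, Finset.prod_eq_zero_iff, Finset.prod_eq_zero_iff] at h4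
  rcases h4 with ⟨⟨r, s⟩, hrs, h5⟩ | ⟨⟨r, s⟩, hrs, h5⟩
  · rw [Polynomial.eval_pow, Polynomial.eval_C] at h5
    have h6 := eq_zero_of_pow_eq_zero h5
    have h7 : (0 : ℚ) ≤ (r : ℚ) := Nat.cast_nonneg r
    simp only at h6
    linarith
  · rw [mem_filter] at hrs
    simp only [Polynomial.eval_pow, Polynomial.eval_C, Polynomial.eval_sub, Polynomial.eval_mul,
      Polynomial.eval_X] at h5
    have h6 := eq_zero_of_pow_eq_zero h5
    apply hrs.2
    have h7 : (s : ℚ) = p * (r + 1) := by linarith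
    simp only
    exact_mod_cast h7

end Pool.Agent.LS
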