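import Pool.Agent.LS.Defs

/-!
# Rank one operators: Schur polynomials, vertex operator modes, Virasoro creation modes

`MvPolynomial ℕ K` is the Fock space; `X n` stands for the creation mode `x_{n+1}`.
-/

namespace Pool.Agent.LS

open MvPolynomial Finset

section RankOne

set_option linter.unusedSectionVars false

variable {K : Type*} [CommRing K] [Algebra ℚ K]

/-- the shift `x_{n+1} ↦ x_{n+1} - 2ν u^{n+1}`. -/
noncomputable def tau (ν : K) : MvPolynomial ℕ K →ₐ[K] Polynomial (MvPolynomial ℕ K) :=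
  aeval (fun n => Polynomial.C (X n) - Polynomial.C (C (2 * ν)) * Polynomial.X ^ (n + 1))

/-- `u^a ↦ P_{a-k}`. -/
noncomputable def sig (k : ℤ) : Polynomial (MvPolynomial ℕ K) →ₗ[MvPolynomial ℕ K] MvPolynomial ℕ K :=
  Polynomial.lsum (fun a => (PZ (a - k) : MvPolynomial ℕ K) • LinearMap.id)

/-- the vertex operator mode `S^{(k)}`. -/
noncomputable def S (ν : K) (k : ℤ) (f : MvPolynomial ℕ K) : MvPolynomial ℕ K :=
  sig k (tau ν f)

/-- `q_m = ∑_{a+b+1=m} X_a X_b`. -/
noncomputable def qq : ℕ → MvPolynomial ℕ K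
  | 0 => 0
  | (m + 1) => ∑ ab ∈ antidiagonal m, X ab.1 * X ab.2

/-- the derivation `X_j ↦ 4 ν (j+1) X_{j+m+1}` -/
noncomputable def Dm (ν : K) (m : ℕ) : Derivation K (MvPolynomial ℕ K) (MvPolynomial ℕ K) :=
  mkDerivation K (fun j => C (4 * ν * (j + 1)) * X (j + m + 1))

/-- `4ν L_{-(m+1)}` acting on the Fock space with zero mode `T`. -/
noncomputable def Lop (T ν : K) (m : ℕ) (f : MvPolynomial ℕ K) : MvPolynomial ℕ K :=
  (qq m + C (2 * (T + m * (ν - 1))) * X m) * f + Dm ν m f

theorem PN_zero : (PN 0 : MvPolynomial ℕ K) = 1 := by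
  rw [PN]

theorem PN_succ (l : ℕ) :
    C (((l + 1 : ℕ) : K)) * (PN (l + 1) : MvPolynomial ℕ K)
      = ∑ j ∈ range (l + 1), X j * PN (l - j) := by
  rw [PN, ← mul_assoc, ← C_mul]
  have h : (((l + 1 : ℕ) : K)) * algebraMap ℚ K (1 / (l + 1)) = 1 := by
    have : (((l + 1 : ℕ) : K)) = algebraMap ℚ K ((l + 1 : ℕ) : ℚ) := by simp
    rw [this, ← map_mul]
    have h2 : (((l + 1 : ℕ) : ℚ)) * (1 / ((l : ℚ) + 1)) = 1 := by
      push_cast
      field_simp
    rw [h2, map_one]
  rw [h, C_1, one_mul]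
  exact Fin.sum_univ_eq_sum_range (fun j => X j * PN (l - j)) (l + 1)

@[simp] theorem PZ_natCast (n : ℕ) : (PZ (n : ℤ) : MvPolynomial ℕ K) = PN n := rfl

theorem PZ_neg {l : ℤ} (h : l < 0) : (PZ l : MvPolynomial ℕ K) = 0 := by
  obtain ⟨n, rfl⟩ := Int.eq_negSucc_of_lt_zero h
  rfl

@[simp] theorem PZ_zero : (PZ 0 : MvPolynomial ℕ K) = 1 := by
  have : (PZ ((0 : ℕ) : ℤ) : MvPolynomial ℕ K) = 1 := by rw [PZ_natCast, PN_zero]
  simpa using this

/-- Euler identity. -/
theorem euler (l : ℤ) (N : ℕ) (hN : l ≤ N) :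
    C (l : K) * (PZ l : MvPolynomial ℕ K) = ∑ i ∈ range N, X i * PZ (l - 1 - i) := by
  rcases lt_trichotomy l 0 with h | h | h
  · rw [PZ_neg h, mul_zero]
    symm
    apply sum_eq_zero
    intro i _
    rw [PZ_neg (by omega), mul_zero]
  · subst h
    simp only [Int.cast_zero, map_zero, zero_mul]
    symm
    apply sum_eq_zero
    intro i _
    rw [PZ_neg (by omega), mul_zero]
  · obtain ⟨n, rfl⟩ : ∃ n : ℕ, l = ((n + 1 : ℕ) : ℤ) := ⟨(l - 1).toNat, by omega⟩
    have h1 := PN_succ (K := K) n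
    rw [PZ_natCast]
    have h2 : (((n + 1 : ℕ) : ℤ) : K) = ((n + 1 : ℕ) : K) := by push_cast; ring
    rw [h2, h1]
    have hsub : range (n + 1) ⊆ range N := by
      apply range_subset_range.2
      exact_mod_cast hN
    rw [← sum_subset hsub]
    · apply sum_congr rfl
      intro i hi
      rw [mem_range] at hi
      congr 1
      have : ((n + 1 : ℕ) : ℤ) - 1 - i = ((n - i : ℕ) : ℤ) := by omega
      rw [this, PZ_natCast]
    · intro i _ hi
      rw [mem_range, not_lt] at hi
      rw [PZ_neg (by push_cast; omega), mul_zero]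

/-- derivative of `P_l`. -/
theorem deriv_PZ (D : Derivation K (MvPolynomial ℕ K) (MvPolynomial ℕ K)) (l : ℤ) (N : ℕ)
    (hN : l ≤ N) :
    D (PZ l : MvPolynomial ℕ K)
      = ∑ j ∈ range N, C (algebraMap ℚ K (1 / (j + 1))) * D (X j) * PZ (l - 1 - j) := by
  have key : ∀ (n : ℕ) (l : ℤ), l ≤ n → ∀ N : ℕ, l ≤ N →
      D (PZ l : MvPolynomial ℕ K)
      = ∑ j ∈ range N, C (algebraMap ℚ K (1 / (j + 1))) * D (X j) * PZ (l - 1 - j) := by
    intro n
    induction n with
    | zero =>
      intro l hl N hN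
      have hr : ∑ j ∈ range N, C (algebraMap ℚ K (1 / (j + 1))) * D (X j) * PZ (l - 1 - j) = 0 := by
        apply sum_eq_zero
        intro j _
        rw [PZ_neg (by push_cast at hl; omega), mul_zero]
      rw [hr]
      rcases lt_or_eq_of_le hl with h | h
      · rw [PZ_neg (by push_cast at h; omega), map_zero]
      · have : l = 0 := by simpa using h
        rw [this, PZ_zero, Derivation.map_one_eq_zero]
    | succ n ih =>
      intro l hl N hN
      rcases lt_or_eq_of_le hl with h | h
      · exact ih l (by push_cast at h; omega) N hN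
      · -- l = n+1
        have hl0 : (0 : ℤ) < l := by push_cast at h; omega
        have hunit : C (l : K) * (C (algebraMap ℚ K (1 / (l : ℚ)))) = (1 : MvPolynomial ℕ K) := by
          rw [← C_mul]
          have h1 : (l : K) = algebraMap ℚ K (l : ℚ) := by simp
          rw [h1, ← map_mul]
          have h2 : (l : ℚ) * (1 / (l : ℚ)) = 1 := by
            have : (l : ℚ) ≠ 0 := by exact_mod_cast hl0.ne'
            field_simp
          rw [h2, map_one, C_1]
        have e1 := congrArg D (euler (K := K) l N hN)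
        rw [Derivation.leibniz, map_sum] at e1
        have hC : D (C (l : K)) = 0 := by
          rw [← algebraMap_eq]
          exact D.map_algebraMap _
        rw [hC, smul_zero, add_zero] at e1
        have e2 : ∀ i ∈ range N, D (X i * PZ (l - 1 - i))
            = X i * (∑ j ∈ range N, C (algebraMap ℚ K (1 / (j + 1))) * D (X j)
                * PZ (l - 1 - i - 1 - j)) + D (X i) * PZ (l - 1 - i) := by
          intro i _
          rw [Derivation.leibniz, smul_eq_mul, smul_eq_mul, ih (l - 1 - i) (by push_cast at h; omega)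
            N (by omega)]
          ring
        rw [sum_congr rfl e2, sum_add_distrib] at e1
        have e3 : ∑ i ∈ range N, X i * (∑ j ∈ range N, C (algebraMap ℚ K (1 / (j + 1))) * D (X j)
                * PZ (l - 1 - i - 1 - j))
            = ∑ j ∈ range N, C (algebraMap ℚ K (1 / (j + 1))) * D (X j) *
                (C ((l - 1 - j : ℤ) : K) * PZ (l - 1 - j)) := by
          simp_rw [mul_sum]
          rw [sum_comm]
          apply sum_congr rfl
          intro j _
          rw [euler (K := K) (l - 1 - j) N (by omega), mul_sum]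
          apply sum_congr rfl
          intro i _
          have : l - 1 - (i : ℤ) - 1 - j = l - 1 - j - 1 - i := by ring
          rw [this]
          ring
        rw [e3, ← sum_add_distrib] at e1
        have e4 : ∀ j ∈ range N, C (algebraMap ℚ K (1 / (j + 1))) * D (X j) *
                (C ((l - 1 - j : ℤ) : K) * PZ (l - 1 - j)) + D (X j) * PZ (l - 1 - j)
              = C (l : K) * (C (algebraMap ℚ K (1 / (j + 1))) * D (X j) * PZ (l - 1 - j)) := by
          intro j _
          have hj : C ((j : K) + 1) * (C (algebraMap ℚ K (1 / (j + 1)))) = (1 : MvPolynomial ℕ K) := by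
            rw [← C_mul]
            have h1 : (j : K) + 1 = algebraMap ℚ K ((j : ℚ) + 1) := by simp
            rw [h1, ← map_mul]
            have h2 : ((j : ℚ) + 1) * (1 / ((j : ℚ) + 1)) = 1 := by
              have : ((j : ℚ) + 1) ≠ 0 := by positivity
              field_simp
            rw [h2, map_one, C_1]
          have h3 : (C ((l - 1 - j : ℤ) : K) : MvPolynomial ℕ K) = C (l : K) - C ((j : K) + 1) := by
            rw [← C_sub]
            congr 1
            push_cast
            ring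
          rw [h3]
          linear_combination (-(D (X j) * PZ (l - 1 - j))) * hj
        rw [sum_congr rfl e4, ← mul_sum] at e1
        have e5 := congrArg (fun t => C (algebraMap ℚ K (1 / (l : ℚ))) * t) e1
        simp only [smul_eq_mul] at e5
        have e6 : C (algebraMap ℚ K (1 / (l : ℚ))) * (C (l : K) * D (PZ l))
            = D (PZ l : MvPolynomial ℕ K) := by
          linear_combination (D (PZ l)) * hunit
        rw [e6] at e5
        rw [e5, ← mul_assoc, mul_comm (C (algebraMap ℚ K (1 / (l : ℚ)))), hunit, one_mul]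
  exact key l.toNat l (by omega) N hN

theorem sig_monomial (k : ℤ) (a : ℕ) (c : MvPolynomial ℕ K) :
    sig k (Polynomial.monomial a c) = PZ (a - k) * c := by
  rw [sig, Polynomial.lsum_apply, Polynomial.sum_monomial_index]
  · rfl
  · simp

theorem sig_X_pow_mul (k : ℤ) (j : ℕ) (p : Polynomial (MvPolynomial ℕ K)) :
    sig k (Polynomial.X ^ j * p) = sig (k - j) p := by
  induction p using Polynomial.induction_on' with
  | add p q hp hq => rw [mul_add, map_add, map_add, hp, hq]
  | monomial a c =>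
    rw [Polynomial.X_pow_mul, Polynomial.monomial_mul_X_pow, sig_monomial, sig_monomial]
    congr 2
    push_cast
    ring

theorem S_add (ν : K) (k : ℤ) (f g : MvPolynomial ℕ K) : S ν k (f + g) = S ν k f + S ν k g := by
  simp [S, map_add]

theorem S_zero (ν : K) (k : ℤ) : S ν k 0 = 0 := by
  simp [S]

theorem S_C_mul (ν : K) (k : ℤ) (a : K) (f : MvPolynomial ℕ K) :
    S ν k (C a * f) = C a * S ν k f := by
  unfold S
  rw [map_mul]
  have h : tau ν (C a) = Polynomial.C (C a) := by
    rw [← algebraMap_eq, AlgHom.commutes]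
    rfl
  rw [h, ← Polynomial.smul_eq_C_mul, map_smul, smul_eq_mul]

theorem S_C (ν : K) (k : ℤ) (a : K) : S ν k (C a) = C a * PZ (-k) := by
  have h := S_C_mul ν k a 1
  rw [mul_one] at h
  rw [h]
  congr 1
  unfold S
  rw [map_one, ← Polynomial.monomial_zero_one, sig_monomial]
  simp

theorem S_X_mul (ν : K) (k : ℤ) (j : ℕ) (f : MvPolynomial ℕ K) :
    S ν k (X j * f) = X j * S ν k f - C (2 * ν) * S ν (k - (j + 1)) f := by
  unfold S
  rw [map_mul]
  have h : tau ν (X j : MvPolynomial ℕ K) = Polynomial.C (X j)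
      - Polynomial.C (C (2 * ν)) * Polynomial.X ^ (j + 1) := by
    rw [tau, aeval_X]
  rw [h, sub_mul, map_sub, mul_assoc, ← Polynomial.smul_eq_C_mul, ← Polynomial.smul_eq_C_mul,
    map_smul, map_smul, sig_X_pow_mul, smul_eq_mul, smul_eq_mul]
  push_cast
  rfl

/-- the sum `∑_{a+b+1=m} X_a P_{l+b}` in range form -/
theorem sum_antidiag (m : ℕ) (g : ℕ → ℕ → MvPolynomial ℕ K) :
    ∑ ab ∈ antidiagonal m, g ab.1 ab.2 = ∑ i ∈ range (m + 1), g i (m - i) :=
  Finset.Nat.sum_antidiagonal_eq_sum_range_succ g m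

theorem S_qq_one (ν : K) (k : ℤ) (m : ℕ) :
    S ν k (qq m) = qq m * PZ (-k)
      - C (4 * ν) * ∑ i ∈ range m, X i * PZ (m - k - i) + C (4 * ν ^ 2 * m) * PZ (m + 1 - k) := by
  cases m with
  | zero =>
    simp [qq, S_zero]
  | succ m =>
    have hS : ∀ (s : Finset (ℕ × ℕ)), S ν k (∑ ab ∈ s, (X ab.1 * X ab.2 : MvPolynomial ℕ K))
        = ∑ ab ∈ s, (X ab.1 * X ab.2 * PZ (-k) - C (2 * ν) * (X ab.1 * PZ (ab.2 + 1 - k))
          - C (2 * ν) * (X ab.2 * PZ (ab.1 + 1 - k)) + C (4 * ν ^ 2) * PZ (ab.1 + ab.2 + 2 - k)) := by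
      intro s
      classical
      induction s using Finset.induction_on with
      | empty => simp [S_zero]
      | insert ab s hab ih =>
        rw [sum_insert hab, sum_insert hab, S_add, ih]
        congr 1
        have h1 : S ν k (X ab.2 : MvPolynomial ℕ K) = X ab.2 * PZ (-k)
            - C (2 * ν) * PZ (ab.2 + 1 - k) := by
          have := S_X_mul ν k ab.2 (1 : MvPolynomial ℕ K)
          rw [mul_one] at this
          rw [this, ← C_1, S_C, S_C, C_1, one_mul, one_mul]
          congr 3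
          ring
        have h2 : S ν (k - (ab.1 + 1)) (X ab.2 : MvPolynomial ℕ K)
            = X ab.2 * PZ (ab.1 + 1 - k) - C (2 * ν) * PZ (ab.1 + ab.2 + 2 - k) := by
          have := S_X_mul ν (k - (ab.1 + 1)) ab.2 (1 : MvPolynomial ℕ K)
          rw [mul_one] at this
          rw [this, ← C_1, S_C, S_C, C_1, one_mul, one_mul]
          congr 3
          · ring
          · ring
        rw [S_X_mul, h1, h2]
        simp only [map_mul, map_pow, map_ofNat]
        ring
    simp only [qq]
    rw [hS, sum_add_distrib, sum_sub_distrib, sum_sub_distrib, ← sum_mul, ← mul_sum, ← mul_sum,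
      ← mul_sum]
    have e1 : ∑ ab ∈ antidiagonal m, (X ab.1 * PZ (ab.2 + 1 - k) : MvPolynomial ℕ K)
        = ∑ i ∈ range (m + 1), X i * PZ (((m + 1 : ℕ) : ℤ) - k - i) := by
      rw [sum_antidiag m (fun a b => (X a * PZ (b + 1 - k) : MvPolynomial ℕ K))]
      apply sum_congr rfl
      intro i hi
      rw [mem_range] at hi
      congr 2
      omega
    have e2 : ∑ ab ∈ antidiagonal m, (X ab.2 * PZ (ab.1 + 1 - k) : MvPolynomial ℕ K)
        = ∑ ab ∈ antidiagonal m, (X ab.1 * PZ (ab.2 + 1 - k) : MvPolynomial ℕ K) := by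
      exact (Finset.Nat.sum_antidiagonal_swap (n := m)
        (f := fun ab : ℕ × ℕ => (X ab.1 * PZ (ab.2 + 1 - k) : MvPolynomial ℕ K)))
    have e3 : ∑ ab ∈ antidiagonal m, (PZ (ab.1 + ab.2 + 2 - k) : MvPolynomial ℕ K)
        = C ((m + 1 : ℕ) : K) * PZ (((m + 1 : ℕ) : ℤ) + 1 - k) := by
      have : ∀ ab ∈ antidiagonal m, (PZ (ab.1 + ab.2 + 2 - k) : MvPolynomial ℕ K)
          = PZ (((m + 1 : ℕ) : ℤ) + 1 - k) := by
        intro ab hab
        rw [Finset.HasAntidiagonal.mem_antidiagonal] at hab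
        congr 1
        omega
      rw [sum_congr rfl this, sum_const, Finset.Nat.card_antidiagonal, nsmul_eq_mul]
      simp
    rw [e2, e1, e3]
    simp only [map_mul, map_pow, map_ofNat, map_natCast]
    ring

theorem S_X_one (ν : K) (k : ℤ) (m : ℕ) :
    S ν k (X m : MvPolynomial ℕ K) = X m * PZ (-k) - C (2 * ν) * PZ (m + 1 - k) := by
  have := S_X_mul ν k m (1 : MvPolynomial ℕ K)
  rw [mul_one] at this
  rw [this, ← C_1, S_C, S_C, C_1, one_mul, one_mul]
  congr 3
  ring

theorem Dm_X (ν : K) (m j : ℕ) :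
    Dm ν m (X j : MvPolynomial ℕ K) = C (4 * ν * (j + 1)) * X (j + m + 1) := by
  rw [Dm, mkDerivation_X]

theorem Dm_C (ν : K) (m : ℕ) (a : K) : Dm ν m (C a : MvPolynomial ℕ K) = 0 := by
  rw [← algebraMap_eq]
  exact (Dm ν m).map_algebraMap _

theorem Dm_PZ (ν : K) (m : ℕ) (l : ℤ) (N : ℕ) (hN : l ≤ N) :
    Dm ν m (PZ l : MvPolynomial ℕ K)
      = C (4 * ν) * ∑ j ∈ range N, X (j + m + 1) * PZ (l - 1 - j) := by
  rw [deriv_PZ (Dm ν m) l N hN, mul_sum]
  apply sum_congr rfl
  intro j _
  rw [Dm_X]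
  have hj : algebraMap ℚ K (1 / (j + 1)) * ((j : K) + 1) = 1 := by
    have h1 : (j : K) + 1 = algebraMap ℚ K ((j : ℚ) + 1) := by simp
    rw [h1, ← map_mul]
    have h2 : (1 / ((j : ℚ) + 1)) * ((j : ℚ) + 1) = 1 := by
      have : ((j : ℚ) + 1) ≠ 0 := by positivity
      field_simp
    rw [h2, map_one]
  rw [← mul_assoc, ← C_mul]
  have : algebraMap ℚ K (1 / (j + 1)) * (4 * ν * ((j : K) + 1)) = 4 * ν := by
    linear_combination (4 * ν) * hj
  rw [this]
  ring

theorem Lop_add (T ν : K) (m : ℕ) (f g : MvPolynomial ℕ K) :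
    Lop T ν m (f + g) = Lop T ν m f + Lop T ν m g := by
  simp only [Lop, map_add]
  ring

theorem Lop_C_mul (T ν : K) (m : ℕ) (a : K) (f : MvPolynomial ℕ K) :
    Lop T ν m (C a * f) = C a * Lop T ν m f := by
  simp only [Lop, Derivation.leibniz, Dm_C, smul_eq_mul]
  ring

theorem Lop_X_mul (T ν : K) (m j : ℕ) (f : MvPolynomial ℕ K) :
    Lop T ν m (X j * f) = X j * Lop T ν m f + C (4 * ν * (j + 1)) * X (j + m + 1) * f := by
  simp only [Lop, Derivation.leibniz, Dm_X, smul_eq_mul]
  ring

theorem comm_base (T ν : K) (m : ℕ) (k : ℤ) :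
    S ν k (Lop T ν m 1) = Lop (T + 2 * ν) ν m (S ν k 1)
      + C (4 * ν * ((k : K) - 1 - T)) * S ν (k - (m + 1)) 1 := by
  have hL1 : Lop T ν m (1 : MvPolynomial ℕ K) = qq m + C (2 * (T + m * (ν - 1))) * X m := by
    simp [Lop]
  have hS1 : ∀ k : ℤ, S ν k (1 : MvPolynomial ℕ K) = PZ (-k) := by
    intro k
    rw [← C_1, S_C, C_1, one_mul]
  rw [hL1, S_add, S_C_mul, S_qq_one, S_X_one, hS1, hS1, Lop]
  -- choose a large N
  set N : ℕ := (-k).toNat with hNdef
  have hN : -k ≤ N := by omega
  rw [Dm_PZ ν m (-k) N hN]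
  have hE := euler (K := K) (m + 1 - k) (N + m + 1) (by push_cast; omega)
  have hE2 : ∑ i ∈ range (N + m + 1), (X i * PZ ((m : ℤ) + 1 - k - 1 - i) : MvPolynomial ℕ K)
      = (∑ i ∈ range m, X i * PZ (m - k - i)) + X m * PZ (-k)
        + ∑ j ∈ range N, X (j + m + 1) * PZ (-k - 1 - j) := by
    have h1 : N + m + 1 = (m + 1) + N := by ring
    rw [h1, sum_range_add, sum_range_succ]
    congr 1
    · congr 1
      · apply sum_congr rfl
        intro i _
        congr 2
        ring
      · congr 2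
        ring
    · apply sum_congr rfl
      intro j _
      have h2 : m + 1 + j = j + m + 1 := by ring
      rw [h2]
      congr 2
      push_cast
      ring
  rw [hE2] at hE
  have hk : (-(k - (m + 1)) : ℤ) = m + 1 - k := by ring
  rw [hk]
  have hc : (((m : ℤ) + 1 - k : ℤ) : K) = (m : K) + 1 - k := by push_cast; ring
  rw [hc] at hE
  simp only [map_mul, map_add, map_sub, map_ofNat, map_natCast, map_one, map_pow] at hE ⊢
  linear_combination (4 * C ν) * hE

/-- The commutation of the vertex operator modes with the Virasoro creation modes. -/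
theorem comm (T ν : K) (m : ℕ) (k : ℤ) (f : MvPolynomial ℕ K) :
    S ν k (Lop T ν m f) = Lop (T + 2 * ν) ν m (S ν k f)
      + C (4 * ν * ((k : K) - 1 - T)) * S ν (k - (m + 1)) f := by
  induction f using MvPolynomial.induction_on generalizing k with
  | C a =>
    have h := comm_base T ν m k
    have e1 : (C a : MvPolynomial ℕ K) = C a * 1 := by rw [mul_one]
    rw [e1, Lop_C_mul, S_C_mul, S_C_mul, S_C_mul, Lop_C_mul, h]
    ring
  | add p q hp hq =>
    rw [Lop_add, S_add, S_add, S_add, Lop_add, hp, hq]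
    ring
  | mul_X p j ih =>
    rw [mul_comm p (X j), Lop_X_mul, S_add, mul_assoc, S_C_mul, S_X_mul, S_X_mul, S_X_mul, S_X_mul,
      ih k, ih (k - (j + 1))]
    have hneg : Lop (T + 2 * ν) ν m (X j * S ν k p - C (2 * ν) * S ν (k - (j + 1)) p)
        = X j * Lop (T + 2 * ν) ν m (S ν k p) + C (4 * ν * (j + 1)) * X (j + m + 1) * S ν k p
          - C (2 * ν) * Lop (T + 2 * ν) ν m (S ν (k - (j + 1)) p) := by
      have : X j * S ν k p - C (2 * ν) * S ν (k - (j + 1)) p
          = X j * S ν k p + C (-(2 * ν)) * S ν (k - (j + 1)) p := by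
        rw [map_neg]; ring
      rw [this, Lop_add, Lop_X_mul, Lop_C_mul, map_neg]
      ring
    rw [hneg]
    have h1 : k - (((j + m + 1 : ℕ) : ℤ) + 1) = k - (j + 1) - (m + 1) := by push_cast; ring
    have h2 : k - ((m : ℤ) + 1) - (j + 1) = k - (j + 1) - (m + 1) := by ring
    rw [h1, h2]
    have h3 : (((k - (j + 1) : ℤ)) : K) = (k : K) - (j + 1) := by push_cast; ring
    rw [h3]
    simp only [map_mul, map_add, map_sub, map_ofNat, map_natCast, map_one]
    ring

end RankOne

end Pool.Agent.LS
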