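import Mathlib
import Pool.Agent.LS.Ops

/-!
# B1: the central coefficient of an even power of the Vandermonde determinant
-/

namespace Pool.Agent.LS

open MvPolynomial Finset

/-- `∏_{i<j} (X_i - X_j)` in `r` variables -/
noncomputable def vdm (r : ℕ) : MvPolynomial (Fin r) ℚ :=
  ∏ i : Fin r, ∏ j ∈ Ioi i, (X i - X j)

section Pal

variable {σ : Type*}

/-- the coefficients are symmetric, up to the sign `ε`, under `α ↦ c - α` -/
def Pal (c : σ →₀ ℕ) (ε : ℚ) (f : MvPolynomial σ ℚ) : Prop :=
  (∀ α, coeff α f ≠ 0 → α ≤ c) ∧ ∀ α β, α + β = c → coeff β f = ε * coeff α f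

theorem Pal.one : Pal (0 : σ →₀ ℕ) 1 1 := by
  classical
  constructor
  · intro α h
    rw [coeff_one] at h
    by_cases h0 : 0 = α
    · rw [← h0]
    · rw [if_neg h0] at h
      exact absurd rfl h
  · intro α β h
    have h1 : α = 0 ∧ β = 0 := by simpa using h
    rw [h1.1, h1.2, one_mul]

theorem Pal.mul {c c' : σ →₀ ℕ} {ε ε' : ℚ} {f g : MvPolynomial σ ℚ} (hf : Pal c ε f)
    (hg : Pal c' ε' g) : Pal (c + c') (ε * ε') (f * g) := by
  classical
  constructor
  · intro α h
    rw [coeff_mul] at h
    obtain ⟨x, hx, hne⟩ := Finset.exists_ne_zero_of_sum_ne_zero h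
    rw [Finset.HasAntidiagonal.mem_antidiagonal] at hx
    rw [← hx]
    exact add_le_add (hf.1 _ (left_ne_zero_of_mul hne)) (hg.1 _ (right_ne_zero_of_mul hne))
  · intro α β h
    rw [coeff_mul, coeff_mul, Finset.mul_sum]
    symm
    apply Finset.sum_bij_ne_zero (fun x _ _ => (c - x.1, c' - x.2))
    · intro x hx hne
      have h1 := hf.1 _ (left_ne_zero_of_mul (right_ne_zero_of_mul hne))
      have h2 := hg.1 _ (right_ne_zero_of_mul (right_ne_zero_of_mul hne))
      rw [Finset.HasAntidiagonal.mem_antidiagonal] at hx ⊢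
      have h3 : (x.1 + x.2) + ((c - x.1) + (c' - x.2)) = c + c' := by
        rw [add_add_add_comm, add_tsub_cancel_of_le h1, add_tsub_cancel_of_le h2]
      rw [hx] at h3
      exact add_left_cancel (h3.trans h.symm)
    · intro x hx hne x' hx' hne' heq
      have h1 := hf.1 _ (left_ne_zero_of_mul (right_ne_zero_of_mul hne))
      have h2 := hg.1 _ (right_ne_zero_of_mul (right_ne_zero_of_mul hne))
      have h1' := hf.1 _ (left_ne_zero_of_mul (right_ne_zero_of_mul hne'))
      have h2' := hg.1 _ (right_ne_zero_of_mul (right_ne_zero_of_mul hne'))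
      have e1 := congrArg Prod.fst heq
      have e2 := congrArg Prod.snd heq
      simp only at e1 e2
      apply Prod.ext
      · have := add_tsub_cancel_of_le h1
        rw [e1] at this
        exact add_right_cancel (this.trans (add_tsub_cancel_of_le h1').symm)
      · have := add_tsub_cancel_of_le h2
        rw [e2] at this
        exact add_right_cancel (this.trans (add_tsub_cancel_of_le h2').symm)
    · intro x hx hne
      have h1 := hf.1 _ (left_ne_zero_of_mul hne)
      have h2 := hg.1 _ (right_ne_zero_of_mul hne)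
      rw [Finset.HasAntidiagonal.mem_antidiagonal] at hx
      refine ⟨(c - x.1, c' - x.2), ?_, ?_, ?_⟩
      · rw [Finset.HasAntidiagonal.mem_antidiagonal]
        have h3 : ((c - x.1) + (c' - x.2)) + (x.1 + x.2) = c + c' := by
          rw [add_add_add_comm, tsub_add_cancel_of_le h1, tsub_add_cancel_of_le h2]
        rw [hx] at h3
        exact add_right_cancel (h3.trans h.symm)
      · intro h0
        apply hne
        have h4 := hf.2 (c - x.1) x.1 (tsub_add_cancel_of_le h1)
        have h5 := hg.2 (c' - x.2) x.2 (tsub_add_cancel_of_le h2)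
        rw [h4, h5]
        have h6 : ε * ε' * (coeff (c - x.1) f * coeff (c' - x.2) g) = 0 := h0
        linear_combination h6
      · simp only
        apply Prod.ext
        · exact tsub_tsub_cancel_of_le h1
        · exact tsub_tsub_cancel_of_le h2
    · intro x hx hne
      have h1 := hf.1 _ (left_ne_zero_of_mul (right_ne_zero_of_mul hne))
      have h2 := hg.1 _ (right_ne_zero_of_mul (right_ne_zero_of_mul hne))
      have h4 := hf.2 x.1 (c - x.1) (add_tsub_cancel_of_le h1)
      have h5 := hg.2 x.2 (c' - x.2) (add_tsub_cancel_of_le h2)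
      simp only
      rw [h4, h5]
      ring

theorem Pal.prod {κ : Type*} (s : Finset κ) (c : κ → σ →₀ ℕ) (ε : κ → ℚ)
    (f : κ → MvPolynomial σ ℚ) (h : ∀ i ∈ s, Pal (c i) (ε i) (f i)) :
    Pal (∑ i ∈ s, c i) (∏ i ∈ s, ε i) (∏ i ∈ s, f i) := by
  classical
  induction s using Finset.induction_on with
  | empty => simpa using Pal.one
  | insert a s ha ih =>
    rw [sum_insert ha, prod_insert ha, prod_insert ha]
    exact (h a (mem_insert_self a s)).mul (ih fun i hi => h i (mem_insert_of_mem hi))

theorem Pal.sub {i j : σ} (hij : i ≠ j) :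
    Pal (Finsupp.single i 1 + Finsupp.single j 1) (-1) (X i - X j : MvPolynomial σ ℚ) := by
  classical
  have hi : ∀ α : σ →₀ ℕ, coeff α (X i : MvPolynomial σ ℚ) = if Finsupp.single i 1 = α then 1 else 0 :=
    fun α => by rw [coeff_X]
  have hj : ∀ α : σ →₀ ℕ, coeff α (X j : MvPolynomial σ ℚ) = if Finsupp.single j 1 = α then 1 else 0 :=
    fun α => by rw [coeff_X]
  constructor
  · intro α h
    rw [coeff_sub, hi, hj] at h
    by_cases h1 : Finsupp.single i 1 = α
    · rw [← h1]; exact le_self_add
    · by_cases h2 : Finsupp.single j 1 = α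
      · rw [← h2]; exact le_add_self
      · rw [if_neg h1, if_neg h2] at h
        exact absurd (sub_self _) h
  · intro α β h
    have h1 : Finsupp.single i 1 = β ↔ Finsupp.single j 1 = α := by
      constructor
      · rintro rfl
        rw [add_comm] at h
        exact (add_left_cancel h).symm
      · rintro rfl
        rw [add_comm (Finsupp.single i 1)] at h
        exact (add_left_cancel h).symm
    have h2 : Finsupp.single j 1 = β ↔ Finsupp.single i 1 = α := by
      constructor
      · rintro rfl
        exact (add_right_cancel h).symm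
      · rintro rfl
        exact (add_left_cancel h).symm
    rw [coeff_sub, coeff_sub, hi, hj, hi, hj]
    simp only [h1, h2]
    ring

end Pal

/-- B1 (sum of squares: the coefficients of `vdm r ^ p` are symmetric up to a sign under
`α ↦ (p(r-1),…,p(r-1)) - α`). -/
theorem coeff_vdm_pow_ne_zero (r p : ℕ) :
    coeff (Finsupp.equivFunOnFinite.symm (fun _ : Fin r => p * (r - 1))) (vdm r ^ (2 * p)) ≠ 0 := by
  classical
  obtain ⟨ε, hε, hV⟩ : ∃ ε : ℚ, ε ≠ 0 ∧
      Pal (Finsupp.equivFunOnFinite.symm (fun _ : Fin r => r - 1)) ε (vdm r) := by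
    refine ⟨∏ i : Fin r, ∏ j ∈ Ioi i, (-1 : ℚ), ?_, ?_⟩
    · exact Finset.prod_ne_zero_iff.2 fun i _ => Finset.prod_ne_zero_iff.2 fun j _ => by norm_num
    · have h1 : Pal (∑ i : Fin r, ∑ j ∈ Ioi i, (Finsupp.single i 1 + Finsupp.single j 1))
          (∏ i : Fin r, ∏ j ∈ Ioi i, (-1 : ℚ)) (vdm r) := by
        unfold vdm
        apply Pal.prod
        intro i _
        apply Pal.prod
        intro j hj
        exact Pal.sub (Finset.mem_Ioi.1 hj).ne
      have h2 : (∑ i : Fin r, ∑ j ∈ Ioi i, (Finsupp.single i 1 + Finsupp.single j 1) :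
          Fin r →₀ ℕ) = Finsupp.equivFunOnFinite.symm (fun _ : Fin r => r - 1) := by
        ext k
        rw [Finsupp.finsetSum_apply, Finsupp.equivFunOnFinite_symm_apply_apply]
        have h3 : ∀ i : Fin r, (∑ j ∈ Ioi i, (Finsupp.single i 1 + Finsupp.single j 1) :
            Fin r →₀ ℕ) k = (if i = k then (Ioi i).card else 0) + (if i < k then 1 else 0) := by
          intro i
          rw [Finsupp.finsetSum_apply]
          simp only [Finsupp.add_apply, Finsupp.single_apply]
          rw [Finset.sum_add_distrib]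
          congr 1
          · rw [Finset.sum_const, smul_eq_mul]
            split_ifs <;> simp
          · rw [Finset.sum_ite_eq']
            simp only [Finset.mem_Ioi]
        rw [Finset.sum_congr rfl fun i _ => h3 i, Finset.sum_add_distrib, Finset.sum_ite_eq',
          if_pos (Finset.mem_univ k), ← Finset.card_filter]
        have h4 : (univ.filter fun i : Fin r => i < k) = Iio k := by
          ext i; simp
        rw [h4, Fin.card_Ioi, Fin.card_Iio]
        have := k.2
        omega
      rwa [h2] at h1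
  have hQ : Pal (Finsupp.equivFunOnFinite.symm (fun _ : Fin r => p * (r - 1))) (ε ^ p)
      (vdm r ^ p) := by
    have h1 := Pal.prod (range p) (fun _ => Finsupp.equivFunOnFinite.symm (fun _ : Fin r => r - 1))
      (fun _ => ε) (fun _ => vdm r) (fun _ _ => hV)
    rw [Finset.prod_const, Finset.prod_const, card_range, Finset.sum_const, card_range] at h1
    have h2 : p • (Finsupp.equivFunOnFinite.symm (fun _ : Fin r => r - 1) : Fin r →₀ ℕ) =
        Finsupp.equivFunOnFinite.symm (fun _ : Fin r => p * (r - 1)) := by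
      ext k
      simp
    rwa [h2] at h1
  set c : Fin r →₀ ℕ := Finsupp.equivFunOnFinite.symm (fun _ : Fin r => p * (r - 1)) with hc
  set Q := vdm r ^ p with hQdef
  have hQ0 : Q ≠ 0 := by
    apply pow_ne_zero
    unfold vdm
    refine Finset.prod_ne_zero_iff.2 fun i _ => Finset.prod_ne_zero_iff.2 fun j hj => ?_
    rw [sub_ne_zero]
    intro h
    exact (Finset.mem_Ioi.1 hj).ne (X_injective h)
  have h2p : vdm r ^ (2 * p) = Q * Q := by
    rw [hQdef, ← pow_add]
    congr 1
    ring
  rw [h2p, coeff_mul]
  have h1 : ∀ x ∈ antidiagonal c, coeff x.1 Q * coeff x.2 Q = ε ^ p * coeff x.1 Q ^ 2 := by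
    intro x hx
    rw [Finset.HasAntidiagonal.mem_antidiagonal] at hx
    rw [hQ.2 x.1 x.2 hx]
    ring
  rw [Finset.sum_congr rfl h1, ← Finset.mul_sum]
  apply mul_ne_zero (pow_ne_zero _ hε)
  obtain ⟨α, hα⟩ := ne_zero_iff.1 hQ0
  have hle := hQ.1 α hα
  apply ne_of_gt
  apply Finset.sum_pos' (fun _ _ => sq_nonneg _)
  refine ⟨(α, c - α), ?_, ?_⟩
  · rw [Finset.HasAntidiagonal.mem_antidiagonal]
    exact add_tsub_cancel_of_le hle
  · exact pow_pos (lt_of_le_of_ne (sq_nonneg _) (Ne.symm (pow_ne_zero 2 hα))) 1 |>.trans_eq (pow_one _)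

end Pool.Agent.LS
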