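import Pool.Agent.LS.Ops
import Pool.Agent.LS.ConstA

/-!
# Composition of vertex operator modes and evaluation (module B2)
-/

namespace Pool.Agent.LS

open MvPolynomial Finset

/-- evaluation `x_{n+1} ↦ -2p ∑_j ζ_j^{n+1}` -/
noncomputable def ev (p : ℕ) (m : ℕ) : MvPolynomial ℕ ℚ →ₐ[ℚ] MvPolynomial (Fin m) ℚ :=
  aeval (fun n => C (-2 * (p : ℚ)) * ∑ j : Fin m, (X j) ^ (n + 1))

section Series

variable {A : Type*} [CommRing A]

/-- `∏ (1 - ζ_j z)^{e}` -/
noncomputable def HH {ι : Type*} (s : Finset ι) (ζ : ι → A) (e : ℕ) : Polynomial A :=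
  ∏ j ∈ s, (1 - Polynomial.C (ζ j) * Polynomial.X) ^ e

/-- `∏ (z - ζ_j)^{e}` -/
noncomputable def GG {ι : Type*} (s : Finset ι) (ζ : ι → A) (e : ℕ) : Polynomial A :=
  ∏ j ∈ s, (Polynomial.X - Polynomial.C (ζ j)) ^ e

theorem geom_mul (z : A) : (PowerSeries.mk (fun n => z ^ n) : PowerSeries A)
    * (1 - PowerSeries.C z * PowerSeries.X) = 1 := by
  ext n
  rw [mul_sub, mul_one, map_sub, PowerSeries.coeff_mk]
  have h : (PowerSeries.mk (fun n => z ^ n) : PowerSeries A) * (PowerSeries.C z * PowerSeries.X)
      = PowerSeries.C z * ((PowerSeries.mk (fun n => z ^ n) : PowerSeries A) * PowerSeries.X) := by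
    ring
  rw [h]
  cases n with
  | zero => simp
  | succ n =>
    rw [PowerSeries.coeff_C_mul, PowerSeries.coeff_succ_mul_X, PowerSeries.coeff_mk,
      PowerSeries.coeff_one, if_neg (Nat.succ_ne_zero n), pow_succ]
    ring

/-- logarithmic derivative of `∏ (1 - ζ_j z)^{e}` -/
theorem deriv_HH {ι : Type*} (s : Finset ι) (ζ : ι → A) (e : ℕ) :
    PowerSeries.derivative A ((HH s ζ e : Polynomial A) : PowerSeries A)
      = (PowerSeries.mk (fun n => -(e : A) * ∑ j ∈ s, ζ j ^ (n + 1))) * ((HH s ζ e : Polynomial A)) := by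
  classical
  induction s using Finset.induction_on with
  | empty =>
    have h0 : (PowerSeries.mk (fun n => -(e : A) * ∑ j ∈ (∅ : Finset ι), ζ j ^ (n + 1)) :
        PowerSeries A) = 0 := by
      ext n
      simp
    rw [h0, zero_mul, HH, prod_empty, Polynomial.coe_one, PowerSeries.derivative_one]
  | insert a s ha ih =>
    have h1 : HH (insert a s) ζ e = (1 - Polynomial.C (ζ a) * Polynomial.X) ^ e * HH s ζ e := by
      rw [HH, prod_insert ha, HH]
    have h2 : (PowerSeries.mk (fun n => -(e : A) * ∑ j ∈ insert a s, ζ j ^ (n + 1)) :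
        PowerSeries A) = PowerSeries.mk (fun n => -(e : A) * ∑ j ∈ s, ζ j ^ (n + 1))
          + PowerSeries.C (-(e : A) * ζ a) * PowerSeries.mk (fun n => ζ a ^ n) := by
      ext n
      rw [map_add, PowerSeries.coeff_mk, PowerSeries.coeff_mk, PowerSeries.coeff_C_mul,
        PowerSeries.coeff_mk, sum_insert ha, pow_succ]
      ring
    rw [h1, h2, Polynomial.coe_mul, Derivation.leibniz, ih, smul_eq_mul, smul_eq_mul]
    have h3 : (((1 - Polynomial.C (ζ a) * Polynomial.X) ^ e : Polynomial A) : PowerSeries A)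
        = (1 - PowerSeries.C (ζ a) * PowerSeries.X) ^ e := by
      rw [Polynomial.coe_pow, Polynomial.coe_sub, Polynomial.coe_one, Polynomial.coe_mul,
        Polynomial.coe_C, Polynomial.coe_X]
    have h4 : PowerSeries.derivative A ((1 - PowerSeries.C (ζ a) * PowerSeries.X) ^ e)
        = PowerSeries.C (-(e : A) * ζ a) * PowerSeries.mk (fun n => ζ a ^ n)
          * (1 - PowerSeries.C (ζ a) * PowerSeries.X) ^ e := by
      have h5 : PowerSeries.derivative A (1 - PowerSeries.C (ζ a) * PowerSeries.X)
          = - PowerSeries.C (ζ a) := by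
        rw [map_sub, PowerSeries.derivative_one, Derivation.leibniz, PowerSeries.derivative_C,
          PowerSeries.derivative_X]
        simp
      rw [PowerSeries.derivative_pow, h5]
      cases e with
      | zero => simp
      | succ e =>
        have h6 := geom_mul (ζ a)
        rw [Nat.add_sub_cancel, pow_succ, map_mul, map_neg, map_natCast]
        linear_combination (((e + 1 : ℕ) : PowerSeries A) * PowerSeries.C (ζ a)
          * (1 - PowerSeries.C (ζ a) * PowerSeries.X) ^ e) * h6
    rw [h3, h4]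
    ring

theorem natDegree_GG_le {ι : Type*} (s : Finset ι) (ζ : ι → A) (e : ℕ) :
    (GG s ζ e).natDegree ≤ e * s.card := by
  classical
  induction s using Finset.induction_on with
  | empty => simp [GG]
  | insert a s ha ih =>
    rw [GG, prod_insert ha, card_insert_of_notMem ha]
    refine (Polynomial.natDegree_mul_le).trans ?_
    have h1 : ((Polynomial.X - Polynomial.C (ζ a)) ^ e : Polynomial A).natDegree ≤ e := by
      refine (Polynomial.natDegree_pow_le).trans ?_
      have := Polynomial.natDegree_X_sub_C_le (ζ a)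
      nlinarith
    have h2 : (∏ j ∈ s, (Polynomial.X - Polynomial.C (ζ j)) ^ e).natDegree ≤ e * s.card := ih
    rw [mul_add, mul_one]
    omega

theorem reflect_GG {ι : Type*} (s : Finset ι) (ζ : ι → A) (e : ℕ) :
    Polynomial.reflect (e * s.card) (GG s ζ e) = HH s ζ e := by
  classical
  induction s using Finset.induction_on with
  | empty => simp [GG, HH]
  | insert a s ha ih =>
    have h0 : GG (insert a s) ζ e = (Polynomial.X - Polynomial.C (ζ a)) ^ e * GG s ζ e := by
      rw [GG, prod_insert ha, GG]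
    have h0' : HH (insert a s) ζ e = (1 - Polynomial.C (ζ a) * Polynomial.X) ^ e * HH s ζ e := by
      rw [HH, prod_insert ha, HH]
    have key : ∀ e : ℕ, ((Polynomial.X - Polynomial.C (ζ a)) ^ e : Polynomial A).natDegree ≤ e ∧
        Polynomial.reflect e ((Polynomial.X - Polynomial.C (ζ a)) ^ e)
          = (1 - Polynomial.C (ζ a) * Polynomial.X) ^ e := by
      intro e
      induction e with
      | zero => simp
      | succ e ihe =>
        constructor
        · rw [pow_succ]
          refine (Polynomial.natDegree_mul_le).trans ?_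
          have := Polynomial.natDegree_X_sub_C_le (ζ a)
          omega
        · rw [pow_succ, Polynomial.reflect_mul _ _ ihe.1 (Polynomial.natDegree_X_sub_C_le (ζ a)),
            ihe.2, pow_succ]
          congr 1
          have hX : Polynomial.reflect 1 (Polynomial.X : Polynomial A) = 1 := by
            have := Polynomial.reflect_monomial 1 1 (R := A)
            rw [Polynomial.revAt_le le_rfl, pow_one, Nat.sub_self, pow_zero] at this
            exact this
          rw [Polynomial.reflect_sub, Polynomial.reflect_C, pow_one, hX]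
    rw [h0, h0', card_insert_of_notMem ha, mul_add, mul_one, add_comm,
      Polynomial.reflect_mul _ _ (key e).1 (natDegree_GG_le s ζ e), ih, (key e).2]

end Series

/-- `ev (P_l)` is a coefficient of `∏ (1 - ζ_j z)^{2p}` -/
theorem ev_PN (p m : ℕ) (l : ℕ) :
    ev p m (PN l) = (HH univ (fun j : Fin m => (X j : MvPolynomial (Fin m) ℚ)) (2 * p)).coeff l := by
  induction l using Nat.strong_induction_on with
  | _ l ih =>
    cases l with
    | zero =>
      rw [PN_zero, map_one, Polynomial.coeff_zero_eq_eval_zero, HH, Polynomial.eval_prod]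
      simp
    | succ l =>
      have h1 := congrArg (ev p m) (PN_succ (K := ℚ) l)
      rw [map_mul, map_sum] at h1
      have h2 : ev p m (C (((l + 1 : ℕ) : ℚ))) = C (((l + 1 : ℕ) : ℚ)) := by
        rw [← algebraMap_eq, AlgHom.commutes]
        rfl
      rw [h2] at h1
      have h3 := congrArg (PowerSeries.coeff l)
        (deriv_HH univ (fun j : Fin m => (X j : MvPolynomial (Fin m) ℚ)) (2 * p))
      rw [PowerSeries.coeff_derivative, Polynomial.coeff_coe, PowerSeries.coeff_mul,
        Finset.Nat.sum_antidiagonal_eq_sum_range_succ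
          (fun a b => PowerSeries.coeff a (PowerSeries.mk fun n =>
            -((2 * p : ℕ) : MvPolynomial (Fin m) ℚ) * ∑ j, (X j : MvPolynomial (Fin m) ℚ) ^ (n + 1))
            * PowerSeries.coeff b ((HH univ (fun j : Fin m => (X j : MvPolynomial (Fin m) ℚ))
              (2 * p) : Polynomial _) : PowerSeries _))] at h3
      have h4 : ∑ i ∈ range (l + 1), ev p m (X i * PN (l - i))
          = (HH univ (fun j : Fin m => (X j : MvPolynomial (Fin m) ℚ)) (2 * p)).coeff (l + 1)
            * ((l : MvPolynomial (Fin m) ℚ) + 1) := by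
        rw [h3]
        apply sum_congr rfl
        intro i hi
        rw [map_mul, ih (l - i) (by omega), PowerSeries.coeff_mk, Polynomial.coeff_coe]
        congr 1
        rw [ev, aeval_X]
        congr 1
        simp only [map_mul, map_neg, map_ofNat, map_natCast, Nat.cast_mul, Nat.cast_ofNat]
        ring
      rw [h4] at h1
      have h5 : (C (((l + 1 : ℕ) : ℚ)) : MvPolynomial (Fin m) ℚ) = (l : MvPolynomial (Fin m) ℚ) + 1 := by
        simp
      rw [h5, mul_comm] at h1
      have h6 : ((l : MvPolynomial (Fin m) ℚ) + 1) ≠ 0 := by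
        exact_mod_cast Nat.succ_ne_zero l
      exact mul_right_cancel₀ h6 h1

/-- the same for all integer indices in terms of `∏ (z - ζ_j)^{2p}` -/
theorem ev_PZ (p m : ℕ) (a n : ℕ) :
    ev p m (PZ ((a : ℤ) - ((n : ℤ) - 2 * p * m)))
      = if a ≤ n then (GG univ (fun j : Fin m => (X j : MvPolynomial (Fin m) ℚ)) (2 * p)).coeff
          (n - a) else 0 := by
  have hcard : (2 * p) * (univ : Finset (Fin m)).card = 2 * p * m := by simp
  have hrefl := reflect_GG univ (fun j : Fin m => (X j : MvPolynomial (Fin m) ℚ)) (2 * p)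
  have hdeg := natDegree_GG_le univ (fun j : Fin m => (X j : MvPolynomial (Fin m) ℚ)) (2 * p)
  rw [hcard] at hrefl hdeg
  by_cases hneg : (a : ℤ) - ((n : ℤ) - 2 * p * m) < 0
  · rw [PZ_neg hneg, map_zero]
    have h1 : 2 * p * m < n - a := by
      zify
      have : a ≤ n := by
        zify
        have h0 : (0 : ℤ) ≤ 2 * p * m := by positivity
        omega
      push_cast [Nat.cast_sub this]
      linarith
    rw [if_pos (by omega), Polynomial.coeff_eq_zero_of_natDegree_lt (by omega)]
  · push Not at hneg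
    obtain ⟨l, hl⟩ := Int.eq_ofNat_of_zero_le hneg
    rw [hl, PZ_natCast, ev_PN, ← hrefl, Polynomial.coeff_reflect]
    have hl' : (l : ℤ) = a - n + 2 * p * m := by linarith
    split_ifs with h
    · have h1 : l ≤ 2 * p * m := by
        zify
        have : (a : ℤ) ≤ n := by exact_mod_cast h
        linarith
      rw [Polynomial.revAt_le h1]
      congr 1
      zify [h1, h]
      linarith
    · have h1 : 2 * p * m < l := by
        zify
        have : (n : ℤ) < a := by exact_mod_cast (not_le.1 h)
        linarith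
      rw [Polynomial.revAt_eq_self_of_lt h1, Polynomial.coeff_eq_zero_of_natDegree_lt (by omega)]

/-- `ev ∘ sig` as a coefficient -/
theorem ev_sig (p m n : ℕ) (q : Polynomial (MvPolynomial ℕ ℚ)) :
    ev p m (sig ((n : ℤ) - 2 * p * m) q)
      = ((GG univ (fun j : Fin m => (X j : MvPolynomial (Fin m) ℚ)) (2 * p))
          * q.map (ev p m : MvPolynomial ℕ ℚ →+* MvPolynomial (Fin m) ℚ)).coeff n := by
  induction q using Polynomial.induction_on' with
  | add f g hf hg => rw [map_add, map_add, hf, hg, Polynomial.map_add, mul_add, Polynomial.coeff_add]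
  | monomial a c =>
    rw [sig_monomial, map_mul, ev_PZ, Polynomial.map_monomial, ← Polynomial.C_mul_X_pow_eq_monomial,
      ← mul_assoc, Polynomial.coeff_mul_X_pow', Polynomial.coeff_mul_C]
    split_ifs
    · rfl
    · rw [zero_mul]

theorem ev_X (p m j : ℕ) : ev p m (X j) = C (-2 * (p : ℚ)) * ∑ i : Fin m, (X i) ^ (j + 1) := by
  rw [ev, aeval_X]

theorem ev_C (p m : ℕ) (a : ℚ) : ev p m (C a) = C a := by
  rw [← algebraMap_eq, AlgHom.commutes]
  rfl

theorem tau_C_rat (ν : ℚ) (a : ℚ) : tau ν (C a : MvPolynomial ℕ ℚ) = Polynomial.C (C a) := by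
  rw [← algebraMap_eq, AlgHom.commutes]
  rfl

theorem finSucc_C (m : ℕ) (a : ℚ) : finSuccEquiv ℚ m (C a) = Polynomial.C (C a) := by
  rw [finSuccEquiv_apply]
  simp

theorem finSucc_ev_X (p m j : ℕ) :
    finSuccEquiv ℚ m (ev p (m + 1) (X j))
      = (tau (p : ℚ) (X j)).map (ev p m : MvPolynomial ℕ ℚ →+* MvPolynomial (Fin m) ℚ) := by
  have ht : tau (p : ℚ) (X j : MvPolynomial ℕ ℚ) = Polynomial.C (X j)
      - Polynomial.C (C (2 * (p : ℚ))) * Polynomial.X ^ (j + 1) := by
    rw [tau, aeval_X]
  rw [ht, Polynomial.map_sub, Polynomial.map_mul, Polynomial.map_pow, Polynomial.map_C,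
    Polynomial.map_C, Polynomial.map_X, RingHom.coe_coe, ev_X, ev_X, ev_C, map_mul, finSucc_C,
    Fin.sum_univ_succ, map_add, map_pow, finSuccEquiv_X_zero, map_sum]
  simp only [map_pow, finSuccEquiv_X_succ]
  rw [Polynomial.C_mul, map_sum]
  simp only [map_pow]
  have h1 : (Polynomial.C (C (-2 * (p : ℚ))) : Polynomial (MvPolynomial (Fin m) ℚ))
      = - Polynomial.C (C (2 * (p : ℚ))) := by
    rw [neg_mul, map_neg, map_neg]
  rw [h1]
  ring

/-- `ev_{m+1}` through `tau` -/
theorem finSucc_ev (p m : ℕ) (f : MvPolynomial ℕ ℚ) :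
    finSuccEquiv ℚ m (ev p (m + 1) f)
      = (tau (p : ℚ) f).map (ev p m : MvPolynomial ℕ ℚ →+* MvPolynomial (Fin m) ℚ) := by
  induction f using MvPolynomial.induction_on with
  | C a =>
    have h1 : ev p (m + 1) (C a) = C a := by
      rw [← algebraMap_eq, AlgHom.commutes]
      rfl
    have h2 : tau (p : ℚ) (C a : MvPolynomial ℕ ℚ) = Polynomial.C (C a) := by
      rw [← algebraMap_eq, AlgHom.commutes]
      rfl
    rw [h1, h2, finSuccEquiv_apply, Polynomial.map_C]
    simp
  | add f g hf hg => rw [map_add, map_add, map_add, Polynomial.map_add, hf, hg]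
  | mul_X f j ih =>
    rw [map_mul, map_mul, map_mul, Polynomial.map_mul, ih, finSucc_ev_X]

theorem finSucc_vdm (p m : ℕ) :
    finSuccEquiv ℚ m (vdm (m + 1) ^ (2 * p))
      = GG univ (fun j : Fin m => (X j : MvPolynomial (Fin m) ℚ)) (2 * p)
        * Polynomial.C (vdm m ^ (2 * p)) := by
  have h1 : finSuccEquiv ℚ m (vdm (m + 1))
      = (∏ j : Fin m, (Polynomial.X - Polynomial.C (X j))) * Polynomial.C (vdm m) := by
    rw [vdm, Fin.prod_univ_succ, Fin.prod_Ioi_zero, map_mul, map_prod, map_prod]
    congr 1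
    · apply prod_congr rfl
      intro j _
      rw [map_sub, finSuccEquiv_X_zero, finSuccEquiv_X_succ]
    · rw [vdm, map_prod]
      apply prod_congr rfl
      intro i _
      rw [Fin.prod_Ioi_succ, map_prod, map_prod]
      apply prod_congr rfl
      intro j _
      rw [map_sub, finSuccEquiv_X_succ, finSuccEquiv_X_succ, Polynomial.C_sub]
  rw [map_pow, h1, mul_pow, GG, prod_pow, Polynomial.C_pow]

/-- B2: composition of vertex operator modes and evaluation.  `Kk` is the common exponent. -/
theorem coeff_ev_S (p m : ℕ) (Kk : ℕ) (f : MvPolynomial ℕ ℚ) :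
    coeff (Finsupp.equivFunOnFinite.symm (fun _ : Fin m => Kk))
        (vdm m ^ (2 * p) * ev p m (S (p : ℚ) ((Kk : ℤ) - 2 * p * m) f))
      = coeff (Finsupp.equivFunOnFinite.symm (fun _ : Fin (m + 1) => Kk))
        (vdm (m + 1) ^ (2 * p) * ev p (m + 1) f) := by
  have hcons : (Finsupp.equivFunOnFinite.symm (fun _ : Fin (m + 1) => Kk))
      = Finsupp.cons Kk (Finsupp.equivFunOnFinite.symm (fun _ : Fin m => Kk)) := by
    ext i
    refine Fin.cases ?_ (fun i => ?_) i
    · rw [Finsupp.cons_zero]
      rfl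
    · rw [Finsupp.cons_succ]
      rfl
  rw [hcons, ← finSuccEquiv_coeff_coeff, map_mul, finSucc_vdm, finSucc_ev, S, ev_sig]
  congr 1
  rw [mul_assoc, mul_comm (Polynomial.C _), ← mul_assoc, Polynomial.coeff_mul_C, mul_comm]

end Pool.Agent.LS
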