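import Mathlib
import Pool.Agent.LS.Ops

/-!
# Gradings for the rank one Fock space
-/

namespace Pool.Agent.LS

open MvPolynomial Finset

set_option linter.unusedSectionVars false

section Grade

variable {K : Type*} [CommRing K] [Algebra ℚ K]

/-- weight of an exponent: `x_{n+1}` has weight `n+1`. -/
noncomputable def wtm (d : ℕ →₀ ℕ) : ℕ := d.sum (fun n a => a * (n + 1))

theorem wtm_add (d e : ℕ →₀ ℕ) : wtm (d + e) = wtm d + wtm e := by
  unfold wtm
  rw [Finsupp.sum_add_index']
  · simp
  · intro a b c; ring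

@[simp] theorem wtm_zero : wtm 0 = 0 := by simp [wtm]

@[simp] theorem wtm_single (n a : ℕ) : wtm (Finsupp.single n a) = a * (n + 1) := by
  simp [wtm]

/-- all monomials of `f` have weight `w` -/
def HZ (w : ℤ) (f : MvPolynomial ℕ K) : Prop := ∀ d, coeff d f ≠ 0 → (wtm d : ℤ) = w

theorem HZ.zero (w : ℤ) : HZ w (0 : MvPolynomial ℕ K) := by
  intro d hd
  simp at hd

theorem HZ.add {w : ℤ} {f g : MvPolynomial ℕ K} (hf : HZ w f) (hg : HZ w g) : HZ w (f + g) := by
  intro d hd
  rw [coeff_add] at hd
  by_cases h : coeff d f = 0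
  · exact hg d (by rw [h, zero_add] at hd; exact hd)
  · exact hf d h

theorem HZ.neg {w : ℤ} {f : MvPolynomial ℕ K} (hf : HZ w f) : HZ w (-f) := by
  intro d hd
  rw [coeff_neg, neg_ne_zero] at hd
  exact hf d hd

theorem HZ.sub {w : ℤ} {f g : MvPolynomial ℕ K} (hf : HZ w f) (hg : HZ w g) : HZ w (f - g) := by
  rw [sub_eq_add_neg]; exact hf.add hg.neg

theorem HZ.sum {ι : Type*} {w : ℤ} (s : Finset ι) (f : ι → MvPolynomial ℕ K)
    (h : ∀ i ∈ s, HZ w (f i)) : HZ w (∑ i ∈ s, f i) := by
  classical
  induction s using Finset.induction_on with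
  | empty => simpa using HZ.zero w
  | insert a s ha ih =>
    rw [sum_insert ha]
    exact (h a (mem_insert_self a s)).add (ih (fun i hi => h i (mem_insert_of_mem hi)))

theorem HZ.mul {w v : ℤ} {f g : MvPolynomial ℕ K} (hf : HZ w f) (hg : HZ v g) :
    HZ (w + v) (f * g) := by
  classical
  intro d hd
  rw [coeff_mul] at hd
  obtain ⟨ab, hab, hne⟩ := Finset.exists_ne_zero_of_sum_ne_zero hd
  rw [Finset.HasAntidiagonal.mem_antidiagonal] at hab
  have h1 := hf ab.1 (left_ne_zero_of_mul hne)
  have h2 := hg ab.2 (right_ne_zero_of_mul hne)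
  rw [← hab, wtm_add]
  push_cast
  rw [h1, h2]

theorem hz_C (a : K) : HZ 0 (C a : MvPolynomial ℕ K) := by
  classical
  intro d hd
  rw [coeff_C] at hd
  by_cases h : 0 = d
  · rw [← h]; simp
  · simp [h] at hd

theorem hz_one : HZ 0 (1 : MvPolynomial ℕ K) := by
  have := hz_C (K := K) 1
  simpa using this

theorem hz_X (n : ℕ) : HZ (n + 1) (X n : MvPolynomial ℕ K) := by
  classical
  intro d hd
  rw [coeff_X] at hd
  by_cases h : Finsupp.single n 1 = d
  · rw [← h]; simp
  · simp [h] at hd

theorem HZ.c_mul {w : ℤ} {f : MvPolynomial ℕ K} (a : K) (hf : HZ w f) :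
    HZ w (MvPolynomial.C a * f) := by
  have := (hz_C a).mul hf
  simpa using this

theorem HZ.eq_zero {w : ℤ} {f : MvPolynomial ℕ K} (hf : HZ w f) (hw : w < 0) : f = 0 := by
  ext d
  rw [coeff_zero]
  by_contra h
  have := hf d h
  omega

theorem HZ.congr {w v : ℤ} {f : MvPolynomial ℕ K} (hf : HZ w f) (h : w = v) : HZ v f := h ▸ hf

theorem hz_PN (n : ℕ) : HZ n (PN n : MvPolynomial ℕ K) := by
  induction n using Nat.strong_induction_on with
  | _ n ih =>
    cases n with
    | zero => rw [PN_zero]; exact hz_one.congr (by simp)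
    | succ l =>
      rw [LS.PN]
      apply HZ.c_mul
      apply HZ.sum
      intro j _
      have h1 := ih (l - j) (by omega)
      refine ((hz_X (K := K) (j : ℕ)).mul h1).congr ?_
      have := j.2
      push_cast
      omega

theorem hz_PZ (l : ℤ) : HZ l (PZ l : MvPolynomial ℕ K) := by
  rcases lt_or_ge l 0 with h | h
  · rw [PZ_neg h]; exact HZ.zero l
  · obtain ⟨n, rfl⟩ := Int.eq_ofNat_of_zero_le h
    rw [PZ_natCast]
    exact hz_PN n

/-- graded version of `tau`: the coefficient of `u^a` in `tau f` has weight `w - a`. -/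
theorem HZ.tau_coeff (ν : K) {w : ℤ} {f : MvPolynomial ℕ K} (hf : HZ w f) (a : ℕ) :
    HZ (w - a) ((tau ν f).coeff a) := by
  classical
  -- write f as sum of monomials
  have hmon : ∀ (d : ℕ →₀ ℕ) (a : ℕ), HZ ((wtm d : ℤ) - a) ((tau ν (monomial d (1 : K))).coeff a) := by
    intro d
    induction d using Finsupp.induction with
    | zero =>
      intro a
      have : (monomial (0 : ℕ →₀ ℕ) (1 : K)) = 1 := rfl
      rw [this, map_one, Polynomial.coeff_one]
      by_cases h : a = 0
      · subst h; simpa using hz_one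
      · rw [if_neg h]; exact HZ.zero _
    | single_add n b d hn hb ih =>
      have hpow : ∀ (b : ℕ) (g : Polynomial (MvPolynomial ℕ K)) (v : ℤ),
          (∀ a : ℕ, HZ (v - a) (g.coeff a)) →
          ∀ a : ℕ, HZ (v + b * (n + 1) - a) (((tau ν (X n : MvPolynomial ℕ K)) ^ b * g).coeff a) := by
        intro b
        induction b with
        | zero => intro g v hg a; simpa using hg a
        | succ b ihb =>
          intro g v hg a
          rw [pow_succ, mul_assoc]
          have h2 : ∀ a : ℕ, HZ (v + (n + 1) - a) ((tau ν (X n : MvPolynomial ℕ K) * g).coeff a) := by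
            intro a
            rw [tau, aeval_X, sub_mul, Polynomial.coeff_sub, Polynomial.coeff_C_mul, mul_assoc,
              Polynomial.coeff_C_mul, Polynomial.coeff_X_pow_mul']
            apply HZ.sub
            · exact ((hz_X n).mul (hg a)).congr (by ring)
            · apply HZ.c_mul
              split_ifs with h
              · refine (hg (a - (n + 1))).congr ?_
                push_cast [Nat.cast_sub h]
                ring
              · exact HZ.zero _
          exact (ihb _ _ h2 a).congr (by push_cast; ring)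
      intro a
      have : (monomial (Finsupp.single n b + d) (1 : K)) = X n ^ b * monomial d 1 := by
        rw [monomial_single_add]
      rw [this, map_mul, map_pow]
      refine (hpow b _ _ ih a).congr ?_
      rw [wtm_add, wtm_single]
      push_cast
      ring
  rw [as_sum f, map_sum, Polynomial.finsetSum_coeff]
  apply HZ.sum
  intro d hd
  rw [mem_support_iff] at hd
  have h1 : (monomial d (coeff d f)) = MvPolynomial.C (coeff d f) * monomial d 1 := by
    rw [C_mul_monomial, mul_one]
  have h2 : tau ν (MvPolynomial.C (coeff d f)) = Polynomial.C (MvPolynomial.C (coeff d f)) := by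
    rw [← algebraMap_eq, AlgHom.commutes]
    rfl
  rw [h1, map_mul, h2, Polynomial.coeff_C_mul]
  apply HZ.c_mul
  exact (hmon d a).congr (by rw [hf d hd])

theorem sig_eq_sum (k : ℤ) (p : Polynomial (MvPolynomial ℕ K)) :
    sig k p = ∑ a ∈ p.support, PZ (a - k) * p.coeff a := by
  rw [sig, Polynomial.lsum_apply, Polynomial.sum_def]
  rfl

theorem HZ.smap (ν : K) (k : ℤ) {w : ℤ} {f : MvPolynomial ℕ K} (hf : HZ w f) :
    HZ (w - k) (S ν k f) := by
  unfold LS.S
  rw [sig_eq_sum]
  apply HZ.sum
  intro a _
  exact ((hz_PZ (a - k)).mul (hf.tau_coeff ν a)).congr (by ring)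

theorem hz_qq (m : ℕ) : HZ (m + 1) (qq m : MvPolynomial ℕ K) := by
  cases m with
  | zero => exact HZ.zero _
  | succ m =>
    apply HZ.sum
    intro ab hab
    rw [Finset.HasAntidiagonal.mem_antidiagonal] at hab
    refine ((hz_X (K := K) ab.1).mul (hz_X ab.2)).congr ?_
    push_cast
    omega

theorem HZ.dm (ν : K) (m : ℕ) {w : ℤ} {f : MvPolynomial ℕ K} (hf : HZ w f) :
    HZ (w + m + 1) (Dm ν m f) := by
  classical
  have hmon : ∀ (d : ℕ →₀ ℕ), HZ ((wtm d : ℤ) + m + 1) (LS.Dm ν m (monomial d (1 : K))) := by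
    intro d
    induction d using Finsupp.induction with
    | zero =>
      have : (monomial (0 : ℕ →₀ ℕ) (1 : K)) = 1 := rfl
      rw [this, Derivation.map_one_eq_zero]
      exact HZ.zero _
    | single_add n b d hn hb ih =>
      have hmX : ∀ (b : ℕ), HZ ((b * (n + 1) : ℤ)) ((X n : MvPolynomial ℕ K) ^ b) := by
        intro b
        induction b with
        | zero => simpa using hz_one
        | succ b ihb => rw [pow_succ]; exact (ihb.mul (hz_X n)).congr (by push_cast; ring)
      have hpow : ∀ (b : ℕ), HZ ((b * (n + 1) : ℤ) + m + 1) (LS.Dm ν m ((X n : MvPolynomial ℕ K) ^ b)) := by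
        intro b
        induction b with
        | zero => rw [pow_zero, Derivation.map_one_eq_zero]; exact HZ.zero _
        | succ b ihb =>
          rw [pow_succ, Derivation.leibniz, smul_eq_mul, smul_eq_mul, Dm_X]
          apply HZ.add
          · exact ((hmX b).mul ((hz_X (n + m + 1)).c_mul _)).congr (by push_cast; ring)
          · exact ((hz_X n).mul ihb).congr (by push_cast; ring)
      have hmd : HZ (wtm d) (monomial d (1 : K)) := by
        intro e he
        rw [coeff_monomial] at he
        by_cases h : d = e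
        · rw [h]
        · simp [h] at he
      have : (monomial (Finsupp.single n b + d) (1 : K)) = X n ^ b * monomial d 1 := by
        rw [monomial_single_add]
      rw [this, Derivation.leibniz, smul_eq_mul, smul_eq_mul, wtm_add, wtm_single]
      apply HZ.add
      · exact ((hmX b).mul ih).congr (by push_cast; ring)
      · exact (hmd.mul (hpow b)).congr (by push_cast; ring)
  rw [as_sum f, map_sum]
  apply HZ.sum
  intro d hd
  rw [mem_support_iff] at hd
  have h1 : (monomial d (coeff d f)) = MvPolynomial.C (coeff d f) * monomial d 1 := by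
    rw [C_mul_monomial, mul_one]
  rw [h1, Derivation.leibniz, Dm_C, smul_zero, add_zero, smul_eq_mul]
  apply HZ.c_mul
  exact (hmon d).congr (by rw [hf d hd])

theorem HZ.lop (T ν : K) (m : ℕ) {w : ℤ} {f : MvPolynomial ℕ K} (hf : HZ w f) :
    HZ (w + m + 1) (Lop T ν m f) := by
  unfold LS.Lop
  apply HZ.add
  · refine (HZ.mul (w := (m : ℤ) + 1) ?_ hf).congr (by ring)
    exact (hz_qq m).add ((hz_X m).c_mul _)
  · exact hf.dm ν m

end Grade

end Pool.Agent.LS
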