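import Mathlib
import Pool.Agent.LS.Ops
import Pool.Agent.LS.Grade

/-!
# The elements `g_n`: `G(z) = ∑ g_n z^n = exp (c ∑ x_n z^n / n)`
-/

namespace Pool.Agent.LS

open MvPolynomial Finset

set_option linter.unusedSectionVars false

section GNsec

variable {K : Type*} [CommRing K] [Algebra ℚ K]

/-- `(l+1) g_{l+1} = c ∑_{j ≤ l} x_{j+1} g_{l-j}` -/
noncomputable def gN (c : K) : ℕ → MvPolynomial ℕ K
  | 0 => 1
  | (l + 1) => C (c * algebraMap ℚ K (1 / (l + 1))) * ∑ j : Fin (l + 1), X (j : ℕ) * gN c (l - j)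
decreasing_by
  have := j.2
  omega

theorem gN_zero (c : K) : gN c 0 = 1 := by
  rw [gN]

theorem gN_succ (c : K) (l : ℕ) :
    C (((l + 1 : ℕ) : K)) * (gN c (l + 1) : MvPolynomial ℕ K)
      = C c * ∑ j ∈ range (l + 1), X j * gN c (l - j) := by
  rw [gN, ← mul_assoc, ← C_mul]
  have h : (((l + 1 : ℕ) : K)) * (c * algebraMap ℚ K (1 / (l + 1))) = c := by
    have h0 : (((l + 1 : ℕ) : K)) = algebraMap ℚ K ((l + 1 : ℕ) : ℚ) := by simp
    have h1 : algebraMap ℚ K ((l + 1 : ℕ) : ℚ) * algebraMap ℚ K (1 / (l + 1)) = 1 := by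
      rw [← map_mul]
      have h2 : (((l + 1 : ℕ) : ℚ)) * (1 / ((l : ℚ) + 1)) = 1 := by
        push_cast
        field_simp
      rw [h2, map_one]
    rw [h0]
    linear_combination c * h1
  rw [h]
  congr 1
  exact Fin.sum_univ_eq_sum_range (fun j => X j * gN c (l - j)) (l + 1)

theorem hz_gN (c : K) (n : ℕ) : HZ n (gN c n : MvPolynomial ℕ K) := by
  induction n using Nat.strong_induction_on with
  | _ n ih =>
    cases n with
    | zero => rw [gN_zero]; exact hz_one.congr (by simp)
    | succ l =>
      rw [gN]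
      apply HZ.c_mul
      apply HZ.sum
      intro j _
      have h1 := ih (l - j) (by omega)
      refine ((hz_X (K := K) (j : ℕ)).mul h1).congr ?_
      have := j.2
      push_cast
      omega

theorem tau_X (ν : K) (j : ℕ) : tau ν (X j : MvPolynomial ℕ K) = Polynomial.C (X j)
      - Polynomial.C (C (2 * ν)) * Polynomial.X ^ (j + 1) := by
  rw [tau, aeval_X]

theorem tau_C (ν : K) (a : K) : tau ν (C a : MvPolynomial ℕ K) = Polynomial.C (C a) := by
  rw [← algebraMap_eq, AlgHom.commutes]
  rfl

/-- cancel a positive integer in `(MvPolynomial ℕ K)[u]` -/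
theorem natCast_mul_cancel {n : ℕ} (p q : Polynomial (MvPolynomial ℕ K))
    (h : Polynomial.C (C (((n + 1 : ℕ) : K))) * p = Polynomial.C (C (((n + 1 : ℕ) : K))) * q) :
    p = q := by
  have hu : Polynomial.C (C (algebraMap ℚ K (1 / (n + 1)))) * Polynomial.C (C (((n + 1 : ℕ) : K)))
      = (1 : Polynomial (MvPolynomial ℕ K)) := by
    rw [← Polynomial.C_mul, ← C_mul]
    have : algebraMap ℚ K (1 / (n + 1)) * ((n + 1 : ℕ) : K) = 1 := by
      have h0 : (((n + 1 : ℕ) : K)) = algebraMap ℚ K ((n + 1 : ℕ) : ℚ) := by simp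
      rw [h0, ← map_mul]
      have h2 : (1 / ((n : ℚ) + 1)) * (((n + 1 : ℕ) : ℚ)) = 1 := by
        push_cast
        field_simp
      rw [h2, map_one]
    rw [this, C_1, Polynomial.C_1]
  calc p = (Polynomial.C (C (algebraMap ℚ K (1 / (n + 1)))) * Polynomial.C (C (((n + 1 : ℕ) : K)))) * p := by
        rw [hu, one_mul]
    _ = (Polynomial.C (C (algebraMap ℚ K (1 / (n + 1)))) * Polynomial.C (C (((n + 1 : ℕ) : K)))) * q := by
        rw [mul_assoc, h, mul_assoc]
    _ = q := by rw [hu, one_mul]

theorem tau_gN (ν c : K) (hc : 2 * ν * c = 1) (n : ℕ) :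
    tau ν (gN c (n + 1)) = Polynomial.C (gN c (n + 1)) - Polynomial.X * Polynomial.C (gN c n) := by
  induction n using Nat.strong_induction_on with
  | _ n ih =>
    apply natCast_mul_cancel (n := n)
    have h1 := congrArg (tau ν) (gN_succ c n)
    rw [map_mul, map_mul, tau_C, tau_C, map_sum] at h1
    rw [h1]
    -- the terms
    have h2 : ∀ j ∈ range (n + 1), tau ν (X j * gN c (n - j))
        = (Polynomial.C (X j * gN c (n - j))
            - (if j = n then 0 else Polynomial.X * Polynomial.C (X j * gN c (n - 1 - j))))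
          - Polynomial.C (C (2 * ν)) * (Polynomial.X ^ (j + 1) * Polynomial.C (gN c (n - j))
            - (if j = n then 0 else Polynomial.X ^ (j + 2) * Polynomial.C (gN c (n - 1 - j)))) := by
      intro j hj
      rw [mem_range] at hj
      rw [map_mul, tau_X]
      by_cases hjn : j = n
      · subst hjn
        rw [if_pos rfl, if_pos rfl, Nat.sub_self, gN_zero, map_one, Polynomial.C_mul, Polynomial.C_1]
        ring
      · rw [if_neg hjn, if_neg hjn]
        have h3 : n - j = (n - 1 - j) + 1 := by omega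
        rw [h3, ih (n - 1 - j) (by omega), Polynomial.C_mul, Polynomial.C_mul]
        ring
    rw [sum_congr rfl h2, sum_sub_distrib, sum_sub_distrib, ← mul_sum, sum_sub_distrib]
    -- telescoping
    have tel : ∑ j ∈ range (n + 1), (Polynomial.X ^ (j + 1) * Polynomial.C (gN c (n - j)) :
          Polynomial (MvPolynomial ℕ K))
        - ∑ j ∈ range (n + 1), (if j = n then 0
            else Polynomial.X ^ (j + 2) * Polynomial.C (gN c (n - 1 - j)))
        = Polynomial.X * Polynomial.C (gN c n) := by
      rw [sum_range_succ' , sum_range_succ (fun j => if j = n then (0 : Polynomial (MvPolynomial ℕ K))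
            else Polynomial.X ^ (j + 2) * Polynomial.C (gN c (n - 1 - j))), if_pos rfl, add_zero]
      have : ∑ j ∈ range n, (if j = n then (0 : Polynomial (MvPolynomial ℕ K))
            else Polynomial.X ^ (j + 2) * Polynomial.C (gN c (n - 1 - j)))
          = ∑ j ∈ range n, (Polynomial.X ^ (j + 1 + 1) * Polynomial.C (gN c (n - (j + 1))) :
          Polynomial (MvPolynomial ℕ K)) := by
        apply sum_congr rfl
        intro j hj
        rw [mem_range] at hj
        rw [if_neg (by omega)]
        have : n - 1 - j = n - (j + 1) := by omega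
        rw [this]
      rw [this]
      simp
    have t2 : ∑ j ∈ range (n + 1), (if j = n then (0 : Polynomial (MvPolynomial ℕ K))
            else Polynomial.X * Polynomial.C (X j * gN c (n - 1 - j)))
        = Polynomial.X * ∑ j ∈ range n, Polynomial.C (X j * gN c (n - 1 - j)) := by
      rw [sum_range_succ, if_pos rfl, add_zero, mul_sum]
      apply sum_congr rfl
      intro j hj
      rw [mem_range] at hj
      rw [if_neg (by omega)]
    rw [tel, t2, ← map_sum, ← map_sum]
    have e1 := congrArg (Polynomial.C : MvPolynomial ℕ K →+* Polynomial (MvPolynomial ℕ K)) (gN_succ c n)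
    rw [Polynomial.C_mul, Polynomial.C_mul] at e1
    have e2 : Polynomial.C (C (n : K)) * Polynomial.C (gN c n)
        = Polynomial.C (C c) * Polynomial.C (∑ j ∈ range n, X j * gN c (n - 1 - j)) := by
      cases n with
      | zero => simp
      | succ m =>
        have e3 := congrArg (Polynomial.C : MvPolynomial ℕ K →+* Polynomial (MvPolynomial ℕ K)) (gN_succ c m)
        rw [Polynomial.C_mul, Polynomial.C_mul] at e3
        rw [e3]
        rfl
    have hcc : Polynomial.C (C c) * Polynomial.C (C (2 * ν)) = (1 : Polynomial (MvPolynomial ℕ K)) := by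
      rw [← Polynomial.C_mul, ← C_mul]
      have : c * (2 * ν) = 1 := by rw [mul_comm]; exact hc
      rw [this, C_1, Polynomial.C_1]
    have e4 : Polynomial.C (C (((n + 1 : ℕ) : K))) = Polynomial.C (C (n : K)) + (1 : Polynomial (MvPolynomial ℕ K)) := by
      push_cast
      simp
    rw [e4] at e1 ⊢
    linear_combination (-1 : Polynomial (MvPolynomial ℕ K)) * e1 + Polynomial.X * e2
      - (Polynomial.X * Polynomial.C (gN c n)) * hcc

/-- `S^{(k+1)}(g_{m+1} f) = g_{m+1} S^{(k+1)} f - g_m S^{(k)} f` -/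
theorem S_gN_mul (ν c : K) (hc : 2 * ν * c = 1) (k : ℤ) (m : ℕ) (f : MvPolynomial ℕ K) :
    S ν (k + 1) (gN c (m + 1) * f) = gN c (m + 1) * S ν (k + 1) f - gN c m * S ν k f := by
  unfold S
  rw [map_mul, tau_gN ν c hc, sub_mul, map_sub, ← Polynomial.smul_eq_C_mul, map_smul]
  have h : Polynomial.X * Polynomial.C (gN c m) * (tau ν) f
      = gN c m • (Polynomial.X ^ 1 * tau ν f) := by
    rw [Polynomial.smul_eq_C_mul]; ring
  rw [h, map_smul, sig_X_pow_mul]
  have : (k + 1 - ((1 : ℕ) : ℤ)) = k := by push_cast; ring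
  rw [this]
  rfl

end GNsec

end Pool.Agent.LS
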