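import Mathlib
import Pool.Agent.LS.ConstA
import Pool.Agent.LS.ConstB
import Pool.Agent.LS.GN

/-!
# B3: the `r`-fold composition of vertex operator modes hits the constants
-/

namespace Pool.Agent.LS

open MvPolynomial Finset

/-- iterate: `Sit p k r f = S^{(k+2p(r-1))} ⋯ S^{(k+2p)} S^{(k)} f` -/
noncomputable def Sit (p : ℕ) (k : ℤ) : ℕ → MvPolynomial ℕ ℚ → MvPolynomial ℕ ℚ
  | 0, f => f
  | (r + 1), f => S (p : ℚ) (k + 2 * p * r) (Sit p k r f)

/-- weight: `x_{n+1}` has weight `n+1` -/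
def wt : ℕ → ℕ := fun n => n + 1

/-- `ev (g_l)` is a coefficient of `∏ (1 - ζ_j z)` -/
theorem ev_gN (p m : ℕ) (c : ℚ) (hc : 2 * (p : ℚ) * c = 1) (l : ℕ) :
    ev p m (gN c l) = (HH univ (fun j : Fin m => (X j : MvPolynomial (Fin m) ℚ)) 1).coeff l := by
  induction l using Nat.strong_induction_on with
  | _ l ih =>
    cases l with
    | zero =>
      rw [gN_zero, map_one, Polynomial.coeff_zero_eq_eval_zero, HH, Polynomial.eval_prod]
      simp
    | succ l =>
      have h1 := congrArg (ev p m) (gN_succ c l)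
      rw [map_mul, map_mul, map_sum] at h1
      have h2 : ev p m (C (((l + 1 : ℕ) : ℚ))) = C (((l + 1 : ℕ) : ℚ)) := ev_C p m _
      rw [h2, ev_C] at h1
      have h3 := congrArg (PowerSeries.coeff l)
        (deriv_HH univ (fun j : Fin m => (X j : MvPolynomial (Fin m) ℚ)) 1)
      rw [PowerSeries.coeff_derivative, Polynomial.coeff_coe, PowerSeries.coeff_mul,
        Finset.Nat.sum_antidiagonal_eq_sum_range_succ
          (fun a b => PowerSeries.coeff a (PowerSeries.mk fun n =>
            -((1 : ℕ) : MvPolynomial (Fin m) ℚ) * ∑ j, (X j : MvPolynomial (Fin m) ℚ) ^ (n + 1))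
            * PowerSeries.coeff b ((HH univ (fun j : Fin m => (X j : MvPolynomial (Fin m) ℚ))
              1 : Polynomial _) : PowerSeries _))] at h3
      have h4 : C c * ∑ i ∈ range (l + 1), ev p m (X i * gN c (l - i))
          = (HH univ (fun j : Fin m => (X j : MvPolynomial (Fin m) ℚ)) 1).coeff (l + 1)
            * ((l : MvPolynomial (Fin m) ℚ) + 1) := by
        rw [h3, mul_sum]
        apply sum_congr rfl
        intro i hi
        rw [map_mul, ih (l - i) (by omega), PowerSeries.coeff_mk, Polynomial.coeff_coe, ev_X,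
          ← mul_assoc, ← mul_assoc, ← C_mul]
        have h7 : c * (-2 * (p : ℚ)) = -1 := by linear_combination (-1 : ℚ) * hc
        rw [h7]
        simp
      rw [h4] at h1
      have h5 : (C (((l + 1 : ℕ) : ℚ)) : MvPolynomial (Fin m) ℚ) = (l : MvPolynomial (Fin m) ℚ) + 1 := by
        simp
      rw [h5, mul_comm] at h1
      have h6 : ((l : MvPolynomial (Fin m) ℚ) + 1) ≠ 0 := by
        exact_mod_cast Nat.succ_ne_zero l
      exact mul_right_cancel₀ h6 h1

/-- the top coefficient of `∏ (1 - ζ_j z)` -/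
theorem HH_top (m : ℕ) :
    (HH univ (fun j : Fin m => (X j : MvPolynomial (Fin m) ℚ)) 1).coeff m
      = C ((-1 : ℚ) ^ m) * ∏ j : Fin m, (X j : MvPolynomial (Fin m) ℚ) := by
  have hdeg : ∀ j ∈ (univ : Finset (Fin m)),
      ((1 - Polynomial.C (X j : MvPolynomial (Fin m) ℚ) * Polynomial.X) ^ 1).natDegree ≤ 1 := by
    intro j _
    rw [pow_one]
    refine (Polynomial.natDegree_sub_le _ _).trans ?_
    rw [Polynomial.natDegree_one]
    exact max_le (Nat.zero_le 1) ((Polynomial.natDegree_C_mul_le _ _).trans Polynomial.natDegree_X_le)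
  have h := Polynomial.coeff_prod_of_natDegree_le (univ : Finset (Fin m))
    (fun j => (1 - Polynomial.C (X j : MvPolynomial (Fin m) ℚ) * Polynomial.X) ^ 1) 1 hdeg
  rw [card_univ, Fintype.card_fin, mul_one] at h
  rw [HH, h]
  have h1 : ∀ j : Fin m, ((1 - Polynomial.C (X j : MvPolynomial (Fin m) ℚ) * Polynomial.X) ^ 1).coeff 1
      = C (-1 : ℚ) * X j := by
    intro j
    rw [pow_one, Polynomial.coeff_sub, Polynomial.coeff_C_mul, Polynomial.coeff_X_one,
      Polynomial.coeff_one, if_neg one_ne_zero]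
    simp
  rw [prod_congr rfl (fun j _ => h1 j), prod_mul_distrib, prod_const, card_univ, Fintype.card_fin,
    C_pow]

/-- the iterated B2 -/
theorem coeff_ev_Sit (p : ℕ) (Kk : ℕ) (r m : ℕ) (f : MvPolynomial ℕ ℚ) :
    coeff (Finsupp.equivFunOnFinite.symm (fun _ : Fin m => Kk))
        (vdm m ^ (2 * p) * ev p m (Sit p ((Kk : ℤ) - 2 * p * (m + r - 1)) r f))
      = coeff (Finsupp.equivFunOnFinite.symm (fun _ : Fin (m + r) => Kk))
        (vdm (m + r) ^ (2 * p) * ev p (m + r) f) := by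
  induction r generalizing m f with
  | zero => rfl
  | succ r ih =>
    have h1 : Sit p ((Kk : ℤ) - 2 * p * (m + (r + 1 : ℕ) - 1)) (r + 1) f
        = S (p : ℚ) ((Kk : ℤ) - 2 * p * m)
            (Sit p ((Kk : ℤ) - 2 * p * (((m + 1 : ℕ) : ℤ) + r - 1)) r f) := by
      rw [Sit]
      have e1 : (Kk : ℤ) - 2 * p * (m + (r + 1 : ℕ) - 1) + 2 * p * r = (Kk : ℤ) - 2 * p * m := by
        push_cast; ring
      have e2 : (Kk : ℤ) - 2 * p * (m + (r + 1 : ℕ) - 1)
          = (Kk : ℤ) - 2 * p * (((m + 1 : ℕ) : ℤ) + r - 1) := by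
        push_cast; ring
      rw [e1, e2]
    rw [h1, coeff_ev_S, ih (m + 1) f]
    have h2 : m + 1 + r = m + (r + 1) := by ring
    rw [h2]

/-- B3: the `r`-fold composition hits the constants. -/
theorem exists_Sit_const (p : ℕ) (hp : 1 ≤ p) (r s : ℕ) (hr : 1 ≤ r) (hs : 1 ≤ s) :
    ∃ w : MvPolynomial ℕ ℚ, HZ ((r : ℤ) * s) w ∧
      constantCoeff (Sit p ((p : ℤ) * (1 - r) + s) r w) ≠ 0 := by
  have hp0 : (p : ℚ) ≠ 0 := by
    have : p ≠ 0 := by omega
    exact_mod_cast this
  have hc : 2 * (p : ℚ) * (1 / (2 * p)) = 1 := by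
    field_simp
  obtain ⟨c, hc⟩ : ∃ c : ℚ, 2 * (p : ℚ) * c = 1 := ⟨_, hc⟩
  refine ⟨(gN c r) ^ s, ?_, ?_⟩
  · have h : ∀ s : ℕ, HZ ((r : ℤ) * s) ((gN c r : MvPolynomial ℕ ℚ) ^ s) := by
      intro s
      induction s with
      | zero => rw [pow_zero]; exact hz_one.congr (by simp)
      | succ s ih =>
        rw [pow_succ]
        refine (ih.mul (hz_gN c r)).congr ?_
        push_cast; ring
    exact h s
  · have h0 := coeff_ev_Sit p (p * (r - 1) + s) r 0 (gN c r ^ s)
    have e1 : ((p * (r - 1) + s : ℕ) : ℤ) - 2 * p * (((0 : ℕ) : ℤ) + r - 1)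
        = (p : ℤ) * (1 - r) + s := by
      have : ((r - 1 : ℕ) : ℤ) = (r : ℤ) - 1 := by omega
      push_cast
      rw [this]; ring
    rw [e1] at h0
    have e2 : coeff (Finsupp.equivFunOnFinite.symm (fun _ : Fin 0 => p * (r - 1) + s))
        (vdm 0 ^ (2 * p) * ev p 0 (Sit p ((p : ℤ) * (1 - r) + s) r (gN c r ^ s)))
        = constantCoeff (Sit p ((p : ℤ) * (1 - r) + s) r (gN c r ^ s)) := by
      have e3 : vdm 0 = 1 := by simp [vdm]
      have e4 : (Finsupp.equivFunOnFinite.symm (fun _ : Fin 0 => p * (r - 1) + s) : Fin 0 →₀ ℕ) = 0 :=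
        Subsingleton.elim _ _
      rw [e3, one_pow, one_mul, e4, ← constantCoeff_eq]
      generalize Sit p ((p : ℤ) * (1 - r) + s) r (gN c r ^ s) = g
      induction g using MvPolynomial.induction_on with
      | C a => rw [ev_C, constantCoeff_C, constantCoeff_C]
      | add f g hf hg => rw [map_add, map_add, map_add, hf, hg]
      | mul_X f j ih => rw [map_mul, map_mul, map_mul, ev_X]; simp
    rw [← e2, h0]
    have e5 : ∀ m : ℕ, m = r → coeff (Finsupp.equivFunOnFinite.symm (fun _ : Fin m => p * (r - 1) + s))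
        (vdm m ^ (2 * p) * ev p m (gN c r ^ s)) ≠ 0 := by
      intro m hm
      subst hm
      rw [map_pow, ev_gN p m c hc, HH_top]
      have e6 : (∏ j : Fin m, (X j : MvPolynomial (Fin m) ℚ)) ^ s
          = monomial (Finsupp.equivFunOnFinite.symm (fun _ : Fin m => s)) 1 := by
        rw [monomial_eq, C_1, one_mul, Finsupp.prod_fintype _ _ (fun i => by simp), ← prod_pow]
        rfl
      have e7 : (Finsupp.equivFunOnFinite.symm (fun _ : Fin m => p * (m - 1) + s) : Fin m →₀ ℕ)
          = Finsupp.equivFunOnFinite.symm (fun _ : Fin m => p * (m - 1))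
            + Finsupp.equivFunOnFinite.symm (fun _ : Fin m => s) := by
        ext i; rfl
      rw [mul_pow, e6, ← mul_assoc, mul_comm (vdm m ^ (2 * p)), mul_assoc, ← C_pow, coeff_C_mul, e7,
        coeff_mul_monomial, mul_one]
      refine mul_ne_zero (pow_ne_zero _ (pow_ne_zero _ (by norm_num))) ?_
      exact coeff_vdm_pow_ne_zero m p
    exact e5 (0 + r) (by omega)

end Pool.Agent.LS
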