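import Pool.Agent.LS.Homog

/-!
# Counting monomials in the generators `P0`, `omega` (C4)
-/

namespace Pool.Agent.LS

open MvPolynomial Finset

section General

variable {σ τ : Type*}

theorem isWeightedHomogeneous_pow' (w : σ → ℕ) {f : MvPolynomial σ ℂ} {a : ℕ}
    (hf : IsWeightedHomogeneous w f a) (e : ℕ) : IsWeightedHomogeneous w (f ^ e) (e * a) := by
  induction e with
  | zero => simpa using isWeightedHomogeneous_one ℂ w
  | succ e ih =>
    rw [pow_succ, Nat.succ_mul]
    exact ih.mul hf

theorem isWeightedHomogeneous_monomial_gen (w : σ → ℕ) (D : τ → ℕ) (G : τ → MvPolynomial σ ℂ)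
    (hG : ∀ t, IsWeightedHomogeneous w (G t) (D t)) (m : τ →₀ ℕ) :
    IsWeightedHomogeneous w (m.prod (fun t e => G t ^ e)) (m.sum (fun t e => e * D t)) := by
  classical
  have key : ∀ s : Finset τ, IsWeightedHomogeneous w (∏ t ∈ s, G t ^ m t)
      (∑ t ∈ s, m t * D t) := by
    intro s
    induction s using Finset.induction_on with
    | empty => simpa using isWeightedHomogeneous_one ℂ w
    | insert a s ha ih =>
      rw [Finset.prod_insert ha, Finset.sum_insert ha]
      exact (isWeightedHomogeneous_pow' w (hG a) (m a)).mul ih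
  exact key m.support

/-- every weighted homogeneous element of the subalgebra generated by weighted homogeneous
elements `G t` is a combination of the monomials in the `G t` of the right weight -/
theorem mem_span_of_mem_adjoin (w : σ → ℕ) (D : τ → ℕ) (G : τ → MvPolynomial σ ℂ)
    (hG : ∀ t, IsWeightedHomogeneous w (G t) (D t)) (N : ℕ) {f : MvPolynomial σ ℂ}
    (hf : f ∈ Algebra.adjoin ℂ (Set.range G)) (hfN : f ∈ weightedHomogeneousSubmodule ℂ w N) :
    f ∈ Submodule.span ℂ (Set.range
      (fun m : {m : τ →₀ ℕ // m.sum (fun t e => e * D t) = N} =>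
        m.1.prod (fun t e => G t ^ e))) := by
  classical
  rw [Algebra.adjoin_range_eq_range_aeval] at hf
  obtain ⟨F, hF⟩ := hf
  replace hF : (aeval G) F = f := hF
  have hsum : f = ∑ m ∈ F.support, coeff m F • m.prod (fun t e => G t ^ e) := by
    rw [← hF, aeval_def, eval₂_eq]
    refine Finset.sum_congr rfl fun m _ => ?_
    rw [Algebra.smul_def, Finsupp.prod]
  have hcomp : weightedHomogeneousComponent w N f = f :=
    IsWeightedHomogeneous.weightedHomogeneousComponent_same
      ((mem_weightedHomogeneousSubmodule _ _ _ _).1 hfN)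
  rw [← hcomp, hsum, map_sum]
  apply Submodule.sum_mem
  intro m _
  rw [map_smul]
  apply Submodule.smul_mem
  have h2 := isWeightedHomogeneous_monomial_gen w D G hG m
  by_cases hm : m.sum (fun t e => e * D t) = N
  · rw [hm] at h2
    rw [h2.weightedHomogeneousComponent_same]
    exact Submodule.subset_span ⟨⟨m, hm⟩, rfl⟩
  · rw [h2.weightedHomogeneousComponent_ne N (fun h => hm h.symm)]
    exact Submodule.zero_mem _

/-- the dimension of the weight `N` part of a graded subalgebra is at most the number of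
monomials of weight `N` in the generators -/
theorem finrank_adjoin_inf_le (w : σ → ℕ) (D : τ → ℕ) (G : τ → MvPolynomial σ ℂ)
    (hG : ∀ t, IsWeightedHomogeneous w (G t) (D t)) (N : ℕ)
    [Finite {m : τ →₀ ℕ // m.sum (fun t e => e * D t) = N}] :
    Module.finrank ℂ ↥(Subalgebra.toSubmodule (Algebra.adjoin ℂ (Set.range G)) ⊓
        weightedHomogeneousSubmodule ℂ w N)
      ≤ Nat.card {m : τ →₀ ℕ // m.sum (fun t e => e * D t) = N} := by
  classical
  have := Fintype.ofFinite {m : τ →₀ ℕ // m.sum (fun t e => e * D t) = N}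
  set b : {m : τ →₀ ℕ // m.sum (fun t e => e * D t) = N} → MvPolynomial σ ℂ :=
    fun m => m.1.prod (fun t e => G t ^ e) with hb
  have hle : Subalgebra.toSubmodule (Algebra.adjoin ℂ (Set.range G)) ⊓
      weightedHomogeneousSubmodule ℂ w N ≤ Submodule.span ℂ (Set.range b) := by
    intro f hf
    exact mem_span_of_mem_adjoin w D G hG N hf.1 hf.2
  have hfd : FiniteDimensional ℂ ↥(Submodule.span ℂ (Set.range b)) :=
    FiniteDimensional.span_of_finite ℂ (Set.finite_range b)
  refine (Submodule.finrank_mono hle).trans ?_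
  rw [Nat.card_eq_fintype_card]
  exact finrank_range_le_card b

end General

section Count

variable {l : ℕ}

theorem finite_vac_set (d : Fin l → ℕ) (hd : ∀ j, 1 ≤ d j) (N : ℕ) :
    {m : Fin l × ℕ →₀ ℕ | m.sum (fun jk e => e * (d jk.1 + jk.2)) = N}.Finite := by
  classical
  let s0 : Fin l × ℕ →₀ ℕ := Finsupp.onFinset (univ ×ˢ range N) (fun a => if a.2 < N then N else 0)
    (by
      intro a ha
      rw [mem_product, mem_range]
      refine ⟨mem_univ _, ?_⟩
      by_contra h
      rw [if_neg h] at ha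
      exact ha rfl)
  apply (Set.finite_Icc 0 s0).subset
  intro s hs
  refine ⟨zero_le, ?_⟩
  intro a
  have hs' : s.sum (fun jk e => e * (d jk.1 + jk.2)) = N := hs
  have hterm : s a * (d a.1 + a.2) ≤ N := by
    rw [← hs']
    by_cases ha : a ∈ s.support
    · exact Finset.single_le_sum (f := fun jk : Fin l × ℕ => s jk * (d jk.1 + jk.2))
        (fun _ _ => Nat.zero_le _) ha
    · rw [Finsupp.notMem_support_iff.1 ha, Nat.zero_mul]
      exact Nat.zero_le _
  have hda := hd a.1
  show s a ≤ (if a.2 < N then N else 0)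
  split_ifs with h
  · calc s a = s a * 1 := (Nat.mul_one _).symm
      _ ≤ s a * (d a.1 + a.2) := Nat.mul_le_mul_left _ (by omega)
      _ ≤ N := hterm
  · by_contra h2
    have h3 : 1 * (d a.1 + a.2) ≤ s a * (d a.1 + a.2) := Nat.mul_le_mul_right _ (by omega)
    omega

theorem finite_vac (d : Fin l → ℕ) (hd : ∀ j, 1 ≤ d j) (N : ℕ) :
    Finite {m : Fin l × ℕ →₀ ℕ // m.sum (fun jk e => e * (d jk.1 + jk.2)) = N} :=
  (finite_vac_set d hd N).to_subtype

/-- the generator with index `(j, k)`: `P0 j` for `k = 0` and `omega j (k-1)` for `k ≥ 1` -/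
noncomputable def gens {A : Matrix (Fin l) (Fin l) ℤ} (B : BasicInvariants A) :
    Fin l × ℕ → MvPolynomial (Fin l × ℕ) ℂ
  | (j, 0) => P0 B j
  | (j, k + 1) => omega B j k

theorem range_gens {A : Matrix (Fin l) (Fin l) ℤ} (B : BasicInvariants A) :
    Set.range (gens B) = Set.range (P0 B) ∪
      Set.range (fun jn : Fin l × ℕ => omega B jn.1 jn.2) := by
  ext f
  constructor
  · rintro ⟨⟨j, k⟩, rfl⟩
    cases k with
    | zero => exact Or.inl ⟨j, rfl⟩
    | succ k => exact Or.inr ⟨(j, k), rfl⟩
  · rintro (⟨j, rfl⟩ | ⟨⟨j, k⟩, rfl⟩)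
    · exact ⟨(j, 0), rfl⟩
    · exact ⟨(j, k + 1), rfl⟩

theorem gens_wh {A : Matrix (Fin l) (Fin l) ℤ} (B : BasicInvariants A) (hd : ∀ j, 1 ≤ B.d j)
    (t : Fin l × ℕ) :
    IsWeightedHomogeneous (fun a : Fin l × ℕ => a.2 + 1) (gens B t) (B.d t.1 + t.2) := by
  obtain ⟨j, k⟩ := t
  cases k with
  | zero => exact P0_wh B j
  | succ k => exact omega_wh B j k (hd j)

/-- **(C4)** the weight `N` part of the algebra generated by the `P_j` and the `ω_{j,n}` has
dimension at most the number of monomials of weight `N` in generators of weights `d_j + k` -/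
theorem finrank_adjoin_le_vac {A : Matrix (Fin l) (Fin l) ℤ} (B : BasicInvariants A)
    (hd : ∀ j, 1 ≤ B.d j) (N : ℕ) :
    Module.finrank ℂ ↥(Subalgebra.toSubmodule (Algebra.adjoin ℂ
        (Set.range (P0 B) ∪ Set.range (fun jn : Fin l × ℕ => omega B jn.1 jn.2))) ⊓
        weightedHomogeneousSubmodule ℂ (fun a : Fin l × ℕ => a.2 + 1) N)
      ≤ vac B.d N := by
  have := finite_vac B.d hd N
  rw [← range_gens]
  exact finrank_adjoin_inf_le (fun a : Fin l × ℕ => a.2 + 1)
    (fun t : Fin l × ℕ => B.d t.1 + t.2) (gens B) (gens_wh B hd) N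

end Count

end Pool.Agent.LS
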