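import Mathlib
import Pool.Agent.LS.AInd

/-!
# The degrees of basic invariants are positive
-/

namespace Pool.Agent.LS

open MvPolynomial Finset

variable {l : ℕ} {A : Matrix (Fin l) (Fin l) ℤ}

theorem BasicInvariants.one_le_d (hA : SimplyLaced A) (B : BasicInvariants A) (j : Fin l) :
    1 ≤ B.d j := by
  by_contra h
  have h0 : B.d j = 0 := by omega
  have hh := B.homog j
  rw [h0, ← totalDegree_zero_iff_isHomogeneous] at hh
  have hC := totalDegree_eq_zero_iff_eq_C.1 hh
  have ht := (algebraicIndependent_P hA B).transcendental j
  apply ht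
  rw [hC]
  exact isAlgebraic_algebraMap _

end Pool.Agent.LS
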