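import Mathlib

/-!
# Definitions used in the statement

The Fock space `M(1)` of rank `l` is the polynomial ring in the variables
`x_{i,n} = √ν α_i(-n)` (`i < l`, `n ≥ 1`); in Lean the variable `x_{i,n+1}` is `X (i, n)`, so
`X a` with `a : Fin l × ℕ` stands for `x_{a.1, a.2+1}`.  The coefficient ring is a commutative
`ℚ`-algebra `k` and `ν : k` is the parameter (`ν = p` in the question, `ν` an indeterminate for
the generic level).
-/

namespace Pool.Agent.LS

open MvPolynomial Finset

/-! ### Cartan matrices and Weyl group invariants -/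

/-- Cartan matrices of simply laced finite type (ADE, possibly decomposable): symmetric, `2` on
the diagonal, `0` or `-1` off the diagonal, positive definite. -/
structure SimplyLaced {l : ℕ} (A : Matrix (Fin l) (Fin l) ℤ) : Prop where
  symm : ∀ i j, A i j = A j i
  diag : ∀ i, A i i = 2
  off : ∀ i j, i ≠ j → A i j = 0 ∨ A i j = -1
  pos : ∀ v : Fin l → ℤ, v ≠ 0 → 0 < ∑ i, ∑ j, v i * A i j * v j

/-- simple reflection `s_i` acting on `Sym(h) = ℂ[α_1, …, α_l]`: `α_j ↦ α_j - A_{ij} α_i` -/
noncomputable def refl {l : ℕ} (A : Matrix (Fin l) (Fin l) ℤ) (i : Fin l) :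
    MvPolynomial (Fin l) ℂ →ₐ[ℂ] MvPolynomial (Fin l) ℂ :=
  aeval (fun j => X j - C (A i j : ℂ) * X i)

/-- A system of basic invariants of the Weyl group (Chevalley): `l` homogeneous invariant
polynomials `P_j` of degrees `d_j` which generate the algebra of invariants. -/
structure BasicInvariants {l : ℕ} (A : Matrix (Fin l) (Fin l) ℤ) where
  d : Fin l → ℕ
  P : Fin l → MvPolynomial (Fin l) ℂ
  homog : ∀ j, (P j).IsHomogeneous (d j)
  inv : ∀ i j, refl A i (P j) = P j
  gen : ∀ f : MvPolynomial (Fin l) ℂ, (∀ i, refl A i f = f) → f ∈ Algebra.adjoin ℂ (Set.range P)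

/-- number of monomials of weight `N` in free generators `(j, k)` of weight `d j + k`,
`j < l`, `k ≥ 0`, i.e. the coefficient of `q^N` in `∏_j ∏_{n ≥ d_j} (1 - q^n)⁻¹` (the dimension of
the weight `N` part of the vacuum module of a vertex algebra freely strongly generated by fields
of conformal weights `d j`) -/
noncomputable def vac {l : ℕ} (d : Fin l → ℕ) (N : ℕ) : ℕ :=
  Nat.card {m : Fin l × ℕ →₀ ℕ // m.sum (fun jk e => e * (d jk.1 + jk.2)) = N}

/-! ### the screening operators -/

section RankOne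

variable {K : Type*} [CommRing K] [Algebra ℚ K]

/-- `P_l`, the coefficient of `z^l` in `exp (∑ x_n z^n / n)`, defined by
`(l+1) P_{l+1} = ∑_{j ≤ l} x_{j+1} P_{l-j}`. -/
noncomputable def PN : ℕ → MvPolynomial ℕ K
  | 0 => 1
  | (l + 1) => C (algebraMap ℚ K (1 / (l + 1))) * ∑ j : Fin (l + 1), X (j : ℕ) * PN (l - j)
decreasing_by
  have := j.2
  omega

/-- `P_l` for an integer index (zero for negative index). -/
noncomputable def PZ : ℤ → MvPolynomial ℕ K
  | Int.ofNat n => PN n
  | Int.negSucc _ => 0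

end RankOne

section Multi

variable {l : ℕ} {k : Type*} [CommRing k] [Algebra ℚ k]

/-- `P_m(x_{i,1}, x_{i,2}, …)`, the coefficient of `z^m` in `exp (∑ x_{i,n} z^n / n)` -/
noncomputable def PA (i : Fin l) (m : ℤ) : MvPolynomial (Fin l × ℕ) k :=
  rename (fun n => (i, n)) (PZ m)

/-- the shift `x_{j,n} ↦ x_{j,n} - ν A_{ij} u^n` (`u = z⁻¹`), i.e. the action of
`exp (-∑_{n ≥ 1} √ν α_i(n) z^{-n} / n)` on the Fock space -/
noncomputable def tauA (A : Matrix (Fin l) (Fin l) ℤ) (ν : k) (i : Fin l) :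
    MvPolynomial (Fin l × ℕ) k →ₐ[k] Polynomial (MvPolynomial (Fin l × ℕ) k) :=
  aeval (fun a => Polynomial.C (X a) - Polynomial.C (C (ν * (A i a.1 : k))) * Polynomial.X ^ (a.2 + 1))

/-- `u^a ↦ P_{a-m}(x_i)`: multiplication by `exp (∑ x_{i,n} z^n / n)` followed by taking the
coefficient of `z^{-m}` -/
noncomputable def sigA (i : Fin l) (m : ℤ) :
    Polynomial (MvPolynomial (Fin l × ℕ) k) →ₗ[MvPolynomial (Fin l × ℕ) k]
      MvPolynomial (Fin l × ℕ) k :=
  Polynomial.lsum (fun a => (PA i (a - m) : MvPolynomial (Fin l × ℕ) k) • LinearMap.id)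

/-- the coefficient of `z^{-m}` of the vertex operator `Y(e^{√ν α_i}, z)` on the Fock space
(charge zero), the target `M(1) ⊗ e^{√ν α_i}` being identified with `M(1)`.  For `m = 1` this is
the screening operator `S_i = e^{√ν α_i}_0`. -/
noncomputable def SA (A : Matrix (Fin l) (Fin l) ℤ) (ν : k) (i : Fin l) (m : ℤ)
    (f : MvPolynomial (Fin l × ℕ) k) : MvPolynomial (Fin l × ℕ) k :=
  sigA i m (tauA A ν i f)

theorem SA_add (A : Matrix (Fin l) (Fin l) ℤ) (ν : k) (i : Fin l) (m : ℤ)
    (f g : MvPolynomial (Fin l × ℕ) k) : SA A ν i m (f + g) = SA A ν i m f + SA A ν i m g := by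
  simp [SA, map_add]

theorem SA_C_mul (A : Matrix (Fin l) (Fin l) ℤ) (ν : k) (i : Fin l) (m : ℤ) (a : k)
    (f : MvPolynomial (Fin l × ℕ) k) : SA A ν i m (C a * f) = C a * SA A ν i m f := by
  unfold SA
  rw [map_mul]
  have h : tauA A ν i (C a) = Polynomial.C (C a) := by
    rw [← algebraMap_eq, AlgHom.commutes]
    rfl
  rw [h, ← Polynomial.smul_eq_C_mul, map_smul, smul_eq_mul]

/-- `SA` as a linear map -/
noncomputable def SAl (A : Matrix (Fin l) (Fin l) ℤ) (ν : k) (i : Fin l) (m : ℤ) :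
    MvPolynomial (Fin l × ℕ) k →ₗ[k] MvPolynomial (Fin l × ℕ) k where
  toFun := SA A ν i m
  map_add' := SA_add A ν i m
  map_smul' := fun a f => by
    rw [smul_eq_C_mul, SA_C_mul, ← smul_eq_C_mul]; rfl

end Multi

/-! ### the common kernels -/

section Family

variable {l : ℕ}

/-- the conformal weight `N` part of the Fock space: `x_{i,n}` has weight `n` -/
abbrev WH (l : ℕ) (k : Type*) [CommRing k] (N : ℕ) : Submodule k (MvPolynomial (Fin l × ℕ) k) :=
  weightedHomogeneousSubmodule k (fun a : Fin l × ℕ => a.2 + 1) N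

/-- the common kernel of the long screenings `e^{√ν α_i}_0` on the Fock space -/
noncomputable def Kplus {k : Type*} [CommRing k] [Algebra ℚ k] (A : Matrix (Fin l) (Fin l) ℤ)
    (ν : k) : Submodule k (MvPolynomial (Fin l × ℕ) k) :=
  ⨅ i, LinearMap.ker (SAl A ν i 1)

/-- the continuation to `ν = p` of the generic common kernel: values at `ν = p` of polynomial
families `F(ν)` which lie in the common kernel for the indeterminate `ν`.  By Feigin and Frenkel
the generic common kernel is the W-algebra at generic level `ν - h^∨`. -/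
noncomputable def Wfam (A : Matrix (Fin l) (Fin l) ℤ) (p : ℂ) :
    Submodule ℂ (MvPolynomial (Fin l × ℕ) ℂ) where
  carrier := {f | ∃ F : MvPolynomial (Fin l × ℕ) (Polynomial ℂ),
    F ∈ Kplus A (Polynomial.X : Polynomial ℂ) ∧ map (Polynomial.evalRingHom p) F = f}
  add_mem' := by
    rintro _ _ ⟨F, hF, rfl⟩ ⟨G, hG, rfl⟩
    exact ⟨F + G, Submodule.add_mem _ hF hG, by rw [map_add]⟩
  zero_mem' := ⟨0, Submodule.zero_mem _, by rw [map_zero]⟩
  smul_mem' := by
    rintro c _ ⟨F, hF, rfl⟩
    refine ⟨C (Polynomial.C c) * F, ?_, ?_⟩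
    · rw [← smul_eq_C_mul]
      exact Submodule.smul_mem _ _ hF
    · rw [map_mul, map_C, smul_eq_C_mul]
      simp

end Family

end Pool.Agent.LS
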