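import Mathlib
import Pool.Agent.LS.Ops
import Pool.Agent.LS.Grade

/-!
# PBW vectors in the Fock space, naturality, leading coefficient
-/

namespace Pool.Agent.LS

open MvPolynomial Finset

set_option linter.unusedSectionVars false

section Nat

variable {K K' : Type*} [CommRing K] [Algebra ℚ K] [CommRing K'] [Algebra ℚ K']

theorem map_PN (φ : K →+* K') (n : ℕ) : map φ (PN n : MvPolynomial ℕ K) = PN n := by
  induction n using Nat.strong_induction_on with
  | _ n ih =>
    cases n with
    | zero => rw [PN_zero, PN_zero, map_one]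
    | succ l =>
      rw [PN, PN, map_mul, map_C, map_sum]
      congr 1
      · congr 1
        have : φ.comp (algebraMap ℚ K) = algebraMap ℚ K' := by
          apply RingHom.ext_rat
        rw [← this]
        rfl
      · apply sum_congr rfl
        intro j _
        rw [map_mul, map_X, ih (l - j) (by omega)]

theorem map_PZ (φ : K →+* K') (l : ℤ) : map φ (PZ l : MvPolynomial ℕ K) = PZ l := by
  rcases lt_or_ge l 0 with h | h
  · rw [PZ_neg h, PZ_neg h, map_zero]
  · obtain ⟨n, rfl⟩ := Int.eq_ofNat_of_zero_le h
    rw [PZ_natCast, PZ_natCast, map_PN]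

theorem map_S (φ : K →+* K') (ν : K) (k : ℤ) (f : MvPolynomial ℕ K) :
    map φ (S ν k f) = S (φ ν) k (map φ f) := by
  induction f using MvPolynomial.induction_on generalizing k with
  | C a => rw [S_C, map_mul, map_C, S_C, map_PZ]
  | add p q hp hq => rw [S_add, map_add, map_add, S_add, hp, hq]
  | mul_X p j ih =>
    rw [mul_comm p (X j), S_X_mul, map_sub, map_mul, map_mul, map_C, map_X, ih, ih,
      map_mul (MvPolynomial.map φ) (X j) p, map_X, S_X_mul, map_mul φ, map_ofNat]

theorem map_qq (φ : K →+* K') (m : ℕ) : map φ (qq m : MvPolynomial ℕ K) = qq m := by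
  cases m with
  | zero => simp [qq]
  | succ m => simp [qq]

theorem map_Dm (φ : K →+* K') (ν : K) (m : ℕ) (f : MvPolynomial ℕ K) :
    map φ (Dm ν m f) = Dm (φ ν) m (map φ f) := by
  induction f using MvPolynomial.induction_on with
  | C a => rw [Dm_C, map_C, Dm_C, map_zero]
  | add p q hp hq => rw [map_add, map_add, map_add, hp, hq, map_add]
  | mul_X p j ih =>
    rw [Derivation.leibniz, smul_eq_mul, smul_eq_mul, map_add, map_mul, map_mul, ih, Dm_X, map_X,
      map_mul, map_C, map_X, map_mul (MvPolynomial.map φ) p (X j), map_X, Derivation.leibniz,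
      smul_eq_mul, smul_eq_mul, Dm_X]
    have h4 : φ 4 = 4 := map_ofNat φ 4
    simp [h4]

theorem map_Lop (φ : K →+* K') (T ν : K) (m : ℕ) (f : MvPolynomial ℕ K) :
    map φ (Lop T ν m f) = Lop (φ T) (φ ν) m (map φ f) := by
  simp only [Lop, map_add, map_mul, map_C, map_X, map_qq, map_Dm, map_ofNat, map_sub, map_one,
    map_natCast]

/-- apply the operators `Lop T ν m`, `m ∈ l` -/
noncomputable def VL (T ν : K) (l : List ℕ) (f : MvPolynomial ℕ K) : MvPolynomial ℕ K :=
  l.foldr (fun m g => Lop T ν m g) f

@[simp] theorem VL_nil (T ν : K) (f : MvPolynomial ℕ K) : VL T ν [] f = f := rfl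

@[simp] theorem VL_cons (T ν : K) (m : ℕ) (l : List ℕ) (f : MvPolynomial ℕ K) :
    VL T ν (m :: l) f = Lop T ν m (VL T ν l f) := rfl

theorem map_VL (φ : K →+* K') (T ν : K) (l : List ℕ) (f : MvPolynomial ℕ K) :
    map φ (VL T ν l f) = VL (φ T) (φ ν) l (map φ f) := by
  induction l with
  | nil => simp
  | cons m l ih => rw [VL_cons, VL_cons, map_Lop, ih]

theorem Lop_zero_arg (T ν : K) (m : ℕ) : Lop T ν m 0 = 0 := by
  simp [Lop]

theorem Lop_sum {ι : Type*} (T ν : K) (m : ℕ) (s : Finset ι) (f : ι → MvPolynomial ℕ K) :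
    Lop T ν m (∑ i ∈ s, f i) = ∑ i ∈ s, Lop T ν m (f i) := by
  classical
  induction s using Finset.induction_on with
  | empty => simp [Lop_zero_arg]
  | insert a s ha ih => rw [sum_insert ha, sum_insert ha, Lop_add, ih]

theorem VL_add (T ν : K) (l : List ℕ) (f g : MvPolynomial ℕ K) :
    VL T ν l (f + g) = VL T ν l f + VL T ν l g := by
  induction l with
  | nil => rfl
  | cons m l ih => rw [VL_cons, VL_cons, VL_cons, ih, Lop_add]

theorem VL_C_mul (T ν : K) (l : List ℕ) (a : K) (f : MvPolynomial ℕ K) :
    VL T ν l (C a * f) = C a * VL T ν l f := by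
  induction l with
  | nil => rfl
  | cons m l ih => rw [VL_cons, VL_cons, ih, Lop_C_mul]

theorem HZ.vl (T ν : K) (l : List ℕ) {w : ℤ} {f : MvPolynomial ℕ K} (hf : HZ w f) :
    HZ (w + (l.map (fun m : ℕ => ((m : ℤ) + 1))).sum) (VL T ν l f) := by
  induction l with
  | nil => simpa using hf
  | cons m l ih =>
    rw [VL_cons, List.map_cons, List.sum_cons]
    exact (ih.lop T ν m).congr (by ring)

/-- intertwining property of the vertex operator mode with `k = T + 1`. -/
theorem S_VL (T ν : K) (k : ℤ) (hk : (k : K) = T + 1) (l : List ℕ) (f : MvPolynomial ℕ K) :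
    S ν k (VL T ν l f) = VL (T + 2 * ν) ν l (S ν k f) := by
  induction l with
  | nil => rfl
  | cons m l ih =>
    rw [VL_cons, VL_cons, comm, ih]
    have : (k : K) - 1 - T = 0 := by rw [hk]; ring
    rw [this, mul_zero, C_0, zero_mul, add_zero]

end Nat

section Part

/-- exponent vector of a partition; the part `a` corresponds to the variable `a - 1`. -/
noncomputable def expo {N : ℕ} (lam : Nat.Partition N) : ℕ →₀ ℕ :=
  Multiset.toFinsupp (lam.parts.map (· - 1))

/-- list of the parts minus one -/
noncomputable def lst {N : ℕ} (lam : Nat.Partition N) : List ℕ :=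
  (lam.parts.map (· - 1)).toList

theorem lst_length {N : ℕ} (lam : Nat.Partition N) : (lst lam).length = Multiset.card lam.parts := by
  simp [lst]

theorem wtm_toFinsupp (s : Multiset ℕ) :
    wtm (Multiset.toFinsupp s) = (s.map (· + 1)).sum := by
  induction s using Multiset.induction_on with
  | empty => simp
  | cons a s ih =>
    have : Multiset.toFinsupp (a ::ₘ s) = Finsupp.single a 1 + Multiset.toFinsupp s := by
      rw [← Multiset.singleton_add, map_add, Multiset.toFinsupp_singleton]
    rw [this, wtm_add, wtm_single, ih]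
    simp

theorem wtm_expo {N : ℕ} (lam : Nat.Partition N) : wtm (expo lam) = N := by
  rw [expo, wtm_toFinsupp, Multiset.map_map]
  have : (lam.parts.map ((fun x => x + 1) ∘ fun x => x - 1)) = lam.parts := by
    conv_rhs => rw [← Multiset.map_id lam.parts]
    apply Multiset.map_congr rfl
    intro x hx
    have := lam.parts_pos hx
    simp only [Function.comp_apply, id]
    omega
  rw [this, lam.parts_sum]

theorem expo_injective {N : ℕ} : Function.Injective (expo : Nat.Partition N → (ℕ →₀ ℕ)) := by
  intro lam mu h
  rw [expo, expo] at h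
  have h2 : lam.parts.map (· - 1) = mu.parts.map (· - 1) := Multiset.toFinsupp.injective h
  have h3 := congrArg (Multiset.map (· + 1)) h2
  rw [Multiset.map_map, Multiset.map_map] at h3
  have key : ∀ kap : Nat.Partition N,
      (kap.parts.map ((fun x => x + 1) ∘ fun x => x - 1)) = kap.parts := by
    intro kap
    conv_rhs => rw [← Multiset.map_id kap.parts]
    apply Multiset.map_congr rfl
    intro x hx
    have := kap.parts_pos hx
    simp only [Function.comp_apply, id]
    omega
  rw [key, key] at h3
  exact Nat.Partition.ext h3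

theorem exists_expo {N : ℕ} (d : ℕ →₀ ℕ) (hd : wtm d = N) : ∃ lam : Nat.Partition N, expo lam = d := by
  refine ⟨⟨(Finsupp.toMultiset d).map (· + 1), ?_, ?_⟩, ?_⟩
  · intro i hi
    rw [Multiset.mem_map] at hi
    obtain ⟨a, _, rfl⟩ := hi
    omega
  · have h := wtm_toFinsupp (Finsupp.toMultiset d)
    rw [Finsupp.toMultiset_toFinsupp] at h
    rw [← h, hd]
  · rw [expo]
    simp only [Multiset.map_map]
    have : ((Finsupp.toMultiset d).map ((fun x => x - 1) ∘ fun x => x + 1)) = Finsupp.toMultiset d := by
      conv_rhs => rw [← Multiset.map_id (Finsupp.toMultiset d)]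
      apply Multiset.map_congr rfl
      intro x _
      simp
    rw [this, Finsupp.toMultiset_toFinsupp]

variable {K : Type*} [CommRing K]

theorem prod_X_list (l : List ℕ) :
    (l.map (fun m => (X m : MvPolynomial ℕ K))).prod
      = monomial (Multiset.toFinsupp (l : Multiset ℕ)) 1 := by
  induction l with
  | nil => simp
  | cons m l ih =>
    rw [List.map_cons, List.prod_cons, ih]
    have : Multiset.toFinsupp ((m :: l : List ℕ) : Multiset ℕ)
        = Finsupp.single m 1 + Multiset.toFinsupp (l : Multiset ℕ) := by
      rw [← Multiset.cons_coe, ← Multiset.singleton_add, map_add, Multiset.toFinsupp_singleton]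
    rw [this, monomial_single_add, pow_one]

theorem prod_X_lst {N : ℕ} (lam : Nat.Partition N) :
    ((lst lam).map (fun m => (X m : MvPolynomial ℕ K))).prod = monomial (expo lam) 1 := by
  rw [prod_X_list, lst, expo, Multiset.coe_toList]

theorem sum_lst {N : ℕ} (lam : Nat.Partition N) :
    ((lst lam).map (fun m : ℕ => ((m : ℤ) + 1))).sum = N := by
  have h1 : ((lst lam).map (fun m => m + 1)).sum = N := by
    have h := wtm_expo lam
    rw [expo, wtm_toFinsupp] at h
    rw [← Multiset.sum_coe, ← Multiset.map_coe, lst, Multiset.coe_toList]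
    exact h
  have h2 : ((lst lam).map (fun m : ℕ => ((m : ℤ) + 1))) = (((lst lam).map (fun m => m + 1)).map (fun n : ℕ => (n : ℤ))) := by
    rw [List.map_map]
    apply List.map_congr_left
    intro a _
    simp
  rw [h2]
  have h3 : ∀ l : List ℕ, (l.map (fun n : ℕ => (n : ℤ))).sum = ((l.sum : ℕ) : ℤ) := by
    intro l
    induction l with
    | nil => rfl
    | cons a l ih => rw [List.map_cons, List.sum_cons, ih, List.sum_cons]; push_cast; rfl
  rw [h3, h1]

/-- expansion of a homogeneous polynomial in monomials indexed by partitions -/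
theorem HZ.eq_sum {N : ℕ} {f : MvPolynomial ℕ K} (hf : HZ (N : ℤ) f) :
    f = ∑ lam : Nat.Partition N, C (coeff (expo lam) f) * monomial (expo lam) 1 := by
  classical
  ext d
  rw [coeff_sum]
  by_cases hd : wtm d = N
  · obtain ⟨mu, rfl⟩ := exists_expo d hd
    rw [Finset.sum_eq_single mu]
    · rw [coeff_C_mul, coeff_monomial, if_pos rfl, mul_one]
    · intro lam _ hne
      rw [coeff_C_mul, coeff_monomial, if_neg (fun h => hne (expo_injective h)), mul_zero]
    · intro h
      exact absurd (Finset.mem_univ mu) h
  · have h1 : coeff d f = 0 := by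
      by_contra h
      exact hd (by exact_mod_cast hf d h)
    rw [h1]
    symm
    apply sum_eq_zero
    intro lam _
    rw [coeff_C_mul, coeff_monomial, if_neg, mul_zero]
    intro h
    exact hd (by rw [← h, wtm_expo])

theorem hz_monomial (d : ℕ →₀ ℕ) (a : K) : HZ (wtm d : ℤ) (monomial d a) := by
  classical
  intro e he
  rw [coeff_monomial] at he
  by_cases h : d = e
  · rw [h]
  · simp [h] at he

end Part

section Lead

variable {K : Type*} [CommRing K] [Algebra ℚ K]

theorem Lop_split (T ν : K) (m : ℕ) (f : MvPolynomial ℕ K) :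
    Lop T ν m f = C (2 * T) * X m * f + Lop 0 ν m f := by
  simp only [Lop]
  have : C (2 * (T + m * (ν - 1))) = (C (2 * T) + C (2 * (0 + m * (ν - 1))) : MvPolynomial ℕ K) := by
    rw [← C_add]
    congr 1
    ring
  rw [this]
  ring

/-- the PBW vector as a polynomial in `T` -/
theorem VL_lead (ν : K) (l : List ℕ) :
    ∃ c : ℕ → MvPolynomial ℕ K,
      VL (Polynomial.X : Polynomial K) (Polynomial.C ν) l 1
        = C ((Polynomial.C 2 * Polynomial.X) ^ l.length) * (l.map (fun m => X m)).prod
          + ∑ j ∈ range l.length, C (Polynomial.X ^ j) * map Polynomial.C (c j) := by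
  induction l with
  | nil => exact ⟨fun _ => 0, by simp⟩
  | cons m l ih =>
    obtain ⟨c, hc⟩ := ih
    have hL0 : ∀ g : MvPolynomial ℕ K, Lop 0 (Polynomial.C ν) m (map Polynomial.C g)
        = map (Polynomial.C : K →+* Polynomial K) (Lop 0 ν m g) := by
      intro g
      rw [map_Lop, map_zero]
    have hprod : ((l.map (fun m => (X m : MvPolynomial ℕ (Polynomial K)))).prod)
        = map (Polynomial.C : K →+* Polynomial K) ((l.map (fun m => (X m : MvPolynomial ℕ K))).prod) := by
      rw [map_list_prod, List.map_map]
      congr 1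
      apply List.map_congr_left
      intro a _
      simp
    refine ⟨fun j => (if j = 0 then 0 else C 2 * X m * c (j - 1)) +
        (if j = l.length then C (2 ^ l.length) * Lop 0 ν m ((l.map (fun m => (X m : MvPolynomial ℕ K))).prod)
          else Lop 0 ν m (c j)), ?_⟩
    rw [VL_cons, Lop_split, hc, Lop_add, Lop_C_mul, Lop_sum, hprod, hL0]
    have e1 : ∀ j ∈ range l.length, Lop 0 (Polynomial.C ν) m
        (C (Polynomial.X ^ j) * map (Polynomial.C : K →+* Polynomial K) (c j))
        = C (Polynomial.X ^ j) * map (Polynomial.C : K →+* Polynomial K) (Lop 0 ν m (c j)) := by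
      intro j _
      rw [Lop_C_mul, hL0]
    rw [sum_congr rfl e1, List.length_cons, List.map_cons, List.prod_cons]
    have e2 : ∀ j ∈ range (l.length + 1), (C (Polynomial.X ^ j) * map (Polynomial.C : K →+* Polynomial K)
        ((if j = 0 then 0 else C 2 * X m * c (j - 1)) +
        (if j = l.length then C (2 ^ l.length) * Lop 0 ν m ((l.map (fun m => (X m : MvPolynomial ℕ K))).prod)
          else Lop 0 ν m (c j))) : MvPolynomial ℕ (Polynomial K))
        = C (Polynomial.X ^ j) * map (Polynomial.C : K →+* Polynomial K)
            (if j = 0 then 0 else C 2 * X m * c (j - 1))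
          + C (Polynomial.X ^ j) * map (Polynomial.C : K →+* Polynomial K)
        (if j = l.length then C (2 ^ l.length) * Lop 0 ν m ((l.map (fun m => (X m : MvPolynomial ℕ K))).prod)
          else Lop 0 ν m (c j)) := by
      intro j _
      rw [map_add, mul_add]
    rw [sum_congr rfl e2, sum_add_distrib]
    have e3 : ∑ j ∈ range (l.length + 1), (C (Polynomial.X ^ j) * map (Polynomial.C : K →+* Polynomial K)
            (if j = 0 then 0 else C 2 * X m * c (j - 1)) : MvPolynomial ℕ (Polynomial K))
        = C (Polynomial.C 2 * Polynomial.X) * X m * ∑ j ∈ range l.length,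
            C (Polynomial.X ^ j) * map (Polynomial.C : K →+* Polynomial K) (c j) := by
      rw [sum_range_succ', mul_sum]
      simp only [if_true, map_zero, mul_zero, add_zero]
      apply sum_congr rfl
      intro j _
      rw [if_neg (Nat.succ_ne_zero j), Nat.add_sub_cancel, map_mul, map_mul, map_C, map_X, pow_succ,
        C_mul, C_mul]
      ring
    have e4 : ∑ j ∈ range (l.length + 1), (C (Polynomial.X ^ j) * map (Polynomial.C : K →+* Polynomial K)
        (if j = l.length then C (2 ^ l.length) * Lop 0 ν m ((l.map (fun m => (X m : MvPolynomial ℕ K))).prod)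
          else Lop 0 ν m (c j)) : MvPolynomial ℕ (Polynomial K))
        = (∑ j ∈ range l.length, C (Polynomial.X ^ j) * map (Polynomial.C : K →+* Polynomial K) (Lop 0 ν m (c j)))
          + C ((Polynomial.C 2 * Polynomial.X) ^ l.length) *
            map (Polynomial.C : K →+* Polynomial K) (Lop 0 ν m ((l.map (fun m => (X m : MvPolynomial ℕ K))).prod)) := by
      rw [sum_range_succ, if_pos rfl]
      congr 1
      · apply sum_congr rfl
        intro j hj
        rw [mem_range] at hj
        rw [if_neg (by omega)]
      · rw [map_mul, map_C, mul_pow, C_mul, ← map_pow Polynomial.C]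
        ring
    rw [e3, e4]
    have e5 : C (2 * (Polynomial.X : Polynomial K)) = (C (Polynomial.C 2 * Polynomial.X) : MvPolynomial ℕ (Polynomial K)) := by
      congr 1
    have e6 : (C ((Polynomial.C 2 * Polynomial.X) ^ (l.length + 1)) : MvPolynomial ℕ (Polynomial K))
        = C ((Polynomial.C 2 * Polynomial.X) ^ l.length) * C (Polynomial.C 2 * Polynomial.X) := by
      rw [pow_succ, C_mul]
    rw [e5, e6, ← hprod]
    ring

/-- matrix of PBW vectors in the monomial basis -/
noncomputable def AM (T ν : K) (N : ℕ) : Matrix (Nat.Partition N) (Nat.Partition N) K :=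
  Matrix.of fun lam mu => coeff (expo mu) (VL T ν (lst lam) 1)

theorem AM_natDegree (ν : K) (N : ℕ) (lam mu : Nat.Partition N) :
    (AM (Polynomial.X : Polynomial K) (Polynomial.C ν) N lam mu).natDegree
      ≤ Multiset.card lam.parts := by
  classical
  obtain ⟨c, hc⟩ := VL_lead ν (lst lam)
  rw [AM, Matrix.of_apply, hc, coeff_add, coeff_C_mul, coeff_sum, lst_length, prod_X_lst, coeff_monomial]
  apply Polynomial.natDegree_add_le_of_degree_le
  · rw [mul_pow, ← map_pow]
    refine (Polynomial.natDegree_mul_le).trans ?_
    have h1 : (Polynomial.C ((2 : K) ^ (Multiset.card lam.parts)) * Polynomial.X ^ (Multiset.card lam.parts)).natDegree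
        ≤ Multiset.card lam.parts := Polynomial.natDegree_C_mul_X_pow_le _ _
    have h2 : (if expo lam = expo mu then (1 : Polynomial K) else 0).natDegree = 0 := by
      split_ifs
      · exact Polynomial.natDegree_one
      · exact Polynomial.natDegree_zero
    omega
  · apply Polynomial.natDegree_sum_le_of_forall_le
    intro j hj
    rw [mem_range] at hj
    rw [coeff_C_mul, coeff_map]
    refine (Polynomial.natDegree_mul_le).trans ?_
    rw [Polynomial.natDegree_C]
    have := Polynomial.natDegree_X_pow_le (R := K) j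
    omega

theorem AM_coeff (ν : K) (N : ℕ) (lam mu : Nat.Partition N) :
    (AM (Polynomial.X : Polynomial K) (Polynomial.C ν) N lam mu).coeff (Multiset.card lam.parts)
      = if lam = mu then 2 ^ (Multiset.card lam.parts) else 0 := by
  classical
  obtain ⟨c, hc⟩ := VL_lead ν (lst lam)
  rw [AM, Matrix.of_apply, hc, coeff_add, coeff_C_mul, coeff_sum, lst_length, prod_X_lst, coeff_monomial,
    Polynomial.coeff_add, Polynomial.finsetSum_coeff]
  have h1 : ∑ j ∈ range (Multiset.card lam.parts), (coeff (expo mu)
      ((C (Polynomial.X ^ j) * map Polynomial.C (c j) : MvPolynomial ℕ (Polynomial K)))).coeff (Multiset.card lam.parts) = 0 := by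
    apply sum_eq_zero
    intro j hj
    rw [mem_range] at hj
    rw [coeff_C_mul, coeff_map, Polynomial.coeff_mul_C, Polynomial.coeff_X_pow, if_neg (by omega), zero_mul]
  rw [h1, add_zero, mul_pow, ← map_pow]
  by_cases h : lam = mu
  · subst h
    rw [if_pos rfl, if_pos rfl, mul_one, Polynomial.coeff_C_mul, Polynomial.coeff_X_pow, if_pos rfl, mul_one]
  · rw [if_neg h, if_neg (fun h' => h (expo_injective h')), mul_zero, Polynomial.coeff_zero]

end Lead

end Pool.Agent.LS
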