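import Mathlib
import Pool.Agent.LS.Comb
import Pool.Agent.LS.Const
import Pool.Agent.LS.Fock

/-!
# The Fock space determinant
-/

namespace Pool.Agent.LS

open MvPolynomial Finset

set_option linter.unusedSectionVars false

section General

variable {K K' : Type*} [CommRing K] [Algebra ℚ K] [CommRing K'] [Algebra ℚ K']

/-- the determinant, a polynomial in `T` -/
noncomputable def DN (ν : K) (N : ℕ) : Polynomial K :=
  (AM (Polynomial.X : Polynomial K) (Polynomial.C ν) N).det

/-- the product -/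
noncomputable def FN (ν : K) (N : ℕ) : Polynomial K :=
  ∏ rs ∈ II N, (Polynomial.C 2 * (Polynomial.X
    - Polynomial.C (ν * (1 - rs.1) + (rs.2 - 1)))) ^ pN (N - rs.1 * rs.2)

theorem map_AM (φ : K →+* K') (T ν : K) (N : ℕ) :
    (AM T ν N).map φ = AM (φ T) (φ ν) N := by
  ext lam mu
  rw [Matrix.map_apply, AM, AM, Matrix.of_apply, Matrix.of_apply, ← coeff_map, map_VL, map_one]

theorem eval_AM (t0 ν : K) (N : ℕ) (lam mu : Nat.Partition N) :
    (AM (Polynomial.X : Polynomial K) (Polynomial.C ν) N lam mu).eval t0 = AM t0 ν N lam mu := by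
  have h := map_AM (Polynomial.evalRingHom t0) (Polynomial.X : Polynomial K) (Polynomial.C ν) N
  have h2 := congrFun (congrFun h lam) mu
  rw [Matrix.map_apply] at h2
  simpa using h2

theorem eval_DN (t0 ν : K) (N : ℕ) : (DN ν N).eval t0 = (AM t0 ν N).det := by
  have h := map_AM (Polynomial.evalRingHom t0) (Polynomial.X : Polynomial K) (Polynomial.C ν) N
  rw [DN]
  have h2 := RingHom.map_det (Polynomial.evalRingHom t0) (AM (Polynomial.X : Polynomial K) (Polynomial.C ν) N)
  rw [RingHom.mapMatrix_apply, h] at h2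
  simpa using h2

theorem map_DN (φ : K →+* K') (ν : K) (N : ℕ) : (DN ν N).map φ = DN (φ ν) N := by
  have h := map_AM (Polynomial.mapRingHom φ) (Polynomial.X : Polynomial K) (Polynomial.C ν) N
  have h2 := RingHom.map_det (Polynomial.mapRingHom φ) (AM (Polynomial.X : Polynomial K) (Polynomial.C ν) N)
  rw [RingHom.mapMatrix_apply, h] at h2
  rw [DN, DN]
  simpa using h2

theorem map_FN (φ : K →+* K') (ν : K) (N : ℕ) : (FN ν N).map φ = FN (φ ν) N := by
  rw [FN, FN, Polynomial.map_prod]
  apply prod_congr rfl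
  intro rs _
  have h2 : φ 2 = 2 := map_ofNat φ 2
  simp [Polynomial.map_pow, Polynomial.map_mul, Polynomial.map_sub, h2]

theorem DN_natDegree (ν : K) (N : ℕ) :
    (DN ν N).natDegree ≤ ∑ lam : Nat.Partition N, Multiset.card lam.parts :=
  natDegree_det_le _ _ (AM_natDegree ν N)

theorem DN_coeff (ν : K) (N : ℕ) :
    (DN ν N).coeff (∑ lam : Nat.Partition N, Multiset.card lam.parts)
      = 2 ^ (∑ lam : Nat.Partition N, Multiset.card lam.parts) := by
  rw [DN, coeff_det_of_natDegree_le _ _ (AM_natDegree ν N)]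
  have : (Matrix.of fun i j => ((AM (Polynomial.X : Polynomial K) (Polynomial.C ν) N) i j).coeff
      (Multiset.card i.parts)) = Matrix.diagonal (fun lam : Nat.Partition N => (2 : K) ^ (Multiset.card lam.parts)) := by
    ext i j
    rw [Matrix.of_apply, AM_coeff, Matrix.diagonal_apply]
  rw [this, Matrix.det_diagonal, ← Finset.prod_pow_eq_pow_sum]

end General

section SitLemmas

theorem Sit_add (p : ℕ) (k : ℤ) (r : ℕ) (f g : MvPolynomial ℕ ℚ) :
    Sit p k r (f + g) = Sit p k r f + Sit p k r g := by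
  induction r with
  | zero => rfl
  | succ r ih => rw [Sit, Sit, Sit, ih, S_add]

theorem Sit_C_mul (p : ℕ) (k : ℤ) (r : ℕ) (a : ℚ) (f : MvPolynomial ℕ ℚ) :
    Sit p k r (C a * f) = C a * Sit p k r f := by
  induction r with
  | zero => rfl
  | succ r ih => rw [Sit, Sit, ih, S_C_mul]

theorem Sit_zero (p : ℕ) (k : ℤ) (r : ℕ) : Sit p k r 0 = 0 := by
  induction r with
  | zero => rfl
  | succ r ih => rw [Sit, ih, S_zero]

theorem Sit_sum {ι : Type*} (p : ℕ) (k : ℤ) (r : ℕ) (s : Finset ι) (f : ι → MvPolynomial ℕ ℚ) :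
    Sit p k r (∑ i ∈ s, f i) = ∑ i ∈ s, Sit p k r (f i) := by
  classical
  induction s using Finset.induction_on with
  | empty => simp [Sit_zero]
  | insert a s ha ih => rw [sum_insert ha, sum_insert ha, Sit_add, ih]

theorem HZ.sit (p : ℕ) (k : ℤ) (r : ℕ) {w : ℤ} {f : MvPolynomial ℕ ℚ} (hf : HZ w f) :
    HZ (w - (r * k + p * (r * (r - 1)))) (Sit p k r f) := by
  induction r with
  | zero => exact hf.congr (by simp)
  | succ r ih =>
    rw [Sit]
    refine (ih.smap _ _).congr ?_
    push_cast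
    ring

theorem Sit_VL (p : ℕ) (k : ℤ) (T : ℚ) (hk : (k : ℚ) = T + 1) (r : ℕ) (l : List ℕ)
    (f : MvPolynomial ℕ ℚ) :
    Sit p k r (VL T p l f) = VL (T + 2 * p * r) p l (Sit p k r f) := by
  induction r with
  | zero => simp [Sit]
  | succ r ih =>
    rw [Sit, Sit, ih, S_VL (T + 2 * p * r) (p : ℚ) (k + 2 * p * r)]
    · congr 1
      push_cast
      ring
    · push_cast
      rw [hk]
      ring

theorem hz_zero_eq_C {K : Type*} [CommRing K] [Algebra ℚ K] {f : MvPolynomial ℕ K} (hf : HZ 0 f) :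
    f = C (constantCoeff f) := by
  classical
  ext d
  rw [coeff_C]
  by_cases hd : 0 = d
  · rw [if_pos hd, ← hd]
    rfl
  · rw [if_neg hd]
    by_contra h
    have h1 := hf d h
    apply hd
    have h2 : wtm d = 0 := by exact_mod_cast h1
    unfold wtm Finsupp.sum at h2
    rw [Finset.sum_eq_zero_iff] at h2
    ext n
    by_contra hn
    have h3 := h2 n (Finsupp.mem_support_iff.2 (by simpa using (Ne.symm hn)))
    simp only [Nat.mul_eq_zero, Nat.add_eq_zero_iff, one_ne_zero, and_false, or_false] at h3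
    simp at hn
    exact hn h3.symm

end SitLemmas

section Main

theorem mem_II {N : ℕ} {rs : ℕ × ℕ} : rs ∈ II N ↔ 1 ≤ rs.1 ∧ 1 ≤ rs.2 ∧ rs.1 * rs.2 ≤ N := by
  unfold II
  rw [mem_filter, mem_product, mem_Icc, mem_Icc]
  constructor
  · rintro ⟨⟨⟨h1, _⟩, ⟨h2, _⟩⟩, h3⟩
    exact ⟨h1, h2, h3⟩
  · rintro ⟨h1, h2, h3⟩
    refine ⟨⟨⟨h1, ?_⟩, ⟨h2, ?_⟩⟩, h3⟩
    · nlinarith
    · nlinarith

theorem dvd_DN (N p : ℕ) (hp : N < p) (r s : ℕ) (hrs : (r, s) ∈ II N)
    (ih : DN (p : ℚ) (N - r * s) = FN (p : ℚ) (N - r * s)) :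
    (Polynomial.X - Polynomial.C ((p : ℚ) * (1 - r) + (s - 1))) ^ pN (N - r * s) ∣ DN (p : ℚ) N := by
  obtain ⟨hr, hs, hN⟩ := mem_II.1 hrs
  simp only at hr hs hN
  set t0 : ℚ := (p : ℚ) * (1 - r) + (s - 1) with ht0
  set k : ℤ := (p : ℤ) * (1 - r) + s with hk
  have hkT : (k : ℚ) = t0 + 1 := by rw [hk, ht0]; push_cast; ring
  set T' : ℚ := t0 + 2 * p * r with hT'
  obtain ⟨w, hw, hc⟩ := exists_Sit_const p (by omega) r s hr hs
  rw [← hk] at hc
  set c : ℚ := constantCoeff (Sit p k r w) with hcdef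
  have hwC : Sit p k r w = C c := by
    apply hz_zero_eq_C
    refine (hw.sit p k r).congr ?_
    rw [hk]; ring
  have hone : Sit p k r 1 = 0 := by
    apply (hz_one.sit p k r).eq_zero
    have : (r : ℤ) * k + p * (r * (r - 1)) = r * s := by rw [hk]; ring
    rw [this]
    have : (0 : ℤ) < r * s := by positivity
    omega
  -- invertibility on the target
  have hdet : (AM T' (p : ℚ) (N - r * s)).det ≠ 0 := by
    rw [← eval_DN, ih, FN, Polynomial.eval_prod]
    rw [prod_ne_zero_iff]
    intro ab hab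
    obtain ⟨ha, hb, hab'⟩ := mem_II.1 hab
    rw [Polynomial.eval_pow]
    apply pow_ne_zero
    simp only [Polynomial.eval_mul, Polynomial.eval_sub, Polynomial.eval_X, Polynomial.eval_C]
    apply mul_ne_zero two_ne_zero
    have h1 : ab.2 ≤ N := by nlinarith [Nat.sub_le N (r * s)]
    have h2 : (ab.2 : ℚ) < p := by exact_mod_cast lt_of_le_of_lt h1 hp
    have h3 : (0 : ℚ) ≤ (r : ℚ) - 1 := by
      have : (1 : ℚ) ≤ r := by exact_mod_cast hr
      linarith
    have h4 : (1 : ℚ) ≤ ab.1 := by exact_mod_cast ha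
    have h5 : (1 : ℚ) ≤ s := by exact_mod_cast hs
    have hp0 : (0 : ℚ) < p := by exact_mod_cast (lt_of_le_of_lt (Nat.zero_le N) hp)
    have : T' - ((p : ℚ) * (1 - ab.1) + (ab.2 - 1)) = p * ((r - 1) + ab.1) + (s - 1) + (p - ab.2) + 1 := by
      rw [hT', ht0]; ring
    rw [this]
    have h6 : 0 ≤ (p : ℚ) * ((r - 1) + ab.1) := by positivity
    have h7 : (0 : ℚ) ≤ s - 1 := by linarith
    have h8 : (0 : ℚ) < p - ab.2 := by linarith
    have : 0 < (p : ℚ) * ((r - 1) + ab.1) + (s - 1) + (p - ab.2) + 1 := by linarith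
    exact this.ne'
  have hunit : IsUnit (AM T' (p : ℚ) (N - r * s)).det := isUnit_iff_ne_zero.2 hdet
  -- the functionals
  have hlin : ∀ (g : MvPolynomial ℕ ℚ), HZ (N : ℤ) g → ∀ mu : Nat.Partition (N - r * s),
      coeff (expo mu) (Sit p k r g) = ∑ kap : Nat.Partition N, coeff (expo kap) g *
        coeff (expo mu) (Sit p k r (monomial (expo kap) 1)) := by
    intro g hg mu
    conv_lhs => rw [hg.eq_sum]
    rw [Sit_sum, coeff_sum]
    apply sum_congr rfl
    intro kap _
    rw [Sit_C_mul, coeff_C_mul]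
  have hcard : Fintype.card (Nat.Partition (N - r * s)) = pN (N - r * s) := rfl
  rw [← hcard, DN]
  apply pow_dvd_det_of_corank _ t0 (fun (mu : Nat.Partition (N - r * s)) (kap : Nat.Partition N) =>
        coeff (expo mu) (Sit p k r (monomial (expo kap) 1)))
  · -- linear independence
    rw [Fintype.linearIndependent_iff]
    intro a ha mu0
    -- preimage of the monomial
    have hinv : ∀ mu : Nat.Partition (N - r * s), ∑ lam, ((AM T' (p : ℚ) (N - r * s))⁻¹ mu0 lam) *
        (AM T' (p : ℚ) (N - r * s)) lam mu = if mu0 = mu then 1 else 0 := by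
      intro mu
      have := Matrix.nonsing_inv_mul _ hunit
      have h2 := congrFun (congrFun this mu0) mu
      rw [Matrix.mul_apply, Matrix.one_apply] at h2
      exact h2
    set g : MvPolynomial ℕ ℚ := ∑ lam : Nat.Partition (N - r * s),
      C (((AM T' (p : ℚ) (N - r * s))⁻¹ mu0 lam) * c⁻¹) * VL t0 p (lst lam) w with hg
    have hgz : HZ (N : ℤ) g := by
      apply HZ.sum
      intro lam _
      apply HZ.c_mul
      refine (hw.vl t0 p (lst lam)).congr ?_
      rw [sum_lst]
      have : (((N - r * s : ℕ)) : ℤ) = (N : ℤ) - r * s := by push_cast [Nat.cast_sub hN]; ring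
      rw [this]
      ring
    have hSg : Sit p k r g = ∑ lam : Nat.Partition (N - r * s),
        C ((AM T' (p : ℚ) (N - r * s))⁻¹ mu0 lam) * VL T' p (lst lam) 1 := by
      rw [hg, Sit_sum]
      apply sum_congr rfl
      intro lam _
      rw [Sit_C_mul, Sit_VL p k t0 hkT, hwC]
      have : (C c : MvPolynomial ℕ ℚ) = C c * 1 := by rw [mul_one]
      rw [this, VL_C_mul, ← mul_assoc, ← C_mul, mul_assoc, inv_mul_cancel₀ hc, mul_one]
    have hcoef : ∀ mu : Nat.Partition (N - r * s), coeff (expo mu) (Sit p k r g)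
        = if mu0 = mu then 1 else 0 := by
      intro mu
      rw [hSg, coeff_sum, ← hinv mu]
      apply sum_congr rfl
      intro lam _
      rw [coeff_C_mul]
      rfl
    have h1 : ∑ mu : Nat.Partition (N - r * s), a mu * coeff (expo mu) (Sit p k r g) = a mu0 := by
      simp_rw [hcoef]
      simp
    rw [← h1]
    simp_rw [hlin g hgz, mul_sum]
    rw [sum_comm]
    apply sum_eq_zero
    intro kap _
    have h2 := congrFun ha kap
    rw [Finset.sum_apply, Pi.zero_apply] at h2
    calc ∑ mu : Nat.Partition (N - r * s), a mu * (coeff (expo kap) g *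
          coeff (expo mu) (Sit p k r (monomial (expo kap) 1)))
        = coeff (expo kap) g * ∑ mu : Nat.Partition (N - r * s), a mu *
          coeff (expo mu) (Sit p k r (monomial (expo kap) 1)) := by
          rw [mul_sum]
          apply sum_congr rfl
          intro mu _
          ring
      _ = 0 := by
          have h3 : ∑ mu : Nat.Partition (N - r * s), a mu *
              coeff (expo mu) (Sit p k r (monomial (expo kap) 1)) = 0 := by
            rw [← h2]
            apply sum_congr rfl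
            intro mu _
            rfl
          rw [h3, mul_zero]
  · intro lam mu
    have hv : HZ (N : ℤ) (VL t0 (p : ℚ) (lst lam) 1) := by
      refine (hz_one.vl t0 (p : ℚ) (lst lam)).congr ?_
      rw [sum_lst]; ring
    have h1 := hlin _ hv mu
    rw [Sit_VL p k t0 hkT, hone] at h1
    have h2 : VL (t0 + 2 * p * r) (p : ℚ) (lst lam) 0 = 0 := by
      have : (0 : MvPolynomial ℕ ℚ) = C 0 * 0 := by simp
      rw [this, VL_C_mul]
      simp
    rw [h2, coeff_zero] at h1
    rw [h1]
    apply sum_congr rfl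
    intro kap _
    rw [eval_AM]
    rfl

theorem DN_nat (N : ℕ) (ih : ∀ N' < N, DN (Polynomial.X : Polynomial ℚ) N' = FN Polynomial.X N')
    (p : ℕ) (hp : N < p) : DN (p : ℚ) N = FN (p : ℚ) N := by
  have ih' : ∀ N' < N, DN (p : ℚ) N' = FN (p : ℚ) N' := by
    intro N' hN'
    have h := congrArg (Polynomial.map (Polynomial.evalRingHom (p : ℚ))) (ih N' hN')
    rw [map_DN, map_FN] at h
    simpa using h
  have hinj : Set.InjOn (fun rs : ℕ × ℕ => (p : ℚ) * (1 - rs.1) + (rs.2 - 1)) (II N : Set (ℕ × ℕ)) := by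
    intro ab hab cd hcd h
    simp only at h
    obtain ⟨ha, hb, hab'⟩ := mem_II.1 (Finset.mem_coe.1 hab)
    obtain ⟨hc, hd, hcd'⟩ := mem_II.1 (Finset.mem_coe.1 hcd)
    have hbN : ab.2 ≤ N := by nlinarith
    have hdN : cd.2 ≤ N := by nlinarith
    have h1 : (p : ℤ) * (1 - ab.1) + (ab.2 - 1) = (p : ℤ) * (1 - cd.1) + (cd.2 - 1) := by
      exact_mod_cast h
    have h2 : (p : ℤ) * ((cd.1 : ℤ) - ab.1) = cd.2 - ab.2 := by linarith
    have h3 : (cd.1 : ℤ) - ab.1 = 0 := by
      by_contra hne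
      rcases lt_or_gt_of_ne hne with h4 | h4
      · have : (p : ℤ) * ((cd.1 : ℤ) - ab.1) ≤ (p : ℤ) * (-1) := by
          apply mul_le_mul_of_nonneg_left _ (by positivity)
          omega
        omega
      · have : (p : ℤ) * 1 ≤ (p : ℤ) * ((cd.1 : ℤ) - ab.1) := by
          apply mul_le_mul_of_nonneg_left _ (by positivity)
          omega
        omega
    rw [h3, mul_zero] at h2
    ext
    · omega
    · omega
  have hdvd : ∀ rs ∈ II N, (Polynomial.X - Polynomial.C ((p : ℚ) * (1 - rs.1) + (rs.2 - 1)))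
      ^ pN (N - rs.1 * rs.2) ∣ DN (p : ℚ) N := by
    intro rs hrs
    obtain ⟨r, s⟩ := rs
    apply dvd_DN N p hp r s hrs
    apply ih'
    obtain ⟨ha, hb, hab'⟩ := mem_II.1 hrs
    simp only at ha hb hab'
    have : 0 < r * s := Nat.mul_pos ha hb
    omega
  have hdeg := DN_natDegree (p : ℚ) N
  rw [sum_card_parts] at hdeg
  have hcoef := DN_coeff (p : ℚ) N
  rw [sum_card_parts] at hcoef
  have h := eq_prod_of_dvd (II N) _ (fun rs => pN (N - rs.1 * rs.2)) hinj (DN (p : ℚ) N) hdvd hdeg
  rw [hcoef] at h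
  rw [h, FN]
  simp_rw [mul_pow]
  rw [prod_mul_distrib]
  congr 1
  rw [map_pow]
  exact (Finset.prod_pow_eq_pow_sum _ _ _).symm

/-- **Fock space determinant** -/
theorem DN_eq_FN (N : ℕ) : DN (Polynomial.X : Polynomial ℚ) N = FN Polynomial.X N := by
  induction N using Nat.strong_induction_on with
  | _ N ih =>
    ext i : 1
    apply Polynomial.eq_of_infinite_eval_eq
    apply Set.Infinite.mono (s := Set.range (fun n : ℕ => ((N + 1 + n : ℕ) : ℚ)))
    · rintro _ ⟨n, rfl⟩
      have h := DN_nat N ih (N + 1 + n) (by omega)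
      have h1 := map_DN (Polynomial.evalRingHom (((N + 1 + n : ℕ) : ℚ))) (Polynomial.X : Polynomial ℚ) N
      have h2 := map_FN (Polynomial.evalRingHom (((N + 1 + n : ℕ) : ℚ))) (Polynomial.X : Polynomial ℚ) N
      have e : (Polynomial.evalRingHom (((N + 1 + n : ℕ) : ℚ))) (Polynomial.X : Polynomial ℚ)
          = ((N + 1 + n : ℕ) : ℚ) := by simp
      rw [e] at h1 h2
      rw [← h, ← h1] at h2
      have h3 := congrArg (fun q => Polynomial.coeff q i) h2
      simp only [Polynomial.coeff_map] at h3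
      exact h3.symm
    · apply Set.infinite_range_of_injective
      intro a b hab
      simp only at hab
      have : (N + 1 + a : ℕ) = N + 1 + b := by exact_mod_cast hab
      omega

end Main

end Pool.Agent.LS
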