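import Pool.Agent.LS.Unram

/-!
# The frame `ω_{j,n}` and the intersection of the algebras `Gsub A i`
-/

namespace Pool.Agent.LS

open MvPolynomial Finset Matrix

set_option linter.unusedSectionVars false

section PsiM

variable {l : ℕ} {k : Type*} [CommRing k]

/-- `y_{j,n} ↦ ∑_a M_{ja} y_{a,n}` -/
noncomputable def PsiM (M : Matrix (Fin l) (Fin l) k) :
    MvPolynomial (Fin l × ℕ) k →ₐ[k] MvPolynomial (Fin l × ℕ) k :=
  aeval (fun jn : Fin l × ℕ => ∑ a, C (M jn.1 a) * X (a, jn.2))

theorem PsiM_X (M : Matrix (Fin l) (Fin l) k) (j : Fin l) (n : ℕ) :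
    PsiM M (X (j, n)) = ∑ a, C (M j a) * X (a, n) := by
  rw [PsiM, aeval_X]

theorem PsiM_C (M : Matrix (Fin l) (Fin l) k) (c : k) : PsiM M (C c) = C c := by
  rw [← algebraMap_eq, AlgHom.commutes]

theorem PsiM_mul (T N : Matrix (Fin l) (Fin l) k) (f : MvPolynomial (Fin l × ℕ) k) :
    PsiM (T * N) f = PsiM N (PsiM T f) := by
  have : PsiM (T * N) = (PsiM N).comp (PsiM T) := by
    apply algHom_ext
    rintro ⟨j, n⟩
    rw [AlgHom.comp_apply, PsiM_X, PsiM_X, map_sum]
    simp_rw [map_mul, PsiM_C, PsiM_X, Matrix.mul_apply, map_sum, sum_mul, mul_sum]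
    rw [sum_comm]
    refine sum_congr rfl fun b _ => sum_congr rfl fun a _ => ?_
    rw [map_mul]; ring
  rw [this]; rfl

theorem PsiM_one (f : MvPolynomial (Fin l × ℕ) k) : PsiM (1 : Matrix (Fin l) (Fin l) k) f = f := by
  have : PsiM (1 : Matrix (Fin l) (Fin l) k) = AlgHom.id k _ := by
    apply algHom_ext
    rintro ⟨j, n⟩
    rw [PsiM_X, sum_eq_single j]
    · simp
    · intro a _ ha
      rw [Matrix.one_apply_ne (Ne.symm ha)]; simp
    · intro h; exact absurd (mem_univ j) h
  rw [this]; rfl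

theorem PsiM_map {k' : Type*} [CommRing k'] (φ : k →+* k') (M : Matrix (Fin l) (Fin l) k)
    (f : MvPolynomial (Fin l × ℕ) k) :
    map φ (PsiM M f) = PsiM (M.map φ) (map φ f) := by
  induction f using MvPolynomial.induction_on with
  | C a => rw [PsiM_C, map_C, PsiM_C]
  | add p q hp hq => rw [map_add, map_add, hp, hq, map_add, map_add]
  | mul_X p jn ih =>
    obtain ⟨j, n⟩ := jn
    rw [map_mul, map_mul, ih, map_mul, map_mul, map_X, PsiM_X, PsiM_X, map_sum]
    congr 1
    refine sum_congr rfl fun a _ => ?_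
    rw [map_mul, map_C, map_X]; rfl

theorem PsiM_injective {M : Matrix (Fin l) (Fin l) k} (h : IsUnit M.det)
    {f g : MvPolynomial (Fin l × ℕ) k} (hfg : PsiM M f = PsiM M g) : f = g := by
  have h1 := congrArg (PsiM M⁻¹) hfg
  rwa [← PsiM_mul, ← PsiM_mul, Matrix.mul_nonsing_inv M h, PsiM_one, PsiM_one] at h1

end PsiM

section CoefIn

variable {k F : Type*} [CommRing k] [CommRing F] [Algebra k F] {σ : Type*}

/-- polynomials with coefficients in a subalgebra -/
def coefIn (B : Subalgebra k F) : Subalgebra k (MvPolynomial σ F) where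
  carrier := {g | ∀ m, coeff m g ∈ B}
  add_mem' := by
    intro a b ha hb m
    rw [coeff_add]; exact B.add_mem (ha m) (hb m)
  mul_mem' := by
    classical
    intro a b ha hb m
    rw [coeff_mul]
    exact B.sum_mem fun x _ => B.mul_mem (ha _) (hb _)
  algebraMap_mem' := by
    classical
    intro r m
    rw [MvPolynomial.algebraMap_apply, coeff_C]
    split_ifs
    · exact B.algebraMap_mem r
    · exact B.zero_mem

theorem mem_coefIn (B : Subalgebra k F) (g : MvPolynomial σ F) :
    g ∈ coefIn B ↔ ∀ m, coeff m g ∈ B := Iff.rfl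

theorem C_mem_coefIn {B : Subalgebra k F} {c : F} (hc : c ∈ B) :
    (C c : MvPolynomial σ F) ∈ coefIn B := by
  classical
  intro m
  rw [coeff_C]
  split_ifs
  · exact hc
  · exact B.zero_mem

theorem X_mem_coefIn (B : Subalgebra k F) (i : σ) : (X i : MvPolynomial σ F) ∈ coefIn B := by
  classical
  intro m
  rw [coeff_X]
  split_ifs
  · exact B.one_mem
  · exact B.zero_mem

theorem PsiM_mem_coefIn {l : ℕ} {B : Subalgebra k F} {M : Matrix (Fin l) (Fin l) F}
    (hM : ∀ i j, M i j ∈ B) {f : MvPolynomial (Fin l × ℕ) F} (hf : f ∈ coefIn B) :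
    PsiM M f ∈ coefIn B := by
  have hX : ∀ jn : Fin l × ℕ, PsiM M (X jn) ∈ (coefIn B : Subalgebra k (MvPolynomial (Fin l × ℕ) F)) := by
    rintro ⟨j, n⟩
    rw [PsiM_X]
    exact Subalgebra.sum_mem _ fun a _ =>
      Subalgebra.mul_mem _ (C_mem_coefIn (hM j a)) (X_mem_coefIn B _)
  rw [as_sum f, map_sum]
  apply Subalgebra.sum_mem
  intro m _
  rw [monomial_eq, map_mul, PsiM_C, Finsupp.prod, map_prod]
  apply Subalgebra.mul_mem _ (C_mem_coefIn (hf m))
  apply Subalgebra.prod_mem
  intro x _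
  rw [map_pow]
  exact Subalgebra.pow_mem _ (hX x) _

end CoefIn

section Denominators

variable {S F : Type*} [CommRing S] [IsDomain S] [Field F] [Algebra S F] [IsFractionRing S F]

/-- `S[1/δ]` inside the fraction field -/
def locAt (δ : S) (F : Type*) [Field F] [Algebra S F] : Subalgebra S F where
  carrier := {c | ∃ (n : ℕ) (s : S), algebraMap S F δ ^ n * c = algebraMap S F s}
  add_mem' := by
    rintro a b ⟨n, s, h⟩ ⟨m, t, h'⟩
    refine ⟨n + m, δ ^ m * s + δ ^ n * t, ?_⟩
    rw [map_add, map_mul, map_mul, map_pow, map_pow, ← h, ← h']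
    ring
  mul_mem' := by
    rintro a b ⟨n, s, h⟩ ⟨m, t, h'⟩
    refine ⟨n + m, s * t, ?_⟩
    rw [map_mul, ← h, ← h']
    ring
  algebraMap_mem' := fun r => ⟨0, r, by simp⟩

theorem mem_locAt {δ : S} {c : F} :
    c ∈ locAt δ F ↔ ∃ (n : ℕ) (s : S), algebraMap S F δ ^ n * c = algebraMap S F s := Iff.rfl

/-- if `PsiM T g` has coefficients in `S` then `g` has coefficients in `S[1/det T]`. -/
theorem coef_of_PsiM {l : ℕ} (T : Matrix (Fin l) (Fin l) S) (hT : T.det ≠ 0)
    (g : MvPolynomial (Fin l × ℕ) F) (h : MvPolynomial (Fin l × ℕ) S)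
    (hg : PsiM (T.map (algebraMap S F)) g = map (algebraMap S F) h) (m : (Fin l × ℕ) →₀ ℕ) :
    coeff m g ∈ locAt T.det F := by
  have hdet : (T.map (algebraMap S F)).det = algebraMap S F T.det :=
    (RingHom.map_det (algebraMap S F) T).symm
  have hne : algebraMap S F T.det ≠ 0 := by
    intro h0
    exact hT ((IsFractionRing.injective S F) (by rw [h0, map_zero]))
  have hu : IsUnit (T.map (algebraMap S F)).det := by
    rw [hdet]; exact isUnit_iff_ne_zero.2 hne
  have hg2 : g = PsiM (T.map (algebraMap S F))⁻¹ (map (algebraMap S F) h) := by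
    rw [← hg, ← PsiM_mul, Matrix.mul_nonsing_inv _ hu, PsiM_one]
  rw [hg2]
  have h1 : PsiM (T.map (algebraMap S F))⁻¹ (map (algebraMap S F) h) ∈
      (coefIn (locAt T.det F) : Subalgebra S (MvPolynomial (Fin l × ℕ) F)) := by
    apply PsiM_mem_coefIn
    · intro i j
      rw [mem_locAt]
      refine ⟨1, T.adjugate i j, ?_⟩
      rw [Matrix.inv_def, Matrix.smul_apply, smul_eq_mul, hdet, Ring.inverse_eq_inv', pow_one,
        ← mul_assoc, mul_inv_cancel₀ hne, one_mul]
      have := congrFun (congrFun (RingHom.map_adjugate (algebraMap S F) T) i) j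
      exact this.symm
    · intro m
      rw [coeff_map]
      exact Subalgebra.algebraMap_mem _ _
  exact h1 m

end Denominators


section Jets

variable {l : ℕ} {A : Matrix (Fin l) (Fin l) ℤ}

/-- splitting the variables `x_{i,1}` off -/
noncomputable def iotaS (l : ℕ) :
    MvPolynomial (Fin l × ℕ) ℂ →ₐ[ℂ] MvPolynomial (Fin l × ℕ) (MvPolynomial (Fin l) ℂ) :=
  aeval (fun jn : Fin l × ℕ => match jn.2 with
    | 0 => C (X jn.1)
    | n + 1 => X (jn.1, n))

theorem iotaS_X_zero (j : Fin l) : iotaS l (X (j, 0)) = C (X j) := by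
  rw [iotaS, aeval_X]

theorem iotaS_X_succ (j : Fin l) (n : ℕ) : iotaS l (X (j, n + 1)) = X (j, n) := by
  rw [iotaS, aeval_X]

theorem iotaS_C (c : ℂ) : iotaS l (C c) = C (C c) := by
  rw [← algebraMap_eq, AlgHom.commutes]; rfl

/-- left inverse of `iotaS` -/
noncomputable def rhoS (l : ℕ) :
    MvPolynomial (Fin l × ℕ) (MvPolynomial (Fin l) ℂ) →+* MvPolynomial (Fin l × ℕ) ℂ :=
  eval₂Hom (rename (fun i : Fin l => (i, 0)) :
    MvPolynomial (Fin l) ℂ →ₐ[ℂ] MvPolynomial (Fin l × ℕ) ℂ).toRingHom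
    (fun jn : Fin l × ℕ => X (jn.1, jn.2 + 1))

theorem rhoS_C (s : MvPolynomial (Fin l) ℂ) :
    rhoS l (C s) = rename (fun i : Fin l => (i, 0)) s := by
  rw [rhoS, coe_eval₂Hom, eval₂_C]; rfl

theorem rhoS_X (j : Fin l) (n : ℕ) : rhoS l (X (j, n)) = X (j, n + 1) := by
  rw [rhoS, coe_eval₂Hom, eval₂_X]

theorem rhoS_iotaS (f : MvPolynomial (Fin l × ℕ) ℂ) : rhoS l (iotaS l f) = f := by
  induction f using MvPolynomial.induction_on with
  | C a => rw [iotaS_C, rhoS_C, rename_C]
  | add p q hp hq => rw [map_add, map_add, hp, hq]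
  | mul_X p jn ih =>
    have h : rhoS l (iotaS l (X jn)) = X jn := by
      obtain ⟨j, n⟩ := jn
      cases n with
      | zero => rw [iotaS_X_zero, rhoS_C, rename_X]
      | succ n => rw [iotaS_X_succ, rhoS_X]
    rw [map_mul, map_mul, ih, h]

/-- diagonal reflection on the jets -/
noncomputable def reflR (A : Matrix (Fin l) (Fin l) ℤ) (i : Fin l) :
    MvPolynomial (Fin l × ℕ) ℂ →ₐ[ℂ] MvPolynomial (Fin l × ℕ) ℂ :=
  aeval (fun jn : Fin l × ℕ => X jn - C (A i jn.1 : ℂ) * X (i, jn.2))

theorem reflR_X (i j : Fin l) (n : ℕ) :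
    reflR A i (X (j, n)) = X (j, n) - C (A i j : ℂ) * X (i, n) := by
  rw [reflR, aeval_X]

theorem reflR_C (i : Fin l) (c : ℂ) : reflR A i (C c) = C c := by
  rw [← algebraMap_eq, AlgHom.commutes]

theorem reflR_of_mem_Gsub (hA : SimplyLaced A) (i : Fin l) (f : MvPolynomial (Fin l × ℕ) ℂ)
    (hf : f ∈ Gsub A i) : reflR A i f = f := by
  have h2 : (C (((2 : ℤ) : ℂ)) : MvPolynomial (Fin l × ℕ) ℂ) = 2 := by
    have : (((2 : ℤ) : ℂ)) = 2 := by norm_num
    rw [this]; exact map_ofNat C 2
  have h4 : ∀ j, (C (A i j : ℂ) : MvPolynomial (Fin l × ℕ) ℂ) = C ((A i j : ℂ) / 2) + C ((A i j : ℂ) / 2) := by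
    intro j
    rw [← map_add]; congr 1; ring
  unfold Gsub at hf
  induction hf using Algebra.adjoin_induction with
  | mem x hx =>
    rcases hx with (hx | ⟨n, rfl⟩) | ⟨⟨j, n⟩, rfl⟩
    · rw [Set.mem_singleton_iff] at hx
      rw [hx, map_pow, reflR_X, hA.diag, h2]; ring
    · rw [map_mul, reflR_X, reflR_X, hA.diag, h2]; ring
    · rw [map_sub, map_mul, reflR_C, reflR_X, reflR_X, hA.diag, h2, h4]; ring
  | algebraMap r => rw [algebraMap_eq, reflR_C]
  | add x y _ _ hx hy => rw [map_add, hx, hy]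
  | mul x y _ _ hx hy => rw [map_mul, hx, hy]

/-- the frame at the simple root `i` -/
noncomputable def frN (A : Matrix (Fin l) (Fin l) ℤ) (i : Fin l) :
    Matrix (Fin l) (Fin l) (MvPolynomial (Fin l) ℂ) :=
  Matrix.of fun b a => if b = i then (if a = i then X i else 0)
    else (if a = b then 1 else 0) - (if a = i then C ((A i b : ℂ) / 2) else 0)

theorem PsiM_frN_self (i : Fin l) (n : ℕ) :
    PsiM (frN A i) (X (i, n)) = C (X i) * X (i, n) := by
  rw [PsiM_X, sum_eq_single i]
  · simp [frN]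
  · intro a _ ha
    simp [frN, ha]
  · intro h; exact absurd (mem_univ i) h

theorem PsiM_frN_ne (i b : Fin l) (hb : b ≠ i) (n : ℕ) :
    PsiM (frN A i) (X (b, n)) = X (b, n) - C (C ((A i b : ℂ) / 2)) * X (i, n) := by
  rw [PsiM_X]
  have : ∀ a, (C (frN A i b a) * X (a, n) : MvPolynomial (Fin l × ℕ) (MvPolynomial (Fin l) ℂ))
      = (if a = b then X (a, n) else 0) - (if a = i then C (C ((A i b : ℂ) / 2)) * X (a, n) else 0) := by
    intro a
    simp only [frN, Matrix.of_apply, if_neg hb]
    split_ifs <;> simp [sub_mul]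
    ring
  simp_rw [this]
  rw [sum_sub_distrib, sum_ite_eq' univ b, sum_ite_eq' univ i]
  simp

theorem exists_PsiM_frN (hA : SimplyLaced A) (i : Fin l) (f : MvPolynomial (Fin l × ℕ) ℂ)
    (hf : f ∈ Gsub A i) : ∃ h, iotaS l f = PsiM (frN A i) h := by
  unfold Gsub at hf
  induction hf using Algebra.adjoin_induction with
  | mem x hx =>
    rcases hx with (hx | ⟨n, rfl⟩) | ⟨⟨j, n⟩, rfl⟩
    · rw [Set.mem_singleton_iff] at hx
      refine ⟨C (X i ^ 2), ?_⟩
      rw [hx, map_pow, iotaS_X_zero, PsiM_C, map_pow]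
    · refine ⟨X (i, n), ?_⟩
      simp only
      rw [map_mul, iotaS_X_zero, iotaS_X_succ, PsiM_frN_self]
    · simp only
      cases n with
      | zero =>
        refine ⟨C (X j - C ((A i j : ℂ) / 2) * X i), ?_⟩
        rw [map_sub, map_mul, iotaS_X_zero, iotaS_C, iotaS_X_zero, PsiM_C, map_sub, map_mul]
      | succ n =>
        by_cases hj : j = i
        · subst hj
          refine ⟨0, ?_⟩
          rw [hA.diag, map_zero]
          have : (((2 : ℤ) : ℂ)) / 2 = 1 := by norm_num
          rw [this, C_1, one_mul, sub_self, map_zero]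
        · refine ⟨X (j, n), ?_⟩
          rw [PsiM_frN_ne i j hj, map_sub, map_mul, iotaS_X_succ, iotaS_X_succ, iotaS_C]
  | algebraMap r => exact ⟨C (C r), by rw [algebraMap_eq, iotaS_C, PsiM_C]⟩
  | add x y _ _ hx hy =>
    obtain ⟨h, hh⟩ := hx
    obtain ⟨h', hh'⟩ := hy
    exact ⟨h + h', by rw [map_add, map_add, hh, hh']⟩
  | mul x y _ _ hx hy =>
    obtain ⟨h, hh⟩ := hx
    obtain ⟨h', hh'⟩ := hy
    exact ⟨h * h', by rw [map_mul, map_mul, hh, hh']⟩

/-- the Jacobian matrix in the frame at `i` -/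
theorem jacM_eq_mul (hA : SimplyLaced A) (P : Fin l → MvPolynomial (Fin l) ℂ) (i : Fin l)
    (T : Matrix (Fin l) (Fin l) (MvPolynomial (Fin l) ℂ))
    (hT1 : ∀ j b, b ≠ i → T j b = pderiv b (P j)) (hT2 : ∀ j, X i * T j i = dirD A i (P j)) :
    jacM P = T * frN A i := by
  ext1 j a
  rw [Matrix.mul_apply]
  have h1 : ∀ b, T j b * frN A i b a = (if b = i then (if a = i then X i * T j i else 0) else 0)
      + ((if b = a then (if a = i then 0 else pderiv a (P j)) else 0)
      - (if a = i then (C ((A i b : ℂ) / 2) * pderiv b (P j)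
        - (if b = i then pderiv b (P j) else 0)) else 0)) := by
    intro b
    by_cases hb : b = i
    · subst hb
      simp only [frN, Matrix.of_apply, if_true]
      rw [hA.diag]
      have : (((2 : ℤ) : ℂ)) / 2 = 1 := by norm_num
      rw [this, C_1]
      by_cases ha : a = b
      · subst ha; simp [mul_comm]
      · simp [ha, Ne.symm ha]
    · simp only [frN, Matrix.of_apply, if_neg hb, hT1 j b hb]
      by_cases ha : a = i
      · subst ha
        simp [Ne.symm hb, hb, mul_comm]
      · by_cases hab : b = a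
        · subst hab; simp [ha]
        · simp [ha, hab, Ne.symm hab]
  rw [sum_congr rfl fun b _ => h1 b, sum_add_distrib, sum_ite_eq' univ i, if_pos (mem_univ i),
    sum_sub_distrib, sum_ite_eq' univ a, if_pos (mem_univ a)]
  by_cases ha : a = i
  · subst ha
    simp only [if_true]
    rw [hT2, dirD_apply, sum_sub_distrib, sum_ite_eq' univ a, if_pos (mem_univ a)]
    rw [jacM, Matrix.of_apply]
    ring
  · simp only [if_neg ha, sum_const_zero]
    rw [jacM, Matrix.of_apply]; ring


/-! ### The action on the fraction field -/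

/-- extension of an automorphism to the fraction field -/
noncomputable def sigF (σ : MvPolynomial (Fin l) ℂ ≃ₐ[ℂ] MvPolynomial (Fin l) ℂ) :
    FractionRing (MvPolynomial (Fin l) ℂ) →+* FractionRing (MvPolynomial (Fin l) ℂ) :=
  IsFractionRing.lift (A := MvPolynomial (Fin l) ℂ)
    (g := (algebraMap (MvPolynomial (Fin l) ℂ) (FractionRing (MvPolynomial (Fin l) ℂ))).comp
      (σ : MvPolynomial (Fin l) ℂ →+* MvPolynomial (Fin l) ℂ))
    (by
      rw [RingHom.coe_comp]
      exact (IsFractionRing.injective _ _).comp σ.injective)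

theorem sigF_algebraMap (σ : MvPolynomial (Fin l) ℂ ≃ₐ[ℂ] MvPolynomial (Fin l) ℂ)
    (s : MvPolynomial (Fin l) ℂ) :
    sigF σ (algebraMap _ _ s) = algebraMap _ _ (σ s) := by
  rw [sigF, IsFractionRing.lift_algebraMap]; rfl

/-- the reflection on the jets over the fraction field -/
noncomputable def Theta (hA : SimplyLaced A) (i : Fin l) :
    MvPolynomial (Fin l × ℕ) (FractionRing (MvPolynomial (Fin l) ℂ)) →+*
      MvPolynomial (Fin l × ℕ) (FractionRing (MvPolynomial (Fin l) ℂ)) :=
  eval₂Hom (C.comp (sigF (reflE hA i)))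
    (fun jn : Fin l × ℕ => X jn - C (algebraMap _ _ (C (A i jn.1 : ℂ) : MvPolynomial (Fin l) ℂ)) *
      X (i, jn.2))

theorem Theta_C (hA : SimplyLaced A) (i : Fin l) (c : FractionRing (MvPolynomial (Fin l) ℂ)) :
    Theta hA i (C c) = C (sigF (reflE hA i) c) := by
  rw [Theta, coe_eval₂Hom, eval₂_C]; rfl

theorem Theta_X (hA : SimplyLaced A) (i j : Fin l) (n : ℕ) :
    Theta hA i (X (j, n)) = X (j, n) -
      C (algebraMap _ _ (C (A i j : ℂ) : MvPolynomial (Fin l) ℂ)) * X (i, n) := by
  rw [Theta, coe_eval₂Hom, eval₂_X]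

/-- embedding of the jets into the polynomials over the fraction field -/
noncomputable def iotaF (f : MvPolynomial (Fin l × ℕ) ℂ) :
    MvPolynomial (Fin l × ℕ) (FractionRing (MvPolynomial (Fin l) ℂ)) :=
  map (algebraMap (MvPolynomial (Fin l) ℂ) (FractionRing (MvPolynomial (Fin l) ℂ))) (iotaS l f)

theorem Theta_iotaF (hA : SimplyLaced A) (i : Fin l) (f : MvPolynomial (Fin l × ℕ) ℂ) :
    Theta hA i (iotaF f) = iotaF (reflR A i f) := by
  unfold iotaF
  induction f using MvPolynomial.induction_on with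
  | C a =>
    have hC : refl A i (C a) = C a := by rw [← algebraMap_eq, AlgHom.commutes]
    rw [reflR_C, iotaS_C, map_C, Theta_C, sigF_algebraMap, reflE_apply, hC]
  | add p q hp hq => simp only [map_add, hp, hq]
  | mul_X p jn ih =>
    have h : Theta hA i (map (algebraMap _ _) (iotaS l (X jn)))
        = map (algebraMap (MvPolynomial (Fin l) ℂ) (FractionRing (MvPolynomial (Fin l) ℂ)))
          (iotaS l (reflR A i (X jn))) := by
      obtain ⟨j, n⟩ := jn
      cases n with
      | zero =>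
        rw [reflR_X, map_sub, map_mul, iotaS_X_zero, iotaS_X_zero, iotaS_C, map_C, Theta_C,
          sigF_algebraMap, reflE_apply, refl_X, ← map_mul, ← map_sub, map_C]
      | succ n =>
        rw [reflR_X, map_sub, map_mul, iotaS_X_succ, iotaS_X_succ, iotaS_C, map_X, Theta_X,
          map_sub, map_mul, map_C, map_X, map_X]
    rw [map_mul, map_mul, map_mul, ih, h, map_mul, map_mul, map_mul]

/-- chain rule for the simple reflection -/
theorem pderiv_refl (i a : Fin l) (f : MvPolynomial (Fin l) ℂ) :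
    pderiv a (refl A i f) = refl A i (pderiv a f) -
      (if a = i then ∑ b, C (A i b : ℂ) * refl A i (pderiv b f) else 0) := by
  have hC : ∀ c : ℂ, refl A i (C c) = C c := fun c => by
    rw [← algebraMap_eq, AlgHom.commutes]
  induction f using MvPolynomial.induction_on with
  | C c => simp [hC]
  | add p q hp hq =>
    rw [map_add, map_add, hp, hq, map_add, map_add]
    simp only [map_add, mul_add, sum_add_distrib]
    split_ifs <;> ring
  | mul_X p j ih =>
    rw [map_mul, Derivation.leibniz, ih, refl_X, map_sub, Derivation.leibniz, pderiv_C,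
      Derivation.leibniz, map_add, smul_eq_mul, smul_eq_mul, smul_eq_mul, smul_eq_mul, smul_eq_mul,
      smul_eq_mul, map_mul, map_mul, refl_X]
    have h1 : ∀ b, C (A i b : ℂ) * refl A i (pderiv b (p * X j))
        = refl A i p * (if b = j then C (A i b : ℂ) else 0)
          + (X j - C (A i j : ℂ) * X i) * (C (A i b : ℂ) * refl A i (pderiv b p)) := by
      intro b
      rw [Derivation.leibniz, map_add, smul_eq_mul, smul_eq_mul, map_mul, map_mul, refl_X]
      by_cases hb : b = j
      · subst hb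
        rw [pderiv_X_self, if_pos rfl, map_one]; ring
      · rw [pderiv_X_of_ne (Ne.symm hb), if_neg hb, map_zero]; ring
    rw [sum_congr rfl fun b _ => h1 b, sum_add_distrib, ← mul_sum, sum_ite_eq' univ j,
      if_pos (mem_univ j), ← mul_sum]
    by_cases ha : a = i
    · subst ha
      rw [if_pos rfl, if_pos rfl, pderiv_X_self]
      by_cases haj : a = j
      · subst haj
        rw [pderiv_X_self, map_one]; ring
      · rw [pderiv_X_of_ne (Ne.symm haj), map_zero]; ring
    · rw [if_neg ha, if_neg ha, pderiv_X_of_ne (Ne.symm ha)]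
      by_cases haj : a = j
      · subst haj
        rw [pderiv_X_self, map_one]; ring
      · rw [pderiv_X_of_ne (Ne.symm haj), map_zero]; ring

theorem Theta_PsiM (hA : SimplyLaced A) (P : Fin l → MvPolynomial (Fin l) ℂ)
    (hinv : ∀ i j, refl A i (P j) = P j) (i : Fin l)
    (g : MvPolynomial (Fin l × ℕ) (FractionRing (MvPolynomial (Fin l) ℂ))) :
    Theta hA i (PsiM ((jacM P).map (algebraMap _ _)) g)
      = PsiM ((jacM P).map (algebraMap _ _)) (map (sigF (reflE hA i)) g) := by
  induction g using MvPolynomial.induction_on with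
  | C a => rw [PsiM_C, Theta_C, map_C, PsiM_C]
  | add p q hp hq => rw [map_add, map_add, hp, hq, map_add, map_add]
  | mul_X p jn ih =>
    have h : Theta hA i (PsiM ((jacM P).map (algebraMap _ _)) (X jn))
        = PsiM ((jacM P).map (algebraMap (MvPolynomial (Fin l) ℂ)
            (FractionRing (MvPolynomial (Fin l) ℂ)))) (X jn) := by
      obtain ⟨j, n⟩ := jn
      rw [PsiM_X, map_sum]
      have h1 : ∀ a, Theta hA i (C ((jacM P).map (algebraMap _ _) j a) * X (a, n))
          = C (algebraMap _ _ (refl A i (pderiv a (P j)))) * X (a, n)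
            - C (algebraMap _ _ (C (A i a : ℂ) * refl A i (pderiv a (P j)))) * X (i, n) := by
        intro a
        rw [map_mul, Theta_C, Theta_X, Matrix.map_apply, sigF_algebraMap, reflE_apply, jacM,
          Matrix.of_apply, map_mul (algebraMap _ _), C_mul]
        ring
      rw [sum_congr rfl fun a _ => h1 a, sum_sub_distrib, ← sum_mul, ← map_sum, ← map_sum]
      have h2 : ∀ a, (C ((jacM P).map (algebraMap _ _) j a) * X (a, n) :
            MvPolynomial (Fin l × ℕ) (FractionRing (MvPolynomial (Fin l) ℂ)))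
          = C (algebraMap _ _ (refl A i (pderiv a (P j)))) * X (a, n)
            - (if a = i then C (algebraMap _ _ (∑ b, C (A i b : ℂ) * refl A i (pderiv b (P j))))
              * X (a, n) else 0) := by
        intro a
        rw [Matrix.map_apply, jacM, Matrix.of_apply]
        have h3 := pderiv_refl (A := A) i a (P j)
        rw [hinv] at h3
        by_cases ha : a = i
        · rw [if_pos ha]
          rw [if_pos ha] at h3
          rw [← sub_mul, ← map_sub, ← map_sub, ← h3]
        · rw [if_neg ha]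
          rw [if_neg ha, sub_zero] at h3
          rw [← h3, sub_zero]
      rw [sum_congr rfl fun a _ => h2 a, sum_sub_distrib, sum_ite_eq' univ i, if_pos (mem_univ i)]
    rw [map_mul, map_mul, ih, h, map_mul, map_X, map_mul]


/-! ### Removing the poles -/

/-- fraction field of the polynomial ring -/
abbrev FrS (l : ℕ) := FractionRing (MvPolynomial (Fin l) ℂ)

theorem exists_num_den (c : FrS l) : ∃ a b : MvPolynomial (Fin l) ℂ, b ≠ 0 ∧ IsRelPrime a b ∧
    c * algebraMap _ (FrS l) b = algebraMap _ (FrS l) a := by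
  refine ⟨IsFractionRing.num (MvPolynomial (Fin l) ℂ) c,
    (IsFractionRing.den (MvPolynomial (Fin l) ℂ) c : MvPolynomial (Fin l) ℂ),
    nonZeroDivisors.ne_zero (IsFractionRing.den (MvPolynomial (Fin l) ℂ) c).2,
    IsFractionRing.num_den_reduced (MvPolynomial (Fin l) ℂ) c, ?_⟩
  have h := IsFractionRing.mk'_num_den' (MvPolynomial (Fin l) ℂ) c
  have hb0 : algebraMap (MvPolynomial (Fin l) ℂ) (FrS l)
      (IsFractionRing.den (MvPolynomial (Fin l) ℂ) c : MvPolynomial (Fin l) ℂ) ≠ 0 := by
    intro h0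
    exact nonZeroDivisors.ne_zero (IsFractionRing.den (MvPolynomial (Fin l) ℂ) c).2
      (IsFractionRing.injective (MvPolynomial (Fin l) ℂ) (FrS l) (by rw [h0, map_zero]))
  nth_rewrite 1 [← h]
  rw [div_mul_cancel₀ _ hb0]

/-- a fraction which is invariant, regular off the Jacobian and generically regular along the
simple walls is a polynomial. -/
theorem mem_range_of_poles (hA : SimplyLaced A) (P : Fin l → MvPolynomial (Fin l) ℂ)
    (hgen : ∀ f : MvPolynomial (Fin l) ℂ, (∀ i, refl A i f = f) →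
      f ∈ Algebra.adjoin ℂ (Set.range P))
    (c : FrS l)
    (h1 : c ∈ locAt (jacM P).det (FrS l))
    (δ : Fin l → MvPolynomial (Fin l) ℂ) (hδ : ∀ i, ¬ X i ∣ δ i)
    (h2 : ∀ i, c ∈ locAt (δ i) (FrS l))
    (h3 : ∀ i, sigF (reflE hA i) c = c) :
    ∃ s : MvPolynomial (Fin l) ℂ, algebraMap _ _ s = c ∧ s ∈ Algebra.adjoin ℂ (Set.range P) := by
  obtain ⟨a, b, hb0, hcop, hab⟩ := exists_num_den c
  -- numerators and denominators
  have hnd : ∀ (δ : MvPolynomial (Fin l) ℂ), c ∈ locAt δ (FrS l) → ∃ n s, δ ^ n * a = s * b := by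
    intro δ hδ
    obtain ⟨n, s, hs⟩ := mem_locAt.1 hδ
    refine ⟨n, s, ?_⟩
    apply IsFractionRing.injective (MvPolynomial (Fin l) ℂ) (FrS l)
    rw [map_mul, map_mul, map_pow, ← hs, ← hab]
    ring
  -- no common prime factor
  have hno : ∀ q, Prime q → q ∣ b → ¬ q ∣ a := by
    intro q hq hqb hqa
    exact hq.not_isUnit (hcop hqa hqb)
  have hdiv : ∀ (δ : MvPolynomial (Fin l) ℂ), c ∈ locAt δ (FrS l) → ∀ q, Prime q → q ∣ b → q ∣ δ := by
    intro δ hδ q hq hqb
    obtain ⟨n, s, hs⟩ := hnd δ hδ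
    have h4 : q ∣ δ ^ n * a := by rw [hs]; exact hqb.mul_left s
    rcases hq.dvd_or_dvd h4 with h | h
    · exact hq.dvd_of_dvd_pow h
    · exact absurd h (hno q hq hqb)
  -- invariance
  have hinvar : ∀ w ∈ WG hA, a * w b = w a * b := by
    intro w hw
    obtain ⟨L, rfl⟩ := (mem_WG hA w).1 hw
    clear hw
    induction L with
    | nil => rfl
    | cons i L ih =>
      rw [wp_cons, AlgEquiv.mul_apply, AlgEquiv.mul_apply]
      have h5 : a * reflE hA i b = reflE hA i a * b := by
        apply IsFractionRing.injective (MvPolynomial (Fin l) ℂ) (FrS l)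
        rw [map_mul, map_mul, ← sigF_algebraMap, ← sigF_algebraMap, ← hab, map_mul, h3]
        ring
      have h6 := congrArg (reflE hA i) ih
      rw [map_mul, map_mul] at h6
      have hne : reflE hA i b ≠ 0 := by
        intro h
        exact hb0 ((reflE hA i).injective (by rw [h, map_zero]))
      apply mul_left_cancel₀ hne
      calc reflE hA i b * (a * reflE hA i (wp hA L b))
          = (a * reflE hA i b) * reflE hA i (wp hA L b) := by ring
        _ = b * (reflE hA i a * reflE hA i (wp hA L b)) := by rw [h5]; ring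
        _ = b * (reflE hA i (wp hA L a) * reflE hA i b) := by rw [h6]
        _ = _ := by ring
  have hunit : IsUnit b := by
    by_contra hnu
    obtain ⟨q, hq, hqb⟩ := WfDvdMonoid.exists_irreducible_factor hnu hb0
    have hqp : Prime q := hq.prime
    have hqJ := hdiv _ h1 q hqp hqb
    obtain ⟨w, hw, i, hwi⟩ := prime_dvd_jac P hA hgen q hqp hqJ
    have h7 : (X i : MvPolynomial (Fin l) ℂ) ∣ w b :=
      hwi.symm.dvd.trans (map_dvd w hqb)
    have h8 : ¬ (X i : MvPolynomial (Fin l) ℂ) ∣ w a := by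
      intro h
      have h9 : w q ∣ w a := hwi.dvd.trans h
      have h10 := map_dvd w.symm h9
      rw [AlgEquiv.symm_apply_apply, AlgEquiv.symm_apply_apply] at h10
      exact hno q hqp hqb h10
    have h11 : (X i : MvPolynomial (Fin l) ℂ) ∣ w a * b := by
      rw [← hinvar w hw]; exact h7.mul_left a
    have h12 : (X i : MvPolynomial (Fin l) ℂ) ∣ b :=
      ((prime_X' i).dvd_or_dvd h11).resolve_left h8
    exact hδ i (hdiv _ (h2 i) (X i) (prime_X' i) h12)
  obtain ⟨s, hs⟩ : ∃ s, algebraMap (MvPolynomial (Fin l) ℂ) (FrS l) s = c := by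
    obtain ⟨b', hb'⟩ := isUnit_iff_exists_inv.1 hunit
    refine ⟨a * b', ?_⟩
    rw [map_mul, ← hab, mul_assoc, ← map_mul, hb', map_one, mul_one]
  refine ⟨s, hs, hgen s fun i => ?_⟩
  have h13 : algebraMap (MvPolynomial (Fin l) ℂ) (FrS l) (reflE hA i s)
      = algebraMap (MvPolynomial (Fin l) ℂ) (FrS l) s := by
    rw [← sigF_algebraMap, hs, h3]
  exact IsFractionRing.injective (MvPolynomial (Fin l) ℂ) (FrS l) h13

/-- **C1**: functions on the jets of `h` which are jets of `h/⟨s_i⟩` for every simple `i` come from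
`h/W`. -/
theorem mem_adjoin_of_mem_Gsub (hA : SimplyLaced A) (B : BasicInvariants A)
    (f : MvPolynomial (Fin l × ℕ) ℂ) (hf : ∀ i, f ∈ Gsub A i) :
    f ∈ Algebra.adjoin ℂ
      (Set.range (P0 B) ∪ Set.range (fun jn : Fin l × ℕ => omega B jn.1 jn.2)) := by
  set F := FractionRing (MvPolynomial (Fin l) ℂ) with hF
  have hJ := jac_ne_zero B.P hA B.gen
  have hJF : IsUnit ((jacM B.P).map (algebraMap (MvPolynomial (Fin l) ℂ) F)).det := by
    have h1 : ((jacM B.P).map (algebraMap (MvPolynomial (Fin l) ℂ) F)).det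
        = algebraMap _ _ (jacM B.P).det := (RingHom.map_det _ _).symm
    rw [h1, isUnit_iff_ne_zero]
    intro h
    exact hJ (IsFractionRing.injective (MvPolynomial (Fin l) ℂ) F (by rw [h, map_zero]))
  set g := PsiM ((jacM B.P).map (algebraMap (MvPolynomial (Fin l) ℂ) F))⁻¹ (iotaF f) with hg
  have hPg : PsiM ((jacM B.P).map (algebraMap (MvPolynomial (Fin l) ℂ) F)) g = iotaF f := by
    rw [hg, ← PsiM_mul, Matrix.nonsing_inv_mul _ hJF, PsiM_one]
  -- invariance of the coefficients
  have hinv : ∀ i, map (sigF (reflE hA i)) g = g := by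
    intro i
    apply PsiM_injective hJF
    rw [← Theta_PsiM hA B.P B.inv, hPg, Theta_iotaF, reflR_of_mem_Gsub hA i f (hf i)]
  -- the frames
  choose T hT1 hT2 hT3 using fun i => exists_frame B.P hA B.inv B.gen i
  have hJT : ∀ i, jacM B.P = T i * frN A i := fun i => jacM_eq_mul hA B.P i (T i) (hT1 i) (hT2 i)
  have hTdet : ∀ i, (T i).det ≠ 0 := by
    intro i h
    apply hJ
    rw [hJT i, Matrix.det_mul, h, zero_mul]
  have hNdet : ∀ i, IsUnit ((frN A i).map (algebraMap (MvPolynomial (Fin l) ℂ) F)).det := by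
    intro i
    have h1 : ((frN A i).map (algebraMap (MvPolynomial (Fin l) ℂ) F)).det
        = algebraMap _ _ (frN A i).det := (RingHom.map_det _ _).symm
    rw [h1, isUnit_iff_ne_zero]
    intro h
    apply hJ
    have : (frN A i).det = 0 :=
      IsFractionRing.injective (MvPolynomial (Fin l) ℂ) F (by rw [h, map_zero])
    rw [hJT i, Matrix.det_mul, this, mul_zero]
  have hco : ∀ m, ∃ s : MvPolynomial (Fin l) ℂ, algebraMap _ _ s = coeff m g ∧
      s ∈ Algebra.adjoin ℂ (Set.range B.P) := by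
    intro m
    refine mem_range_of_poles hA B.P B.gen (coeff m g) ?_ (fun i => (T i).det) hT3 ?_ ?_
    · exact coef_of_PsiM (jacM B.P) hJ g (iotaS l f) hPg m
    · intro i
      obtain ⟨h, hh⟩ := exists_PsiM_frN hA i f (hf i)
      refine coef_of_PsiM (T i) (hTdet i) g h ?_ m
      apply PsiM_injective (hNdet i)
      rw [← PsiM_mul, ← PsiM_map, ← hh, ← Matrix.map_mul, ← hJT i, hPg, iotaF]
    · intro i
      have := congrArg (coeff m) (hinv i)
      rwa [coeff_map] at this
  choose s hs1 hs2 using hco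
  -- the polynomial over `S`
  let gS : MvPolynomial (Fin l × ℕ) (MvPolynomial (Fin l) ℂ) := ∑ m ∈ g.support, monomial m (s m)
  have hgS : map (algebraMap (MvPolynomial (Fin l) ℂ) F) gS = g := by
    rw [map_sum]
    simp_rw [map_monomial, hs1]
    exact g.support_sum_monomial_coeff
  have hf2 : iotaS l f = PsiM (jacM B.P) gS := by
    apply map_injective (algebraMap (MvPolynomial (Fin l) ℂ) F) (IsFractionRing.injective _ _)
    rw [PsiM_map, hgS, hPg, iotaF]
  have hf3 : f = rhoS l (PsiM (jacM B.P) gS) := by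
    rw [← hf2, rhoS_iotaS]
  rw [hf3, map_sum, map_sum]
  apply Subalgebra.sum_mem
  intro m _
  rw [monomial_eq, map_mul, map_mul, PsiM_C, rhoS_C, Finsupp.prod, map_prod, map_prod]
  apply Subalgebra.mul_mem
  · -- the coefficient
    have h1 : rename (fun i : Fin l => (i, 0)) (s m) ∈
        (Algebra.adjoin ℂ (Set.range B.P)).map (rename (fun i : Fin l => ((i, 0) : Fin l × ℕ))) :=
      Subalgebra.mem_map.2 ⟨s m, hs2 m, rfl⟩
    rw [AlgHom.map_adjoin] at h1
    refine Algebra.adjoin_mono ?_ h1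
    rintro _ ⟨_, ⟨j, rfl⟩, rfl⟩
    exact Or.inl ⟨j, rfl⟩
  · apply Subalgebra.prod_mem
    rintro ⟨j, n⟩ _
    rw [map_pow, map_pow]
    apply Subalgebra.pow_mem
    have h1 : rhoS l (PsiM (jacM B.P) (X (j, n))) = omega B j n := by
      rw [PsiM_X, map_sum, omega]
      refine sum_congr rfl fun a _ => ?_
      rw [map_mul, rhoS_C, rhoS_X, jacM, Matrix.of_apply]
    rw [h1]
    exact Algebra.subset_adjoin (Or.inr ⟨(j, n), rfl⟩)

end Jets

end Pool.Agent.LS
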