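import Mathlib

/-!
# Specialisation of a saturated family of subspaces
-/

namespace Pool.Agent.LS

open MvPolynomial Finset

set_option linter.unusedSectionVars false

section Spec

variable {σ : Type*} {O Fr κ : Type*} [CommRing O] [IsDomain O] [IsPrincipalIdealRing O]
  [Field Fr] [Algebra O Fr] [IsFractionRing O Fr] [Field κ]

theorem exists_clear (v : MvPolynomial σ Fr) :
    ∃ (a : O) (u : MvPolynomial σ O), a ≠ 0 ∧
      map (algebraMap O Fr) u = C (algebraMap O Fr a) * v := by
  obtain ⟨b, hb⟩ := IsLocalization.exist_integer_multiples (nonZeroDivisors O) v.support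
    (fun m => coeff m v)
  have hex : ∀ m, ∃ c : O, algebraMap O Fr c = algebraMap O Fr (b : O) * coeff m v := by
    intro m
    by_cases hm : m ∈ v.support
    · obtain ⟨c, hc⟩ := hb m hm
      exact ⟨c, by rw [hc, Algebra.smul_def]⟩
    · exact ⟨0, by rw [notMem_support_iff.1 hm, mul_zero, map_zero]⟩
  choose c hc using hex
  refine ⟨b, ∑ m ∈ v.support, monomial m (c m), nonZeroDivisors.ne_zero b.2, ?_⟩
  rw [map_sum]
  nth_rewrite 2 [← v.support_sum_monomial_coeff]
  rw [Finset.mul_sum]
  refine Finset.sum_congr rfl fun m _ => ?_
  rw [map_monomial, hc, C_mul_monomial]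

/-- The generic dimension of a saturated family is at most the dimension of its specialisation. -/
theorem finrank_spec (ev : O →+* κ) (hev : Function.Surjective ev) (π : O) (hπ0 : π ≠ 0)
    (hπ : ∀ a, ev a = 0 → π ∣ a) (hπ' : ev π = 0)
    (VO : Submodule O (MvPolynomial σ O)) [Module.Finite O VO]
    (hsat : ∀ f, C π * f ∈ VO → f ∈ VO)
    (VF : Submodule Fr (MvPolynomial σ Fr))
    (hVF : ∀ f, map (algebraMap O Fr) f ∈ VF → f ∈ VO)
    (W : Submodule κ (MvPolynomial σ κ)) [FiniteDimensional κ W]
    (hW : ∀ f ∈ VO, map ev f ∈ W) :
    Module.finrank Fr VF ≤ Module.finrank κ W := by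
  classical
  have hfree : Module.Free O VO := Module.free_iff_isTorsionFree.2 inferInstance
  let b := Module.finBasis O VO
  set n := Module.finrank O VO with hn
  -- the specialisations of a basis are independent
  have h1 : n ≤ Module.finrank κ W := by
    let g : Fin n → W := fun j => ⟨map ev (b j : MvPolynomial σ O), hW _ (b j).2⟩
    have hg : LinearIndependent κ g := by
      rw [Fintype.linearIndependent_iff]
      intro c hc j
      choose ch hch using hev
      have h2 : map ev (∑ i, C (ch (c i)) * (b i : MvPolynomial σ O)) = 0 := by
        have h3 : ((∑ i, c i • g i : W) : MvPolynomial σ κ) = 0 := by rw [hc]; rfl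
        rw [Submodule.coe_sum] at h3
        rw [map_sum]
        refine Eq.trans (Finset.sum_congr rfl fun i _ => ?_) h3
        rw [map_mul, map_C, hch, ← smul_eq_C_mul]
        rfl
      obtain ⟨F0, hF0⟩ : ∃ F0, F0 = ∑ i, C (ch (c i)) * (b i : MvPolynomial σ O) := ⟨_, rfl⟩
      rw [← hF0] at h2
      have h4 : ∀ m, ∃ d, coeff m F0 = π * d := by
        intro m
        have := congrArg (coeff m) h2
        rw [coeff_map, coeff_zero] at this
        exact hπ _ this
      choose d hd using h4
      have h5 : ∃ r : MvPolynomial σ O, F0 = C π * r := by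
        refine ⟨∑ m ∈ F0.support, monomial m (d m), ?_⟩
        nth_rewrite 1 [← F0.support_sum_monomial_coeff]
        rw [Finset.mul_sum]
        refine Finset.sum_congr rfl fun m _ => ?_
        rw [C_mul_monomial, hd]
      rw [hF0] at h5
      obtain ⟨r, hr⟩ := h5
      have hrV : r ∈ VO := by
        apply hsat
        rw [← hr]
        apply Submodule.sum_mem
        intro i _
        rw [← smul_eq_C_mul]
        exact VO.smul_mem _ (b i).2
      have h6 : ∑ i, ch (c i) • b i = π • (⟨r, hrV⟩ : VO) := by
        apply Subtype.ext
        rw [Submodule.coe_sum]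
        simp only [Submodule.coe_smul, smul_eq_C_mul]
        exact hr
      have h7 := congrArg (fun x => b.repr x j) h6
      simp only [map_sum, map_smul, Finsupp.coe_finsetSum, Finset.sum_apply, Finsupp.smul_apply,
        Module.Basis.repr_self, smul_eq_mul] at h7
      rw [Finset.sum_eq_single j] at h7
      · rw [Finsupp.single_eq_same, mul_one] at h7
        rw [← hch (c j), h7, map_mul, hπ', zero_mul]
      · intro i _ hij
        rw [Finsupp.single_eq_of_ne (Ne.symm hij), mul_zero]
      · intro h; exact absurd (Finset.mem_univ j) h
    have := hg.fintype_card_le_finrank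
    simpa using this
  -- the generic rank
  have h2 : Module.finrank Fr VF ≤ n := by
    by_cases hfin : Module.Finite Fr VF
    · let v := Module.finBasis Fr VF
      choose a u ha hu using fun j => exists_clear (O := O) (v j : MvPolynomial σ Fr)
      have huV : ∀ j, u j ∈ VO := by
        intro j
        apply hVF
        rw [hu, ← smul_eq_C_mul]
        exact VF.smul_mem _ (v j).2
      have hli : LinearIndependent O (fun j => (⟨u j, huV j⟩ : VO)) := by
        rw [Fintype.linearIndependent_iff]
        intro c hc j
        have h3 := congrArg (fun x : VO => map (algebraMap O Fr) (x : MvPolynomial σ O)) hc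
        simp only [Submodule.coe_sum, Submodule.coe_smul, map_sum, smul_eq_C_mul, map_mul, map_C,
          Submodule.coe_zero, map_zero, hu] at h3
        have h4 : ∑ i, (algebraMap O Fr (c i) * algebraMap O Fr (a i)) • v i = 0 := by
          apply Subtype.ext
          rw [Submodule.coe_sum, Submodule.coe_zero, ← h3]
          refine Finset.sum_congr rfl fun i _ => ?_
          rw [Submodule.coe_smul, smul_eq_C_mul, C_mul]
          ring
        have h5 := Fintype.linearIndependent_iff.1 v.linearIndependent _ h4 j
        rcases mul_eq_zero.1 h5 with h | h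
        · exact (IsFractionRing.injective O Fr) (by rw [h, map_zero])
        · exact absurd ((IsFractionRing.injective O Fr) (by rw [h, map_zero])) (ha j)
      have := hli.fintype_card_le_finrank
      simpa using this
    · rw [Module.finrank_of_not_finite hfin]
      exact Nat.zero_le _
  exact h2.trans h1

end Spec

end Pool.Agent.LS
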