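import Mathlib

/-!
# Dimension of a filtered space and of its symbols
-/

namespace Pool.Agent.LS

open MvPolynomial Finset

section Symb

variable {σ : Type*} (w g : σ → ℕ)

theorem coeff_whc (n : ℕ) (v : MvPolynomial σ ℂ) (s : σ →₀ ℕ) :
    coeff s (weightedHomogeneousComponent g n v)
      = if Finsupp.weight g s = n then coeff s v else 0 := by
  classical
  rw [coeff_weightedHomogeneousComponent]

theorem whc_mem (n N : ℕ) {v : MvPolynomial σ ℂ} (hv : v ∈ weightedHomogeneousSubmodule ℂ w N) :
    weightedHomogeneousComponent g n v ∈ weightedHomogeneousSubmodule ℂ w N := by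
  rw [mem_weightedHomogeneousSubmodule] at hv ⊢
  intro s hs
  rw [coeff_whc] at hs
  split_ifs at hs with h
  · exact hv hs
  · exact absurd rfl hs

theorem whc_whc (n m : ℕ) (v : MvPolynomial σ ℂ) :
    weightedHomogeneousComponent g n (weightedHomogeneousComponent g m v)
      = if n = m then weightedHomogeneousComponent g m v else 0 := by
  ext s
  rw [coeff_whc, coeff_whc]
  by_cases h : n = m
  · subst h
    rw [if_pos rfl, coeff_whc]
    split_ifs <;> rfl
  · rw [if_neg h, coeff_zero]
    split_ifs with h1 h2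
    · exact absurd (h1.symm.trans h2) h
    · rfl
    · rfl

/-- polynomials all of whose components of degree `≥ d` vanish -/
noncomputable def Fil (d : ℕ) : Submodule ℂ (MvPolynomial σ ℂ) :=
  ⨅ j ∈ {j : ℕ | d ≤ j}, LinearMap.ker (weightedHomogeneousComponent g j)

theorem mem_Fil {d : ℕ} {v : MvPolynomial σ ℂ} :
    v ∈ Fil g d ↔ ∀ j, d ≤ j → weightedHomogeneousComponent g j v = 0 := by
  simp [Fil, Submodule.mem_iInf]

theorem Fil_zero : Fil g 0 = (⊥ : Submodule ℂ (MvPolynomial σ ℂ)) := by
  rw [eq_bot_iff]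
  intro v hv
  rw [mem_Fil] at hv
  rw [Submodule.mem_bot]
  ext s
  have h := congrArg (coeff s) (hv (Finsupp.weight g s) (Nat.zero_le _))
  rw [coeff_whc, if_pos rfl] at h
  exact h

theorem Fil_mono {d e : ℕ} (h : d ≤ e) : (Fil g d : Submodule ℂ (MvPolynomial σ ℂ)) ≤ Fil g e := by
  intro v hv
  rw [mem_Fil] at hv ⊢
  intro j hj
  exact hv j (h.trans hj)

theorem exists_mem_Fil (v : MvPolynomial σ ℂ) : ∃ d, v ∈ Fil g d := by
  classical
  refine ⟨(v.support.sup (fun s => Finsupp.weight g s)) + 1, ?_⟩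
  rw [mem_Fil]
  intro j hj
  ext s
  rw [coeff_whc, coeff_zero]
  split_ifs with h
  · by_contra hs
    have h1 : Finsupp.weight g s ≤ v.support.sup (fun s => Finsupp.weight g s) :=
      le_sup (f := fun s => Finsupp.weight g s) (mem_support_iff.2 hs)
    omega
  · rfl

/-- **Symbols.** If all the `g`-symbols of the elements of weight `N` of `K` are in `G`, then
`dim K_N ≤ dim G_N`. -/
theorem finrank_le_of_symbol (N : ℕ) (K G : Submodule ℂ (MvPolynomial σ ℂ))
    [FiniteDimensional ℂ (weightedHomogeneousSubmodule ℂ w N)]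
    (h : ∀ v ∈ K, v ∈ weightedHomogeneousSubmodule ℂ w N → ∀ d,
      (∀ j, d < j → weightedHomogeneousComponent g j v = 0) →
      weightedHomogeneousComponent g d v ∈ G) :
    Module.finrank ℂ ↥(K ⊓ weightedHomogeneousSubmodule ℂ w N)
      ≤ Module.finrank ℂ ↥(G ⊓ weightedHomogeneousSubmodule ℂ w N) := by
  classical
  set H := weightedHomogeneousSubmodule ℂ w N with hH
  have hfin : ∀ V : Submodule ℂ (MvPolynomial σ ℂ), V ≤ H → FiniteDimensional ℂ V := by
    intro V hV
    exact Submodule.finiteDimensional_of_le hV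
  have key : ∀ d, Module.finrank ℂ ↥(K ⊓ H ⊓ Fil g d) ≤ Module.finrank ℂ ↥(G ⊓ H ⊓ Fil g d) := by
    intro d
    induction d with
    | zero =>
      rw [Fil_zero, inf_bot_eq, inf_bot_eq]
    | succ d ih =>
      set V := K ⊓ H ⊓ Fil g (d + 1) with hV
      have hVf : FiniteDimensional ℂ V := hfin V (inf_le_left.trans inf_le_right)
      have hGf : FiniteDimensional ℂ ↥(G ⊓ H ⊓ Fil g (d + 1)) :=
        hfin _ (inf_le_left.trans inf_le_right)
      -- the symbol map
      let c : V →ₗ[ℂ] MvPolynomial σ ℂ := (weightedHomogeneousComponent g d).comp V.subtype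
      have hrn := LinearMap.finrank_range_add_finrank_ker c
      -- kernel
      have hker : Module.finrank ℂ (LinearMap.ker c) ≤ Module.finrank ℂ ↥(K ⊓ H ⊓ Fil g d) := by
        have h1 : (LinearMap.ker c).map V.subtype ≤ K ⊓ H ⊓ Fil g d := by
          rintro _ ⟨⟨v, hv⟩, hv2, rfl⟩
          refine ⟨hv.1, ?_⟩
          rw [SetLike.mem_coe, mem_Fil]
          intro j hj
          rcases Nat.eq_or_lt_of_le hj with h2 | h2
          · rw [← h2]
            exact hv2
          · exact (mem_Fil g).1 hv.2 j h2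
        have h2 : Module.finrank ℂ ↥((LinearMap.ker c).map V.subtype)
            = Module.finrank ℂ (LinearMap.ker c) :=
          Submodule.finrank_map_subtype_eq V (LinearMap.ker c)
        have h3 : FiniteDimensional ℂ ↥(K ⊓ H ⊓ Fil g d) := hfin _ (inf_le_left.trans inf_le_right)
        rw [← h2]
        exact Submodule.finrank_mono h1
      -- range
      have hrange : LinearMap.range c ≤ G ⊓ H ⊓ Fil g (d + 1) := by
        rintro _ ⟨⟨v, hv⟩, rfl⟩
        have hv3 := (mem_Fil g).1 hv.2
        refine ⟨⟨h v hv.1.1 hv.1.2 d (fun j hj => hv3 j hj), whc_mem w g d N hv.1.2⟩, ?_⟩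
        rw [SetLike.mem_coe, mem_Fil]
        intro j hj
        show weightedHomogeneousComponent g j (weightedHomogeneousComponent g d v) = 0
        rw [whc_whc, if_neg (by omega)]
      have hdisj : Disjoint (LinearMap.range c) (G ⊓ H ⊓ Fil g d) := by
        rw [Submodule.disjoint_def]
        rintro _ ⟨⟨v, hv⟩, rfl⟩ h2
        have h3 := (mem_Fil g).1 h2.2 d le_rfl
        have h4 : weightedHomogeneousComponent g d (weightedHomogeneousComponent g d v) = 0 := h3
        rw [whc_whc, if_pos rfl] at h4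
        exact h4
      have hle : LinearMap.range c ⊔ (G ⊓ H ⊓ Fil g d) ≤ G ⊓ H ⊓ Fil g (d + 1) :=
        sup_le hrange (inf_le_inf_left _ (Fil_mono g (Nat.le_succ d)))
      have hfr : FiniteDimensional ℂ (LinearMap.range c) := inferInstance
      have hfg : FiniteDimensional ℂ ↥(G ⊓ H ⊓ Fil g d) := hfin _ (inf_le_left.trans inf_le_right)
      have hsum := Submodule.finrank_sup_add_finrank_inf_eq (LinearMap.range c)
        (G ⊓ H ⊓ Fil g d)
      rw [hdisj.eq_bot, finrank_bot, add_zero] at hsum
      have hmono := Submodule.finrank_mono hle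
      omega
  -- exhaustion
  have hKf : FiniteDimensional ℂ ↥(K ⊓ H) := hfin _ inf_le_right
  have hKfg : (K ⊓ H).FG := (Submodule.fg_iff_finiteDimensional _).2 hKf
  obtain ⟨s, hs⟩ := hKfg
  choose D hD using exists_mem_Fil g (σ := σ)
  have hle : K ⊓ H ≤ Fil g (s.sup D) := by
    rw [← hs, Submodule.span_le]
    intro v hv
    exact Fil_mono g (le_sup hv) (hD v)
  have h1 : K ⊓ H ⊓ Fil g (s.sup D) = K ⊓ H := inf_eq_left.2 hle
  have h2 := key (s.sup D)
  rw [h1] at h2
  have hGf : FiniteDimensional ℂ ↥(G ⊓ H) := hfin _ inf_le_right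
  exact h2.trans (Submodule.finrank_mono inf_le_left)

theorem finiteDimensional_whs (N : ℕ) (hfin : {s : σ →₀ ℕ | Finsupp.weight w s = N}.Finite) :
    FiniteDimensional ℂ (weightedHomogeneousSubmodule ℂ w N) := by
  have h1 : FiniteDimensional ℂ (Submodule.span ℂ
      ((fun s : σ →₀ ℕ => (monomial s (1 : ℂ) : MvPolynomial σ ℂ)) '' {s | Finsupp.weight w s = N})) :=
    FiniteDimensional.span_of_finite ℂ (hfin.image _)
  apply Submodule.finiteDimensional_of_le (S₂ := Submodule.span ℂ
      ((fun s : σ →₀ ℕ => (monomial s (1 : ℂ) : MvPolynomial σ ℂ)) '' {s | Finsupp.weight w s = N}))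
  intro v hv
  rw [mem_weightedHomogeneousSubmodule] at hv
  rw [v.as_sum]
  apply Submodule.sum_mem
  intro s hs
  have h2 : monomial s (coeff s v) = (coeff s v) • (monomial s (1 : ℂ) : MvPolynomial σ ℂ) := by
    rw [smul_monomial, smul_eq_mul, mul_one]
  rw [h2]
  apply Submodule.smul_mem
  exact Submodule.subset_span ⟨s, hv (mem_support_iff.1 hs), rfl⟩

/-- there are finitely many monomials of given weight in the `x_{i,n}` -/
theorem finite_weight (l N : ℕ) :
    {s : Fin l × ℕ →₀ ℕ | Finsupp.weight (fun a : Fin l × ℕ => a.2 + 1) s = N}.Finite := by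
  classical
  let s0 : Fin l × ℕ →₀ ℕ := Finsupp.onFinset (univ ×ˢ range N) (fun a => if a.2 < N then N else 0)
    (by
      intro a ha
      rw [mem_product, mem_range]
      refine ⟨mem_univ _, ?_⟩
      by_contra h
      rw [if_neg h] at ha
      exact ha rfl)
  apply (Set.finite_Icc 0 s0).subset
  intro s hs
  refine ⟨zero_le, ?_⟩
  intro a
  have hs' : Finsupp.weight (fun a : Fin l × ℕ => a.2 + 1) s = N := hs
  have h1 : s a ≤ N := by
    rw [← hs']
    exact Finsupp.le_weight (fun a : Fin l × ℕ => a.2 + 1) (by simp) s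
  show s a ≤ (if a.2 < N then N else 0)
  split_ifs with h
  · exact h1
  · by_contra h2
    have h3 : a.2 + 1 ≤ Finsupp.weight (fun a : Fin l × ℕ => a.2 + 1) s :=
      Finsupp.le_weight_of_ne_zero' (fun a : Fin l × ℕ => a.2 + 1) (by omega)
    omega

/-- the weight spaces of the multi-rank Fock space are finite dimensional -/
theorem finiteDimensional_weight (l N : ℕ) : FiniteDimensional ℂ
    (weightedHomogeneousSubmodule ℂ (fun a : Fin l × ℕ => a.2 + 1) N) :=
  finiteDimensional_whs _ N (finite_weight l N)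

end Symb

end Pool.Agent.LS
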