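import Pool.Agent.LS.Multi
import Pool.Agent.LS.Symb
import Pool.Agent.LS.Spec

/-!
# The generic family of common kernels and its specialisation
-/

namespace Pool.Agent.LS

open MvPolynomial Finset

set_option linter.unusedSectionVars false

section Family

variable {l : ℕ}

theorem WH_fg (k : Type*) [CommRing k] (N : ℕ) : (WH l k N).FG := by
  classical
  have hfin := finite_weight l N
  refine ⟨hfin.toFinset.image (fun s => monomial s (1 : k)), le_antisymm ?_ ?_⟩
  · rw [Submodule.span_le]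
    intro v hv
    simp only [coe_image, Set.Finite.coe_toFinset, Set.mem_image, Set.mem_ofPred_eq] at hv
    obtain ⟨s, hs, rfl⟩ := hv
    exact isWeightedHomogeneous_monomial _ _ _ hs
  · intro v hv
    rw [mem_weightedHomogeneousSubmodule] at hv
    rw [v.as_sum]
    apply Submodule.sum_mem
    intro s hs
    have h2 : monomial s (coeff s v) = (coeff s v) • (monomial s (1 : k)) := by
      rw [smul_monomial, smul_eq_mul, mul_one]
    rw [h2]
    apply Submodule.smul_mem
    apply Submodule.subset_span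
    simp only [coe_image, Set.Finite.coe_toFinset, Set.mem_image, Set.mem_ofPred_eq]
    exact ⟨s, hv (mem_support_iff.1 hs), rfl⟩

theorem mem_Kplus {k : Type*} [CommRing k] [Algebra ℚ k] (A : Matrix (Fin l) (Fin l) ℤ) (ν : k)
    (f : MvPolynomial (Fin l × ℕ) k) : f ∈ Kplus A ν ↔ ∀ i, SA A ν i 1 f = 0 := by
  simp only [Kplus, Submodule.mem_iInf, LinearMap.mem_ker]
  rfl

theorem Wfam_le (A : Matrix (Fin l) (Fin l) ℤ) (p : ℂ) : Wfam A p ≤ Kplus A p := by
  rintro _ ⟨F, hF, rfl⟩
  rw [mem_Kplus] at hF ⊢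
  intro i
  have h := map_SA (Polynomial.evalRingHom p) A (Polynomial.X : Polynomial ℂ) i F 1
  rw [hF i, map_zero] at h
  rw [h]
  simp

/-- The dimension of the generic kernel is at most the dimension of its continuation. -/
theorem finrank_generic_le (A : Matrix (Fin l) (Fin l) ℤ) (p : ℂ) (N : ℕ) :
    Module.finrank (RatFunc ℂ)
      ↥(Kplus A (algebraMap (Polynomial ℂ) (RatFunc ℂ) Polynomial.X) ⊓ WH l (RatFunc ℂ) N)
      ≤ Module.finrank ℂ ↥(Wfam A p ⊓ WH l ℂ N) := by
  have hfd : FiniteDimensional ℂ (weightedHomogeneousSubmodule ℂ (fun a : Fin l × ℕ => a.2 + 1) N) :=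
    finiteDimensional_weight l N
  have hW : FiniteDimensional ℂ ↥(Wfam A p ⊓ WH l ℂ N) :=
    Submodule.finiteDimensional_of_le (S₂ := WH l ℂ N) inf_le_right
  have hO : Module.Finite (Polynomial ℂ)
      ↥(Kplus A (Polynomial.X : Polynomial ℂ) ⊓ WH l (Polynomial ℂ) N) := by
    have h1 : Module.Finite (Polynomial ℂ) ↥(WH l (Polynomial ℂ) N) :=
      Module.Finite.iff_fg.2 (WH_fg _ N)
    have h2 : IsNoetherian (Polynomial ℂ) ↥(WH l (Polynomial ℂ) N) :=
      isNoetherian_of_isNoetherianRing_of_finite _ _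
    exact Module.Finite.iff_fg.2 (isNoetherian_submodule.1 h2 _ inf_le_right)
  refine finrank_spec (O := Polynomial ℂ) (Fr := RatFunc ℂ) (κ := ℂ) (Polynomial.evalRingHom p)
    (fun c => ⟨Polynomial.C c, by simp⟩) (Polynomial.X - Polynomial.C p)
    (Polynomial.X_sub_C_ne_zero p) (fun a ha => Polynomial.dvd_iff_isRoot.2 ha) (by simp)
    (Kplus A (Polynomial.X : Polynomial ℂ) ⊓ WH l (Polynomial ℂ) N) ?_
    (Kplus A (algebraMap (Polynomial ℂ) (RatFunc ℂ) Polynomial.X) ⊓ WH l (RatFunc ℂ) N) ?_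
    (Wfam A p ⊓ WH l ℂ N) ?_
  · rintro f ⟨hf1, hf2⟩
    have hne : (C (Polynomial.X - Polynomial.C p) : MvPolynomial (Fin l × ℕ) (Polynomial ℂ)) ≠ 0 := by
      intro h
      exact Polynomial.X_sub_C_ne_zero p ((C_eq_zero).1 h)
    refine ⟨?_, ?_⟩
    · rw [SetLike.mem_coe, mem_Kplus] at hf1 ⊢
      intro i
      have h := hf1 i
      rw [SA_C_mul] at h
      exact (mul_eq_zero.1 h).resolve_left hne
    · rw [SetLike.mem_coe, mem_weightedHomogeneousSubmodule] at hf2 ⊢
      intro s hs
      apply hf2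
      rw [coeff_C_mul]
      exact mul_ne_zero (Polynomial.X_sub_C_ne_zero p) hs
  · rintro f ⟨hf1, hf2⟩
    have hinj : Function.Injective (algebraMap (Polynomial ℂ) (RatFunc ℂ)) :=
      IsFractionRing.injective _ _
    refine ⟨?_, ?_⟩
    · rw [SetLike.mem_coe, mem_Kplus] at hf1 ⊢
      intro i
      apply map_injective _ hinj
      rw [map_SA, hf1 i, map_zero]
    · rw [SetLike.mem_coe, mem_weightedHomogeneousSubmodule] at hf2 ⊢
      intro s hs
      apply hf2
      rw [coeff_map]
      intro h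
      exact hs (hinj (by rw [h, map_zero]))
  · rintro f ⟨hf1, hf2⟩
    refine ⟨⟨f, hf1, rfl⟩, ?_⟩
    rw [SetLike.mem_coe, mem_weightedHomogeneousSubmodule] at hf2 ⊢
    intro s hs
    apply hf2
    rw [coeff_map] at hs
    intro h
    exact hs (by rw [h, map_zero])

end Family

end Pool.Agent.LS
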