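import Mathlib
import Pool.Agent.LS.Det
import Pool.Agent.LS.GN

/-!
# Surjectivity of the vertex operator modes at positive integers
-/

namespace Pool.Agent.LS

open MvPolynomial Finset

set_option linter.unusedSectionVars false

section General

variable {K K' : Type*} [CommRing K] [Algebra ℚ K] [CommRing K'] [Algebra ℚ K']

/-- matrix of `S^{(0)}` on the space of weight `N` -/
noncomputable def MS (ν : K) (N : ℕ) : Matrix (Nat.Partition N) (Nat.Partition N) K :=
  Matrix.of fun lam mu => coeff (expo mu) (S ν 0 (monomial (expo lam) 1))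

theorem map_MS (φ : K →+* K') (ν : K) (N : ℕ) : (MS ν N).map φ = MS (φ ν) N := by
  ext lam mu
  rw [Matrix.map_apply, MS, MS, Matrix.of_apply, Matrix.of_apply, ← coeff_map, map_S, map_monomial,
    map_one]

theorem S_sum {ι : Type*} (ν : K) (k : ℤ) (s : Finset ι) (f : ι → MvPolynomial ℕ K) :
    S ν k (∑ i ∈ s, f i) = ∑ i ∈ s, S ν k (f i) := by
  classical
  induction s using Finset.induction_on with
  | empty => simp [S_zero]
  | insert a s ha ih => rw [sum_insert ha, sum_insert ha, S_add, ih]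

theorem S_one (ν : K) (k : ℤ) : S ν k (1 : MvPolynomial ℕ K) = PZ (-k) := by
  rw [← C_1, S_C, C_1, one_mul]

/-- `S^{(0)}` intertwines the PBW vectors at `T = -1` and `T = 2ν - 1`. -/
theorem AM_mul_MS (ν : K) (N : ℕ) : AM (-1) ν N * MS ν N = AM (2 * ν - 1) ν N := by
  ext lam mu
  rw [Matrix.mul_apply]
  have hv : HZ (N : ℤ) (VL (-1) ν (lst lam) 1) := by
    refine (hz_one.vl (-1) ν (lst lam)).congr ?_
    rw [sum_lst]; ring
  have h1 : S ν 0 (VL (-1) ν (lst lam) 1) = VL (2 * ν - 1) ν (lst lam) 1 := by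
    rw [S_VL (-1) ν 0 (by simp), S_one]
    have : (-1 + 2 * ν : K) = 2 * ν - 1 := by ring
    rw [this]
    simp
  have h2 : AM (2 * ν - 1) ν N lam mu = coeff (expo mu) (S ν 0 (VL (-1) ν (lst lam) 1)) := by
    rw [h1]; rfl
  rw [h2]
  conv_rhs => rw [hv.eq_sum]
  rw [S_sum, coeff_sum]
  apply sum_congr rfl
  intro kap _
  rw [S_C_mul, coeff_C_mul]
  rfl

end General

theorem eval_FN {K : Type*} [CommRing K] [Algebra ℚ K] (ν t : K) (N : ℕ) :
    (FN ν N).eval t = ∏ rs ∈ II N, (2 * (t - (ν * (1 - rs.1) + (rs.2 - 1)))) ^ pN (N - rs.1 * rs.2) := by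
  rw [FN, Polynomial.eval_prod]
  apply prod_congr rfl
  intro rs _
  simp

theorem prod_two_pow_ne_zero {ι : Type*} (s : Finset ι) (f : ι → ℕ) :
    (∏ i ∈ s, (2 : Polynomial ℚ) ^ f i) ≠ 0 := by
  have h2 : (2 : Polynomial ℚ) ≠ 0 := two_ne_zero
  exact Finset.prod_ne_zero_iff.2 (fun i _ => pow_ne_zero (f i) h2)

/-- the determinant of `S^{(0)}` does not vanish at positive integers -/
theorem MS_det_ne_zero (p : ℕ) (hp : 1 ≤ p) (N : ℕ) : (MS (p : ℚ) N).det ≠ 0 := by
  obtain ⟨E, hE⟩ : ∃ E : Polynomial ℚ, E = (MS (Polynomial.X : Polynomial ℚ) N).det := ⟨_, rfl⟩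
  have hEp : E.eval (p : ℚ) = (MS (p : ℚ) N).det := by
    have h := map_MS (Polynomial.evalRingHom (p : ℚ)) (Polynomial.X : Polynomial ℚ) N
    have h2 := RingHom.map_det (Polynomial.evalRingHom (p : ℚ)) (MS (Polynomial.X : Polynomial ℚ) N)
    rw [RingHom.mapMatrix_apply, h, ← hE] at h2
    simpa using h2
  rw [← hEp]
  apply eval_ne_zero_of_identity N p hp (fun k => pN (N - k)) E
  have h1 := congrArg Matrix.det (AM_mul_MS (Polynomial.X : Polynomial ℚ) N)
  rw [Matrix.det_mul, ← eval_DN, ← eval_DN, DN_eq_FN, eval_FN, eval_FN, ← hE] at h1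
  have e1 : ∏ rs ∈ II N, (2 * ((-1 : Polynomial ℚ) - (Polynomial.X * (1 - (rs.1 : Polynomial ℚ))
        + ((rs.2 : Polynomial ℚ) - 1)))) ^ pN (N - rs.1 * rs.2)
      = (∏ rs ∈ II N, (2 : Polynomial ℚ) ^ pN (N - rs.1 * rs.2)) *
        ∏ rs ∈ II N, (Polynomial.C ((rs.1 : ℚ) - 1) * Polynomial.X
          - Polynomial.C (rs.2 : ℚ)) ^ pN (N - rs.1 * rs.2) := by
    rw [← prod_mul_distrib]
    apply prod_congr rfl
    intro rs _
    rw [← mul_pow]
    refine congrArg (fun x => x ^ pN (N - rs.1 * rs.2)) ?_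
    simp only [map_sub, map_natCast, map_one]
    ring
  have e2 : ∏ rs ∈ II N, (2 * ((2 * Polynomial.X - 1 : Polynomial ℚ) - (Polynomial.X * (1 - (rs.1 : Polynomial ℚ))
        + ((rs.2 : Polynomial ℚ) - 1)))) ^ pN (N - rs.1 * rs.2)
      = (∏ rs ∈ II N, (2 : Polynomial ℚ) ^ pN (N - rs.1 * rs.2)) *
        ∏ rs ∈ II N, (Polynomial.C ((rs.1 : ℚ) + 1) * Polynomial.X
          - Polynomial.C (rs.2 : ℚ)) ^ pN (N - rs.1 * rs.2) := by
    rw [← prod_mul_distrib]
    apply prod_congr rfl
    intro rs _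
    rw [← mul_pow]
    refine congrArg (fun x => x ^ pN (N - rs.1 * rs.2)) ?_
    simp only [map_add, map_natCast, map_one]
    ring
  have hne := prod_two_pow_ne_zero (II N) (fun rs => pN (N - rs.1 * rs.2))
  rw [e1, e2] at h1
  clear e1 e2
  revert h1 hne
  generalize (∏ rs ∈ II N, (2 : Polynomial ℚ) ^ pN (N - rs.1 * rs.2)) = Q
  generalize (∏ rs ∈ II N, (Polynomial.C ((rs.1 : ℚ) - 1) * Polynomial.X
          - Polynomial.C (rs.2 : ℚ)) ^ pN (N - rs.1 * rs.2)) = A
  generalize (∏ rs ∈ II N, (Polynomial.C ((rs.1 : ℚ) + 1) * Polynomial.X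
          - Polynomial.C (rs.2 : ℚ)) ^ pN (N - rs.1 * rs.2)) = B
  intro h1 hne
  refine mul_left_cancel₀ hne ?_
  rw [← h1]
  ring

section Surjective

variable {K : Type*} [CommRing K] [Algebra ℚ K]

/-- `S^{(0)}` is onto at positive integers -/
theorem S0_surjective (p : ℕ) (hp : 1 ≤ p) (n : ℤ) (g : MvPolynomial ℕ K) (hg : HZ n g) :
    ∃ f, HZ n f ∧ S (p : K) 0 f = g := by
  rcases lt_or_ge n 0 with h | h
  · refine ⟨0, HZ.zero n, ?_⟩
    rw [S_zero, hg.eq_zero h]
  · obtain ⟨N, rfl⟩ := Int.eq_ofNat_of_zero_le h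
    have hdet : IsUnit (MS (p : K) N).det := by
      have h1 := map_MS (algebraMap ℚ K) (p : ℚ) N
      have h2 := RingHom.map_det (algebraMap ℚ K) (MS (p : ℚ) N)
      rw [RingHom.mapMatrix_apply, h1, map_natCast] at h2
      rw [← h2]
      exact (isUnit_iff_ne_zero.2 (MS_det_ne_zero p hp N)).map (algebraMap ℚ K)
    have hinv : ∀ lam mu : Nat.Partition N, ∑ kap, ((MS (p : K) N)⁻¹ lam kap) *
        (MS (p : K) N) kap mu = if lam = mu then 1 else 0 := by
      intro lam mu
      have := Matrix.nonsing_inv_mul _ hdet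
      have h2 := congrFun (congrFun this lam) mu
      rw [Matrix.mul_apply, Matrix.one_apply] at h2
      exact h2
    have hmono : ∀ lam : Nat.Partition N, S (p : K) 0
        (∑ kap : Nat.Partition N, C ((MS (p : K) N)⁻¹ lam kap) * monomial (expo kap) 1)
        = monomial (expo lam) 1 := by
      intro lam
      have hz : HZ (N : ℤ) (S (p : K) 0
          (∑ kap : Nat.Partition N, C ((MS (p : K) N)⁻¹ lam kap) * monomial (expo kap) 1)) := by
        refine (HZ.smap (w := (N : ℤ)) _ _ ?_).congr (by ring)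
        apply HZ.sum
        intro kap _
        apply HZ.c_mul
        exact (hz_monomial _ _).congr (by rw [wtm_expo])
      rw [hz.eq_sum]
      rw [Finset.sum_eq_single lam]
      · have : coeff (expo lam) (S (p : K) 0
          (∑ kap : Nat.Partition N, C ((MS (p : K) N)⁻¹ lam kap) * monomial (expo kap) 1)) = 1 := by
          rw [S_sum, coeff_sum]
          have h3 := hinv lam lam
          rw [if_pos rfl] at h3
          refine Eq.trans ?_ h3
          apply sum_congr rfl
          intro kap _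
          rw [S_C_mul, coeff_C_mul]
          rfl
        rw [this, C_1, one_mul]
      · intro mu _ hne
        have : coeff (expo mu) (S (p : K) 0
          (∑ kap : Nat.Partition N, C ((MS (p : K) N)⁻¹ lam kap) * monomial (expo kap) 1)) = 0 := by
          rw [S_sum, coeff_sum]
          have h3 := hinv lam mu
          rw [if_neg (Ne.symm hne)] at h3
          refine Eq.trans ?_ h3
          apply sum_congr rfl
          intro kap _
          rw [S_C_mul, coeff_C_mul]
          rfl
        rw [this, C_0, zero_mul]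
      · intro h; exact absurd (Finset.mem_univ lam) h
    refine ⟨∑ lam : Nat.Partition N, C (coeff (expo lam) g) *
      ∑ kap : Nat.Partition N, C ((MS (p : K) N)⁻¹ lam kap) * monomial (expo kap) 1, ?_, ?_⟩
    · apply HZ.sum
      intro lam _
      apply HZ.c_mul
      apply HZ.sum
      intro kap _
      apply HZ.c_mul
      exact (hz_monomial _ _).congr (by rw [wtm_expo])
    · rw [S_sum]
      conv_rhs => rw [hg.eq_sum]
      apply sum_congr rfl
      intro lam _
      rw [S_C_mul, hmono]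

/-- `S^{(1)}` is onto at positive integers -/
theorem S1_surjective (p : ℕ) (hp : 1 ≤ p) (n : ℤ) (g : MvPolynomial ℕ K) (hg : HZ n g) :
    ∃ f, HZ (n + 1) f ∧ S (p : K) 1 f = g := by
  -- c with 2 p c = 1
  set c : K := algebraMap ℚ K (1 / (2 * p)) with hc
  have hc1 : 2 * (p : K) * c = 1 := by
    have h0 : (2 * (p : K)) = algebraMap ℚ K (2 * p) := by
      rw [map_mul, map_ofNat, map_natCast]
    rw [hc, h0, ← map_mul]
    have : (2 * (p : ℚ)) * (1 / (2 * p)) = 1 := by
      have : (p : ℚ) ≠ 0 := by exact_mod_cast (by omega : p ≠ 0)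
      field_simp
    rw [this, map_one]
  -- descending induction
  have key : ∀ (j m : ℕ), n < m + j → ∀ f : MvPolynomial ℕ K, HZ (n - m) f →
      ∃ f', HZ (n + 1) f' ∧ S (p : K) 1 f' = gN c m * f := by
    intro j
    induction j with
    | zero =>
      intro m hm f hf
      refine ⟨0, HZ.zero _, ?_⟩
      rw [S_zero, hf.eq_zero (by push_cast at hm; omega), mul_zero]
    | succ j ih =>
      intro m hm f hf
      obtain ⟨f1, hf1, hf1S⟩ := S0_surjective p hp (n - m) f hf
      have h1 : HZ (n - (m + 1 : ℕ)) (S (p : K) 1 f1) := (hf1.smap _ _).congr (by push_cast; ring)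
      obtain ⟨f2, hf2, hf2S⟩ := ih (m + 1) (by push_cast at hm ⊢; omega) _ h1
      refine ⟨f2 - gN c (m + 1) * f1, ?_, ?_⟩
      · apply hf2.sub
        refine ((hz_gN c (m + 1)).mul hf1).congr ?_
        push_cast; ring
      · have h2 := S_gN_mul (p : K) c hc1 0 m f1
        rw [zero_add, hf1S] at h2
        have h3 : S (p : K) 1 (f2 - gN c (m + 1) * f1)
            = S (p : K) 1 f2 - S (p : K) 1 (gN c (m + 1) * f1) := by
          have : f2 - gN c (m + 1) * f1 = f2 + C (-1) * (gN c (m + 1) * f1) := by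
            rw [map_neg, C_1]; ring
          rw [this, S_add, S_C_mul, map_neg, C_1]
          ring
        rw [h3, hf2S, h2]
        ring
  obtain ⟨f', hf', hS⟩ := key (n.toNat + 1) 0 (by push_cast; omega) g (hg.congr (by simp))
  refine ⟨f', hf', ?_⟩
  rw [hS, gN_zero, one_mul]

end Surjective

end Pool.Agent.LS
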