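import Mathlib
import Pool.Agent.LS.Fock
import Pool.Agent.LS.Comb

/-!
# Symbols of the PBW vectors and the kernel of `S^{(1)}` (module D)
-/

namespace Pool.Agent.LS

open MvPolynomial Finset

set_option linter.unusedSectionVars false

section KernelSec

variable {K : Type*} [CommRing K] [Algebra ℚ K]

/-- g-degree of the variables: `x_1 ↦ 2`, `x_n ↦ 1` for `n ≥ 2` -/
def gd : ℕ → ℕ
  | 0 => 2
  | (_ + 1) => 1

/-- g-degree of an exponent -/
noncomputable def gdm (d : ℕ →₀ ℕ) : ℕ := d.sum (fun n a => a * gd n)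

/-- all monomials of `f` have g-degree `< D` -/
def GLT (D : ℕ) (f : MvPolynomial ℕ K) : Prop := ∀ d, coeff d f ≠ 0 → gdm d < D

/-- leading symbol of `Lop 0 ν m`, `m ≥ 1` -/
noncomputable def qt : ℕ → MvPolynomial ℕ K
  | 0 => 0
  | 1 => X 0 ^ 2
  | (m + 2) => C 2 * (X 0 * X (m + 1))

/-- its g-degree -/
def qdeg : ℕ → ℕ
  | 1 => 4
  | _ => 3

theorem gdm_add (d e : ℕ →₀ ℕ) : gdm (d + e) = gdm d + gdm e := by
  unfold gdm
  rw [Finsupp.sum_add_index']
  · simp
  · intro a b c; ring

@[simp] theorem gdm_zero : gdm 0 = 0 := by simp [gdm]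

@[simp] theorem gdm_single (n a : ℕ) : gdm (Finsupp.single n a) = a * gd n := by
  simp [gdm]

theorem GLT.zero (D : ℕ) : GLT D (0 : MvPolynomial ℕ K) := by
  intro d hd
  simp at hd

theorem GLT.mono {D E : ℕ} (h : D ≤ E) {f : MvPolynomial ℕ K} (hf : GLT D f) : GLT E f :=
  fun d hd => (hf d hd).trans_le h

theorem GLT.add {D : ℕ} {f g : MvPolynomial ℕ K} (hf : GLT D f) (hg : GLT D g) :
    GLT D (f + g) := by
  intro d hd
  rw [coeff_add] at hd
  by_cases h : coeff d f = 0
  · exact hg d (by rw [h, zero_add] at hd; exact hd)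
  · exact hf d h

theorem GLT.neg {D : ℕ} {f : MvPolynomial ℕ K} (hf : GLT D f) : GLT D (-f) := by
  intro d hd
  rw [coeff_neg, neg_ne_zero] at hd
  exact hf d hd

theorem GLT.sub {D : ℕ} {f g : MvPolynomial ℕ K} (hf : GLT D f) (hg : GLT D g) :
    GLT D (f - g) := by
  rw [sub_eq_add_neg]; exact hf.add hg.neg

theorem GLT.sum {ι : Type*} {D : ℕ} (s : Finset ι) (f : ι → MvPolynomial ℕ K)
    (h : ∀ i ∈ s, GLT D (f i)) : GLT D (∑ i ∈ s, f i) := by
  classical
  induction s using Finset.induction_on with
  | empty => simpa using GLT.zero D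
  | insert a s ha ih =>
    rw [sum_insert ha]
    exact (h a (mem_insert_self a s)).add (ih (fun i hi => h i (mem_insert_of_mem hi)))

theorem GLT.mul {a b : ℕ} {f g : MvPolynomial ℕ K} (hf : GLT (a + 1) f) (hg : GLT b g) :
    GLT (a + b) (f * g) := by
  classical
  intro d hd
  rw [coeff_mul] at hd
  obtain ⟨xy, hxy, hne⟩ := Finset.exists_ne_zero_of_sum_ne_zero hd
  rw [Finset.HasAntidiagonal.mem_antidiagonal] at hxy
  have h1 := hf xy.1 (left_ne_zero_of_mul hne)
  have h2 := hg xy.2 (right_ne_zero_of_mul hne)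
  rw [← hxy, gdm_add]
  omega

theorem glt_C (a : K) : GLT 1 (C a : MvPolynomial ℕ K) := by
  classical
  intro d hd
  rw [coeff_C] at hd
  by_cases h : 0 = d
  · rw [← h]; simp
  · simp [h] at hd

theorem glt_X (n : ℕ) : GLT (gd n + 1) (X n : MvPolynomial ℕ K) := by
  classical
  intro d hd
  rw [coeff_X] at hd
  by_cases h : Finsupp.single n 1 = d
  · rw [← h]; simp
  · simp [h] at hd

theorem GLT.c_mul {D : ℕ} {f : MvPolynomial ℕ K} (a : K) (hf : GLT D f) :
    GLT D (MvPolynomial.C a * f) := by
  have := GLT.mul (a := 0) (glt_C a) hf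
  simpa using this

theorem glt_monomial (d : ℕ →₀ ℕ) (a : K) : GLT (gdm d + 1) (monomial d a) := by
  classical
  intro e he
  rw [coeff_monomial] at he
  by_cases h : d = e
  · rw [h]; omega
  · simp [h] at he

theorem one_le_gd (n : ℕ) : 1 ≤ gd n := by
  cases n <;> simp [gd]

theorem GLT.dm (ν : K) (m : ℕ) {D : ℕ} {f : MvPolynomial ℕ K} (hf : GLT (D + 1) f) :
    GLT (D + 1) (Dm ν m f) := by
  classical
  rw [as_sum f, map_sum]
  apply GLT.sum
  intro d hd
  rw [mem_support_iff] at hd
  have hdD : gdm d < D + 1 := hf d hd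
  rw [Dm, mkDerivation_monomial, MvPolynomial.smul_eq_C_mul, Finsupp.sum]
  apply GLT.c_mul
  apply GLT.sum
  intro i hi
  rw [smul_eq_mul]
  have hdi : Finsupp.single i 1 ≤ d := by
    rw [Finsupp.single_le_iff]
    have := Finsupp.mem_support_iff.mp hi
    omega
  have h1 : gdm d = gdm (d - Finsupp.single i 1) + gd i := by
    conv_lhs => rw [← tsub_add_cancel_of_le hdi, gdm_add, gdm_single, one_mul]
  have h2 := one_le_gd i
  have h3 : gd (i + m + 1) = 1 := rfl
  have h4 := GLT.mul (a := gdm (d - Finsupp.single i 1))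
    (glt_monomial (d - Finsupp.single i 1) ((d i : ℕ) : K))
    ((glt_X (K := K) (i + m + 1)).c_mul (4 * ν * (i + 1)))
  apply h4.mono
  rw [h3]
  omega

theorem glt_qt {m : ℕ} (hm : 1 ≤ m) : GLT (qdeg m + 1) (qt m : MvPolynomial ℕ K) := by
  match m, hm with
  | 1, _ =>
    rw [qt, pow_two]
    exact (GLT.mul (a := 2) (b := 3) (glt_X (K := K) 0) (glt_X (K := K) 0)).mono (by simp [qdeg])
  | (k + 2), _ =>
    rw [qt]
    apply GLT.c_mul
    exact (GLT.mul (a := 2) (b := 2) (glt_X (K := K) 0) (glt_X (K := K) (k + 1))).mono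
      (by simp [qdeg])

theorem glt_qq_sub {m : ℕ} (hm : 1 ≤ m) : GLT (qdeg m) (qq m - qt m : MvPolynomial ℕ K) := by
  classical
  match m, hm with
  | 1, _ =>
    have : (qq 1 - qt 1 : MvPolynomial ℕ K) = 0 := by
      rw [qq, qt]
      simp [pow_two]
    rw [this]
    exact GLT.zero _
  | (k + 2), _ =>
    have h1 : (qq (k + 2) : MvPolynomial ℕ K) = ∑ i ∈ range (k + 2), X i * X (k + 1 - i) := by
      rw [qq]
      exact Finset.Nat.sum_antidiagonal_eq_sum_range_succ (fun a b => (X a * X b : MvPolynomial ℕ K))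
        (k + 1)
    have h2 : (qq (k + 2) - qt (k + 2) : MvPolynomial ℕ K)
        = ∑ i ∈ range k, X (i + 1) * X (k - i) := by
      rw [h1, sum_range_succ, sum_range_succ', qt]
      have h3 : ∀ i ∈ range k, (X (i + 1) * X (k + 1 - (i + 1)) : MvPolynomial ℕ K)
          = X (i + 1) * X (k - i) := by
        intro i _
        rw [Nat.add_sub_add_right]
      rw [sum_congr rfl h3, Nat.sub_self, Nat.sub_zero]
      have : (C 2 : MvPolynomial ℕ K) = 2 := map_ofNat C 2
      rw [this]
      ring
    rw [h2]
    apply GLT.sum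
    intro i hi
    rw [mem_range] at hi
    obtain ⟨j, hj⟩ : ∃ j, k - i = j + 1 := ⟨k - i - 1, by omega⟩
    rw [hj]
    exact (GLT.mul (a := 1) (b := 2) (glt_X (K := K) (i + 1)) (glt_X (K := K) (j + 1))).mono
      (by simp [qdeg])

/-- D1, with the degree of the symbol -/
theorem VL_symbol' (ν : K) (l : List ℕ) (hl : ∀ m ∈ l, 1 ≤ m) :
    GLT (l.map qdeg).sum (VL 0 ν l 1 - (l.map qt).prod) ∧
      GLT ((l.map qdeg).sum + 1) ((l.map qt).prod : MvPolynomial ℕ K) := by
  induction l with
  | nil =>
    refine ⟨?_, ?_⟩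
    · simpa using GLT.zero (K := K) 0
    · simpa using glt_C (1 : K)
  | cons m l ih =>
    obtain ⟨ih1, ih2⟩ := ih (fun m hm => hl m (List.mem_cons_of_mem _ hm))
    have hm : 1 ≤ m := hl m List.mem_cons_self
    have hV : GLT ((l.map qdeg).sum + 1) (VL 0 ν l 1) := by
      have : (VL 0 ν l 1 : MvPolynomial ℕ K) = (VL 0 ν l 1 - (l.map qt).prod) + (l.map qt).prod := by
        ring
      rw [this]
      exact (ih1.mono (Nat.le_succ _)).add ih2
    rw [VL_cons, List.map_cons, List.map_cons, List.prod_cons, List.sum_cons]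
    refine ⟨?_, ?_⟩
    · have h1 : (Lop 0 ν m (VL 0 ν l 1) - qt m * (l.map qt).prod : MvPolynomial ℕ K)
          = ((qq m - qt m) * VL 0 ν l 1 + (C (2 * (0 + m * (ν - 1))) * X m) * VL 0 ν l 1
            + Dm ν m (VL 0 ν l 1)) + qt m * (VL 0 ν l 1 - (l.map qt).prod) := by
        rw [Lop]; ring
      rw [h1]
      have hq3 : 3 ≤ qdeg m := by
        unfold qdeg; split <;> omega
      obtain ⟨q, hq⟩ : ∃ q, qdeg m = q + 1 := ⟨qdeg m - 1, by omega⟩
      obtain ⟨k, rfl⟩ : ∃ k, m = k + 1 := ⟨m - 1, by omega⟩
      apply GLT.add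
      · apply GLT.add
        · apply GLT.add
          · have h2 := glt_qq_sub (K := K) hm
            rw [hq] at h2 ⊢
            exact (GLT.mul h2 hV).mono (by omega)
          · have h2 : GLT (q + 1) (C (2 * (0 + ((k + 1 : ℕ) : K) * (ν - 1))) * X (k + 1) :
                MvPolynomial ℕ K) := by
              apply GLT.c_mul
              have h6 : gd (k + 1) = 1 := rfl
              exact (glt_X (K := K) (k + 1)).mono (by omega)
            rw [hq]
            exact (GLT.mul h2 hV).mono (by omega)
        · exact (hV.dm ν (k + 1)).mono (by omega)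
      · exact GLT.mul (glt_qt hm) ih1
    · exact (GLT.mul (glt_qt hm) ih2).mono (by omega)

/-- D1 -/
theorem VL_symbol (ν : K) (l : List ℕ) (hl : ∀ m ∈ l, 1 ≤ m) :
    GLT (l.map qdeg).sum (VL 0 ν l 1 - (l.map qt).prod) :=
  (VL_symbol' ν l hl).1

/-- exponent of `qt m` -/
noncomputable def em : ℕ → (ℕ →₀ ℕ)
  | 0 => 0
  | 1 => Finsupp.single 0 2
  | (m + 2) => Finsupp.single 0 1 + Finsupp.single (m + 1) 1

/-- coefficient of `qt m` -/
def cm : ℕ → ℚ
  | 1 => 1
  | _ => 2

theorem cm_ne_zero (m : ℕ) : cm m ≠ 0 := by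
  unfold cm
  split <;> norm_num

theorem qt_eq {m : ℕ} (hm : 1 ≤ m) :
    (qt m : MvPolynomial ℕ K) = monomial (em m) (algebraMap ℚ K (cm m)) := by
  match m, hm with
  | 1, _ =>
    rw [qt, em, cm, map_one, X_pow_eq_monomial]
  | (k + 2), _ =>
    have h1 : algebraMap ℚ K (cm (k + 2)) = 2 := by
      change algebraMap ℚ K 2 = 2
      exact map_ofNat _ 2
    rw [qt, em, h1, X, X, monomial_mul, C_mul_monomial]
    simp

theorem wtm_em {m : ℕ} (hm : 1 ≤ m) : wtm (em m) = m + 1 := by
  match m, hm with
  | 1, _ => simp [em]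
  | (k + 2), _ => simp [em, wtm_add]; omega

theorem gdm_em {m : ℕ} (hm : 1 ≤ m) : gdm (em m) = qdeg m := by
  match m, hm with
  | 1, _ => simp [em, gd, qdeg]
  | (k + 2), _ => simp [em, gdm_add, gd, qdeg]

theorem prod_qt (l : List ℕ) (hl : ∀ m ∈ l, 1 ≤ m) :
    ((l.map qt).prod : MvPolynomial ℕ K)
      = monomial (l.map em).sum (algebraMap ℚ K (l.map cm).prod) := by
  induction l with
  | nil => simp
  | cons m l ih =>
    rw [List.map_cons, List.prod_cons, ih fun m hm => hl m (List.mem_cons_of_mem _ hm),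
      qt_eq (hl m List.mem_cons_self), monomial_mul, List.map_cons, List.sum_cons, List.map_cons,
      List.prod_cons, map_mul (algebraMap ℚ K)]

theorem prod_cm_ne_zero (l : List ℕ) : (l.map cm).prod ≠ 0 := by
  induction l with
  | nil => simp
  | cons m l ih =>
    rw [List.map_cons, List.prod_cons]
    exact mul_ne_zero (cm_ne_zero m) ih

theorem wtm_sum_em (l : List ℕ) (hl : ∀ m ∈ l, 1 ≤ m) :
    wtm (l.map em).sum = (l.map (fun m => m + 1)).sum := by
  induction l with
  | nil => simp
  | cons m l ih =>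
    rw [List.map_cons, List.sum_cons, wtm_add, ih fun m hm => hl m (List.mem_cons_of_mem _ hm),
      wtm_em (hl m List.mem_cons_self), List.map_cons, List.sum_cons]

theorem gdm_sum_em (l : List ℕ) (hl : ∀ m ∈ l, 1 ≤ m) :
    gdm (l.map em).sum = (l.map qdeg).sum := by
  induction l with
  | nil => simp
  | cons m l ih =>
    rw [List.map_cons, List.sum_cons, gdm_add, ih fun m hm => hl m (List.mem_cons_of_mem _ hm),
      gdm_em (hl m List.mem_cons_self), List.map_cons, List.sum_cons]

theorem em_apply {m : ℕ} (hm : 1 ≤ m) (k : ℕ) : em m (k + 1) = if m = k + 2 then 1 else 0 := by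
  classical
  match m, hm with
  | 1, _ =>
    rw [em, Finsupp.single_apply, if_neg (by omega), if_neg (by omega)]
  | (j + 2), _ =>
    rw [em, Finsupp.add_apply, Finsupp.single_apply, Finsupp.single_apply, if_neg (by omega),
      zero_add]
    by_cases h : j = k
    · rw [if_pos (by omega), if_pos (by omega)]
    · rw [if_neg (by omega), if_neg (by omega)]

theorem sum_em_apply (l : List ℕ) (hl : ∀ m ∈ l, 1 ≤ m) (k : ℕ) :
    (l.map em).sum (k + 1) = l.count (k + 2) := by
  induction l with
  | nil => simp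
  | cons m l ih =>
    rw [List.map_cons, List.sum_cons, Finsupp.add_apply,
      ih fun m hm => hl m (List.mem_cons_of_mem _ hm), em_apply (hl m List.mem_cons_self),
      List.count_cons]
    by_cases h : m = k + 2
    · simp [h, add_comm]
    · simp [h]

/-- members of `lst lam` are positive iff there is no part `1` -/
theorem one_le_of_mem_lst {N : ℕ} {lam : Nat.Partition N} (h : 1 ∉ lam.parts) :
    ∀ m ∈ lst lam, 1 ≤ m := by
  intro m hm
  rw [lst, Multiset.mem_toList, Multiset.mem_map] at hm
  obtain ⟨a, ha, rfl⟩ := hm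
  have h1 := lam.parts_pos ha
  have h2 : a ≠ 1 := fun h3 => h (h3 ▸ ha)
  omega

theorem sum_lst' {N : ℕ} (lam : Nat.Partition N) : ((lst lam).map (fun m => m + 1)).sum = N := by
  have h := wtm_expo lam
  rw [expo, wtm_toFinsupp] at h
  rw [← Multiset.sum_coe, ← Multiset.map_coe, lst, Multiset.coe_toList]
  exact h

/-- exponent of the symbol of the PBW vector -/
noncomputable def esym {N : ℕ} (lam : Nat.Partition N) : ℕ →₀ ℕ := ((lst lam).map em).sum

theorem wtm_esym {N : ℕ} {lam : Nat.Partition N} (h : 1 ∉ lam.parts) : wtm (esym lam) = N := by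
  rw [esym, wtm_sum_em _ (one_le_of_mem_lst h), sum_lst']

theorem count_lst {N : ℕ} (lam : Nat.Partition N) (a : ℕ) (ha : 1 ≤ a) :
    (lst lam).count (a - 1) = lam.parts.count a := by
  rw [lst, ← Multiset.coe_count, Multiset.coe_toList, Multiset.count_map]
  rw [Multiset.count, Multiset.countP_eq_card_filter]
  congr 1
  apply Multiset.filter_congr
  intro x hx
  have := lam.parts_pos hx
  omega

theorem esym_injective {N : ℕ} {lam mu : Nat.Partition N} (hl : 1 ∉ lam.parts)
    (hm : 1 ∉ mu.parts) (h : esym lam = esym mu) : lam = mu := by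
  have h3 : ∀ k, lam.parts.count (k + 3) = mu.parts.count (k + 3) := by
    intro k
    have h1 := sum_em_apply (lst lam) (one_le_of_mem_lst hl) k
    have h2 := sum_em_apply (lst mu) (one_le_of_mem_lst hm) k
    rw [← esym] at h1 h2
    rw [← h, h1] at h2
    have e1 := count_lst lam (k + 3) (by omega)
    have e2 := count_lst mu (k + 3) (by omega)
    rw [← e1, ← e2]
    exact h2
  have hne : ∀ a, a ≠ 2 → lam.parts.count a = mu.parts.count a := by
    intro a ha
    match a, ha with
    | 0, _ =>
      rw [Multiset.count_eq_zero.2 (fun h => absurd (lam.parts_pos h) (lt_irrefl _)),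
        Multiset.count_eq_zero.2 (fun h => absurd (mu.parts_pos h) (lt_irrefl _))]
    | 1, _ => rw [Multiset.count_eq_zero.2 hl, Multiset.count_eq_zero.2 hm]
    | (k + 3), _ => exact h3 k
  have hf : lam.parts.filter (fun a => ¬ a = 2) = mu.parts.filter (fun a => ¬ a = 2) := by
    ext a
    rw [Multiset.count_filter, Multiset.count_filter]
    by_cases ha : a = 2
    · rw [if_neg (not_not.2 ha), if_neg (not_not.2 ha)]
    · rw [if_pos ha, if_pos ha, hne a ha]
  have hs : ∀ kap : Nat.Partition N, 2 * kap.parts.count 2 +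
      (kap.parts.filter (fun a => ¬ a = 2)).sum = N := by
    intro kap
    have h4 := Multiset.filter_add_not (fun a => a = 2) kap.parts
    have h5 := congrArg Multiset.sum h4
    rw [Multiset.sum_add, kap.parts_sum] at h5
    have h6 : kap.parts.filter (fun a => a = 2) = Multiset.replicate (kap.parts.count 2) 2 :=
      Multiset.filter_eq' _ _
    rw [h6, Multiset.sum_replicate, smul_eq_mul] at h5
    omega
  have h2 : lam.parts.count 2 = mu.parts.count 2 := by
    have h4 := hs lam
    have h5 := hs mu
    rw [hf] at h4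
    omega
  apply Nat.Partition.ext
  ext a
  by_cases ha : a = 2
  · rw [ha, h2]
  · exact hne a ha

/-- a partition is good if its monomial is the symbol of a PBW vector -/
def Good {N : ℕ} (mu : Nat.Partition N) : Prop :=
  ∃ lam : Nat.Partition N, 1 ∉ lam.parts ∧ expo mu = esym lam

open Classical in
theorem card_bad (N : ℕ) :
    Fintype.card {mu : Nat.Partition (N + 1) // ¬ Good mu} = Fintype.card (Nat.Partition N) := by
  have h1 : Fintype.card {mu : Nat.Partition (N + 1) // Good mu}
      = Fintype.card {lam : Nat.Partition (N + 1) // 1 ∉ lam.parts} := by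
    have hex : ∀ mu : {mu : Nat.Partition (N + 1) // Good mu},
        ∃ lam : {lam : Nat.Partition (N + 1) // 1 ∉ lam.parts}, expo mu.1 = esym lam.1 := by
      rintro ⟨mu, lam, h1, h2⟩
      exact ⟨⟨lam, h1⟩, h2⟩
    choose F hF using hex
    apply Fintype.card_of_bijective (f := F)
    constructor
    · intro mu mu' h
      apply Subtype.ext
      apply expo_injective
      rw [hF, hF, h]
    · rintro ⟨lam, hlam⟩
      obtain ⟨mu, hmu⟩ := exists_expo (esym lam) (wtm_esym hlam)
      refine ⟨⟨mu, lam, hlam, hmu⟩, ?_⟩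
      apply Subtype.ext
      apply esym_injective (F _).2 hlam
      rw [← hF]
      exact hmu
  have h2 : Fintype.card {lam : Nat.Partition (N + 1) // 1 ≤ lam.parts.count 1}
      = Fintype.card (Nat.Partition N) := by
    rw [Fintype.card_subtype]
    have := card_filter_count (N + 1) 1 1 le_rfl (by omega)
    rw [this, pN]
    congr 1
  have h3 : Fintype.card {lam : Nat.Partition (N + 1) // 1 ≤ lam.parts.count 1}
      = Fintype.card {lam : Nat.Partition (N + 1) // ¬ 1 ∉ lam.parts} := by
    apply Fintype.card_congr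
    apply Equiv.subtypeEquivRight
    intro lam
    rw [not_not, Multiset.one_le_count_iff_mem]
  have h4 := Fintype.card_subtype_compl (fun mu : Nat.Partition (N + 1) => Good mu)
  have h5 := Fintype.card_subtype_compl (fun lam : Nat.Partition (N + 1) => 1 ∉ lam.parts)
  rw [← h3, h2] at h5
  rw [h4, h1, h5]

open Classical in
/-- the spanning family: bad monomials and PBW vectors without part `1` -/
noncomputable def spv (ν : K) (N : ℕ) : Nat.Partition N ⊕ Nat.Partition N → MvPolynomial ℕ K
  | Sum.inl mu => if Good mu then 0 else monomial (expo mu) 1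
  | Sum.inr lam => if 1 ∈ lam.parts then 0 else VL 0 ν (lst lam) 1

theorem hz_VL_lst (ν : K) {N : ℕ} (lam : Nat.Partition N) : HZ (N : ℤ) (VL 0 ν (lst lam) 1) := by
  refine (hz_one.vl 0 ν (lst lam)).congr ?_
  rw [sum_lst]; ring

/-- every homogeneous polynomial is in the span -/
theorem mem_span_spv (ν : K) (N : ℕ) : ∀ (D : ℕ) (F : MvPolynomial ℕ K), HZ (N : ℤ) F → GLT D F →
    F ∈ Submodule.span K (Set.range (spv ν N)) := by
  classical
  intro D
  induction D with
  | zero =>
    intro F _ hF
    have : F = 0 := by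
      ext d
      rw [coeff_zero]
      by_contra h
      exact absurd (hF d h) (Nat.not_lt_zero _)
    rw [this]
    exact Submodule.zero_mem _
  | succ D ih =>
    intro F hF hFD
    rw [hF.eq_sum]
    apply Submodule.sum_mem
    intro mu _
    rw [← MvPolynomial.smul_eq_C_mul]
    by_cases hc : coeff (expo mu) F = 0
    · rw [hc, zero_smul]
      exact Submodule.zero_mem _
    apply Submodule.smul_mem
    have hg : gdm (expo mu) < D + 1 := hFD _ hc
    by_cases hgood : Good mu
    · obtain ⟨lam, hlam, he⟩ := hgood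
      have hl := one_le_of_mem_lst hlam
      have h1 := VL_symbol ν (lst lam) hl
      rw [prod_qt (lst lam) hl, ← esym, ← he, ← gdm_sum_em _ hl, ← esym, ← he] at h1
      set c : K := algebraMap ℚ K ((lst lam).map cm).prod with hcdef
      have h2 : HZ (N : ℤ) (VL 0 ν (lst lam) 1 - monomial (expo mu) c) := by
        apply (hz_VL_lst ν lam).sub
        exact (hz_monomial _ _).congr (by rw [wtm_expo])
      have h3 := ih _ h2 (h1.mono (by omega))
      have h4 : VL 0 ν (lst lam) 1 ∈ Submodule.span K (Set.range (spv ν N)) := by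
        apply Submodule.subset_span
        refine ⟨Sum.inr lam, ?_⟩
        simp only [spv]
        rw [if_neg hlam]
      have h5 : monomial (expo mu) c ∈ Submodule.span K (Set.range (spv ν N)) := by
        have : (monomial (expo mu) c : MvPolynomial ℕ K)
            = VL 0 ν (lst lam) 1 - (VL 0 ν (lst lam) 1 - monomial (expo mu) c) := by ring
        rw [this]
        exact Submodule.sub_mem _ h4 h3
      have h6 : (monomial (expo mu) (1 : K) : MvPolynomial ℕ K)
          = (algebraMap ℚ K (((lst lam).map cm).prod)⁻¹) • monomial (expo mu) c := by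
        have h7 : algebraMap ℚ K (((lst lam).map cm).prod)⁻¹ * c = 1 := by
          rw [hcdef, ← map_mul (algebraMap ℚ K), inv_mul_cancel₀ (prod_cm_ne_zero _),
            map_one (algebraMap ℚ K)]
        rw [MvPolynomial.smul_monomial, smul_eq_mul, h7]
      rw [h6]
      exact Submodule.smul_mem _ _ h5
    · apply Submodule.subset_span
      refine ⟨Sum.inl mu, ?_⟩
      simp only [spv]
      rw [if_neg hgood]

theorem exists_glt (F : MvPolynomial ℕ K) : ∃ D, GLT D F := by
  classical
  refine ⟨(F.support.sup gdm) + 1, fun d hd => ?_⟩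
  have : gdm d ≤ F.support.sup gdm := Finset.le_sup (mem_support_iff.2 hd)
  omega

theorem S_sub' (ν : K) (k : ℤ) (f g : MvPolynomial ℕ K) : S ν k (f - g) = S ν k f - S ν k g := by
  have : f - g = f + C (-1) * g := by rw [map_neg, C_1]; ring
  rw [this, S_add, S_C_mul, map_neg, C_1]
  ring

theorem S_sum' {ι : Type*} (ν : K) (k : ℤ) (s : Finset ι) (f : ι → MvPolynomial ℕ K) :
    S ν k (∑ i ∈ s, f i) = ∑ i ∈ s, S ν k (f i) := by
  classical
  induction s using Finset.induction_on with
  | empty => simp [S_zero]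
  | insert a s ha ih => rw [sum_insert ha, sum_insert ha, S_add, ih]

/-- the mode `S^{(1)}` kills the PBW vectors -/
theorem S_one_VL (ν : K) (l : List ℕ) : S ν 1 (VL 0 ν l 1) = 0 := by
  rw [S_VL 0 ν 1 (by simp)]
  have h1 : S ν 1 (1 : MvPolynomial ℕ K) = 0 := by
    rw [← C_1, S_C, PZ_neg (by norm_num), mul_zero]
  rw [h1]
  induction l with
  | nil => rfl
  | cons m l ih => rw [VL_cons, ih, Lop_zero_arg]

/-- D2. `hsurj` will be supplied by `S1_surjective`. -/
theorem kernel_span (ν : K)
    (hsurj : ∀ (n : ℤ) (g : MvPolynomial ℕ K), HZ n g → ∃ f, HZ (n + 1) f ∧ S ν 1 f = g)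
    (N : ℕ) (f : MvPolynomial ℕ K) (hf : HZ (N : ℤ) f) (hS : S ν 1 f = 0) :
    ∃ c : Nat.Partition N → K, (∀ lam, 1 ∈ lam.parts → c lam = 0) ∧
      f = ∑ lam, C (c lam) * VL 0 ν (lst lam) 1 := by
  classical
  -- decomposition of a homogeneous polynomial
  have hdec : ∀ F : MvPolynomial ℕ K, HZ (N : ℤ) F →
      ∃ (b : {mu : Nat.Partition N // ¬ Good mu} → K) (c : Nat.Partition N → K),
        (∀ lam, 1 ∈ lam.parts → c lam = 0) ∧
        F = ∑ mu, C (b mu) * monomial (expo mu.1) 1 + ∑ lam, C (c lam) * VL 0 ν (lst lam) 1 := by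
    intro F hF
    obtain ⟨D, hD⟩ := exists_glt F
    obtain ⟨x, hx⟩ := (Submodule.mem_span_range_iff_exists_fun K).1 (mem_span_spv ν N D F hF hD)
    refine ⟨fun mu => x (Sum.inl mu.1), fun lam => if 1 ∈ lam.parts then 0 else x (Sum.inr lam),
      fun lam h => if_pos h, ?_⟩
    rw [← hx, Fintype.sum_sum_type]
    congr 1
    · have h1 : ∀ mu : Nat.Partition N, x (Sum.inl mu) • spv ν N (Sum.inl mu)
          = if ¬ Good mu then C (x (Sum.inl mu)) * monomial (expo mu) (1 : K) else 0 := by
        intro mu
        simp only [spv]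
        by_cases h : Good mu
        · rw [if_pos h, if_neg (not_not.2 h), smul_zero]
        · rw [if_neg h, if_pos h, MvPolynomial.smul_eq_C_mul]
      rw [Finset.sum_congr rfl fun mu _ => h1 mu, ← Finset.sum_filter]
      exact (Finset.sum_subtype_of_mem (p := fun mu : Nat.Partition N => ¬ Good mu)
        (fun mu : Nat.Partition N => (C (x (Sum.inl mu)) * monomial (expo mu) (1 : K) :
          MvPolynomial ℕ K)) (fun mu hmu => (Finset.mem_filter.1 hmu).2)).symm.trans (by
            apply Finset.sum_congr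
            · ext mu
              simp [mu.2]
            · intro mu _; rfl)
    · apply Finset.sum_congr rfl
      intro lam _
      simp only [spv]
      by_cases h : 1 ∈ lam.parts
      · rw [if_pos h, if_pos h, smul_zero, C_0, zero_mul]
      · rw [if_neg h, if_neg h, MvPolynomial.smul_eq_C_mul]
  have hSF : ∀ (b : {mu : Nat.Partition N // ¬ Good mu} → K) (c : Nat.Partition N → K),
      S ν 1 (∑ mu, C (b mu) * monomial (expo mu.1) 1 + ∑ lam, C (c lam) * VL 0 ν (lst lam) 1)
        = ∑ mu, C (b mu) * S ν 1 (monomial (expo mu.1) 1) := by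
    intro b c
    rw [S_add, S_sum', S_sum']
    have h1 : ∑ lam : Nat.Partition N, S ν 1 (C (c lam) * VL 0 ν (lst lam) 1) = 0 := by
      apply Finset.sum_eq_zero
      intro lam _
      rw [S_C_mul, S_one_VL, mul_zero]
    rw [h1, add_zero]
    exact Finset.sum_congr rfl fun mu _ => S_C_mul _ _ _ _
  obtain ⟨b, c, hc, hbc⟩ := hdec f hf
  have hb : b = 0 := by
    rcases N with _ | N
    · -- weight zero: every monomial is good
      funext mu
      exfalso
      apply mu.2
      refine ⟨mu.1, ?_, ?_⟩
      · intro h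
        have h1 := mu.1.le_of_mem_parts h
        omega
      · have h0 : mu.1.parts = 0 := by
          by_contra h
          obtain ⟨a, ha⟩ := Multiset.exists_mem_of_ne_zero h
          have h1 := mu.1.le_of_mem_parts ha
          have h2 := mu.1.parts_pos ha
          omega
        rw [expo, esym, lst, h0]
        simp
    · let T : ({mu : Nat.Partition (N + 1) // ¬ Good mu} → K) →ₗ[K] (Nat.Partition N → K) :=
        { toFun := fun b kap => ∑ mu, b mu * coeff (expo kap) (S ν 1 (monomial (expo mu.1) 1))
          map_add' := by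
            intro x y
            funext kap
            simp only [Pi.add_apply, add_mul, Finset.sum_add_distrib]
          map_smul' := by
            intro r x
            funext kap
            simp only [Pi.smul_apply, smul_eq_mul, RingHom.id_apply, Finset.mul_sum, mul_assoc] }
      have hT : ∀ b kap, T b kap = coeff (expo kap)
          (∑ mu, C (b mu) * S ν 1 (monomial (expo mu.1) 1)) := by
        intro b kap
        rw [coeff_sum]
        change ∑ mu : {mu : Nat.Partition (N + 1) // ¬ Good mu},
          b mu * coeff (expo kap) (S ν 1 (monomial (expo mu.1) 1)) = _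
        apply Finset.sum_congr rfl
        intro mu _
        rw [coeff_C_mul]
      have hTs : Function.Surjective T := by
        intro g
        have hG : HZ (N : ℤ) (∑ kap : Nat.Partition N, C (g kap) * monomial (expo kap) (1 : K)) := by
          apply HZ.sum
          intro kap _
          apply HZ.c_mul
          exact (hz_monomial _ _).congr (by rw [wtm_expo])
        obtain ⟨F, hF, hFS⟩ := hsurj N _ hG
        obtain ⟨b, c, _, hbc⟩ := hdec F (hF.congr (by push_cast; ring))
        refine ⟨b, ?_⟩
        funext kap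
        rw [hT, ← hSF b c, ← hbc, hFS, coeff_sum, Finset.sum_eq_single kap]
        · rw [coeff_C_mul, coeff_monomial, if_pos rfl, mul_one]
        · intro mu _ hne
          rw [coeff_C_mul, coeff_monomial, if_neg (fun h => hne (expo_injective h)), mul_zero]
        · intro h
          exact absurd (Finset.mem_univ kap) h
      have hcard := card_bad N
      let e : {mu : Nat.Partition (N + 1) // ¬ Good mu} ≃ Nat.Partition N :=
        Fintype.equivOfCardEq hcard
      let T' : (Nat.Partition N → K) →ₗ[K] (Nat.Partition N → K) :=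
        T ∘ₗ (LinearEquiv.funCongrLeft K K e).toLinearMap
      have hT's : Function.Surjective T' :=
        hTs.comp (LinearEquiv.funCongrLeft K K e).surjective
      have hT'i : Function.Injective T' :=
        OrzechProperty.injective_of_surjective_endomorphism T' hT's
      have hTb : T b = 0 := by
        funext kap
        rw [hT, ← hSF b c, ← hbc, hS, coeff_zero]
        rfl
      obtain ⟨x, hx⟩ := (LinearEquiv.funCongrLeft K K e).surjective b
      have h1 : T' x = T' 0 := by
        rw [map_zero]
        change T ((LinearEquiv.funCongrLeft K K e) x) = 0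
        rw [hx, hTb]
      rw [← hx, hT'i h1, map_zero]
  refine ⟨c, hc, ?_⟩
  rw [hbc, hb]
  simp

end KernelSec

end Pool.Agent.LS
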