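import Pool.Agent.LS.Defs

/-!
# Invariant theory part for MP_ef3403_al (module C)

`MvPolynomial (Fin l × ℕ) ℂ` : the variable `(i, n)` stands for `x_{i,n+1} = √p α_i(-(n+1))`.
-/

namespace Pool.Agent.LS

open MvPolynomial Finset

variable {l : ℕ}

/-- the algebra of possible top symbols of elements of `ker S_i` -/
noncomputable def Gsub (A : Matrix (Fin l) (Fin l) ℤ) (i : Fin l) :
    Subalgebra ℂ (MvPolynomial (Fin l × ℕ) ℂ) :=
  Algebra.adjoin ℂ
    (({X (i, 0) ^ 2} ∪ Set.range (fun n : ℕ => X (i, 0) * X (i, n + 1))) ∪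
      Set.range (fun jn : Fin l × ℕ => X jn - C ((A i jn.1 : ℂ) / 2) * X (i, jn.2)))

/-- `P_j` as a polynomial in the `x_{i,1}` -/
noncomputable def P0 {A : Matrix (Fin l) (Fin l) ℤ} (B : BasicInvariants A) (j : Fin l) :
    MvPolynomial (Fin l × ℕ) ℂ :=
  rename (fun i => (i, 0)) (B.P j)

/-- `ω_{j,n} = ∑_i (∂P_j/∂x_i)(x_{·,1}) x_{i,n+2}` -/
noncomputable def omega {A : Matrix (Fin l) (Fin l) ℤ} (B : BasicInvariants A) (j : Fin l) (n : ℕ) :
    MvPolynomial (Fin l × ℕ) ℂ :=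
  ∑ i, rename (fun i => (i, 0)) (pderiv i (B.P j)) * X (i, n + 1)

end Pool.Agent.LS
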