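import Mathlib
import Pool.Agent.LS.Fock
import Pool.Agent.LS.Inv

/-!
# The screening operators in several variables and the reduction to rank one
-/

namespace Pool.Agent.LS

open MvPolynomial Finset

section Multi

variable {l : ℕ} {k : Type*} [CommRing k] [Algebra ℚ k]

theorem sigA_monomial (i : Fin l) (m : ℤ) (a : ℕ) (c : MvPolynomial (Fin l × ℕ) k) :
    sigA i m (Polynomial.monomial a c) = PA i (a - m) * c := by
  rw [sigA, Polynomial.lsum_apply, Polynomial.sum_monomial_index]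
  · rfl
  · simp

theorem sigA_X_pow_mul (i : Fin l) (m : ℤ) (j : ℕ) (p : Polynomial (MvPolynomial (Fin l × ℕ) k)) :
    sigA i m (Polynomial.X ^ j * p) = sigA i (m - j) p := by
  induction p using Polynomial.induction_on' with
  | add p q hp hq => rw [mul_add, map_add, map_add, hp, hq]
  | monomial a c =>
    rw [Polynomial.X_pow_mul, Polynomial.monomial_mul_X_pow, sigA_monomial, sigA_monomial]
    have : ((a + j : ℕ) : ℤ) - m = a - (m - j) := by push_cast; ring
    rw [this]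

theorem SA_C (A : Matrix (Fin l) (Fin l) ℤ) (ν : k) (i : Fin l) (m : ℤ) (a : k) :
    SA A ν i m (C a) = C a * PA i (-m) := by
  unfold SA
  have h : tauA A ν i (C a) = Polynomial.C (C a) := by
    rw [← algebraMap_eq, AlgHom.commutes]
    rfl
  rw [h, ← Polynomial.monomial_zero_left, sigA_monomial, mul_comm]
  have : ((0 : ℕ) : ℤ) - m = -m := by simp
  rw [this]

theorem SA_X_mul (A : Matrix (Fin l) (Fin l) ℤ) (ν : k) (i : Fin l) (m : ℤ) (a : Fin l × ℕ)
    (f : MvPolynomial (Fin l × ℕ) k) :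
    SA A ν i m (X a * f) = X a * SA A ν i m f
      - C (ν * (A i a.1 : k)) * SA A ν i (m - (a.2 + 1)) f := by
  unfold SA
  rw [map_mul]
  have h : tauA A ν i (X a) = Polynomial.C (X a)
      - Polynomial.C (C (ν * (A i a.1 : k))) * Polynomial.X ^ (a.2 + 1) := by
    rw [tauA, aeval_X]
  rw [h, sub_mul, map_sub, mul_assoc, ← Polynomial.smul_eq_C_mul, ← Polynomial.smul_eq_C_mul,
    map_smul, map_smul, sigA_X_pow_mul, smul_eq_mul, smul_eq_mul]
  push_cast
  rfl

/-- base change of `S_i^{(m)}` -/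
theorem map_SA {k' : Type*} [CommRing k'] [Algebra ℚ k'] (φ : k →+* k')
    (A : Matrix (Fin l) (Fin l) ℤ) (ν : k) (i : Fin l)
    (f : MvPolynomial (Fin l × ℕ) k) :
    ∀ m : ℤ, map φ (SA A ν i m f) = SA A (φ ν) i m (map φ f) := by
  have hPA : ∀ m : ℤ, map φ (PA i m : MvPolynomial (Fin l × ℕ) k) = PA i m := by
    intro m
    rw [PA, map_rename, map_PZ, PA]
  induction f using MvPolynomial.induction_on with
  | C c =>
    intro m
    rw [SA_C, map_mul, map_C, hPA, SA_C]
  | add f g hf hg =>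
    intro m
    rw [SA_add, map_add, map_add, SA_add, hf, hg]
  | mul_X f a hf =>
    intro m
    rw [mul_comm, SA_X_mul, map_sub, map_mul (map φ) (X a), map_mul (map φ) (C _),
      map_mul (map φ) (X a), map_C, map_X, SA_X_mul, hf, hf, map_mul φ, map_intCast]

end Multi

section Rank1

variable {l : ℕ}

/-- coefficient ring of the rank one theory in direction `i` -/
abbrev Ki (l : ℕ) (i : Fin l) := MvPolynomial {a : Fin l × ℕ // a.1 ≠ i} ℂ

/-- `x_{i,n} ↦ x_n`, `x_{j,n} ↦ c_{j,n} + (A_{ij}/2) x_n` -/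
noncomputable def PsiR (A : Matrix (Fin l) (Fin l) ℤ) (i : Fin l) :
    MvPolynomial (Fin l × ℕ) ℂ →ₐ[ℂ] MvPolynomial ℕ (Ki l i) :=
  aeval (fun a => if h : a.1 = i then X a.2
    else C (X (⟨a, h⟩ : {a : Fin l × ℕ // a.1 ≠ i})) + C (C ((A i a.1 : ℂ) / 2)) * X a.2)

/-- `c_{j,n} ↦ x_{j,n} - (A_{ij}/2) x_{i,n}` -/
noncomputable def phi0 (A : Matrix (Fin l) (Fin l) ℤ) (i : Fin l) :
    Ki l i →ₐ[ℂ] MvPolynomial (Fin l × ℕ) ℂ :=
  aeval (fun a => X a.1 - C ((A i a.1.1 : ℂ) / 2) * X (i, a.1.2))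

/-- the inverse of `PsiR` -/
noncomputable def Phi (A : Matrix (Fin l) (Fin l) ℤ) (i : Fin l) :
    MvPolynomial ℕ (Ki l i) →+* MvPolynomial (Fin l × ℕ) ℂ :=
  eval₂Hom (phi0 A i).toRingHom (fun n => X (i, n))

theorem Phi_C (A : Matrix (Fin l) (Fin l) ℤ) (i : Fin l) (c : Ki l i) :
    Phi A i (C c) = phi0 A i c := by
  rw [Phi, eval₂Hom_C]; rfl

theorem Phi_X (A : Matrix (Fin l) (Fin l) ℤ) (i : Fin l) (n : ℕ) :
    Phi A i (X n) = X (i, n) := by
  rw [Phi, eval₂Hom_X']

theorem PsiR_X (A : Matrix (Fin l) (Fin l) ℤ) (i : Fin l) (a : Fin l × ℕ) :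
    PsiR A i (X a) = if h : a.1 = i then X a.2
    else C (X (⟨a, h⟩ : {a : Fin l × ℕ // a.1 ≠ i})) + C (C ((A i a.1 : ℂ) / 2)) * X a.2 := by
  rw [PsiR, aeval_X]

theorem PsiR_C (A : Matrix (Fin l) (Fin l) ℤ) (i : Fin l) (c : ℂ) :
    PsiR A i (C c) = C (C c) := by
  rw [← algebraMap_eq, AlgHom.commutes]; rfl

theorem Phi_PsiR (A : Matrix (Fin l) (Fin l) ℤ) (i : Fin l) (f : MvPolynomial (Fin l × ℕ) ℂ) :
    Phi A i (PsiR A i f) = f := by
  induction f using MvPolynomial.induction_on with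
  | C c =>
    rw [PsiR_C, Phi_C]
    rw [← algebraMap_eq, AlgHom.commutes]; rfl
  | add f g hf hg => rw [map_add, map_add, hf, hg]
  | mul_X f a hf =>
    rw [map_mul, map_mul, hf]
    have : Phi A i (PsiR A i (X a)) = X a := by
      rw [PsiR_X]
      by_cases h : a.1 = i
      · rw [dif_pos h, Phi_X]
        have : (i, a.2) = a := by rw [← h]
        rw [this]
      · rw [dif_neg h, map_add, map_mul, Phi_C, Phi_C, Phi_X]
        have h1 : phi0 A i (C ((A i a.1 : ℂ) / 2)) = C ((A i a.1 : ℂ) / 2) := by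
          rw [← algebraMap_eq, AlgHom.commutes]; rfl
        rw [h1, phi0, aeval_X]
        ring
    rw [this]

theorem PsiR_PA (A : Matrix (Fin l) (Fin l) ℤ) (i : Fin l) (m : ℤ) :
    PsiR A i (PA i m) = PZ m := by
  have h1 : ∀ f : MvPolynomial ℕ ℂ, PsiR A i (rename (fun n => (i, n)) f)
      = map (C : ℂ →+* Ki l i) f := by
    intro f
    induction f using MvPolynomial.induction_on with
    | C c => rw [rename_C, PsiR_C, map_C]
    | add f g hf hg => rw [map_add, map_add, map_add, hf, hg]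
    | mul_X f a hf =>
      rw [map_mul, map_mul, map_mul, hf, rename_X, PsiR_X, map_X, dif_pos rfl]
  rw [PA, h1, map_PZ]

/-- reduction to rank one -/
theorem PsiR_SA (A : Matrix (Fin l) (Fin l) ℤ) (hA : ∀ i, A i i = 2) (ν : ℂ) (i : Fin l)
    (f : MvPolynomial (Fin l × ℕ) ℂ) :
    ∀ k : ℤ, PsiR A i (SA A ν i k f) = S (C ν : Ki l i) k (PsiR A i f) := by
  induction f using MvPolynomial.induction_on with
  | C c =>
    intro k
    rw [SA_C, map_mul, PsiR_C, PsiR_PA, S_C]
  | add f g hf hg =>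
    intro k
    rw [SA_add, map_add, map_add, S_add, hf, hg]
  | mul_X f a hf =>
    intro k
    rw [mul_comm, SA_X_mul, map_sub, map_mul (PsiR A i) (X a), map_mul (PsiR A i) (C _),
      map_mul (PsiR A i) (X a), PsiR_C, hf, hf, PsiR_X]
    by_cases h : a.1 = i
    · rw [dif_pos h, S_X_mul, h, hA]
      push_cast
      have : (C (C (ν * 2)) : MvPolynomial ℕ (Ki l i)) = C (2 * C ν) := by
        rw [mul_comm, map_mul]; rfl
      rw [this]
    · rw [dif_neg h, add_mul, add_mul, S_add, S_C_mul, mul_assoc, mul_assoc, S_C_mul, S_X_mul]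
      have : (C (C (ν * (A i a.1 : ℂ))) : MvPolynomial ℕ (Ki l i))
          = C (C ((A i a.1 : ℂ) / 2)) * C (2 * C ν) := by
        rw [← map_mul]
        have h2 : (2 : Ki l i) = C 2 := rfl
        rw [h2, ← map_mul, ← map_mul]
        congr 2
        ring
      rw [this]
      ring

end Rank1

end Pool.Agent.LS
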