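import Mathlib
import Pool.Agent.LS.Multi
import Pool.Agent.LS.Kernel

/-!
# Top symbols of elements of `ker S_i`
-/

namespace Pool.Agent.LS

open MvPolynomial Finset

set_option linter.unusedSectionVars false

section Decomp

variable {K : Type*} [CommRing K] [Algebra ℚ K]

/-- component of weight `N` -/
noncomputable def wcomp (N : ℕ) (f : MvPolynomial ℕ K) : MvPolynomial ℕ K :=
  ∑ d ∈ f.support with wtm d = N, monomial d (coeff d f)

theorem coeff_wcomp (N : ℕ) (f : MvPolynomial ℕ K) (d : ℕ →₀ ℕ) :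
    coeff d (wcomp N f) = if wtm d = N then coeff d f else 0 := by
  classical
  rw [wcomp, coeff_sum]
  simp only [coeff_monomial]
  rw [Finset.sum_ite_eq' (f.support.filter (fun d => wtm d = N)) d (fun e => coeff e f)]
  by_cases h : wtm d = N
  · rw [if_pos h]
    by_cases h2 : coeff d f = 0
    · rw [h2]; simp
    · rw [if_pos]
      rw [mem_filter, mem_support_iff]
      exact ⟨h2, h⟩
  · rw [if_neg h, if_neg]
    rw [mem_filter]
    tauto

theorem hz_wcomp (N : ℕ) (f : MvPolynomial ℕ K) : HZ (N : ℤ) (wcomp N f) := by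
  intro d hd
  rw [coeff_wcomp] at hd
  by_cases h : wtm d = N
  · exact_mod_cast h
  · rw [if_neg h] at hd; exact absurd rfl hd

theorem sum_wcomp (f : MvPolynomial ℕ K) :
    ∃ M : ℕ, f = ∑ N ∈ range M, wcomp N f := by
  classical
  refine ⟨(f.support.sup wtm) + 1, ?_⟩
  ext d
  rw [coeff_sum]
  simp only [coeff_wcomp]
  rw [Finset.sum_ite_eq (range _) (wtm d)]
  by_cases h2 : coeff d f = 0
  · rw [h2]; simp
  · rw [if_pos]
    rw [mem_range, Nat.lt_succ_iff]
    exact Finset.le_sup (f := wtm) (mem_support_iff.2 h2)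

theorem S_fsum {ι : Type*} (ν : K) (k : ℤ) (s : Finset ι) (f : ι → MvPolynomial ℕ K) :
    S ν k (∑ i ∈ s, f i) = ∑ i ∈ s, S ν k (f i) := by
  classical
  induction s using Finset.induction_on with
  | empty => simp [S_zero]
  | insert a s ha ih => rw [sum_insert ha, sum_insert ha, S_add, ih]

theorem S_wcomp (ν : K) (f : MvPolynomial ℕ K) (hS : S ν 1 f = 0) (N : ℕ) :
    S ν 1 (wcomp N f) = 0 := by
  classical
  obtain ⟨M, hM⟩ := sum_wcomp f
  have hz : ∀ N : ℕ, HZ ((N : ℤ) - 1) (S ν 1 (wcomp N f)) := fun N =>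
    ((hz_wcomp N f).smap ν 1)
  ext d
  rw [coeff_zero]
  by_contra hne
  have hN : ((wtm d : ℕ) : ℤ) = (N : ℤ) - 1 := hz N d hne
  have hmem : N ∈ range M := by
    by_contra hmem
    have : wcomp N f = 0 := by
      ext e
      rw [coeff_wcomp, coeff_zero]
      by_cases he : wtm e = N
      · rw [if_pos he]
        have h1 := congrArg (coeff e) hM
        rw [coeff_sum] at h1
        rw [h1]
        apply sum_eq_zero
        intro N' hN'
        rw [coeff_wcomp, if_neg]
        intro h3
        rw [← h3, he] at hN'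
        exact hmem hN'
      · rw [if_neg he]
    rw [this, S_zero, coeff_zero] at hne
    exact hne rfl
  have h1 : coeff d (S ν 1 f) = coeff d (S ν 1 (wcomp N f)) := by
    conv_lhs => rw [hM]
    rw [S_fsum, coeff_sum]
    rw [Finset.sum_eq_single N]
    · intro N' _ hN'
      by_contra h3
      have := hz N' d h3
      rw [hN] at this
      apply hN'
      omega
    · intro h; exact absurd hmem h
  rw [hS, coeff_zero] at h1
  exact hne h1.symm

/-- index set of the PBW vectors of the vacuum module -/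
abbrev PX := {x : Multiset ℕ // ∀ m ∈ x, 1 ≤ m}

theorem kernel_mem_span (ν : K)
    (hsurj : ∀ (n : ℤ) (g : MvPolynomial ℕ K), HZ n g → ∃ f, HZ (n + 1) f ∧ S ν 1 f = g)
    (f : MvPolynomial ℕ K) (hS : S ν 1 f = 0) :
    f ∈ Submodule.span K (Set.range (fun x : PX => VL 0 ν x.1.toList 1)) := by
  classical
  obtain ⟨M, hM⟩ := sum_wcomp f
  rw [hM]
  apply Submodule.sum_mem
  intro N _
  obtain ⟨c, hc0, hc⟩ := kernel_span ν hsurj N (wcomp N f) (hz_wcomp N f) (S_wcomp ν f hS N)
  rw [hc]
  apply Submodule.sum_mem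
  intro lam _
  by_cases h1 : 1 ∈ lam.parts
  · rw [hc0 lam h1, C_0, zero_mul]
    exact Submodule.zero_mem _
  · rw [← smul_eq_C_mul]
    apply Submodule.smul_mem
    apply Submodule.subset_span
    refine ⟨⟨lam.parts.map (· - 1), ?_⟩, rfl⟩
    intro m hm
    rw [Multiset.mem_map] at hm
    obtain ⟨a, ha, rfl⟩ := hm
    have h2 := lam.parts_pos ha
    have h3 : a ≠ 1 := fun h => h1 (h ▸ ha)
    omega

end Decomp

section QSym

/-- exponent of `qt m` -/
noncomputable def qe : ℕ → (ℕ →₀ ℕ)
  | 0 => 0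
  | 1 => Finsupp.single 0 2
  | (m + 2) => Finsupp.single 0 1 + Finsupp.single (m + 1) 1

theorem gdm_qe (m : ℕ) (hm : 1 ≤ m) : gdm (qe m) = qdeg m := by
  match m, hm with
  | 1, _ => rw [qe, gdm_single]; rfl
  | (m + 2), _ => rw [qe, gdm_add, gdm_single, gdm_single]; rfl

/-- exponent of the symbol of the PBW vector -/
noncomputable def ew (l : List ℕ) : ℕ →₀ ℕ := (l.map qe).sum

theorem ew_cons (m : ℕ) (l : List ℕ) : ew (m :: l) = qe m + ew l := by
  rw [ew, List.map_cons, List.sum_cons, ew]

theorem gdm_ew (l : List ℕ) (hl : ∀ m ∈ l, 1 ≤ m) : gdm (ew l) = (l.map qdeg).sum := by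
  induction l with
  | nil => simp [ew, gdm]
  | cons m l ih =>
    rw [ew_cons, gdm_add, List.map_cons, List.sum_cons, gdm_qe m (hl m (by simp)),
      ih (fun k hk => hl k (by simp [hk]))]

variable {K : Type*} [CommRing K]

theorem qt_prod (l : List ℕ) (hl : ∀ m ∈ l, 1 ≤ m) :
    ∃ k : ℕ, ((l.map qt).prod : MvPolynomial ℕ K) = monomial (ew l) (2 ^ k) := by
  induction l with
  | nil => exact ⟨0, by simp [ew]⟩
  | cons m l ih =>
    obtain ⟨k, hk⟩ := ih (fun k hk => hl k (by simp [hk]))
    have hm := hl m (by simp)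
    match m, hm with
    | 1, _ =>
      refine ⟨k, ?_⟩
      rw [List.map_cons, List.prod_cons, hk, ew_cons, qt, qe,
        X_pow_eq_monomial, monomial_mul, one_mul]
    | (m + 2), _ =>
      refine ⟨k + 1, ?_⟩
      rw [List.map_cons, List.prod_cons, hk, ew_cons, qt, qe]
      have : (C 2 * (X 0 * X (m + 1)) : MvPolynomial ℕ K)
          = monomial (Finsupp.single 0 1 + Finsupp.single (m + 1) 1) 2 := by
        rw [X, X, monomial_mul, one_mul, C_mul_monomial, mul_one]
      rw [this, monomial_mul, pow_succ, mul_comm]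

theorem ew_apply_succ (l : List ℕ) (n : ℕ) : ew l (n + 1) = l.count (n + 2) := by
  induction l with
  | nil => simp [ew]
  | cons m l ih =>
    rw [ew_cons, Finsupp.add_apply, ih, List.count_cons]
    match m with
    | 0 => simp [qe]
    | 1 => simp [qe]
    | (m + 2) =>
      rw [qe, Finsupp.add_apply, Finsupp.single_apply, Finsupp.single_apply]
      by_cases h : m = n
      · subst h; simp; ring
      · simp [h]

theorem ew_apply_zero (l : List ℕ) (hl : ∀ m ∈ l, 1 ≤ m) :
    ew l 0 = l.length + l.count 1 := by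
  induction l with
  | nil => simp [ew]
  | cons m l ih =>
    rw [ew_cons, Finsupp.add_apply, ih (fun k hk => hl k (by simp [hk])), List.count_cons, List.length_cons]
    have hm := hl m (by simp)
    match m, hm with
    | 1, _ => simp [qe]; ring
    | (m + 2), _ =>
      rw [qe, Finsupp.add_apply, Finsupp.single_apply, Finsupp.single_apply]
      simp; ring

end QSym

end Pool.Agent.LS
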