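import Mathlib
import Pool.Agent.LS.Sym

/-!
# The top symbol of an element of `ker S_i` lies in `Gsub A i`
-/

namespace Pool.Agent.LS

open MvPolynomial Finset

set_option linter.unusedSectionVars false

theorem ew_injective (x y : PX) (h : ew x.1.toList = ew y.1.toList) : x = y := by
  classical
  have hx1 : ∀ m ∈ x.1.toList, 1 ≤ m := fun m hm => x.2 m (Multiset.mem_toList.1 hm)
  have hy1 : ∀ m ∈ y.1.toList, 1 ≤ m := fun m hm => y.2 m (Multiset.mem_toList.1 hm)
  have hc : ∀ (z : Multiset ℕ) (n : ℕ), z.toList.count n = z.count n := by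
    intro z n
    rw [← Multiset.coe_count, Multiset.coe_toList]
  have h2 : ∀ n, x.1.count (n + 2) = y.1.count (n + 2) := by
    intro n
    have := DFunLike.congr_fun h (n + 1)
    rw [ew_apply_succ, ew_apply_succ, hc, hc] at this
    exact this
  have h0 := DFunLike.congr_fun h 0
  rw [ew_apply_zero _ hx1, ew_apply_zero _ hy1, hc, hc, Multiset.length_toList,
    Multiset.length_toList] at h0
  have hf : x.1.filter (fun m => 2 ≤ m) = y.1.filter (fun m => 2 ≤ m) := by
    ext n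
    rw [Multiset.count_filter, Multiset.count_filter]
    by_cases hn : 2 ≤ n
    · rw [if_pos hn, if_pos hn]
      obtain ⟨k, rfl⟩ := Nat.exists_eq_add_of_le hn
      rw [add_comm]
      exact h2 k
    · rw [if_neg hn, if_neg hn]
  have hcard : ∀ z : PX, Multiset.card z.1 = z.1.count 1 + Multiset.card (z.1.filter (fun m => 2 ≤ m)) := by
    intro z
    have h1 := Multiset.filter_add_not (fun m => 2 ≤ m) z.1
    have h3 : z.1.filter (fun m => ¬ 2 ≤ m) = z.1.filter (fun m => m = 1) := by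
      apply Multiset.filter_congr
      intro m hm
      have := z.2 m hm
      omega
    have h4 := congrArg Multiset.card h1
    rw [Multiset.card_add, h3, Multiset.filter_eq', Multiset.card_replicate] at h4
    omega
  rw [hcard x, hcard y, hf] at h0
  apply Subtype.ext
  ext n
  match n with
  | 0 =>
    rw [Multiset.count_eq_zero.2 (fun hm => absurd (x.2 0 hm) (by omega)),
      Multiset.count_eq_zero.2 (fun hm => absurd (y.2 0 hm) (by omega))]
  | 1 => omega
  | (n + 2) => exact h2 n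

section Top

variable {l : ℕ}

/-- g-weights of the variables -/
def gw (l : ℕ) : Fin l × ℕ → ℕ := fun a => gd a.2

/-- g-degree of an exponent -/
noncomputable def gwt (d : Fin l × ℕ →₀ ℕ) : ℕ := Finsupp.weight (gw l) d

theorem gwt_add (d e : Fin l × ℕ →₀ ℕ) : gwt (d + e) = gwt d + gwt e := by
  rw [gwt, map_add]; rfl

theorem gwt_single (a : Fin l × ℕ) (n : ℕ) : gwt (Finsupp.single a n) = n * gd a.2 := by
  rw [gwt, Finsupp.weight_single]; rfl

/-- `f` has g-degree `< D` -/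
def FLT (D : ℕ) (f : MvPolynomial (Fin l × ℕ) ℂ) : Prop := ∀ d, coeff d f ≠ 0 → gwt d < D

/-- `f` is g-homogeneous of degree `D` -/
def FEQ (D : ℕ) (f : MvPolynomial (Fin l × ℕ) ℂ) : Prop := ∀ d, coeff d f ≠ 0 → gwt d = D

/-- `g` is the symbol of `f` in degree `D` -/
def IsSym (D : ℕ) (f g : MvPolynomial (Fin l × ℕ) ℂ) : Prop := FEQ D g ∧ FLT D (f - g)

theorem FLT.add {D : ℕ} {f g : MvPolynomial (Fin l × ℕ) ℂ} (hf : FLT D f) (hg : FLT D g) :
    FLT D (f + g) := by
  intro d hd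
  rw [coeff_add] at hd
  by_cases h : coeff d f = 0
  · rw [h, zero_add] at hd; exact hg d hd
  · exact hf d h

theorem FEQ.add {D : ℕ} {f g : MvPolynomial (Fin l × ℕ) ℂ} (hf : FEQ D f) (hg : FEQ D g) :
    FEQ D (f + g) := by
  intro d hd
  rw [coeff_add] at hd
  by_cases h : coeff d f = 0
  · rw [h, zero_add] at hd; exact hg d hd
  · exact hf d h

theorem FLT.zero (D : ℕ) : FLT D (0 : MvPolynomial (Fin l × ℕ) ℂ) := by
  intro d hd; simp at hd

theorem FEQ.zero (D : ℕ) : FEQ D (0 : MvPolynomial (Fin l × ℕ) ℂ) := by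
  intro d hd; simp at hd

theorem exists_of_coeff_mul {f g : MvPolynomial (Fin l × ℕ) ℂ} {d : Fin l × ℕ →₀ ℕ}
    (hd : coeff d (f * g) ≠ 0) : ∃ d1 d2, d1 + d2 = d ∧ coeff d1 f ≠ 0 ∧ coeff d2 g ≠ 0 := by
  classical
  rw [coeff_mul] at hd
  obtain ⟨x, hx, hx2⟩ := Finset.exists_ne_zero_of_sum_ne_zero hd
  exact ⟨x.1, x.2, mem_antidiagonal.1 hx, left_ne_zero_of_mul hx2, right_ne_zero_of_mul hx2⟩

theorem FEQ.mul {D E : ℕ} {f g : MvPolynomial (Fin l × ℕ) ℂ} (hf : FEQ D f) (hg : FEQ E g) :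
    FEQ (D + E) (f * g) := by
  intro d hd
  obtain ⟨d1, d2, rfl, h1, h2⟩ := exists_of_coeff_mul hd
  rw [gwt_add, hf _ h1, hg _ h2]

theorem FLT.mul_feq {D E : ℕ} {f g : MvPolynomial (Fin l × ℕ) ℂ} (hf : FLT D f) (hg : FEQ E g) :
    FLT (D + E) (f * g) := by
  intro d hd
  obtain ⟨d1, d2, rfl, h1, h2⟩ := exists_of_coeff_mul hd
  have := hf _ h1
  have := hg _ h2
  rw [gwt_add]; omega

theorem FLT.mul_flt {D E : ℕ} {f g : MvPolynomial (Fin l × ℕ) ℂ} (hf : FLT D f) (hg : FLT E g) :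
    FLT (D + E) (f * g) := by
  intro d hd
  obtain ⟨d1, d2, rfl, h1, h2⟩ := exists_of_coeff_mul hd
  have := hf _ h1
  have := hg _ h2
  rw [gwt_add]; omega

theorem IsSym.mul {D E : ℕ} {f g f' g' : MvPolynomial (Fin l × ℕ) ℂ} (h : IsSym D f g)
    (h' : IsSym E f' g') : IsSym (D + E) (f * f') (g * g') := by
  refine ⟨h.1.mul h'.1, ?_⟩
  have : f * f' - g * g' = (f - g) * g' + (f' - g') * g + (f - g) * (f' - g') := by ring
  rw [this]
  refine ((h.2.mul_feq h'.1).add ?_).add (h.2.mul_flt h'.2)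
  rw [add_comm]
  exact h'.2.mul_feq h.1

theorem IsSym.add {D : ℕ} {f g f' g' : MvPolynomial (Fin l × ℕ) ℂ} (h : IsSym D f g)
    (h' : IsSym D f' g') : IsSym D (f + f') (g + g') := by
  refine ⟨h.1.add h'.1, ?_⟩
  have : f + f' - (g + g') = (f - g) + (f' - g') := by ring
  rw [this]
  exact h.2.add h'.2

theorem IsSym.zero (D : ℕ) : IsSym D (0 : MvPolynomial (Fin l × ℕ) ℂ) 0 := by
  refine ⟨FEQ.zero D, ?_⟩
  rw [sub_zero]; exact FLT.zero D

theorem IsSym.sum {ι : Type*} {D : ℕ} (s : Finset ι) (f g : ι → MvPolynomial (Fin l × ℕ) ℂ)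
    (h : ∀ i ∈ s, IsSym D (f i) (g i)) : IsSym D (∑ i ∈ s, f i) (∑ i ∈ s, g i) := by
  classical
  induction s using Finset.induction_on with
  | empty => simpa using IsSym.zero D
  | insert a s ha ih =>
    rw [sum_insert ha, sum_insert ha]
    exact (h a (mem_insert_self a s)).add (ih (fun i hi => h i (mem_insert_of_mem hi)))

theorem IsSym.of_feq {D : ℕ} {f : MvPolynomial (Fin l × ℕ) ℂ} (h : FEQ D f) : IsSym D f f := by
  refine ⟨h, ?_⟩
  rw [sub_self]; exact FLT.zero D

theorem IsSym.of_feq_lt {D E : ℕ} {f : MvPolynomial (Fin l × ℕ) ℂ} (h : FEQ E f) (hE : E < D) :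
    IsSym D f 0 := by
  refine ⟨FEQ.zero D, ?_⟩
  rw [sub_zero]
  intro d hd
  rw [h d hd]; exact hE

theorem IsSym.comp {D : ℕ} {f g : MvPolynomial (Fin l × ℕ) ℂ} (h : IsSym D f g) :
    weightedHomogeneousComponent (gw l) D f = g := by
  classical
  ext d
  rw [coeff_weightedHomogeneousComponent]
  by_cases hd : Finsupp.weight (gw l) d = D
  · rw [if_pos hd]
    by_contra hne
    have : coeff d (f - g) ≠ 0 := by
      rw [coeff_sub]; exact sub_ne_zero.2 hne
    have := h.2 d this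
    rw [gwt, hd] at this
    exact lt_irrefl _ this
  · rw [if_neg hd]
    by_contra hne
    exact hd (h.1 d (Ne.symm hne))

theorem feq_C (c : ℂ) : FEQ 0 (C c : MvPolynomial (Fin l × ℕ) ℂ) := by
  classical
  intro d hd
  rw [coeff_C] at hd
  by_cases h : 0 = d
  · rw [← h, gwt, map_zero]
  · rw [if_neg h] at hd; exact absurd rfl hd

theorem feq_X (a : Fin l × ℕ) : FEQ (gd a.2) (X a : MvPolynomial (Fin l × ℕ) ℂ) := by
  classical
  intro d hd
  rw [coeff_X] at hd
  by_cases h : Finsupp.single a 1 = d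
  · rw [← h, gwt_single, one_mul]
  · rw [if_neg h] at hd; exact absurd rfl hd

theorem FEQ.congr {D E : ℕ} {f : MvPolynomial (Fin l × ℕ) ℂ} (h : FEQ D f) (hDE : D = E) :
    FEQ E f := hDE ▸ h

theorem FEQ.pow {D : ℕ} {f : MvPolynomial (Fin l × ℕ) ℂ} (h : FEQ D f) (n : ℕ) :
    FEQ (n * D) (f ^ n) := by
  induction n with
  | zero => rw [pow_zero, zero_mul, ← C_1]; exact feq_C 1
  | succ n ih => rw [pow_succ]; exact (ih.mul h).congr (by ring)

theorem FEQ.prod {ι : Type*} (s : Finset ι) (D : ι → ℕ) (f : ι → MvPolynomial (Fin l × ℕ) ℂ)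
    (h : ∀ i ∈ s, FEQ (D i) (f i)) : FEQ (∑ i ∈ s, D i) (∏ i ∈ s, f i) := by
  classical
  induction s using Finset.induction_on with
  | empty => rw [prod_empty, sum_empty, ← C_1]; exact feq_C 1
  | insert a s ha ih =>
    rw [sum_insert ha, prod_insert ha]
    exact (h a (mem_insert_self a s)).mul (ih (fun i hi => h i (mem_insert_of_mem hi)))

/-! ### the filtration on the rank one side -/

variable {i : Fin l}

/-- g-degree of an exponent of the coefficient ring -/
noncomputable def gsm (e : {a : Fin l × ℕ // a.1 ≠ i} →₀ ℕ) : ℕ :=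
  Finsupp.weight (fun a : {a : Fin l × ℕ // a.1 ≠ i} => gd a.1.2) e

theorem gsm_add (d e : {a : Fin l × ℕ // a.1 ≠ i} →₀ ℕ) : gsm (d + e) = gsm d + gsm e := by
  rw [gsm, map_add]; rfl

theorem gsm_single (a : {a : Fin l × ℕ // a.1 ≠ i}) (n : ℕ) :
    gsm (Finsupp.single a n) = n * gd a.1.2 := by
  rw [gsm, Finsupp.weight_single]; rfl

/-- `f` has total g-degree `≤ D` -/
def GF (D : ℕ) (f : MvPolynomial ℕ (Ki l i)) : Prop :=
  ∀ d e, coeff e (coeff d f) ≠ 0 → gdm d + gsm e ≤ D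

theorem GF.add {D : ℕ} {f g : MvPolynomial ℕ (Ki l i)} (hf : GF D f) (hg : GF D g) :
    GF D (f + g) := by
  intro d e hd
  rw [coeff_add, coeff_add] at hd
  by_cases h : coeff e (coeff d f) = 0
  · rw [h, zero_add] at hd; exact hg d e hd
  · exact hf d e h

theorem GF.zero (D : ℕ) : GF D (0 : MvPolynomial ℕ (Ki l i)) := by
  intro d e hd; simp at hd

theorem GF.mono {D E : ℕ} {f : MvPolynomial ℕ (Ki l i)} (hf : GF D f) (h : D ≤ E) : GF E f :=
  fun d e hd => (hf d e hd).trans h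

theorem GF.sum {ι : Type*} {D : ℕ} (s : Finset ι) (f : ι → MvPolynomial ℕ (Ki l i))
    (h : ∀ j ∈ s, GF D (f j)) : GF D (∑ j ∈ s, f j) := by
  classical
  induction s using Finset.induction_on with
  | empty => rw [sum_empty]; exact GF.zero D
  | insert a s ha ih =>
    rw [sum_insert ha]
    exact (h a (mem_insert_self a s)).add (ih (fun j hj => h j (mem_insert_of_mem hj)))

theorem GF.mul {D E : ℕ} {f g : MvPolynomial ℕ (Ki l i)} (hf : GF D f) (hg : GF E g) :
    GF (D + E) (f * g) := by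
  classical
  intro d e hd
  rw [coeff_mul, coeff_sum] at hd
  obtain ⟨x, hx, hx2⟩ := Finset.exists_ne_zero_of_sum_ne_zero hd
  rw [coeff_mul] at hx2
  obtain ⟨y, hy, hy2⟩ := Finset.exists_ne_zero_of_sum_ne_zero hx2
  have h1 := hf x.1 y.1 (left_ne_zero_of_mul hy2)
  have h2 := hg x.2 y.2 (right_ne_zero_of_mul hy2)
  rw [← mem_antidiagonal.1 hx, ← mem_antidiagonal.1 hy, gdm_add, gsm_add]
  omega

theorem GF.pow {D : ℕ} {f : MvPolynomial ℕ (Ki l i)} (hf : GF D f) (n : ℕ) :
    GF (n * D) (f ^ n) := by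
  classical
  induction n with
  | zero =>
    intro d e hd
    rw [pow_zero, coeff_one] at hd
    by_cases h : 0 = d
    · rw [if_pos h, coeff_one] at hd
      by_cases h2 : 0 = e
      · rw [← h, ← h2]; simp [gdm, gsm]
      · rw [if_neg h2] at hd; exact absurd rfl hd
    · rw [if_neg h] at hd; simp at hd
  | succ n ih =>
    rw [pow_succ]
    exact (ih.mul hf).mono (by ring_nf; exact le_refl _)

theorem GF.prod {ι : Type*} (s : Finset ι) (D : ι → ℕ) (f : ι → MvPolynomial ℕ (Ki l i))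
    (h : ∀ j ∈ s, GF (D j) (f j)) : GF (∑ j ∈ s, D j) (∏ j ∈ s, f j) := by
  classical
  induction s using Finset.induction_on with
  | empty =>
    rw [prod_empty, sum_empty]
    have := (GF.zero (l := l) (i := i) 0).pow 0
    rwa [pow_zero, zero_mul] at this
  | insert a s ha ih =>
    rw [sum_insert ha, prod_insert ha]
    exact (h a (mem_insert_self a s)).mul (ih (fun j hj => h j (mem_insert_of_mem hj)))

theorem gf_C (c : ℂ) : GF 0 (C (C c) : MvPolynomial ℕ (Ki l i)) := by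
  classical
  intro d e hd
  rw [coeff_C] at hd
  by_cases h : 0 = d
  · rw [if_pos h, coeff_C] at hd
    by_cases h2 : 0 = e
    · rw [← h, ← h2]; simp [gdm, gsm]
    · rw [if_neg h2] at hd; exact absurd rfl hd
  · rw [if_neg h] at hd; simp at hd

theorem gf_X (n : ℕ) : GF (gd n) (X n : MvPolynomial ℕ (Ki l i)) := by
  classical
  intro d e hd
  rw [coeff_X] at hd
  by_cases h : Finsupp.single n 1 = d
  · rw [if_pos h, coeff_one] at hd
    by_cases h2 : 0 = e
    · rw [← h, ← h2, gdm_single]; simp [gsm]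
    · rw [if_neg h2] at hd; exact absurd rfl hd
  · rw [if_neg h] at hd; simp at hd

theorem gf_CX (a : {a : Fin l × ℕ // a.1 ≠ i}) :
    GF (gd a.1.2) (C (X a) : MvPolynomial ℕ (Ki l i)) := by
  classical
  intro d e hd
  rw [coeff_C] at hd
  by_cases h : 0 = d
  · rw [if_pos h, coeff_X] at hd
    by_cases h2 : Finsupp.single a 1 = e
    · rw [← h, ← h2, gsm_single]; simp [gdm]
    · rw [if_neg h2] at hd; exact absurd rfl hd
  · rw [if_neg h] at hd; simp at hd

theorem gf_PsiR_X (A : Matrix (Fin l) (Fin l) ℤ) (a : Fin l × ℕ) :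
    GF (gd a.2) (PsiR A i (X a)) := by
  rw [PsiR_X]
  by_cases h : a.1 = i
  · rw [dif_pos h]; exact gf_X a.2
  · rw [dif_neg h]
    refine (gf_CX ⟨a, h⟩).add ?_
    have := (gf_C (l := l) (i := i) ((A i a.1 : ℂ) / 2)).mul (gf_X a.2)
    rwa [zero_add] at this

/-- `PsiR` respects the filtrations -/
theorem gf_PsiR (A : Matrix (Fin l) (Fin l) ℤ) (D : ℕ) (v : MvPolynomial (Fin l × ℕ) ℂ)
    (hv : ∀ d, coeff d v ≠ 0 → gwt d ≤ D) : GF D (PsiR A i v) := by
  classical
  rw [v.as_sum, map_sum]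
  apply GF.sum
  intro m hm
  refine GF.mono ?_ (hv m (mem_support_iff.1 hm))
  rw [PsiR, aeval_monomial]
  have h1 := (gf_C (l := l) (i := i) (coeff m v)).mul
    (GF.prod m.support (fun a => m a * gd a.2) (fun a => (PsiR A i (X a)) ^ (m a))
      (fun a _ => (gf_PsiR_X A a).pow (m a)))
  have h2 : (0 + ∑ a ∈ m.support, m a * gd a.2) = gwt m := by
    rw [zero_add, gwt, Finsupp.weight_apply, Finsupp.sum]
    rfl
  rw [h2] at h1
  have h3 : (m.prod fun k e => (if h : k.1 = i then (X k.2 : MvPolynomial ℕ (Ki l i))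
      else C (X (⟨k, h⟩ : {a : Fin l × ℕ // a.1 ≠ i})) + C (C ((A i k.1 : ℂ) / 2)) * X k.2) ^ e)
      = ∏ a ∈ m.support, (PsiR A i (X a)) ^ (m a) := by
    rw [Finsupp.prod]
    apply prod_congr rfl
    intro a _
    rw [PsiR_X]
  rw [h3]
  exact h1

/-! ### symbols -/

theorem feq_perp (A : Matrix (Fin l) (Fin l) ℤ) (a : Fin l × ℕ) :
    FEQ (gd a.2) (X a - C ((A i a.1 : ℂ) / 2) * X (i, a.2) : MvPolynomial (Fin l × ℕ) ℂ) := by
  have h1 : FEQ (gd a.2) (C (-((A i a.1 : ℂ) / 2)) * X (i, a.2) : MvPolynomial (Fin l × ℕ) ℂ) :=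
    ((feq_C _).mul (feq_X (i, a.2))).congr (by simp)
  have h2 := (feq_X a).add h1
  have h3 : (X a + C (-((A i a.1 : ℂ) / 2)) * X (i, a.2) : MvPolynomial (Fin l × ℕ) ℂ)
      = X a - C ((A i a.1 : ℂ) / 2) * X (i, a.2) := by
    rw [map_neg]; ring
  rwa [h3] at h2

theorem feq_phi0_monomial (A : Matrix (Fin l) (Fin l) ℤ)
    (e : {a : Fin l × ℕ // a.1 ≠ i} →₀ ℕ) (z : ℂ) :
    FEQ (gsm e) (phi0 A i (monomial e z)) := by
  classical
  rw [phi0, aeval_monomial]
  have h1 := (feq_C (l := l) z).mul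
    (FEQ.prod e.support (fun a => e a * gd a.1.2)
      (fun a => (X a.1 - C ((A i a.1.1 : ℂ) / 2) * X (i, a.1.2)) ^ (e a))
      (fun a _ => (feq_perp A a.1).pow (e a)))
  have h2 : (0 + ∑ a ∈ e.support, e a * gd a.1.2) = gsm e := by
    rw [zero_add, gsm, Finsupp.weight_apply, Finsupp.sum]
    rfl
  rw [h2] at h1
  exact h1

theorem exists_sym_phi0 (A : Matrix (Fin l) (Fin l) ℤ) (c : Ki l i) (a : ℕ)
    (hc : ∀ e, coeff e c ≠ 0 → gsm e ≤ a) :
    ∃ c' : Ki l i, IsSym a (phi0 A i c) (phi0 A i c') := by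
  classical
  refine ⟨∑ e ∈ c.support, if gsm e = a then monomial e (coeff e c) else 0, ?_⟩
  conv => lhs; rw [c.as_sum]
  rw [map_sum, map_sum]
  apply IsSym.sum
  intro e he
  have h1 := hc e (mem_support_iff.1 he)
  have h2 := feq_phi0_monomial A e (coeff e c)
  by_cases h : gsm e = a
  · rw [if_pos h]
    rw [h] at h2
    exact IsSym.of_feq h2
  · rw [if_neg h, map_zero]
    exact IsSym.of_feq_lt h2 (lt_of_le_of_ne h1 h)

theorem phi0_mem (A : Matrix (Fin l) (Fin l) ℤ) (c : Ki l i) : phi0 A i c ∈ Gsub A i := by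
  induction c using MvPolynomial.induction_on with
  | C z =>
    rw [← algebraMap_eq, AlgHom.commutes]
    exact Subalgebra.algebraMap_mem _ z
  | add f g hf hg => rw [map_add]; exact Subalgebra.add_mem _ hf hg
  | mul_X f a hf =>
    rw [map_mul]
    apply Subalgebra.mul_mem _ hf
    rw [phi0, aeval_X]
    apply Algebra.subset_adjoin
    right
    exact ⟨a.1, rfl⟩

theorem gwt_mapDomain (u : ℕ →₀ ℕ) : gwt (Finsupp.mapDomain (fun n => (i, n)) u) = gdm u := by
  classical
  rw [gwt, Finsupp.weight_apply, Finsupp.sum_mapDomain_index]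
  · rfl
  · intro b; simp
  · intro b m n; simp [add_mul]

theorem rename_qt_mem (A : Matrix (Fin l) (Fin l) ℤ) (m : ℕ) :
    rename (fun n => (i, n)) (qt m : MvPolynomial ℕ ℂ) ∈ Gsub A i := by
  match m with
  | 0 => rw [qt, map_zero]; exact Subalgebra.zero_mem _
  | 1 =>
    rw [qt, map_pow, rename_X]
    apply Algebra.subset_adjoin
    left; left; rfl
  | (m + 2) =>
    rw [qt, map_mul, map_mul, rename_X, rename_X, rename_C, ← smul_eq_C_mul]
    apply Subalgebra.smul_mem
    apply Algebra.subset_adjoin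
    left; right
    exact ⟨m, rfl⟩

theorem rename_prod_qt_mem (A : Matrix (Fin l) (Fin l) ℤ) (L : List ℕ) :
    rename (fun n => (i, n)) ((L.map qt).prod : MvPolynomial ℕ ℂ) ∈ Gsub A i := by
  induction L with
  | nil => rw [List.map_nil, List.prod_nil, map_one]; exact Subalgebra.one_mem _
  | cons m L ih =>
    rw [List.map_cons, List.prod_cons, map_mul]
    exact Subalgebra.mul_mem _ (rename_qt_mem A m) ih

theorem isSym_VL (ν : ℂ) (L : List ℕ) (hL : ∀ m ∈ L, 1 ≤ m) :
    IsSym (L.map qdeg).sum (rename (fun n => (i, n)) (VL 0 ν L 1))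
      (rename (fun n => (i, n)) ((L.map qt).prod : MvPolynomial ℕ ℂ)) := by
  classical
  constructor
  · intro d hd
    obtain ⟨u, hu, hu0⟩ := coeff_rename_ne_zero _ _ _ hd
    rw [← hu, gwt_mapDomain]
    obtain ⟨k, hk⟩ := qt_prod (K := ℂ) L hL
    rw [hk, coeff_monomial] at hu0
    by_cases h : ew L = u
    · rw [← h, gdm_ew L hL]
    · rw [if_neg h] at hu0; exact absurd rfl hu0
  · intro d hd
    rw [← map_sub] at hd
    obtain ⟨u, hu, hu0⟩ := coeff_rename_ne_zero _ _ _ hd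
    rw [← hu, gwt_mapDomain]
    exact VL_symbol ν L hL u hu0

theorem Phi_map_C (A : Matrix (Fin l) (Fin l) ℤ) (f : MvPolynomial ℕ ℂ) :
    Phi A i (map (C : ℂ →+* Ki l i) f) = rename (fun n => (i, n)) f := by
  induction f using MvPolynomial.induction_on with
  | C c =>
    rw [map_C, Phi_C, rename_C, ← algebraMap_eq, AlgHom.commutes]; rfl
  | add f g hf hg => rw [map_add, map_add, map_add, hf, hg]
  | mul_X f a hf => rw [map_mul, map_mul, map_mul, hf, map_X, Phi_X, rename_X]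

theorem VL_C (ν : ℂ) (L : List ℕ) :
    VL 0 (C ν : Ki l i) L 1 = map (C : ℂ →+* Ki l i) (VL 0 ν L 1) := by
  rw [map_VL, map_zero, map_one]

/-- the coefficients of an element of the kernel of bounded g-degree -/
theorem bound_coeffs (ν : ℂ) (c : PX →₀ Ki l i) (f : MvPolynomial ℕ (Ki l i))
    (hf : f = ∑ x ∈ c.support, C (c x) * VL 0 (C ν : Ki l i) x.1.toList 1) (D : ℕ)
    (hD : GF D f) : ∀ x : PX, ∀ e, coeff e (c x) ≠ 0 →
      gsm e + (x.1.toList.map qdeg).sum ≤ D := by
  classical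
  -- coefficients of `f`
  have hco : ∀ d e, coeff e (coeff d f)
      = ∑ x ∈ c.support, coeff e (c x) * coeff d (VL 0 ν x.1.toList 1) := by
    intro d e
    rw [hf, coeff_sum, coeff_sum]
    apply sum_congr rfl
    intro x _
    rw [coeff_C_mul, VL_C, coeff_map, mul_comm (c x), coeff_C_mul, mul_comm]
  have hL : ∀ x : PX, ∀ m ∈ x.1.toList, 1 ≤ m := fun x m hm => x.2 m (Multiset.mem_toList.1 hm)
  by_contra hcon
  push Not at hcon
  obtain ⟨x1, e1, he1, hlt1⟩ := hcon
  -- the set of pairs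
  set T : Finset (PX × ({a : Fin l × ℕ // a.1 ≠ i} →₀ ℕ)) :=
    c.support.biUnion (fun x => (c x).support.image (fun e => (x, e))) with hT
  have hmemT : ∀ x e, (x, e) ∈ T ↔ coeff e (c x) ≠ 0 := by
    intro x e
    rw [hT, mem_biUnion]
    constructor
    · rintro ⟨y, _, hy⟩
      rw [mem_image] at hy
      obtain ⟨e', he', h⟩ := hy
      rw [Prod.mk.injEq] at h
      obtain ⟨rfl, rfl⟩ := h
      exact mem_support_iff.1 he'
    · intro h
      refine ⟨x, ?_, ?_⟩
      · rw [Finsupp.mem_support_iff]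
        intro h0
        rw [h0, coeff_zero] at h
        exact h rfl
      · rw [mem_image]
        exact ⟨e, mem_support_iff.2 h, rfl⟩
  obtain ⟨⟨x0, e0⟩, h0, hmax⟩ := Finset.exists_max_image T
    (fun y => gsm y.2 + (y.1.1.toList.map qdeg).sum) ⟨(x1, e1), (hmemT x1 e1).2 he1⟩
  have h0' := (hmemT x0 e0).1 h0
  have hbig : D < gsm e0 + (x0.1.toList.map qdeg).sum :=
    lt_of_lt_of_le hlt1 (hmax (x1, e1) ((hmemT x1 e1).2 he1))
  -- the coefficient of `f` at `(ew x0, e0)`
  have hne : coeff e0 (coeff (ew x0.1.toList) f) ≠ 0 := by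
    rw [hco, Finset.sum_eq_single x0]
    · apply mul_ne_zero h0'
      have h1 : coeff (ew x0.1.toList) (VL 0 ν x0.1.toList 1 - (x0.1.toList.map qt).prod) = 0 := by
        by_contra h
        have := VL_symbol ν x0.1.toList (hL x0) _ h
        rw [gdm_ew _ (hL x0)] at this
        exact lt_irrefl _ this
      rw [coeff_sub, sub_eq_zero] at h1
      rw [h1]
      obtain ⟨k, hk⟩ := qt_prod (K := ℂ) x0.1.toList (hL x0)
      rw [hk, coeff_monomial, if_pos rfl]
      exact pow_ne_zero _ two_ne_zero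
    · intro x _ hx
      by_cases hz : coeff e0 (c x) = 0
      · rw [hz, zero_mul]
      · have hle := hmax (x, e0) ((hmemT x e0).2 hz)
        simp only at hle
        have h1 : coeff (ew x0.1.toList) (VL 0 ν x.1.toList 1 - (x.1.toList.map qt).prod) = 0 := by
          by_contra h
          have := VL_symbol ν x.1.toList (hL x) _ h
          rw [gdm_ew _ (hL x0)] at this
          omega
        rw [coeff_sub, sub_eq_zero] at h1
        obtain ⟨k, hk⟩ := qt_prod (K := ℂ) x.1.toList (hL x)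
        rw [h1, hk, coeff_monomial, if_neg (fun h => hx (ew_injective x x0 h)), mul_zero]
    · intro h
      rw [Finsupp.notMem_support_iff] at h
      rw [h, coeff_zero] at h0'
      exact absurd rfl h0'
  have h2 := hD _ _ hne
  rw [gdm_ew _ (hL x0)] at h2
  omega

/-- the top symbol of an element of the kernel of `S_i` -/
theorem top_mem_Gsub_of_surj (A : Matrix (Fin l) (Fin l) ℤ) (hA : ∀ i, A i i = 2) (ν : ℂ)
    (hsurj : ∀ (n : ℤ) (g : MvPolynomial ℕ (Ki l i)), HZ n g →
      ∃ f, HZ (n + 1) f ∧ S (C ν : Ki l i) 1 f = g)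
    (v : MvPolynomial (Fin l × ℕ) ℂ) (hv : SA A ν i 1 v = 0) (D : ℕ)
    (hD : ∀ d, coeff d v ≠ 0 → gwt d ≤ D) :
    weightedHomogeneousComponent (gw l) D v ∈ Gsub A i := by
  classical
  have h1 : S (C ν : Ki l i) 1 (PsiR A i v) = 0 := by
    rw [← PsiR_SA A hA, hv, map_zero]
  have h2 := kernel_mem_span (C ν : Ki l i) hsurj (PsiR A i v) h1
  rw [Finsupp.mem_span_range_iff_exists_finsupp] at h2
  obtain ⟨c, hc⟩ := h2
  have hf : PsiR A i v = ∑ x ∈ c.support, C (c x) * VL 0 (C ν : Ki l i) x.1.toList 1 := by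
    rw [← hc, Finsupp.sum]
    apply sum_congr rfl
    intro x _
    rw [smul_eq_C_mul]
  have hb := bound_coeffs ν c _ hf D (gf_PsiR A D v hD)
  have hv2 : v = ∑ x ∈ c.support, phi0 A i (c x)
      * rename (fun n => (i, n)) (VL 0 ν x.1.toList 1) := by
    conv_lhs => rw [← Phi_PsiR A i v, hf, map_sum]
    apply sum_congr rfl
    intro x _
    rw [map_mul, Phi_C, VL_C, Phi_map_C]
  have hL : ∀ x : PX, ∀ m ∈ x.1.toList, 1 ≤ m := fun x m hm => x.2 m (Multiset.mem_toList.1 hm)
  -- symbol of each term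
  have hterm : ∀ x : PX, ∃ g, g ∈ Gsub A i ∧ (x ∈ c.support → IsSym D (phi0 A i (c x)
      * rename (fun n => (i, n)) (VL 0 ν x.1.toList 1)) g) := by
    intro x
    by_cases hx : x ∈ c.support
    · have hq : (x.1.toList.map qdeg).sum ≤ D := by
        have : c x ≠ 0 := Finsupp.mem_support_iff.1 hx
        obtain ⟨e, he⟩ := exists_coeff_ne_zero this
        have := hb x e he
        omega
      obtain ⟨c', hc'⟩ := exists_sym_phi0 A (c x) (D - (x.1.toList.map qdeg).sum) (by
        intro e he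
        have := hb x e he
        omega)
      refine ⟨phi0 A i c' * rename (fun n => (i, n)) ((x.1.toList.map qt).prod), ?_, fun _ => ?_⟩
      · exact Subalgebra.mul_mem _ (phi0_mem A c') (rename_prod_qt_mem A _)
      · have h3 := hc'.mul (isSym_VL (i := i) ν x.1.toList (hL x))
        rwa [Nat.sub_add_cancel hq] at h3
    · exact ⟨0, Subalgebra.zero_mem _, fun h => absurd h hx⟩
  choose g hg1 hg2 using hterm
  have hs : IsSym D v (∑ x ∈ c.support, g x) := by
    rw [hv2]
    exact IsSym.sum _ _ _ (fun x hx => hg2 x hx)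
  rw [hs.comp]
  exact Subalgebra.sum_mem _ (fun x _ => hg1 x)

end Top

end Pool.Agent.LS
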