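import Mathlib
import Pool.Agent.LS.Top
import Pool.Agent.LS.Generic
import Pool.Agent.LS.Frame
import Pool.Agent.LS.Surj

/-!
# The upper bound for the common kernel of the long screenings
-/

namespace Pool.Agent.LS

open MvPolynomial Finset

set_option linter.unusedSectionVars false

section Main

variable {l : ℕ}

/-- the algebra generated by the basic invariants and their polarisations -/
noncomputable def Inv0 {A : Matrix (Fin l) (Fin l) ℤ} (B : BasicInvariants A) :
    Subalgebra ℂ (MvPolynomial (Fin l × ℕ) ℂ) :=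
  Algebra.adjoin ℂ (Set.range (P0 B) ∪ Set.range (fun jn : Fin l × ℕ => omega B jn.1 jn.2))

theorem top_mem_Gsub (A : Matrix (Fin l) (Fin l) ℤ) (hA : ∀ i, A i i = 2) (p : ℕ) (hp : 1 ≤ p)
    (i : Fin l) (v : MvPolynomial (Fin l × ℕ) ℂ) (hv : SA A (p : ℂ) i 1 v = 0) (D : ℕ)
    (hD : ∀ d, coeff d v ≠ 0 → gwt d ≤ D) :
    weightedHomogeneousComponent (gw l) D v ∈ Gsub A i := by
  refine top_mem_Gsub_of_surj A hA (p : ℂ) ?_ v hv D hD
  intro n g hg
  have h := S1_surjective (K := Ki l i) p hp n g hg
  rw [map_natCast]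
  exact h

theorem symbol_mem (A : Matrix (Fin l) (Fin l) ℤ) (hA : SimplyLaced A) (B : BasicInvariants A)
    (p : ℕ) (hp : 1 ≤ p) (v : MvPolynomial (Fin l × ℕ) ℂ) (hv : v ∈ Kplus A (p : ℂ)) (D : ℕ)
    (hD : ∀ j, D < j → weightedHomogeneousComponent (gw l) j v = 0) :
    weightedHomogeneousComponent (gw l) D v ∈ Inv0 B := by
  classical
  apply mem_adjoin_of_mem_Gsub hA B
  intro i
  apply top_mem_Gsub A hA.diag p hp i v ((mem_Kplus A _ v).1 hv i) D
  intro d hd
  by_contra hlt
  have h1 := congrArg (coeff d) (hD (gwt d) (by omega))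
  rw [coeff_weightedHomogeneousComponent, coeff_zero,
    if_pos (show Finsupp.weight (gw l) d = gwt d from rfl)] at h1
  exact hd h1

theorem finrank_Kplus_le_inv (A : Matrix (Fin l) (Fin l) ℤ) (hA : SimplyLaced A)
    (B : BasicInvariants A) (p : ℕ) (hp : 1 ≤ p) (N : ℕ) :
    Module.finrank ℂ ↥(Kplus A (p : ℂ) ⊓ WH l ℂ N)
      ≤ Module.finrank ℂ ↥(Subalgebra.toSubmodule (Inv0 B) ⊓ WH l ℂ N) := by
  have hfd : FiniteDimensional ℂ (weightedHomogeneousSubmodule ℂ (fun a : Fin l × ℕ => a.2 + 1) N) :=
    finiteDimensional_weight l N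
  exact finrank_le_of_symbol (w := fun a : Fin l × ℕ => a.2 + 1) (g := gw l) N (Kplus A (p : ℂ))
    (Subalgebra.toSubmodule (Inv0 B)) (fun v hv _ D hD => symbol_mem A hA B p hp v hv D hD)

/-! ### the common kernel is graded -/

/-- weight of an exponent -/
noncomputable def wA (d : Fin l × ℕ →₀ ℕ) : ℕ := Finsupp.weight (fun a : Fin l × ℕ => a.2 + 1) d

theorem wA_add (d e : Fin l × ℕ →₀ ℕ) : wA (d + e) = wA d + wA e := by
  rw [wA, map_add]; rfl

theorem wA_single (a : Fin l × ℕ) (n : ℕ) : wA (Finsupp.single a n) = n * (a.2 + 1) := by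
  rw [wA, Finsupp.weight_single]; rfl

/-- integer weights -/
def HA (w : ℤ) (f : MvPolynomial (Fin l × ℕ) ℂ) : Prop := ∀ d, coeff d f ≠ 0 → (wA d : ℤ) = w

theorem HA.add {w : ℤ} {f g : MvPolynomial (Fin l × ℕ) ℂ} (hf : HA w f) (hg : HA w g) :
    HA w (f + g) := by
  intro d hd
  rw [coeff_add] at hd
  by_cases h : coeff d f = 0
  · rw [h, zero_add] at hd; exact hg d hd
  · exact hf d h

theorem HA.c_mul {w : ℤ} {f : MvPolynomial (Fin l × ℕ) ℂ} (c : ℂ) (hf : HA w f) :
    HA w (C c * f) := by
  intro d hd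
  rw [coeff_C_mul] at hd
  exact hf d (right_ne_zero_of_mul hd)

theorem HA.sub {w : ℤ} {f g : MvPolynomial (Fin l × ℕ) ℂ} (hf : HA w f) (hg : HA w g) :
    HA w (f - g) := by
  have h := hf.add (hg.c_mul (-1))
  have h2 : f + C (-1) * g = f - g := by rw [map_neg, C_1]; ring
  rwa [h2] at h

theorem HA.zero (w : ℤ) : HA w (0 : MvPolynomial (Fin l × ℕ) ℂ) := by
  intro d hd; simp at hd

theorem HA.congr {w v : ℤ} {f : MvPolynomial (Fin l × ℕ) ℂ} (hf : HA w f) (h : w = v) :
    HA v f := h ▸ hf

theorem HA.x_mul {w : ℤ} {f : MvPolynomial (Fin l × ℕ) ℂ} (a : Fin l × ℕ) (hf : HA w f) :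
    HA (w + (a.2 + 1)) (X a * f) := by
  classical
  intro d hd
  rw [coeff_X_mul'] at hd
  by_cases h : a ∈ d.support
  · rw [if_pos h] at hd
    have h1 := hf _ hd
    have h2 : d = (d - Finsupp.single a 1) + Finsupp.single a 1 := by
      ext b
      rw [Finsupp.add_apply, Finsupp.tsub_apply]
      have : Finsupp.single a 1 b ≤ d b := by
        rw [Finsupp.single_apply]
        split_ifs with hab
        · subst hab
          have := Finsupp.mem_support_iff.1 h
          omega
        · exact Nat.zero_le _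
      omega
    rw [h2, wA_add, wA_single]
    push_cast
    rw [h1]
    ring
  · rw [if_neg h] at hd; exact absurd rfl hd

theorem ha_PA (i : Fin l) (m : ℤ) : HA m (PA i m : MvPolynomial (Fin l × ℕ) ℂ) := by
  classical
  intro d hd
  obtain ⟨u, hu, hu0⟩ := coeff_rename_ne_zero _ _ _ hd
  have h1 := hz_PZ (K := ℂ) m u hu0
  rw [← h1, ← hu, wA, Finsupp.weight_apply, Finsupp.sum_mapDomain_index, wtm]
  · rfl
  · intro b; simp
  · intro b m n; simp [add_mul]

theorem ha_SA_monomial (A : Matrix (Fin l) (Fin l) ℤ) (ν : ℂ) (i : Fin l)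
    (d : Fin l × ℕ →₀ ℕ) (c : ℂ) : ∀ m : ℤ, HA ((wA d : ℤ) - m) (SA A ν i m (monomial d c)) := by
  classical
  induction d using Finsupp.induction_linear with
  | zero =>
    intro m
    have h1 : (monomial 0 c : MvPolynomial (Fin l × ℕ) ℂ) = C c := rfl
    rw [h1, SA_C]
    refine ((ha_PA i (-m)).c_mul c).congr ?_
    simp [wA]
  | add d e hd he =>
    -- reduce to adding single generators
    clear hd he
    have key : ∀ (e : Fin l × ℕ →₀ ℕ) (d : Fin l × ℕ →₀ ℕ),
        (∀ m : ℤ, HA ((wA d : ℤ) - m) (SA A ν i m (monomial d c))) →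
        ∀ m : ℤ, HA ((wA (d + e) : ℤ) - m) (SA A ν i m (monomial (d + e) c)) := by
      intro e
      induction e using Finsupp.induction_linear with
      | zero => intro d hd m; rw [add_zero]; exact hd m
      | add e e' he he' =>
        intro d hd m
        rw [← add_assoc]
        exact he' (d + e) (he d hd) m
      | single a n =>
        induction n with
        | zero => intro d hd m; rw [Finsupp.single_zero, add_zero]; exact hd m
        | succ n ih =>
          intro d hd m
          have h1 : Finsupp.single a (n + 1) = Finsupp.single a n + Finsupp.single a 1 := by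
            rw [← Finsupp.single_add]
          have h2 := ih d hd
          rw [h1, ← add_assoc]
          have h3 : (monomial (d + Finsupp.single a n + Finsupp.single a 1) c
              : MvPolynomial (Fin l × ℕ) ℂ) = X a * monomial (d + Finsupp.single a n) c := by
            rw [X, monomial_mul, one_mul, add_comm]
          rw [h3, SA_X_mul]
          have h4 : (wA (d + Finsupp.single a n + Finsupp.single a 1) : ℤ)
              = (wA (d + Finsupp.single a n) : ℤ) + (a.2 + 1) := by
            rw [wA_add _ (Finsupp.single a 1), wA_single]; push_cast; ring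
          rw [h4]
          refine (((h2 m).x_mul a).congr (by ring)).sub ?_
          exact ((h2 (m - (a.2 + 1))).c_mul _).congr (by ring)
    have h0 : ∀ m : ℤ, HA ((wA (0 : Fin l × ℕ →₀ ℕ) : ℤ) - m) (SA A ν i m (monomial 0 c)) := by
      intro m
      have h1 : (monomial 0 c : MvPolynomial (Fin l × ℕ) ℂ) = C c := rfl
      rw [h1, SA_C]
      refine ((ha_PA i (-m)).c_mul c).congr ?_
      simp [wA]
    have := key (d + e) 0 h0
    rw [zero_add] at this
    exact this
  | single a n =>
    induction n with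
    | zero =>
      intro m
      rw [Finsupp.single_zero]
      have h1 : (monomial 0 c : MvPolynomial (Fin l × ℕ) ℂ) = C c := rfl
      rw [h1, SA_C]
      refine ((ha_PA i (-m)).c_mul c).congr ?_
      simp [wA]
    | succ n ih =>
      intro m
      have h1 : Finsupp.single a (n + 1) = Finsupp.single a n + Finsupp.single a 1 := by
        rw [← Finsupp.single_add]
      rw [h1]
      have h3 : (monomial (Finsupp.single a n + Finsupp.single a 1) c
          : MvPolynomial (Fin l × ℕ) ℂ) = X a * monomial (Finsupp.single a n) c := by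
        rw [X, monomial_mul, one_mul, add_comm]
      rw [h3, SA_X_mul]
      have h4 : (wA (Finsupp.single a n + Finsupp.single a 1) : ℤ)
          = (wA (Finsupp.single a n) : ℤ) + (a.2 + 1) := by
        rw [wA_add _ (Finsupp.single a 1), wA_single a 1]; push_cast; ring
      rw [h4]
      refine (((ih m).x_mul a).congr (by ring)).sub ?_
      exact ((ih (m - (a.2 + 1))).c_mul _).congr (by ring)

theorem SAl_sum {ι : Type*} (A : Matrix (Fin l) (Fin l) ℤ) (ν : ℂ) (i : Fin l) (m : ℤ)
    (s : Finset ι) (f : ι → MvPolynomial (Fin l × ℕ) ℂ) :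
    SA A ν i m (∑ j ∈ s, f j) = ∑ j ∈ s, SA A ν i m (f j) :=
  map_sum (SAl A ν i m) f s

theorem HA.sa (A : Matrix (Fin l) (Fin l) ℤ) (ν : ℂ) (i : Fin l) (m : ℤ) {w : ℤ}
    {f : MvPolynomial (Fin l × ℕ) ℂ} (hf : HA w f) : HA (w - m) (SA A ν i m f) := by
  classical
  rw [f.as_sum, SAl_sum]
  have h : ∀ s : Finset (Fin l × ℕ →₀ ℕ), s ⊆ f.support →
      HA (w - m) (∑ d ∈ s, SA A ν i m (monomial d (coeff d f))) := by
    intro s
    induction s using Finset.induction_on with
    | empty => intro _; rw [sum_empty]; exact HA.zero _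
    | insert a s ha ih =>
      intro hs
      rw [sum_insert ha]
      refine HA.add ?_ (ih (fun x hx => hs (mem_insert_of_mem hx)))
      have h1 := hf a (mem_support_iff.1 (hs (mem_insert_self a s)))
      rw [← h1]
      exact ha_SA_monomial A ν i a _ m
  exact h _ (Subset.refl _)

/-- decomposition into weight components -/
theorem sum_whc (v : MvPolynomial (Fin l × ℕ) ℂ) : ∃ M : ℕ,
    v = ∑ N ∈ range M, weightedHomogeneousComponent (fun a : Fin l × ℕ => a.2 + 1) N v := by
  classical
  refine ⟨v.support.sup wA + 1, ?_⟩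
  ext d
  rw [coeff_sum]
  simp only [coeff_weightedHomogeneousComponent]
  rw [Finset.sum_ite_eq (range _) (Finsupp.weight (fun a : Fin l × ℕ => a.2 + 1) d)]
  by_cases h2 : coeff d v = 0
  · rw [h2]; simp
  · rw [if_pos]
    rw [mem_range, Nat.lt_succ_iff]
    exact Finset.le_sup (f := wA) (mem_support_iff.2 h2)

/-- the kernel of a screening operator is graded -/
theorem whc_mem_ker (A : Matrix (Fin l) (Fin l) ℤ) (ν : ℂ) (i : Fin l)
    (v : MvPolynomial (Fin l × ℕ) ℂ) (hv : SA A ν i 1 v = 0) (N : ℕ) :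
    SA A ν i 1 (weightedHomogeneousComponent (fun a : Fin l × ℕ => a.2 + 1) N v) = 0 := by
  classical
  obtain ⟨M, hM⟩ := sum_whc v
  have hz : ∀ N : ℕ, HA ((N : ℤ) - 1) (SA A ν i 1
      (weightedHomogeneousComponent (fun a : Fin l × ℕ => a.2 + 1) N v)) := by
    intro N
    apply HA.sa
    intro d hd
    rw [coeff_weightedHomogeneousComponent] at hd
    by_cases h : Finsupp.weight (fun a : Fin l × ℕ => a.2 + 1) d = N
    · rw [wA, h]
    · rw [if_neg h] at hd; exact absurd rfl hd
  ext d
  rw [coeff_zero]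
  by_contra hne
  have hN := hz N d hne
  have hmem : N ∈ range M := by
    by_contra hmem
    have : weightedHomogeneousComponent (fun a : Fin l × ℕ => a.2 + 1) N v = 0 := by
      ext e
      rw [coeff_weightedHomogeneousComponent, coeff_zero]
      by_cases he : Finsupp.weight (fun a : Fin l × ℕ => a.2 + 1) e = N
      · rw [if_pos he]
        have h1 := congrArg (coeff e) hM
        rw [coeff_sum] at h1
        rw [h1]
        apply sum_eq_zero
        intro N' hN'
        rw [coeff_weightedHomogeneousComponent, if_neg]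
        intro h3
        rw [← h3, he] at hN'
        exact hmem hN'
      · rw [if_neg he]
    rw [this] at hne
    have h0 : SA A ν i 1 (0 : MvPolynomial (Fin l × ℕ) ℂ) = 0 := map_zero (SAl A ν i 1)
    rw [h0, coeff_zero] at hne
    exact hne rfl
  have h1 : coeff d (SA A ν i 1 v) = coeff d (SA A ν i 1
      (weightedHomogeneousComponent (fun a : Fin l × ℕ => a.2 + 1) N v)) := by
    conv_lhs => rw [hM]
    rw [SAl_sum, coeff_sum]
    rw [Finset.sum_eq_single N]
    · intro N' _ hN'
      by_contra h3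
      have := hz N' d h3
      rw [hN] at this
      apply hN'
      omega
    · intro h; exact absurd hmem h
  rw [hv, coeff_zero] at h1
  exact hne h1.symm

/-- a graded subspace of `K_p^+` with the dimensions of `K_p^+` is `K_p^+` -/
theorem eq_Kplus_of_finrank (A : Matrix (Fin l) (Fin l) ℤ) (ν : ℂ)
    (W : Submodule ℂ (MvPolynomial (Fin l × ℕ) ℂ)) (hW : W ≤ Kplus A ν)
    (h : ∀ N, Module.finrank ℂ ↥(Kplus A ν ⊓ WH l ℂ N) ≤ Module.finrank ℂ ↥(W ⊓ WH l ℂ N)) :
    W = Kplus A ν := by
  apply le_antisymm hW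
  intro v hv
  obtain ⟨M, hM⟩ := sum_whc v
  rw [hM]
  apply Submodule.sum_mem
  intro N _
  have hfd : FiniteDimensional ℂ (weightedHomogeneousSubmodule ℂ (fun a : Fin l × ℕ => a.2 + 1) N) :=
    finiteDimensional_weight l N
  have hfK : FiniteDimensional ℂ ↥(Kplus A ν ⊓ WH l ℂ N) :=
    Submodule.finiteDimensional_of_le (S₂ := WH l ℂ N) inf_le_right
  have heq : W ⊓ WH l ℂ N = Kplus A ν ⊓ WH l ℂ N :=
    Submodule.eq_of_le_of_finrank_le (inf_le_inf_right _ hW) (h N)
  have hmem : weightedHomogeneousComponent (fun a : Fin l × ℕ => a.2 + 1) N v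
      ∈ Kplus A ν ⊓ WH l ℂ N := by
    refine ⟨?_, weightedHomogeneousComponent_mem _ _ _⟩
    rw [SetLike.mem_coe, mem_Kplus] at *
    intro i
    exact whc_mem_ker A ν i v (hv i) N
  rw [← heq] at hmem
  exact hmem.1

end Main

end Pool.Agent.LS
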