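import Mathlib
import Pool.Agent.LS.Main

/-!
# Lifting symbols
-/

namespace Pool.Agent.LS

open MvPolynomial Finset

set_option linter.unusedSectionVars false

section Lift

variable {l : ℕ}

/-- component of g-degree `D` -/
noncomputable abbrev cmp (D : ℕ) (f : MvPolynomial (Fin l × ℕ) ℂ) : MvPolynomial (Fin l × ℕ) ℂ :=
  weightedHomogeneousComponent (gw l) D f

theorem coeff_cmp (D : ℕ) (f : MvPolynomial (Fin l × ℕ) ℂ) (d : Fin l × ℕ →₀ ℕ) :
    coeff d (cmp D f) = if gwt d = D then coeff d f else 0 := by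
  classical
  rw [cmp, coeff_weightedHomogeneousComponent]
  rfl

theorem feq_cmp (D : ℕ) (f : MvPolynomial (Fin l × ℕ) ℂ) : FEQ D (cmp D f) := by
  intro d hd
  rw [coeff_cmp] at hd
  by_contra h
  rw [if_neg h] at hd
  exact hd rfl

theorem cmp_of_feq {D : ℕ} {f : MvPolynomial (Fin l × ℕ) ℂ} (h : FEQ D f) : cmp D f = f :=
  (IsSym.of_feq h).comp

theorem cmp_of_feq_ne {D E : ℕ} {f : MvPolynomial (Fin l × ℕ) ℂ} (h : FEQ E f) (hne : E ≠ D) :
    cmp D f = 0 := by
  ext d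
  rw [coeff_cmp, coeff_zero]
  by_cases hd : gwt d = D
  · rw [if_pos hd]
    by_contra h0
    exact hne ((h d h0).symm.trans hd)
  · rw [if_neg hd]

theorem flt_sub_cmp {D : ℕ} {f : MvPolynomial (Fin l × ℕ) ℂ} (h : FLT (D + 1) f) :
    FLT D (f - cmp D f) := by
  intro d hd
  rw [coeff_sub, coeff_cmp] at hd
  by_cases hD : gwt d = D
  · rw [if_pos hD, sub_self] at hd; exact absurd rfl hd
  · rw [if_neg hD, sub_zero] at hd
    have := h d hd
    omega

theorem FLT.mono {D E : ℕ} {f : MvPolynomial (Fin l × ℕ) ℂ} (h : FLT D f) (hDE : D ≤ E) :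
    FLT E f := fun d hd => lt_of_lt_of_le (h d hd) hDE

theorem FEQ.flt {D : ℕ} {f : MvPolynomial (Fin l × ℕ) ℂ} (h : FEQ D f) : FLT (D + 1) f :=
  fun d hd => by rw [h d hd]; exact Nat.lt_succ_self D

theorem FLT.neg {D : ℕ} {f : MvPolynomial (Fin l × ℕ) ℂ} (h : FLT D f) : FLT D (-f) := by
  intro d hd
  rw [coeff_neg, neg_ne_zero] at hd
  exact h d hd

theorem FLT.sub {D : ℕ} {f g : MvPolynomial (Fin l × ℕ) ℂ} (hf : FLT D f) (hg : FLT D g) :
    FLT D (f - g) := by
  rw [sub_eq_add_neg]; exact hf.add hg.neg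

theorem FEQ.neg {D : ℕ} {f : MvPolynomial (Fin l × ℕ) ℂ} (h : FEQ D f) : FEQ D (-f) := by
  intro d hd
  rw [coeff_neg, neg_ne_zero] at hd
  exact h d hd

theorem FEQ.sub {D : ℕ} {f g : MvPolynomial (Fin l × ℕ) ℂ} (hf : FEQ D f) (hg : FEQ D g) :
    FEQ D (f - g) := by
  rw [sub_eq_add_neg]; exact hf.add hg.neg

theorem eq_zero_of_flt_zero {f : MvPolynomial (Fin l × ℕ) ℂ} (h : FLT 0 f) : f = 0 := by
  ext d
  rw [coeff_zero]
  by_contra hd
  exact absurd (h d hd) (Nat.not_lt_zero _)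

theorem IsSym.flt {D : ℕ} {f g : MvPolynomial (Fin l × ℕ) ℂ} (h : IsSym D f g) :
    FLT (D + 1) f := by
  have : f = (f - g) + g := by ring
  rw [this]
  exact (h.2.mono (Nat.le_succ D)).add h.1.flt

theorem IsSym.smul {D : ℕ} {f g : MvPolynomial (Fin l × ℕ) ℂ} (h : IsSym D f g) (c : ℂ) :
    IsSym D (c • f) (c • g) := by
  constructor
  · intro d hd
    rw [coeff_smul] at hd
    exact h.1 d (right_ne_zero_of_mul hd)
  · intro d hd
    rw [← smul_sub, coeff_smul] at hd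
    exact h.2 d (right_ne_zero_of_mul hd)

/-- symbols of degree `D` of elements of `K` -/
def liftS (K : Submodule ℂ (MvPolynomial (Fin l × ℕ) ℂ)) (D : ℕ) :
    Submodule ℂ (MvPolynomial (Fin l × ℕ) ℂ) where
  carrier := {g | ∃ v ∈ K, IsSym D v g}
  add_mem' := by
    rintro f g ⟨v, hv, hv2⟩ ⟨w, hw, hw2⟩
    exact ⟨v + w, K.add_mem hv hw, hv2.add hw2⟩
  zero_mem' := ⟨0, K.zero_mem, IsSym.zero D⟩
  smul_mem' := by
    rintro c f ⟨v, hv, hv2⟩
    exact ⟨c • v, K.smul_mem c hv, hv2.smul c⟩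

theorem mem_liftS (K : Submodule ℂ (MvPolynomial (Fin l × ℕ) ℂ)) (D : ℕ)
    (g : MvPolynomial (Fin l × ℕ) ℂ) : g ∈ liftS K D ↔ ∃ v ∈ K, IsSym D v g := Iff.rfl

/-! ### the abstract lifting argument -/

variable (K G : Fin l → Submodule ℂ (MvPolynomial (Fin l × ℕ) ℂ))

/-- symbols of sums -/
theorem sym_add
    (hsym : ∀ i, ∀ v ∈ K i, ∀ D, FLT (D + 1) v → cmp D v ∈ G i)
    (hlift2 : ∀ i j, i ≠ j → ∀ D g, FEQ D g → g ∈ G i → g ∈ G j → g ∈ liftS (K i ⊓ K j) D)
    (i j : Fin l) (hij : i ≠ j) (e : ℕ) : ∀ (m : ℕ) (a b : MvPolynomial (Fin l × ℕ) ℂ),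
      a ∈ K i → b ∈ K j → FLT (e + m + 1) a → FLT (e + m + 1) b → FLT (e + 1) (a + b) →
      cmp e (a + b) ∈ G i ⊔ G j := by
  intro m
  induction m with
  | zero =>
    intro a b ha hb ha2 hb2 _
    rw [cmp, map_add]
    exact Submodule.add_mem_sup (hsym i a ha e ha2) (hsym j b hb e hb2)
  | succ m ih =>
    intro a b ha hb ha2 hb2 hab
    have hta := hsym i a ha (e + (m + 1)) ha2
    have htb := hsym j b hb (e + (m + 1)) hb2
    have h0 : cmp (e + (m + 1)) (a + b) = 0 := by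
      ext d
      rw [coeff_cmp, coeff_zero]
      by_cases hd : gwt d = e + (m + 1)
      · rw [if_pos hd]
        by_contra hne
        have := hab d hne
        omega
      · rw [if_neg hd]
    have hab0 : cmp (e + (m + 1)) a = - cmp (e + (m + 1)) b := by
      rw [cmp, map_add] at h0
      exact eq_neg_of_add_eq_zero_left h0
    obtain ⟨c, hc, hcs⟩ := hlift2 i j hij (e + (m + 1)) (cmp (e + (m + 1)) a) (feq_cmp _ _) hta
      (by rw [hab0]; exact Submodule.neg_mem _ htb)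
    have h1 : a + b = (a - c) + (b + c) := by ring
    rw [h1]
    apply ih
    · exact Submodule.sub_mem _ ha hc.1
    · exact Submodule.add_mem _ hb hc.2
    · have : a - c = (a - cmp (e + (m + 1)) a) - (c - cmp (e + (m + 1)) a) := by ring
      rw [this]
      exact (flt_sub_cmp ha2).sub hcs.2
    · have : b + c = (b - cmp (e + (m + 1)) b) + (c - cmp (e + (m + 1)) a) := by
        rw [hab0]; ring
      rw [this]
      exact (flt_sub_cmp hb2).add hcs.2
    · rw [← h1]; exact hab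

theorem exists_flt (f : MvPolynomial (Fin l × ℕ) ℂ) : ∃ D, FLT D f := by
  classical
  refine ⟨f.support.sup gwt + 1, ?_⟩
  intro d hd
  exact Nat.lt_succ_of_le (Finset.le_sup (f := gwt) (mem_support_iff.2 hd))

/-- symbols of `K i + K j` -/
theorem sym_sup
    (hsym : ∀ i, ∀ v ∈ K i, ∀ D, FLT (D + 1) v → cmp D v ∈ G i)
    (hlift2 : ∀ i j, i ≠ j → ∀ D g, FEQ D g → g ∈ G i → g ∈ G j → g ∈ liftS (K i ⊓ K j) D)
    (i j : Fin l) (hij : i ≠ j) (e : ℕ) (a b : MvPolynomial (Fin l × ℕ) ℂ)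
    (ha : a ∈ K i) (hb : b ∈ K j) (hab : FLT (e + 1) (a + b)) : cmp e (a + b) ∈ G i ⊔ G j := by
  obtain ⟨D1, h1⟩ := exists_flt a
  obtain ⟨D2, h2⟩ := exists_flt b
  exact sym_add K G hsym hlift2 i j hij e (D1 + D2) a b ha hb (h1.mono (by omega))
    (h2.mono (by omega)) hab

/-- **Lifting.** -/
theorem lift_abstract
    (hsym : ∀ i, ∀ v ∈ K i, ∀ D, FLT (D + 1) v → cmp D v ∈ G i)
    (hgr : ∀ i, ∀ g ∈ G i, ∀ D, cmp D g ∈ G i)
    (hlift1 : ∀ i D g, FEQ D g → g ∈ G i → g ∈ liftS (K i) D)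
    (hlift2 : ∀ i j, i ≠ j → ∀ D g, FEQ D g → g ∈ G i → g ∈ G j → g ∈ liftS (K i ⊓ K j) D)
    (hmid : ∀ f : Fin l → MvPolynomial (Fin l × ℕ) ℂ,
      (∀ i j, i ≠ j → f i - f j ∈ G i ⊔ G j) → ∃ F, ∀ i, F - f i ∈ G i)
    (D : ℕ) (g : MvPolynomial (Fin l × ℕ) ℂ) (hg : FEQ D g) (hgG : ∀ i, g ∈ G i) :
    g ∈ liftS (⨅ i, K i) D := by
  have key : ∀ n, n ≤ D → ∃ (w : MvPolynomial (Fin l × ℕ) ℂ)
      (v : Fin l → MvPolynomial (Fin l × ℕ) ℂ), (∀ i, v i ∈ K i) ∧ FLT D (w - g) ∧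
        ∀ i, FLT (D - n) (w - v i) := by
    intro n
    induction n with
    | zero =>
      intro _
      have h1 : ∀ i, ∃ v, v ∈ K i ∧ IsSym D v g := fun i => by
        obtain ⟨v, hv, hv2⟩ := hlift1 i D g hg (hgG i)
        exact ⟨v, hv, hv2⟩
      choose v hv hv2 using h1
      refine ⟨g, v, hv, ?_, fun i => ?_⟩
      · rw [sub_self]; exact FLT.zero D
      · have : g - v i = -(v i - g) := by ring
        rw [this]
        exact (hv2 i).2.neg
    | succ n ih =>
      intro hn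
      obtain ⟨w, v, hv, hw, hwv⟩ := ih (by omega)
      obtain ⟨e, he⟩ : ∃ e, D - n = e + 1 := ⟨D - n - 1, by omega⟩
      have he2 : D - (n + 1) = e := by omega
      rw [he2]
      rw [he] at hwv
      obtain ⟨F, hF⟩ := hmid (fun i => cmp e (w - v i)) (by
        intro i j hij
        have h1 : cmp e (w - v i) - cmp e (w - v j) = cmp e (-v i + v j) := by
          rw [cmp, cmp, cmp, ← map_sub]
          congr 1
          ring
        rw [h1]
        apply sym_sup K G hsym hlift2 i j hij e (-v i) (v j) (Submodule.neg_mem _ (hv i)) (hv j)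
        have : -v i + v j = (w - v i) - (w - v j) := by ring
        rw [this]
        exact (hwv i).sub (hwv j))
      have hF2 : ∀ i, cmp e (w - v i) - cmp e F ∈ G i := by
        intro i
        have h1 := hgr i _ (hF i) e
        have h2 : cmp e (F - cmp e (w - v i)) = cmp e F - cmp e (w - v i) := by
          have h3 := cmp_of_feq (feq_cmp e (w - v i))
          rw [cmp, map_sub]
          congr 1
        rw [h2] at h1
        have h3 : cmp e (w - v i) - cmp e F = -(cmp e F - cmp e (w - v i)) := by ring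
        rw [h3]
        exact Submodule.neg_mem _ h1
      have h4 : ∀ i, ∃ k, k ∈ K i ∧ IsSym e k (cmp e (w - v i) - cmp e F) := by
        intro i
        obtain ⟨k, hk, hk2⟩ := hlift1 i e _ ((feq_cmp e _).sub (feq_cmp e F)) (hF2 i)
        exact ⟨k, hk, hk2⟩
      choose k hk hk2 using h4
      refine ⟨w - cmp e F, fun i => v i + k i, fun i => Submodule.add_mem _ (hv i) (hk i), ?_,
        fun i => ?_⟩
      · have : w - cmp e F - g = (w - g) - cmp e F := by ring
        rw [this]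
        exact hw.sub ((feq_cmp e F).flt.mono (by omega))
      · have : w - cmp e F - (v i + k i)
            = ((w - v i) - cmp e (w - v i)) - (k i - (cmp e (w - v i) - cmp e F)) := by ring
        rw [this]
        exact (flt_sub_cmp (hwv i)).sub (hk2 i).2
  obtain ⟨w, v, hv, hw, hwv⟩ := key D le_rfl
  refine ⟨w, ?_, hg, hw⟩
  rw [Submodule.mem_iInf]
  intro i
  have h1 := hwv i
  rw [Nat.sub_self] at h1
  have h2 := eq_zero_of_flt_zero h1
  rw [sub_eq_zero] at h2
  rw [h2]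
  exact hv i

end Lift

end Pool.Agent.LS
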