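import Mathlib
import Pool.Agent.LS.Lift

/-!
# Lifting of the elements of `Gsub A i` to `ker S_i` (F1)
-/

namespace Pool.Agent.LS

open MvPolynomial Finset

set_option linter.unusedSectionVars false

section Single

variable {l : ℕ} {i : Fin l}

/-- the elements `c(x^⊥) * (product of symbols)` -/
noncomputable def prodSym (A : Matrix (Fin l) (Fin l) ℤ) (i : Fin l) (cL : Ki l i × List ℕ) :
    MvPolynomial (Fin l × ℕ) ℂ :=
  phi0 A i cL.1 * rename (fun n => (i, n)) ((cL.2.map qt).prod : MvPolynomial ℕ ℂ)

theorem prodSym_mul (A : Matrix (Fin l) (Fin l) ℤ) (x y : Ki l i × List ℕ) :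
    prodSym A i x * prodSym A i y = prodSym A i (x.1 * y.1, x.2 ++ y.2) := by
  rw [prodSym, prodSym, prodSym, map_mul, List.map_append, List.prod_append, map_mul]
  ring

/-- `Gsub A i` is spanned by the `prodSym` with list entries `≥ 1` -/
theorem Gsub_le_span (A : Matrix (Fin l) (Fin l) ℤ) (hA : ∀ i, A i i = 2) :
    Subalgebra.toSubmodule (Gsub A i) ≤
      Submodule.span ℂ ((prodSym A i) '' {cL | ∀ m ∈ cL.2, 1 ≤ m}) := by
  intro f hf
  rw [Subalgebra.mem_toSubmodule] at hf
  unfold Gsub at hf
  have hone : (1 : MvPolynomial (Fin l × ℕ) ℂ) = prodSym A i (1, []) := by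
    rw [prodSym, map_one, List.map_nil, List.prod_nil, map_one, mul_one]
  induction hf using Algebra.adjoin_induction with
  | mem x hx =>
    rcases hx with (hx | ⟨n, rfl⟩) | ⟨a, rfl⟩
    · rw [Set.mem_singleton_iff] at hx
      apply Submodule.subset_span
      refine ⟨(1, [1]), by simp, ?_⟩
      rw [prodSym, map_one, one_mul, List.map_cons, List.map_nil, List.prod_singleton, qt, map_pow,
        rename_X, hx]
    · have h1 : (X (i, 0) * X (i, n + 1) : MvPolynomial (Fin l × ℕ) ℂ)
          = prodSym A i (C (1 / 2), [n + 2]) := by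
        rw [prodSym, List.map_cons, List.map_nil, List.prod_singleton, qt, map_mul, map_mul,
          rename_X, rename_X, rename_C, ← algebraMap_eq, AlgHom.commutes, algebraMap_eq,
          ← mul_assoc, ← map_mul]
        norm_num
      simp only []
      rw [h1]
      apply Submodule.subset_span
      exact ⟨_, by simp, rfl⟩
    · by_cases h : a.1 = i
      · have : X a - C ((A i a.1 : ℂ) / 2) * X (i, a.2) = (0 : MvPolynomial (Fin l × ℕ) ℂ) := by
          rw [h, hA]
          have h2 : ((2 : ℤ) : ℂ) / 2 = 1 := by norm_num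
          rw [h2, C_1, one_mul]
          have : (i, a.2) = a := by rw [← h]
          rw [this, sub_self]
        simp only []
        rw [this]
        exact Submodule.zero_mem _
      · have h1 : X a - C ((A i a.1 : ℂ) / 2) * X (i, a.2)
            = prodSym A i (X ⟨a, h⟩, []) := by
          rw [prodSym, List.map_nil, List.prod_nil, map_one, mul_one, phi0, aeval_X]
        simp only []
        rw [h1]
        apply Submodule.subset_span
        exact ⟨_, by simp, rfl⟩
  | algebraMap r =>
    rw [Algebra.algebraMap_eq_smul_one, hone]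
    apply Submodule.smul_mem
    apply Submodule.subset_span
    exact ⟨_, by simp, rfl⟩
  | add x y _ _ hx hy => exact Submodule.add_mem _ hx hy
  | mul x y hx0 hy0 hx hy =>
    clear hx0 hy0
    -- product of two spans
    induction hx using Submodule.span_induction with
    | mem x hx =>
      induction hy using Submodule.span_induction with
      | mem y hy =>
        obtain ⟨u, hu, rfl⟩ := hx
        obtain ⟨w, hw, rfl⟩ := hy
        rw [prodSym_mul]
        apply Submodule.subset_span
        refine ⟨_, ?_, rfl⟩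
        intro m hm
        rcases List.mem_append.1 hm with h | h
        · exact hu m h
        · exact hw m h
      | zero => rw [mul_zero]; exact Submodule.zero_mem _
      | add y z _ _ hy hz => rw [mul_add]; exact Submodule.add_mem _ hy hz
      | smul c y _ hy => rw [mul_smul_comm]; exact Submodule.smul_mem _ c hy
    | zero => rw [zero_mul]; exact Submodule.zero_mem _
    | add x z _ _ hx hz => rw [add_mul]; exact Submodule.add_mem _ hx hz
    | smul c x _ hx => rw [smul_mul_assoc]; exact Submodule.smul_mem _ c hx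

/-- g-components in the coefficient ring -/
theorem exists_phi0_cmp (A : Matrix (Fin l) (Fin l) ℤ) (c : Ki l i) :
    ∃ (s : Finset ℕ) (c' : ℕ → Ki l i), c = ∑ a ∈ s, c' a ∧ ∀ a, FEQ a (phi0 A i (c' a)) := by
  classical
  refine ⟨c.support.image gsm, fun a => ∑ e ∈ c.support with gsm e = a, monomial e (coeff e c),
    ?_, ?_⟩
  · rw [Finset.sum_fiberwise_of_maps_to (fun e he => mem_image_of_mem gsm he)]
    exact c.as_sum
  · intro a
    rw [map_sum]
    have h : ∀ s : Finset ({a : Fin l × ℕ // a.1 ≠ i} →₀ ℕ), (∀ e ∈ s, gsm e = a) →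
        FEQ a (∑ e ∈ s, phi0 A i (monomial e (coeff e c))) := by
      intro s
      induction s using Finset.induction_on with
      | empty => intro _; rw [sum_empty]; exact FEQ.zero a
      | insert x s hx ih =>
        intro hs
        rw [sum_insert hx]
        refine FEQ.add ?_ (ih (fun e he => hs e (mem_insert_of_mem he)))
        have h2 := feq_phi0_monomial A x (coeff x c)
        rwa [hs x (mem_insert_self x s)] at h2
    exact h _ (fun e he => (mem_filter.1 he).2)

theorem SA_phi0_mul (A : Matrix (Fin l) (Fin l) ℤ) (hA : SimplyLaced A) (ν : ℂ) (c : Ki l i)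
    (m : ℤ) (f : MvPolynomial (Fin l × ℕ) ℂ) :
    SA A ν i m (phi0 A i c * f) = phi0 A i c * SA A ν i m f := by
  induction c using MvPolynomial.induction_on generalizing m f with
  | C z =>
    rw [← algebraMap_eq, AlgHom.commutes, algebraMap_eq, SA_C_mul]
  | add c d hc hd => rw [map_add, add_mul, SA_add, hc, hd, add_mul]
  | mul_X c a hc =>
    rw [map_mul, mul_assoc, hc, mul_assoc]
    congr 1
    rw [phi0, aeval_X, sub_mul, mul_assoc]
    have h1 : SA A ν i m (X a.1 * f - C ((A i a.1.1 : ℂ) / 2) * (X (i, a.1.2) * f))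
        = SA A ν i m (X a.1 * f) - C ((A i a.1.1 : ℂ) / 2) * SA A ν i m (X (i, a.1.2) * f) := by
      have h2 : X a.1 * f - C ((A i a.1.1 : ℂ) / 2) * (X (i, a.1.2) * f)
          = X a.1 * f + C (-((A i a.1.1 : ℂ) / 2)) * (X (i, a.1.2) * f) := by
        rw [map_neg]; ring
      rw [h2, SA_add, SA_C_mul, map_neg]; ring
    rw [h1, SA_X_mul, SA_X_mul]
    simp only []
    rw [hA.diag]
    have h3 : (C (ν * ((A i a.1.1 : ℤ) : ℂ)) : MvPolynomial (Fin l × ℕ) ℂ)
        = C ((A i a.1.1 : ℂ) / 2) * C (ν * ((2 : ℤ) : ℂ)) := by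
      rw [← map_mul]; congr 1; push_cast; ring
    rw [h3]
    ring

/-- `S_i` on polynomials in the `x_{i,n}` only -/
theorem SA_rename (A : Matrix (Fin l) (Fin l) ℤ) (hA : SimplyLaced A) (ν : ℂ)
    (f : MvPolynomial ℕ ℂ) : ∀ m : ℤ,
    SA A ν i m (rename (fun n => (i, n)) f) = rename (fun n => (i, n)) (S ν m f) := by
  induction f using MvPolynomial.induction_on with
  | C c => intro m; rw [rename_C, SA_C, S_C, map_mul, rename_C]; rfl
  | add f g hf hg => intro m; rw [map_add, SA_add, S_add, map_add, hf, hg]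
  | mul_X f n hf =>
    intro m
    rw [mul_comm, map_mul, rename_X, SA_X_mul, S_X_mul, map_sub,
      map_mul (rename _) (X n), map_mul (rename _) (C _), rename_X, rename_C, hf, hf]
    simp only []
    rw [hA.diag]
    have : ν * ((2 : ℤ) : ℂ) = 2 * ν := by push_cast; ring
    rw [this]

/-- `S^{(1)}` kills the vacuum PBW vectors -/
theorem S_VL_zero (ν : ℂ) (L : List ℕ) : S ν 1 (VL 0 ν L 1) = 0 := by
  have h1 := S_VL (0 : ℂ) ν 1 (by simp) L 1
  have h2 : S ν 1 (1 : MvPolynomial ℕ ℂ) = 0 := by
    rw [S_one]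
    rfl
  rw [h1, h2]
  have h3 := VL_C_mul (0 + 2 * ν) ν L 0 0
  rw [C_0, zero_mul, zero_mul] at h3
  exact h3

theorem single_lift (A : Matrix (Fin l) (Fin l) ℤ) (hA : SimplyLaced A) (ν : ℂ) (D : ℕ)
    (g : MvPolynomial (Fin l × ℕ) ℂ) (hg : g ∈ Gsub A i) :
    cmp D g ∈ liftS (LinearMap.ker (SAl A ν i 1)) D ∧ cmp D g ∈ Gsub A i := by
  classical
  have h1 := Gsub_le_span A hA.diag (i := i) ((Subalgebra.mem_toSubmodule _).2 hg)
  clear hg
  induction h1 using Submodule.span_induction with
  | mem x hx =>
    obtain ⟨⟨c, L⟩, hL, rfl⟩ := hx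
    obtain ⟨s, c', hc, hc'⟩ := exists_phi0_cmp A c
    have hv := isSym_VL (i := i) ν L hL
    have h2 : prodSym A i (c, L) = ∑ a ∈ s, prodSym A i (c' a, L) := by
      simp only [prodSym]
      rw [hc, map_sum, Finset.sum_mul]
    rw [h2, cmp, map_sum]
    constructor
    · apply Submodule.sum_mem
      intro a _
      have h3 : FEQ (a + (L.map qdeg).sum) (prodSym A i (c' a, L)) := (hc' a).mul hv.1
      by_cases hD : a + (L.map qdeg).sum = D
      · have h4 := cmp_of_feq (hD ▸ h3)
        rw [cmp] at h4
        rw [h4]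
        refine ⟨phi0 A i (c' a) * rename (fun n => (i, n)) (VL 0 ν L 1), ?_, ?_⟩
        · rw [LinearMap.mem_ker]
          show SA A ν i 1 _ = 0
          rw [SA_phi0_mul A hA, SA_rename A hA, S_VL_zero, map_zero, mul_zero]
        · rw [← hD]
          exact (IsSym.of_feq (hc' a)).mul hv
      · have := cmp_of_feq_ne h3 hD
        rw [cmp] at this
        rw [this]
        exact Submodule.zero_mem _
    · rw [← Subalgebra.mem_toSubmodule]
      apply Submodule.sum_mem
      intro a _
      have h3 : FEQ (a + (L.map qdeg).sum) (prodSym A i (c' a, L)) := (hc' a).mul hv.1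
      by_cases hD : a + (L.map qdeg).sum = D
      · have h4 := cmp_of_feq (hD ▸ h3)
        rw [cmp] at h4
        rw [h4]
        exact Subalgebra.mul_mem _ (phi0_mem A _) (rename_prod_qt_mem A L)
      · have := cmp_of_feq_ne h3 hD
        rw [cmp] at this
        rw [this]
        exact Submodule.zero_mem _
  | zero => rw [cmp, map_zero]; exact ⟨Submodule.zero_mem _, Subalgebra.zero_mem _⟩
  | add x y _ _ hx hy =>
    rw [cmp, map_add]
    exact ⟨Submodule.add_mem _ hx.1 hy.1, Subalgebra.add_mem _ hx.2 hy.2⟩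
  | smul c x _ hx =>
    rw [cmp, map_smul]
    exact ⟨Submodule.smul_mem _ c hx.1, Subalgebra.smul_mem _ hx.2 c⟩

end Single

end Pool.Agent.LS
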