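import Mathlib
import Pool.Agent.LS.Single
import Pool.Agent.LS.Count
import Pool.Agent.LS.W

/-!
# The basic invariants and their polarisations lie in every `Gsub A i`
-/

namespace Pool.Agent.LS

open MvPolynomial Finset

set_option linter.unusedSectionVars false

section GensG

variable {l : ℕ}

/-- the algebra `ℂ[x_i², x^⊥]` -/
noncomputable def Bsub (A : Matrix (Fin l) (Fin l) ℤ) (i : Fin l) :
    Subalgebra ℂ (MvPolynomial (Fin l) ℂ) :=
  Algebra.adjoin ℂ ({X i ^ 2} ∪ Set.range (fun a : Fin l => X a - C ((A i a : ℂ) / 2) * X i))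

theorem exists_decomp (A : Matrix (Fin l) (Fin l) ℤ) (i : Fin l) (f : MvPolynomial (Fin l) ℂ) :
    ∃ g ∈ Bsub A i, ∃ h ∈ Bsub A i, f = g + X i * h := by
  have hsq : (X i ^ 2 : MvPolynomial (Fin l) ℂ) ∈ Bsub A i := Algebra.subset_adjoin (Or.inl rfl)
  have hp : ∀ a, (X a - C ((A i a : ℂ) / 2) * X i : MvPolynomial (Fin l) ℂ) ∈ Bsub A i :=
    fun a => Algebra.subset_adjoin (Or.inr ⟨a, rfl⟩)
  have hC : ∀ c : ℂ, (C c : MvPolynomial (Fin l) ℂ) ∈ Bsub A i := fun c =>
    Subalgebra.algebraMap_mem _ c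
  induction f using MvPolynomial.induction_on with
  | C c => exact ⟨C c, hC c, 0, Subalgebra.zero_mem _, by rw [mul_zero, add_zero]⟩
  | add f f' hf hf' =>
    obtain ⟨g, hg, h, hh, rfl⟩ := hf
    obtain ⟨g', hg', h', hh', rfl⟩ := hf'
    exact ⟨g + g', Subalgebra.add_mem _ hg hg', h + h', Subalgebra.add_mem _ hh hh', by ring⟩
  | mul_X f a hf =>
    obtain ⟨g, hg, h, hh, rfl⟩ := hf
    refine ⟨g * (X a - C ((A i a : ℂ) / 2) * X i) + C ((A i a : ℂ) / 2) * X i ^ 2 * h,
      Subalgebra.add_mem _ (Subalgebra.mul_mem _ hg (hp a))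
        (Subalgebra.mul_mem _ (Subalgebra.mul_mem _ (hC _) hsq) hh),
      h * (X a - C ((A i a : ℂ) / 2) * X i) + C ((A i a : ℂ) / 2) * g,
      Subalgebra.add_mem _ (Subalgebra.mul_mem _ hh (hp a)) (Subalgebra.mul_mem _ (hC _) hg), ?_⟩
    ring

theorem refl_of_mem_Bsub (A : Matrix (Fin l) (Fin l) ℤ) (hA : SimplyLaced A) (i : Fin l)
    (f : MvPolynomial (Fin l) ℂ) (hf : f ∈ Bsub A i) : refl A i f = f := by
  have h2 : (C (((2 : ℤ) : ℂ)) : MvPolynomial (Fin l) ℂ) = 2 := by
    have : (((2 : ℤ) : ℂ)) = 2 := by norm_num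
    rw [this]; exact map_ofNat C 2
  have hi : refl A i (X i) = - X i := by
    rw [refl_X, hA.diag, h2]; ring
  unfold Bsub at hf
  induction hf using Algebra.adjoin_induction with
  | mem x hx =>
    rcases hx with hx | ⟨a, rfl⟩
    · rw [Set.mem_singleton_iff] at hx
      rw [hx, map_pow, hi]; ring
    · simp only []
      rw [map_sub, map_mul, hi, refl_X]
      have h3 : refl A i (C ((A i a : ℂ) / 2)) = C ((A i a : ℂ) / 2) := by
        rw [← algebraMap_eq, AlgHom.commutes]
      rw [h3]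
      have h4 : (C ((A i a : ℤ) : ℂ) : MvPolynomial (Fin l) ℂ)
          = C ((A i a : ℂ) / 2) + C ((A i a : ℂ) / 2) := by
        rw [← map_add]; congr 1; ring
      rw [h4]; ring
  | algebraMap r => rw [AlgHom.commutes]
  | add x y _ _ hx hy => rw [map_add, hx, hy]
  | mul x y _ _ hx hy => rw [map_mul, hx, hy]

theorem mem_Bsub_of_refl (A : Matrix (Fin l) (Fin l) ℤ) (hA : SimplyLaced A) (i : Fin l)
    (f : MvPolynomial (Fin l) ℂ) (hf : refl A i f = f) : f ∈ Bsub A i := by
  have h2 : (C (((2 : ℤ) : ℂ)) : MvPolynomial (Fin l) ℂ) = 2 := by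
    have : (((2 : ℤ) : ℂ)) = 2 := by norm_num
    rw [this]; exact map_ofNat C 2
  have hi : refl A i (X i) = - X i := by
    rw [refl_X, hA.diag, h2]; ring
  obtain ⟨g, hg, h, hh, rfl⟩ := exists_decomp A i f
  rw [map_add, map_mul, refl_of_mem_Bsub A hA i g hg, refl_of_mem_Bsub A hA i h hh, hi] at hf
  have h3 : X i * h = 0 := by
    have h4 : (2 : MvPolynomial (Fin l) ℂ) * (X i * h) = 0 := by linear_combination -hf
    exact (mul_eq_zero.1 h4).resolve_left two_ne_zero
  rw [h3, add_zero]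
  exact hg

/-- polarisation -/
noncomputable def polar (n : ℕ) (f : MvPolynomial (Fin l) ℂ) : MvPolynomial (Fin l × ℕ) ℂ :=
  ∑ a, rename (fun i => (i, 0)) (pderiv a f) * X (a, n + 1)

theorem polar_add (n : ℕ) (f g : MvPolynomial (Fin l) ℂ) :
    polar n (f + g) = polar n f + polar n g := by
  rw [polar, polar, polar, ← sum_add_distrib]
  apply sum_congr rfl
  intro a _
  rw [map_add, map_add, add_mul]

theorem polar_mul (n : ℕ) (f g : MvPolynomial (Fin l) ℂ) :
    polar n (f * g) = rename (fun i => (i, 0)) f * polar n g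
      + rename (fun i => (i, 0)) g * polar n f := by
  rw [polar, polar, polar, Finset.mul_sum, Finset.mul_sum, ← sum_add_distrib]
  apply sum_congr rfl
  intro a _
  rw [Derivation.leibniz, map_add, smul_eq_mul, smul_eq_mul, map_mul, map_mul]
  ring

theorem polar_C (n : ℕ) (c : ℂ) : polar n (C c : MvPolynomial (Fin l) ℂ) = 0 := by
  rw [polar]
  apply sum_eq_zero
  intro a _
  rw [pderiv_C, map_zero, zero_mul]

theorem polar_X (n : ℕ) (a : Fin l) : polar n (X a : MvPolynomial (Fin l) ℂ) = X (a, n + 1) := by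
  classical
  rw [polar, Finset.sum_eq_single a]
  · rw [pderiv_X_self, map_one, one_mul]
  · intro b _ hb
    rw [pderiv_X_of_ne (Ne.symm hb), map_zero, zero_mul]
  · intro h; exact absurd (mem_univ a) h

theorem Bsub_gsub (A : Matrix (Fin l) (Fin l) ℤ) (i : Fin l) (f : MvPolynomial (Fin l) ℂ)
    (hf : f ∈ Bsub A i) :
    rename (fun i => (i, 0)) f ∈ Gsub A i ∧ ∀ n, polar n f ∈ Gsub A i := by
  have hperp : ∀ (a : Fin l) (n : ℕ),
      (X (a, n) - C ((A i a : ℂ) / 2) * X (i, n) : MvPolynomial (Fin l × ℕ) ℂ) ∈ Gsub A i :=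
    fun a n => Algebra.subset_adjoin (Or.inr ⟨(a, n), rfl⟩)
  unfold Bsub at hf
  induction hf using Algebra.adjoin_induction with
  | mem x hx =>
    rcases hx with hx | ⟨a, rfl⟩
    · rw [Set.mem_singleton_iff] at hx
      subst hx
      constructor
      · rw [map_pow, rename_X]
        exact Algebra.subset_adjoin (Or.inl (Or.inl rfl))
      · intro n
        have h1 : polar n (X i ^ 2 : MvPolynomial (Fin l) ℂ) = (2 : ℂ) • (X (i, 0) * X (i, n + 1)) := by
          rw [pow_two, polar_mul, polar_X, rename_X, two_smul]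
        have h2 : (X (i, 0) * X (i, n + 1) : MvPolynomial (Fin l × ℕ) ℂ) ∈ Gsub A i :=
          Algebra.subset_adjoin (Or.inl (Or.inr ⟨n, rfl⟩))
        rw [h1]
        exact Subalgebra.smul_mem _ h2 _
    · constructor
      · simp only []
        rw [map_sub, map_mul, rename_X, rename_C, rename_X]
        exact hperp a 0
      · intro n
        have h1 : polar n (X a - C ((A i a : ℂ) / 2) * X i : MvPolynomial (Fin l) ℂ)
            = X (a, n + 1) - C ((A i a : ℂ) / 2) * X (i, n + 1) := by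
          have h2 : (X a - C ((A i a : ℂ) / 2) * X i : MvPolynomial (Fin l) ℂ)
              = X a + C (-((A i a : ℂ) / 2)) * X i := by rw [map_neg]; ring
          rw [h2, polar_add, polar_mul, polar_C, polar_X, polar_X, rename_C, mul_zero, add_zero,
            map_neg]
          ring
        simp only []
        rw [h1]
        exact hperp a (n + 1)
  | algebraMap r =>
    constructor
    · rw [algebraMap_eq, rename_C]; exact Subalgebra.algebraMap_mem _ r
    · intro n
      rw [algebraMap_eq, polar_C]; exact Subalgebra.zero_mem _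
  | add x y _ _ hx hy =>
    refine ⟨by rw [map_add]; exact Subalgebra.add_mem _ hx.1 hy.1, fun n => ?_⟩
    rw [polar_add]; exact Subalgebra.add_mem _ (hx.2 n) (hy.2 n)
  | mul x y _ _ hx hy =>
    refine ⟨by rw [map_mul]; exact Subalgebra.mul_mem _ hx.1 hy.1, fun n => ?_⟩
    rw [polar_mul]
    exact Subalgebra.add_mem _ (Subalgebra.mul_mem _ hx.1 (hy.2 n))
      (Subalgebra.mul_mem _ hy.1 (hx.2 n))

theorem gens_mem_Gsub {A : Matrix (Fin l) (Fin l) ℤ} (hA : SimplyLaced A) (B : BasicInvariants A)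
    (i : Fin l) (a : Fin l × ℕ) : gens B a ∈ Gsub A i := by
  obtain ⟨j, n⟩ := a
  have h := Bsub_gsub A i (B.P j) (mem_Bsub_of_refl A hA i _ (B.inv i j))
  cases n with
  | zero => exact h.1
  | succ n => exact h.2 n

end GensG

end Pool.Agent.LS
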