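import Pool.Agent.LS.WRdef
import Pool.Agent.LS.AInd

/-!
# Koszul type facts for three basic invariants
-/

namespace Pool.Agent.LS

open MvPolynomial Finset

section Mon

variable {σ k : Type*} [CommRing k]

theorem le_of_coeff_X_pow_mul (a : σ) (K : ℕ) (G : MvPolynomial σ k) (n : σ →₀ ℕ)
    (h : coeff n (X a ^ K * G) ≠ 0) : K ≤ n a := by
  classical
  rw [X_pow_eq_monomial, coeff_monomial_mul'] at h
  by_contra hlt
  rw [if_neg] at h
  · exact h rfl
  · intro hle
    have := hle a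
    rw [Finsupp.single_eq_same] at this
    exact hlt this

theorem coeff_X_pow_mul_add (c : σ) (K : ℕ) (E : MvPolynomial σ k) (m : σ →₀ ℕ) :
    coeff (m + Finsupp.single c K) (X c ^ K * E) = coeff m E := by
  classical
  rw [X_pow_eq_monomial, coeff_monomial_mul', if_pos le_add_self, one_mul,
    add_tsub_cancel_right]

theorem monomial_mem_span (a : σ) (K : ℕ) (m : σ →₀ ℕ) (r : k) (h : K ≤ m a) :
    ∃ q, monomial m r = X a ^ K * q := by
  classical
  refine ⟨monomial (m - Finsupp.single a K) r, ?_⟩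
  rw [X_pow_eq_monomial, monomial_mul, one_mul, add_tsub_cancel_of_le]
  rw [Finsupp.single_le_iff]
  exact h

/-- exactness for powers of three variables -/
theorem mon_exact (a b c : σ) (hac : a ≠ c) (hbc : b ≠ c) (Ka Kb Kc : ℕ)
    (E G H : MvPolynomial σ k) (h : X c ^ Kc * E = X a ^ Ka * G + X b ^ Kb * H) :
    ∃ G' H', E = X a ^ Ka * G' + X b ^ Kb * H' := by
  classical
  have key : ∀ m ∈ E.support, monomial m (coeff m E) ∈
      Ideal.span {X a ^ Ka, X b ^ Kb} := by
    intro m hm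
    have h1 := coeff_X_pow_mul_add c Kc E m
    rw [h, coeff_add] at h1
    have h2 : coeff m E ≠ 0 := mem_support_iff.1 hm
    have h3 : Ka ≤ m a ∨ Kb ≤ m b := by
      by_cases h4 : coeff (m + Finsupp.single c Kc) (X a ^ Ka * G) = 0
      · right
        have h5 : coeff (m + Finsupp.single c Kc) (X b ^ Kb * H) ≠ 0 := by
          intro h5
          rw [h4, h5, add_zero] at h1
          exact h2 h1.symm
        have h6 := le_of_coeff_X_pow_mul b Kb H _ h5
        rwa [Finsupp.add_apply, Finsupp.single_eq_of_ne hbc, add_zero] at h6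
      · left
        have h6 := le_of_coeff_X_pow_mul a Ka G _ h4
        rwa [Finsupp.add_apply, Finsupp.single_eq_of_ne hac, add_zero] at h6
    rcases h3 with h3 | h3
    · obtain ⟨q, hq⟩ := monomial_mem_span a Ka m (coeff m E) h3
      rw [hq]
      exact Ideal.mul_mem_right _ _ (Ideal.subset_span (Set.mem_insert _ _))
    · obtain ⟨q, hq⟩ := monomial_mem_span b Kb m (coeff m E) h3
      rw [hq]
      exact Ideal.mul_mem_right _ _ (Ideal.subset_span (Set.mem_insert_of_mem _ rfl))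
  have hE : E ∈ Ideal.span {X a ^ Ka, X b ^ Kb} := by
    rw [E.as_sum]
    exact Ideal.sum_mem _ key
  obtain ⟨G', H', hGH⟩ := Ideal.mem_span_pair.1 hE
  exact ⟨G', H', by rw [← hGH, mul_comm G', mul_comm H']⟩

end Mon

section Kosz

variable {l : ℕ} {A : Matrix (Fin l) (Fin l) ℤ}

/-- the algebra of symbols `ℂ[P_j, ω_{j,n}]` -/
noncomputable def Agens (B : BasicInvariants A) : Subalgebra ℂ (MvPolynomial (Fin l × ℕ) ℂ) :=
  Algebra.adjoin ℂ (Set.range (P0 B) ∪ Set.range (fun jn : Fin l × ℕ => omega B jn.1 jn.2))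

theorem mem_Agens (B : BasicInvariants A) (f : MvPolynomial (Fin l × ℕ) ℂ) :
    f ∈ Agens B ↔ ∃ F : MvPolynomial (Fin l × ℕ) ℂ, aeval (gens B) F = f := by
  rw [Agens, ← range_gens, Algebra.adjoin_range_eq_range_aeval]
  exact Iff.rfl

theorem aeval_gens_X_zero (B : BasicInvariants A) (j : Fin l) :
    aeval (gens B) (X (j, 0) : MvPolynomial (Fin l × ℕ) ℂ) = P0 B j := by
  rw [aeval_X]
  rfl

/-- **(i)** the Koszul relations of three basic invariants in the algebra of symbols -/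
theorem kosz_exact (hA : SimplyLaced A) (B : BasicInvariants A) (j₁ j₂ j₃ : Fin l)
    (h13 : j₁ ≠ j₃) (h23 : j₂ ≠ j₃) (K₁ K₂ K₃ : ℕ) (e g h : MvPolynomial (Fin l × ℕ) ℂ)
    (he : e ∈ Agens B) (hg : g ∈ Agens B) (hh : h ∈ Agens B)
    (heq : P0 B j₃ ^ K₃ * e = P0 B j₁ ^ K₁ * g + P0 B j₂ ^ K₂ * h) :
    ∃ g' ∈ Agens B, ∃ h' ∈ Agens B, e = P0 B j₁ ^ K₁ * g' + P0 B j₂ ^ K₂ * h' := by
  obtain ⟨E, rfl⟩ := (mem_Agens B e).1 he
  obtain ⟨G, rfl⟩ := (mem_Agens B g).1 hg
  obtain ⟨H, rfl⟩ := (mem_Agens B h).1 hh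
  rw [← aeval_gens_X_zero, ← aeval_gens_X_zero, ← aeval_gens_X_zero, ← map_pow, ← map_pow,
    ← map_pow, ← map_mul, ← map_mul, ← map_mul, ← map_add] at heq
  have h1 := (algebraicIndependent_iff_injective_aeval.1 (algebraicIndependent_gens hA B)) heq
  obtain ⟨G', H', hGH⟩ := mon_exact (j₁, 0) (j₂, 0) (j₃, 0)
    (fun h0 => h13 (Prod.mk.inj h0).1) (fun h0 => h23 (Prod.mk.inj h0).1) K₁ K₂ K₃ E G H h1
  refine ⟨aeval (gens B) G', (mem_Agens B _).2 ⟨G', rfl⟩, aeval (gens B) H',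
    (mem_Agens B _).2 ⟨H', rfl⟩, ?_⟩
  rw [hGH, ← aeval_gens_X_zero, ← aeval_gens_X_zero, ← map_pow, ← map_pow, ← map_mul, ← map_mul,
    ← map_add]

theorem isRelPrime_X_pow {a b : Fin l} (hab : a ≠ b) (m n : ℕ) :
    IsRelPrime (X a ^ m : MvPolynomial (Fin l) ℂ) (X b ^ n) := by
  apply IsRelPrime.pow_left
  apply IsRelPrime.pow_right
  have ha : Prime (X a : MvPolynomial (Fin l) ℂ) := X_prime
  have hb : Prime (X b : MvPolynomial (Fin l) ℂ) := X_prime
  apply (ha.irreducible.isRelPrime_iff_not_dvd).2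
  intro hdvd
  obtain ⟨q, hq⟩ := hdvd
  have h1 := congrArg (eval (fun i => if i = a then (0 : ℂ) else 1)) hq
  rw [map_mul, eval_X, eval_X, if_neg (Ne.symm hab), if_pos rfl, zero_mul] at h1
  exact one_ne_zero h1

/-- **(ii)** different basic invariants are relatively prime -/
theorem isRelPrime_P (hA : SimplyLaced A) (B : BasicInvariants A) {j₁ j₂ : Fin l}
    (hj : j₁ ≠ j₂) : IsRelPrime (B.P j₁) (B.P j₂) := by
  classical
  intro d h1 h2
  have hfin := finite_WG hA
  have := Fintype.ofFinite (WG hA)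
  have hind := algebraicIndependent_P hA B
  have hinj := algebraicIndependent_iff_injective_aeval.1 hind
  set Nd : MvPolynomial (Fin l) ℂ := ∏ w : WG hA, w.1 d with hNd
  have hNdinv : ∀ w ∈ WG hA, w Nd = Nd := by
    intro w hw
    rw [hNd, map_prod]
    have h3 := Equiv.prod_comp (Equiv.mulLeft (⟨w, hw⟩ : WG hA)) (fun u : WG hA => u.1 d)
    rw [← h3]
    refine Finset.prod_congr rfl fun u _ => ?_
    rfl
  have hPinv : ∀ j, ∀ w ∈ WG hA, w (B.P j) = B.P j := by
    intro j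
    exact (inv_iff hA (B.P j)).1 (fun i => B.inv i j)
  have hPne : ∀ j, B.P j ≠ 0 := by
    intro j h0
    have h3 : aeval B.P (X j : MvPolynomial (Fin l) ℂ) = aeval B.P (0 : MvPolynomial (Fin l) ℂ) := by
      rw [aeval_X, map_zero, h0]
    exact X_ne_zero j (hinj h3)
  have hdvd : ∀ j, d ∣ B.P j → Nd ∣ B.P j ^ Fintype.card (WG hA) := by
    intro j hdj
    have h3 : ∏ w : WG hA, w.1 (B.P j) = B.P j ^ Fintype.card (WG hA) := by
      rw [Finset.prod_congr rfl fun w _ => hPinv j w.1 w.2, prod_const, card_univ]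
    rw [← h3, hNd]
    apply Finset.prod_dvd_prod_of_dvd
    intro w _
    exact map_dvd w.1 hdj
  have hmemF : ∃ F : MvPolynomial (Fin l) ℂ, aeval B.P F = Nd := by
    have h3 := B.gen Nd ((inv_iff hA Nd).2 hNdinv)
    rw [Algebra.adjoin_range_eq_range_aeval] at h3
    exact h3
  obtain ⟨F, hF⟩ := hmemF
  have hdvdF : ∀ j, d ∣ B.P j → F ∣ X j ^ Fintype.card (WG hA) := by
    intro j hdj
    obtain ⟨q, hq⟩ := hdvd j hdj
    have hNd0 : Nd ≠ 0 := by
      intro h0
      rw [h0, zero_mul] at hq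
      exact pow_ne_zero _ (hPne j) hq
    have hqinv : ∀ w ∈ WG hA, w q = q := by
      intro w hw
      apply mul_left_cancel₀ hNd0
      rw [← hq]
      have h3 := congrArg w hq
      rw [map_mul, map_pow, hPinv j w hw, hNdinv w hw] at h3
      exact h3.symm
    have h3 := B.gen q ((inv_iff hA q).2 hqinv)
    rw [Algebra.adjoin_range_eq_range_aeval] at h3
    obtain ⟨G, hG⟩ := h3
    replace hG : aeval B.P G = q := hG
    refine ⟨G, hinj ?_⟩
    rw [map_pow, aeval_X, map_mul, hF, hG]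
    exact hq
  have hFu : IsUnit F := isRelPrime_X_pow hj _ _ (hdvdF j₁ h1) (hdvdF j₂ h2)
  have hNu : IsUnit Nd := by
    rw [← hF]
    exact hFu.map _
  have hdN : d ∣ Nd := by
    rw [hNd]
    have h3 := Finset.dvd_prod_of_mem (fun w : WG hA => w.1 d) (mem_univ (1 : WG hA))
    exact h3
  exact isUnit_of_dvd_unit hdN hNu

theorem iotaS_iS (s : MvPolynomial (Fin l) ℂ) : iotaS l (iS l s) = C s := by
  induction s using MvPolynomial.induction_on with
  | C a => rw [iS_C, iotaS_C]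
  | add p q hp hq => rw [map_add, map_add, hp, hq, C_add]
  | mul_X p j ih => rw [map_mul, map_mul, ih, iS_X, iotaS_X_zero, C_mul]

/-- **(iii)** cancellation of a relatively prime level zero factor -/
theorem iS_dvd_of_isRelPrime {a b : MvPolynomial (Fin l) ℂ} (hab : IsRelPrime a b)
    {f g : MvPolynomial (Fin l × ℕ) ℂ} (h : iS l a * f = iS l b * g) : iS l b ∣ f := by
  have h1 := congrArg (iotaS l) h
  rw [map_mul, map_mul, iotaS_iS, iotaS_iS] at h1
  have h2 : C b ∣ iotaS l f := by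
    rw [C_dvd_iff_dvd_coeff]
    intro m
    have h3 := congrArg (coeff m) h1
    rw [coeff_C_mul, coeff_C_mul] at h3
    exact hab.symm.dvd_of_dvd_mul_left ⟨_, h3⟩
  obtain ⟨q, hq⟩ := h2
  refine ⟨rhoS l q, ?_⟩
  have h3 := congrArg (rhoS l) hq
  rw [rhoS_iotaS, map_mul, rhoS_C] at h3
  exact h3

end Kosz

end Pool.Agent.LS
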