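import Mathlib
import Pool.Agent.LS.W
import Pool.Agent.LS.Frame

/-!
# Matsumoto's theorem and the group part of middle exactness
-/

namespace Pool.Agent.LS

open MvPolynomial Finset

set_option linter.unusedSectionVars false

section Mats

variable {l : ℕ} {A : Matrix (Fin l) (Fin l) ℤ}

/-- reduced words -/
def Red (A : Matrix (Fin l) (Fin l) ℤ) (L : List (Fin l)) : Prop :=
  ∀ M : List (Fin l), wv A M = wv A L → L.length ≤ M.length

theorem wv_mul_sv_sv (hA : SimplyLaced A) (w : Module.End ℤ (Fin l → ℤ)) (i : Fin l) :
    w * sv A i * sv A i = w := by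
  rw [mul_assoc, sv_mul_sv hA, mul_one]

theorem Red.of_append {L M : List (Fin l)} (h : Red A (L ++ M)) : Red A L := by
  intro K hK
  have := h (K ++ M) (by rw [wv_append, wv_append, hK])
  rw [List.length_append, List.length_append] at this
  omega

/-- the last letter of a reduced word is a descent -/
theorem Red.descent (hA : SimplyLaced A) {L : List (Fin l)} {i : Fin l} (h : Red A (L ++ [i])) :
    wv A (L ++ [i]) (ee i) ≤ 0 := by
  have h1 : wv A (L ++ [i]) (ee i) = - wv A L (ee i) := by
    rw [wv_append, wv_cons, wv_nil, mul_one, Module.End.mul_apply, sv_ee hA, map_neg]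
  rw [h1]
  have h2 : ¬ wv A L (ee i) ≤ 0 := by
    intro h4
    obtain ⟨M, h5, h6⟩ := delete hA i L h4
    have := h M (by rw [← h6, wv_append, wv_cons, wv_nil, mul_one])
    rw [List.length_append, List.length_singleton] at this
    omega
  have h4 : 0 ≤ wv A L (ee i) := (((isRt_ee hA i).wv hA L).pos_or_neg hA).resolve_right h2
  exact neg_nonpos.2 h4

/-- a word with a descent is equal to a word ending with this letter, not longer -/
theorem exists_end (hA : SimplyLaced A) {L : List (Fin l)} {i : Fin l}
    (h : wv A L (ee i) ≤ 0) : ∃ M : List (Fin l), M.length < L.length ∧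
      wv A (M ++ [i]) = wv A L ∧ wv A M = wv A L * sv A i := by
  obtain ⟨M, hM, h2⟩ := delete hA i L h
  refine ⟨M, hM, ?_, h2.symm⟩
  rw [wv_append, wv_cons, wv_nil, mul_one, ← h2, wv_mul_sv_sv hA]

theorem sv_ee_ne (i j : Fin l) : sv A i (ee j) = ee j - A i j • ee i := by
  rw [sv_apply, mulVec_ee]

theorem wv_single (i : Fin l) : wv A [i] = sv A i := by
  rw [wv_cons, wv_nil, mul_one]

variable {G : Type*} [Group G]

/-- **Matsumoto's theorem** for reduced words -/
theorem mats_red (hA : SimplyLaced A) (t : Fin l → G)
    (h0 : ∀ i j, i ≠ j → A i j = 0 → t i * t j = t j * t i)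
    (h1 : ∀ i j, i ≠ j → A i j = -1 → t i * t j * t i = t j * t i * t j) :
    ∀ (n : ℕ) (L L' : List (Fin l)), L.length = n → L'.length = n → Red A L → Red A L' →
      wv A L = wv A L' → (L.map t).prod = (L'.map t).prod := by
  intro n
  induction n using Nat.strong_induction_on with
  | _ n ih =>
    intro L L' hL hL' hr hr' hw
    rcases List.eq_nil_or_concat L with hnil | ⟨L1, i, hLi⟩
    · subst hnil
      have : L' = [] := by
        rw [← List.length_eq_zero_iff, hL', ← hL]; rfl
      rw [this]
    rcases List.eq_nil_or_concat L' with hnil | ⟨L1', j, hLj⟩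
    · subst hnil
      have : L = [] := by
        rw [← List.length_eq_zero_iff, hL, ← hL']; rfl
      rw [this]
    rw [List.concat_eq_append] at hLi hLj
    subst hLi hLj
    have hl1 : L1.length + 1 = n := by simpa using hL
    have hl1' : L1'.length + 1 = n := by simpa using hL'
    have hd1 := hr.descent hA
    have hd2 := hr'.descent hA
    have e1 : wv A L1 = wv A (L1 ++ [i]) * sv A i := by
      rw [wv_append, wv_single, wv_mul_sv_sv hA]
    have e2 : wv A L1' = wv A (L1' ++ [j]) * sv A j := by
      rw [wv_append, wv_single, wv_mul_sv_sv hA]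
    by_cases hij : i = j
    · subst hij
      rw [List.map_append, List.prod_append, List.map_append, List.prod_append]
      congr 1
      exact ih L1.length (by omega) L1 L1' rfl (by omega) hr.of_append hr'.of_append
        (by rw [e1, e2, hw])
    · -- two different descents
      have hdj : wv A (L1 ++ [i]) (ee j) ≤ 0 := by rw [hw]; exact hd2
      rcases hA.off i j hij with hA0 | hA1
      · -- commuting
        have h3 : wv A L1 (ee j) ≤ 0 := by
          rw [e1, Module.End.mul_apply, sv_ee_ne, hA0, zero_smul, sub_zero]
          exact hdj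
        obtain ⟨M, hM1, hM2, hM3⟩ := exists_end hA h3
        -- `M ++ [j]` and `L1`, `M ++ [i]` and `L1'`
        have hw1 : wv A (M ++ [j] ++ [i]) = wv A (L1 ++ [i]) := by
          rw [wv_append, hM2, wv_append]
        have hsv : sv A i * sv A j = sv A j * sv A i := by
          apply ext_ee
          intro k
          rw [Module.End.mul_apply, Module.End.mul_apply, sv_ee_ne, sv_ee_ne, map_sub, map_sub,
            map_smul, map_smul, sv_ee_ne, sv_ee_ne, sv_ee_ne, sv_ee_ne, hA.symm j i, hA0]
          simp only [zero_smul, sub_zero]
          abel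
        have hw2 : wv A (M ++ [i] ++ [j]) = wv A (L1 ++ [i]) := by
          rw [← hw1]
          simp only [wv_append, wv_single]
          rw [mul_assoc, mul_assoc, hsv]
        have hlen : M.length + 2 = n := by
          have := hr (M ++ [j] ++ [i]) hw1
          simp only [List.length_append, List.length_singleton] at this
          omega
        have hrM1 : Red A (M ++ [j] ++ [i]) := by
          intro K hK
          have := hr K (by rw [hK, hw1])
          simp only [List.length_append, List.length_singleton] at this ⊢
          omega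
        have hrM2 : Red A (M ++ [i] ++ [j]) := by
          intro K hK
          have := hr K (by rw [hK, hw2])
          simp only [List.length_append, List.length_singleton] at this ⊢
          omega
        have q1 := ih L1.length (by omega) L1 (M ++ [j]) rfl (by simp; omega) hr.of_append
          hrM1.of_append hM2.symm
        have q2 := ih L1'.length (by omega) L1' (M ++ [i]) rfl (by simp; omega) hr'.of_append
          hrM2.of_append (by
            rw [e2, ← hw, ← hw2, wv_append (M ++ [i]), wv_single, wv_mul_sv_sv hA])
        rw [List.map_append, List.prod_append, q1, List.map_append (l₁ := L1'), List.prod_append, q2]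
        simp only [List.map_append, List.prod_append, List.map_cons, List.map_nil,
          List.prod_cons, List.prod_nil, mul_one]
        rw [mul_assoc, mul_assoc, h0 i j hij hA0]
      · -- braid
        have hsum : wv A (L1 ++ [i]) (ee j + ee i) ≤ 0 := by
          rw [map_add]
          exact add_nonpos hdj hd1
        have h3 : wv A L1 (ee j) ≤ 0 := by
          rw [e1, Module.End.mul_apply, sv_ee_ne, hA1, neg_one_smul, sub_neg_eq_add]
          exact hsum
        obtain ⟨M2, hM1, hM2, hM3⟩ := exists_end hA h3
        have h4 : wv A M2 (ee i) ≤ 0 := by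
          rw [hM3, e1, Module.End.mul_apply, Module.End.mul_apply, sv_ee_ne j i, hA.symm j i, hA1,
            neg_one_smul, sub_neg_eq_add, map_add, sv_ee hA, sv_ee_ne i j, hA1, neg_one_smul,
            sub_neg_eq_add]
          have : (-ee i + (ee j + ee i) : Fin l → ℤ) = ee j := by abel
          rw [this]
          exact hdj
        obtain ⟨M, hM4, hM5, hM6⟩ := exists_end hA h4
        have hw1 : wv A (M ++ [i] ++ [j] ++ [i]) = wv A (L1 ++ [i]) := by
          rw [wv_append, wv_append, hM5, ← wv_append, hM2, ← wv_append]
        have hsv : sv A i * sv A j * sv A i = sv A j * sv A i * sv A j := by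
          apply ext_ee
          intro k
          simp only [Module.End.mul_apply, sv_ee_ne, map_sub, map_smul, sv_ee hA, hA.symm j i, hA1,
            neg_one_smul, sub_neg_eq_add, map_add]
          simp only [smul_add, smul_neg]
          module
        have hw2 : wv A (M ++ [j] ++ [i] ++ [j]) = wv A (L1 ++ [i]) := by
          rw [← hw1]
          simp only [wv_append, wv_single]
          have := congrArg (fun x => wv A M * x) hsv
          simp only [← mul_assoc] at this
          exact this.symm
        have hlen : M.length + 3 = n := by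
          have := hr (M ++ [i] ++ [j] ++ [i]) hw1
          simp only [List.length_append, List.length_singleton] at this
          omega
        have hrM1 : Red A (M ++ [i] ++ [j] ++ [i]) := by
          intro K hK
          have := hr K (by rw [hK, hw1])
          simp only [List.length_append, List.length_singleton] at this ⊢
          omega
        have hrM2 : Red A (M ++ [j] ++ [i] ++ [j]) := by
          intro K hK
          have := hr K (by rw [hK, hw2])
          simp only [List.length_append, List.length_singleton] at this ⊢
          omega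
        have q1 := ih L1.length (by omega) L1 (M ++ [i] ++ [j]) rfl (by simp; omega) hr.of_append
          hrM1.of_append (by
            rw [e1, ← hw1, wv_append (M ++ [i] ++ [j]), wv_single, wv_mul_sv_sv hA])
        have q2 := ih L1'.length (by omega) L1' (M ++ [j] ++ [i]) rfl (by simp; omega)
          hr'.of_append hrM2.of_append (by
            rw [e2, ← hw, ← hw2, wv_append (M ++ [j] ++ [i]), wv_single, wv_mul_sv_sv hA])
        rw [List.map_append, List.prod_append, q1, List.map_append (l₁ := L1'), List.prod_append, q2]
        simp only [List.map_append, List.prod_append, List.map_cons, List.map_nil,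
          List.prod_cons, List.prod_nil, mul_one]
        have := congrArg (fun x => (M.map t).prod * x) (h1 i j hij hA1)
        simp only [← mul_assoc] at this
        exact this

/-- every word is equivalent to a reduced one -/
theorem mats_exists_red (hA : SimplyLaced A) (t : Fin l → G) (hinv : ∀ i, t i * t i = 1)
    (h0 : ∀ i j, i ≠ j → A i j = 0 → t i * t j = t j * t i)
    (h1 : ∀ i j, i ≠ j → A i j = -1 → t i * t j * t i = t j * t i * t j) :
    ∀ L : List (Fin l), ∃ L' : List (Fin l), Red A L' ∧ wv A L' = wv A L ∧
      (L'.map t).prod = (L.map t).prod := by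
  intro L
  induction L using List.reverseRecOn with
  | nil => exact ⟨[], fun M _ => Nat.zero_le _, rfl, rfl⟩
  | append_singleton L i ih =>
    obtain ⟨L', hr, hw, ht⟩ := ih
    have hwi : wv A (L' ++ [i]) = wv A (L ++ [i]) := by rw [wv_append, hw, wv_append]
    have hti : ((L' ++ [i]).map t).prod = ((L ++ [i]).map t).prod := by
      rw [List.map_append, List.prod_append, ht, List.map_append (l₁ := L), List.prod_append]
    by_cases hd : wv A L' (ee i) ≤ 0
    · obtain ⟨M, hM1, hM2, hM3⟩ := exists_end hA hd
      have hlen : M.length + 1 = L'.length := by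
        have := hr (M ++ [i]) hM2
        simp only [List.length_append, List.length_singleton] at this
        omega
      have hrM : Red A (M ++ [i]) := by
        intro K hK
        have := hr K (by rw [hK, hM2])
        simp only [List.length_append, List.length_singleton]
        omega
      refine ⟨M, hrM.of_append, ?_, ?_⟩
      · rw [hM3, ← hwi, wv_append, wv_single]
      · have q := mats_red hA t h0 h1 L'.length L' (M ++ [i]) rfl (by simp; omega) hr hrM hM2.symm
        rw [← hti, List.map_append, List.prod_append, q, List.map_append, List.prod_append]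
        simp only [List.map_cons, List.map_nil, List.prod_cons, List.prod_nil, mul_one]
        rw [mul_assoc, hinv, mul_one]
    · refine ⟨L' ++ [i], ?_, hwi, hti⟩
      intro M hM
      by_contra hlt
      rw [List.length_append, List.length_singleton] at hlt
      have h4 : 0 ≤ wv A L' (ee i) := (((isRt_ee hA i).wv hA L').pos_or_neg hA).resolve_right hd
      have h5 : wv A M (ee i) ≤ 0 := by
        rw [hM, wv_append, wv_single, Module.End.mul_apply, sv_ee hA, map_neg]
        exact neg_nonpos.2 h4
      obtain ⟨M', hM'1, _, hM'3⟩ := exists_end hA h5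
      have := hr M' (by rw [hM'3, hM, wv_append, wv_single, wv_mul_sv_sv hA])
      omega

/-- **Matsumoto's theorem** -/
theorem mats (hA : SimplyLaced A) (t : Fin l → G) (hinv : ∀ i, t i * t i = 1)
    (h0 : ∀ i j, i ≠ j → A i j = 0 → t i * t j = t j * t i)
    (h1 : ∀ i j, i ≠ j → A i j = -1 → t i * t j * t i = t j * t i * t j)
    (L L' : List (Fin l)) (h : wv A L = wv A L') : (L.map t).prod = (L'.map t).prod := by
  obtain ⟨M, hr, hw, ht⟩ := mats_exists_red hA t hinv h0 h1 L
  obtain ⟨M', hr', hw', ht'⟩ := mats_exists_red hA t hinv h0 h1 L'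
  have hww : wv A M = wv A M' := by rw [hw, hw', h]
  rw [← ht, ← ht']
  exact mats_red hA t h0 h1 M.length M M' rfl
    (le_antisymm (hr' M hww) (hr M' hww.symm)) hr hr' hww

/-! ### group part -/

theorem reflR_reflR (hA : SimplyLaced A) (i : Fin l) (f : MvPolynomial (Fin l × ℕ) ℂ) :
    reflR A i (reflR A i f) = f := by
  have h2 : (C (((2 : ℤ) : ℂ)) : MvPolynomial (Fin l × ℕ) ℂ) = 2 := by
    have : (((2 : ℤ) : ℂ)) = 2 := by norm_num
    rw [this]; exact map_ofNat C 2
  have h : (reflR A i).comp (reflR A i) = AlgHom.id ℂ _ := by
    apply algHom_ext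
    rintro ⟨j, n⟩
    rw [AlgHom.comp_apply, reflR_X, map_sub, map_mul, reflR_X, reflR_X, reflR_C, hA.diag, h2,
      AlgHom.id_apply]
    ring
  exact DFunLike.congr_fun h f

theorem reflR_comm (hA : SimplyLaced A) (i j : Fin l) (h0 : A i j = 0)
    (f : MvPolynomial (Fin l × ℕ) ℂ) :
    reflR A i (reflR A j f) = reflR A j (reflR A i f) := by
  have h : (reflR A i).comp (reflR A j) = (reflR A j).comp (reflR A i) := by
    apply algHom_ext
    rintro ⟨k, n⟩
    rw [AlgHom.comp_apply, AlgHom.comp_apply, reflR_X, reflR_X, map_sub, map_sub, map_mul,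
      map_mul, reflR_X, reflR_X, reflR_X, reflR_X, reflR_C, reflR_C, hA.symm j i, h0]
    simp only [Int.cast_zero, map_zero, zero_mul, sub_zero]
    ring
  exact DFunLike.congr_fun h f

theorem reflR_braid (hA : SimplyLaced A) (i j : Fin l) (h1 : A i j = -1)
    (f : MvPolynomial (Fin l × ℕ) ℂ) :
    reflR A i (reflR A j (reflR A i f)) = reflR A j (reflR A i (reflR A j f)) := by
  have h2 : (C (((2 : ℤ) : ℂ)) : MvPolynomial (Fin l × ℕ) ℂ) = 2 := by
    have : (((2 : ℤ) : ℂ)) = 2 := by norm_num
    rw [this]; exact map_ofNat C 2
  have h : (reflR A i).comp ((reflR A j).comp (reflR A i))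
      = (reflR A j).comp ((reflR A i).comp (reflR A j)) := by
    apply algHom_ext
    rintro ⟨k, n⟩
    simp only [AlgHom.comp_apply, reflR_X, map_sub, map_mul, reflR_C, hA.symm j i, h1, hA.diag, h2]
    simp only [Int.cast_neg, Int.cast_one, map_neg, map_one]
    ring
  exact DFunLike.congr_fun h f

/-- the affine reflection with fixed point `z` -/
noncomputable def affR (hA : SimplyLaced A) (i : Fin l) (z : MvPolynomial (Fin l × ℕ) ℂ) :
    Equiv.Perm (MvPolynomial (Fin l × ℕ) ℂ) where
  toFun x := reflR A i (x - z) + z
  invFun x := reflR A i (x - z) + z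
  left_inv x := by
    show reflR A i (reflR A i (x - z) + z - z) + z = x
    rw [add_sub_cancel_right, reflR_reflR hA, sub_add_cancel]
  right_inv x := by
    show reflR A i (reflR A i (x - z) + z - z) + z = x
    rw [add_sub_cancel_right, reflR_reflR hA, sub_add_cancel]

theorem affR_apply (hA : SimplyLaced A) (i : Fin l) (z x : MvPolynomial (Fin l × ℕ) ℂ) :
    affR hA i z x = reflR A i (x - z) + z := rfl

/-- change of the base point -/
theorem affR_eq (hA : SimplyLaced A) (i : Fin l) (z w x : MvPolynomial (Fin l × ℕ) ℂ)
    (h : reflR A i (w - z) = w - z) : affR hA i z x = reflR A i (x - w) + w := by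
  rw [affR_apply]
  have h1 : reflR A i (x - z) = reflR A i (x - w) + reflR A i (w - z) := by
    rw [← map_add]; congr 1; ring
  rw [h1, h]; ring

/-- **group part** -/
theorem group_part (hA : SimplyLaced A) (z : Fin l → MvPolynomial (Fin l × ℕ) ℂ)
    (w : Fin l → Fin l → MvPolynomial (Fin l × ℕ) ℂ)
    (hw : ∀ i j, i ≠ j → reflR A i (w i j - z i) = w i j - z i ∧
      reflR A j (w i j - z j) = w i j - z j) :
    ∃ u, ∀ i, reflR A i (z i - u) = z i - u := by
  classical
  set t : Fin l → Equiv.Perm (MvPolynomial (Fin l × ℕ) ℂ) := fun i => affR hA i (z i) with ht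
  have hinv : ∀ i, t i * t i = 1 := by
    intro i
    apply Equiv.ext
    intro x
    exact (affR hA i (z i)).left_inv x
  have h0 : ∀ i j, i ≠ j → A i j = 0 → t i * t j = t j * t i := by
    intro i j hij hA0
    obtain ⟨hi, hj⟩ := hw i j hij
    apply Equiv.ext
    intro x
    show affR hA i (z i) (affR hA j (z j) x) = affR hA j (z j) (affR hA i (z i) x)
    rw [affR_eq hA i (z i) (w i j) _ hi, affR_eq hA j (z j) (w i j) _ hj,
      affR_eq hA i (z i) (w i j) _ hi, affR_eq hA j (z j) (w i j) _ hj,
      add_sub_cancel_right, add_sub_cancel_right, reflR_comm hA i j hA0]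
  have h1 : ∀ i j, i ≠ j → A i j = -1 → t i * t j * t i = t j * t i * t j := by
    intro i j hij hA1
    obtain ⟨hi, hj⟩ := hw i j hij
    apply Equiv.ext
    intro x
    show affR hA i (z i) (affR hA j (z j) (affR hA i (z i) x))
      = affR hA j (z j) (affR hA i (z i) (affR hA j (z j) x))
    have e1 : ∀ x, affR hA i (z i) x = reflR A i (x - w i j) + w i j := fun x =>
      affR_eq hA i (z i) (w i j) x hi
    have e2 : ∀ x, affR hA j (z j) x = reflR A j (x - w i j) + w i j := fun x =>
      affR_eq hA j (z j) (w i j) x hj
    simp only [e1, e2, add_sub_cancel_right]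
    rw [reflR_braid hA i j hA1]
  -- the operators attached to the elements of the Weyl group
  have hfin : Finite (WG hA) := finite_WG hA
  have hft : Fintype (WG hA) := Fintype.ofFinite _
  have hex : ∀ g : WG hA, ∃ L, g.1 = wp hA L := fun g => (mem_WG hA g.1).1 g.2
  choose wd hwd using hex
  let T : List (Fin l) → Equiv.Perm (MvPolynomial (Fin l × ℕ) ℂ) := fun L => (L.map t).prod
  have hTeq : ∀ L L', wp hA L = wp hA L' → T L = T L' := by
    intro L L' h
    apply mats hA t hinv h0 h1
    apply ext_ee
    intro i
    apply lin_injective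
    rw [← wp_X hA, ← wp_X hA, h]
  set n : ℂ := (Fintype.card (WG hA) : ℂ) with hn
  have hn0 : n ≠ 0 := by
    rw [hn]
    exact_mod_cast Fintype.card_ne_zero
  set u : MvPolynomial (Fin l × ℕ) ℂ := n⁻¹ • ∑ g : WG hA, T (wd g) 0 with hu
  refine ⟨u, fun i => ?_⟩
  -- `t i u = u`
  have hlin : t i u = n⁻¹ • ∑ g : WG hA, t i (T (wd g) 0) := by
    have h3 : ∀ x, t i x = reflR A i x + (z i - reflR A i (z i)) := by
      intro x
      show reflR A i (x - z i) + z i = _
      rw [map_sub]; ring
    simp only [h3]
    rw [sum_add_distrib, sum_const, card_univ, ← map_sum, smul_add, hu, map_smul]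
    congr 1
    rw [← Nat.cast_smul_eq_nsmul ℂ, smul_smul, ← hn, inv_mul_cancel₀ hn0, one_smul]
  have hperm : ∑ g : WG hA, t i (T (wd g) 0) = ∑ g : WG hA, T (wd g) 0 := by
    have hbij : Function.Bijective (fun g : WG hA => (⟨reflE hA i, reflE_mem hA i⟩ : WG hA) * g) :=
      Group.mulLeft_bijective _
    rw [← hbij.sum_comp (fun g : WG hA => T (wd g) 0)]
    apply sum_congr rfl
    intro g _
    have h4 : T (i :: wd g) = T (wd (⟨reflE hA i, reflE_mem hA i⟩ * g)) := by
      apply hTeq
      rw [wp_cons, ← hwd g, ← hwd]
      rfl
    rw [← h4]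
    show t i (T (wd g) 0) = ((i :: wd g).map t).prod 0
    rw [List.map_cons, List.prod_cons]
    rfl
  have hfix : t i u = u := by rw [hlin, hperm]
  have h5 : reflR A i (u - z i) + z i = u := hfix
  have h6 : reflR A i (z i - u) = - reflR A i (u - z i) := by
    rw [← map_neg]; congr 1; ring
  rw [h6]
  linear_combination -h5

end Mats

end Pool.Agent.LS
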