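import Pool.Agent.LS.W

/-!
# The Nullstellensatz part: powers of an invariant without constant term are covered by the
products of the roots outside a maximal parabolic subsystem
-/

namespace Pool.Agent.LS

open MvPolynomial Finset Matrix

section Null

variable {l : ℕ} {A : Matrix (Fin l) (Fin l) ℤ}

/-- product of the positive roots involving the simple root `j` -/
noncomputable def phiJ (hA : SimplyLaced A) (j : Fin l) : MvPolynomial (Fin l) ℂ :=
  ∏ b ∈ (posRts hA).filter (fun b => b j ≠ 0), lin b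

/-- every functional is conjugate to a dominant one -/
theorem exists_dominant' (hA : SimplyLaced A) {F : Type*} [AddCommGroup F] [LinearOrder F]
    [IsOrderedAddMonoid F] (φ : (Fin l → ℤ) →+ F) :
    ∃ L : List (Fin l), ∀ i, 0 ≤ φ (wv A L (ee i)) := by
  classical
  let N : List (Fin l) → ℕ := fun L => ((posRts hA).filter (fun b => φ (wv A L b) < 0)).card
  obtain ⟨L, hL⟩ : ∃ L, ∀ M, N L ≤ N M := by
    have hex : ∃ n, ∃ L, N L = n := ⟨_, [], rfl⟩
    obtain ⟨L, hL⟩ := Nat.find_spec hex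
    exact ⟨L, fun M => by rw [hL]; exact Nat.find_min' hex ⟨M, rfl⟩⟩
  refine ⟨L, fun i => ?_⟩
  by_contra hcon
  have hneg : φ (wv A L (ee i)) < 0 := not_le.1 hcon
  have hlt : N (L ++ [i]) < N L := by
    have hmem : ee i ∈ (posRts hA).filter (fun b => φ (wv A L b) < 0) := by
      rw [mem_filter, mem_posRts]
      refine ⟨⟨isRt_ee hA i, ?_⟩, hneg⟩
      intro k
      by_cases hk : k = i
      · subst hk; simp [ee]
      · simp [ee, hk]
    have hwv : ∀ b, wv A (L ++ [i]) b = wv A L (sv A i b) := by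
      intro b
      rw [wv_append, wv_cons, wv_nil, mul_one, Module.End.mul_apply]
    have hle : N (L ++ [i]) ≤
        (((posRts hA).filter (fun b => φ (wv A L b) < 0)).erase (ee i)).card := by
      apply card_le_card_of_injOn (fun b => sv A i b)
      · intro b hb
        rw [mem_coe, mem_filter, mem_posRts, hwv] at hb
        obtain ⟨⟨hb1, hb2⟩, hb3⟩ := hb
        have hbne : b ≠ ee i := by
          rintro rfl
          rw [sv_ee hA, map_neg, map_neg] at hb3
          exact absurd (neg_pos.2 hneg) (not_lt.2 hb3.le)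
        rw [mem_coe, mem_erase, mem_filter, mem_posRts]
        refine ⟨?_, ⟨hb1.sv hA i, hb1.sv_nonneg hA hb2 i hbne⟩, hb3⟩
        intro h1
        have h1' : sv A i b = ee i := h1
        have h2 := sv_sv hA i b
        rw [h1', sv_ee hA] at h2
        have h3 := hb2 i
        rw [← h2] at h3
        simp [ee] at h3
      · intro b _ c _ hbc
        have h1 : sv A i b = sv A i c := hbc
        rw [← sv_sv hA i b, h1, sv_sv hA]
    exact lt_of_le_of_lt hle (card_erase_lt_of_mem hmem)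
  exact absurd (hL (L ++ [i])) (not_le.2 hlt)

theorem addHom_expand {F : Type*} [AddCommGroup F] (φ : (Fin l → ℤ) →+ F)
    (w : Module.End ℤ (Fin l → ℤ)) (b : Fin l → ℤ) :
    φ (w b) = ∑ k, b k • φ (w (ee k)) := by
  have h4 : b = ∑ k, b k • ee k := by
    funext m
    simp [ee, Finset.sum_apply, Pi.single_apply]
  conv_lhs => rw [h4]
  rw [map_sum, map_sum]
  apply sum_congr rfl
  intro k _
  rw [map_zsmul, map_zsmul]

theorem functional_zero {F : Type*} [AddCommGroup F] (hA : SimplyLaced A)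
    (φ : (Fin l → ℤ) →+ F) (L : List (Fin l)) (h : ∀ i, φ (wv A L (ee i)) = 0) (i : Fin l) :
    φ (ee i) = 0 := by
  have h1 : ee i = wv A L (wv A L.reverse (ee i)) := by
    rw [← Module.End.mul_apply, wv_mul_reverse hA]
    rfl
  rw [h1, addHom_expand φ (wv A L)]
  apply sum_eq_zero
  intro k _
  rw [h k, smul_zero]

/-- for a non-zero real functional there are a word and a simple root such that all positive roots
involving this simple root are mapped to positive values -/
theorem exists_pos_word (hA : SimplyLaced A) (ψ : (Fin l → ℤ) →+ ℝ) (i₀ : Fin l)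
    (h : ψ (ee i₀) ≠ 0) :
    ∃ (L : List (Fin l)) (j : Fin l), ∀ b : Fin l → ℤ, 0 ≤ b → b j ≠ 0 → 0 < ψ (wv A L b) := by
  obtain ⟨L, hL⟩ := exists_dominant' hA ψ
  obtain ⟨j, hj⟩ : ∃ j, ψ (wv A L (ee j)) ≠ 0 := by
    by_contra hcon
    push Not at hcon
    exact h (functional_zero hA ψ L hcon i₀)
  refine ⟨L, j, fun b hb hbj => ?_⟩
  have hj0 : 0 < ψ (wv A L (ee j)) := lt_of_le_of_ne (hL j) (Ne.symm hj)
  rw [addHom_expand ψ (wv A L)]
  have hbj1 : 0 < b j := lt_of_le_of_ne (hb j) (Ne.symm hbj)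
  apply sum_pos'
  · intro k _
    exact zsmul_nonneg (hL k) (hb k)
  · exact ⟨j, mem_univ j, zsmul_pos hj0 hbj1⟩

/-- evaluation of the linear forms at a point -/
noncomputable def evF (x : Fin l → ℂ) : (Fin l → ℤ) →+ ℂ where
  toFun v := aeval x (lin v)
  map_zero' := by
    have : lin (0 : Fin l → ℤ) = 0 := by simp [lin]
    rw [this, map_zero]
  map_add' v w := by rw [lin_add, map_add]

theorem evF_apply (x : Fin l → ℂ) (v : Fin l → ℤ) : evF x v = aeval x (lin v) := rfl

theorem evF_ee (x : Fin l → ℂ) (i : Fin l) : evF x (ee i) = x i := by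
  rw [evF_apply, lin_ee, aeval_X]

/-- at a non-zero point one of the conjugates of the `phiJ` does not vanish -/
theorem exists_phi_ne_zero (hA : SimplyLaced A) (x : Fin l → ℂ) (i₀ : Fin l) (hx : x i₀ ≠ 0) :
    ∃ (L : List (Fin l)) (j : Fin l), aeval x (wp hA L (phiJ hA j)) ≠ 0 := by
  have hmain : ∃ (L : List (Fin l)) (j : Fin l), ∀ b : Fin l → ℤ, 0 ≤ b → b j ≠ 0 →
      evF x (wv A L b) ≠ 0 := by
    by_cases hre : (evF x (ee i₀)).re = 0
    · have him : (evF x (ee i₀)).im ≠ 0 := by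
        intro h0
        apply hx
        rw [← evF_ee x i₀]
        exact Complex.ext hre h0
      obtain ⟨L, j, h⟩ := exists_pos_word hA (Complex.imAddGroupHom.comp (evF x)) i₀ him
      refine ⟨L, j, fun b hb hbj h0 => ?_⟩
      have h1 := h b hb hbj
      have h2 : (Complex.imAddGroupHom.comp (evF x)) (wv A L b) = (evF x (wv A L b)).im := rfl
      rw [h2, h0] at h1
      exact lt_irrefl _ h1
    · obtain ⟨L, j, h⟩ := exists_pos_word hA (Complex.reAddGroupHom.comp (evF x)) i₀ hre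
      refine ⟨L, j, fun b hb hbj h0 => ?_⟩
      have h1 := h b hb hbj
      have h2 : (Complex.reAddGroupHom.comp (evF x)) (wv A L b) = (evF x (wv A L b)).re := rfl
      rw [h2, h0] at h1
      exact lt_irrefl _ h1
  obtain ⟨L, j, h⟩ := hmain
  refine ⟨L, j, ?_⟩
  rw [phiJ, map_prod, map_prod]
  apply prod_ne_zero_iff.2
  intro b hb
  rw [mem_filter, mem_posRts] at hb
  rw [wp_lin, ← evF_apply]
  exact h b hb.1.2 hb.2

theorem mem_radical_cover (hA : SimplyLaced A) (k : ℕ) (P : MvPolynomial (Fin l) ℂ)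
    (h0 : constantCoeff P = 0) :
    P ∈ (Ideal.span (Set.range (fun jw : Fin l × WG hA => jw.2.1 (phiJ hA jw.1 ^ k)))).radical := by
  rw [← vanishingIdeal_zeroLocus_eq_radical (K := ℂ), mem_vanishingIdeal_iff]
  intro x hx
  rw [zeroLocus_span] at hx
  have hx0 : x = 0 := by
    funext i
    by_contra hi
    obtain ⟨L, j, hLj⟩ := exists_phi_ne_zero hA x i hi
    apply hLj
    have h1 := hx _ ⟨(j, ⟨wp hA L, wp_mem hA L⟩), rfl⟩
    have h2 : aeval x (wp hA L (phiJ hA j ^ k)) = 0 := h1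
    rw [map_pow, map_pow] at h2
    exact eq_zero_of_pow_eq_zero h2
  rw [hx0]
  have h3 : (aeval (0 : Fin l → ℂ) : MvPolynomial (Fin l) ℂ →ₐ[ℂ] ℂ) P = constantCoeff P := by
    rw [aeval_zero]
    simp
  rw [h3, h0]

/-- **the cover** -/
theorem exists_cover (hA : SimplyLaced A) [Fintype (WG hA)] (k : ℕ) (P : MvPolynomial (Fin l) ℂ)
    (h0 : constantCoeff P = 0) (hP : ∀ i, refl A i P = P) :
    ∃ (K : ℕ) (h : Fin l → MvPolynomial (Fin l) ℂ),
      P ^ K = ∑ j, ∑ w : WG hA, w.1 (h j * phiJ hA j ^ k) := by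
  classical
  obtain ⟨K, hK⟩ := mem_radical_cover hA k P h0
  rw [Ideal.mem_span_range_iff_exists_fun] at hK
  obtain ⟨c, hc⟩ := hK
  set N : ℂ := (Fintype.card (WG hA) : ℂ) with hN
  have hN0 : N ≠ 0 := by
    rw [hN]
    exact_mod_cast Fintype.card_ne_zero
  have hinv : ∀ g : WG hA, g.1 (P ^ K) = P ^ K := by
    intro g
    rw [map_pow, (inv_iff hA P).1 hP g.1 g.2]
  refine ⟨K, fun j => C N⁻¹ * ∑ w : WG hA, (w⁻¹).1 (c (j, w)), ?_⟩
  have hC : ∀ (g : WG hA) (a : ℂ), g.1 (C a) = C a := by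
    intro g a
    rw [← algebraMap_eq, AlgEquiv.commutes]
  have e1 : ∀ j, ∑ w : WG hA, w.1 ((C N⁻¹ * ∑ v : WG hA, (v⁻¹).1 (c (j, v))) * phiJ hA j ^ k)
      = C N⁻¹ * ∑ v : WG hA, ∑ g : WG hA, g.1 (c (j, v) * v.1 (phiJ hA j ^ k)) := by
    intro j
    have e2 : ∀ w : WG hA, w.1 ((C N⁻¹ * ∑ v : WG hA, (v⁻¹).1 (c (j, v))) * phiJ hA j ^ k)
        = C N⁻¹ * ∑ v : WG hA, (w * v⁻¹).1 (c (j, v)) * w.1 (phiJ hA j ^ k) := by
      intro w
      rw [map_mul, map_mul, hC, map_sum, mul_assoc, sum_mul]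
      rfl
    simp_rw [e2]
    rw [← mul_sum, sum_comm]
    congr 1
    apply sum_congr rfl
    intro v _
    rw [← Fintype.sum_equiv (Equiv.mulRight v)
      (fun g : WG hA => (g * v * v⁻¹).1 (c (j, v)) * (g * v).1 (phiJ hA j ^ k))
      (fun w : WG hA => (w * v⁻¹).1 (c (j, v)) * w.1 (phiJ hA j ^ k)) (fun g => rfl)]
    apply sum_congr rfl
    intro g _
    rw [mul_inv_cancel_right, map_mul]
    rfl
  simp_rw [e1]
  have e3 : ∑ j, ∑ v : WG hA, ∑ g : WG hA, g.1 (c (j, v) * v.1 (phiJ hA j ^ k))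
      = ∑ g : WG hA, P ^ K := by
    have e4 : ∀ g : WG hA, P ^ K = ∑ j, ∑ v : WG hA, g.1 (c (j, v) * v.1 (phiJ hA j ^ k)) := by
      intro g
      rw [← hinv g, ← hc, Fintype.sum_prod_type, map_sum]
      apply sum_congr rfl
      intro j _
      rw [map_sum]
    symm
    rw [sum_congr rfl (fun g _ => e4 g), sum_comm]
    apply sum_congr rfl
    intro j _
    rw [sum_comm]
  rw [← mul_sum, e3, Finset.sum_const, card_univ, nsmul_eq_mul, ← mul_assoc]
  have hCN2 : (C N : MvPolynomial (Fin l) ℂ) = ((Fintype.card (WG hA) : ℕ) : _) := by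
    rw [hN, map_natCast]
  rw [← hCN2, ← map_mul, inv_mul_cancel₀ hN0, map_one, one_mul]

end Null

end Pool.Agent.LS
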