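import Pool.Agent.LS.Frame
import Pool.Agent.LS.Generic
import Pool.Agent.LS.Top

/-!
# Parabolic decomposition
-/

namespace Pool.Agent.LS

open MvPolynomial Finset Matrix

set_option linter.unusedSectionVars false

section Parab

variable {m l : ℕ}

/-- sum over the range of an embedding -/
theorem sum_ext_emb (e : Fin m ↪ Fin l) {M : Type*} [Ring M] (v : Fin m → M) (f : Fin l → M) :
    ∑ j, (∑ i, if e i = j then v i else 0) * f j = ∑ i, v i * f (e i) := by
  simp_rw [sum_mul]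
  rw [sum_comm]
  apply sum_congr rfl
  intro i _
  rw [sum_eq_single (e i)]
  · rw [if_pos rfl]
  · intro j _ hj
    rw [if_neg (Ne.symm hj), zero_mul]
  · intro h; exact absurd (mem_univ _) h

theorem SimplyLaced.submatrix {A : Matrix (Fin l) (Fin l) ℤ} (hA : SimplyLaced A)
    (e : Fin m ↪ Fin l) : SimplyLaced (A.submatrix e e) where
  symm i j := hA.symm _ _
  diag i := hA.diag _
  off i j hij := hA.off _ _ (fun h => hij (e.injective h))
  pos v hv := by
    have hne : (fun j => ∑ i, if e i = j then v i else 0) ≠ 0 := by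
      intro h
      apply hv
      funext i
      have h1 := congrFun h (e i)
      simp only [Pi.zero_apply] at h1
      rw [sum_eq_single i] at h1
      · rw [if_pos rfl] at h1; exact h1
      · intro b _ hb
        rw [if_neg (fun h2 => hb (e.injective h2))]
      · intro h2; exact absurd (mem_univ _) h2
    have h2 := hA.pos _ hne
    have h3 : ∑ j, ∑ j', (∑ i, if e i = j then v i else 0) * A j j'
        * (∑ i, if e i = j' then v i else 0)
        = ∑ i, ∑ i', v i * (A.submatrix e e) i i' * v i' := by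
      have h4 : ∀ j, ∑ j', (∑ i, if e i = j then v i else 0) * A j j'
          * (∑ i, if e i = j' then v i else 0)
          = (∑ i, if e i = j then v i else 0) * ∑ i', v i' * A j (e i') := by
        intro j
        rw [← sum_ext_emb e v (fun j' => A j j'), mul_sum]
        apply sum_congr rfl
        intro j' _
        ring
      rw [sum_congr rfl (fun j _ => h4 j),
        sum_ext_emb e v (fun j => ∑ i', v i' * A j (e i'))]
      apply sum_congr rfl
      intro i _
      rw [mul_sum]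
      apply sum_congr rfl
      intro i' _
      rw [Matrix.submatrix_apply]
      ring
    rw [h3] at h2
    exact h2

/-- the complex Cartan matrix of the subsystem -/
noncomputable def AJC (A : Matrix (Fin l) (Fin l) ℤ) (e : Fin m ↪ Fin l) :
    Matrix (Fin m) (Fin m) ℂ := (A.submatrix e e).map (Int.cast : ℤ → ℂ)

theorem AJC_det (A : Matrix (Fin l) (Fin l) ℤ) (hA : SimplyLaced A) (e : Fin m ↪ Fin l) :
    IsUnit (AJC A e).det := by
  rw [isUnit_iff_ne_zero, AJC]
  have h1 : ((A.submatrix e e).map (Int.cast : ℤ → ℂ)).det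
      = (((A.submatrix e e).det : ℤ) : ℂ) := by
    have := (RingHom.map_det (Int.castRingHom ℂ) (A.submatrix e e)).symm
    exact this
  rw [h1]
  exact_mod_cast det_ne_zero (hA.submatrix e)

/-- projection coefficients of `α_b` to the span of the `α_{e i}` -/
noncomputable def pcf (A : Matrix (Fin l) (Fin l) ℤ) (e : Fin m ↪ Fin l) (b : Fin l) :
    Fin m → ℂ := (AJC A e)⁻¹ *ᵥ (fun j => (A (e j) b : ℂ))

theorem pcf_spec (A : Matrix (Fin l) (Fin l) ℤ) (hA : SimplyLaced A) (e : Fin m ↪ Fin l)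
    (b : Fin l) (j : Fin m) : ∑ i, (A (e j) (e i) : ℂ) * pcf A e b i = (A (e j) b : ℂ) := by
  have h1 : AJC A e *ᵥ pcf A e b = fun j => (A (e j) b : ℂ) := by
    rw [pcf, Matrix.mulVec_mulVec, Matrix.mul_nonsing_inv _ (AJC_det A hA e), Matrix.one_mulVec]
  have h2 := congrFun h1 j
  rw [← h2]
  rfl

theorem pcf_self (A : Matrix (Fin l) (Fin l) ℤ) (hA : SimplyLaced A) (e : Fin m ↪ Fin l)
    (i : Fin m) : pcf A e (e i) = Pi.single i 1 := by
  have h1 : (fun j => (A (e j) (e i) : ℂ)) = AJC A e *ᵥ (Pi.single i 1) := by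
    rw [Matrix.mulVec_single_one]
    rfl
  rw [pcf, h1, Matrix.mulVec_mulVec, Matrix.nonsing_inv_mul _ (AJC_det A hA e),
    Matrix.one_mulVec]

/-- inclusion of the polynomial ring of the subsystem -/
noncomputable def incP (e : Fin m ↪ Fin l) :
    MvPolynomial (Fin m × ℕ) ℂ →ₐ[ℂ] MvPolynomial (Fin l × ℕ) ℂ :=
  rename (fun a => (e a.1, a.2))

theorem incP_X (e : Fin m ↪ Fin l) (a : Fin m × ℕ) : incP e (X a) = X (e a.1, a.2) := by
  rw [incP, rename_X]

theorem incP_C (e : Fin m ↪ Fin l) (c : ℂ) : incP e (C c) = C c := by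
  rw [incP, rename_C]

/-- the orthogonal variables -/
noncomputable def yv (A : Matrix (Fin l) (Fin l) ℤ) (e : Fin m ↪ Fin l) (a : Fin l × ℕ) :
    MvPolynomial (Fin l × ℕ) ℂ := X a - ∑ i, C (pcf A e a.1 i) * X (e i, a.2)

/-- decomposition along the subsystem -/
noncomputable def PsiP (A : Matrix (Fin l) (Fin l) ℤ) (e : Fin m ↪ Fin l) :
    MvPolynomial (Fin l × ℕ) ℂ →ₐ[ℂ] MvPolynomial (Fin l × ℕ) (MvPolynomial (Fin m × ℕ) ℂ) :=
  aeval (fun a => (if ∃ i, e i = a.1 then 0 else X a)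
    + C (∑ i, C (pcf A e a.1 i) * X (i, a.2)))

theorem PsiP_X (A : Matrix (Fin l) (Fin l) ℤ) (e : Fin m ↪ Fin l) (a : Fin l × ℕ) :
    PsiP A e (X a) = (if ∃ i, e i = a.1 then 0 else X a)
      + C (∑ i, C (pcf A e a.1 i) * X (i, a.2)) := by
  rw [PsiP, aeval_X]

theorem PsiP_C (A : Matrix (Fin l) (Fin l) ℤ) (e : Fin m ↪ Fin l) (c : ℂ) :
    PsiP A e (C c) = C (C c) := by
  rw [← algebraMap_eq, AlgHom.commutes]; rfl

/-- inverse of `PsiP` -/
noncomputable def PhiP (A : Matrix (Fin l) (Fin l) ℤ) (e : Fin m ↪ Fin l) :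
    MvPolynomial (Fin l × ℕ) (MvPolynomial (Fin m × ℕ) ℂ) →+* MvPolynomial (Fin l × ℕ) ℂ :=
  eval₂Hom (incP e).toRingHom (yv A e)

theorem PhiP_C (A : Matrix (Fin l) (Fin l) ℤ) (e : Fin m ↪ Fin l)
    (c : MvPolynomial (Fin m × ℕ) ℂ) : PhiP A e (C c) = incP e c := by
  rw [PhiP, coe_eval₂Hom, eval₂_C]; rfl

theorem PhiP_X (A : Matrix (Fin l) (Fin l) ℤ) (e : Fin m ↪ Fin l) (a : Fin l × ℕ) :
    PhiP A e (X a) = yv A e a := by
  rw [PhiP, coe_eval₂Hom, eval₂_X]

theorem PhiP_PsiP (A : Matrix (Fin l) (Fin l) ℤ) (hA : SimplyLaced A) (e : Fin m ↪ Fin l)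
    (f : MvPolynomial (Fin l × ℕ) ℂ) : PhiP A e (PsiP A e f) = f := by
  induction f using MvPolynomial.induction_on with
  | C a => rw [PsiP_C, PhiP_C, incP_C]
  | add p q hp hq => rw [map_add, map_add, hp, hq]
  | mul_X p a ih =>
    have h : PhiP A e (PsiP A e (X a)) = X a := by
      rw [PsiP_X, map_add, PhiP_C, map_sum]
      simp_rw [map_mul, incP_C, incP_X]
      by_cases ha : ∃ i, e i = a.1
      · rw [if_pos ha, map_zero, zero_add]
        obtain ⟨i, hi⟩ := ha
        rw [← hi, pcf_self A hA, sum_eq_single i]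
        · rw [Pi.single_eq_same, C_1, one_mul, hi]
        · intro b _ hb
          rw [Pi.single_eq_of_ne hb, C_0, zero_mul]
        · intro h2; exact absurd (mem_univ _) h2
      · rw [if_neg ha, PhiP_X, yv]
        ring
    rw [map_mul, map_mul, ih, h]

/-- `PhiP` on a general polynomial -/
theorem PhiP_eq_sum (A : Matrix (Fin l) (Fin l) ℤ) (e : Fin m ↪ Fin l)
    (F : MvPolynomial (Fin l × ℕ) (MvPolynomial (Fin m × ℕ) ℂ)) :
    PhiP A e F = ∑ s ∈ F.support, incP e (coeff s F) * s.prod (fun a n => yv A e a ^ n) := by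
  rw [PhiP, coe_eval₂Hom, eval₂_eq]
  rfl


/-! ### the algebras `Gsub` -/

theorem incP_mem_Gsub (A : Matrix (Fin l) (Fin l) ℤ) (e : Fin m ↪ Fin l) (j : Fin m)
    {f : MvPolynomial (Fin m × ℕ) ℂ} (hf : f ∈ Gsub (A.submatrix e e) j) :
    incP e f ∈ Gsub A (e j) := by
  unfold Gsub at hf
  induction hf using Algebra.adjoin_induction with
  | mem x hx =>
    apply Algebra.subset_adjoin
    rcases hx with (hx | ⟨n, rfl⟩) | ⟨⟨i, n⟩, rfl⟩
    · rw [Set.mem_singleton_iff] at hx
      left; left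
      rw [hx, map_pow, incP_X]; rfl
    · left; right
      exact ⟨n, by simp only [map_mul, incP_X]⟩
    · right
      refine ⟨(e i, n), ?_⟩
      simp only [map_sub, map_mul, incP_X, incP_C, Matrix.submatrix_apply]
  | algebraMap r =>
    rw [AlgHom.commutes]
    exact Subalgebra.algebraMap_mem _ _
  | add x y _ _ hx hy => rw [map_add]; exact Subalgebra.add_mem _ hx hy
  | mul x y _ _ hx hy => rw [map_mul]; exact Subalgebra.mul_mem _ hx hy

theorem orth_mem_Gsub (A : Matrix (Fin l) (Fin l) ℤ) (i j : Fin l) (n : ℕ) :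
    X (j, n) - C ((A i j : ℂ) / 2) * X (i, n) ∈ Gsub A i :=
  Algebra.subset_adjoin (Or.inr ⟨(j, n), rfl⟩)

theorem yv_mem_Gsub (A : Matrix (Fin l) (Fin l) ℤ) (hA : SimplyLaced A) (e : Fin m ↪ Fin l)
    (j : Fin m) (a : Fin l × ℕ) : yv A e a ∈ Gsub A (e j) := by
  have h1 : yv A e a = (X a - C ((A (e j) a.1 : ℂ) / 2) * X (e j, a.2))
      - ∑ i, C (pcf A e a.1 i) * (X (e i, a.2) - C ((A (e j) (e i) : ℂ) / 2) * X (e j, a.2)) := by
    rw [yv]
    simp_rw [mul_sub]
    rw [sum_sub_distrib]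
    have h2 : ∑ i, C (pcf A e a.1 i) * (C ((A (e j) (e i) : ℂ) / 2) * X (e j, a.2))
        = (C ((A (e j) a.1 : ℂ) / 2) * X (e j, a.2) : MvPolynomial (Fin l × ℕ) ℂ) := by
      simp_rw [← mul_assoc, ← C_mul]
      rw [← sum_mul, ← map_sum]
      congr 2
      rw [← pcf_spec A hA e a.1 j, sum_div]
      apply sum_congr rfl
      intro i _
      ring
    rw [h2]
    ring
  rw [h1]
  apply Subalgebra.sub_mem
  · exact orth_mem_Gsub A (e j) a.1 a.2
  · apply Subalgebra.sum_mem
    intro i _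
    apply Subalgebra.mul_mem
    · exact Subalgebra.algebraMap_mem _ _
    · exact orth_mem_Gsub A (e j) (e i) a.2

theorem PhiP_Gsub (A : Matrix (Fin l) (Fin l) ℤ) (hA : SimplyLaced A) (e : Fin m ↪ Fin l)
    (j : Fin m) (F : MvPolynomial (Fin l × ℕ) (MvPolynomial (Fin m × ℕ) ℂ))
    (hF : ∀ s, coeff s F ∈ Gsub (A.submatrix e e) j) : PhiP A e F ∈ Gsub A (e j) := by
  rw [PhiP_eq_sum]
  apply Subalgebra.sum_mem
  intro s _
  apply Subalgebra.mul_mem _ (incP_mem_Gsub A e j (hF s))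
  apply Subalgebra.prod_mem
  intro a _
  exact Subalgebra.pow_mem _ (yv_mem_Gsub A hA e j a) _

theorem PsiP_orth (A : Matrix (Fin l) (Fin l) ℤ) (hA : SimplyLaced A) (e : Fin m ↪ Fin l)
    (j : Fin m) (a : Fin l × ℕ) :
    PsiP A e (X a - C ((A (e j) a.1 : ℂ) / 2) * X (e j, a.2))
      ∈ (coefIn (Gsub (A.submatrix e e) j) :
        Subalgebra ℂ (MvPolynomial (Fin l × ℕ) (MvPolynomial (Fin m × ℕ) ℂ))) := by
  rw [map_sub, map_mul, PsiP_C, PsiP_X, PsiP_X]
  have h0 : ∃ i, e i = ((e j, a.2) : Fin l × ℕ).1 := ⟨j, rfl⟩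
  rw [if_pos h0, zero_add, pcf_self A hA]
  have h1 : ∑ i, C ((Pi.single j 1 : Fin m → ℂ) i) * X (i, a.2)
      = (X (j, a.2) : MvPolynomial (Fin m × ℕ) ℂ) := by
    rw [sum_eq_single j]
    · rw [Pi.single_eq_same, C_1, one_mul]
    · intro b _ hb
      rw [Pi.single_eq_of_ne hb, C_0, zero_mul]
    · intro h2; exact absurd (mem_univ _) h2
  rw [h1, add_sub_assoc, ← C_mul, ← C_sub]
  apply Subalgebra.add_mem
  · split_ifs
    · exact Subalgebra.zero_mem _
    · exact X_mem_coefIn _ _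
  · apply C_mem_coefIn
    have h2 : ∑ i, C (pcf A e a.1 i) * X (i, a.2) - C ((A (e j) a.1 : ℂ) / 2) * X (j, a.2)
        = ∑ i, C (pcf A e a.1 i) * (X (i, a.2)
          - C (((A.submatrix e e) j i : ℂ) / 2) * X (j, a.2) : MvPolynomial (Fin m × ℕ) ℂ) := by
      simp_rw [mul_sub]
      rw [sum_sub_distrib]
      congr 1
      simp_rw [← mul_assoc, ← C_mul]
      rw [← sum_mul, ← map_sum]
      congr 2
      rw [← pcf_spec A hA e a.1 j, sum_div]
      apply sum_congr rfl
      intro i _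
      rw [Matrix.submatrix_apply]
      ring
    rw [h2]
    apply Subalgebra.sum_mem
    intro i _
    apply Subalgebra.mul_mem
    · exact Subalgebra.algebraMap_mem _ _
    · exact orth_mem_Gsub (A.submatrix e e) j i a.2

theorem PsiP_self (A : Matrix (Fin l) (Fin l) ℤ) (hA : SimplyLaced A) (e : Fin m ↪ Fin l)
    (j : Fin m) (n : ℕ) : PsiP A e (X (e j, n)) = C (X (j, n)) := by
  rw [PsiP_X]
  have h0 : ∃ i, e i = ((e j, n) : Fin l × ℕ).1 := ⟨j, rfl⟩
  rw [if_pos h0, zero_add, pcf_self A hA, sum_eq_single j]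
  · rw [Pi.single_eq_same, C_1, one_mul]
  · intro b _ hb
    rw [Pi.single_eq_of_ne hb, C_0, zero_mul]
  · intro h2; exact absurd (mem_univ _) h2

theorem PsiP_Gsub (A : Matrix (Fin l) (Fin l) ℤ) (hA : SimplyLaced A) (e : Fin m ↪ Fin l)
    (j : Fin m) {f : MvPolynomial (Fin l × ℕ) ℂ} (hf : f ∈ Gsub A (e j))
    (s : Fin l × ℕ →₀ ℕ) : coeff s (PsiP A e f) ∈ Gsub (A.submatrix e e) j := by
  have key : PsiP A e f ∈ (coefIn (Gsub (A.submatrix e e) j) :
      Subalgebra ℂ (MvPolynomial (Fin l × ℕ) (MvPolynomial (Fin m × ℕ) ℂ))) := by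
    unfold Gsub at hf
    induction hf using Algebra.adjoin_induction with
    | mem x hx =>
      rcases hx with (hx | ⟨n, rfl⟩) | ⟨a, rfl⟩
      · rw [Set.mem_singleton_iff] at hx
        rw [hx, map_pow, PsiP_self A hA, ← map_pow]
        apply C_mem_coefIn
        exact Algebra.subset_adjoin (Or.inl (Or.inl rfl))
      · simp only [map_mul, PsiP_self A hA]
        rw [← map_mul]
        apply C_mem_coefIn
        exact Algebra.subset_adjoin (Or.inl (Or.inr ⟨n, rfl⟩))
      · exact PsiP_orth A hA e j a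
    | algebraMap r =>
      rw [AlgHom.commutes]
      exact Subalgebra.algebraMap_mem _ _
    | add x y _ _ hx hy => rw [map_add]; exact Subalgebra.add_mem _ hx hy
    | mul x y _ _ hx hy => rw [map_mul]; exact Subalgebra.mul_mem _ hx hy
  exact (mem_coefIn _ _).1 key s

/-! ### the screening operators -/

theorem SA_yv_mul (A : Matrix (Fin l) (Fin l) ℤ) (hA : SimplyLaced A) (e : Fin m ↪ Fin l)
    (ν : ℂ) (j : Fin m) (n : ℤ) (a : Fin l × ℕ) (f : MvPolynomial (Fin l × ℕ) ℂ) :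
    SA A ν (e j) n (yv A e a * f) = yv A e a * SA A ν (e j) n f := by
  have h1 : ∀ i, SA A ν (e j) n (C (pcf A e a.1 i) * X (e i, a.2) * f)
      = C (pcf A e a.1 i) * X (e i, a.2) * SA A ν (e j) n f
        - C (ν * ((A (e j) (e i) : ℂ) * pcf A e a.1 i)) * SA A ν (e j) (n - (a.2 + 1)) f := by
    intro i
    rw [mul_assoc, SA_C_mul, SA_X_mul]
    have : (C (ν * ((A (e j) (e i) : ℂ) * pcf A e a.1 i)) : MvPolynomial (Fin l × ℕ) ℂ)
        = C (pcf A e a.1 i) * C (ν * (A (e j) (e i) : ℂ)) := by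
      rw [← C_mul]; congr 1; ring
    rw [this]
    ring
  have h2 : SA A ν (e j) n (yv A e a * f) = SAl A ν (e j) n (X a * f)
      - ∑ i, SAl A ν (e j) n (C (pcf A e a.1 i) * X (e i, a.2) * f) := by
    rw [← map_sum, ← map_sub, ← sum_mul, ← sub_mul]
    rfl
  rw [h2]
  have h3 : ∑ i, SAl A ν (e j) n (C (pcf A e a.1 i) * X (e i, a.2) * f)
      = ∑ i, (C (pcf A e a.1 i) * X (e i, a.2) * SA A ν (e j) n f
        - C (ν * ((A (e j) (e i) : ℂ) * pcf A e a.1 i)) * SA A ν (e j) (n - (a.2 + 1)) f) :=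
    sum_congr rfl (fun i _ => h1 i)
  rw [h3, sum_sub_distrib, ← sum_mul, ← sum_mul, ← map_sum, ← mul_sum, pcf_spec A hA]
  have h4 : SAl A ν (e j) n (X a * f) = SA A ν (e j) n (X a * f) := rfl
  rw [h4, SA_X_mul, yv]
  ring

theorem incP_PA (e : Fin m ↪ Fin l) (j : Fin m) (n : ℤ) :
    incP e (PA j n : MvPolynomial (Fin m × ℕ) ℂ) = PA (e j) n := by
  rw [PA, PA, incP, rename_rename]
  rfl

theorem SA_incP (A : Matrix (Fin l) (Fin l) ℤ) (e : Fin m ↪ Fin l)
    (ν : ℂ) (j : Fin m) (f : MvPolynomial (Fin m × ℕ) ℂ) :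
    ∀ n : ℤ, SA A ν (e j) n (incP e f) = incP e (SA (A.submatrix e e) ν j n f) := by
  induction f using MvPolynomial.induction_on with
  | C c =>
    intro n
    rw [SA_C, incP_C, SA_C, map_mul, incP_C, incP_PA]
  | add f g hf hg =>
    intro n
    rw [map_add, SA_add, SA_add, map_add, hf, hg]
  | mul_X f a hf =>
    intro n
    rw [mul_comm, map_mul (incP e), incP_X, SA_X_mul, SA_X_mul, map_sub (incP e),
      map_mul (incP e) (X a), map_mul (incP e) (C _), incP_X, incP_C, hf, hf,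
      Matrix.submatrix_apply]

theorem SA_prod_mul (A : Matrix (Fin l) (Fin l) ℤ) (hA : SimplyLaced A) (e : Fin m ↪ Fin l)
    (ν : ℂ) (j : Fin m) (n : ℤ) (s : Fin l × ℕ →₀ ℕ) (f : MvPolynomial (Fin l × ℕ) ℂ) :
    SA A ν (e j) n (f * s.prod (fun a n => yv A e a ^ n))
      = SA A ν (e j) n f * s.prod (fun a n => yv A e a ^ n) := by
  have hpow : ∀ (a : Fin l × ℕ) (r : ℕ) (f : MvPolynomial (Fin l × ℕ) ℂ),
      SA A ν (e j) n (yv A e a ^ r * f) = yv A e a ^ r * SA A ν (e j) n f := by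
    intro a r
    induction r with
    | zero => intro f; rw [pow_zero, one_mul, one_mul]
    | succ r ih =>
      intro f
      rw [pow_succ, mul_assoc, ih, SA_yv_mul A hA, mul_assoc]
  have hprod : ∀ (t : Finset (Fin l × ℕ)) (f : MvPolynomial (Fin l × ℕ) ℂ),
      SA A ν (e j) n ((∏ a ∈ t, yv A e a ^ s a) * f)
        = (∏ a ∈ t, yv A e a ^ s a) * SA A ν (e j) n f := by
    intro t
    classical
    induction t using Finset.induction_on with
    | empty => intro f; rw [prod_empty, one_mul, one_mul]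
    | insert a t ha ih =>
      intro f
      rw [prod_insert ha, mul_assoc, hpow, ih, mul_assoc]
  rw [mul_comm, Finsupp.prod, hprod, mul_comm]

theorem SA_PhiP (A : Matrix (Fin l) (Fin l) ℤ) (hA : SimplyLaced A) (e : Fin m ↪ Fin l)
    (ν : ℂ) (j : Fin m) (n : ℤ) (F : MvPolynomial (Fin l × ℕ) (MvPolynomial (Fin m × ℕ) ℂ))
    (hF : ∀ s, SA (A.submatrix e e) ν j n (coeff s F) = 0) :
    SA A ν (e j) n (PhiP A e F) = 0 := by
  rw [PhiP_eq_sum]
  have h1 : SA A ν (e j) n (∑ s ∈ F.support, incP e (coeff s F) * s.prod (fun a n => yv A e a ^ n))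
      = ∑ s ∈ F.support, SAl A ν (e j) n (incP e (coeff s F) * s.prod (fun a n => yv A e a ^ n)) := by
    rw [← map_sum]; rfl
  rw [h1]
  apply sum_eq_zero
  intro s _
  have h2 : SAl A ν (e j) n (incP e (coeff s F) * s.prod (fun a n => yv A e a ^ n))
      = SA A ν (e j) n (incP e (coeff s F) * s.prod (fun a n => yv A e a ^ n)) := rfl
  rw [h2, SA_prod_mul A hA, SA_incP, hF, map_zero, zero_mul]


/-! ### the middle exactness statement and its transfer -/

/-- middle exactness for all simply laced matrices of size `l` -/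
def MidEx (l : ℕ) : Prop :=
  ∀ A : Matrix (Fin l) (Fin l) ℤ, SimplyLaced A →
    ∀ (z : Fin l → MvPolynomial (Fin l × ℕ) ℂ) (w : Fin l → Fin l → MvPolynomial (Fin l × ℕ) ℂ),
      (∀ i j, i ≠ j → w i j - z i ∈ Gsub A i ∧ w i j - z j ∈ Gsub A j) →
        ∃ u, ∀ i, u - z i ∈ Gsub A i

theorem MidEx.parab (hE : MidEx m) (A : Matrix (Fin l) (Fin l) ℤ) (hA : SimplyLaced A)
    (e : Fin m ↪ Fin l) (z : Fin m → MvPolynomial (Fin l × ℕ) ℂ)
    (w : Fin m → Fin m → MvPolynomial (Fin l × ℕ) ℂ)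
    (hw : ∀ i j, i ≠ j → w i j - z i ∈ Gsub A (e i) ∧ w i j - z j ∈ Gsub A (e j)) :
    ∃ u, ∀ i, u - z i ∈ Gsub A (e i) := by
  classical
  have h1 : ∀ s : Fin l × ℕ →₀ ℕ, ∃ u : MvPolynomial (Fin m × ℕ) ℂ, ∀ i,
      u - coeff s (PsiP A e (z i)) ∈ Gsub (A.submatrix e e) i := by
    intro s
    apply hE (A.submatrix e e) (hA.submatrix e) (fun i => coeff s (PsiP A e (z i)))
      (fun i j => coeff s (PsiP A e (w i j)))
    intro i j hij
    obtain ⟨h2, h3⟩ := hw i j hij
    constructor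
    · have := PsiP_Gsub A hA e i h2 s
      rwa [map_sub, coeff_sub] at this
    · have := PsiP_Gsub A hA e j h3 s
      rwa [map_sub, coeff_sub] at this
  choose u hu using h1
  set S : Finset (Fin l × ℕ →₀ ℕ) := univ.biUnion (fun i => (PsiP A e (z i)).support) with hS
  refine ⟨PhiP A e (∑ s ∈ S, monomial s (u s)), ?_⟩
  intro i
  have h4 : PhiP A e (∑ s ∈ S, monomial s (u s)) - z i
      = PhiP A e ((∑ s ∈ S, monomial s (u s)) - PsiP A e (z i)) := by
    rw [map_sub, PhiP_PsiP A hA]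
  rw [h4]
  apply PhiP_Gsub A hA
  intro t
  rw [coeff_sub, coeff_sum]
  simp_rw [coeff_monomial]
  rw [sum_ite_eq' S t u]
  split_ifs with ht
  · exact hu t i
  · have h5 : coeff t (PsiP A e (z i)) = 0 := by
      by_contra hne
      apply ht
      rw [hS, mem_biUnion]
      exact ⟨i, mem_univ _, mem_support_iff.2 hne⟩
    rw [h5, sub_zero]
    exact Subalgebra.zero_mem _

/-! ### gradings -/

theorem gwt_mapEmb (e : Fin m ↪ Fin l) (u : Fin m × ℕ →₀ ℕ) :
    gwt (Finsupp.mapDomain (fun a : Fin m × ℕ => (e a.1, a.2)) u) = gwt u := by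
  rw [gwt, gwt, Finsupp.weight_apply, Finsupp.weight_apply, Finsupp.sum_mapDomain_index]
  · rfl
  · intro b; simp
  · intro b m n; simp [add_mul]

theorem FEQ.incP {D : ℕ} {f : MvPolynomial (Fin m × ℕ) ℂ} (hf : FEQ D f) (e : Fin m ↪ Fin l) :
    FEQ D (incP e f) := by
  intro d hd
  obtain ⟨u, hu, hu0⟩ := coeff_rename_ne_zero _ _ _ hd
  rw [← hu, gwt_mapEmb]
  exact hf u hu0

theorem FLT.incP {D : ℕ} {f : MvPolynomial (Fin m × ℕ) ℂ} (hf : FLT D f) (e : Fin m ↪ Fin l) :
    FLT D (incP e f) := by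
  intro d hd
  obtain ⟨u, hu, hu0⟩ := coeff_rename_ne_zero _ _ _ hd
  rw [← hu, gwt_mapEmb]
  exact hf u hu0

theorem IsSym.incP {D : ℕ} {f g : MvPolynomial (Fin m × ℕ) ℂ} (h : IsSym D f g)
    (e : Fin m ↪ Fin l) : IsSym D (incP e f) (incP e g) := by
  refine ⟨h.1.incP e, ?_⟩
  rw [← map_sub]
  exact h.2.incP e

theorem FEQ.c_mul {D : ℕ} {f : MvPolynomial (Fin l × ℕ) ℂ} (hf : FEQ D f) (c : ℂ) :
    FEQ D (C c * f) := by
  have := (feq_C c).mul hf
  rwa [zero_add] at this

theorem FEQ.sub' {D : ℕ} {f g : MvPolynomial (Fin l × ℕ) ℂ} (hf : FEQ D f) (hg : FEQ D g) :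
    FEQ D (f - g) := by
  have h : f - g = f + C (-1) * g := by rw [C_neg, C_1]; ring
  rw [h]
  exact hf.add (hg.c_mul _)

theorem FEQ.sum {ι : Type*} {D : ℕ} (s : Finset ι) (f : ι → MvPolynomial (Fin l × ℕ) ℂ)
    (h : ∀ i ∈ s, FEQ D (f i)) : FEQ D (∑ i ∈ s, f i) := by
  classical
  induction s using Finset.induction_on with
  | empty => rw [sum_empty]; exact FEQ.zero D
  | insert a s ha ih =>
    rw [sum_insert ha]
    exact (h a (mem_insert_self a s)).add (ih (fun i hi => h i (mem_insert_of_mem hi)))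

theorem feq_yv (A : Matrix (Fin l) (Fin l) ℤ) (e : Fin m ↪ Fin l) (a : Fin l × ℕ) :
    FEQ (gd a.2) (yv A e a) := by
  rw [yv]
  exact (feq_X a).sub' (FEQ.sum _ _ (fun i _ => (feq_X (e i, a.2)).c_mul _))

theorem feq_yprod (A : Matrix (Fin l) (Fin l) ℤ) (e : Fin m ↪ Fin l) (s : Fin l × ℕ →₀ ℕ) :
    FEQ (gwt s) (s.prod (fun a n => yv A e a ^ n)) := by
  have h1 := FEQ.prod s.support (fun a => s a * gd a.2) (fun a => yv A e a ^ s a)
    (fun a _ => (feq_yv A e a).pow (s a))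
  apply h1.congr
  rw [gwt, Finsupp.weight_apply, Finsupp.sum]
  rfl

theorem whc_of_FEQ {E : ℕ} {f : MvPolynomial (Fin l × ℕ) ℂ} (hf : FEQ E f) (D : ℕ) :
    weightedHomogeneousComponent (gw l) D f = if D = E then f else 0 := by
  classical
  ext d
  rw [coeff_weightedHomogeneousComponent]
  by_cases h : coeff d f = 0
  · rw [h]
    split_ifs
    · rw [h]
    · rw [coeff_zero]
    · rw [h]
    · rw [coeff_zero]
  · have h1 := hf d h
    rw [gwt] at h1
    rw [h1]
    by_cases h2 : D = E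
    · rw [if_pos h2, if_pos h2.symm]
    · rw [if_neg h2, if_neg (Ne.symm h2), coeff_zero]

theorem feq_whc (D : ℕ) (f : MvPolynomial (Fin l × ℕ) ℂ) :
    FEQ D (weightedHomogeneousComponent (gw l) D f) := by
  classical
  intro d hd
  rw [coeff_weightedHomogeneousComponent] at hd
  by_cases h : Finsupp.weight (gw l) d = D
  · exact h
  · rw [if_neg h] at hd; exact absurd rfl hd

theorem sum_gwhc (f : MvPolynomial (Fin l × ℕ) ℂ) :
    f = ∑ n ∈ f.support.image gwt, weightedHomogeneousComponent (gw l) n f := by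
  classical
  ext d
  rw [coeff_sum]
  simp_rw [coeff_weightedHomogeneousComponent]
  rw [sum_ite_eq]
  split_ifs with h
  · rfl
  · by_contra h2
    exact h (mem_image.2 ⟨d, mem_support_iff.2 h2, rfl⟩)

/-- the component of a product with a homogeneous factor -/
theorem whc_incP_mul (A : Matrix (Fin l) (Fin l) ℤ) (e : Fin m ↪ Fin l)
    (c : MvPolynomial (Fin m × ℕ) ℂ) (s : Fin l × ℕ →₀ ℕ) (D : ℕ) :
    weightedHomogeneousComponent (gw l) D (incP e c * s.prod (fun a n => yv A e a ^ n))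
      = if gwt s ≤ D then incP e (weightedHomogeneousComponent (gw m) (D - gwt s) c)
          * s.prod (fun a n => yv A e a ^ n) else 0 := by
  classical
  have h1 : ∀ n, weightedHomogeneousComponent (gw l) D
      (incP e (weightedHomogeneousComponent (gw m) n c) * s.prod (fun a n => yv A e a ^ n))
      = if D = n + gwt s then incP e (weightedHomogeneousComponent (gw m) n c)
          * s.prod (fun a n => yv A e a ^ n) else 0 := by
    intro n
    exact whc_of_FEQ (((feq_whc n c).incP e).mul (feq_yprod A e s)) D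
  have h2 : incP e c * s.prod (fun a n => yv A e a ^ n)
      = ∑ n ∈ c.support.image gwt, incP e (weightedHomogeneousComponent (gw m) n c)
          * s.prod (fun a n => yv A e a ^ n) := by
    rw [← sum_mul, ← map_sum, ← sum_gwhc]
  rw [h2, map_sum]
  simp_rw [h1]
  by_cases hD : gwt s ≤ D
  · rw [if_pos hD]
    have h3 : ∀ n, (D = n + gwt s) = (D - gwt s = n) := by
      intro n
      apply propext
      omega
    simp_rw [h3]
    rw [sum_ite_eq]
    split_ifs with h4
    · rfl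
    · have h5 : weightedHomogeneousComponent (gw m) (D - gwt s) c = 0 := by
        ext d
        rw [coeff_weightedHomogeneousComponent, coeff_zero]
        split_ifs with h6
        · by_contra h7
          exact h4 (mem_image.2 ⟨d, mem_support_iff.2 h7, h6⟩)
        · rfl
      rw [h5, map_zero, zero_mul]
  · rw [if_neg hD]
    apply sum_eq_zero
    intro n _
    rw [if_neg]
    omega

/-! ### `Gsub` is graded -/

/-- grading map -/
noncomputable def Tg (l : ℕ) :
    MvPolynomial (Fin l × ℕ) ℂ →ₐ[ℂ] MvPolynomial Unit (MvPolynomial (Fin l × ℕ) ℂ) :=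
  aeval (fun a => C (X a) * X () ^ (gd a.2))

theorem Tg_monomial (d : Fin l × ℕ →₀ ℕ) (c : ℂ) :
    Tg l (monomial d c) = C (monomial d c) * X () ^ (gwt d) := by
  rw [Tg, aeval_monomial]
  have h1 : (d.prod fun a n => (C (X a) * X () ^ (gd a.2) :
      MvPolynomial Unit (MvPolynomial (Fin l × ℕ) ℂ)) ^ n)
      = C (d.prod fun a n => X a ^ n) * X () ^ (gwt d) := by
    rw [Finsupp.prod, Finsupp.prod, map_prod]
    have h2 : gwt d = ∑ a ∈ d.support, d a * gd a.2 := by
      rw [gwt, Finsupp.weight_apply, Finsupp.sum]; rfl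
    rw [h2, ← prod_pow_eq_pow_sum, ← prod_mul_distrib]
    apply prod_congr rfl
    intro a _
    rw [mul_pow, map_pow, ← pow_mul, mul_comm (gd a.2)]
  rw [h1, ← mul_assoc, monomial_eq, map_mul]
  rfl

theorem Tg_of_FEQ {E : ℕ} {f : MvPolynomial (Fin l × ℕ) ℂ} (hf : FEQ E f) :
    Tg l f = C f * X () ^ E := by
  have h1 : Tg l f = ∑ d ∈ f.support, Tg l (monomial d (coeff d f)) := by
    rw [← map_sum, f.support_sum_monomial_coeff]
  have h2 : (C f : MvPolynomial Unit (MvPolynomial (Fin l × ℕ) ℂ))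
      = ∑ d ∈ f.support, C (monomial d (coeff d f)) := by
    rw [← map_sum, f.support_sum_monomial_coeff]
  rw [h1, h2, sum_mul]
  apply sum_congr rfl
  intro d hd
  rw [Tg_monomial, hf d (mem_support_iff.1 hd)]

theorem coeff_Tg (f : MvPolynomial (Fin l × ℕ) ℂ) (D : ℕ) :
    coeff (Finsupp.single () D) (Tg l f) = weightedHomogeneousComponent (gw l) D f := by
  classical
  have h1 : Tg l f = ∑ n ∈ f.support.image gwt,
      C (weightedHomogeneousComponent (gw l) n f) * X () ^ n := by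
    conv_lhs => rw [sum_gwhc f, map_sum]
    apply sum_congr rfl
    intro n _
    exact Tg_of_FEQ (feq_whc n f)
  have h2 : ∀ n, coeff (Finsupp.single () D)
      (C (weightedHomogeneousComponent (gw l) n f) * X () ^ n :
        MvPolynomial Unit (MvPolynomial (Fin l × ℕ) ℂ))
      = if D = n then weightedHomogeneousComponent (gw l) n f else 0 := by
    intro n
    rw [coeff_C_mul, X_pow_eq_monomial, coeff_monomial]
    by_cases h : D = n
    · rw [if_pos h, if_pos (by rw [h]), mul_one]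
    · rw [if_neg h, if_neg, mul_zero]
      intro h3
      exact h (Finsupp.single_injective () h3).symm
  rw [h1, coeff_sum]
  simp_rw [h2]
  rw [sum_ite_eq]
  split_ifs with h
  · rfl
  · ext d
    rw [coeff_weightedHomogeneousComponent, coeff_zero]
    split_ifs with h6
    · by_contra h7
      exact h (mem_image.2 ⟨d, mem_support_iff.2 (Ne.symm h7), h6⟩)
    · rfl

theorem whc_mem_Gsub (A : Matrix (Fin l) (Fin l) ℤ) (i : Fin l)
    {f : MvPolynomial (Fin l × ℕ) ℂ} (hf : f ∈ Gsub A i) (D : ℕ) :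
    weightedHomogeneousComponent (gw l) D f ∈ Gsub A i := by
  have hgen : ∀ (g : MvPolynomial (Fin l × ℕ) ℂ) (E : ℕ), g ∈ Gsub A i → FEQ E g →
      Tg l g ∈ (coefIn (Gsub A i) : Subalgebra ℂ (MvPolynomial Unit (MvPolynomial (Fin l × ℕ) ℂ))) := by
    intro g E hg hE
    rw [Tg_of_FEQ hE]
    exact Subalgebra.mul_mem _ (C_mem_coefIn hg) (Subalgebra.pow_mem _ (X_mem_coefIn _ _) _)
  have key : Tg l f ∈ (coefIn (Gsub A i) :
      Subalgebra ℂ (MvPolynomial Unit (MvPolynomial (Fin l × ℕ) ℂ))) := by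
    have hf2 := hf
    unfold Gsub at hf2
    induction hf2 using Algebra.adjoin_induction with
    | mem x hx =>
      rcases hx with (hx | ⟨n, rfl⟩) | ⟨a, rfl⟩
      · rw [Set.mem_singleton_iff] at hx
        subst hx
        exact hgen _ _ (Algebra.subset_adjoin (Or.inl (Or.inl rfl))) ((feq_X (i, 0)).pow 2)
      · exact hgen _ _ (Algebra.subset_adjoin (Or.inl (Or.inr ⟨n, rfl⟩)))
          ((feq_X (i, 0)).mul (feq_X (i, n + 1)))
      · exact hgen _ _ (Algebra.subset_adjoin (Or.inr ⟨a, rfl⟩))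
          ((feq_X a).sub' ((feq_X (i, a.2)).c_mul _))
    | algebraMap r =>
      rw [AlgHom.commutes]
      exact Subalgebra.algebraMap_mem _ _
    | add x y hx0 hy0 hx hy => rw [map_add]; exact Subalgebra.add_mem _ (hx hx0) (hy hy0)
    | mul x y hx0 hy0 hx hy => rw [map_mul]; exact Subalgebra.mul_mem _ (hx hx0) (hy hy0)
  rw [← coeff_Tg]
  exact (mem_coefIn _ _).1 key _

/-- liftability of the common symbols to the common kernel -/
def Liftable (A : Matrix (Fin m) (Fin m) ℤ) (ν : ℂ) : Prop :=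
  ∀ (D : ℕ) (g : MvPolynomial (Fin m × ℕ) ℂ), FEQ D g → (∀ j, g ∈ Gsub A j) →
    ∃ κ, (∀ j, SA A ν j 1 κ = 0) ∧ IsSym D κ g

theorem Liftable.parab {A : Matrix (Fin l) (Fin l) ℤ} (hA : SimplyLaced A) (e : Fin m ↪ Fin l)
    {ν : ℂ} (hL : Liftable (A.submatrix e e) ν) (D : ℕ) (g : MvPolynomial (Fin l × ℕ) ℂ)
    (hg : FEQ D g) (hG : ∀ j, g ∈ Gsub A (e j)) :
    ∃ κ, (∀ j, SA A ν (e j) 1 κ = 0) ∧ IsSym D κ g := by
  classical
  have h1 : ∀ s : Fin l × ℕ →₀ ℕ, ∃ κ : MvPolynomial (Fin l × ℕ) ℂ,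
      (∀ j, SA A ν (e j) 1 κ = 0) ∧ IsSym D κ (weightedHomogeneousComponent (gw l) D
        (incP e (coeff s (PsiP A e g)) * s.prod (fun a n => yv A e a ^ n))) := by
    intro s
    rw [whc_incP_mul]
    by_cases hs : gwt s ≤ D
    · rw [if_pos hs]
      obtain ⟨κ, hκ, hκ2⟩ := hL (D - gwt s)
        (weightedHomogeneousComponent (gw m) (D - gwt s) (coeff s (PsiP A e g)))
        (feq_whc _ _) (fun j => whc_mem_Gsub _ j (PsiP_Gsub A hA e j (hG j) s) _)
      refine ⟨incP e κ * s.prod (fun a n => yv A e a ^ n), ?_, ?_⟩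
      · intro j
        rw [SA_prod_mul A hA, SA_incP, hκ, map_zero, zero_mul]
      · have h2 := (hκ2.incP e).mul (IsSym.of_feq (feq_yprod A e s))
        rwa [Nat.sub_add_cancel hs] at h2
    · rw [if_neg hs]
      refine ⟨0, ?_, IsSym.zero D⟩
      intro j
      exact map_zero (SAl A ν (e j) 1)
  choose κ hκ hκ2 using h1
  refine ⟨∑ s ∈ (PsiP A e g).support, κ s, ?_, ?_⟩
  · intro j
    have h3 : SA A ν (e j) 1 (∑ s ∈ (PsiP A e g).support, κ s)
        = ∑ s ∈ (PsiP A e g).support, SAl A ν (e j) 1 (κ s) := by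
      rw [← map_sum]; rfl
    rw [h3]
    apply sum_eq_zero
    intro s _
    exact hκ s j
  · have h4 := IsSym.sum (PsiP A e g).support κ _ (fun s _ => hκ2 s)
    have h5 : ∑ s ∈ (PsiP A e g).support, weightedHomogeneousComponent (gw l) D
        (incP e (coeff s (PsiP A e g)) * s.prod (fun a n => yv A e a ^ n)) = g := by
      rw [← map_sum, ← PhiP_eq_sum, PhiP_PsiP A hA, whc_of_FEQ hg, if_pos rfl]
    rwa [h5] at h4

end Parab

end Pool.Agent.LS
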