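import Pool.Agent.LS.Lam
import Pool.Agent.LS.Null
import Pool.Agent.LS.Mats
import Pool.Agent.LS.Kosz
import Pool.Agent.LS.Parab
import Pool.Agent.LS.GensG
import Pool.Agent.LS.Chev

/-!
# Middle exactness, by induction on the rank
-/

namespace Pool.Agent.LS

open MvPolynomial Finset Matrix

set_option linter.unusedSectionVars false

section Group

variable {l : ℕ} {A : Matrix (Fin l) (Fin l) ℤ}

theorem wR_eq_of_wp (hA : SimplyLaced A) {L L' : List (Fin l)} (h : wp hA L = wp hA L') :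
    wR A L = wR A L' := by
  apply wR_congr
  apply ext_ee
  intro i
  apply lin_injective
  rw [← wp_X hA, ← wp_X hA, h]

/-- the Weyl group acting on the ring of symbols -/
noncomputable def wG (hA : SimplyLaced A) (w : WG hA) :
    MvPolynomial (Fin l × ℕ) ℂ →ₐ[ℂ] MvPolynomial (Fin l × ℕ) ℂ :=
  wR A ((mem_WG hA w.1).1 w.2).choose

theorem wG_eq (hA : SimplyLaced A) (w : WG hA) (L : List (Fin l)) (h : w.1 = wp hA L) :
    wG hA w = wR A L := by
  apply wR_eq_of_wp hA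
  rw [← h, ← ((mem_WG hA w.1).1 w.2).choose_spec]

theorem wG_iS (hA : SimplyLaced A) (w : WG hA) (s : MvPolynomial (Fin l) ℂ) :
    wG hA w (iS l s) = iS l (w.1 s) := by
  obtain ⟨L, hL⟩ := (mem_WG hA w.1).1 w.2
  rw [wG_eq hA w L hL, wR_iS hA, hL]

/-- simple reflection as an element of the Weyl group -/
noncomputable def rG (hA : SimplyLaced A) (i : Fin l) : WG hA := ⟨reflE hA i, reflE_mem hA i⟩

theorem wG_rG_mul (hA : SimplyLaced A) (i : Fin l) (w : WG hA) (f : MvPolynomial (Fin l × ℕ) ℂ) :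
    wG hA (rG hA i * w) f = reflR A i (wG hA w f) := by
  obtain ⟨L, hL⟩ := (mem_WG hA w.1).1 w.2
  have h1 : (rG hA i * w).1 = wp hA (i :: L) := by
    rw [wp_cons, ← hL]; rfl
  rw [wG_eq hA _ (i :: L) h1, wG_eq hA w L hL, wR_cons]

theorem wR_nil' (A : Matrix (Fin l) (Fin l) ℤ) (U : MvPolynomial (Fin l × ℕ) ℂ) :
    wR A [] U = U := by
  have h1 : wR A [] = AlgHom.id ℂ _ := by
    apply algHom_ext
    rintro ⟨a, n⟩
    rw [wR_X, AlgHom.id_apply, wv_nil, linR, sum_eq_single a]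
    · simp [ee]
    · intro b _ hb
      simp [ee, hb]
    · intro h2; exact absurd (mem_univ _) h2
  rw [h1, AlgHom.id_apply]

theorem reflR_iS (A : Matrix (Fin l) (Fin l) ℤ) (i : Fin l) (s : MvPolynomial (Fin l) ℂ) :
    reflR A i (iS l s) = iS l (refl A i s) := by
  have h1 : (reflR A i).comp (iS l) = (iS l).comp (refl A i) := by
    apply algHom_ext
    intro j
    rw [AlgHom.comp_apply, AlgHom.comp_apply, iS_X, reflR_X, refl_X, map_sub, map_mul, iS_X, iS_X,
      iS_C]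
  exact DFunLike.congr_fun h1 s

theorem wR_fix {j : Fin l} {U : MvPolynomial (Fin l × ℕ) ℂ}
    (hU : ∀ i, i ≠ j → reflR A i U = U) (L : List (Fin l)) (hL : ∀ a ∈ L, a ≠ j) :
    wR A L U = U := by
  induction L with
  | nil => exact wR_nil' A U
  | cons i L ih =>
    rw [wR_cons, ih (fun a ha => hL a (List.mem_cons_of_mem i ha)),
      hU i (hL i List.mem_cons_self)]

/-- the key congruence: if `w⁻¹ α_i` does not involve `α_j`, then `w U_j ≡ z_i` mod `G_i` -/
theorem key_cong (hA : SimplyLaced A) (z : Fin l → MvPolynomial (Fin l × ℕ) ℂ)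
    (w : Fin l → Fin l → MvPolynomial (Fin l × ℕ) ℂ)
    (hw : ∀ i j, i ≠ j → w i j - z i ∈ Gsub A i ∧ w i j - z j ∈ Gsub A j)
    (hz : ∀ i, reflR A i (z i) = z i) (j : Fin l) (U : MvPolynomial (Fin l × ℕ) ℂ)
    (hU : ∀ i, i ≠ j → U - z i ∈ Gsub A i) (L : List (Fin l)) (i : Fin l)
    (hb : wv A L.reverse (ee i) j = 0) : wR A L U - z i ∈ Gsub A i := by
  have hUr : ∀ i, i ≠ j → reflR A i U = U := by
    intro i hi
    have h1 := reflR_of_mem_Gsub hA i _ (hU i hi)
    rw [map_sub, hz] at h1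
    exact sub_left_injective h1
  have hLb : wv A L (wv A L.reverse (ee i)) = ee i := by
    rw [← Module.End.mul_apply, wv_mul_reverse hA, Module.End.one_apply]
  have hrt : IsRt A (wv A L.reverse (ee i)) := (isRt_ee hA i).wv hA _
  have hwi : ∀ i j, i ≠ j → reflR A i (w i j) = w i j := by
    intro i j hij
    have h1 := reflR_of_mem_Gsub hA i _ (hw i j hij).1
    rw [map_sub, hz] at h1
    exact sub_left_injective h1
  have hwj : ∀ i j, i ≠ j → reflR A j (w i j) = w i j := by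
    intro i j hij
    have h1 := reflR_of_mem_Gsub hA j _ (hw i j hij).2
    rw [map_sub, hz] at h1
    exact sub_left_injective h1
  -- general step
  have hstep : ∀ (M : List (Fin l)) (m : Fin l), (∀ a ∈ M, a ≠ j) → m ≠ j →
      wv A (L ++ M) (ee m) = ee i → wR A L U - z i ∈ Gsub A i := by
    intro M m hM hm h
    have h1 := consist hA z w hwi hwj (fun i j hij => (hw i j hij).1) (fun i j hij => (hw i j hij).2)
      (L ++ M) m i h
    have h2 := wR_mem_Gsub hA (L ++ M) m i h _ (hU m hm)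
    have h3 : wR A L U = wR A (L ++ M) U := by
      rw [wR_append, wR_fix hUr M hM]
    have h4 : wR A L U - z i = wR A (L ++ M) (U - z m) + (wR A (L ++ M) (z m) - z i) := by
      rw [h3, map_sub]; ring
    rw [h4]
    exact Subalgebra.add_mem _ h2 h1
  rcases hrt.pos_or_neg hA with h0 | h0
  · obtain ⟨M, m, hMm, hM, hm⟩ := conj_simple' hA _ hrt h0
    apply hstep M.reverse m
    · intro a ha h
      rw [List.mem_reverse] at ha
      exact hM a ha (h ▸ hb)
    · intro h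
      exact hm (h ▸ hb)
    · rw [wv_append, Module.End.mul_apply, ← hMm, ← Module.End.mul_apply (wv A M.reverse),
        wv_reverse_mul hA, Module.End.one_apply, hLb]
  · have h0' : 0 ≤ -(wv A L.reverse (ee i)) := neg_nonneg.2 h0
    have hb' : (-(wv A L.reverse (ee i))) j = 0 := by rw [Pi.neg_apply, hb, neg_zero]
    obtain ⟨M, m, hMm, hM, hm⟩ := conj_simple' hA _ hrt.neg h0'
    apply hstep (M.reverse ++ [m]) m
    · intro a ha h
      rw [List.mem_append, List.mem_reverse, List.mem_singleton] at ha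
      rcases ha with ha | ha
      · exact hM a ha (h ▸ hb')
      · rw [ha] at h
        exact hm (h ▸ hb')
    · intro h
      exact hm (h ▸ hb')
    · have h5 : wv A [m] (ee m) = - ee m := by
        rw [wv_cons, wv_nil, mul_one, sv_ee hA]
      rw [wv_append, wv_append, Module.End.mul_apply, Module.End.mul_apply, h5, map_neg, ← hMm,
        ← Module.End.mul_apply (wv A M.reverse), wv_reverse_mul hA, Module.End.one_apply, neg_neg,
        hLb]

/-- if `w⁻¹ α_i` involves `α_j`, then `X_i` divides `w φ_j` -/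
theorem X_dvd_w_phiJ (hA : SimplyLaced A) (j i : Fin l) (L : List (Fin l))
    (hb : wv A L.reverse (ee i) j ≠ 0) : X i ∣ wp hA L (phiJ hA j) := by
  classical
  have hLb : wv A L (wv A L.reverse (ee i)) = ee i := by
    rw [← Module.End.mul_apply, wv_mul_reverse hA, Module.End.one_apply]
  have hrt : IsRt A (wv A L.reverse (ee i)) := (isRt_ee hA i).wv hA _
  have hmem : ∀ b : Fin l → ℤ, IsRt A b → 0 ≤ b → b j ≠ 0 → X i ∣ wp hA L (lin b) →
      X i ∣ wp hA L (phiJ hA j) := by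
    intro b hb1 hb2 hb3 hb4
    refine hb4.trans ?_
    apply map_dvd
    rw [phiJ]
    exact dvd_prod_of_mem _ (mem_filter.2 ⟨(mem_posRts hA b).2 ⟨hb1, hb2⟩, hb3⟩)
  rcases hrt.pos_or_neg hA with h0 | h0
  · apply hmem _ hrt h0 hb
    rw [wp_lin, hLb, lin_ee]
  · apply hmem _ hrt.neg (neg_nonneg.2 h0)
    · rw [Pi.neg_apply]
      exact neg_ne_zero.2 hb
    · have h1 : lin (wv A L (-(wv A L.reverse (ee i)))) = - X i := by
        rw [map_neg, hLb, ← lin_ee, ← sub_eq_zero, sub_neg_eq_add, ← lin_add, neg_add_cancel]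
        simp [lin]
      rw [wp_lin, h1]
      exact (dvd_neg).2 dvd_rfl

end Group

section Main

variable {n : ℕ} {A : Matrix (Fin (n + 3)) (Fin (n + 3)) ℤ}

theorem iS_mem_Gsub {l : ℕ} {A : Matrix (Fin l) (Fin l) ℤ} (hA : SimplyLaced A) (i : Fin l)
    (s : MvPolynomial (Fin l) ℂ) (hs : refl A i s = s) : iS l s ∈ Gsub A i := by
  apply mem_Gsub_of_Lsub hA i _ (iS_mem_Lsub i s)
  rw [reflR_iS, hs]

/-- the invariants with zero constant term kill the obstruction -/
theorem kill_aux (hE : MidEx (n + 2)) (hA : SimplyLaced A)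
    (z : Fin (n + 3) → MvPolynomial (Fin (n + 3) × ℕ) ℂ)
    (w : Fin (n + 3) → Fin (n + 3) → MvPolynomial (Fin (n + 3) × ℕ) ℂ)
    (hw : ∀ i j, i ≠ j → w i j - z i ∈ Gsub A i ∧ w i j - z j ∈ Gsub A j)
    (hz : ∀ i, reflR A i (z i) = z i) (P : MvPolynomial (Fin (n + 3)) ℂ)
    (hP0 : constantCoeff P = 0) (hP : ∀ i, refl A i P = P) :
    ∃ (K : ℕ) (u : MvPolynomial (Fin (n + 3) × ℕ) ℂ),
      ∀ i, u - iS _ (P ^ K) * z i ∈ Gsub A i := by
  classical
  -- the partial solutions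
  have hU1 : ∀ j : Fin (n + 3), ∃ U : MvPolynomial (Fin (n + 3) × ℕ) ℂ,
      ∀ i, i ≠ j → U - z i ∈ Gsub A i := by
    intro j
    obtain ⟨U, hU⟩ := hE.parab A hA (Fin.succAboveEmb j) (fun i => z (Fin.succAboveEmb j i))
      (fun i i' => w (Fin.succAboveEmb j i) (Fin.succAboveEmb j i')) (by
        intro i i' hii
        exact hw _ _ (fun h => hii ((Fin.succAboveEmb j).injective h)))
    refine ⟨U, ?_⟩
    intro i hi
    obtain ⟨a, rfl⟩ := Fin.exists_succAbove_eq hi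
    exact hU a
  choose U hU using hU1
  -- the exponent
  have := finite_WG hA
  have hFW : Fintype (WG hA) := Fintype.ofFinite _
  have hK1 : ∀ (j : Fin (n + 3)) (σ : WG hA) (i : Fin (n + 3)), ∃ K : ℕ,
      ∀ k, K ≤ k → X (i, 0) ^ k * (wG hA σ (U j) - z i) ∈ Lsub A i :=
    fun j σ i => exists_pow_mem_Lsub hA i _
  choose Kf hKf using hK1
  let k : ℕ := univ.sup (fun t : Fin (n + 3) × WG hA × Fin (n + 3) => Kf t.1 t.2.1 t.2.2)
  have hk : ∀ (j : Fin (n + 3)) (σ : WG hA) (i : Fin (n + 3)),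
      X (i, 0) ^ k * (wG hA σ (U j) - z i) ∈ Lsub A i := by
    intro j σ i
    have h1 : Kf j σ i ≤ k := by
      have := Finset.le_sup (f := fun t : Fin (n + 3) × WG hA × Fin (n + 3) =>
        Kf t.1 t.2.1 t.2.2) (mem_univ (j, σ, i))
      exact this
    exact hKf j σ i k h1
  obtain ⟨K, h, hcov⟩ := exists_cover hA k P hP0 hP
  refine ⟨K, ∑ j, ∑ σ : WG hA, iS _ (σ.1 (h j * phiJ hA j ^ k)) * wG hA σ (U j), ?_⟩
  intro i
  apply mem_Gsub_of_Lsub hA i _
  · -- membership in `Lsub`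
    have h1 : (∑ j, ∑ σ : WG hA, iS _ (σ.1 (h j * phiJ hA j ^ k)) * wG hA σ (U j))
        - iS _ (P ^ K) * z i
        = ∑ j, ∑ σ : WG hA, iS _ (σ.1 (h j * phiJ hA j ^ k)) * (wG hA σ (U j) - z i) := by
      rw [hcov, map_sum, sum_mul, ← sum_sub_distrib]
      apply sum_congr rfl
      intro j _
      rw [map_sum, sum_mul, ← sum_sub_distrib]
      apply sum_congr rfl
      intro σ _
      ring
    rw [h1]
    apply Subalgebra.sum_mem
    intro j _
    apply Subalgebra.sum_mem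
    intro σ _
    obtain ⟨L, hL⟩ := (mem_WG hA σ.1).1 σ.2
    by_cases hb : wv A L.reverse (ee i) j = 0
    · apply Subalgebra.mul_mem _ (iS_mem_Lsub i _)
      apply Gsub_le_Lsub hA i
      rw [wG_eq hA σ L hL]
      exact key_cong hA z w hw hz j (U j) (hU j) L i hb
    · obtain ⟨q, hq⟩ := X_dvd_w_phiJ hA j i L hb
      have h2 : σ.1 (h j * phiJ hA j ^ k) = σ.1 (h j) * q ^ k * X i ^ k := by
        rw [map_mul, map_pow, hL, hq]; ring
      rw [h2, map_mul, map_pow (iS (n + 3)) (X i), iS_X, mul_assoc]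
      exact Subalgebra.mul_mem _ (iS_mem_Lsub i _) (hk j σ i)
  · -- invariance
    have hiS : ∀ s : MvPolynomial (Fin (n + 3)) ℂ,
        reflR A i (iS (n + 3) s) = iS (n + 3) (refl A i s) := reflR_iS A i
    rw [map_sub, map_mul, hiS, map_pow, hP, hz, map_sum]
    congr 1
    apply sum_congr rfl
    intro j _
    rw [map_sum]
    have h3 : ∀ σ : WG hA, reflR A i (iS (n + 3) (σ.1 (h j * phiJ hA j ^ k)) * wG hA σ (U j))
        = iS (n + 3) ((rG hA i * σ).1 (h j * phiJ hA j ^ k)) * wG hA (rG hA i * σ) (U j) := by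
      intro σ
      rw [map_mul, hiS, wG_rG_mul]
      rfl
    simp_rw [h3]
    exact Fintype.sum_equiv (Equiv.mulLeft (rG hA i)) _
      (fun σ : WG hA => iS (n + 3) (σ.1 (h j * phiJ hA j ^ k)) * wG hA σ (U j)) (fun σ => rfl)

theorem kill_mono {l : ℕ} {A : Matrix (Fin l) (Fin l) ℤ} (hA : SimplyLaced A)
    (z : Fin l → MvPolynomial (Fin l × ℕ) ℂ) (P : MvPolynomial (Fin l) ℂ)
    (hP : ∀ i, refl A i P = P) {K K' : ℕ} (hK : K ≤ K')
    (h : ∃ u : MvPolynomial (Fin l × ℕ) ℂ, ∀ i, u - iS _ (P ^ K) * z i ∈ Gsub A i) :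
    ∃ u : MvPolynomial (Fin l × ℕ) ℂ, ∀ i, u - iS _ (P ^ K') * z i ∈ Gsub A i := by
  obtain ⟨u, hu⟩ := h
  obtain ⟨r, rfl⟩ := Nat.exists_eq_add_of_le hK
  refine ⟨iS _ (P ^ r) * u, fun i => ?_⟩
  have h1 : iS l (P ^ r) * u - iS l (P ^ (K + r)) * z i
      = iS l (P ^ r) * (u - iS l (P ^ K) * z i) := by
    rw [pow_add, map_mul]; ring
  rw [h1]
  exact Subalgebra.mul_mem _ (iS_mem_Gsub hA i _ (by rw [map_pow, hP])) (hu i)

/-- the Koszul argument -/
theorem koszul_glue {l : ℕ} {A : Matrix (Fin l) (Fin l) ℤ} (hA : SimplyLaced A)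
    (B : BasicInvariants A) (j1 j2 j3 : Fin l) (h12 : j1 ≠ j2) (h13 : j1 ≠ j3) (h23 : j2 ≠ j3)
    (K : ℕ) (z : Fin l → MvPolynomial (Fin l × ℕ) ℂ)
    (ua ub uc : MvPolynomial (Fin l × ℕ) ℂ)
    (ha : ∀ i, ua - iS _ (B.P j1 ^ K) * z i ∈ Gsub A i)
    (hb : ∀ i, ub - iS _ (B.P j2 ^ K) * z i ∈ Gsub A i)
    (hc : ∀ i, uc - iS _ (B.P j3 ^ K) * z i ∈ Gsub A i) :
    ∃ u, ∀ i, u - z i ∈ Gsub A i := by
  set a := iS l (B.P j1 ^ K) with hadef
  set b := iS l (B.P j2 ^ K) with hbdef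
  set c := iS l (B.P j3 ^ K) with hcdef
  have hG : ∀ (j i : Fin l), iS l (B.P j ^ K) ∈ Gsub A i := fun j i =>
    iS_mem_Gsub hA i _ (by rw [map_pow, B.inv])
  have hP0 : ∀ j, P0 B j ^ K = iS l (B.P j ^ K) := by
    intro j
    rw [map_pow, iS_P]
  have key : ∀ (x y ux uy : MvPolynomial (Fin l × ℕ) ℂ), (∀ i, x ∈ Gsub A i) →
      (∀ i, y ∈ Gsub A i) → (∀ i, ux - x * z i ∈ Gsub A i) → (∀ i, uy - y * z i ∈ Gsub A i) →
      y * ux - x * uy ∈ Agens B := by
    intro x y ux uy hx hy hux huy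
    apply mem_adjoin_of_mem_Gsub hA B
    intro i
    have h1 : y * ux - x * uy = y * (ux - x * z i) - x * (uy - y * z i) := by ring
    rw [h1]
    exact Subalgebra.sub_mem _ (Subalgebra.mul_mem _ (hy i) (hux i))
      (Subalgebra.mul_mem _ (hx i) (huy i))
  have hab := key a b ua ub (hG j1) (hG j2) ha hb
  have hac := key a c ua uc (hG j1) (hG j3) ha hc
  have hbc := key b c ub uc (hG j2) (hG j3) hb hc
  obtain ⟨g', hg', h', hh', heq⟩ := kosz_exact hA B j1 j2 j3 h13 h23 K K K (b * ua - a * ub)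
    (-(c * ub - b * uc)) (c * ua - a * uc) hab (Subalgebra.neg_mem _ hbc) hac (by
      rw [hP0, hP0, hP0]; ring)
  rw [hP0, hP0] at heq
  have hadj : ∀ f ∈ Agens B, ∀ i, f ∈ Gsub A i := by
    intro f hf i
    rw [Agens, ← range_gens] at hf
    have h1 : Algebra.adjoin ℂ (Set.range (gens B)) ≤ Gsub A i := by
      apply Algebra.adjoin_le
      rintro _ ⟨t, rfl⟩
      exact gens_mem_Gsub hA B i t
    exact h1 hf
  have hrel : b * (ua - h') = a * (ub + g') := by
    linear_combination heq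
  have hrp := isRelPrime_P hA B h12
  have hne : ∀ j, B.P j ≠ 0 := fun j => (algebraicIndependent_P hA B).ne_zero j
  have hdvd := iS_dvd_of_isRelPrime (hrp.symm.pow : IsRelPrime (B.P j2 ^ K) (B.P j1 ^ K)) (f := ua - h') (g := ub + g') hrel
  obtain ⟨u, hu⟩ := hdvd
  have ha0 : a ≠ 0 := by
    rw [hadef]
    intro h
    exact pow_ne_zero K (hne j1) (iS_injective l (by rw [h, map_zero]))
  have hb0 : b ≠ 0 := by
    rw [hbdef]
    intro h
    exact pow_ne_zero K (hne j2) (iS_injective l (by rw [h, map_zero]))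
  have hu2 : ub + g' = b * u := by
    apply mul_left_cancel₀ ha0
    rw [← hrel, hu]; ring
  refine ⟨u, fun i => ?_⟩
  have h1 : a * (u - z i) ∈ Gsub A i := by
    have : a * (u - z i) = (ua - a * z i) - h' := by
      rw [mul_sub, ← hu]; ring
    rw [this]
    exact Subalgebra.sub_mem _ (ha i) (hadj h' hh' i)
  have h2 : b * (u - z i) ∈ Gsub A i := by
    have : b * (u - z i) = (ub - b * z i) + g' := by
      rw [mul_sub, ← hu2]; ring
    rw [this]
    exact Subalgebra.add_mem _ (hb i) (hadj g' hg' i)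
  have hinv : reflR A i (u - z i) = u - z i := by
    have h3 := reflR_of_mem_Gsub hA i _ h1
    rw [map_mul, hadef, reflR_iS, map_pow, B.inv] at h3
    exact mul_left_cancel₀ ha0 h3
  apply mem_Gsub_of_Lsub hA i _ ?_ hinv
  have hX : ¬ (X i ∣ B.P j1 ∧ X i ∣ B.P j2) := by
    rintro ⟨h3, h4⟩
    exact (prime_X' i).not_isUnit (hrp h3 h4)
  rcases not_and_or.1 hX with h3 | h3
  · apply Lsub_sat hA i (B.P j1 ^ K) _ _ (Gsub_le_Lsub hA i h1)
    intro h4
    exact h3 ((prime_X' i).dvd_of_dvd_pow h4)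
  · apply Lsub_sat hA i (B.P j2 ^ K) _ _ (Gsub_le_Lsub hA i h2)
    intro h4
    exact h3 ((prime_X' i).dvd_of_dvd_pow h4)

theorem midEx_step (hE : MidEx (n + 2)) : MidEx (n + 3) := by
  intro A hA z w hw
  obtain ⟨u0, hu0⟩ := group_part hA z w (fun i j hij =>
    ⟨reflR_of_mem_Gsub hA i _ (hw i j hij).1, reflR_of_mem_Gsub hA j _ (hw i j hij).2⟩)
  obtain ⟨d, P, hd, hhom, hinv, -, hgen⟩ := exists_basic hA
  let B : BasicInvariants A := ⟨d, P, hhom, hinv, hgen⟩
  have hc : ∀ j, constantCoeff (B.P j) = 0 := by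
    intro j
    by_contra h
    have h1 := hhom j h
    rw [map_zero] at h1
    exact absurd h1.symm (Nat.pos_iff_ne_zero.1 (hd j)).symm.symm
  have hw' : ∀ i j, i ≠ j → (w i j - u0) - (z i - u0) ∈ Gsub A i ∧
      (w i j - u0) - (z j - u0) ∈ Gsub A j := by
    intro i j hij
    rw [sub_sub_sub_cancel_right, sub_sub_sub_cancel_right]
    exact hw i j hij
  have hkill : ∀ j, ∃ K, ∃ u : MvPolynomial (Fin (n + 3) × ℕ) ℂ,
      ∀ i, u - iS _ (B.P j ^ K) * (z i - u0) ∈ Gsub A i := fun j =>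
    kill_aux hE hA (fun i => z i - u0) (fun i j => w i j - u0) hw' hu0 (B.P j) (hc j)
      (fun i => B.inv i j)
  choose Kf hKf using hkill
  let K := univ.sup Kf
  have hK : ∀ j, ∃ u : MvPolynomial (Fin (n + 3) × ℕ) ℂ,
      ∀ i, u - iS _ (B.P j ^ K) * (z i - u0) ∈ Gsub A i := fun j =>
    kill_mono hA (fun i => z i - u0) (B.P j) (fun i => B.inv i j)
      (Finset.le_sup (mem_univ j)) (hKf j)
  have h01 : (⟨0, by omega⟩ : Fin (n + 3)) ≠ ⟨1, by omega⟩ := by
    intro h; simpa using congrArg Fin.val h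
  have h02 : (⟨0, by omega⟩ : Fin (n + 3)) ≠ ⟨2, by omega⟩ := by
    intro h; simpa using congrArg Fin.val h
  have h12 : (⟨1, by omega⟩ : Fin (n + 3)) ≠ ⟨2, by omega⟩ := by
    intro h; simpa using congrArg Fin.val h
  obtain ⟨ua, hua⟩ := hK ⟨0, by omega⟩
  obtain ⟨ub, hub⟩ := hK ⟨1, by omega⟩
  obtain ⟨uc, huc⟩ := hK ⟨2, by omega⟩
  obtain ⟨u, hu⟩ := koszul_glue hA B _ _ _ h01 h02 h12 K (fun i => z i - u0) ua ub uc
    hua hub huc
  refine ⟨u + u0, fun i => ?_⟩
  have h3 : u + u0 - z i = u - (z i - u0) := by ring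
  rw [h3]
  exact hu i

theorem midEx : ∀ l, MidEx l
  | 0 => fun A _ _ _ _ => ⟨0, fun i => i.elim0⟩
  | 1 => fun A _ z _ _ => ⟨z 0, fun i => by
      have : i = 0 := Subsingleton.elim _ _
      rw [this, sub_self]
      exact Subalgebra.zero_mem _⟩
  | 2 => fun A _ z w hw => ⟨w 0 1, fun i => by
      have h01 : (0 : Fin 2) ≠ 1 := by decide
      fin_cases i
      · exact (hw 0 1 h01).1
      · exact (hw 0 1 h01).2⟩
  | (n + 3) => midEx_step (midEx (n + 2))

/-- **middle exactness** -/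
theorem middle_exact {l : ℕ} (A : Matrix (Fin l) (Fin l) ℤ) (hA : SimplyLaced A)
    (f : Fin l → MvPolynomial (Fin l × ℕ) ℂ)
    (hf : ∀ i j, i ≠ j → ∃ g ∈ Gsub A i, ∃ h ∈ Gsub A j, f i - f j = g + h) :
    ∃ F : MvPolynomial (Fin l × ℕ) ℂ, ∀ i, F - f i ∈ Gsub A i := by
  classical
  have h1 : ∀ i j, ∃ w : MvPolynomial (Fin l × ℕ) ℂ, i ≠ j →
      w - f i ∈ Gsub A i ∧ w - f j ∈ Gsub A j := by
    intro i j
    by_cases hij : i = j
    · exact ⟨0, fun h => absurd hij h⟩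
    · obtain ⟨g, hg, h, hh, hgh⟩ := hf i j hij
      refine ⟨f i - g, fun _ => ⟨?_, ?_⟩⟩
      · rw [sub_sub_cancel_left]
        exact Subalgebra.neg_mem _ hg
      · have : f i - g - f j = h := by linear_combination hgh
        rw [this]
        exact hh
  choose w hw using h1
  exact midEx l A hA f w (fun i j hij => hw i j hij)

end Main

end Pool.Agent.LS
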