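import Pool.Agent.LS.Generic

/-!
# The common kernel is graded; equality from the dimension bound
-/

namespace Pool.Agent.LS

open MvPolynomial Finset

set_option linter.unusedSectionVars false

section Graded

variable {l : ℕ} {k : Type*} [CommRing k] [Algebra ℚ k]

/-- weight of an exponent: `x_{i,n+1}` has weight `n+1` -/
noncomputable def wtM (d : Fin l × ℕ →₀ ℕ) : ℕ :=
  Finsupp.weight (fun a : Fin l × ℕ => a.2 + 1) d

theorem wtM_add (d e : Fin l × ℕ →₀ ℕ) : wtM (d + e) = wtM d + wtM e := by
  unfold wtM; rw [map_add]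

theorem wtM_single (a : Fin l × ℕ) (n : ℕ) : wtM (Finsupp.single a n) = n * (a.2 + 1) := by
  unfold wtM; rw [Finsupp.weight_single]; simp

/-- all monomials of `f` have weight `w` -/
def HM (w : ℤ) (f : MvPolynomial (Fin l × ℕ) k) : Prop := ∀ d, coeff d f ≠ 0 → (wtM d : ℤ) = w

theorem HM.zero (w : ℤ) : HM w (0 : MvPolynomial (Fin l × ℕ) k) := by
  intro d hd; simp at hd

theorem HM.add {w : ℤ} {f g : MvPolynomial (Fin l × ℕ) k} (hf : HM w f) (hg : HM w g) :
    HM w (f + g) := by
  intro d hd
  rw [coeff_add] at hd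
  by_cases h : coeff d f = 0
  · exact hg d (by rw [h, zero_add] at hd; exact hd)
  · exact hf d h

theorem HM.sub {w : ℤ} {f g : MvPolynomial (Fin l × ℕ) k} (hf : HM w f) (hg : HM w g) :
    HM w (f - g) := by
  intro d hd
  rw [coeff_sub] at hd
  by_cases h : coeff d f = 0
  · exact hg d (by rw [h, zero_sub, neg_ne_zero] at hd; exact hd)
  · exact hf d h

theorem HM.sum {ι : Type*} {w : ℤ} (s : Finset ι) (f : ι → MvPolynomial (Fin l × ℕ) k)
    (h : ∀ i ∈ s, HM w (f i)) : HM w (∑ i ∈ s, f i) := by
  classical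
  induction s using Finset.induction_on with
  | empty => simpa using HM.zero w
  | insert a s ha ih =>
    rw [sum_insert ha]
    exact (h a (mem_insert_self a s)).add (ih (fun i hi => h i (mem_insert_of_mem hi)))

theorem HM.mul {w v : ℤ} {f g : MvPolynomial (Fin l × ℕ) k} (hf : HM w f) (hg : HM v g) :
    HM (w + v) (f * g) := by
  classical
  intro d hd
  rw [coeff_mul] at hd
  obtain ⟨ab, hab, hne⟩ := Finset.exists_ne_zero_of_sum_ne_zero hd
  rw [Finset.HasAntidiagonal.mem_antidiagonal] at hab
  have h1 := hf ab.1 (left_ne_zero_of_mul hne)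
  have h2 := hg ab.2 (right_ne_zero_of_mul hne)
  rw [← hab, wtM_add]
  push_cast
  rw [h1, h2]

theorem hm_C (a : k) : HM 0 (C a : MvPolynomial (Fin l × ℕ) k) := by
  classical
  intro d hd
  rw [coeff_C] at hd
  by_cases h : 0 = d
  · rw [← h]; simp [wtM]
  · simp [h] at hd

theorem hm_X (a : Fin l × ℕ) : HM (a.2 + 1) (X a : MvPolynomial (Fin l × ℕ) k) := by
  classical
  intro d hd
  rw [coeff_X] at hd
  by_cases h : Finsupp.single a 1 = d
  · rw [← h, wtM_single]; push_cast; ring
  · simp [h] at hd

theorem HM.congr {w v : ℤ} {f : MvPolynomial (Fin l × ℕ) k} (hf : HM w f) (h : w = v) : HM v f :=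
  h ▸ hf

theorem hm_PA (i : Fin l) (m : ℤ) : HM m (PA i m : MvPolynomial (Fin l × ℕ) k) := by
  classical
  intro d hd
  obtain ⟨u, hu, hu0⟩ := coeff_rename_ne_zero _ _ _ hd
  have h1 := hz_PZ (K := k) m u hu0
  rw [← h1, ← hu]
  unfold wtM wtm
  rw [Finsupp.weight_apply, Finsupp.sum_mapDomain_index]
  · simp only [smul_eq_mul]
  · intro b; simp
  · intro b m n; simp [add_mul]

theorem hm_SA (A : Matrix (Fin l) (Fin l) ℤ) (ν : k) (i : Fin l)
    {w : ℤ} {f : MvPolynomial (Fin l × ℕ) k} (hf : HM w f) (m : ℤ) :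
    HM (w - m) (SA A ν i m f) := by
  classical
  have hmon : ∀ (s : Fin l × ℕ →₀ ℕ) (c : k) (w m : ℤ), HM w (monomial s c) →
      HM (w - m) (SA A ν i m (monomial s c)) := by
    intro s c
    refine induction_on_monomial
      (motive := fun f => ∀ w m : ℤ, HM w f → HM (w - m) (SA A ν i m f)) ?_ ?_ s c
    · intro a w m ha
      by_cases h0 : a = 0
      · subst h0
        rw [SA_C, C_0, zero_mul]
        exact HM.zero _
      · have hw : (0 : ℤ) = w := by
          have := ha 0 (by rw [coeff_C, if_pos rfl]; exact h0)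
          simpa [wtM] using this
        rw [SA_C]
        exact ((hm_C a).mul (hm_PA i (-m))).congr (by rw [← hw]; ring)
    · intro p a hp w m hpa
      have hp' : HM (w - (a.2 + 1)) p := by
        intro d hd
        have := hpa (d + Finsupp.single a 1) (by rw [coeff_mul_X]; exact hd)
        rw [wtM_add, wtM_single] at this
        push_cast at this
        linarith
      rw [mul_comm, SA_X_mul]
      apply HM.sub
      · exact ((hm_X a).mul (hp _ m hp')).congr (by ring)
      · exact ((hm_C _).mul (hp _ (m - (a.2 + 1)) hp')).congr (by ring)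
  have hsum : SA A ν i m f = ∑ d ∈ f.support, SA A ν i m (monomial d (coeff d f)) := by
    have h1 : SAl A ν i m f = ∑ d ∈ f.support, SAl A ν i m (monomial d (coeff d f)) := by
      rw [← map_sum, f.support_sum_monomial_coeff]
    exact h1
  rw [hsum]
  apply HM.sum
  intro d hd
  apply hmon
  intro e he
  rw [coeff_monomial] at he
  by_cases h : d = e
  · subst h; exact hf d (mem_support_iff.1 hd)
  · simp [h] at he

theorem hm_component (N : ℕ) (f : MvPolynomial (Fin l × ℕ) k) :
    HM (N : ℤ) (weightedHomogeneousComponent (fun a : Fin l × ℕ => a.2 + 1) N f) := by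
  intro d hd
  have h := weightedHomogeneousComponent_isWeightedHomogeneous (w := fun a : Fin l × ℕ => a.2 + 1)
    (R := k) N f hd
  exact_mod_cast h

/-- the common kernel is graded -/
theorem component_mem_Kplus (A : Matrix (Fin l) (Fin l) ℤ) (ν : k)
    {f : MvPolynomial (Fin l × ℕ) k} (hf : f ∈ Kplus A ν) (N : ℕ) :
    weightedHomogeneousComponent (fun a : Fin l × ℕ => a.2 + 1) N f ∈ Kplus A ν := by
  classical
  rw [mem_Kplus] at hf ⊢
  intro i
  set w : Fin l × ℕ → ℕ := fun a => a.2 + 1 with hw
  -- finite decomposition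
  obtain ⟨s, hs⟩ : ∃ s : Finset ℕ, (∀ n ∉ s, weightedHomogeneousComponent w n f = 0) ∧
      f = ∑ n ∈ s, weightedHomogeneousComponent w n f := by
    refine ⟨f.support.image (fun d => Finsupp.weight w d), ?_, ?_⟩
    · intro n hn
      ext d
      rw [coeff_weightedHomogeneousComponent, coeff_zero]
      split_ifs with h
      · by_contra h2
        exact hn (mem_image.2 ⟨d, mem_support_iff.2 h2, h⟩)
      · rfl
    · ext d
      rw [coeff_sum]
      simp_rw [coeff_weightedHomogeneousComponent]
      rw [sum_ite_eq]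
      split_ifs with h
      · rfl
      · by_contra h2
        exact h (mem_image.2 ⟨d, mem_support_iff.2 h2, rfl⟩)
  have h0 : ∑ n ∈ s, SA A ν i 1 (weightedHomogeneousComponent w n f) = 0 := by
    have h1 : SAl A ν i 1 f = ∑ n ∈ s, SAl A ν i 1 (weightedHomogeneousComponent w n f) := by
      rw [← map_sum, ← hs.2]
    have h2 : SAl A ν i 1 f = 0 := hf i
    rw [h2] at h1
    exact h1.symm
  by_cases hN : N ∈ s
  · ext d
    rw [coeff_zero]
    by_contra hd
    have h3 := congrArg (coeff d) h0
    rw [coeff_sum, coeff_zero, sum_eq_single N] at h3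
    · exact hd h3
    · intro n _ hne
      by_contra h4
      have h5 := hm_SA A ν i (hm_component N f) 1 d hd
      have h6 := hm_SA A ν i (hm_component n f) 1 d h4
      apply hne
      have : (n : ℤ) = N := by linarith
      exact_mod_cast this
    · intro h; exact absurd hN h
  · rw [hs.1 N hN]
    exact map_zero (SAl A ν i 1)

/-- A subspace of the common kernel with at least the bounding dimensions is the common kernel. -/
theorem eq_Kplus_of_bound (A : Matrix (Fin l) (Fin l) ℤ) (p : ℂ) (v : ℕ → ℕ)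
    (hbound : ∀ N, Module.finrank ℂ ↥(Kplus A p ⊓ WH l ℂ N) ≤ v N)
    (W : Submodule ℂ (MvPolynomial (Fin l × ℕ) ℂ)) (hW : W ≤ Kplus A p)
    (hdim : ∀ N, v N ≤ Module.finrank ℂ ↥(W ⊓ WH l ℂ N)) : W = Kplus A p := by
  classical
  apply le_antisymm hW
  have heq : ∀ N, W ⊓ WH l ℂ N = Kplus A p ⊓ WH l ℂ N := by
    intro N
    have hfd : FiniteDimensional ℂ
        (weightedHomogeneousSubmodule ℂ (fun a : Fin l × ℕ => a.2 + 1) N) :=
      finiteDimensional_weight l N
    have hK : FiniteDimensional ℂ ↥(Kplus A p ⊓ WH l ℂ N) :=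
      Submodule.finiteDimensional_of_le (S₂ := WH l ℂ N) inf_le_right
    exact Submodule.eq_of_le_of_finrank_le (inf_le_inf_right _ hW) ((hbound N).trans (hdim N))
  intro f hf
  set w : Fin l × ℕ → ℕ := fun a => a.2 + 1 with hw
  have hsum : f = ∑ n ∈ f.support.image (fun d => Finsupp.weight w d),
      weightedHomogeneousComponent w n f := by
    ext d
    rw [coeff_sum]
    simp_rw [coeff_weightedHomogeneousComponent]
    rw [sum_ite_eq]
    split_ifs with h
    · rfl
    · by_contra h2
      exact h (mem_image.2 ⟨d, mem_support_iff.2 h2, rfl⟩)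
  rw [hsum]
  apply Submodule.sum_mem
  intro n _
  have h1 : weightedHomogeneousComponent w n f ∈ Kplus A p ⊓ WH l ℂ n :=
    ⟨component_mem_Kplus A p hf n,
      weightedHomogeneousComponent_isWeightedHomogeneous (w := w) (R := ℂ) n f⟩
  rw [← heq n] at h1
  exact h1.1

/-- **(III)** If the generic common kernel has the dimensions `v N` and the common kernel at
`ν = p` has at most these dimensions, then the common kernel at `p` is the continuation of the
generic common kernel. -/
theorem Wfam_eq_Kplus (A : Matrix (Fin l) (Fin l) ℤ) (p : ℂ) (v : ℕ → ℕ)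
    (hbound : ∀ N, Module.finrank ℂ ↥(Kplus A p ⊓ WH l ℂ N) ≤ v N)
    (hgen : ∀ N, v N ≤ Module.finrank (RatFunc ℂ)
      ↥(Kplus A (algebraMap (Polynomial ℂ) (RatFunc ℂ) Polynomial.X) ⊓ WH l (RatFunc ℂ) N)) :
    Wfam A p = Kplus A p :=
  eq_Kplus_of_bound A p v hbound (Wfam A p) (Wfam_le A p)
    (fun N => (hgen N).trans (finrank_generic_le A p N))

end Graded

end Pool.Agent.LS
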