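import Mathlib
import Pool.Agent.LS.Graded
import Pool.Agent.LS.Generic

/-!
# The generic kernel is at least as large as the kernels at the integers
-/

namespace Pool.Agent.LS

open MvPolynomial Finset

set_option linter.unusedSectionVars false

section LI

variable {O Fr κ : Type*} [CommRing O] [IsDomain O] [Field Fr] [Algebra O Fr] [IsFractionRing O Fr]
  [Field κ]

/-- linear independence over the fraction field survives almost all specialisations -/
theorem li_spec {s t : Type*} [Fintype s] [Fintype t] (v : s → t → O)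
    (hv : LinearIndependent Fr (fun j k => algebraMap O Fr (v j k))) :
    ∃ d : O, d ≠ 0 ∧ ∀ ev : O →+* κ, ev d ≠ 0 → LinearIndependent κ (fun j k => ev (v j k)) := by
  classical
  set f : (s → Fr) →ₗ[Fr] (t → Fr) := Fintype.linearCombination Fr
    (fun j k => algebraMap O Fr (v j k)) with hf
  have hinj : LinearMap.ker f = ⊥ := by
    rw [LinearMap.ker_eq_bot']
    intro c hc
    rw [Fintype.linearIndependent_iff] at hv
    funext j
    exact hv c (by rw [hf, Fintype.linearCombination_apply] at hc; exact hc) j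
  obtain ⟨g, hg⟩ := f.exists_leftInverse_of_injective hinj
  obtain ⟨b, hb⟩ := IsLocalization.exist_integer_multiples_of_finite (nonZeroDivisors O)
    (fun jk : s × t => g (Pi.single jk.2 1) jk.1)
  choose H hH using hb
  refine ⟨b, nonZeroDivisors.ne_zero b.2, ?_⟩
  -- the identity over `O`
  have key : ∀ i j, ∑ k, v i k * H (j, k) = if i = j then (b : O) else 0 := by
    intro i j
    apply IsFractionRing.injective O Fr
    rw [map_sum]
    have h1 : g (f (Pi.single i 1)) j = (Pi.single i 1 : s → Fr) j := by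
      have := LinearMap.congr_fun hg (Pi.single i 1)
      rw [LinearMap.comp_apply, LinearMap.id_apply] at this
      rw [this]
    have h2 : f (Pi.single i 1) = ∑ k, algebraMap O Fr (v i k) • (Pi.single k 1 : t → Fr) := by
      rw [hf, Fintype.linearCombination_apply_single, one_smul]
      funext k
      rw [Finset.sum_apply, Finset.sum_eq_single k]
      · simp
      · intro k' _ hk'
        rw [Pi.smul_apply, Pi.single_eq_of_ne (Ne.symm hk'), smul_zero]
      · intro h; exact absurd (mem_univ k) h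
    rw [h2, map_sum, Finset.sum_apply] at h1
    have h3 : ∑ k, algebraMap O Fr (v i k * H (j, k))
        = algebraMap O Fr (b : O) * ∑ k, algebraMap O Fr (v i k) * g (Pi.single k 1) j := by
      rw [Finset.mul_sum]
      apply sum_congr rfl
      intro k _
      rw [map_mul, hH (j, k), Algebra.smul_def]
      ring
    have h4 : ∑ k, algebraMap O Fr (v i k) * g (Pi.single k 1) j = (Pi.single i 1 : s → Fr) j := by
      rw [← h1]
      apply sum_congr rfl
      intro k _
      rw [map_smul, Pi.smul_apply, smul_eq_mul]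
    rw [h3, h4]
    by_cases hij : i = j
    · rw [if_pos hij, hij, Pi.single_eq_same, mul_one]
    · rw [if_neg hij, Pi.single_eq_of_ne (Ne.symm hij), mul_zero, map_zero]
  intro ev hev
  rw [Fintype.linearIndependent_iff]
  intro c hc j
  have h5 : ∀ k, ∑ i, c i * ev (v i k) = 0 := by
    intro k
    have := congrFun hc k
    rw [Finset.sum_apply] at this
    simpa using this
  have h6 : ∑ k, (∑ i, c i * ev (v i k)) * ev (H (j, k)) = c j * ev b := by
    have h7 : ∑ k, (∑ i, c i * ev (v i k)) * ev (H (j, k))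
        = ∑ i, c i * ev (∑ k, v i k * H (j, k)) := by
      simp only [Finset.sum_mul]
      rw [Finset.sum_comm]
      apply sum_congr rfl
      intro i _
      rw [map_sum, Finset.mul_sum]
      apply sum_congr rfl
      intro k _
      rw [map_mul]; ring
    rw [h7, Finset.sum_eq_single j]
    · rw [key, if_pos rfl]
    · intro i _ hij
      rw [key, if_neg hij, map_zero, mul_zero]
    · intro h; exact absurd (mem_univ j) h
  have h8 : c j * ev b = 0 := by
    rw [← h6]
    apply sum_eq_zero
    intro k _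
    rw [h5 k, zero_mul]
  exact (mul_eq_zero.1 h8).resolve_right hev

end LI

section Gen

variable {l : ℕ}

/-- exponents of weight `N` -/
abbrev Exp (l N : ℕ) := {s : Fin l × ℕ →₀ ℕ // Finsupp.weight (fun a : Fin l × ℕ => a.2 + 1) s = N}

theorem finite_Exp (l N : ℕ) : Finite (Exp l N) := (finite_weight l N).to_subtype

noncomputable instance (l N : ℕ) : Fintype (Exp l N) :=
  @Fintype.ofFinite _ (finite_Exp l N)

variable {F : Type*} [Field F] [Algebra ℚ F]

/-- the polynomial with given coefficients on the monomials of weight `N` -/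
noncomputable def Emb (l N : ℕ) (F : Type*) [Field F] : (Exp l N → F) →ₗ[F] MvPolynomial (Fin l × ℕ) F where
  toFun c := ∑ s, monomial s.1 (c s)
  map_add' c c' := by
    rw [← sum_add_distrib]
    apply sum_congr rfl
    intro s _
    rw [Pi.add_apply, map_add]
  map_smul' a c := by
    rw [RingHom.id_apply, Finset.smul_sum]
    apply sum_congr rfl
    intro s _
    rw [Pi.smul_apply, smul_monomial, smul_eq_mul]

theorem coeff_Emb (N : ℕ) (c : Exp l N → F) (s : Exp l N) : coeff s.1 (Emb l N F c) = c s := by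
  classical
  show coeff s.1 (∑ s, monomial s.1 (c s)) = c s
  rw [coeff_sum, Finset.sum_eq_single s]
  · rw [coeff_monomial, if_pos rfl]
  · intro t _ ht
    rw [coeff_monomial, if_neg (fun h => ht (Subtype.ext h))]
  · intro h; exact absurd (mem_univ s) h

theorem Emb_injective (N : ℕ) : Function.Injective (Emb l N F) := by
  intro c c' h
  funext s
  rw [← coeff_Emb N c s, ← coeff_Emb N c' s, h]

theorem mem_WH_iff (N : ℕ) (f : MvPolynomial (Fin l × ℕ) F) :
    f ∈ WH l F N ↔ ∃ c, Emb l N F c = f := by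
  classical
  constructor
  · intro hf
    refine ⟨fun s => coeff s.1 f, ?_⟩
    ext d
    by_cases hd : Finsupp.weight (fun a : Fin l × ℕ => a.2 + 1) d = N
    · exact coeff_Emb N (fun s => coeff s.1 f) ⟨d, hd⟩
    · have h1 : coeff d f = 0 := by
        by_contra h
        exact hd (hf h)
      rw [h1]
      show coeff d (∑ s : Exp l N, monomial s.1 (coeff s.1 f)) = 0
      rw [coeff_sum]
      apply sum_eq_zero
      intro s _
      rw [coeff_monomial, if_neg]
      intro h
      exact hd (by rw [← h]; exact s.2)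
  · rintro ⟨c, rfl⟩
    apply Submodule.sum_mem
    intro s _
    exact isWeightedHomogeneous_monomial _ _ _ s.2

/-- the matrix of the screenings, restricted to a finite set `T` of exponents -/
noncomputable def Lam (A : Matrix (Fin l) (Fin l) ℤ) (ν : F) (N : ℕ) (T : Finset (Fin l × ℕ →₀ ℕ)) :
    (Exp l N → F) →ₗ[F] (Fin l × T → F) where
  toFun c it := coeff it.2.1 (SAl A ν it.1 1 (Emb l N F c))
  map_add' c c' := by
    funext it
    rw [map_add, map_add, coeff_add]; rfl
  map_smul' a c := by
    funext it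
    rw [map_smul, map_smul, coeff_smul]; rfl

theorem ker_Lam (A : Matrix (Fin l) (Fin l) ℤ) (ν : F) (N : ℕ) (T : Finset (Fin l × ℕ →₀ ℕ))
    (hT : ∀ i, ∀ s : Exp l N, ∀ d, coeff d (SAl A ν i 1 (monomial s.1 1)) ≠ 0 → d ∈ T) :
    Submodule.map (Emb l N F) (LinearMap.ker (Lam A ν N T)) = Kplus A ν ⊓ WH l F N := by
  classical
  ext f
  rw [Submodule.mem_map, Submodule.mem_inf, mem_WH_iff]
  constructor
  · rintro ⟨c, hc, rfl⟩
    refine ⟨?_, c, rfl⟩
    rw [mem_Kplus]
    intro i
    show SAl A ν i 1 (Emb l N F c) = 0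
    ext d
    rw [coeff_zero]
    by_cases hd : d ∈ T
    · rw [LinearMap.mem_ker] at hc
      exact congrFun hc (i, ⟨d, hd⟩)
    · have h1 : Emb l N F c = ∑ s, c s • monomial s.1 (1 : F) := by
        show ∑ s, monomial s.1 (c s) = _
        apply sum_congr rfl
        intro s _
        rw [smul_monomial, smul_eq_mul, mul_one]
      rw [h1, map_sum, coeff_sum]
      apply sum_eq_zero
      intro s _
      rw [map_smul, coeff_smul]
      have : coeff d (SAl A ν i 1 (monomial s.1 1)) = 0 := by
        by_contra h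
        exact hd (hT i s d h)
      rw [this, smul_zero]
  · rintro ⟨hf, c, rfl⟩
    refine ⟨c, ?_, rfl⟩
    rw [LinearMap.mem_ker]
    funext it
    rw [mem_Kplus] at hf
    have h1 : SAl A ν it.1 1 (Emb l N F c) = 0 := hf it.1
    show coeff it.2.1 (SAl A ν it.1 1 (Emb l N F c)) = 0
    rw [h1, coeff_zero]

theorem finrank_Kplus (A : Matrix (Fin l) (Fin l) ℤ) (ν : F) (N : ℕ)
    (T : Finset (Fin l × ℕ →₀ ℕ))
    (hT : ∀ i, ∀ s : Exp l N, ∀ d, coeff d (SAl A ν i 1 (monomial s.1 1)) ≠ 0 → d ∈ T) :
    Module.finrank F ↥(Kplus A ν ⊓ WH l F N) + Module.finrank F (LinearMap.range (Lam A ν N T))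
      = Fintype.card (Exp l N) := by
  have h1 := LinearMap.finrank_range_add_finrank_ker (Lam A ν N T)
  rw [Module.finrank_pi] at h1
  have h2 : Module.finrank F ↥(Kplus A ν ⊓ WH l F N)
      = Module.finrank F (LinearMap.ker (Lam A ν N T)) := by
    rw [← ker_Lam A ν N T hT]
    exact (Submodule.equivMapOfInjective (Emb l N F) (Emb_injective N) _).finrank_eq.symm
  rw [h2, add_comm]
  exact h1

/-- the coefficients of the screenings over `ℂ[ν]` -/
noncomputable def cof (A : Matrix (Fin l) (Fin l) ℤ) (N : ℕ) (i : Fin l) (s : Exp l N)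
    (d : Fin l × ℕ →₀ ℕ) : Polynomial ℂ :=
  coeff d (SA A (Polynomial.X : Polynomial ℂ) i 1 (monomial s.1 1))

theorem coeff_spec (A : Matrix (Fin l) (Fin l) ℤ) (N : ℕ) (φ : Polynomial ℂ →+* F) (i : Fin l)
    (s : Exp l N) (d : Fin l × ℕ →₀ ℕ) :
    coeff d (SAl A (φ Polynomial.X) i 1 (monomial s.1 1)) = φ (cof A N i s d) := by
  have h1 := map_SA φ A (Polynomial.X : Polynomial ℂ) i (monomial s.1 1) 1
  rw [map_monomial] at h1
  have h2 := congrArg (coeff d) h1
  rw [coeff_map, map_one φ] at h2
  exact h2.symm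

/-- the finite set of exponents -/
noncomputable def TT (A : Matrix (Fin l) (Fin l) ℤ) (N : ℕ) : Finset (Fin l × ℕ →₀ ℕ) :=
  (Finset.univ : Finset (Fin l)).biUnion (fun i => (Finset.univ : Finset (Exp l N)).biUnion
    (fun s => (SA A (Polynomial.X : Polynomial ℂ) i 1 (monomial s.1 1)).support))

theorem mem_TT (A : Matrix (Fin l) (Fin l) ℤ) (N : ℕ) (φ : Polynomial ℂ →+* F) (i : Fin l)
    (s : Exp l N) (d : Fin l × ℕ →₀ ℕ)
    (hd : coeff d (SAl A (φ Polynomial.X) i 1 (monomial s.1 1)) ≠ 0) : d ∈ TT A N := by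
  rw [coeff_spec] at hd
  have h0 : cof A N i s d ≠ 0 := fun h => hd (by rw [h, map_zero])
  rw [TT, mem_biUnion]
  refine ⟨i, mem_univ i, ?_⟩
  rw [mem_biUnion]
  exact ⟨s, mem_univ s, mem_support_iff.2 h0⟩

theorem Lam_single (A : Matrix (Fin l) (Fin l) ℤ) (N : ℕ) (φ : Polynomial ℂ →+* F) (s : Exp l N) :
    Lam A (φ Polynomial.X) N (TT A N) (Pi.single s 1)
      = fun it : Fin l × TT A N => φ (cof A N it.1 s it.2.1) := by
  classical
  funext it
  rw [← coeff_spec]
  show coeff it.2.1 (SAl A _ it.1 1 (Emb l N F (Pi.single s 1))) = _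
  have h1 : Emb l N F (Pi.single s 1) = monomial s.1 1 := by
    show ∑ t : Exp l N, monomial t.1 ((Pi.single s 1 : Exp l N → F) t) = _
    rw [Finset.sum_eq_single s]
    · rw [Pi.single_eq_same]
    · intro t _ ht
      rw [Pi.single_eq_of_ne ht, map_zero]
    · intro h; exact absurd (mem_univ s) h
  rw [h1]

theorem range_Lam (A : Matrix (Fin l) (Fin l) ℤ) (ν : F) (N : ℕ) (T : Finset (Fin l × ℕ →₀ ℕ)) :
    LinearMap.range (Lam A ν N T) = Submodule.span F
      (Set.range (fun s : Exp l N => Lam A ν N T (Pi.single s 1))) := by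
  classical
  rw [LinearMap.range_eq_map, ← (Pi.basisFun F (Exp l N)).span_eq, Submodule.map_span]
  congr 1
  ext x
  simp [Set.mem_image, Set.mem_range]

/-- some integer has rank at least the generic one -/
theorem exists_rank (A : Matrix (Fin l) (Fin l) ℤ) (N : ℕ) : ∃ p : ℕ, 1 ≤ p ∧
    Module.finrank (RatFunc ℂ) (LinearMap.range
      (Lam A (algebraMap (Polynomial ℂ) (RatFunc ℂ) Polynomial.X) N (TT A N)))
    ≤ Module.finrank ℂ (LinearMap.range
      (Lam A (Polynomial.evalRingHom (p : ℂ) Polynomial.X) N (TT A N))) := by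
  classical
  obtain ⟨f, hf1, _, hf3⟩ := Submodule.exists_fun_fin_finrank_span_eq (RatFunc ℂ)
    (Set.range (fun s : Exp l N => Lam A (algebraMap (Polynomial ℂ) (RatFunc ℂ) Polynomial.X) N
      (TT A N) (Pi.single s 1)))
  choose s hs using hf1
  have hli : LinearIndependent (RatFunc ℂ) (fun j => fun it : Fin l × TT A N =>
      algebraMap (Polynomial ℂ) (RatFunc ℂ) (cof A N it.1 (s j) it.2.1)) := by
    have : (fun j => fun it : Fin l × TT A N =>
      algebraMap (Polynomial ℂ) (RatFunc ℂ) (cof A N it.1 (s j) it.2.1)) = f := by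
      funext j
      rw [← hs j]
      exact (Lam_single A N (algebraMap (Polynomial ℂ) (RatFunc ℂ)) (s j)).symm
    rw [this]
    exact hf3
  obtain ⟨d, hd0, hd⟩ := li_spec (κ := ℂ) (fun j => fun it : Fin l × TT A N =>
    cof A N it.1 (s j) it.2.1) hli
  -- a natural number which is not a root of `d`
  obtain ⟨p, hp1, hp⟩ : ∃ p : ℕ, 1 ≤ p ∧ d.eval (p : ℂ) ≠ 0 := by
    by_contra hcon
    push Not at hcon
    apply hd0
    apply Polynomial.eq_zero_of_infinite_isRoot
    apply Set.Infinite.mono (s := Set.range (fun n : ℕ => ((n + 1 : ℕ) : ℂ)))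
    · rintro _ ⟨n, rfl⟩
      exact hcon (n + 1) (by omega)
    · apply Set.infinite_range_of_injective
      intro a b hab
      have : a + 1 = b + 1 := Nat.cast_injective (R := ℂ) hab
      omega
  refine ⟨p, hp1, ?_⟩
  rw [range_Lam A (algebraMap (Polynomial ℂ) (RatFunc ℂ) Polynomial.X)]
  have h1 := hd (Polynomial.evalRingHom (p : ℂ)) hp
  have h2 : LinearIndependent ℂ (fun j => (⟨Lam A (Polynomial.evalRingHom (p : ℂ) Polynomial.X) N
      (TT A N) (Pi.single (s j) 1), ⟨_, rfl⟩⟩ :
      LinearMap.range (Lam A (Polynomial.evalRingHom (p : ℂ) Polynomial.X) N (TT A N)))) := by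
    apply LinearIndependent.of_comp (Submodule.subtype _)
    have : ((Submodule.subtype _) ∘ fun j => (⟨Lam A (Polynomial.evalRingHom (p : ℂ) Polynomial.X) N
      (TT A N) (Pi.single (s j) 1), ⟨_, rfl⟩⟩ :
      LinearMap.range (Lam A (Polynomial.evalRingHom (p : ℂ) Polynomial.X) N (TT A N))))
        = (fun j => fun it : Fin l × TT A N =>
          Polynomial.evalRingHom (p : ℂ) (cof A N it.1 (s j) it.2.1)) := by
      funext j
      exact Lam_single A N (Polynomial.evalRingHom (p : ℂ)) (s j)
    rw [this]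
    exact h1
  have h3 := h2.fintype_card_le_finrank
  rw [Fintype.card_fin] at h3
  exact h3

/-- **The generic kernel** is at least as large as the smallest kernel at an integer. -/
theorem generic_ge (A : Matrix (Fin l) (Fin l) ℤ) (N v : ℕ)
    (h : ∀ p : ℕ, 1 ≤ p → v ≤ Module.finrank ℂ ↥(Kplus A (p : ℂ) ⊓ WH l ℂ N)) :
    v ≤ Module.finrank (RatFunc ℂ)
      ↥(Kplus A (algebraMap (Polynomial ℂ) (RatFunc ℂ) Polynomial.X) ⊓ WH l (RatFunc ℂ) N) := by
  obtain ⟨p, hp1, hp⟩ := exists_rank A N
  have h1 := finrank_Kplus A (algebraMap (Polynomial ℂ) (RatFunc ℂ) Polynomial.X) N (TT A N)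
    (fun i s d hd => mem_TT A N (algebraMap (Polynomial ℂ) (RatFunc ℂ)) i s d hd)
  have h2 := finrank_Kplus A (Polynomial.evalRingHom (p : ℂ) Polynomial.X) N (TT A N)
    (fun i s d hd => mem_TT A N (Polynomial.evalRingHom (p : ℂ)) i s d hd)
  have h3 := h p hp1
  have h4 : (Polynomial.evalRingHom (p : ℂ)) Polynomial.X = (p : ℂ) := by simp
  rw [h4] at h2 hp
  omega

end Gen

end Pool.Agent.LS
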