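import Pool.Agent.LS.Inv

/-!
# Weights of the generators `P0`, `omega`
-/

namespace Pool.Agent.LS

open MvPolynomial Finset

section Homog

variable {l : ℕ} {A : Matrix (Fin l) (Fin l) ℤ}

theorem rename_zero_wh {f : MvPolynomial (Fin l) ℂ} {d : ℕ} (hf : f.IsHomogeneous d) :
    IsWeightedHomogeneous (fun a : Fin l × ℕ => a.2 + 1)
      (rename (fun i : Fin l => ((i, 0) : Fin l × ℕ)) f) d := by
  classical
  intro m hm
  obtain ⟨u, hu, hu0⟩ := coeff_rename_ne_zero _ _ _ hm
  have h1 := hf hu0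
  rw [← hu, ← h1, Finsupp.weight_apply, Finsupp.weight_apply, Finsupp.sum_mapDomain_index]
  · refine Finset.sum_congr rfl fun i _ => ?_
    simp
  · intro b; simp
  · intro b m n; simp [add_mul]

theorem P0_wh (B : BasicInvariants A) (j : Fin l) :
    IsWeightedHomogeneous (fun a : Fin l × ℕ => a.2 + 1) (P0 B j) (B.d j) :=
  rename_zero_wh (B.homog j)

theorem omega_wh (B : BasicInvariants A) (j : Fin l) (n : ℕ) (hd : 1 ≤ B.d j) :
    IsWeightedHomogeneous (fun a : Fin l × ℕ => a.2 + 1) (omega B j n) (B.d j + (n + 1)) := by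
  unfold omega
  apply IsWeightedHomogeneous.sum
  intro i _
  have h1 := rename_zero_wh ((B.homog j).pderiv (i := i))
  have h2 := h1.mul (isWeightedHomogeneous_X ℂ (fun a : Fin l × ℕ => a.2 + 1) (i, n + 1))
  have h3 : B.d j - 1 + (n + 1 + 1) = B.d j + (n + 1) := by omega
  rw [← h3]
  exact h2

end Homog

end Pool.Agent.LS
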