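import Pool.Agent.LS.LiftA
import Pool.Agent.LS.Parab

namespace Pool.Agent.LS

/-- **Type `A_l` is liftable** -/
theorem liftable_AA (l : ℕ) (ν : ℂ) : Liftable (AA l) ν :=
  fun D g hg hG => lift_AA l ν D g hg hG

end Pool.Agent.LS
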