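import Mathlib
import Pool.Agent.LS.GensG
import Pool.Agent.LS.AInd
import Pool.Agent.LS.Graded

/-!
# The lower bound from the lifting of symbols
-/

namespace Pool.Agent.LS

open MvPolynomial Finset

set_option linter.unusedSectionVars false

section Lower

variable {l : ℕ}

theorem rename_zero_feq {f : MvPolynomial (Fin l) ℂ} {d : ℕ} (hf : f.IsHomogeneous d) :
    FEQ (2 * d) (rename (fun i : Fin l => ((i, 0) : Fin l × ℕ)) f) := by
  classical
  intro m hm
  obtain ⟨u, hu, hu0⟩ := coeff_rename_ne_zero _ _ _ hm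
  have h1 := hf hu0
  rw [← hu, ← h1, gwt, Finsupp.weight_apply, Finsupp.weight_apply, Finsupp.sum_mapDomain_index]
  · rw [Finsupp.sum, Finsupp.sum, Finset.mul_sum]
    refine Finset.sum_congr rfl fun i _ => ?_
    simp [gw, gd]; ring
  · intro b; simp
  · intro b m n; simp [add_mul]

/-- g-degrees of the generators -/
def gdel (d : Fin l → ℕ) : Fin l × ℕ → ℕ
  | (j, 0) => 2 * d j
  | (j, _ + 1) => 2 * (d j - 1) + 1

theorem gens_feq {A : Matrix (Fin l) (Fin l) ℤ} (B : BasicInvariants A) (t : Fin l × ℕ) :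
    FEQ (gdel B.d t) (gens B t) := by
  classical
  obtain ⟨j, n⟩ := t
  cases n with
  | zero => exact rename_zero_feq (B.homog j)
  | succ n =>
    show FEQ _ (omega B j n)
    unfold omega
    have h : ∀ s : Finset (Fin l), FEQ (2 * (B.d j - 1) + 1)
        (∑ i ∈ s, rename (fun i => ((i, 0) : Fin l × ℕ)) (pderiv i (B.P j)) * X (i, n + 1)) := by
      intro s
      induction s using Finset.induction_on with
      | empty => rw [sum_empty]; exact FEQ.zero _
      | insert a s ha ih =>
        rw [sum_insert ha]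
        refine FEQ.add ?_ ih
        exact (rename_zero_feq ((B.homog j).pderiv (i := a))).mul (feq_X (a, n + 1))
    exact h univ

/-- monomials in the generators -/
noncomputable def gmon {A : Matrix (Fin l) (Fin l) ℤ} (B : BasicInvariants A)
    (m : Fin l × ℕ →₀ ℕ) : MvPolynomial (Fin l × ℕ) ℂ := m.prod (fun a e => gens B a ^ e)

theorem gmon_feq {A : Matrix (Fin l) (Fin l) ℤ} (B : BasicInvariants A) (m : Fin l × ℕ →₀ ℕ) :
    FEQ (m.sum (fun a e => e * gdel B.d a)) (gmon B m) :=
  FEQ.prod m.support (fun a => m a * gdel B.d a) (fun a => gens B a ^ (m a))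
    (fun a _ => (gens_feq B a).pow (m a))

theorem gmon_mem {A : Matrix (Fin l) (Fin l) ℤ} (hA : SimplyLaced A) (B : BasicInvariants A)
    (m : Fin l × ℕ →₀ ℕ) (i : Fin l) : gmon B m ∈ Gsub A i := by
  rw [gmon, Finsupp.prod]
  exact Subalgebra.prod_mem _ (fun a _ => Subalgebra.pow_mem _ (gens_mem_Gsub hA B i a) _)

theorem gmon_wh {A : Matrix (Fin l) (Fin l) ℤ} (B : BasicInvariants A) (hd : ∀ j, 1 ≤ B.d j)
    (m : Fin l × ℕ →₀ ℕ) :
    IsWeightedHomogeneous (fun a : Fin l × ℕ => a.2 + 1) (gmon B m)
      (m.sum (fun jk e => e * (B.d jk.1 + jk.2))) := by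
  rw [gmon, Finsupp.prod, Finsupp.sum]
  apply IsWeightedHomogeneous.prod
  intro a _
  have := (gens_wh B hd a).pow (m a)
  simpa using this

theorem flt_whc {D : ℕ} (N : ℕ) {f : MvPolynomial (Fin l × ℕ) ℂ} (h : FLT D f) :
    FLT D (weightedHomogeneousComponent (fun a : Fin l × ℕ => a.2 + 1) N f) := by
  classical
  intro d hd
  rw [coeff_weightedHomogeneousComponent] at hd
  by_cases hN : Finsupp.weight (fun a : Fin l × ℕ => a.2 + 1) d = N
  · rw [if_pos hN] at hd; exact h d hd
  · rw [if_neg hN] at hd; exact absurd rfl hd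

/-- **Lower bound.** If all the monomials in the basic invariants and their polarisations are
symbols of elements of the graded space `K`, then `vac ≤ dim K_N`. -/
theorem vac_le_of_lift (A : Matrix (Fin l) (Fin l) ℤ) (hA : SimplyLaced A) (B : BasicInvariants A)
    (hd : ∀ j, 1 ≤ B.d j) (K : Submodule ℂ (MvPolynomial (Fin l × ℕ) ℂ))
    (hgr : ∀ v ∈ K, ∀ N, weightedHomogeneousComponent (fun a : Fin l × ℕ => a.2 + 1) N v ∈ K)
    (hlift : ∀ D g, FEQ D g → (∀ i, g ∈ Gsub A i) → g ∈ liftS K D) (N : ℕ) :
    vac B.d N ≤ Module.finrank ℂ ↥(K ⊓ WH l ℂ N) := by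
  classical
  have hfin := finite_vac B.d hd N
  have hft : Fintype {m : Fin l × ℕ →₀ ℕ // m.sum (fun jk e => e * (B.d jk.1 + jk.2)) = N} :=
    Fintype.ofFinite _
  have hfd : FiniteDimensional ℂ (weightedHomogeneousSubmodule ℂ (fun a : Fin l × ℕ => a.2 + 1) N) :=
    finiteDimensional_weight l N
  have hKf : FiniteDimensional ℂ ↥(K ⊓ WH l ℂ N) :=
    Submodule.finiteDimensional_of_le (S₂ := WH l ℂ N) inf_le_right
  set ι := {m : Fin l × ℕ →₀ ℕ // m.sum (fun jk e => e * (B.d jk.1 + jk.2)) = N} with hι
  let Dg : ι → ℕ := fun m => m.1.sum (fun a e => e * gdel B.d a)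
  have h1 : ∀ m : ι, ∃ w : MvPolynomial (Fin l × ℕ) ℂ, w ∈ K ⊓ WH l ℂ N ∧
      IsSym (Dg m) w (gmon B m.1) := by
    intro m
    obtain ⟨v, hv, hs⟩ := hlift (Dg m) (gmon B m.1) (gmon_feq B m.1) (gmon_mem hA B m.1)
    refine ⟨weightedHomogeneousComponent (fun a : Fin l × ℕ => a.2 + 1) N v,
      ⟨hgr v hv N, weightedHomogeneousComponent_mem _ _ _⟩, hs.1, ?_⟩
    have h2 : weightedHomogeneousComponent (fun a : Fin l × ℕ => a.2 + 1) N (gmon B m.1)
        = gmon B m.1 := by
      have h3 := gmon_wh B hd m.1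
      rw [m.2] at h3
      exact weightedHomogeneousComponent_of_mem h3 |>.trans (by simp)
    have h4 : weightedHomogeneousComponent (fun a : Fin l × ℕ => a.2 + 1) N v - gmon B m.1
        = weightedHomogeneousComponent (fun a : Fin l × ℕ => a.2 + 1) N (v - gmon B m.1) := by
      rw [map_sub, h2]
    rw [h4]
    exact flt_whc N hs.2
  choose w hwK hws using h1
  have hli : LinearIndependent ℂ (fun m : ι => (⟨w m, hwK m⟩ : ↥(K ⊓ WH l ℂ N))) := by
    rw [Fintype.linearIndependent_iff]
    intro c hc
    have hc' : ∑ m, c m • w m = 0 := by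
      have := congrArg (Subtype.val) hc
      rw [Submodule.coe_sum] at this
      simpa using this
    by_contra hcon
    push Not at hcon
    obtain ⟨m1, hm1⟩ := hcon
    obtain ⟨m0, hm0, hmax⟩ := Finset.exists_max_image (univ.filter (fun m : ι => c m ≠ 0)) Dg
      ⟨m1, mem_filter.2 ⟨mem_univ _, hm1⟩⟩
    have hm0' := (mem_filter.1 hm0).2
    -- the component of degree `Dg m0`
    have h5 : ∑ m, (if Dg m = Dg m0 then c m else 0) • gmon B m.1 = 0 := by
      have h6 := congrArg (weightedHomogeneousComponent (gw l) (Dg m0)) hc'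
      rw [map_sum, map_zero] at h6
      refine Eq.trans ?_ h6
      apply sum_congr rfl
      intro m _
      rw [map_smul]
      by_cases hcm : c m = 0
      · rw [hcm]; simp
      · have hle := hmax m (mem_filter.2 ⟨mem_univ _, hcm⟩)
        by_cases hD : Dg m = Dg m0
        · rw [if_pos hD]
          have := (hws m).comp
          rw [hD] at this
          rw [this]
        · rw [if_neg hD, zero_smul]
          have h7 : weightedHomogeneousComponent (gw l) (Dg m0) (w m) = 0 := by
            have h8 : FLT (Dg m0) (w m) := (hws m).flt.mono (by omega)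
            ext d
            rw [coeff_weightedHomogeneousComponent, coeff_zero]
            by_cases hd : Finsupp.weight (gw l) d = Dg m0
            · rw [if_pos hd]
              by_contra hne
              have := h8 d hne
              rw [gwt, hd] at this
              exact lt_irrefl _ this
            · rw [if_neg hd]
          rw [h7, smul_zero]
    have hlin := linearIndependent_gens hA B
    have hlin2 : LinearIndependent ℂ (fun m : ι => gmon B m.1) :=
      hlin.comp (fun m : ι => m.1) Subtype.val_injective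
    rw [Fintype.linearIndependent_iff] at hlin2
    have := hlin2 _ h5 m0
    rw [if_pos rfl] at this
    exact hm0' this
  have h9 := hli.fintype_card_le_finrank
  rw [vac, Nat.card_eq_fintype_card]
  exact h9

end Lower

end Pool.Agent.LS
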