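import Pool.Agent.LS.Parab
import Pool.Agent.LS.Single
import Pool.Agent.LS.Kosz
import Pool.Agent.LS.ADef

/-!
# Orthogonal pairs, and `pair_lift`
-/

namespace Pool.Agent.LS

open MvPolynomial Finset

section Diag

variable {l : ℕ}

theorem coeff_scal' {σ S : Type*} [CommRing S] (s : σ → S) (F : MvPolynomial σ S) (m : σ →₀ ℕ) :
    coeff m (aeval (fun i => C (s i) * X i : σ → MvPolynomial σ S) F)
      = coeff m F * m.prod (fun i e => s i ^ e) := by
  classical
  rw [aeval_def, eval₂_eq, coeff_sum]
  have hterm : ∀ d ∈ F.support, coeff m (algebraMap S (MvPolynomial σ S) (coeff d F) *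
      ∏ i ∈ d.support, (C (s i) * X i : MvPolynomial σ S) ^ d i)
      = if d = m then coeff m F * m.prod (fun i e => s i ^ e) else 0 := by
    intro d _
    have h1 : ∏ i ∈ d.support, (C (s i) * X i : MvPolynomial σ S) ^ d i
        = C (d.prod (fun i e => s i ^ e)) * monomial d 1 := by
      rw [monomial_eq, C_1, one_mul, Finsupp.prod, Finsupp.prod, map_prod,
        ← Finset.prod_mul_distrib]
      refine Finset.prod_congr rfl fun i _ => ?_
      rw [mul_pow, C_pow]
    rw [h1, algebraMap_eq, ← mul_assoc, ← C_mul, coeff_C_mul, coeff_monomial]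
    split_ifs with h
    · subst h
      rw [mul_one]
    · rw [mul_zero]
  rw [Finset.sum_congr rfl hterm, Finset.sum_ite_eq' F.support m]
  split_ifs with h
  · rfl
  · rw [notMem_support_iff.1 h, zero_mul]

/-- the Cartan matrix of type `A_1 × … × A_1` -/
def IsDiag2 (A : Matrix (Fin l) (Fin l) ℤ) : Prop := ∀ i j, A i j = if i = j then 2 else 0

theorem refl_diag {A : Matrix (Fin l) (Fin l) ℤ} (hA : IsDiag2 A) (i : Fin l)
    (f : MvPolynomial (Fin l) ℂ) :
    refl A i f = aeval (fun j => C (if j = i then -1 else 1) * X j) f := by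
  rw [refl]
  congr 2
  funext j
  rw [hA i j]
  by_cases h : j = i
  · subst h
    rw [if_pos rfl, if_pos rfl]
    have h2 : (C (((2 : ℤ) : ℂ)) : MvPolynomial (Fin l) ℂ) = 2 := by
      have : (((2 : ℤ) : ℂ)) = 2 := by norm_num
      rw [this]; exact map_ofNat C 2
    rw [h2, C_neg, C_1]
    ring
  · rw [if_neg (fun h0 => h h0.symm), if_neg h, Int.cast_zero, C_0, C_1]
    ring

theorem even_of_refl {A : Matrix (Fin l) (Fin l) ℤ} (hA : IsDiag2 A)
    {f : MvPolynomial (Fin l) ℂ} (hf : ∀ i, refl A i f = f) {d : Fin l →₀ ℕ}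
    (hd : coeff d f ≠ 0) (i : Fin l) : Even (d i) := by
  classical
  by_contra hodd
  rw [Nat.not_even_iff_odd] at hodd
  have h1 := congrArg (coeff d) (hf i)
  rw [refl_diag hA, coeff_scal'] at h1
  have h2 : d.prod (fun j e => (if j = i then (-1 : ℂ) else 1) ^ e) = -1 := by
    rw [Finsupp.prod, Finset.prod_eq_single i]
    · rw [if_pos rfl]
      exact hodd.neg_one_pow
    · intro j _ hj
      rw [if_neg hj, one_pow]
    · intro hi
      rw [Finsupp.notMem_support_iff.1 hi, pow_zero]
  rw [h2] at h1
  apply hd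
  have h3 : coeff d f + coeff d f = 0 := by
    linear_combination -h1
  have h4 : (2 : ℂ) * coeff d f = 0 := by
    rw [two_mul]
    exact h3
  exact (mul_eq_zero.1 h4).resolve_left two_ne_zero

/-- basic invariants of type `A_1 × … × A_1` -/
noncomputable def basicD {A : Matrix (Fin l) (Fin l) ℤ} (hA : IsDiag2 A) : BasicInvariants A where
  d _ := 2
  P j := X j ^ 2
  homog j := by
    have h := (isHomogeneous_X ℂ j).pow 2
    rwa [one_mul] at h
  inv i j := by
    rw [map_pow, refl_diag hA, aeval_X]
    split_ifs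
    · rw [C_neg, C_1, neg_one_mul, neg_sq]
    · rw [C_1, one_mul]
  gen f hf := by
    classical
    rw [f.as_sum]
    apply Subalgebra.sum_mem
    intro d hd
    have hev := even_of_refl hA hf (mem_support_iff.1 hd)
    rw [monomial_eq, Finsupp.prod]
    apply Subalgebra.mul_mem
    · exact Subalgebra.algebraMap_mem _ _
    · apply Subalgebra.prod_mem
      intro i _
      obtain ⟨n, hn⟩ := hev i
      have h1 : (X i : MvPolynomial (Fin l) ℂ) ^ d i = (X i ^ 2) ^ n := by
        rw [← pow_mul, hn]
        congr 1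
        ring
      rw [h1]
      exact Subalgebra.pow_mem _ (Algebra.subset_adjoin
        (Set.mem_range_self (f := fun j : Fin l => (X j ^ 2 : MvPolynomial (Fin l) ℂ)) i)) _

theorem gens_basicD {A : Matrix (Fin l) (Fin l) ℤ} (hA : IsDiag2 A) (a : Fin l × ℕ) :
    gens (basicD hA) a = rename (fun n => (a.1, n)) (qt (a.2 + 1) : MvPolynomial ℕ ℂ) := by
  classical
  obtain ⟨j, k⟩ := a
  cases k with
  | zero =>
    show P0 (basicD hA) j = _
    rw [P0]
    show rename _ (X j ^ 2) = rename _ (qt 1)
    rw [qt, map_pow, map_pow, rename_X, rename_X]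
  | succ k =>
    show omega (basicD hA) j k = rename _ (qt (k + 2))
    rw [omega, qt, map_mul, map_mul, rename_X, rename_X, rename_C]
    have h1 : ∀ i : Fin l, rename (fun i : Fin l => ((i, 0) : Fin l × ℕ))
        (pderiv i ((basicD hA).P j)) * X (i, k + 1)
        = if i = j then C 2 * (X (j, 0) * X (j, k + 1)) else (0 : MvPolynomial (Fin l × ℕ) ℂ) := by
      intro i
      have h2 : (basicD hA).P j = X j ^ 2 := rfl
      rw [h2, pderiv_pow]
      by_cases h : i = j
      · subst h
        rw [if_pos rfl, pderiv_X_self]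
        have h3 : (C 2 : MvPolynomial (Fin l × ℕ) ℂ) = 2 := map_ofNat C 2
        simp only [Nat.cast_ofNat, Nat.add_one_sub_one, pow_one, mul_one, map_mul, rename_X,
          map_ofNat]
        ring
      · rw [if_neg h, pderiv_X_of_ne (fun h0 => h h0.symm), mul_zero, map_zero, zero_mul]
    rw [Finset.sum_congr rfl fun i _ => h1 i, Finset.sum_ite_eq' univ j, if_pos (mem_univ j)]

end Diag

section Two

variable {A : Matrix (Fin 2) (Fin 2) ℤ}

/-- products of symbols in the two sets of variables -/
noncomputable def PS (L : List ℕ × List ℕ) : MvPolynomial (Fin 2 × ℕ) ℂ :=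
  rename (fun n => (0, n)) ((L.1.map qt).prod : MvPolynomial ℕ ℂ)
    * rename (fun n => (1, n)) ((L.2.map qt).prod : MvPolynomial ℕ ℂ)

theorem PS_mul (L M : List ℕ × List ℕ) : PS L * PS M = PS (L.1 ++ M.1, L.2 ++ M.2) := by
  rw [PS, PS, PS, List.map_append, List.prod_append, List.map_append, List.prod_append, map_mul,
    map_mul]
  ring

theorem Agens_le_span (hA : IsDiag2 A) :
    Subalgebra.toSubmodule (Agens (basicD hA)) ≤
      Submodule.span ℂ (PS '' {L | (∀ m ∈ L.1, 1 ≤ m) ∧ ∀ m ∈ L.2, 1 ≤ m}) := by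
  intro f hf
  rw [Subalgebra.mem_toSubmodule, Agens, ← range_gens] at hf
  have hone : (1 : MvPolynomial (Fin 2 × ℕ) ℂ) = PS ([], []) := by
    rw [PS, List.map_nil, List.prod_nil, map_one, map_one, mul_one]
  induction hf using Algebra.adjoin_induction with
  | mem x hx =>
    obtain ⟨⟨j, k⟩, rfl⟩ := hx
    rw [gens_basicD]
    apply Submodule.subset_span
    fin_cases j
    · refine ⟨([k + 1], []), ⟨by simp, by simp⟩, ?_⟩
      rw [PS, List.map_nil, List.prod_nil, map_one, mul_one, List.map_cons, List.map_nil,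
        List.prod_singleton]
      rfl
    · refine ⟨([], [k + 1]), ⟨by simp, by simp⟩, ?_⟩
      rw [PS, List.map_nil, List.prod_nil, map_one, one_mul, List.map_cons, List.map_nil,
        List.prod_singleton]
      rfl
  | algebraMap r =>
    rw [Algebra.algebraMap_eq_smul_one, hone]
    apply Submodule.smul_mem
    apply Submodule.subset_span
    exact ⟨_, by simp, rfl⟩
  | add x y _ _ hx hy => exact Submodule.add_mem _ hx hy
  | mul x y hx0 hy0 hx hy =>
    clear hx0 hy0
    induction hx using Submodule.span_induction with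
    | mem x hx =>
      induction hy using Submodule.span_induction with
      | mem y hy =>
        obtain ⟨u, hu, rfl⟩ := hx
        obtain ⟨w, hw, rfl⟩ := hy
        rw [PS_mul]
        apply Submodule.subset_span
        refine ⟨_, ⟨?_, ?_⟩, rfl⟩
        · intro m hm
          rcases List.mem_append.1 hm with h | h
          · exact hu.1 m h
          · exact hw.1 m h
        · intro m hm
          rcases List.mem_append.1 hm with h | h
          · exact hu.2 m h
          · exact hw.2 m h
      | zero => rw [mul_zero]; exact Submodule.zero_mem _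
      | add y z _ _ hy hz => rw [mul_add]; exact Submodule.add_mem _ hy hz
      | smul c y _ hy => rw [mul_smul_comm]; exact Submodule.smul_mem _ c hy
    | zero => rw [zero_mul]; exact Submodule.zero_mem _
    | add x z _ _ hx hz => rw [add_mul]; exact Submodule.add_mem _ hx hz
    | smul c x _ hx => rw [smul_mul_assoc]; exact Submodule.smul_mem _ c hx

theorem simplyLaced_diag {l : ℕ} {A : Matrix (Fin l) (Fin l) ℤ} (hA : IsDiag2 A) :
    SimplyLaced A where
  symm i j := by
    rw [hA i j, hA j i]
    by_cases h : i = j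
    · rw [if_pos h, if_pos h.symm]
    · rw [if_neg h, if_neg (fun h0 => h h0.symm)]
  diag i := by rw [hA i i, if_pos rfl]
  off i j h := by
    rw [hA i j, if_neg h]
    exact Or.inl rfl
  pos v hv := by
    have h1 : ∀ i, ∑ j, v i * A i j * v j = 2 * v i ^ 2 := by
      intro i
      rw [Finset.sum_eq_single i]
      · rw [hA i i, if_pos rfl]
        ring
      · intro b _ hb
        rw [hA i b, if_neg (fun h0 => hb h0.symm)]
        ring
      · intro h
        exact absurd (mem_univ _) h
    rw [Finset.sum_congr rfl fun i _ => h1 i]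
    obtain ⟨i, hi⟩ := Function.ne_iff.1 hv
    have h2 : 0 < 2 * v i ^ 2 := by
      have h3 : 0 < v i ^ 2 := by
        have : v i ≠ 0 := hi
        positivity
      linarith
    exact lt_of_lt_of_le h2 (Finset.single_le_sum (f := fun i => 2 * v i ^ 2)
      (fun i _ => by positivity) (mem_univ i))

theorem tauA_rename_ne {l : ℕ} {A : Matrix (Fin l) (Fin l) ℤ} (ν : ℂ) {i j : Fin l}
    (hij : A i j = 0) (f : MvPolynomial ℕ ℂ) :
    tauA A ν i (rename (fun n => (j, n)) f) = Polynomial.C (rename (fun n => (j, n)) f) := by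
  induction f using MvPolynomial.induction_on with
  | C c =>
    rw [rename_C, ← algebraMap_eq, AlgHom.commutes]
    rfl
  | add f g hf hg => rw [map_add, map_add, hf, hg, Polynomial.C_add]
  | mul_X f n hf =>
    rw [map_mul, map_mul, hf, rename_X, tauA, aeval_X]
    simp only []
    rw [hij, Int.cast_zero, mul_zero, C_0, Polynomial.C_0, zero_mul, sub_zero, Polynomial.C_mul]

theorem SA_mul_fixed {l : ℕ} (A : Matrix (Fin l) (Fin l) ℤ) (ν : ℂ) (i : Fin l) (k : ℤ)
    (f y : MvPolynomial (Fin l × ℕ) ℂ) (hy : tauA A ν i y = Polynomial.C y) :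
    SA A ν i k (f * y) = SA A ν i k f * y := by
  unfold SA
  rw [map_mul, hy, mul_comm, ← Polynomial.smul_eq_C_mul, map_smul, smul_eq_mul, mul_comm]

/-- **liftability for an orthogonal pair** -/
theorem liftable_diag (hA : IsDiag2 A) (ν : ℂ) : Liftable A ν := by
  classical
  have hSL := simplyLaced_diag hA
  intro D g hg hG
  have hmem : g ∈ Agens (basicD hA) := mem_adjoin_of_mem_Gsub hSL (basicD hA) g hG
  have hspan := Agens_le_span hA ((Subalgebra.mem_toSubmodule _).2 hmem)
  have key : ∀ x ∈ Submodule.span ℂ (PS '' {L | (∀ m ∈ L.1, 1 ≤ m) ∧ ∀ m ∈ L.2, 1 ≤ m}),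
      cmp D x ∈ liftS (LinearMap.ker (SAl A ν 0 1) ⊓ LinearMap.ker (SAl A ν 1 1)) D := by
    intro x hx
    induction hx using Submodule.span_induction with
    | mem x hx =>
      obtain ⟨L, hL, rfl⟩ := hx
      have h0 := isSym_VL (i := (0 : Fin 2)) ν L.1 hL.1
      have h1 := isSym_VL (i := (1 : Fin 2)) ν L.2 hL.2
      have h2 := h0.mul h1
      by_cases hD : (L.1.map qdeg).sum + (L.2.map qdeg).sum = D
      · have h4 := cmp_of_feq (hD ▸ h2.1)
        rw [PS, h4]
        refine ⟨rename (fun n => ((0 : Fin 2), n)) (VL 0 ν L.1 1) *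
          rename (fun n => ((1 : Fin 2), n)) (VL 0 ν L.2 1), ⟨?_, ?_⟩, hD ▸ h2⟩
        · show SA A ν 0 1 _ = 0
          rw [SA_mul_fixed A ν 0 1 _ _ (tauA_rename_ne ν (by rw [hA]; rfl) _),
            SA_rename A hSL, S_VL_zero, map_zero, zero_mul]
        · show SA A ν 1 1 _ = 0
          rw [mul_comm, SA_mul_fixed A ν 1 1 _ _ (tauA_rename_ne ν (by rw [hA]; rfl) _),
            SA_rename A hSL, S_VL_zero, map_zero, zero_mul]
      · have h4 := cmp_of_feq_ne h2.1 hD
        rw [PS, h4]
        exact Submodule.zero_mem _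
    | zero => rw [cmp, map_zero]; exact Submodule.zero_mem _
    | add x y _ _ hx hy =>
      rw [cmp, map_add]
      exact Submodule.add_mem _ hx hy
    | smul c x _ hx =>
      rw [cmp, map_smul]
      exact Submodule.smul_mem _ c hx
  have h5 := key g hspan
  rw [cmp_of_feq hg] at h5
  obtain ⟨v, hv, hvs⟩ := h5
  refine ⟨v, fun j => ?_, hvs⟩
  fin_cases j
  · exact hv.1
  · exact hv.2

end Two

section PairLift

variable {l : ℕ}

theorem AA_two : AA 2 = !![2, -1; -1, 2] := by
  ext a b
  fin_cases a <;> fin_cases b <;> rfl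

/-- **pairs lift**, given the case of type `A_2` -/
theorem pair_lift_of (A : Matrix (Fin l) (Fin l) ℤ) (hA : SimplyLaced A) (ν : ℂ)
    (h2 : Liftable (AA 2) ν)
    (i j : Fin l) (hij : i ≠ j) (D : ℕ) (g : MvPolynomial (Fin l × ℕ) ℂ) (hg : FEQ D g)
    (hi : g ∈ Gsub A i) (hj : g ∈ Gsub A j) :
    ∃ v, SA A ν i 1 v = 0 ∧ SA A ν j 1 v = 0 ∧ IsSym D v g := by
  classical
  let e : Fin 2 ↪ Fin l := ⟨![i, j], by
    intro a b hab
    fin_cases a <;> fin_cases b
    · rfl
    · exact absurd hab hij
    · exact absurd hab.symm hij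
    · rfl⟩
  have he0 : e 0 = i := rfl
  have he1 : e 1 = j := rfl
  have hL : Liftable (A.submatrix e e) ν := by
    rcases hA.off i j hij with h | h
    · apply liftable_diag
      intro a b
      fin_cases a <;> fin_cases b
      · exact hA.diag i
      · exact h
      · show A j i = 0
        rw [hA.symm j i]
        exact h
      · exact hA.diag j
    · have h3 : A.submatrix e e = AA 2 := by
        rw [AA_two]
        ext a b
        fin_cases a <;> fin_cases b
        · exact hA.diag i
        · exact h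
        · show A j i = -1
          rw [hA.symm j i]
          exact h
        · exact hA.diag j
      rw [h3]
      exact h2
  obtain ⟨v, hv, hvs⟩ := Liftable.parab hA e hL D g hg (by
    intro a
    fin_cases a
    · exact hi
    · exact hj)
  exact ⟨v, hv 0, hv 1, hvs⟩

end PairLift

end Pool.Agent.LS
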