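import Mathlib
import Pool.Agent.LS.Lower
import Pool.Agent.LS.GenRank
import Pool.Agent.LS.Emain
import Pool.Agent.LS.PairLift
import Pool.Agent.LS.LiftAA
import Pool.Agent.LS.DPos

/-!
# The dimension of the common kernel and the specialisation of the generic kernel
-/

namespace Pool.Agent.LS

open MvPolynomial Finset

set_option linter.unusedSectionVars false

section LBfinal

variable {l : ℕ}

theorem Kplus_lift (A : Matrix (Fin l) (Fin l) ℤ) (hA : SimplyLaced A) (p : ℕ) (hp : 1 ≤ p)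
    (D : ℕ) (g : MvPolynomial (Fin l × ℕ) ℂ) (hg : FEQ D g) (hgG : ∀ i, g ∈ Gsub A i) :
    g ∈ liftS (Kplus A (p : ℂ)) D := by
  apply lift_abstract (fun i => LinearMap.ker (SAl A (p : ℂ) i 1))
    (fun i => Subalgebra.toSubmodule (Gsub A i))
  · intro i v hv D hD
    exact top_mem_Gsub A hA.diag p hp i v hv D (fun d hd => Nat.lt_succ_iff.1 (hD d hd))
  · intro i g hg D
    exact (single_lift A hA (p : ℂ) D g hg).2
  · intro i D g hg hgi
    have h := (single_lift A hA (p : ℂ) D g hgi).1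
    rwa [cmp_of_feq hg] at h
  · intro i j hij D g hg hi hj
    obtain ⟨v, hv1, hv2, hs⟩ :=
      pair_lift_of A hA (p : ℂ) (liftable_AA 2 (p : ℂ)) i j hij D g hg hi hj
    exact ⟨v, ⟨hv1, hv2⟩, hs⟩
  · intro f hf
    apply middle_exact A hA f
    intro i j hij
    obtain ⟨g, hg, h, hh, hgh⟩ := Submodule.mem_sup.1 (hf i j hij)
    exact ⟨g, hg, h, hh, hgh.symm⟩
  · exact hg
  · exact hgG

/-- the dimension of the weight spaces of the common kernel -/
theorem finrank_Kplus_eq_vac (A : Matrix (Fin l) (Fin l) ℤ) (hA : SimplyLaced A)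
    (B : BasicInvariants A) (p : ℕ) (hp : 1 ≤ p) (N : ℕ) :
    Module.finrank ℂ ↥(Kplus A (p : ℂ) ⊓ WH l ℂ N) = vac B.d N := by
  have hd := B.one_le_d hA
  apply le_antisymm
  · exact (finrank_Kplus_le_inv A hA B p hp N).trans (finrank_adjoin_le_vac B hd N)
  · apply vac_le_of_lift A hA B hd
    · intro v hv N
      rw [mem_Kplus] at hv ⊢
      intro i
      exact whc_mem_ker A (p : ℂ) i v (hv i) N
    · exact fun D g hg hgG => Kplus_lift A hA p hp D g hg hgG

theorem finrank_generic_eq_vac (A : Matrix (Fin l) (Fin l) ℤ) (hA : SimplyLaced A)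
    (B : BasicInvariants A) (N : ℕ) :
    vac B.d N ≤ Module.finrank (RatFunc ℂ)
      ↥(Kplus A (algebraMap (Polynomial ℂ) (RatFunc ℂ) Polynomial.X) ⊓ WH l (RatFunc ℂ) N) := by
  apply generic_ge
  intro p hp
  exact (finrank_Kplus_eq_vac A hA B p hp N).ge

theorem Wfam_eq (A : Matrix (Fin l) (Fin l) ℤ) (hA : SimplyLaced A)
    (B : BasicInvariants A) (p : ℕ) (hp : 1 ≤ p) :
    Wfam A (p : ℂ) = Kplus A (p : ℂ) :=
  Wfam_eq_Kplus A (p : ℂ) (vac B.d) (fun N => (finrank_Kplus_eq_vac A hA B p hp N).le)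
    (finrank_generic_eq_vac A hA B)

end LBfinal

end Pool.Agent.LS
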