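import Pool.Agent.LS.WR
import Pool.Agent.LS.AInd

/-!
# The subalgebras `L_i`
-/

namespace Pool.Agent.LS

open MvPolynomial Finset Matrix

section Lam

variable {l : ℕ}

/-- the substitution `Λ_i` -/
noncomputable def LamMap (A : Matrix (Fin l) (Fin l) ℤ) (i : Fin l) :
    MvPolynomial (Fin l × ℕ) ℂ →ₐ[ℂ] MvPolynomial (Fin l × ℕ) ℂ :=
  aeval (fun a => match a with
    | (j, 0) => X (j, 0)
    | (j, n + 1) => X (j, n + 1) + C ((A i j : ℂ) / 2) * (X (i, 0) - 1) * X (i, n + 1))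

/-- the subalgebra `L_i` -/
noncomputable def Lsub (A : Matrix (Fin l) (Fin l) ℤ) (i : Fin l) :
    Subalgebra ℂ (MvPolynomial (Fin l × ℕ) ℂ) := (LamMap A i).range

variable {A : Matrix (Fin l) (Fin l) ℤ}

theorem LamMap_X_zero (i j : Fin l) : LamMap A i (X (j, 0)) = X (j, 0) := by
  rw [LamMap, aeval_X]

theorem LamMap_X_succ (i j : Fin l) (n : ℕ) :
    LamMap A i (X (j, n + 1))
      = X (j, n + 1) + C ((A i j : ℂ) / 2) * (X (i, 0) - 1) * X (i, n + 1) := by
  rw [LamMap, aeval_X]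

theorem LamMap_C (i : Fin l) (c : ℂ) : LamMap A i (C c) = C c := by
  rw [LamMap, aeval_C]; rfl

theorem LamMap_X_self (hA : SimplyLaced A) (i : Fin l) (n : ℕ) :
    LamMap A i (X (i, n + 1)) = X (i, 0) * X (i, n + 1) := by
  rw [LamMap_X_succ, hA.diag]
  have : (C (((2 : ℤ) : ℂ) / 2) : MvPolynomial (Fin l × ℕ) ℂ) = 1 := by
    rw [← C_1]; congr 1; norm_num
  rw [this]; ring

theorem mem_Lsub (i : Fin l) (f : MvPolynomial (Fin l × ℕ) ℂ) :
    f ∈ Lsub A i ↔ ∃ g, LamMap A i g = f := Iff.rfl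

theorem LamMap_iS (i : Fin l) (s : MvPolynomial (Fin l) ℂ) : LamMap A i (iS l s) = iS l s := by
  have h : (LamMap A i).comp (iS l) = iS l := by
    apply MvPolynomial.algHom_ext
    intro j
    rw [AlgHom.comp_apply, iS_X, LamMap_X_zero]
  exact DFunLike.congr_fun h s

theorem iS_mem_Lsub (i : Fin l) (s : MvPolynomial (Fin l) ℂ) : iS l s ∈ Lsub A i :=
  ⟨iS l s, LamMap_iS i s⟩

theorem X_zero_mem_Lsub (i j : Fin l) : X (j, 0) ∈ Lsub A i := ⟨X (j, 0), LamMap_X_zero i j⟩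

theorem X_mul_mem_Lsub (hA : SimplyLaced A) (i : Fin l) (n : ℕ) :
    X (i, 0) * X (i, n + 1) ∈ Lsub A i := ⟨X (i, n + 1), LamMap_X_self hA i n⟩

theorem C_mem_Lsub (i : Fin l) (c : ℂ) : C c ∈ Lsub A i := ⟨C c, LamMap_C i c⟩

theorem orth_mem_Lsub (hA : SimplyLaced A) (i j : Fin l) (n : ℕ) :
    X (j, n) - C ((A i j : ℂ) / 2) * X (i, n) ∈ Lsub A i := by
  cases n with
  | zero =>
    exact Subalgebra.sub_mem _ (X_zero_mem_Lsub i j)
      (Subalgebra.mul_mem _ (C_mem_Lsub i _) (X_zero_mem_Lsub i i))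
  | succ n =>
    refine ⟨X (j, n + 1) - C ((A i j : ℂ) / 2) * X (i, n + 1), ?_⟩
    show LamMap A i (X (j, n + 1) - C ((A i j : ℂ) / 2) * X (i, n + 1)) = _
    rw [map_sub, map_mul, LamMap_C, LamMap_X_self hA, LamMap_X_succ]
    ring

theorem Gsub_le_Lsub (hA : SimplyLaced A) (i : Fin l) : Gsub A i ≤ Lsub A i := by
  rw [Gsub, Algebra.adjoin_le_iff]
  rintro x ((rfl | ⟨n, rfl⟩) | ⟨jn, rfl⟩)
  · exact Subalgebra.pow_mem _ (X_zero_mem_Lsub i i) 2
  · exact X_mul_mem_Lsub hA i n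
  · obtain ⟨j, n⟩ := jn
    exact orth_mem_Lsub hA i j n

/-- every element of `L_i` is `g + x_i h` with `g, h ∈ G_i` -/
theorem Lsub_decomp (_hA : SimplyLaced A) (i : Fin l) (f : MvPolynomial (Fin l × ℕ) ℂ)
    (hf : f ∈ Lsub A i) : ∃ g ∈ Gsub A i, ∃ h ∈ Gsub A i, f = g + X (i, 0) * h := by
  obtain ⟨F, rfl⟩ := (mem_Lsub i f).1 hf
  clear hf
  have hX2 : X (i, 0) ^ 2 ∈ Gsub A i := Algebra.subset_adjoin (Or.inl (Or.inl rfl))
  have hXX : ∀ n, X (i, 0) * X (i, n + 1) ∈ Gsub A i := fun n =>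
    Algebra.subset_adjoin (Or.inl (Or.inr ⟨n, rfl⟩))
  have hY : ∀ j n, X (j, n) - C ((A i j : ℂ) / 2) * X (i, n) ∈ Gsub A i := fun j n =>
    Algebra.subset_adjoin (Or.inr ⟨(j, n), rfl⟩)
  have hC : ∀ c : ℂ, (C c : MvPolynomial (Fin l × ℕ) ℂ) ∈ Gsub A i := fun c =>
    Subalgebra.algebraMap_mem _ _
  induction F using MvPolynomial.induction_on with
  | C c =>
    refine ⟨C c, hC c, 0, Subalgebra.zero_mem _, ?_⟩
    rw [LamMap_C, mul_zero, add_zero]
  | add p q hp hq =>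
    obtain ⟨g, hg, h, hh, e⟩ := hp
    obtain ⟨g', hg', h', hh', e'⟩ := hq
    refine ⟨g + g', Subalgebra.add_mem _ hg hg', h + h', Subalgebra.add_mem _ hh hh', ?_⟩
    rw [map_add, e, e']; ring
  | mul_X p a hp =>
    obtain ⟨g, hg, h, hh, e⟩ := hp
    have hx : ∃ g' ∈ Gsub A i, ∃ h' ∈ Gsub A i, LamMap A i (X a) = g' + X (i, 0) * h' := by
      obtain ⟨j, n⟩ := a
      cases n with
      | zero =>
        refine ⟨_, hY j 0, C ((A i j : ℂ) / 2), hC _, ?_⟩
        rw [LamMap_X_zero]; ring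
      | succ n =>
        refine ⟨(X (j, n + 1) - C ((A i j : ℂ) / 2) * X (i, n + 1))
          + C ((A i j : ℂ) / 2) * (X (i, 0) * X (i, n + 1)), Subalgebra.add_mem _ (hY j (n + 1))
            (Subalgebra.mul_mem _ (hC _) (hXX n)), 0, Subalgebra.zero_mem _, ?_⟩
        rw [LamMap_X_succ]; ring
    obtain ⟨g', hg', h', hh', e'⟩ := hx
    refine ⟨g * g' + X (i, 0) ^ 2 * (h * h'), Subalgebra.add_mem _ (Subalgebra.mul_mem _ hg hg')
      (Subalgebra.mul_mem _ hX2 (Subalgebra.mul_mem _ hh hh')), g * h' + h * g',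
      Subalgebra.add_mem _ (Subalgebra.mul_mem _ hg hh') (Subalgebra.mul_mem _ hh hg'), ?_⟩
    rw [map_mul, e, e']; ring

theorem mem_Gsub_of_Lsub (hA : SimplyLaced A) (i : Fin l) (f : MvPolynomial (Fin l × ℕ) ℂ)
    (hf : f ∈ Lsub A i) (hr : reflR A i f = f) : f ∈ Gsub A i := by
  obtain ⟨g, hg, h, hh, rfl⟩ := Lsub_decomp hA i f hf
  rw [map_add, map_mul, reflR_of_mem_Gsub hA i g hg, reflR_of_mem_Gsub hA i h hh, reflR_X,
    hA.diag] at hr
  have h2 : (2 : MvPolynomial (Fin l × ℕ) ℂ) * (X (i, 0) * h) = 0 := by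
    have h3 : (C ((2 : ℤ) : ℂ) : MvPolynomial (Fin l × ℕ) ℂ) = 2 := by
      rw [show ((2 : ℤ) : ℂ) = 2 by norm_num]; rfl
    rw [h3] at hr
    linear_combination -hr
  have h4 : X (i, 0) * h = 0 := by
    rcases mul_eq_zero.1 h2 with h5 | h5
    · exact absurd h5 two_ne_zero
    · exact h5
  rw [h4, add_zero]
  exact hg

theorem X_pow_mem_Lsub (i : Fin l) (n : ℕ) : X (i, 0) ^ n ∈ Lsub A i :=
  Subalgebra.pow_mem _ (X_zero_mem_Lsub i i) n

theorem exists_pow_mem_Lsub (hA : SimplyLaced A) (i : Fin l) (f : MvPolynomial (Fin l × ℕ) ℂ) :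
    ∃ K, ∀ k, K ≤ k → X (i, 0) ^ k * f ∈ Lsub A i := by
  induction f using MvPolynomial.induction_on with
  | C c => exact ⟨0, fun k _ => Subalgebra.mul_mem _ (X_pow_mem_Lsub i k) (C_mem_Lsub i c)⟩
  | add p q hp hq =>
    obtain ⟨K, hK⟩ := hp
    obtain ⟨K', hK'⟩ := hq
    refine ⟨max K K', fun k hk => ?_⟩
    rw [mul_add]
    exact Subalgebra.add_mem _ (hK k (le_trans (le_max_left _ _) hk))
      (hK' k (le_trans (le_max_right _ _) hk))
  | mul_X p a hp =>
    obtain ⟨K, hK⟩ := hp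
    refine ⟨K + 1, fun k hk => ?_⟩
    obtain ⟨j, n⟩ := a
    have h1 : X (i, 0) ^ k * (p * X (j, n)) = (X (i, 0) ^ (k - 1) * p) * (X (i, 0) * X (j, n)) := by
      have : k = (k - 1) + 1 := by omega
      rw [this, pow_succ, Nat.add_sub_cancel]; ring
    rw [h1]
    apply Subalgebra.mul_mem _ (hK (k - 1) (by omega))
    have h2 : X (i, 0) * X (j, n) = X (i, 0) * (X (j, n) - C ((A i j : ℂ) / 2) * X (i, n))
        + C ((A i j : ℂ) / 2) * (X (i, 0) * X (i, n)) := by ring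
    rw [h2]
    apply Subalgebra.add_mem
    · exact Subalgebra.mul_mem _ (X_zero_mem_Lsub i i) (orth_mem_Lsub hA i j n)
    · apply Subalgebra.mul_mem _ (C_mem_Lsub i _)
      cases n with
      | zero => exact Subalgebra.mul_mem _ (X_zero_mem_Lsub i i) (X_zero_mem_Lsub i i)
      | succ n => exact X_mul_mem_Lsub hA i n

/-- an auxiliary substitution -/
noncomputable def NMap (A : Matrix (Fin l) (Fin l) ℤ) (i : Fin l) :
    MvPolynomial (Fin l × ℕ) ℂ →ₐ[ℂ] MvPolynomial (Fin l × ℕ) ℂ :=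
  aeval (fun a => match a with
    | (j, 0) => X (j, 0)
    | (j, n + 1) => X (i, 0) * X (j, n + 1)
        + C ((A i j : ℂ) / 2) * (1 - X (i, 0)) * X (i, n + 1))

theorem NMap_LamMap (hA : SimplyLaced A) (i : Fin l) (f : MvPolynomial (Fin l × ℕ) ℂ) :
    iotaS l (NMap A i (LamMap A i f))
      = aeval (fun a => C (X i) * X a :
          Fin l × ℕ → MvPolynomial (Fin l × ℕ) (MvPolynomial (Fin l) ℂ)) (iotaS l f) := by
  induction f using MvPolynomial.induction_on with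
  | C c =>
    have h1 : NMap A i (C c) = C c := by rw [NMap, aeval_C]; rfl
    rw [LamMap_C, h1, iotaS_C, aeval_C]
    rfl
  | add p q hp hq => rw [map_add, map_add, map_add, hp, hq, map_add, map_add]
  | mul_X p a hp =>
    rw [map_mul, map_mul, map_mul, hp, map_mul, map_mul]
    refine congrArg₂ (· * ·) rfl ?_
    obtain ⟨j, n⟩ := a
    have hi : ∀ n, NMap A i (X (i, n + 1)) = X (i, n + 1) := by
      intro n
      have : NMap A i (X (i, n + 1)) = X (i, 0) * X (i, n + 1)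
        + C ((A i i : ℂ) / 2) * (1 - X (i, 0)) * X (i, n + 1) := by rw [NMap, aeval_X]
      rw [this, hA.diag]
      have : (C (((2 : ℤ) : ℂ) / 2) : MvPolynomial (Fin l × ℕ) ℂ) = 1 := by
        rw [← C_1]; congr 1; norm_num
      rw [this]; ring
    have h0 : ∀ j, NMap A i (X (j, 0)) = X (j, 0) := by
      intro j
      rw [NMap, aeval_X]
    have hC : ∀ c, NMap A i (C c) = C c := by
      intro c
      rw [NMap, aeval_C]; rfl
    cases n with
    | zero =>
      rw [LamMap_X_zero, h0, iotaS_X_zero, aeval_C]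
      rfl
    | succ n =>
      have hs : NMap A i (X (j, n + 1)) = X (i, 0) * X (j, n + 1)
        + C ((A i j : ℂ) / 2) * (1 - X (i, 0)) * X (i, n + 1) := by rw [NMap, aeval_X]
      have h1 : NMap A i (LamMap A i (X (j, n + 1))) = X (i, 0) * X (j, n + 1) := by
        rw [LamMap_X_succ, map_add, map_mul, map_mul, map_sub, map_one, hC, h0, hi, hs]
        ring
      rw [h1, map_mul, iotaS_X_zero, iotaS_X_succ, aeval_X]

theorem LamMap_injective (hA : SimplyLaced A) (i : Fin l) : Function.Injective (LamMap A i) := by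
  rw [injective_iff_map_eq_zero]
  intro f hf
  have h := NMap_LamMap hA i f
  rw [hf, map_zero, map_zero] at h
  apply (Function.LeftInverse.injective (rhoS_iotaS (l := l)))
  rw [map_zero]
  ext1 m
  have h1 := congrArg (coeff m) h
  rw [coeff_scal, coeff_zero] at h1
  rw [coeff_zero]
  exact (mul_eq_zero.1 h1.symm).resolve_right (pow_ne_zero _ (X_ne_zero i))

/-- `L_i` is saturated -/
theorem Lsub_sat (hA : SimplyLaced A) (i : Fin l) (a : MvPolynomial (Fin l) ℂ) (ha : ¬ X i ∣ a)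
    (f : MvPolynomial (Fin l × ℕ) ℂ) (h : iS l a * f ∈ Lsub A i) : f ∈ Lsub A i := by
  obtain ⟨g, hg⟩ := (mem_Lsub i _).1 h
  obtain ⟨K, hK⟩ := exists_pow_mem_Lsub hA i f
  obtain ⟨f', hf'⟩ := (mem_Lsub i _).1 (hK K le_rfl)
  have h1 : LamMap A i (X (i, 0) ^ K * g) = LamMap A i (iS l a * f') := by
    rw [map_mul, map_mul, hg, hf', LamMap_iS, map_pow, LamMap_X_zero]; ring
  have h2 := LamMap_injective hA i h1
  have hprime : Prime (X (i, 0) : MvPolynomial (Fin l × ℕ) ℂ) := X_prime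
  have hnd : ¬ X (i, 0) ∣ iS l a := by
    rintro ⟨q, hq⟩
    apply ha
    have h3 := congrArg (aeval (fun b : Fin l × ℕ => match b with
      | (j, 0) => (X j : MvPolynomial (Fin l) ℂ)
      | (_, _ + 1) => 0)) hq
    rw [map_mul, aeval_X] at h3
    have h4 : aeval (fun b : Fin l × ℕ => match b with
      | (j, 0) => (X j : MvPolynomial (Fin l) ℂ)
      | (_, _ + 1) => 0) (iS l a) = a := by
      rw [iS, aeval_rename]
      have : ((fun b : Fin l × ℕ => match b with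
        | (j, 0) => (X j : MvPolynomial (Fin l) ℂ)
        | (_, _ + 1) => 0) ∘ fun i => (i, 0)) = X := by
        funext j; rfl
      rw [this, aeval_X_left_apply]
    rw [h4] at h3
    exact ⟨_, h3⟩
  have h5 : X (i, 0) ^ K ∣ f' := by
    apply hprime.pow_dvd_of_dvd_mul_left K hnd
    exact ⟨g, h2.symm⟩
  obtain ⟨f'', hf''⟩ := h5
  refine ⟨f'', ?_⟩
  show LamMap A i f'' = f
  rw [hf'', map_mul, map_pow, LamMap_X_zero] at hf'
  exact mul_left_cancel₀ (pow_ne_zero K (X_ne_zero _)) hf'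

end Lam

end Pool.Agent.LS
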