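import Mathlib

/-!
# Fields with truncated modes: convolutions of commuting families of operators
-/

namespace Pool.Agent.LS.MA

open Function

section Conv

variable {k : Type*} [CommRing k] {V : Type*} [AddCommGroup V] [Module k V]

/-- `φ m f = 0` for `m` large -/
def Tr (φ : ℤ → V →ₗ[k] V) : Prop := ∀ f, ∃ N : ℤ, ∀ m, N < m → φ m f = 0

/-- the two families commute -/
def Cm (b φ : ℤ → V →ₗ[k] V) : Prop := ∀ j m f, b j (φ m f) = φ m (b j f)

/-- local finiteness of the convolution -/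
def LF (b φ : ℤ → V →ₗ[k] V) : Prop := ∀ m f, (support fun j => b j (φ (m - j) f)).Finite

open Classical in
/-- the modes of the product of the fields -/
noncomputable def cv (b φ : ℤ → V →ₗ[k] V) (m : ℤ) : V →ₗ[k] V :=
  if h : LF b φ then
    { toFun := fun f => ∑ᶠ j, b j (φ (m - j) f)
      map_add' := fun f g => by
        rw [← finsum_add_distrib (h m f) (h m g)]
        exact finsum_congr fun j => by rw [map_add, map_add]
      map_smul' := fun c f => by
        rw [RingHom.id_apply, smul_finsum' c (h m f)]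
        exact finsum_congr fun j => by rw [map_smul, map_smul] }
  else 0

theorem cv_apply {b φ : ℤ → V →ₗ[k] V} (h : LF b φ) (m : ℤ) (f : V) :
    cv b φ m f = ∑ᶠ j, b j (φ (m - j) f) := by
  rw [cv, dif_pos h]
  rfl

theorem LF.mk' {b φ : ℤ → V →ₗ[k] V} (hb : Tr b) (hφ : Tr φ) (hc : Cm b φ) : LF b φ := by
  intro m f
  obtain ⟨N, hN⟩ := hb f
  obtain ⟨M, hM⟩ := hφ f
  apply (Set.finite_Icc (m - M) N).subset
  intro j hj
  rw [mem_support] at hj
  constructor
  · by_contra h
    apply hj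
    rw [hM (m - j) (by omega), map_zero]
  · by_contra h
    apply hj
    rw [hc, hN j (by omega), map_zero]

theorem Tr.cv' {b φ : ℤ → V →ₗ[k] V} (hb : Tr b) (hφ : Tr φ) (hc : Cm b φ) : Tr (cv b φ) := by
  intro f
  obtain ⟨N, hN⟩ := hb f
  obtain ⟨M, hM⟩ := hφ f
  refine ⟨N + M, fun m hm => ?_⟩
  rw [cv_apply (LF.mk' hb hφ hc)]
  apply finsum_eq_zero_of_forall_eq_zero
  intro j
  by_cases h : M < m - j
  · rw [hM _ h, map_zero]
  · rw [hc, hN j (by omega), map_zero]

theorem Cm.cv' {a b φ : ℤ → V →ₗ[k] V} (h : LF b φ) (h1 : Cm a b) (h2 : Cm a φ) :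
    Cm a (cv b φ) := by
  intro i m f
  rw [cv_apply h, cv_apply h]
  rw [map_finsum _ (h m f)]
  exact finsum_congr fun j => by rw [h1, h2]

theorem Cm.symm {a b : ℤ → V →ₗ[k] V} (h : Cm a b) : Cm b a := fun j m f => (h m j f).symm

theorem Cm.add {a b φ : ℤ → V →ₗ[k] V} (h1 : Cm a φ) (h2 : Cm b φ) :
    Cm (fun j => a j + b j) φ := by
  intro j m f
  rw [LinearMap.add_apply, LinearMap.add_apply, map_add, h1, h2]

theorem Tr.add {a b : ℤ → V →ₗ[k] V} (h1 : Tr a) (h2 : Tr b) : Tr (fun j => a j + b j) := by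
  intro f
  obtain ⟨N, hN⟩ := h1 f
  obtain ⟨M, hM⟩ := h2 f
  refine ⟨max N M, fun m hm => ?_⟩
  rw [LinearMap.add_apply, hN m (by omega), hM m (by omega), add_zero]

theorem Tr.smul {a : ℤ → V →ₗ[k] V} (c : ℤ → k) (h1 : Tr a) : Tr (fun j => c j • a j) := by
  intro f
  obtain ⟨N, hN⟩ := h1 f
  refine ⟨N, fun m hm => ?_⟩
  rw [LinearMap.smul_apply, hN m hm, smul_zero]

theorem Cm.smul_right {a φ : ℤ → V →ₗ[k] V} (c : ℤ → k) (h1 : Cm a φ) :
    Cm a (fun j => c j • φ j) := by
  intro j m f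
  rw [LinearMap.smul_apply, map_smul, h1, LinearMap.smul_apply]

theorem cv_add_left {a b φ : ℤ → V →ₗ[k] V} (h1 : LF a φ) (h2 : LF b φ) (m : ℤ) (f : V) :
    cv (fun j => a j + b j) φ m f = cv a φ m f + cv b φ m f := by
  have h : LF (fun j => a j + b j) φ := by
    intro m f
    refine ((h1 m f).union (h2 m f)).subset ?_
    intro j hj
    rw [mem_support] at hj
    by_contra h
    rw [Set.mem_union, not_or, notMem_support, notMem_support] at h
    apply hj
    rw [LinearMap.add_apply, h.1, h.2, add_zero]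
  rw [cv_apply h, cv_apply h1, cv_apply h2, ← finsum_add_distrib (h1 m f) (h2 m f)]
  rfl

/-- associativity -/
theorem cv_assoc {a b φ : ℤ → V →ₗ[k] V} (ha : Tr a) (hb : Tr b) (hφ : Tr φ) (hab : Cm a b)
    (haφ : Cm a φ) (hbφ : Cm b φ) (m : ℤ) (f : V) :
    cv a (cv b φ) m f = cv (cv a b) φ m f := by
  have h1 : LF b φ := LF.mk' hb hφ hbφ
  have h2 : LF a (cv b φ) := LF.mk' ha (hb.cv' hφ hbφ) (Cm.cv' h1 hab haφ)
  have h3 : LF a b := LF.mk' ha hb hab
  have h4 : Cm (cv a b) φ := (Cm.cv' h3 haφ.symm hbφ.symm).symm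
  have h5 : LF (cv a b) φ := LF.mk' (ha.cv' hb hab) hφ h4
  rw [cv_apply h2, cv_apply h5]
  have e1 : ∀ j, a j (cv b φ (m - j) f) = ∑ᶠ i, a j (b i (φ (m - j - i) f)) := by
    intro j
    rw [cv_apply h1, map_finsum _ (h1 (m - j) f)]
  have e2 : ∀ q, cv a b q (φ (m - q) f) = ∑ᶠ i, a (q - i) (b i (φ (m - q) f)) := by
    intro q
    rw [cv_apply h3]
    have := finsum_comp_equiv (Equiv.subLeft q) (f := fun i => a i (b (q - i) (φ (m - q) f)))
    rw [← this]
    exact finsum_congr fun i => by simp [Equiv.subLeft]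
  rw [finsum_congr e1, finsum_congr e2]
  -- the double family
  set u : ℤ × ℤ → V := fun p => a p.1 (b p.2 (φ (m - p.1 - p.2) f)) with hu
  obtain ⟨N, hN⟩ := ha f
  obtain ⟨M, hM⟩ := hb f
  obtain ⟨R, hR⟩ := hφ f
  have hfin : (support u).Finite := by
    apply ((Set.finite_Icc (m - R - M) N).prod (Set.finite_Icc (m - R - N) M)).subset
    rintro ⟨i, j⟩ hij
    rw [mem_support] at hij
    simp only [hu] at hij
    have c1 : m - i - j ≤ R := by
      by_contra h
      apply hij
      rw [hR _ (by omega), map_zero, map_zero]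
    have c2 : j ≤ M := by
      by_contra h
      apply hij
      rw [hbφ, hM _ (by omega), map_zero, map_zero]
    have c3 : i ≤ N := by
      by_contra h
      apply hij
      rw [hab, haφ, hN _ (by omega), map_zero, map_zero]
    simp only [Set.mem_prod, Set.mem_Icc]
    omega
  have e3 : ∑ᶠ j, ∑ᶠ i, a j (b i (φ (m - j - i) f)) = ∑ᶠ p, u p := (finsum_curry u hfin).symm
  -- sheared family
  let sh : ℤ × ℤ ≃ ℤ × ℤ :=
    { toFun := fun p => (p.1 - p.2, p.2)
      invFun := fun p => (p.1 + p.2, p.2)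
      left_inv := fun p => by ext <;> simp
      right_inv := fun p => by ext <;> simp }
  have hfin2 : (support (u ∘ sh)).Finite := by
    rw [support_comp_eq_preimage]
    exact hfin.preimage (sh.injective.injOn)
  have e4 : ∑ᶠ q, ∑ᶠ i, a (q - i) (b i (φ (m - q) f)) = ∑ᶠ p, (u ∘ sh) p := by
    rw [finsum_curry _ hfin2]
    refine finsum_congr fun q => finsum_congr fun i => ?_
    simp only [hu, sh, comp_apply, Equiv.coe_fn_mk]
    have : m - (q - i) - i = m - q := by ring
    rw [this]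
  rw [e3, e4]
  exact (finsum_comp_equiv sh (f := u)).symm

end Conv

section Inter

variable {k : Type*} [CommRing k] {V V' : Type*} [AddCommGroup V] [Module k V]
  [AddCommGroup V'] [Module k V']

/-- `s` intertwines the two fields -/
def It (s : V →ₗ[k] V') (b : ℤ → V →ₗ[k] V) (b' : ℤ → V' →ₗ[k] V') : Prop :=
  ∀ m f, s (b m f) = b' m (s f)

theorem It.cv' {s : V →ₗ[k] V'} {b φ : ℤ → V →ₗ[k] V} {b' φ' : ℤ → V' →ₗ[k] V'}
    (hb : It s b b') (hφ : It s φ φ') (h : LF b φ) (h' : LF b' φ') :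
    It s (cv b φ) (cv b' φ') := by
  intro m f
  rw [cv_apply h, cv_apply h', map_finsum _ (h m f)]
  exact finsum_congr fun j => by rw [hb, hφ]

theorem It.add {s : V →ₗ[k] V'} {b φ : ℤ → V →ₗ[k] V} {b' φ' : ℤ → V' →ₗ[k] V'}
    (hb : It s b b') (hφ : It s φ φ') : It s (fun m => b m + φ m) (fun m => b' m + φ' m) := by
  intro m f
  rw [LinearMap.add_apply, LinearMap.add_apply, map_add, hb, hφ]

theorem It.smul {s : V →ₗ[k] V'} {b : ℤ → V →ₗ[k] V} {b' : ℤ → V' →ₗ[k] V'} (c : ℤ → k)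
    (hb : It s b b') : It s (fun m => c m • b m) (fun m => c m • b' m) := by
  intro m f
  rw [LinearMap.smul_apply, LinearMap.smul_apply, map_smul, hb]

end Inter

end Pool.Agent.LS.MA
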