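import Mathlib
import Pool.Agent.LS.MA1

/-!
# The Miura fields and their intertwining property (abstract form)
-/

namespace Pool.Agent.LS.MA

open Function

section Miura

variable {k : Type*} [CommRing k] {V : Type*} [AddCommGroup V] [Module k V]

/-- the modes of the coefficients of the product `∏_{a<c} (1 + (α₀ ∂ + b_a))` -/
noncomputable def Wf (β : ℕ → ℤ → V →ₗ[k] V) (α0 : k) : ℕ → ℕ → ℤ → V →ₗ[k] V
  | 0 => fun r m => if r = 0 ∧ m = 0 then LinearMap.id else 0
  | (c + 1) => fun r m =>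
    match r with
    | 0 => Wf β α0 c 0 m
    | (r + 1) => Wf β α0 c (r + 1) m + (-(α0 * ((m : k) + r))) • Wf β α0 c r m
        + cv (β c) (Wf β α0 c r) m

variable (β : ℕ → ℤ → V →ₗ[k] V) (α0 : k)

theorem Wf_succ_succ (c r : ℕ) (m : ℤ) :
    Wf β α0 (c + 1) (r + 1) m = Wf β α0 c (r + 1) m
      + (-(α0 * ((m : k) + r))) • Wf β α0 c r m + cv (β c) (Wf β α0 c r) m := rfl

theorem Wf_zero_right (c : ℕ) (m : ℤ) :
    Wf β α0 c 0 m = if m = 0 then LinearMap.id else 0 := by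
  induction c with
  | zero => simp [Wf]
  | succ c ih => rw [← ih]; rfl

theorem Wf_zero_left (r : ℕ) (m : ℤ) :
    Wf β α0 0 (r + 1) m = 0 := by
  simp [Wf]

structure Heis : Prop where
  tr : ∀ a, Tr (β a)
  cm : ∀ a b, a ≠ b → Cm (β a) (β b)

variable {β}

theorem Wf_good (H : Heis β) (c : ℕ) :
    ∀ r, Tr (Wf β α0 c r) ∧ ∀ a, c ≤ a → Cm (β a) (Wf β α0 c r) := by
  have h0 : ∀ c, Tr (Wf β α0 c 0) ∧ ∀ a, c ≤ a → Cm (β a) (Wf β α0 c 0) := by
    intro c
    refine ⟨fun f => ⟨0, fun m hm => ?_⟩, fun a _ j m f => ?_⟩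
    · rw [Wf_zero_right, if_neg (by omega)]; rfl
    · rw [Wf_zero_right]
      split_ifs
      · rfl
      · rw [LinearMap.zero_apply, LinearMap.zero_apply, map_zero]
  induction c with
  | zero =>
    intro r
    cases r with
    | zero => exact h0 0
    | succ r =>
      refine ⟨fun f => ⟨0, fun m _ => ?_⟩, fun a _ j m f => ?_⟩
      · rw [Wf_zero_left]; rfl
      · rw [Wf_zero_left, LinearMap.zero_apply, LinearMap.zero_apply, map_zero]
  | succ c ih =>
    intro r
    cases r with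
    | zero => exact h0 _
    | succ r =>
      have e : Wf β α0 (c + 1) (r + 1) = fun m => (Wf β α0 c (r + 1) m
          + (-(α0 * ((m : k) + r))) • Wf β α0 c r m) + cv (β c) (Wf β α0 c r) m := by
        funext m; rw [Wf_succ_succ]
      have hLF : LF (β c) (Wf β α0 c r) := LF.mk' (H.tr c) (ih r).1 ((ih r).2 c le_rfl)
      refine ⟨?_, ?_⟩
      · rw [e]
        exact ((ih (r + 1)).1.add (Tr.smul _ (ih r).1)).add
          ((H.tr c).cv' (ih r).1 ((ih r).2 c le_rfl))
      · intro a ha j m f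
        have h1 := (ih (r + 1)).2 a (by omega) j m f
        have h2 := (ih r).2 a (by omega) j m f
        have h3 := Cm.cv' hLF (H.cm a c (by omega)) ((ih r).2 a (by omega)) j m f
        rw [e]
        simp only [LinearMap.add_apply, LinearMap.smul_apply, map_add, map_smul]
        rw [h1, h2, h3]

theorem cv_add_right {b φ ψ : ℤ → V →ₗ[k] V} (h1 : LF b φ) (h2 : LF b ψ) (m : ℤ) (f : V) :
    cv b (fun m => φ m + ψ m) m f = cv b φ m f + cv b ψ m f := by
  have h : LF b (fun m => φ m + ψ m) := by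
    intro m f
    refine ((h1 m f).union (h2 m f)).subset ?_
    intro j hj
    rw [mem_support] at hj
    by_contra h
    rw [Set.mem_union, not_or, notMem_support, notMem_support] at h
    apply hj
    rw [LinearMap.add_apply, map_add, h.1, h.2, add_zero]
  rw [cv_apply h, cv_apply h1, cv_apply h2, ← finsum_add_distrib (h1 m f) (h2 m f)]
  exact finsum_congr fun j => by rw [LinearMap.add_apply, map_add]

theorem LF.smul_left {b φ : ℤ → V →ₗ[k] V} (c : ℤ → k) (h1 : LF b φ) :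
    LF (fun j => c j • b j) φ := by
  intro m f
  refine (h1 m f).subset ?_
  intro j hj
  rw [mem_support] at hj ⊢
  intro h
  apply hj
  rw [LinearMap.smul_apply, h, smul_zero]

theorem LF.smul_right {b φ : ℤ → V →ₗ[k] V} (c : ℤ → k) (h1 : LF b φ) :
    LF b (fun j => c j • φ j) := by
  intro m f
  refine (h1 m f).subset ?_
  intro j hj
  rw [mem_support] at hj ⊢
  intro h
  apply hj
  rw [LinearMap.smul_apply, map_smul, h, smul_zero]

/-- Leibniz rule for the derivative of a product -/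
theorem cv_leibniz {b φ : ℤ → V →ₗ[k] V} (h1 : LF b φ) (α0 : k) (r : k) (m : ℤ) (f : V) :
    (-(α0 * ((m : k) + r + 1))) • cv b φ m f
      = cv b (fun m => (-(α0 * ((m : k) + r))) • φ m) m f
        + cv (fun q => (-(α0 * ((q : k) + 1))) • b q) φ m f := by
  have ha : LF b (fun m => (-(α0 * ((m : k) + r))) • φ m) := h1.smul_right _
  have hb : LF (fun q => (-(α0 * ((q : k) + 1))) • b q) φ := h1.smul_left _
  rw [cv_apply h1, cv_apply ha, cv_apply hb, smul_finsum' _ (h1 m f)]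
  refine Eq.trans ?_ (finsum_add_distrib (ha m f) (hb m f))
  refine finsum_congr fun j => ?_
  rw [LinearMap.smul_apply, LinearMap.smul_apply, map_smul, ← add_smul]
  congr 1
  push_cast
  ring

/-- the quadratic field -/
noncomputable def Tf (β : ℕ → ℤ → V →ₗ[k] V) (α0 : k) (c : ℕ) (q : ℤ) : V →ₗ[k] V :=
  cv (β (c + 1)) (β c) q + (-(α0 * ((q : k) + 1))) • β c q

/-- two steps of the recursion -/
theorem Wf_jump (H : Heis β) (c r : ℕ) (m : ℤ) (f : V) :
    Wf β α0 (c + 2) (r + 2) m f = Wf β α0 c (r + 2) m f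
      + (-(2 * α0 * ((m : k) + r + 1))) • Wf β α0 c (r + 1) m f
      + cv (fun j => β c j + β (c + 1) j) (Wf β α0 c (r + 1)) m f
      + (α0 ^ 2 * ((m : k) + r + 1) * ((m : k) + r)) • Wf β α0 c r m f
      + cv (fun j => β c j + β (c + 1) j)
          (fun m => (-(α0 * ((m : k) + r))) • Wf β α0 c r m) m f
      + cv (Tf β α0 c) (Wf β α0 c r) m f := by
  set φ0 := Wf β α0 c r with h0
  set φ1 := Wf β α0 c (r + 1) with h1
  set φ2 := Wf β α0 c (r + 2) with h2
  obtain ⟨t0, g0⟩ := Wf_good α0 H c r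
  obtain ⟨t1, g1⟩ := Wf_good α0 H c (r + 1)
  rw [← h0] at t0 g0
  rw [← h1] at t1 g1
  have hb : Cm (β (c + 1)) (β c) := H.cm _ _ (by omega)
  have l00 : LF (β c) φ0 := LF.mk' (H.tr c) t0 (g0 c le_rfl)
  have l01 : LF (β c) φ1 := LF.mk' (H.tr c) t1 (g1 c le_rfl)
  have l10 : LF (β (c + 1)) φ0 := LF.mk' (H.tr _) t0 (g0 _ (by omega))
  have l11 : LF (β (c + 1)) φ1 := LF.mk' (H.tr _) t1 (g1 _ (by omega))
  have hbb : LF (β (c + 1)) (β c) := LF.mk' (H.tr _) (H.tr _) hb
  have tb0 : Tr (cv (β c) φ0) := (H.tr c).cv' t0 (g0 c le_rfl)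
  have cb0 : Cm (β (c + 1)) (cv (β c) φ0) := Cm.cv' l00 hb (g0 _ (by omega))
  have l1b0 : LF (β (c + 1)) (cv (β c) φ0) := LF.mk' (H.tr _) tb0 cb0
  -- the function `W (c+1) (r+1)`
  have e1 : Wf β α0 (c + 1) (r + 1) = fun m => (φ1 m + (-(α0 * ((m : k) + r))) • φ0 m)
      + cv (β c) φ0 m := by
    funext m; rw [Wf_succ_succ]
  have l1s : LF (β (c + 1)) (fun m => (-(α0 * ((m : k) + r))) • φ0 m) := l10.smul_right _
  have l1s2 : LF (β (c + 1)) (fun m => φ1 m + (-(α0 * ((m : k) + r))) • φ0 m) :=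
    LF.mk' (H.tr _) (t1.add (Tr.smul _ t0)) (by
      intro j m f
      rw [LinearMap.add_apply, map_add, g1 _ (by omega), LinearMap.add_apply]
      congr 1
      exact (Cm.smul_right (fun m => (-(α0 * ((m : k) + r)))) (g0 (c + 1) (by omega))) j m f)
  have e2 : cv (β (c + 1)) (Wf β α0 (c + 1) (r + 1)) m f
      = cv (β (c + 1)) φ1 m f + cv (β (c + 1)) (fun m => (-(α0 * ((m : k) + r))) • φ0 m) m f
        + cv (cv (β (c + 1)) (β c)) φ0 m f := by
    rw [e1, cv_add_right l1s2 l1b0, cv_add_right l11 l1s,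
      cv_assoc (H.tr _) (H.tr _) t0 hb (g0 _ (by omega)) (g0 _ le_rfl)]
  have e3 : cv (Tf β α0 c) φ0 m f = cv (cv (β (c + 1)) (β c)) φ0 m f
      + cv (fun q => (-(α0 * ((q : k) + 1))) • β c q) φ0 m f := by
    have hc : Cm (cv (β (c + 1)) (β c)) φ0 :=
      (Cm.cv' hbb (g0 _ (by omega)).symm (g0 c le_rfl).symm).symm
    rw [← cv_add_left (LF.mk' ((H.tr _).cv' (H.tr _) hb) t0 hc) (l00.smul_left _)]
    rfl
  have e4 := cv_leibniz l00 α0 (r : k) m f
  have e5 : cv (fun j => β c j + β (c + 1) j) φ1 m f = cv (β c) φ1 m f + cv (β (c + 1)) φ1 m f :=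
    cv_add_left l01 l11 m f
  have e6 : cv (fun j => β c j + β (c + 1) j)
          (fun m => (-(α0 * ((m : k) + r))) • φ0 m) m f
      = cv (β c) (fun m => (-(α0 * ((m : k) + r))) • φ0 m) m f
        + cv (β (c + 1)) (fun m => (-(α0 * ((m : k) + r))) • φ0 m) m f :=
    cv_add_left (l00.smul_right _) (l10.smul_right _) m f
  have e7 : Wf β α0 (c + 2) (r + 2) m f = Wf β α0 (c + 1) (r + 2) m f
      + (-(α0 * ((m : k) + (r + 1 : ℕ)))) • Wf β α0 (c + 1) (r + 1) m f
      + cv (β (c + 1)) (Wf β α0 (c + 1) (r + 1)) m f := by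
    rw [Wf_succ_succ]; rfl
  have e8 : Wf β α0 (c + 1) (r + 2) m f = φ2 m f
      + (-(α0 * ((m : k) + (r + 1 : ℕ)))) • φ1 m f + cv (β c) φ1 m f := by
    rw [Wf_succ_succ]; rfl
  have e9 : Wf β α0 (c + 1) (r + 1) m f = φ1 m f + (-(α0 * ((m : k) + r))) • φ0 m f
      + cv (β c) φ0 m f := by
    rw [Wf_succ_succ]; rfl
  rw [e7, e8, e2, e9, e3, e5, e6, smul_add, smul_add]
  have e10 : (-(α0 * ((m : k) + (r + 1 : ℕ)))) • cv (β c) φ0 m f
      = (-(α0 * ((m : k) + r + 1))) • cv (β c) φ0 m f := by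
    congr 1
    push_cast
    ring
  rw [e10, e4]
  have e11 : (-(2 * α0 * ((m : k) + r + 1))) = (-(α0 * ((m : k) + (r + 1 : ℕ))))
      + (-(α0 * ((m : k) + (r + 1 : ℕ)))) := by
    push_cast; ring
  have e12 : (α0 ^ 2 * ((m : k) + r + 1) * ((m : k) + r)) • φ0 m f
      = (-(α0 * ((m : k) + (r + 1 : ℕ)))) • (-(α0 * ((m : k) + r))) • φ0 m f := by
    rw [smul_smul]
    congr 1
    push_cast; ring
  rw [e11, e12, add_smul]
  abel

theorem Wf_one (H : Heis β) (c : ℕ) (m : ℤ) (f : V) :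
    Wf β α0 (c + 1) 1 m f = Wf β α0 c 1 m f + β c m f := by
  obtain ⟨t0, g0⟩ := Wf_good α0 H c 0
  have l : LF (β c) (Wf β α0 c 0) := LF.mk' (H.tr c) t0 (g0 c le_rfl)
  have e := Wf_succ_succ β α0 c 0 m
  rw [zero_add] at e
  rw [e, LinearMap.add_apply, LinearMap.add_apply, cv_apply l]
  have h1 : ((-(α0 * ((m : k) + (0 : ℕ)))) • Wf β α0 c 0 m) f = 0 := by
    rw [Wf_zero_right]
    split_ifs with h
    · subst h; simp
    · simp
  have h2 : ∑ᶠ j, β c j (Wf β α0 c 0 (m - j) f) = β c m f := by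
    rw [finsum_eq_single _ m]
    · rw [Wf_zero_right, if_pos (by ring)]; rfl
    · intro j hj
      rw [Wf_zero_right, if_neg (by omega), LinearMap.zero_apply, map_zero]
  rw [h1, h2, add_zero]

end Miura

section Inter

variable {k : Type*} [CommRing k] {V V' : Type*} [AddCommGroup V] [Module k V]
  [AddCommGroup V'] [Module k V']

theorem Wf_it_step {β : ℕ → ℤ → V →ₗ[k] V} {β' : ℕ → ℤ → V' →ₗ[k] V'} (α0 : k)
    (H : Heis β) (H' : Heis β') (s : V →ₗ[k] V') (c : ℕ) (hb : It s (β c) (β' c))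
    (h : ∀ r, It s (Wf β α0 c r) (Wf β' α0 c r)) (r : ℕ) :
    It s (Wf β α0 (c + 1) r) (Wf β' α0 (c + 1) r) := by
  cases r with
  | zero => exact h 0
  | succ r =>
    intro m f
    obtain ⟨t0, g0⟩ := Wf_good α0 H c r
    obtain ⟨t1, g1⟩ := Wf_good α0 H' c r
    rw [Wf_succ_succ, Wf_succ_succ]
    simp only [LinearMap.add_apply, LinearMap.smul_apply, map_add, map_smul]
    rw [h, h, hb.cv' (h r) (LF.mk' (H.tr c) t0 (g0 c le_rfl)) (LF.mk' (H'.tr c) t1 (g1 c le_rfl))]

theorem Wf_it {β : ℕ → ℤ → V →ₗ[k] V} {β' : ℕ → ℤ → V' →ₗ[k] V'} (α0 : k)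
    (H : Heis β) (H' : Heis β') (s : V →ₗ[k] V') (i : ℕ)
    (hb : ∀ a, a ≠ i → a ≠ i + 1 → It s (β a) (β' a))
    (hy : It s (fun j => β i j + β (i + 1) j) (fun j => β' i j + β' (i + 1) j))
    (hT : It s (Tf β α0 i) (Tf β' α0 i)) (c : ℕ) (hc : c ≠ i + 1) (r : ℕ) :
    It s (Wf β α0 c r) (Wf β' α0 c r) := by
  have h1 : ∀ c, c ≤ i → ∀ r, It s (Wf β α0 c r) (Wf β' α0 c r) := by
    intro c
    induction c with
    | zero =>
      intro _ r m f
      cases r with
      | zero =>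
        rw [Wf_zero_right, Wf_zero_right]
        split_ifs
        · rfl
        · rw [LinearMap.zero_apply, LinearMap.zero_apply, map_zero]
      | succ r =>
        rw [Wf_zero_left, Wf_zero_left, LinearMap.zero_apply, LinearMap.zero_apply, map_zero]
    | succ c ih =>
      intro hc
      exact Wf_it_step α0 H H' s c (hb c (by omega) (by omega)) (ih (by omega))
  have h2 : ∀ r, It s (Wf β α0 (i + 2) r) (Wf β' α0 (i + 2) r) := by
    intro r
    match r with
    | 0 =>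
      intro m f
      rw [Wf_zero_right, Wf_zero_right]
      split_ifs
      · rfl
      · rw [LinearMap.zero_apply, LinearMap.zero_apply, map_zero]
    | 1 =>
      intro m f
      rw [Wf_one α0 H, Wf_one α0 H, Wf_one α0 H', Wf_one α0 H', map_add, map_add,
        h1 i le_rfl 1, add_assoc, add_assoc]
      congr 1
      have := hy m f
      rw [LinearMap.add_apply, LinearMap.add_apply, map_add] at this
      exact this
    | (r + 2) =>
      intro m f
      obtain ⟨t0, g0⟩ := Wf_good α0 H i r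
      obtain ⟨t1, g1⟩ := Wf_good α0 H i (r + 1)
      obtain ⟨t0', g0'⟩ := Wf_good α0 H' i r
      obtain ⟨t1', g1'⟩ := Wf_good α0 H' i (r + 1)
      have ty : Tr (fun j => β i j + β (i + 1) j) := (H.tr _).add (H.tr _)
      have ty' : Tr (fun j => β' i j + β' (i + 1) j) := (H'.tr _).add (H'.tr _)
      have hbb : Cm (β (i + 1)) (β i) := H.cm _ _ (by omega)
      have hbb' : Cm (β' (i + 1)) (β' i) := H'.cm _ _ (by omega)
      have lbb : LF (β (i + 1)) (β i) := LF.mk' (H.tr _) (H.tr _) hbb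
      have lbb' : LF (β' (i + 1)) (β' i) := LF.mk' (H'.tr _) (H'.tr _) hbb'
      have tT : Tr (Tf β α0 i) := ((H.tr _).cv' (H.tr _) hbb).add (Tr.smul _ (H.tr _))
      have tT' : Tr (Tf β' α0 i) := ((H'.tr _).cv' (H'.tr _) hbb').add (Tr.smul _ (H'.tr _))
      have cT : Cm (Tf β α0 i) (Wf β α0 i r) :=
        Cm.add (Cm.cv' lbb (g0 _ (by omega)).symm (g0 _ le_rfl).symm).symm
          ((Cm.smul_right _ (g0 i le_rfl).symm).symm)
      have cT' : Cm (Tf β' α0 i) (Wf β' α0 i r) :=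
        Cm.add (Cm.cv' lbb' (g0' _ (by omega)).symm (g0' _ le_rfl).symm).symm
          ((Cm.smul_right _ (g0' i le_rfl).symm).symm)
      rw [Wf_jump α0 H, Wf_jump α0 H']
      simp only [map_add, map_smul]
      rw [h1 i le_rfl, h1 i le_rfl, h1 i le_rfl,
        hy.cv' (h1 i le_rfl (r + 1)) (LF.mk' ty t1 (Cm.add (g1 _ le_rfl) (g1 _ (by omega))))
          (LF.mk' ty' t1' (Cm.add (g1' _ le_rfl) (g1' _ (by omega)))),
        hT.cv' (h1 i le_rfl r) (LF.mk' tT t0 cT) (LF.mk' tT' t0' cT'),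
        hy.cv' (It.smul _ (h1 i le_rfl r))
          ((LF.mk' ty t0 (Cm.add (g0 _ le_rfl) (g0 _ (by omega)))).smul_right _)
          ((LF.mk' ty' t0' (Cm.add (g0' _ le_rfl) (g0' _ (by omega)))).smul_right _)]
  have h3 : ∀ d, ∀ r, It s (Wf β α0 (i + 2 + d) r) (Wf β' α0 (i + 2 + d) r) := by
    intro d
    induction d with
    | zero => exact h2
    | succ d ih =>
      exact Wf_it_step α0 H H' s (i + 2 + d) (hb _ (by omega) (by omega)) ih
  rcases Nat.lt_or_ge i c with h | h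
  · obtain ⟨d, rfl⟩ : ∃ d, c = i + 2 + d := ⟨c - (i + 2), by omega⟩
    exact h3 d r
  · exact h1 c h r

end Inter

end Pool.Agent.LS.MA
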