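import Mathlib
import Pool.Agent.LS.MA2

/-!
# The quadratic field commutes with the residue of the vertex operator
-/

namespace Pool.Agent.LS.MA

open Function

section Count

variable {k : Type*} [CommRing k]

/-- `[m ≤ j] - [0 < j]` -/
def stp (k : Type*) [CommRing k] (m j : ℤ) : k :=
  (if m ≤ j then (1 : k) else 0) - (if 0 < j then 1 else 0)

theorem stp_finite {V : Type*} [AddCommGroup V] [Module k V] (m : ℤ) (v : V) :
    (support fun j : ℤ => stp k m j • v).Finite := by
  apply (Set.finite_Icc (min m 0) (max m 0)).subset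
  intro j hj
  rw [mem_support, stp] at hj
  rw [Set.mem_Icc]
  by_contra h
  apply hj
  by_cases h1 : 0 < j
  · rw [if_pos h1, if_pos (by omega), sub_self, zero_smul]
  · rw [if_neg h1, if_neg (by omega), sub_self, zero_smul]

theorem stp_sum {V : Type*} [AddCommGroup V] [Module k V] (m : ℤ) (v : V) :
    ∑ᶠ j, stp k m j • v = (1 - (m : k)) • v := by
  have hst : ∀ m : ℤ, ∑ᶠ j, stp k (m + 1) j • v = (∑ᶠ j, stp k m j • v) - v := by
    intro m
    have h1 : ∀ j, stp k (m + 1) j • v = stp k m j • v - (if j = m then v else 0) := by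
      intro j
      unfold stp
      by_cases h : j = m
      · subst h
        rw [if_neg (by omega), if_pos le_rfl, if_pos rfl, sub_smul, sub_smul, one_smul, zero_smul]
        abel
      · rw [if_neg h, sub_zero]
        by_cases h2 : m ≤ j
        · rw [if_pos h2, if_pos (by omega)]
        · rw [if_neg h2, if_neg (by omega)]
    rw [finsum_congr h1, finsum_sub_distrib (stp_finite m v)]
    · congr 1
      rw [finsum_eq_single _ m (fun j hj => if_neg hj), if_pos rfl]
    · apply (Set.finite_singleton m).subset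
      intro j hj
      rw [mem_support] at hj
      rw [Set.mem_singleton_iff]
      by_contra h
      exact hj (if_neg h)
  have h0 : ∑ᶠ j, stp k 1 j • v = 0 := by
    apply finsum_eq_zero_of_forall_eq_zero
    intro j
    unfold stp
    by_cases h : 0 < j
    · rw [if_pos h, if_pos (by omega), sub_self, zero_smul]
    · rw [if_neg h, if_neg (by omega), sub_self, zero_smul]
  have key : ∀ d : ℤ, ∑ᶠ j, stp k (1 + d) j • v = (-(d : k)) • v := by
    intro d
    induction d using Int.induction_on with
    | zero => simpa using h0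
    | succ d ih =>
      rw [← add_assoc, hst, ih]
      push_cast
      module
    | pred d ih =>
      have h := hst (1 + (-d - 1))
      have e : (1 + (-(d : ℤ) - 1) + 1) = 1 + -d := by ring
      rw [e, ih] at h
      rw [← sub_eq_zero] at h ⊢
      rw [← neg_eq_zero, ← h]
      push_cast
      module
  have h := key (m - 1)
  have e : 1 + (m - 1) = m := by ring
  rw [e] at h
  rw [h]
  push_cast
  module

end Count

section Tf

variable {k : Type*} [CommRing k] {V : Type*} [AddCommGroup V] [Module k V]

/-- normally ordered product of `b_a` and `S`, mode `R` -/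
noncomputable def nn (β β' : ℕ → ℤ → V →ₗ[k] V) (S : ℤ → V →ₗ[k] V) (a : ℕ) (R : ℤ) (f : V)
    (j : ℤ) : V :=
  if 0 < j then S (R - j) (β a j f) else β' a j (S (R - j) f)

theorem nn_finite {β β' : ℕ → ℤ → V →ₗ[k] V} {S : ℤ → V →ₗ[k] V} (hS : Tr S) (a : ℕ)
    (hβ : Tr (β a)) (R : ℤ) (f : V) : (support (nn β β' S a R f)).Finite := by
  obtain ⟨N, hN⟩ := hβ f
  obtain ⟨M, hM⟩ := hS f
  apply (Set.finite_Icc (min (R - M) 0) (max N 0)).subset
  intro j hj
  rw [mem_support, nn] at hj
  rw [Set.mem_Icc]
  split_ifs at hj with h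
  · have : j ≤ N := by
      by_contra h1
      apply hj
      rw [hN j (by omega), map_zero]
    omega
  · have : R - M ≤ j := by
      by_contra h1
      apply hj
      rw [hM (R - j) (by omega), map_zero]
    omega

theorem Tf_it {β β' : ℕ → ℤ → V →ₗ[k] V} {S : ℤ → V →ₗ[k] V} (ν : k) (i : ℕ)
    (H : Heis β) (H' : Heis β') (hS : Tr S)
    (hi : ∀ m r f, β' i m (S r f) = S r (β i m f) + ν • S (r + m) f)
    (hi1 : ∀ m r f, β' (i + 1) m (S r f) = S r (β (i + 1) m f) - ν • S (r + m) f)
    (h2 : ∀ (R : ℤ) f, ∑ᶠ j, nn β β' S i R f j - ∑ᶠ j, nn β β' S (i + 1) R f j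
      = (2 * ν - R) • S R f) :
    It (S 1) (Tf β (1 - ν) i) (Tf β' (1 - ν) i) := by
  intro m f
  have hbb : Cm (β (i + 1)) (β i) := H.cm _ _ (by omega)
  have hbb' : Cm (β' (i + 1)) (β' i) := H'.cm _ _ (by omega)
  have lbb : LF (β (i + 1)) (β i) := LF.mk' (H.tr _) (H.tr _) hbb
  have lbb' : LF (β' (i + 1)) (β' i) := LF.mk' (H'.tr _) (H'.tr _) hbb'
  unfold Tf
  rw [LinearMap.add_apply, LinearMap.add_apply, LinearMap.smul_apply, LinearMap.smul_apply,
    map_add, map_smul, cv_apply lbb, cv_apply lbb', map_finsum _ (lbb m f), hi]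
  set R : ℤ := 1 + m with hR
  set A := ∑ᶠ j, S 1 (β (i + 1) j (β i (m - j) f)) with hA
  set B := ∑ᶠ j, β' (i + 1) j (β' i (m - j) (S 1 f)) with hB
  have f0 := nn_finite (β' := β') hS i (H.tr i) R f
  have f1 := nn_finite (β' := β') hS (i + 1) (H.tr (i + 1)) R f
  have f0' : (support fun j => nn β β' S i R f (m - j)).Finite := by
    have : (fun j => nn β β' S i R f (m - j)) = (nn β β' S i R f) ∘ (Equiv.subLeft m) := by
      funext j; simp [Equiv.subLeft]
    rw [this, support_comp_eq_preimage]
    exact f0.preimage (Equiv.injective _).injOn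
  have e0 : ∑ᶠ j, nn β β' S i R f (m - j) = ∑ᶠ j, nn β β' S i R f j := by
    have := finsum_comp_equiv (Equiv.subLeft m) (f := nn β β' S i R f)
    rw [← this]
    exact finsum_congr fun j => by simp [Equiv.subLeft]
  have hD : ∀ j, β' (i + 1) j (β' i (m - j) (S 1 f)) = S 1 (β (i + 1) j (β i (m - j) f))
      + ((-ν) • nn β β' S i R f (m - j) + (ν • nn β β' S (i + 1) R f j
        + stp k m j • (ν ^ 2 • S R f))) := by
    intro j
    have c1 : (1 : ℤ) + (m - j) = R - j := by rw [hR]; ring
    rw [hi, map_add, hi1, map_smul, c1]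
    have g1 : -(ν • S (1 + j) (β i (m - j) f)) = (-ν) • nn β β' S i R f (m - j)
        + (if m ≤ j then (1 : k) else 0) • (ν ^ 2 • S R f) := by
      have c2 : R - (m - j) = 1 + j := by rw [hR]; ring
      unfold nn
      by_cases h : m ≤ j
      · rw [if_neg (by omega), if_pos h, c2, hi]
        have c3 : 1 + j + (m - j) = R := by rw [hR]; ring
        rw [c3]
        module
      · rw [if_pos (by omega), if_neg h, c2]
        module
    have g2 : ν • β' (i + 1) j (S (R - j) f) = ν • nn β β' S (i + 1) R f j
        - (if 0 < j then (1 : k) else 0) • (ν ^ 2 • S R f) := by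
      unfold nn
      by_cases h : 0 < j
      · rw [if_pos h, if_pos h, hi1]
        have c3 : R - j + j = R := by ring
        rw [c3]
        module
      · rw [if_neg h, if_neg h]
        module
    rw [sub_eq_add_neg, g1, g2, stp, sub_smul]
    abel
  have hsum : B = A + ((-ν) • (∑ᶠ j, nn β β' S i R f j)
      + (ν • (∑ᶠ j, nn β β' S (i + 1) R f j) + (1 - (m : k)) • (ν ^ 2 • S R f))) := by
    have fA : (support fun j => S 1 (β (i + 1) j (β i (m - j) f))).Finite := by
      refine (lbb m f).subset ?_
      intro j hj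
      rw [mem_support] at hj ⊢
      intro h
      apply hj
      rw [h, map_zero]
    have fa : (support fun j => (-ν) • nn β β' S i R f (m - j)).Finite := by
      refine f0'.subset ?_
      intro j hj
      rw [mem_support] at hj ⊢
      intro h
      apply hj
      rw [h, smul_zero]
    have fb : (support fun j => ν • nn β β' S (i + 1) R f j).Finite := by
      refine f1.subset ?_
      intro j hj
      rw [mem_support] at hj ⊢
      intro h
      apply hj
      rw [h, smul_zero]
    have fc := stp_finite (k := k) m (ν ^ 2 • S R f)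
    have fbc : (support fun j => ν • nn β β' S (i + 1) R f j
        + stp k m j • (ν ^ 2 • S R f)).Finite :=
      (fb.union fc).subset (support_add _ _)
    have fabc : (support fun j => (-ν) • nn β β' S i R f (m - j)
        + (ν • nn β β' S (i + 1) R f j + stp k m j • (ν ^ 2 • S R f))).Finite :=
      (fa.union fbc).subset (support_add _ _)
    rw [hB, hA, finsum_congr hD, finsum_add_distrib fA fabc, finsum_add_distrib fa fbc,
      finsum_add_distrib fb fc, stp_sum, ← smul_finsum' _ f0', ← smul_finsum' _ f1, e0]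
  have h3 := h2 R f
  rw [hsum]
  have h4 : (-ν) • (∑ᶠ j, nn β β' S i R f j) + ν • (∑ᶠ j, nn β β' S (i + 1) R f j)
      = (-ν) • ((2 * ν - R) • S R f) := by
    rw [← h3]
    module
  have h5 : A + ((-ν) • (∑ᶠ j, nn β β' S i R f j)
      + (ν • (∑ᶠ j, nn β β' S (i + 1) R f j) + (1 - (m : k)) • (ν ^ 2 • S R f)))
      = A + ((-ν) • ((2 * ν - R) • S R f) + (1 - (m : k)) • (ν ^ 2 • S R f)) := by
    rw [← h4]
    abel
  rw [h5, hR]
  push_cast
  module

end Tf

end Pool.Agent.LS.MA
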