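import Mathlib
import Pool.Agent.LS.MA3
import Pool.Agent.LS.Multi

/-!
# The Fock space of `gl_∞` and its vertex operators
-/

namespace Pool.Agent.LS.MA

open Function MvPolynomial

set_option linter.unusedSectionVars false

section Fock

variable {k : Type*} [CommRing k] [Algebra ℚ k]

/-- the Fock space; `X (a, n)` is the creation mode `b_{a,-(n+1)}` -/
abbrev FG (k : Type*) [CommRing k] := MvPolynomial (ℕ × ℕ) k

/-- the modes of the free bosons -/
noncomputable def bm (ν : k) (t : ℕ → k) (a : ℕ) : ℤ → (FG k →ₗ[k] FG k)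
  | Int.ofNat 0 => t a • LinearMap.id
  | Int.ofNat (n + 1) => (ν * ((n : k) + 1)) • (pderiv (a, n) : Derivation k (FG k) (FG k)).toLinearMap
  | Int.negSucc n => LinearMap.mulLeft k (X (a, n))

theorem bm_zero (ν : k) (t : ℕ → k) (a : ℕ) (f : FG k) : bm ν t a 0 f = t a • f := rfl

theorem bm_pos (ν : k) (t : ℕ → k) (a n : ℕ) (f : FG k) :
    bm ν t a (n + 1 : ℕ) f = (ν * ((n : k) + 1)) • pderiv (a, n) f := rfl

theorem bm_neg (ν : k) (t : ℕ → k) (a n : ℕ) (f : FG k) :
    bm ν t a (Int.negSucc n) f = X (a, n) * f := rfl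

theorem pderiv_comm (a b : ℕ × ℕ) (f : FG k) : pderiv a (pderiv b f) = pderiv b (pderiv a f) := by
  have h : ⁅(pderiv a : Derivation k (FG k) (FG k)), (pderiv b : Derivation k (FG k) (FG k))⁆ = 0 := by
    apply MvPolynomial.derivation_ext
    intro i
    rw [Derivation.commutator_apply, pderiv_X, pderiv_X, Derivation.zero_apply]
    by_cases h1 : i = b
    · by_cases h2 : i = a
      · subst h1 h2; simp
      · subst h1; simp [h2]
    · by_cases h2 : i = a
      · subst h2; simp [h1]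
      · simp [h1, h2]
  have h3 := congrArg (fun D => D f) h
  simp only [Derivation.commutator_apply, Derivation.zero_apply] at h3
  exact sub_eq_zero.1 h3

theorem bm_tr (ν : k) (t : ℕ → k) (a : ℕ) : Tr (bm ν t a) := by
  intro f
  refine ⟨(f.vars.sup (fun p => p.2) : ℕ) + 1, fun m hm => ?_⟩
  obtain ⟨n, rfl⟩ : ∃ n : ℕ, m = ((n + 1 : ℕ) : ℤ) := ⟨(m - 1).toNat, by omega⟩
  rw [bm_pos]
  have h : (a, n) ∉ f.vars := by
    intro h
    have := Finset.le_sup (f := fun p : ℕ × ℕ => p.2) h
    simp only at this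
    omega
  rw [pderiv_eq_zero_of_notMem_vars h, smul_zero]

theorem bm_cm (ν : k) (t : ℕ → k) (a b : ℕ) (hab : a ≠ b) : Cm (bm ν t a) (bm ν t b) := by
  intro j m f
  match j, m with
  | Int.ofNat 0, m =>
    show t a • (bm ν t b m f) = bm ν t b m (t a • f)
    rw [map_smul]
  | j, Int.ofNat 0 =>
    show bm ν t a j (t b • f) = t b • (bm ν t a j f)
    rw [map_smul]
  | Int.ofNat (n + 1), Int.ofNat (p + 1) =>
    show (ν * ((n : k) + 1)) • pderiv (a, n) ((ν * ((p : k) + 1)) • pderiv (b, p) f)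
      = (ν * ((p : k) + 1)) • pderiv (b, p) ((ν * ((n : k) + 1)) • pderiv (a, n) f)
    rw [Derivation.map_smul, Derivation.map_smul, smul_comm, pderiv_comm]
  | Int.ofNat (n + 1), Int.negSucc p =>
    show (ν * ((n : k) + 1)) • pderiv (a, n) (X (b, p) * f)
      = X (b, p) * ((ν * ((n : k) + 1)) • pderiv (a, n) f)
    rw [Derivation.leibniz, pderiv_X]
    have : (Pi.single (a, n) (1 : FG k) : ℕ × ℕ → FG k) (b, p) = 0 := by
      rw [Pi.single_apply, if_neg]
      intro h
      exact hab (by rw [Prod.mk.injEq] at h; exact h.1.symm)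
    rw [this, smul_zero, add_zero, smul_eq_mul, mul_smul_comm]
  | Int.negSucc n, Int.ofNat (p + 1) =>
    show X (a, n) * ((ν * ((p : k) + 1)) • pderiv (b, p) f)
      = (ν * ((p : k) + 1)) • pderiv (b, p) (X (a, n) * f)
    rw [Derivation.leibniz, pderiv_X]
    have : (Pi.single (b, p) (1 : FG k) : ℕ × ℕ → FG k) (a, n) = 0 := by
      rw [Pi.single_apply, if_neg]
      intro h
      exact hab (by rw [Prod.mk.injEq] at h; exact h.1)
    rw [this, smul_zero, add_zero, smul_eq_mul, mul_smul_comm]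
  | Int.negSucc n, Int.negSucc p =>
    show X (a, n) * (X (b, p) * f) = X (b, p) * (X (a, n) * f)
    ring

theorem bm_heis (ν : k) (t : ℕ → k) : Heis (bm ν t) := ⟨bm_tr ν t, bm_cm ν t⟩

/-- `P_m` of the differences `e_{i,n} - e_{i+1,n}` -/
noncomputable def Pg (i : ℕ) (m : ℤ) : FG k :=
  aeval (fun n => (X (i, n) - X (i + 1, n) : FG k)) (PZ m : MvPolynomial ℕ k)

/-- the shift `e_{a,n+1} ↦ e_{a,n+1} - c_a u^{n+1}` -/
noncomputable def tauG (c : ℕ → k) : FG k →ₐ[k] Polynomial (FG k) :=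
  aeval (fun a => Polynomial.C (X a) - Polynomial.C (C (c a.1)) * Polynomial.X ^ (a.2 + 1))

/-- `u^a ↦ P_{a-m}` -/
noncomputable def sigG (i : ℕ) (m : ℤ) : Polynomial (FG k) →ₗ[FG k] FG k :=
  Polynomial.lsum (fun a => (Pg i (a - m) : FG k) • LinearMap.id)

/-- the modes of the vertex operator -/
noncomputable def SGf (c : ℕ → k) (i : ℕ) (m : ℤ) (f : FG k) : FG k := sigG i m (tauG c f)

theorem sigG_monomial (i : ℕ) (m : ℤ) (a : ℕ) (c : FG k) :
    sigG i m (Polynomial.monomial a c) = Pg i (a - m) * c := by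
  rw [sigG, Polynomial.lsum_apply, Polynomial.sum_monomial_index]
  · rfl
  · simp

theorem sigG_X_pow_mul (i : ℕ) (m : ℤ) (j : ℕ) (p : Polynomial (FG k)) :
    sigG i m (Polynomial.X ^ j * p) = sigG i (m - j) p := by
  induction p using Polynomial.induction_on' with
  | add p q hp hq => rw [mul_add, map_add, map_add, hp, hq]
  | monomial a c =>
    rw [Polynomial.X_pow_mul, Polynomial.monomial_mul_X_pow, sigG_monomial, sigG_monomial]
    have : ((a + j : ℕ) : ℤ) - m = a - (m - j) := by push_cast; ring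
    rw [this]

theorem tauG_C (c : ℕ → k) (a : k) : tauG c (C a) = Polynomial.C (C a) := by
  rw [← algebraMap_eq, AlgHom.commutes]
  rfl

theorem SGf_add (c : ℕ → k) (i : ℕ) (m : ℤ) (f g : FG k) :
    SGf c i m (f + g) = SGf c i m f + SGf c i m g := by
  simp [SGf, map_add]

theorem SGf_C_mul (c : ℕ → k) (i : ℕ) (m : ℤ) (a : k) (f : FG k) :
    SGf c i m (C a * f) = C a * SGf c i m f := by
  unfold SGf
  rw [map_mul, tauG_C, ← Polynomial.smul_eq_C_mul, map_smul, smul_eq_mul]

/-- the modes of the vertex operator, as linear maps -/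
noncomputable def SG (c : ℕ → k) (i : ℕ) (m : ℤ) : FG k →ₗ[k] FG k where
  toFun := SGf c i m
  map_add' := SGf_add c i m
  map_smul' := fun a f => by
    rw [smul_eq_C_mul, SGf_C_mul, ← smul_eq_C_mul]; rfl

theorem SG_C (c : ℕ → k) (i : ℕ) (m : ℤ) (a : k) :
    SG c i m (C a) = C a * Pg i (-m) := by
  show sigG i m (tauG c (C a)) = _
  rw [tauG_C, ← Polynomial.monomial_zero_left, sigG_monomial, mul_comm]
  have : ((0 : ℕ) : ℤ) - m = -m := by simp
  rw [this]

theorem SG_X_mul (c : ℕ → k) (i : ℕ) (m : ℤ) (a : ℕ × ℕ) (f : FG k) :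
    SG c i m (X a * f) = X a * SG c i m f - c a.1 • SG c i (m - (a.2 + 1)) f := by
  show sigG i m (tauG c (X a * f)) = X a * sigG i m (tauG c f)
    - c a.1 • sigG i (m - (a.2 + 1)) (tauG c f)
  rw [map_mul]
  have h : tauG c (X a) = Polynomial.C (X a)
      - Polynomial.C (C (c a.1)) * Polynomial.X ^ (a.2 + 1) := by
    rw [tauG, aeval_X]
  rw [h, sub_mul, map_sub, mul_assoc, ← Polynomial.smul_eq_C_mul, ← Polynomial.smul_eq_C_mul,
    map_smul, map_smul, sigG_X_pow_mul, smul_eq_mul, smul_eq_mul, smul_eq_C_mul]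
  push_cast
  rfl

theorem Pg_neg (i : ℕ) {m : ℤ} (h : m < 0) : (Pg i m : FG k) = 0 := by
  rw [Pg, PZ_neg h, map_zero]

theorem SG_tr (c : ℕ → k) (i : ℕ) : Tr (SG c i) := by
  intro f
  induction f using MvPolynomial.induction_on with
  | C a => exact ⟨0, fun m hm => by rw [SG_C, Pg_neg i (by omega), mul_zero]⟩
  | add f g hf hg =>
    obtain ⟨N, hN⟩ := hf
    obtain ⟨M, hM⟩ := hg
    exact ⟨max N M, fun m hm => by rw [map_add, hN m (by omega), hM m (by omega), add_zero]⟩
  | mul_X f a hf =>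
    obtain ⟨N, hN⟩ := hf
    refine ⟨N + a.2 + 1, fun m hm => ?_⟩
    rw [mul_comm, SG_X_mul, hN m (by omega), hN _ (by omega), mul_zero, smul_zero, sub_zero]

/-- the sign `[a = i] - [a = i + 1]` -/
def sg (k : Type*) [CommRing k] (i a : ℕ) : k :=
  (if a = i then (1 : k) else 0) - (if a = i + 1 then 1 else 0)

theorem pderiv_Pg (i a n : ℕ) (m : ℤ) :
    ((n : k) + 1) • pderiv (a, n) (Pg i m : FG k) = sg k i a • Pg i (m - (n + 1)) := by
  have h1 : ∀ p : MvPolynomial ℕ k,
      pderiv (a, n) (aeval (fun n => (X (i, n) - X (i + 1, n) : FG k)) p)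
        = sg k i a • aeval (fun n => (X (i, n) - X (i + 1, n) : FG k)) (pderiv n p) := by
    intro p
    induction p using MvPolynomial.induction_on with
    | C c => simp
    | add p q hp hq => rw [map_add, map_add, hp, hq, map_add, map_add, smul_add]
    | mul_X p j hp =>
      rw [map_mul, Derivation.leibniz, Derivation.leibniz, hp, map_add, aeval_X]
      simp only [smul_eq_mul, map_mul, aeval_X, pderiv_X, map_sub]
      by_cases h : j = n
      · subst h
        have e1 : (Pi.single (a, j) (1 : FG k) : ℕ × ℕ → FG k) (i, j) = if a = i then 1 else 0 := by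
          rw [Pi.single_apply]
          simp [eq_comm]
        have e2 : (Pi.single (a, j) (1 : FG k) : ℕ × ℕ → FG k) (i + 1, j)
            = if a = i + 1 then 1 else 0 := by
          rw [Pi.single_apply]
          simp [eq_comm]
        have e3 : (Pi.single j (1 : MvPolynomial ℕ k) : ℕ → MvPolynomial ℕ k) j = 1 := by simp
        rw [e1, e2, e3, map_one, sg]
        simp only [smul_eq_C_mul, map_sub]
        split_ifs <;> simp <;> try ring
      · have e1 : (Pi.single (a, n) (1 : FG k) : ℕ × ℕ → FG k) (i, j) = 0 := by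
          rw [Pi.single_apply, if_neg]
          intro h1
          exact h (by rw [Prod.mk.injEq] at h1; exact h1.2)
        have e2 : (Pi.single (a, n) (1 : FG k) : ℕ × ℕ → FG k) (i + 1, j) = 0 := by
          rw [Pi.single_apply, if_neg]
          intro h1
          exact h (by rw [Prod.mk.injEq] at h1; exact h1.2)
        have e3 : (Pi.single n (1 : MvPolynomial ℕ k) : ℕ → MvPolynomial ℕ k) j = 0 := by
          rw [Pi.single_apply, if_neg h]
        rw [e1, e2, e3, map_zero]
        simp only [smul_eq_C_mul]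
        ring
  have h2 : ((n : k) + 1) • pderiv n (PZ m : MvPolynomial ℕ k) = PZ (m - (n + 1)) := by
    rw [deriv_PZ (pderiv n) m (m.toNat + n + 1) (by omega), Finset.sum_eq_single n]
    · rw [pderiv_X, Pi.single_eq_same, mul_one, smul_eq_C_mul, ← mul_assoc, ← C_mul]
      have hj : ((n : k) + 1) * algebraMap ℚ k (1 / (n + 1)) = 1 := by
        have h1 : (n : k) + 1 = algebraMap ℚ k ((n : ℚ) + 1) := by simp
        rw [h1, ← map_mul]
        have h2 : ((n : ℚ) + 1) * (1 / ((n : ℚ) + 1)) = 1 := by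
          have : ((n : ℚ) + 1) ≠ 0 := by positivity
          field_simp
        rw [h2, map_one]
      rw [hj, C_1, one_mul]
      congr 1
      ring
    · intro b _ hb
      rw [pderiv_X, Pi.single_apply, if_neg hb, mul_zero, zero_mul]
    · intro h
      rw [Finset.mem_range] at h
      omega
  rw [Pg, h1, smul_comm, ← map_smul, h2]
  rfl

theorem SG_bm (ν : k) (c : ℕ → k) (i : ℕ) (hc : ∀ a, c a = ν * sg k i a) (a : ℕ) (m r : ℤ)
    (f : FG k) :
    bm ν c a m (SG c i r f) = SG c i r (bm ν 0 a m f) + c a • SG c i (r + m) f := by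
  match m with
  | Int.ofNat 0 =>
    show c a • SG c i r f = SG c i r ((0 : ℕ → k) a • f) + c a • SG c i (r + 0) f
    rw [Pi.zero_apply, zero_smul, map_zero, zero_add, add_zero]
  | Int.negSucc n =>
    rw [bm_neg, bm_neg, SG_X_mul]
    have : r + Int.negSucc n = r - (n + 1) := by rw [Int.negSucc_eq]; ring
    rw [this]
    simp
  | Int.ofNat (n + 1) =>
    have e : (Int.ofNat (n + 1)) = ((n + 1 : ℕ) : ℤ) := rfl
    rw [e, bm_pos, bm_pos]
    induction f using MvPolynomial.induction_on generalizing r with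
    | C b =>
      rw [pderiv_C, smul_zero, map_zero, zero_add, SG_C, SG_C, Derivation.leibniz, pderiv_C,
        smul_zero, add_zero, hc a]
      have h := pderiv_Pg (k := k) i a n (-r)
      have e2 : -(r + ((n + 1 : ℕ) : ℤ)) = -r - (n + 1) := by push_cast; ring
      rw [e2, smul_eq_mul, mul_smul, mul_smul, ← mul_smul_comm, ← mul_smul_comm, h, mul_smul_comm,
        mul_smul_comm]
    | add f g hf hg =>
      rw [map_add, map_add, smul_add, hf, hg, map_add, smul_add, map_add, map_add, smul_add]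
      abel
    | mul_X f b hf =>
      have e3 : r - (b.2 + 1) + ((n + 1 : ℕ) : ℤ) = r + ((n + 1 : ℕ) : ℤ) - (b.2 + 1) := by ring
      have h1 := hf r
      have h2 := hf (r - (b.2 + 1))
      rw [e3] at h2
      rw [mul_comm f (X b), SG_X_mul, SG_X_mul, map_sub, Derivation.map_smul, Derivation.leibniz,
        Derivation.leibniz, smul_sub, smul_add, smul_add, smul_eq_mul, smul_eq_mul, smul_eq_mul,
        smul_eq_mul, map_add, ← mul_smul_comm, h1, smul_comm _ (c b.1), h2,
        ← mul_smul_comm (ν * ((n : k) + 1)) (X b) (pderiv (a, n) f), SG_X_mul, pderiv_X]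
      by_cases h : b = (a, n)
      · subst h
        rw [Pi.single_eq_same, mul_one, mul_one, (SG c i r).map_smul (ν * ((n : k) + 1)) f]
        simp only [smul_eq_C_mul, map_mul]
        ring
      · rw [Pi.single_apply, if_neg h, mul_zero, mul_zero, smul_zero, map_zero]
        simp only [smul_eq_C_mul, map_mul]
        ring

/-- the modes of the difference `b_i - b_{i+1}` -/
noncomputable def dx (ν : k) (i : ℕ) (j : ℕ) (f : FG k) : FG k :=
  (ν * ((j : k) + 1)) • (pderiv (i, j) f - pderiv (i + 1, j) f)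

theorem dx_X_mul (ν : k) (i j : ℕ) (a : ℕ × ℕ) (f : FG k) :
    dx ν i j (X a * f) = X a * dx ν i j f
      + (if j = a.2 then (ν * sg k i a.1) * ((a.2 : k) + 1) else 0) • f := by
  unfold dx
  rw [Derivation.leibniz, Derivation.leibniz, pderiv_X, pderiv_X]
  have e : ∀ b : ℕ, (Pi.single (b, j) (1 : FG k) : ℕ × ℕ → FG k) a
      = if j = a.2 then (if a.1 = b then 1 else 0) else 0 := by
    intro b
    rw [Pi.single_apply]
    by_cases h : j = a.2
    · rw [if_pos h]
      by_cases h2 : a.1 = b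
      · rw [if_pos h2, if_pos]
        exact Prod.ext h2 h.symm
      · rw [if_neg h2, if_neg]
        intro h3
        exact h2 (by rw [h3])
    · rw [if_neg h, if_neg]
      intro h3
      exact h (by rw [h3])
  rw [e, e]
  by_cases h : j = a.2
  · subst h
    rw [if_pos rfl, if_pos rfl, if_pos rfl, sg]
    simp only [smul_eq_C_mul, smul_eq_mul, map_mul, map_sub]
    split_ifs <;> simp <;> ring
  · rw [if_neg h, if_neg h, if_neg h]
    simp only [smul_eq_C_mul, smul_eq_mul, map_mul]
    simp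
    ring

theorem Pg_euler (i : ℕ) (m : ℤ) (N : ℕ) (hN : m ≤ N) :
    (m : k) • (Pg i m : FG k) = ∑ j ∈ Finset.range N, (X (i, j) - X (i + 1, j)) * Pg i (m - (j + 1)) := by
  have h := congrArg (aeval (fun n => (X (i, n) - X (i + 1, n) : FG k))) (euler (K := k) m N hN)
  rw [map_mul, map_sum, aeval_C, Algebra.algebraMap_eq_smul_one, smul_mul_assoc, one_mul] at h
  unfold Pg
  rw [h]
  refine Finset.sum_congr rfl fun j _ => ?_
  rw [map_mul, aeval_X]
  congr 3
  ring

theorem SG_euler (ν : k) (c : ℕ → k) (i : ℕ) (hc : ∀ a, c a = ν * sg k i a) (f : FG k) :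
    ∀ r : ℤ, ∃ N0 : ℕ, ∀ N, N0 ≤ N → (-(r : k)) • SG c i r f
      = ∑ j ∈ Finset.range N, (X (i, j) - X (i + 1, j)) * SG c i (r + (j + 1)) f
        + ∑ j ∈ Finset.range N, SG c i (r - (j + 1)) (dx ν i j f) := by
  induction f using MvPolynomial.induction_on with
  | C b =>
    intro r
    refine ⟨(-r).toNat, fun N hN => ?_⟩
    have h := Pg_euler (k := k) i (-r) N (by omega)
    have h2 : ∑ j ∈ Finset.range N, SG c i (r - (j + 1)) (dx ν i j (C b)) = 0 := by
      apply Finset.sum_eq_zero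
      intro j _
      unfold dx
      rw [pderiv_C, pderiv_C, sub_zero, smul_zero, map_zero]
    rw [h2, add_zero, SG_C, ← mul_smul_comm]
    push_cast at h
    rw [h, Finset.mul_sum]
    refine Finset.sum_congr rfl fun j _ => ?_
    rw [SG_C]
    have e : -(r + ((j : ℤ) + 1)) = -r - (j + 1) := by ring
    rw [e]
    ring
  | add f g hf hg =>
    intro r
    obtain ⟨N, hN⟩ := hf r
    obtain ⟨M, hM⟩ := hg r
    refine ⟨max N M, fun P hP => ?_⟩
    have e : ∀ j, dx ν i j (f + g) = dx ν i j f + dx ν i j g := by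
      intro j
      unfold dx
      rw [map_add, map_add, ← smul_add]
      congr 1
      ring
    rw [map_add, smul_add, hN P (by omega), hM P (by omega)]
    simp only [map_add, e, mul_add, Finset.sum_add_distrib]
    ring
  | mul_X f a hf =>
    intro r
    obtain ⟨N, hN⟩ := hf r
    obtain ⟨M, hM⟩ := hf (r - (a.2 + 1))
    refine ⟨max (max N M) (a.2 + 1), fun P hP => ?_⟩
    have h1 := hN P (by omega)
    have h2 := hM P (by omega)
    rw [mul_comm f (X a), SG_X_mul, smul_sub, ← mul_smul_comm, h1]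
    have e1 : ∀ j ∈ Finset.range P, (X (i, j) - X (i + 1, j)) * SG c i (r + (j + 1)) (X a * f)
        = X a * ((X (i, j) - X (i + 1, j)) * SG c i (r + (j + 1)) f)
          - c a.1 • ((X (i, j) - X (i + 1, j)) * SG c i (r - (a.2 + 1) + (j + 1)) f) := by
      intro j _
      rw [SG_X_mul]
      have e : r + ((j : ℤ) + 1) - (a.2 + 1) = r - (a.2 + 1) + (j + 1) := by ring
      rw [e, mul_sub, mul_smul_comm]
      ring
    have e2 : ∀ j ∈ Finset.range P, SG c i (r - (j + 1)) (dx ν i j (X a * f))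
        = X a * SG c i (r - (j + 1)) (dx ν i j f)
          - c a.1 • SG c i (r - (a.2 + 1) - (j + 1)) (dx ν i j f)
          + (if j = a.2 then (c a.1 * ((a.2 : k) + 1)) • SG c i (r - (a.2 + 1)) f else 0) := by
      intro j _
      rw [dx_X_mul, map_add, map_smul, SG_X_mul, ← hc]
      have e : r - ((j : ℤ) + 1) - (a.2 + 1) = r - (a.2 + 1) - (j + 1) := by ring
      rw [e]
      by_cases h : j = a.2
      · rw [if_pos h, if_pos h, h]
      · rw [if_neg h, if_neg h, zero_smul]
    rw [Finset.sum_congr rfl e1, Finset.sum_congr rfl e2, Finset.sum_add_distrib,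
      Finset.sum_sub_distrib, Finset.sum_sub_distrib, ← Finset.mul_sum, ← Finset.mul_sum,
      ← Finset.smul_sum, ← Finset.smul_sum, Finset.sum_ite_eq', if_pos (Finset.mem_range.2 (by omega))]
    have h3 : c a.1 • ∑ j ∈ Finset.range P, (X (i, j) - X (i + 1, j))
          * SG c i (r - (a.2 + 1) + (j + 1)) f
        + c a.1 • ∑ j ∈ Finset.range P, SG c i (r - (a.2 + 1) - (j + 1)) (dx ν i j f)
        = c a.1 • ((-((r - (a.2 + 1) : ℤ) : k)) • SG c i (r - (a.2 + 1)) f) := by
      rw [h2, smul_add]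
    have h4 : (-(r : k)) • c a.1 • SG c i (r - (a.2 + 1)) f
        = c a.1 • ((-((r - (a.2 + 1) : ℤ) : k)) • SG c i (r - (a.2 + 1)) f)
          - (c a.1 * ((a.2 : k) + 1)) • SG c i (r - (a.2 + 1)) f := by
      push_cast
      module
    rw [h4, ← h3]
    ring

theorem finsum_int {V : Type*} [AddCommGroup V] (u : ℤ → V) (hu : (support u).Finite) :
    ∃ N0 : ℕ, ∀ N, N0 ≤ N → ∑ᶠ j, u j = u 0 + ∑ n ∈ Finset.range N, u ((n + 1 : ℕ) : ℤ)
      + ∑ n ∈ Finset.range N, u (Int.negSucc n) := by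
  refine ⟨hu.toFinset.sup Int.natAbs + 1, fun N hN => ?_⟩
  have h1 : support u ⊆ ↑(Finset.Icc (-(N : ℤ)) N) := by
    intro j hj
    have h2 : j.natAbs ≤ hu.toFinset.sup Int.natAbs :=
      Finset.le_sup (f := Int.natAbs) (hu.mem_toFinset.2 hj)
    rw [Finset.coe_Icc, Set.mem_Icc]
    omega
  rw [finsum_eq_sum_of_support_subset _ h1]
  clear h1 hN
  induction N with
  | zero => simp
  | succ N ih =>
    have e : Finset.Icc (-((N + 1 : ℕ) : ℤ)) ((N + 1 : ℕ) : ℤ)
        = insert (((N + 1 : ℕ) : ℤ)) (insert (Int.negSucc N) (Finset.Icc (-(N : ℤ)) N)) := by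
      ext j
      simp only [Finset.mem_Icc, Finset.mem_insert]
      omega
    rw [e, Finset.sum_insert, Finset.sum_insert, ih, Finset.sum_range_succ, Finset.sum_range_succ]
    · abel
    · simp only [Finset.mem_Icc]
      omega
    · simp only [Finset.mem_Icc, Finset.mem_insert]
      omega

theorem nn_euler (ν : k) (c : ℕ → k) (i : ℕ) (hc : ∀ a, c a = ν * sg k i a) (R : ℤ) (f : FG k) :
    ∑ᶠ j, nn (bm ν 0) (bm ν c) (SG c i) i R f j - ∑ᶠ j, nn (bm ν 0) (bm ν c) (SG c i) (i + 1) R f j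
      = (2 * ν - R) • SG c i R f := by
  obtain ⟨N1, h1⟩ := finsum_int _ (nn_finite (β := bm ν 0) (β' := bm ν c) (SG_tr c i) i (bm_tr _ _ i) R f)
  obtain ⟨N2, h2⟩ := finsum_int _ (nn_finite (β := bm ν 0) (β' := bm ν c) (SG_tr c i) (i + 1)
    (bm_tr _ _ (i + 1)) R f)
  obtain ⟨N3, h3⟩ := SG_euler ν c i hc f R
  set N := max (max N1 N2) N3 with hN
  have h3' := h3 N (by omega)
  rw [h1 N (by omega), h2 N (by omega)]
  have a0 : ∀ a, nn (bm ν 0) (bm ν c) (SG c i) a R f 0 = c a • SG c i R f := by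
    intro a
    rw [nn, if_neg (lt_irrefl _), sub_zero, bm_zero]
  have a1 : ∀ a n, nn (bm ν 0) (bm ν c) (SG c i) a R f ((n + 1 : ℕ) : ℤ)
      = SG c i (R - (n + 1)) ((ν * ((n : k) + 1)) • pderiv (a, n) f) := by
    intro a n
    rw [nn, if_pos (by omega), bm_pos]
    push_cast
    rfl
  have a2 : ∀ a n, nn (bm ν 0) (bm ν c) (SG c i) a R f (Int.negSucc n)
      = X (a, n) * SG c i (R + (n + 1)) f := by
    intro a n
    rw [nn, if_neg (by omega), bm_neg]
    have : R - Int.negSucc n = R + (n + 1) := by rw [Int.negSucc_eq]; ring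
    rw [this]
  simp only [a0, a1, a2]
  have e1 : ∑ n ∈ Finset.range N, SG c i (R - (n + 1)) (dx ν i n f)
      = ∑ n ∈ Finset.range N, SG c i (R - (n + 1)) ((ν * ((n : k) + 1)) • pderiv (i, n) f)
        - ∑ n ∈ Finset.range N, SG c i (R - (n + 1)) ((ν * ((n : k) + 1)) • pderiv (i + 1, n) f) := by
    rw [← Finset.sum_sub_distrib]
    refine Finset.sum_congr rfl fun n _ => ?_
    rw [← map_sub, ← smul_sub]
    rfl
  have e2 : ∑ n ∈ Finset.range N, (X (i, n) - X (i + 1, n)) * SG c i (R + (n + 1)) f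
      = ∑ n ∈ Finset.range N, X (i, n) * SG c i (R + (n + 1)) f
        - ∑ n ∈ Finset.range N, X (i + 1, n) * SG c i (R + (n + 1)) f := by
    rw [← Finset.sum_sub_distrib]
    exact Finset.sum_congr rfl fun n _ => by ring
  rw [e1, e2] at h3'
  have hi : c i = ν := by rw [hc]; simp [sg]
  have hi1 : c (i + 1) = -ν := by rw [hc]; simp [sg]
  have e3 : (2 * ν - (R : k)) • SG c i R f = (c i • SG c i R f - c (i + 1) • SG c i R f)
      + (-(R : k)) • SG c i R f := by
    rw [hi, hi1]
    module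
  rw [e3, h3']
  abel

/-- The Miura fields of `gl_n`, `n ≠ i + 1`, commute with the residue of the `i`-th vertex
operator. -/
theorem Wf_SG (ν : k) (c : ℕ → k) (i : ℕ) (hc : ∀ a, c a = ν * sg k i a) (n : ℕ) (hn : n ≠ i + 1)
    (r : ℕ) (m : ℤ) (f : FG k) :
    SG c i 1 (Wf (bm ν 0) (1 - ν) n r m f) = Wf (bm ν c) (1 - ν) n r m (SG c i 1 f) := by
  have hi : c i = ν := by rw [hc]; simp [sg]
  have hi1 : c (i + 1) = -ν := by rw [hc]; simp [sg]
  refine Wf_it (1 - ν) (bm_heis ν 0) (bm_heis ν c) (SG c i 1) i ?_ ?_ ?_ n hn r m f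
  · intro a h1 h2 m f
    have h3 : c a = 0 := by rw [hc, sg, if_neg h1, if_neg h2]; ring
    rw [SG_bm ν c i hc, h3, zero_smul, add_zero]
  · intro m f
    rw [LinearMap.add_apply, LinearMap.add_apply, map_add, SG_bm ν c i hc, SG_bm ν c i hc, hi, hi1]
    module
  · refine Tf_it ν i (bm_heis ν 0) (bm_heis ν c) (SG_tr c i) ?_ ?_ (nn_euler ν c i hc)
    · intro m r f
      rw [SG_bm ν c i hc, hi]
    · intro m r f
      rw [SG_bm ν c i hc, hi1, neg_smul, ← sub_eq_add_neg]

theorem SG_one (c : ℕ → k) (i : ℕ) : SG c i 1 (1 : FG k) = 0 := by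
  rw [← C_1, SG_C, Pg_neg i (by norm_num), mul_zero]

end Fock

end Pool.Agent.LS.MA
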