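import Mathlib
import Pool.Agent.LS.MA4
import Pool.Agent.LS.Kernel

/-!
# Gradings and symbols of the Miura fields
-/

namespace Pool.Agent.LS.MA

open Function MvPolynomial

set_option linter.unusedSectionVars false

section SP

variable {k : Type*} [CommRing k] {σ : Type*}

/-- polynomials all of whose monomials satisfy `P` -/
def SP (k : Type*) [CommRing k] (P : (σ →₀ ℕ) → Prop) : Submodule k (MvPolynomial σ k) where
  carrier := {f | ∀ s, coeff s f ≠ 0 → P s}
  add_mem' := by
    intro f g hf hg s hs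
    rw [coeff_add] at hs
    by_cases h : coeff s f = 0
    · rw [h, zero_add] at hs
      exact hg s hs
    · exact hf s h
  zero_mem' := by
    intro s hs
    rw [coeff_zero] at hs
    exact absurd rfl hs
  smul_mem' := by
    intro c f hf s hs
    rw [coeff_smul] at hs
    apply hf
    intro h
    rw [h, smul_zero] at hs
    exact hs rfl

theorem mem_SP {P : (σ →₀ ℕ) → Prop} {f : MvPolynomial σ k} :
    f ∈ SP k P ↔ ∀ s, coeff s f ≠ 0 → P s := Iff.rfl

theorem SP_mul {P Q R : (σ →₀ ℕ) → Prop} (h : ∀ s t, P s → Q t → R (s + t))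
    {f g : MvPolynomial σ k} (hf : f ∈ SP k P) (hg : g ∈ SP k Q) : f * g ∈ SP k R := by
  classical
  intro d hd
  rw [coeff_mul] at hd
  obtain ⟨ab, hab, hne⟩ := Finset.exists_ne_zero_of_sum_ne_zero hd
  rw [Finset.HasAntidiagonal.mem_antidiagonal] at hab
  rw [← hab]
  exact h _ _ (hf _ (left_ne_zero_of_mul hne)) (hg _ (right_ne_zero_of_mul hne))

theorem SP_mono {P Q : (σ →₀ ℕ) → Prop} (h : ∀ s, P s → Q s) {f : MvPolynomial σ k}
    (hf : f ∈ SP k P) : f ∈ SP k Q := fun s hs => h s (hf s hs)

theorem SP_X {P : (σ →₀ ℕ) → Prop} (a : σ) (h : P (Finsupp.single a 1)) :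
    (X a : MvPolynomial σ k) ∈ SP k P := by
  classical
  intro s hs
  rw [coeff_X] at hs
  by_cases h1 : Finsupp.single a 1 = s
  · rw [← h1]; exact h
  · simp [h1] at hs

theorem SP_C {P : (σ →₀ ℕ) → Prop} (a : k) (h : P 0) :
    (C a : MvPolynomial σ k) ∈ SP k P := by
  classical
  intro s hs
  rw [coeff_C] at hs
  by_cases h1 : 0 = s
  · rw [← h1]; exact h
  · simp [h1] at hs

theorem SP_monomial {P : (σ →₀ ℕ) → Prop} (a : σ →₀ ℕ) (c : k) (h : P a) :
    (monomial a c : MvPolynomial σ k) ∈ SP k P := by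
  classical
  intro s hs
  rw [coeff_monomial] at hs
  by_cases h1 : a = s
  · rw [← h1]; exact h
  · simp [h1] at hs

theorem SP_pderiv {P R : (σ →₀ ℕ) → Prop} (b : σ) (h : ∀ s, P (s + Finsupp.single b 1) → R s)
    {f : MvPolynomial σ k} (hf : f ∈ SP k P) : pderiv b f ∈ SP k R := by
  classical
  rw [as_sum f, map_sum]
  apply Submodule.sum_mem
  intro s hs
  rw [mem_support_iff] at hs
  rw [pderiv_monomial]
  by_cases h0 : s b = 0
  · rw [h0]; simp
  · apply SP_monomial
    apply h
    rw [tsub_add_cancel_of_le]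
    · exact hf s hs
    · rw [Finsupp.single_le_iff]
      omega

theorem finsum_mem_SP {ι : Type*} (S : Submodule k (MvPolynomial σ k)) (u : ι → MvPolynomial σ k)
    (h : ∀ i, u i ∈ S) : ∑ᶠ i, u i ∈ S := by
  by_cases hf : (support u).Finite
  · rw [finsum_eq_sum _ hf]
    exact Submodule.sum_mem _ fun i _ => h i
  · rw [finsum_of_infinite_support hf]
    exact S.zero_mem

/-- homogeneous of weight `N` -/
def HS (k : Type*) [CommRing k] (w : σ → ℕ) (N : ℤ) : Submodule k (MvPolynomial σ k) :=
  SP k (fun s => (Finsupp.weight w s : ℤ) = N)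

/-- of degree at most `N` -/
def FS (k : Type*) [CommRing k] (w : σ → ℕ) (N : ℤ) : Submodule k (MvPolynomial σ k) :=
  SP k (fun s => (Finsupp.weight w s : ℤ) ≤ N)

theorem HS_mul {w : σ → ℕ} {N M : ℤ} {f g : MvPolynomial σ k} (hf : f ∈ HS k w N)
    (hg : g ∈ HS k w M) : f * g ∈ HS k w (N + M) :=
  SP_mul (fun s t hs ht => by rw [map_add]; push_cast; rw [hs, ht]) hf hg

theorem FS_mul {w : σ → ℕ} {N M : ℤ} {f g : MvPolynomial σ k} (hf : f ∈ FS k w N)
    (hg : g ∈ FS k w M) : f * g ∈ FS k w (N + M) :=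
  SP_mul (fun s t hs ht => by
    rw [map_add]; push_cast
    exact add_le_add hs ht) hf hg

theorem FS_mono {w : σ → ℕ} {N M : ℤ} (h : N ≤ M) {f : MvPolynomial σ k} (hf : f ∈ FS k w N) :
    f ∈ FS k w M := SP_mono (fun _ hs => le_trans hs h) hf

theorem HS_X (w : σ → ℕ) (a : σ) {N : ℤ} (h : (w a : ℤ) = N) :
    (X a : MvPolynomial σ k) ∈ HS k w N :=
  SP_X a (by rw [Finsupp.weight_single, one_smul]; exact h)

theorem FS_X (w : σ → ℕ) (a : σ) {N : ℤ} (h : (w a : ℤ) ≤ N) :
    (X a : MvPolynomial σ k) ∈ FS k w N :=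
  SP_X a (by rw [Finsupp.weight_single, one_smul]; exact h)

theorem HS_pderiv {w : σ → ℕ} {N M : ℤ} (b : σ) (h : N = M + w b) {f : MvPolynomial σ k}
    (hf : f ∈ HS k w N) : pderiv b f ∈ HS k w M :=
  SP_pderiv b (fun s hs => by
    rw [map_add, Finsupp.weight_single, one_smul] at hs
    push_cast at hs
    linarith) hf

theorem FS_pderiv {w : σ → ℕ} {N M : ℤ} (b : σ) (h : N ≤ M + w b) {f : MvPolynomial σ k}
    (hf : f ∈ FS k w N) : pderiv b f ∈ FS k w M :=
  SP_pderiv b (fun s hs => by
    rw [map_add, Finsupp.weight_single, one_smul] at hs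
    push_cast at hs
    linarith) hf

end SP

section Sy

variable {k : Type*} [CommRing k] [Algebra ℚ k]

/-- weights in the Fock space -/
def wG (a : ℕ × ℕ) : ℕ := a.2 + 1

/-- g-degrees in the Fock space -/
def gG (a : ℕ × ℕ) : ℕ := gd a.2

theorem gd_ge (n : ℕ) : 1 ≤ gd n := by
  cases n with
  | zero => simp [gd]
  | succ n => simp [gd]

theorem bm_HS (ν : k) (a : ℕ) (m : ℤ) {N : ℤ} {f : FG k} (hf : f ∈ HS k wG N) :
    bm ν 0 a m f ∈ HS k wG (N - m) := by
  match m with
  | Int.ofNat 0 =>
    show (0 : ℕ → k) a • f ∈ _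
    rw [Pi.zero_apply, zero_smul]
    exact Submodule.zero_mem _
  | Int.ofNat (n + 1) =>
    show (ν * ((n : k) + 1)) • pderiv (a, n) f ∈ _
    apply Submodule.smul_mem
    apply HS_pderiv (a, n) _ hf
    simp [wG]
  | Int.negSucc n =>
    show X (a, n) * f ∈ _
    have h := HS_mul (HS_X (k := k) wG (a, n) (N := (n : ℤ) + 1) (by simp [wG])) hf
    have e : (n : ℤ) + 1 + N = N - Int.negSucc n := by rw [Int.negSucc_eq]; ring
    rw [← e]
    exact h

theorem Wf_HS (ν α0 : k) (c : ℕ) : ∀ (r : ℕ) (m : ℤ) {N : ℤ} {f : FG k}, f ∈ HS k wG N →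
    Wf (bm ν 0) α0 c r m f ∈ HS k wG (N - m) := by
  have h0 : ∀ (c : ℕ) (m : ℤ) {N : ℤ} {f : FG k}, f ∈ HS k wG N →
      Wf (bm ν 0) α0 c 0 m f ∈ HS k wG (N - m) := by
    intro c m N f hf
    rw [Wf_zero_right]
    split_ifs with h
    · rw [h, sub_zero]; exact hf
    · exact Submodule.zero_mem _
  induction c with
  | zero =>
    intro r m N f hf
    cases r with
    | zero => exact h0 0 m hf
    | succ r => rw [Wf_zero_left]; exact Submodule.zero_mem _
  | succ c ih =>
    intro r m N f hf
    cases r with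
    | zero => exact h0 _ m hf
    | succ r =>
      obtain ⟨t0, g0⟩ := Wf_good α0 (bm_heis ν 0) c r
      have l : LF (bm ν 0 c) (Wf (bm ν 0) α0 c r) := LF.mk' (bm_tr ν 0 c) t0 (g0 c le_rfl)
      rw [Wf_succ_succ, LinearMap.add_apply, LinearMap.add_apply, LinearMap.smul_apply, cv_apply l]
      apply Submodule.add_mem
      · apply Submodule.add_mem
        · exact ih _ _ hf
        · exact Submodule.smul_mem _ _ (ih _ _ hf)
      · apply finsum_mem_SP
        intro j
        have h := bm_HS ν c j (ih r (m - j) hf)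
        have e : N - (m - j) - j = N - m := by ring
        rw [e] at h
        exact h

/-- the operator raises the degree by at most `d` -/
def Dg (φ : FG k →ₗ[k] FG k) (d : ℤ) : Prop :=
  ∀ (E : ℤ) (f : FG k), f ∈ FS k gG E → φ f ∈ FS k gG (E + d)

/-- the operator of degree `d` has the symbol `s` -/
def Sy (φ : FG k →ₗ[k] FG k) (d : ℤ) (s : FG k) : Prop :=
  ∀ (E : ℤ) (f : FG k), f ∈ FS k gG E → φ f - s * f ∈ FS k gG (E + d - 1)

theorem Sy.dg {φ : FG k →ₗ[k] FG k} {d : ℤ} {s : FG k} (h : Sy φ d s) (hs : s ∈ FS k gG d) :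
    Dg φ d := by
  intro E f hf
  have h1 := FS_mono (by omega : E + d - 1 ≤ E + d) (h E f hf)
  have h2 := FS_mul hs hf
  rw [add_comm] at h2
  have h3 := Submodule.add_mem _ h1 h2
  rwa [sub_add_cancel] at h3

theorem Dg.mono {φ : FG k →ₗ[k] FG k} {d e : ℤ} (h : Dg φ d) (hde : d ≤ e) : Dg φ e :=
  fun E f hf => FS_mono (by omega) (h E f hf)

theorem bm_dg_pos (ν : k) (a : ℕ) (m : ℤ) (hm : 0 ≤ m) : Dg (bm ν 0 a m) (-1) := by
  intro E f hf
  match m with
  | Int.ofNat 0 =>
    show (0 : ℕ → k) a • f ∈ _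
    rw [Pi.zero_apply, zero_smul]
    exact Submodule.zero_mem _
  | Int.ofNat (n + 1) =>
    show (ν * ((n : k) + 1)) • pderiv (a, n) f ∈ _
    apply Submodule.smul_mem
    apply FS_pderiv (a, n) _ hf
    have := gd_ge n
    simp only [gG]
    omega

theorem bm_dg_neg1 (ν : k) (a : ℕ) : Dg (bm ν 0 a (-1)) 2 := by
  intro E f hf
  show X (a, 0) * f ∈ _
  have h := FS_mul (FS_X (k := k) gG (a, 0) (N := 2) (by simp [gG, gd])) hf
  rw [add_comm] at h
  exact h

theorem bm_dg_neg (ν : k) (a : ℕ) (m : ℤ) (hm : m ≤ -2) : Dg (bm ν 0 a m) 1 := by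
  intro E f hf
  obtain ⟨n, rfl⟩ : ∃ n : ℕ, m = Int.negSucc (n + 1) := ⟨(-m - 2).toNat, by omega⟩
  show X (a, n + 1) * f ∈ _
  have h := FS_mul (FS_X (k := k) gG (a, n + 1) (N := 1) (by simp [gG, gd])) hf
  rw [add_comm] at h
  exact h

/-- elementary symmetric polynomials of the `e_{a,1}` -/
noncomputable def Ec (k : Type*) [CommRing k] : ℕ → ℕ → FG k
  | 0, 0 => 1
  | 0, (_ + 1) => 0
  | (_ + 1), 0 => 1
  | (c + 1), (r + 1) => Ec k c (r + 1) + X (c, 0) * Ec k c r

theorem Ec_zero (c : ℕ) : Ec k c 0 = 1 := by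
  cases c <;> rfl

/-- the derivation `e_{a,1} ↦ e_{a,q+2}` -/
noncomputable def Dq (k : Type*) [CommRing k] (q : ℕ) : Derivation k (FG k) (FG k) :=
  mkDerivation k (fun a => if a.2 = 0 then X (a.1, q + 1) else 0)

theorem Dq_X (q c : ℕ) : Dq k q (X (c, 0)) = X (c, q + 1) := by
  rw [Dq, mkDerivation_X, if_pos rfl]

theorem Ec_FS (c : ℕ) : ∀ r : ℕ, Ec k c r ∈ FS k gG (2 * r) ∧
    ∀ q, Dq k q (Ec k c r) ∈ FS k gG (2 * r - 1) := by
  have h0 : ∀ c, Ec k c 0 ∈ FS k gG (2 * (0 : ℕ)) ∧
    ∀ q, Dq k q (Ec k c 0) ∈ FS k gG (2 * (0 : ℕ) - 1) := by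
    intro c
    rw [Ec_zero]
    refine ⟨?_, fun q => ?_⟩
    · rw [← C_1]
      exact SP_C _ (by simp)
    · rw [Derivation.map_one_eq_zero]
      exact Submodule.zero_mem _
  induction c with
  | zero =>
    intro r
    cases r with
    | zero => exact h0 0
    | succ r =>
      refine ⟨Submodule.zero_mem _, fun q => ?_⟩
      show Dq k q 0 ∈ _
      rw [map_zero]
      exact Submodule.zero_mem _
  | succ c ih =>
    intro r
    cases r with
    | zero => exact h0 _
    | succ r =>
      have hX : (X (c, 0) : FG k) ∈ FS k gG 2 := FS_X gG (c, 0) (by simp [gG, gd])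
      refine ⟨?_, fun q => ?_⟩
      · show Ec k c (r + 1) + X (c, 0) * Ec k c r ∈ _
        apply Submodule.add_mem
        · exact (ih (r + 1)).1
        · exact FS_mono (by push_cast; omega) (FS_mul hX (ih r).1)
      · show Dq k q (Ec k c (r + 1) + X (c, 0) * Ec k c r) ∈ _
        rw [map_add, Derivation.leibniz, Dq_X, smul_eq_mul, smul_eq_mul]
        have hX2 : (X (c, q + 1) : FG k) ∈ FS k gG 1 := FS_X gG (c, q + 1) (by simp [gG, gd])
        apply Submodule.add_mem
        · exact (ih (r + 1)).2 q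
        · apply Submodule.add_mem
          · exact FS_mono (by push_cast; omega) (FS_mul hX ((ih r).2 q))
          · exact FS_mono (by push_cast; omega) (FS_mul (ih r).1 hX2)

/-- splitting off one term of a convolution -/
theorem cv_sub_mem {b φ : ℤ → FG k →ₗ[k] FG k} (h : LF b φ) (S : Submodule k (FG k)) (m : ℤ)
    (f : FG k) (J : Finset ℤ) (s : ℤ → FG k) (h1 : ∀ j ∉ J, b j (φ (m - j) f) ∈ S)
    (h2 : ∀ j ∈ J, b j (φ (m - j) f) - s j ∈ S) :
    cv b φ m f - ∑ j ∈ J, s j ∈ S := by
  classical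
  have hfin : (support fun j => if j ∈ J then s j else 0).Finite := by
    apply (J.finite_toSet).subset
    intro j hj
    rw [mem_support] at hj
    by_contra h3
    exact hj (if_neg h3)
  have e : ∑ j ∈ J, s j = ∑ᶠ j, (if j ∈ J then s j else 0) := by
    rw [finsum_eq_sum_of_support_subset (s := J)]
    · exact Finset.sum_congr rfl fun j hj => (if_pos hj).symm
    · intro j hj
      rw [mem_support] at hj
      by_contra h3
      exact hj (if_neg h3)
  rw [cv_apply h, e, ← finsum_sub_distrib (h m f) hfin]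
  apply finsum_mem_SP
  intro j
  by_cases hj : j ∈ J
  · rw [if_pos hj]; exact h2 j hj
  · rw [if_neg hj, sub_zero]; exact h1 j hj

/-- symbols of the Miura fields -/
theorem Wf_Sy (ν α0 : k) (c : ℕ) : ∀ r : ℕ,
    Sy (Wf (bm ν 0) α0 c r (-r)) (2 * r) (Ec k c r) ∧
    (∀ q : ℕ, Sy (Wf (bm ν 0) α0 c r (-(r + q + 1))) (2 * r - 1) (Dq k q (Ec k c r))) ∧
    (∀ m : ℤ, -(r : ℤ) < m → Dg (Wf (bm ν 0) α0 c r m) (2 * r - 2)) := by
  have h0 : ∀ c, Sy (Wf (bm ν 0) α0 c 0 (-(0 : ℕ))) (2 * (0 : ℕ)) (Ec k c 0) ∧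
    (∀ q : ℕ, Sy (Wf (bm ν 0) α0 c 0 (-((0 : ℕ) + q + 1))) (2 * (0 : ℕ) - 1) (Dq k q (Ec k c 0))) ∧
    (∀ m : ℤ, -((0 : ℕ) : ℤ) < m → Dg (Wf (bm ν 0) α0 c 0 m) (2 * (0 : ℕ) - 2)) := by
    intro c
    refine ⟨fun E f hf => ?_, fun q E f hf => ?_, fun m hm E f hf => ?_⟩
    · rw [Wf_zero_right, if_pos (by simp), Ec_zero, one_mul, LinearMap.id_apply, sub_self]
      exact Submodule.zero_mem _
    · rw [Wf_zero_right, if_neg (by omega), Ec_zero, Derivation.map_one_eq_zero, zero_mul, sub_zero]
      exact Submodule.zero_mem _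
    · rw [Wf_zero_right, if_neg (by push_cast at hm; omega)]
      exact Submodule.zero_mem _
  induction c with
  | zero =>
    intro r
    cases r with
    | zero => exact h0 0
    | succ r =>
      refine ⟨fun E f hf => ?_, fun q E f hf => ?_, fun m hm E f hf => ?_⟩
      · rw [Wf_zero_left]
        show (0 : FG k) - 0 * f ∈ _
        rw [zero_mul, sub_zero]
        exact Submodule.zero_mem _
      · rw [Wf_zero_left]
        show (0 : FG k) - (Dq k q 0) * f ∈ _
        rw [map_zero, zero_mul, sub_zero]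
        exact Submodule.zero_mem _
      · rw [Wf_zero_left]
        exact Submodule.zero_mem _
  | succ c ih =>
    intro r
    cases r with
    | zero => exact h0 _
    | succ r =>
      obtain ⟨ia, ib, ic⟩ := ih r
      obtain ⟨ja, jb, jc⟩ := ih (r + 1)
      obtain ⟨ea, eb⟩ := Ec_FS (k := k) c r
      obtain ⟨t0, g0⟩ := Wf_good α0 (bm_heis ν 0) c r
      have l : LF (bm ν 0 c) (Wf (bm ν 0) α0 c r) := LF.mk' (bm_tr ν 0 c) t0 (g0 c le_rfl)
      -- bounds for all modes of the previous field
      have ib' : ∀ m : ℤ, m < -(r : ℤ) → Dg (Wf (bm ν 0) α0 c r m) (2 * r - 1) := by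
        intro m hm
        obtain ⟨q, rfl⟩ : ∃ q : ℕ, m = -((r : ℤ) + q + 1) := ⟨(-m - r - 1).toNat, by omega⟩
        exact (ib q).dg (eb q)
      have ia' : ∀ m : ℤ, Dg (Wf (bm ν 0) α0 c r m) (2 * r) := by
        intro m
        rcases lt_trichotomy m (-(r : ℤ)) with h | h | h
        · exact (ib' m h).mono (by omega)
        · rw [h]; exact ia.dg ea
        · exact (ic m h).mono (by omega)
      -- bounds for the terms of the convolution
      have u1 : ∀ (m j E : ℤ) (f : FG k), f ∈ FS k gG E → 0 ≤ j →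
          bm ν 0 c j (Wf (bm ν 0) α0 c r (m - j) f) ∈ FS k gG (E + 2 * r - 1) := by
        intro m j E f hf hj
        exact FS_mono (by omega) (bm_dg_pos ν c j hj _ _ (ia' (m - j) E f hf))
      have u2 : ∀ (m j E : ℤ) (f : FG k), f ∈ FS k gG E → j ≤ -2 → m - j ≠ -(r : ℤ) →
          bm ν 0 c j (Wf (bm ν 0) α0 c r (m - j) f) ∈ FS k gG (E + 2 * r) := by
        intro m j E f hf hj hm
        rcases lt_or_gt_of_ne hm with h | h
        · exact FS_mono (by omega) (bm_dg_neg ν c j hj _ _ (ib' _ h E f hf))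
        · exact FS_mono (by omega) (bm_dg_neg ν c j hj _ _ (ic _ h E f hf))
      refine ⟨fun E f hf => ?_, fun q E f hf => ?_, fun m hm E f hf => ?_⟩
      · -- (a)
        rw [Wf_succ_succ, LinearMap.add_apply, LinearMap.add_apply, LinearMap.smul_apply]
        have e : Ec k (c + 1) (r + 1) = Ec k c (r + 1) + X (c, 0) * Ec k c r := rfl
        rw [e]
        have h1 := ja E f hf
        have h2 := cv_sub_mem l (FS k gG (E + 2 * (r + 1 : ℕ) - 1)) (-((r + 1 : ℕ) : ℤ)) f {-1}
          (fun _ => X (c, 0) * (Ec k c r * f)) (by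
            intro j hj
            rw [Finset.mem_singleton] at hj
            rcases le_or_gt 0 j with h | h
            · exact FS_mono (by push_cast; omega) (u1 _ j E f hf h)
            · exact FS_mono (by push_cast; omega) (u2 _ j E f hf (by omega) (by push_cast; omega)))
          (by
            intro j hj
            rw [Finset.mem_singleton] at hj
            subst hj
            have e2 : (-((r + 1 : ℕ) : ℤ)) - (-1) = -(r : ℤ) := by push_cast; ring
            rw [e2]
            show X (c, 0) * (Wf (bm ν 0) α0 c r (-(r : ℤ)) f) - X (c, 0) * (Ec k c r * f) ∈ _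
            rw [← mul_sub]
            exact FS_mono (by push_cast; omega)
              (FS_mul (FS_X (k := k) gG (c, 0) (N := 2) (by simp [gG, gd])) (ia E f hf)))
        rw [Finset.sum_singleton] at h2
        have h3 : (-(α0 * (((-((r + 1 : ℕ) : ℤ) : ℤ) : k) + r))) •
            Wf (bm ν 0) α0 c r (-((r + 1 : ℕ) : ℤ)) f ∈ FS k gG (E + 2 * (r + 1 : ℕ) - 1) :=
          Submodule.smul_mem _ _ (FS_mono (by push_cast; omega) (ia' _ E f hf))
        have h4 := Submodule.add_mem _ (Submodule.add_mem _ h1 h2) h3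
        have e4 : ∀ a b s x y z : FG k, a - s * f + (b - x * (y * f)) + z
            = a + z + b - (s + x * y) * f := by intros; ring
        rw [e4] at h4
        exact h4
      · -- (b)
        rw [Wf_succ_succ, LinearMap.add_apply, LinearMap.add_apply, LinearMap.smul_apply]
        have e : Dq k q (Ec k (c + 1) (r + 1)) = Dq k q (Ec k c (r + 1))
            + (X (c, 0) * Dq k q (Ec k c r) + Ec k c r * X (c, q + 1)) := by
          show Dq k q (Ec k c (r + 1) + X (c, 0) * Ec k c r) = _
          rw [map_add, Derivation.leibniz, Dq_X, smul_eq_mul, smul_eq_mul]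
        rw [e]
        have h1 := jb q E f hf
        set m : ℤ := -(((r + 1 : ℕ) : ℤ) + q + 1) with hm
        have hj1 : (-1 : ℤ) ≠ Int.negSucc (q + 1) := by omega
        have h2 := cv_sub_mem l (FS k gG (E + (2 * (r + 1 : ℕ) - 1) - 1)) m f
          {-1, Int.negSucc (q + 1)}
          (fun j => if j = -1 then X (c, 0) * (Dq k q (Ec k c r) * f)
            else X (c, q + 1) * (Ec k c r * f)) (by
            intro j hj
            rw [Finset.mem_insert, Finset.mem_singleton, not_or] at hj
            rcases le_or_gt 0 j with h | h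
            · exact FS_mono (by push_cast; omega) (u1 _ j E f hf h)
            · refine FS_mono (by push_cast; omega) (u2 _ j E f hf (by omega) ?_)
              intro h5
              apply hj.2
              rw [Int.negSucc_eq]
              push_cast at hm ⊢
              omega)
          (by
            intro j hj
            rw [Finset.mem_insert, Finset.mem_singleton] at hj
            rcases hj with hj | hj
            · subst hj
              rw [if_pos rfl]
              have e2 : m - (-1) = -((r : ℤ) + q + 1) := by rw [hm]; push_cast; ring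
              rw [e2]
              show X (c, 0) * (Wf (bm ν 0) α0 c r (-((r : ℤ) + q + 1)) f)
                - X (c, 0) * (Dq k q (Ec k c r) * f) ∈ _
              rw [← mul_sub]
              exact FS_mono (by push_cast; omega)
                (FS_mul (FS_X (k := k) gG (c, 0) (N := 2) (by simp [gG, gd])) (ib q E f hf))
            · rw [if_neg (by rw [hj]; exact hj1.symm)]
              subst hj
              have e2 : m - Int.negSucc (q + 1) = -(r : ℤ) := by
                rw [hm, Int.negSucc_eq]; push_cast; ring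
              rw [e2]
              show X (c, q + 1) * (Wf (bm ν 0) α0 c r (-(r : ℤ)) f)
                - X (c, q + 1) * (Ec k c r * f) ∈ _
              rw [← mul_sub]
              exact FS_mono (by push_cast; omega)
                (FS_mul (FS_X (k := k) gG (c, q + 1) (N := 1) (by simp [gG, gd])) (ia E f hf)))
        rw [Finset.sum_pair hj1, if_pos rfl, if_neg hj1.symm] at h2
        have h3 : (-(α0 * ((m : k) + r))) •
            Wf (bm ν 0) α0 c r m f ∈ FS k gG (E + (2 * (r + 1 : ℕ) - 1) - 1) :=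
          Submodule.smul_mem _ _ (FS_mono (by push_cast; omega) (ia' _ E f hf))
        have h4 := Submodule.add_mem _ (Submodule.add_mem _ h1 h2) h3
        have e4 : ∀ a b s x y z u v : FG k, a - s * f + (b - (x * (y * f) + u * (v * f))) + z
            = a + z + b - (s + (x * y + v * u)) * f := by intros; ring
        rw [e4] at h4
        exact h4
      · -- (c)
        rw [Wf_succ_succ, LinearMap.add_apply, LinearMap.add_apply, LinearMap.smul_apply]
        have h2 := cv_sub_mem l (FS k gG (E + (2 * (r + 1 : ℕ) - 2))) m f ∅ (fun _ => 0) (by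
            intro j _
            rcases le_or_gt 0 j with h | h
            · exact FS_mono (by push_cast; omega) (u1 _ j E f hf h)
            · rcases eq_or_ne j (-1) with h5 | h5
              · subst h5
                exact FS_mono (by push_cast; omega)
                  (bm_dg_neg1 ν c _ _ (ic (m - (-1)) (by push_cast at hm; omega) E f hf))
              · exact FS_mono (by push_cast; omega)
                  (u2 _ j E f hf (by omega) (by push_cast at hm; omega)))
          (by intro j hj; exact absurd hj (Finset.notMem_empty j))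
        rw [Finset.sum_empty, sub_zero] at h2
        refine Submodule.add_mem _ (Submodule.add_mem _ (jc m hm E f hf) ?_) h2
        exact Submodule.smul_mem _ _ (FS_mono (by push_cast; omega) (ia' _ E f hf))

end Sy

end Pool.Agent.LS.MA
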