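import Mathlib
import Pool.Agent.LS.MA5
import Pool.Agent.LS.BasicA
import Pool.Agent.LS.Top

/-!
# Projection of the `gl` Fock space onto the Fock space of type `A_l`: the theorem `pbw`
-/

namespace Pool.Agent.LS.MA

open Function MvPolynomial

set_option linter.unusedSectionVars false

section Proj

variable {k : Type*} [CommRing k] [Algebra ℚ k] (l : ℕ)

/-- image of `e_{a,n+1}` -/
noncomputable def eb (k : Type*) [CommRing k] [Algebra ℚ k] (l : ℕ) (a : ℕ × ℕ) :
    MvPolynomial (Fin l × ℕ) k :=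
  if a.1 ≤ l then ∑ j : Fin l, C (algebraMap ℚ k (qA l a.1 j)) * X (j, a.2) else 0

/-- the projection -/
noncomputable def pr (k : Type*) [CommRing k] [Algebra ℚ k] (l : ℕ) :
    FG k →ₐ[k] MvPolynomial (Fin l × ℕ) k := aeval (eb k l)

theorem pr_X (a : ℕ × ℕ) : pr k l (X a) = eb k l a := by
  rw [pr, aeval_X]

theorem pr_C (c : k) : pr k l (C c) = C c := by
  rw [← algebraMap_eq, AlgHom.commutes]; rfl

theorem eb_sub (i : Fin l) (n : ℕ) : eb k l (i, n) - eb k l (i + 1, n) = X (i, n) := by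
  have h1 := i.2
  unfold eb
  simp only
  rw [if_pos (by omega), if_pos (by omega), ← Finset.sum_sub_distrib, Finset.sum_eq_single i]
  · rw [← sub_mul, ← C_sub, ← map_sub, qA_sub, if_pos rfl, map_one, C_1, one_mul]
  · intro j _ hj
    rw [← sub_mul, ← C_sub, ← map_sub, qA_sub, if_neg (fun h => hj (Fin.ext h)), map_zero, C_0,
      zero_mul]
  · intro h
    exact absurd (Finset.mem_univ i) h

theorem pr_Pg (i : Fin l) (m : ℤ) : pr k l (Pg (k := k) i m) = PA i m := by
  rw [Pg, PA]
  have h : ∀ p : MvPolynomial ℕ k,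
      pr k l (aeval (fun n => (X ((i : ℕ), n) - X ((i : ℕ) + 1, n) : FG k)) p)
        = rename (fun n => (i, n)) p := by
    intro p
    induction p using MvPolynomial.induction_on with
    | C c => rw [aeval_C, rename_C, algebraMap_eq, pr_C]
    | add p q hp hq => rw [map_add, map_add, map_add, hp, hq]
    | mul_X p n hp =>
      rw [map_mul, map_mul, map_mul, hp, aeval_X, rename_X, map_sub, pr_X, pr_X, eb_sub]
  exact h _

theorem SA_neg' (A : Matrix (Fin l) (Fin l) ℤ) (ν : k) (i : Fin l) (m : ℤ)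
    {ι : Type*} (s : Finset ι) (f : ι → MvPolynomial (Fin l × ℕ) k) :
    SA A ν i m (∑ j ∈ s, f j) = ∑ j ∈ s, SA A ν i m (f j) :=
  map_sum (SAl A ν i m) f s

theorem SA_zero' (A : Matrix (Fin l) (Fin l) ℤ) (ν : k) (i : Fin l) (m : ℤ) :
    SA A ν i m 0 = 0 := map_zero (SAl A ν i m)

theorem SA_eb_mul (ν : k) (i : Fin l) (m : ℤ) (a : ℕ × ℕ) (f : MvPolynomial (Fin l × ℕ) k) :
    SA (AA l) ν i m (eb k l a * f) = eb k l a * SA (AA l) ν i m f
      - C (ν * sg k i a.1) * SA (AA l) ν i (m - (a.2 + 1)) f := by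
  unfold eb
  split_ifs with h
  · have hs : sg k i a.1 = ∑ j : Fin l, algebraMap ℚ k (qA l a.1 j) * ((AA l i j : ℤ) : k) := by
      have h1 := congrArg (algebraMap ℚ k) (sum_AA_qA l i ⟨a.1, by omega⟩)
      simp only at h1
      rw [map_sum, map_sub] at h1
      rw [sg]
      have h2 : ∀ p : Prop, ∀ [Decidable p], algebraMap ℚ k (if p then 1 else 0) = if p then 1 else 0 := by
        intro p _
        split_ifs <;> simp
      rw [h2, h2] at h1
      rw [← h1]
      refine Finset.sum_congr rfl fun j _ => ?_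
      rw [map_mul, map_intCast]
      ring
    rw [Finset.sum_mul, SA_neg', Finset.sum_mul]
    have h3 : ∀ j ∈ (Finset.univ : Finset (Fin l)),
        SA (AA l) ν i m (C (algebraMap ℚ k (qA l a.1 j)) * X (j, a.2) * f)
        = C (algebraMap ℚ k (qA l a.1 j)) * X (j, a.2) * SA (AA l) ν i m f
          - C (ν * (algebraMap ℚ k (qA l a.1 j) * ((AA l i j : ℤ) : k)))
            * SA (AA l) ν i (m - (a.2 + 1)) f := by
      intro j _
      rw [mul_assoc, SA_C_mul, SA_X_mul, C_mul, C_mul, C_mul]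
      ring
    have h4 : C (ν * sg k i a.1) = ∑ j : Fin l,
        (C (ν * (algebraMap ℚ k (qA l a.1 j) * ((AA l i j : ℤ) : k))) : MvPolynomial (Fin l × ℕ) k) := by
      rw [hs, Finset.mul_sum, map_sum]
    rw [Finset.sum_congr rfl h3, Finset.sum_sub_distrib, h4, Finset.sum_mul]
  · have hs : sg k i a.1 = 0 := by
      have := i.2
      rw [sg, if_neg (by omega), if_neg (by omega), sub_zero]
    rw [zero_mul, zero_mul, hs, mul_zero, C_0, zero_mul, SA_zero', sub_zero]

theorem pr_SG (ν : k) (i : Fin l) (f : FG k) : ∀ m : ℤ,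
    SA (AA l) ν i m (pr k l f) = pr k l (SG (fun a => ν * sg k i a) i m f) := by
  induction f using MvPolynomial.induction_on with
  | C c =>
    intro m
    rw [pr_C, SA_C, SG_C, map_mul, pr_C, pr_Pg]
  | add f g hf hg =>
    intro m
    rw [map_add, SA_add, map_add, map_add, hf, hg]
  | mul_X f a hf =>
    intro m
    rw [mul_comm, map_mul, pr_X, SA_eb_mul, SG_X_mul, map_sub, map_mul (pr k l), map_smul, pr_X,
      hf, hf, smul_eq_C_mul]

end Proj

section Vec

variable {k : Type*} [CommRing k] [Algebra ℚ k]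

/-- the vector `∏ W^{(j+2)}_{-(j+2+q)} 1` -/
noncomputable def PV (ν : k) (n : ℕ) (L : List (ℕ × ℕ)) : FG k :=
  L.foldr (fun jq f => Wf (bm ν 0) (1 - ν) n (jq.1 + 2) (-((jq.1 : ℤ) + 2 + jq.2)) f) 1

/-- its symbol -/
noncomputable def sym (k : Type*) [CommRing k] [Algebra ℚ k] (n : ℕ) (jq : ℕ × ℕ) : FG k :=
  match jq.2 with
  | 0 => Ec k n (jq.1 + 2)
  | (q + 1) => Dq k q (Ec k n (jq.1 + 2))

/-- degree of the symbol -/
def dl (jq : ℕ × ℕ) : ℕ :=
  match jq.2 with
  | 0 => 2 * (jq.1 + 2)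
  | (_ + 1) => 2 * (jq.1 + 2) - 1

theorem PV_ker (ν : k) (n : ℕ) (L : List (ℕ × ℕ)) (i : ℕ) (hn : n ≠ i + 1) :
    SG (fun a => ν * sg k i a) i 1 (PV ν n L) = 0 := by
  induction L with
  | nil => exact SG_one _ _
  | cons jq L ih =>
    show SG (fun a => ν * sg k i a) i 1
      (Wf (bm ν 0) (1 - ν) n (jq.1 + 2) (-((jq.1 : ℤ) + 2 + jq.2)) (PV ν n L)) = 0
    rw [Wf_SG ν (fun a => ν * sg k i a) i (fun a => rfl) n hn, ih, map_zero]

theorem PV_HS (ν : k) (n : ℕ) (L : List (ℕ × ℕ)) :
    PV ν n L ∈ HS k wG ((L.map (fun jq => jq.1 + 2 + jq.2)).sum : ℕ) := by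
  induction L with
  | nil =>
    show (1 : FG k) ∈ _
    rw [← C_1]
    exact SP_C _ (by simp)
  | cons jq L ih =>
    have h := Wf_HS ν (1 - ν) n (jq.1 + 2) (-((jq.1 : ℤ) + 2 + jq.2)) ih
    rw [List.map_cons, List.sum_cons]
    have e : (((L.map (fun jq => jq.1 + 2 + jq.2)).sum : ℕ) : ℤ) - (-((jq.1 : ℤ) + 2 + jq.2))
        = ((jq.1 + 2 + jq.2 + (L.map (fun jq => jq.1 + 2 + jq.2)).sum : ℕ) : ℤ) := by
      push_cast; ring
    rw [e] at h
    exact h

theorem sym_FS (n : ℕ) (jq : ℕ × ℕ) : sym k n jq ∈ FS k gG (dl jq) := by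
  obtain ⟨j, q⟩ := jq
  cases q with
  | zero =>
    exact FS_mono (by simp only [dl]; push_cast; omega) (Ec_FS (k := k) n (j + 2)).1
  | succ q =>
    exact FS_mono (by simp only [dl]; push_cast; omega) ((Ec_FS (k := k) n (j + 2)).2 q)

theorem Wf_sym (ν : k) (n : ℕ) (jq : ℕ × ℕ) :
    Sy (Wf (bm ν 0) (1 - ν) n (jq.1 + 2) (-((jq.1 : ℤ) + 2 + jq.2))) (dl jq) (sym k n jq) := by
  obtain ⟨j, q⟩ := jq
  obtain ⟨ha, hb, _⟩ := Wf_Sy ν (1 - ν) n (j + 2)
  cases q with
  | zero =>
    have e1 : -((j : ℤ) + 2 + (0 : ℕ)) = -((j + 2 : ℕ) : ℤ) := by push_cast; ring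
    have e2 : ((dl (j, 0) : ℕ) : ℤ) = 2 * ((j + 2 : ℕ) : ℤ) := by simp only [dl]; push_cast; ring
    show Sy (Wf (bm ν 0) (1 - ν) n (j + 2) (-((j : ℤ) + 2 + (0 : ℕ)))) (dl (j, 0) : ℕ)
      (Ec k n (j + 2))
    rw [e1, e2]
    exact ha
  | succ q =>
    have e1 : -((j : ℤ) + 2 + (q + 1 : ℕ)) = -(((j + 2 : ℕ) : ℤ) + q + 1) := by push_cast; ring
    have e2 : ((dl (j, q + 1) : ℕ) : ℤ) = 2 * ((j + 2 : ℕ) : ℤ) - 1 := by
      simp only [dl]; push_cast; omega
    show Sy (Wf (bm ν 0) (1 - ν) n (j + 2) (-((j : ℤ) + 2 + (q + 1 : ℕ)))) (dl (j, q + 1) : ℕ)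
      (Dq k q (Ec k n (j + 2)))
    rw [e1, e2]
    exact hb q

theorem PV_sym (ν : k) (n : ℕ) (L : List (ℕ × ℕ)) :
    (L.map (sym k n)).prod ∈ FS k gG ((L.map dl).sum : ℕ) ∧
    PV ν n L - (L.map (sym k n)).prod ∈ FS k gG (((L.map dl).sum : ℕ) - 1) := by
  induction L with
  | nil =>
    refine ⟨?_, ?_⟩
    · show (1 : FG k) ∈ _
      rw [← C_1]
      exact SP_C _ (by simp)
    · show (1 : FG k) - 1 ∈ _
      rw [sub_self]
      exact Submodule.zero_mem _
  | cons jq L ih =>
    obtain ⟨h1, h2⟩ := ih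
    rw [List.map_cons, List.map_cons, List.prod_cons, List.sum_cons]
    set D : ℕ := (L.map dl).sum with hD
    set σ := (L.map (sym k n)).prod with hσ
    have hs := sym_FS (k := k) n jq
    refine ⟨FS_mono (by push_cast; omega) (FS_mul hs h1), ?_⟩
    have hv : PV ν n L ∈ FS k gG (D : ℤ) := by
      have h3 := Submodule.add_mem _ (FS_mono (by omega : (D : ℤ) - 1 ≤ D) h2) h1
      rwa [sub_add_cancel] at h3
    have h4 := Wf_sym ν n jq D _ hv
    have h5 := FS_mul hs h2
    have h6 := Submodule.add_mem _ (FS_mono (by push_cast; omega :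
        (D : ℤ) + dl jq - 1 ≤ ((dl jq + D : ℕ) : ℤ) - 1) h4)
      (FS_mono (by push_cast; omega : (dl jq : ℤ) + (D - 1) ≤ ((dl jq + D : ℕ) : ℤ) - 1) h5)
    have e : (Wf (bm ν 0) (1 - ν) n (jq.1 + 2) (-((jq.1 : ℤ) + 2 + jq.2)) (PV ν n L)
        - sym k n jq * PV ν n L) + sym k n jq * (PV ν n L - σ)
        = PV ν n (jq :: L) - sym k n jq * σ := by
      show _ = Wf (bm ν 0) (1 - ν) n (jq.1 + 2) (-((jq.1 : ℤ) + 2 + jq.2)) (PV ν n L)
        - sym k n jq * σ
      ring
    rw [e] at h6
    exact h6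

end Vec

section Fin

variable {k : Type*} [CommRing k] [Algebra ℚ k] (l : ℕ)

theorem eb_HS (a : ℕ × ℕ) : eb k l a ∈ HS k (fun a : Fin l × ℕ => a.2 + 1) (wG a) := by
  unfold eb
  split_ifs
  · apply Submodule.sum_mem
    intro j _
    rw [← smul_eq_C_mul]
    apply Submodule.smul_mem
    exact HS_X _ _ (by simp [wG])
  · exact Submodule.zero_mem _

theorem eb_FS (a : ℕ × ℕ) : eb k l a ∈ FS k (gw l) (gG a) := by
  unfold eb
  split_ifs
  · apply Submodule.sum_mem
    intro j _
    rw [← smul_eq_C_mul]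
    apply Submodule.smul_mem
    exact FS_X _ _ (by simp [gG, gw])
  · exact Submodule.zero_mem _

theorem aeval_SP {σ τ : Type*} (w : σ → ℕ) (w' : τ → ℕ) (le : ℤ → ℤ → Prop)
    (h0 : le 0 0)
    (hadd : ∀ a b c d, le a b → le c d → le (a + c) (b + d))
    (x : σ → MvPolynomial τ k)
    (hx : ∀ a, x a ∈ SP k (fun s => le (Finsupp.weight w' s : ℤ) (w a : ℤ))) (s : σ →₀ ℕ) :
    s.prod (fun a e => x a ^ e) ∈ SP k (fun t => le (Finsupp.weight w' t : ℤ) (Finsupp.weight w s : ℤ)) := by
  classical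
  induction s using Finsupp.induction with
  | zero =>
    rw [Finsupp.prod_zero_index, ← C_1]
    exact SP_C _ (by simpa using h0)
  | single_add a n s ha hn ih =>
    rw [Finsupp.prod_add_index' (h := fun a e => x a ^ e) (fun a => pow_zero _)
      (fun a b c => pow_add _ _ _), Finsupp.prod_single_index (h := fun a e => x a ^ e) (pow_zero _)]
    have hpow : ∀ n : ℕ, x a ^ n ∈ SP k (fun t => le (Finsupp.weight w' t : ℤ) ((n * w a : ℕ) : ℤ)) := by
      intro n
      induction n with
      | zero =>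
        rw [pow_zero, ← C_1]
        exact SP_C _ (by simpa using h0)
      | succ n ihn =>
        rw [pow_succ]
        refine SP_mul ?_ ihn (hx a)
        intro s t hs ht
        have := hadd _ _ _ _ hs ht
        rw [map_add]
        push_cast at this ⊢
        have e : ((n : ℤ) + 1) * (w a : ℤ) = n * w a + w a := by ring
        rw [e]
        exact this
    refine SP_mul ?_ (hpow n) ih
    intro s' t hs ht
    have := hadd _ _ _ _ hs ht
    rw [map_add, map_add, Finsupp.weight_single]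
    push_cast at this ⊢
    simpa using this

theorem pr_HS {N : ℤ} {f : FG k} (hf : f ∈ HS k wG N) :
    pr k l f ∈ HS k (fun a : Fin l × ℕ => a.2 + 1) N := by
  rw [as_sum f, map_sum]
  apply Submodule.sum_mem
  intro s hs
  rw [mem_support_iff] at hs
  rw [pr, aeval_monomial, algebraMap_eq, ← smul_eq_C_mul]
  apply Submodule.smul_mem
  refine SP_mono ?_ (aeval_SP (k := k) wG (fun a : Fin l × ℕ => a.2 + 1) (fun a b => a = b) rfl
    (fun a b c d h1 h2 => by rw [h1, h2]) (eb k l) (eb_HS l) s)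
  intro t ht
  rw [ht]
  exact hf s hs

theorem pr_FS {N : ℤ} {f : FG k} (hf : f ∈ FS k gG N) : pr k l f ∈ FS k (gw l) N := by
  rw [as_sum f, map_sum]
  apply Submodule.sum_mem
  intro s hs
  rw [mem_support_iff] at hs
  rw [pr, aeval_monomial, algebraMap_eq, ← smul_eq_C_mul]
  apply Submodule.smul_mem
  refine SP_mono ?_ (aeval_SP (k := k) gG (gw l) (fun a b => a ≤ b) le_rfl
    (fun a b c d h1 h2 => add_le_add h1 h2) (eb k l) (eb_FS l) s)
  intro t ht
  exact le_trans ht (hf s hs)

/-! symbols -/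

/-- elementary symmetric function by recursion -/
theorem esymm_rec {R : Type*} [CommRing R] (y : ℕ → R) (c : ℕ) : ∀ r : ℕ,
    ((Multiset.range (c + 1)).map y).esymm (r + 1)
      = ((Multiset.range c).map y).esymm (r + 1) + y c * ((Multiset.range c).map y).esymm r := by
  intro r
  rw [Multiset.range_succ, Multiset.map_cons]
  unfold Multiset.esymm
  rw [Multiset.powersetCard_cons, Multiset.map_add, Multiset.sum_add, Multiset.map_map]
  congr 1
  rw [← Multiset.sum_map_mul_left]
  congr 1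
  apply Multiset.map_congr rfl
  intro s _
  simp

theorem pr_Ec (c : ℕ) : ∀ r : ℕ, pr k l (Ec k c r)
    = ((Multiset.range c).map (fun a => eb k l (a, 0))).esymm r := by
  induction c with
  | zero =>
    intro r
    cases r with
    | zero => simp [Ec, Multiset.esymm]
    | succ r =>
      show pr k l 0 = _
      rw [map_zero, Multiset.range_zero, Multiset.map_zero, Multiset.esymm,
        Multiset.powersetCard_zero_right, Multiset.map_zero, Multiset.sum_zero]
  | succ c ih =>
    intro r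
    cases r with
    | zero =>
      rw [Ec_zero, map_one]
      simp [Multiset.esymm]
    | succ r =>
      rw [esymm_rec]
      show pr k l (Ec k c (r + 1) + X (c, 0) * Ec k c r) = _
      rw [map_add, map_mul, pr_X, ih, ih]

/-- the inclusion of `Sym(h)` -/
noncomputable def rn (k : Type*) [CommRing k] (l : ℕ) :
    MvPolynomial (Fin l) k →ₐ[k] MvPolynomial (Fin l × ℕ) k := rename (fun i => (i, 0))

theorem rn_PT (j : ℕ) : rn k l (PT l k j) = pr k l (Ec k (l + 1) (j + 2)) := by
  rw [pr_Ec, PT, ← AlgHom.comp_apply, comp_aeval, MvPolynomial.aeval_esymm_eq_multiset_esymm]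
  congr 1
  have h1 : (Finset.univ : Finset (Fin (l + 1))).val.map (fun i : Fin (l + 1) => rn k l (ebar l k i))
      = ((Finset.univ : Finset (Fin (l + 1))).val.map (fun i : Fin (l + 1) => (i : ℕ))).map
        (fun a => eb k l (a, 0)) := by
    rw [Multiset.map_map]
    apply Multiset.map_congr rfl
    intro a _
    have ha := a.2
    simp only [comp_apply, eb]
    rw [if_pos (by omega), ebar, map_sum]
    apply Finset.sum_congr rfl
    intro j _
    rw [map_mul, rn, rename_C, rename_X]
  have h2 : (Finset.univ : Finset (Fin (l + 1))).val.map (fun i : Fin (l + 1) => (i : ℕ))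
      = Multiset.range (l + 1) := by
    have := congrArg Finset.val (Fin.map_valEmbedding_univ (n := l + 1))
    rw [Finset.map_val] at this
    rw [← Finset.range_val, ← Nat.Iio_eq_range, ← this]
    rfl
  rw [h1, h2]

/-- the derivation `x_{i,1} ↦ x_{i,q+2}` -/
noncomputable def Dt (k : Type*) [CommRing k] (l q : ℕ) :
    Derivation k (MvPolynomial (Fin l × ℕ) k) (MvPolynomial (Fin l × ℕ) k) :=
  mkDerivation k (fun a => if a.2 = 0 then X (a.1, q + 1) else 0)

theorem Dt_rn (q : ℕ) (p : MvPolynomial (Fin l) k) :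
    Dt k l q (rn k l p) = ∑ i, rn k l (pderiv i p) * X (i, q + 1) := by
  induction p using MvPolynomial.induction_on with
  | C c =>
    rw [rn, rename_C, ← algebraMap_eq, Derivation.map_algebraMap]
    symm
    apply Finset.sum_eq_zero
    intro i _
    rw [pderiv_C, map_zero, zero_mul]
  | add p q hp hq =>
    rw [map_add, map_add, hp, hq, ← Finset.sum_add_distrib]
    refine Finset.sum_congr rfl fun i _ => ?_
    rw [map_add, map_add, add_mul]
  | mul_X p n hp =>
    have h1 : rn k l (X n) = X (n, 0) := by rw [rn, rename_X]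
    have h2 : Dt k l q (X (n, 0)) = X (n, q + 1) := by rw [Dt, mkDerivation_X, if_pos rfl]
    rw [map_mul, Derivation.leibniz, hp, h1, h2, smul_eq_mul, smul_eq_mul, Finset.mul_sum]
    have h3 : ∀ i ∈ (Finset.univ : Finset (Fin l)), rn k l (pderiv i (p * X n)) * X (i, q + 1)
        = (if i = n then rn k l p * X (n, q + 1) else 0)
          + X (n, 0) * (rn k l (pderiv i p) * X (i, q + 1)) := by
      intro i _
      rw [Derivation.leibniz, pderiv_X, map_add, smul_eq_mul, smul_eq_mul, map_mul, map_mul, h1]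
      by_cases h : i = n
      · subst h
        rw [Pi.single_eq_same, map_one, if_pos rfl]
        ring
      · rw [if_neg h, Pi.single_apply, if_neg (fun h0 => h h0.symm), map_zero]
        ring
    rw [Finset.sum_congr rfl h3, Finset.sum_add_distrib, Finset.sum_ite_eq', if_pos (Finset.mem_univ n)]

theorem pr_Dq (q c : ℕ) : ∀ r : ℕ, pr k l (Dq k q (Ec k c r)) = Dt k l q (pr k l (Ec k c r)) := by
  have hX : ∀ c : ℕ, pr k l (X (c, q + 1)) = Dt k l q (pr k l (X (c, 0))) := by
    intro c
    rw [pr_X, pr_X, eb, eb]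
    simp only
    split_ifs with h
    · rw [map_sum]
      refine Finset.sum_congr rfl fun j _ => ?_
      rw [← smul_eq_C_mul, ← smul_eq_C_mul, Derivation.map_smul]
      congr 1
      rw [Dt, mkDerivation_X, if_pos rfl]
    · rw [map_zero]
  induction c with
  | zero =>
    intro r
    cases r with
    | zero =>
      rw [Ec_zero, map_one (pr k l), Derivation.map_one_eq_zero, Derivation.map_one_eq_zero,
        map_zero]
    | succ r =>
      show pr k l (Dq k q 0) = Dt k l q (pr k l 0)
      rw [map_zero, map_zero, map_zero]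
  | succ c ih =>
    intro r
    cases r with
    | zero =>
      rw [Ec_zero, map_one (pr k l), Derivation.map_one_eq_zero, Derivation.map_one_eq_zero,
        map_zero]
    | succ r =>
      show pr k l (Dq k q (Ec k c (r + 1) + X (c, 0) * Ec k c r))
        = Dt k l q (pr k l (Ec k c (r + 1) + X (c, 0) * Ec k c r))
      rw [map_add, map_add, map_add, map_add, ih, Derivation.leibniz, Dq_X, map_mul,
        Derivation.leibniz, map_add, smul_eq_mul, smul_eq_mul, smul_eq_mul, smul_eq_mul, map_mul,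
        map_mul, ih, hX]

theorem pr_sym (jq : Fin l × ℕ) :
    pr k l (sym k (l + 1) ((jq.1 : ℕ), jq.2)) = gk l k jq := by
  obtain ⟨j, q⟩ := jq
  cases q with
  | zero =>
    show pr k l (Ec k (l + 1) (j + 2)) = rn k l (PT l k j)
    rw [rn_PT]
  | succ q =>
    show pr k l (Dq k q (Ec k (l + 1) (j + 2))) = ∑ i, rn k l (pderiv i (PT l k j)) * X (i, q + 1)
    rw [pr_Dq, ← rn_PT, Dt_rn]

theorem prod_map_toList {α R : Type*} [CommMonoid R] (m : α →₀ ℕ) (f : α → R) :
    ((Finsupp.toMultiset m).toList.map f).prod = m.prod (fun a e => f a ^ e) := by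
  classical
  rw [← Multiset.prod_coe, ← Multiset.map_coe, Multiset.coe_toList]
  induction m using Finsupp.induction with
  | zero => simp
  | single_add a n m ha hn ih =>
    rw [map_add, Multiset.map_add, Multiset.prod_add, ih,
      Finsupp.prod_add_index' (h := fun a e => f a ^ e) (fun a => pow_zero _)
      (fun a b c => pow_add _ _ _), Finsupp.prod_single_index (h := fun a e => f a ^ e) (pow_zero _),
      Finsupp.toMultiset_single, Multiset.map_nsmul, Multiset.prod_nsmul, Multiset.map_singleton,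
      Multiset.prod_singleton]

theorem sum_map_toList {α : Type*} (m : α →₀ ℕ) (f : α → ℕ) :
    ((Finsupp.toMultiset m).toList.map f).sum = m.sum (fun a e => e * f a) := by
  classical
  rw [← Multiset.sum_coe, ← Multiset.map_coe, Multiset.coe_toList]
  induction m using Finsupp.induction with
  | zero => simp
  | single_add a n m ha hn ih =>
    rw [map_add, Multiset.map_add, Multiset.sum_add, ih,
      Finsupp.sum_add_index' (h := fun a e => e * f a) (fun a => zero_mul _)
      (fun a b c => add_mul _ _ _), Finsupp.sum_single_index (h := fun a e => e * f a) (zero_mul _),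
      Finsupp.toMultiset_single, Multiset.map_nsmul, Multiset.sum_nsmul, Multiset.map_singleton,
      Multiset.sum_singleton, smul_eq_mul]

/-- **The PBW vectors**: for every exponent `m` there is an element of the common kernel of the
screenings of type `A_l` whose symbol is the monomial `∏ gk^m` in the generators. -/
theorem pbw (ν : k) (m : Fin l × ℕ →₀ ℕ) :
    ∃ F : MvPolynomial (Fin l × ℕ) k, (∀ i, SA (AA l) ν i 1 F = 0) ∧
      F.IsWeightedHomogeneous (fun a : Fin l × ℕ => a.2 + 1)
        (m.sum fun jq e => e * (jq.1 + 2 + jq.2)) ∧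
      ∀ s, coeff s (F - m.prod (fun jq e => gk l k jq ^ e)) ≠ 0 →
        Finsupp.weight (gw l) s < m.sum (fun jq e => e * del l jq) := by
  classical
  set L : List (ℕ × ℕ) := (Finsupp.toMultiset m).toList.map (fun jq => ((jq.1 : ℕ), jq.2)) with hL
  have hprod : pr k l (L.map (sym k (l + 1))).prod = m.prod (fun jq e => gk l k jq ^ e) := by
    rw [hL, List.map_map, map_list_prod, List.map_map, ← prod_map_toList]
    congr 1
    apply List.map_congr_left
    intro jq _
    exact pr_sym l jq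
  have hdeg : (L.map dl).sum = m.sum (fun jq e => e * del l jq) := by
    rw [hL, List.map_map, ← sum_map_toList]
    congr 1
  have hwt : (L.map (fun jq => jq.1 + 2 + jq.2)).sum = m.sum fun jq e => e * (jq.1 + 2 + jq.2) := by
    rw [hL, List.map_map, ← sum_map_toList m (fun jq => (jq.1 : ℕ) + 2 + jq.2)]
    congr 1
  refine ⟨pr k l (PV ν (l + 1) L), ?_, ?_, ?_⟩
  · intro i
    have hi := i.2
    rw [pr_SG, PV_ker ν (l + 1) L i (by omega), map_zero]
  · have h := pr_HS l (PV_HS ν (l + 1) L)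
    rw [hwt] at h
    intro s hs
    exact_mod_cast h s hs
  · have h := pr_FS l (PV_sym ν (l + 1) L).2
    rw [map_sub, hprod, hdeg] at h
    intro s hs
    have := h s hs
    omega

end Fin

end Pool.Agent.LS.MA

namespace Pool.Agent.LS

open MvPolynomial

/-- **The PBW vectors** of the W-algebra of type `A_l`, over any `ℚ`-algebra and for any `ν`. -/
theorem pbw (l : ℕ) (k : Type*) [CommRing k] [Algebra ℚ k] (ν : k) (m : Fin l × ℕ →₀ ℕ) :
    ∃ F : MvPolynomial (Fin l × ℕ) k, (∀ i, SA (AA l) ν i 1 F = 0) ∧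
      F.IsWeightedHomogeneous (fun a : Fin l × ℕ => a.2 + 1)
        (m.sum fun jq e => e * (jq.1 + 2 + jq.2)) ∧
      ∀ s, coeff s (F - m.prod (fun jq e => gk l k jq ^ e)) ≠ 0 →
        Finsupp.weight (gw l) s < m.sum (fun jq e => e * del l jq) :=
  MA.pbw l ν m

end Pool.Agent.LS
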