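import Mathlib
import Pool.Agent.LS.MA6
import Pool.Agent.LS.Frame

/-!
# Liftability of the common symbols in type `A_l`
-/

namespace Pool.Agent.LS

open MvPolynomial Finset

set_option linter.unusedSectionVars false

section LiftA

variable (l : ℕ)

theorem rn_feq {f : MvPolynomial (Fin l) ℂ} {d : ℕ} (hf : f.IsHomogeneous d) :
    FEQ (2 * d) (rename (fun i : Fin l => ((i, 0) : Fin l × ℕ)) f) := by
  classical
  intro m hm
  obtain ⟨u, hu, hu0⟩ := coeff_rename_ne_zero _ _ _ hm
  have h1 := hf hu0
  rw [← hu, ← h1, gwt, Finsupp.weight_apply, Finsupp.weight_apply, Finsupp.sum_mapDomain_index]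
  · rw [Finsupp.sum, Finsupp.sum, Finset.mul_sum]
    refine Finset.sum_congr rfl fun i _ => ?_
    simp [gw, gd]; ring
  · intro b; simp
  · intro b m n; simp [add_mul]

theorem gk_feq (t : Fin l × ℕ) : FEQ (del l t) (gk l ℂ t) := by
  classical
  obtain ⟨j, n⟩ := t
  cases n with
  | zero => exact rn_feq l (PT_homog l j)
  | succ n =>
    have h : ∀ s : Finset (Fin l), FEQ (2 * ((j : ℕ) + 2) - 1)
        (∑ i ∈ s, rename (fun i => ((i, 0) : Fin l × ℕ)) (pderiv i (PT l ℂ j)) * X (i, n + 1)) := by
      intro s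
      induction s using Finset.induction_on with
      | empty => rw [sum_empty]; exact FEQ.zero _
      | insert a s ha ih =>
        rw [sum_insert ha]
        refine FEQ.add ?_ ih
        have h1 := (rn_feq l ((PT_homog l j).pderiv (i := a))).mul (feq_X (a, n + 1))
        refine h1.congr ?_
        simp only [gd]
        omega
    exact h univ

theorem gkm_feq (m : Fin l × ℕ →₀ ℕ) :
    FEQ (m.sum (fun a e => e * del l a)) (m.prod (fun a e => gk l ℂ a ^ e)) :=
  FEQ.prod m.support (fun a => m a * del l a) (fun a => gk l ℂ a ^ (m a))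
    (fun a _ => (gk_feq l a).pow (m a))

/-- **Type `A_l` is liftable**: every homogeneous element of all the algebras `Gsub (AA l) j` is the
symbol of an element of the common kernel. -/
theorem lift_AA (ν : ℂ) (D : ℕ) (g : MvPolynomial (Fin l × ℕ) ℂ) (hg : FEQ D g)
    (hG : ∀ j, g ∈ Gsub (AA l) j) : ∃ κ, (∀ j, SA (AA l) ν j 1 κ = 0) ∧ IsSym D κ g := by
  classical
  have h1 := mem_adjoin_of_mem_Gsub (AA_simplyLaced l) (basicA l) g hG
  rw [← range_gens, gens_basicA, Algebra.adjoin_range_eq_range_aeval] at h1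
  obtain ⟨p, hp⟩ := h1
  have hp : aeval (gk l ℂ) p = g := hp
  choose F hF1 _ hF3 using fun m => pbw l ℂ ν m
  let dg : (Fin l × ℕ →₀ ℕ) → ℕ := fun m => m.sum (fun a e => e * del l a)
  let gm : (Fin l × ℕ →₀ ℕ) → MvPolynomial (Fin l × ℕ) ℂ := fun m => m.prod (fun a e => gk l ℂ a ^ e)
  have hgm : ∀ m, FEQ (dg m) (gm m) := gkm_feq l
  have hsum : g = ∑ m ∈ p.support, C (coeff m p) * gm m := by
    rw [← hp]
    conv_lhs => rw [as_sum p]
    rw [map_sum]
    refine Finset.sum_congr rfl fun m _ => ?_
    rw [aeval_monomial]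
    rfl
  have hgD : g = ∑ m ∈ p.support.filter (fun m => dg m = D), C (coeff m p) * gm m := by
    ext s
    by_cases hs : gwt s = D
    · have e := congrArg (coeff s) hsum
      rw [e, coeff_sum, coeff_sum, Finset.sum_filter]
      refine Finset.sum_congr rfl fun m _ => ?_
      split_ifs with h
      · rfl
      · rw [coeff_C_mul]
        have h2 : coeff s (gm m) = 0 := by
          by_contra h3
          exact h ((hgm m s h3).symm.trans hs)
        rw [h2, mul_zero]
    · have e1 : coeff s g = 0 := by
        by_contra h3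
        exact hs (hg s h3)
      rw [e1, coeff_sum]
      symm
      apply Finset.sum_eq_zero
      intro m hm
      rw [Finset.mem_filter] at hm
      rw [coeff_C_mul]
      have h2 : coeff s (gm m) = 0 := by
        by_contra h3
        exact hs ((hgm m s h3).trans hm.2)
      rw [h2, mul_zero]
  refine ⟨∑ m ∈ p.support.filter (fun m => dg m = D), C (coeff m p) * F m, ?_, hg, ?_⟩
  · intro j
    have e : SA (AA l) ν j 1 (∑ m ∈ p.support.filter (fun m => dg m = D), C (coeff m p) * F m)
        = ∑ m ∈ p.support.filter (fun m => dg m = D), SA (AA l) ν j 1 (C (coeff m p) * F m) :=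
      map_sum (SAl (AA l) ν j 1) _ _
    rw [e]
    apply Finset.sum_eq_zero
    intro m _
    rw [SA_C_mul, hF1, mul_zero]
  · intro s hs
    have e : (∑ m ∈ p.support.filter (fun m => dg m = D), C (coeff m p) * F m) - g
        = ∑ m ∈ p.support.filter (fun m => dg m = D), C (coeff m p) * (F m - gm m) := by
      conv_lhs => rw [hgD]
      rw [← Finset.sum_sub_distrib]
      exact Finset.sum_congr rfl fun m _ => by ring
    rw [e, coeff_sum] at hs
    obtain ⟨m, hm, hne⟩ := Finset.exists_ne_zero_of_sum_ne_zero hs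
    rw [Finset.mem_filter] at hm
    rw [coeff_C_mul] at hne
    have h2 := hF3 m s (right_ne_zero_of_mul hne)
    have h3 : m.sum (fun jq e => e * del l jq) = D := hm.2
    rw [h3] at h2
    exact h2

end LiftA

end Pool.Agent.LS
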