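import Pool.Agent.LS.Inv

/-!
# Root combinatorics of a simply laced Cartan matrix (module R)

Root lattice `Fin l → ℤ` (coefficients with respect to the simple roots).
-/

namespace Pool.Agent.LS

open MvPolynomial Finset Matrix

section Lattice

variable {l : ℕ} (A : Matrix (Fin l) (Fin l) ℤ)

/-- the form on the root lattice -/
def bil (v w : Fin l → ℤ) : ℤ := v ⬝ᵥ (A *ᵥ w)

/-- the simple root -/
def ee (i : Fin l) : Fin l → ℤ := Pi.single i 1

/-- simple reflection on the root lattice -/
def sv (i : Fin l) : Module.End ℤ (Fin l → ℤ) where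
  toFun v := v - (A *ᵥ v) i • ee i
  map_add' v w := by
    rw [Matrix.mulVec_add, Pi.add_apply, add_smul]
    abel
  map_smul' c v := by
    rw [Matrix.mulVec_smul, Pi.smul_apply, smul_sub, smul_smul, RingHom.id_apply, smul_eq_mul]

/-- word acting on the root lattice -/
def wv (L : List (Fin l)) : Module.End ℤ (Fin l → ℤ) := (L.map (sv A)).prod

variable {A}

theorem sv_apply (i : Fin l) (v : Fin l → ℤ) : sv A i v = v - (A *ᵥ v) i • ee i := rfl

@[simp] theorem wv_nil : wv A [] = 1 := rfl

@[simp] theorem wv_cons (i : Fin l) (L : List (Fin l)) : wv A (i :: L) = sv A i * wv A L := by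
  simp [wv]

@[simp] theorem wv_append (L M : List (Fin l)) : wv A (L ++ M) = wv A L * wv A M := by
  simp [wv]

theorem bil_add_left (u v w : Fin l → ℤ) : bil A (u + v) w = bil A u w + bil A v w := by
  simp [bil, add_dotProduct]

theorem bil_add_right (u v w : Fin l → ℤ) : bil A u (v + w) = bil A u v + bil A u w := by
  simp [bil, Matrix.mulVec_add, dotProduct_add]

theorem bil_sub_left (u v w : Fin l → ℤ) : bil A (u - v) w = bil A u w - bil A v w := by
  simp [bil, sub_dotProduct]

theorem bil_sub_right (u v w : Fin l → ℤ) : bil A u (v - w) = bil A u v - bil A u w := by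
  simp [bil, Matrix.mulVec_sub, dotProduct_sub]

theorem bil_smul_left (c : ℤ) (v w : Fin l → ℤ) : bil A (c • v) w = c * bil A v w := by
  rw [bil, smul_dotProduct, smul_eq_mul, bil]

theorem bil_smul_right (c : ℤ) (v w : Fin l → ℤ) : bil A v (c • w) = c * bil A v w := by
  rw [bil, Matrix.mulVec_smul, dotProduct_smul, smul_eq_mul, bil]

theorem bil_ee_left (i : Fin l) (w : Fin l → ℤ) : bil A (ee i) w = (A *ᵥ w) i := by
  simp [bil, ee]

theorem bil_eq_sum (v w : Fin l → ℤ) : bil A v w = ∑ i, ∑ j, v i * A i j * w j := by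
  simp only [bil, dotProduct, Matrix.mulVec, mul_sum, mul_assoc]

theorem bil_comm (hA : SimplyLaced A) (v w : Fin l → ℤ) : bil A v w = bil A w v := by
  rw [bil_eq_sum, bil_eq_sum, sum_comm]
  apply sum_congr rfl
  intro i _
  apply sum_congr rfl
  intro j _
  rw [hA.symm i j]
  ring

theorem bil_ee_right (hA : SimplyLaced A) (i : Fin l) (v : Fin l → ℤ) :
    bil A v (ee i) = (A *ᵥ v) i := by
  rw [bil_comm hA, bil_ee_left]

theorem bil_ee_ee (i j : Fin l) : bil A (ee i) (ee j) = A i j := by
  rw [bil_ee_left, ee, Matrix.mulVec_single_one]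
  rfl

theorem mulVec_ee (i j : Fin l) : (A *ᵥ (ee j)) i = A i j := by
  rw [ee, Matrix.mulVec_single_one]
  rfl

theorem bil_pos (hA : SimplyLaced A) (v : Fin l → ℤ) (hv : v ≠ 0) : 0 < bil A v v := by
  rw [bil_eq_sum]
  exact hA.pos v hv

theorem bil_nonneg (hA : SimplyLaced A) (v : Fin l → ℤ) : 0 ≤ bil A v v := by
  rcases eq_or_ne v 0 with h | h
  · subst h
    simp [bil]
  · exact (bil_pos hA v h).le

theorem sv_ee (hA : SimplyLaced A) (i : Fin l) : sv A i (ee i) = - ee i := by
  rw [sv_apply, mulVec_ee, hA.diag]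
  rw [two_smul]
  abel

theorem bil_sv (hA : SimplyLaced A) (i : Fin l) (v w : Fin l → ℤ) :
    bil A (sv A i v) (sv A i w) = bil A v w := by
  rw [sv_apply, sv_apply, bil_sub_left, bil_sub_right, bil_sub_right, bil_smul_left, bil_smul_left,
    bil_smul_right, bil_smul_right, bil_ee_left, bil_ee_right hA, bil_ee_ee, hA.diag]
  ring

theorem sv_sv (hA : SimplyLaced A) (i : Fin l) (v : Fin l → ℤ) : sv A i (sv A i v) = v := by
  rw [sv_apply i v, map_sub, map_smul, sv_ee hA, sv_apply]
  rw [smul_neg]
  abel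

theorem sv_mul_sv (hA : SimplyLaced A) (i : Fin l) : sv A i * sv A i = 1 := by
  apply LinearMap.ext
  intro v
  exact sv_sv hA i v

theorem bil_wv (hA : SimplyLaced A) (L : List (Fin l)) (v w : Fin l → ℤ) :
    bil A (wv A L v) (wv A L w) = bil A v w := by
  induction L with
  | nil => rfl
  | cons i L ih =>
    rw [wv_cons, Module.End.mul_apply, Module.End.mul_apply, bil_sv hA, ih]

theorem wv_reverse_mul (hA : SimplyLaced A) (L : List (Fin l)) : wv A L.reverse * wv A L = 1 := by
  induction L with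
  | nil => simp
  | cons i L ih =>
    rw [List.reverse_cons, wv_append, wv_cons, wv_cons, wv_nil, mul_one, mul_assoc,
      ← mul_assoc (sv A i) (sv A i), sv_mul_sv hA, one_mul, ih]

theorem wv_mul_reverse (hA : SimplyLaced A) (L : List (Fin l)) : wv A L * wv A L.reverse = 1 := by
  have h := wv_reverse_mul hA L.reverse
  rwa [List.reverse_reverse] at h

/-- roots of the lattice -/
def IsRt (A : Matrix (Fin l) (Fin l) ℤ) (v : Fin l → ℤ) : Prop := bil A v v = 2

theorem isRt_ee (hA : SimplyLaced A) (i : Fin l) : IsRt A (ee i) := by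
  rw [IsRt, bil_ee_ee, hA.diag]

theorem IsRt.sv (hA : SimplyLaced A) {v : Fin l → ℤ} (h : IsRt A v) (i : Fin l) :
    IsRt A (sv A i v) := by
  rw [IsRt, bil_sv hA]
  exact h

theorem IsRt.wv (hA : SimplyLaced A) {v : Fin l → ℤ} (h : IsRt A v) (L : List (Fin l)) :
    IsRt A (wv A L v) := by
  rw [IsRt, bil_wv hA]
  exact h

theorem IsRt.neg {v : Fin l → ℤ} (h : IsRt A v) : IsRt A (-v) := by
  have : bil A (-v) (-v) = bil A v v := by
    simp [bil, Matrix.mulVec_neg]
  rw [IsRt, this]
  exact h

theorem IsRt.ne_zero {v : Fin l → ℤ} (h : IsRt A v) : v ≠ 0 := by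
  rintro rfl
  simp [IsRt, bil] at h

/-- the lattice is even -/
theorem even_bil (hA : SimplyLaced A) (v : Fin l → ℤ) : Even (bil A v v) := by
  let φ : (Fin l → ℤ) →+ ZMod 2 :=
    { toFun := fun v => ((bil A v v : ℤ) : ZMod 2)
      map_zero' := by simp [bil]
      map_add' := by
        intro v w
        have : bil A (v + w) (v + w) = bil A v v + bil A w w + 2 * bil A v w := by
          rw [bil_add_left, bil_add_right, bil_add_right, bil_comm hA w v]
          ring
        rw [this]
        push_cast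
        have h2 : (2 : ZMod 2) = 0 := rfl
        rw [h2]
        ring }
  have hφ : φ = 0 := by
    apply AddMonoidHom.functions_ext
    intro i x
    have h1 : bil A (Pi.single i x) (Pi.single i x) = 2 * (x * x) := by
      have : (Pi.single i x : Fin l → ℤ) = x • ee i := by
        rw [ee, ← Pi.single_smul, smul_eq_mul, mul_one]
      rw [this, bil_smul_left, bil_smul_right, bil_ee_ee, hA.diag]
      ring
    show ((bil A (Pi.single i x) (Pi.single i x) : ℤ) : ZMod 2) = 0
    rw [h1]
    push_cast
    have h2 : (2 : ZMod 2) = 0 := rfl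
    rw [h2, zero_mul]
  have h3 : ((bil A v v : ℤ) : ZMod 2) = 0 := by
    have : φ v = 0 := by rw [hφ]; rfl
    exact this
  rw [ZMod.intCast_zmod_eq_zero_iff_dvd] at h3
  exact even_iff_two_dvd.2 (by exact_mod_cast h3)

theorem two_le_bil (hA : SimplyLaced A) (v : Fin l → ℤ) (hv : v ≠ 0) : 2 ≤ bil A v v := by
  have h1 := bil_pos hA v hv
  obtain ⟨k, hk⟩ := even_bil hA v
  omega

/-- a root is non-negative or non-positive -/
theorem IsRt.pos_or_neg (hA : SimplyLaced A) {v : Fin l → ℤ} (h : IsRt A v) :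
    0 ≤ v ∨ v ≤ 0 := by
  set p : Fin l → ℤ := v ⊔ 0 with hp
  set n : Fin l → ℤ := (-v) ⊔ 0 with hn
  have hvpn : v = p - n := by
    funext i
    simp only [hp, hn, Pi.sub_apply, Pi.sup_apply, Pi.neg_apply, Pi.zero_apply]
    rcases le_total (v i) 0 with h1 | h1
    · rw [max_eq_right h1, max_eq_left (by linarith)]; ring
    · rw [max_eq_left h1, max_eq_right (by linarith)]; ring
  have hpn : bil A p n ≤ 0 := by
    rw [bil_eq_sum]
    apply sum_nonpos
    intro i _
    apply sum_nonpos
    intro j _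
    have hpi : 0 ≤ p i := le_max_right _ _
    have hnj : 0 ≤ n j := le_max_right _ _
    rcases eq_or_ne i j with hij | hij
    · subst hij
      have : p i * n i = 0 := by
        simp only [hp, hn, Pi.sup_apply, Pi.neg_apply, Pi.zero_apply]
        rcases le_total (v i) 0 with h1 | h1
        · rw [max_eq_right h1, zero_mul]
        · rw [max_eq_right (a := -v i) (by linarith), mul_zero]
      have h2 : p i * A i i * n i = A i i * (p i * n i) := by ring
      rw [h2, this, mul_zero]
    · have hAij : A i j ≤ 0 := by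
        rcases hA.off i j hij with h1 | h1 <;> rw [h1] <;> norm_num
      have : 0 ≤ p i * n j := mul_nonneg hpi hnj
      nlinarith
  have hexp : bil A v v = bil A p p + bil A n n - 2 * bil A p n := by
    rw [hvpn, bil_sub_left, bil_sub_right, bil_sub_right, bil_comm hA n p]
    ring
  have hv2 : bil A v v = 2 := h
  by_contra hcon
  push Not at hcon
  obtain ⟨hc1, hc2⟩ := hcon
  have hpne : p ≠ 0 := by
    intro h0
    apply hc2
    intro i
    have : p i = 0 := by rw [h0]; rfl
    rw [hp, Pi.sup_apply, Pi.zero_apply] at this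
    rw [Pi.zero_apply, ← this]
    exact le_max_left _ _
  have hnne : n ≠ 0 := by
    intro h0
    apply hc1
    intro i
    have : n i = 0 := by rw [h0]; rfl
    rw [hn, Pi.sup_apply, Pi.neg_apply, Pi.zero_apply] at this
    have h3 : -v i ≤ 0 := by
      rw [← this]
      exact le_max_left _ _
    rw [Pi.zero_apply]
    linarith
  have h4 := two_le_bil hA p hpne
  have h5 := two_le_bil hA n hnne
  linarith

theorem sv_apply_ne {i k : Fin l} (h : k ≠ i) (v : Fin l → ℤ) : sv A i v k = v k := by
  rw [sv_apply]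
  simp [ee, h]

/-- a simple reflection permutes the other positive roots -/
theorem IsRt.sv_nonneg (hA : SimplyLaced A) {v : Fin l → ℤ} (h : IsRt A v) (hv : 0 ≤ v)
    (i : Fin l) (hne : v ≠ ee i) : 0 ≤ LS.sv A i v := by
  rcases (h.sv hA i).pos_or_neg hA with h1 | h1
  · exact h1
  · exfalso
    have h2 : ∀ k, k ≠ i → v k = 0 := by
      intro k hk
      have := h1 k
      rw [sv_apply_ne hk] at this
      exact le_antisymm this (hv k)
    have h3 : v = v i • ee i := by
      funext k
      by_cases hk : k = i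
      · subst hk
        simp [ee]
      · rw [h2 k hk]
        simp [ee, hk]
    have h4 : bil A v v = 2 * (v i * v i) := by
      conv_lhs => rw [h3]
      rw [bil_smul_left, bil_smul_right, bil_ee_ee, hA.diag]
      ring
    have h5 : v i * v i = 1 := by
      have := h
      unfold IsRt at this
      linarith
    have h6 : v i = 1 := by
      have h7 : 0 ≤ v i := hv i
      nlinarith
    apply hne
    rw [h3, h6, one_smul]

theorem ee_ne_nonpos (i : Fin l) : ¬ (ee i ≤ 0) := by
  intro h
  have := h i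
  simp [ee] at this

/-- exchange -/
theorem exchange (hA : SimplyLaced A) (i : Fin l) (L : List (Fin l)) (h : wv A L (ee i) ≤ 0) :
    ∃ (L1 : List (Fin l)) (j : Fin l) (L2 : List (Fin l)), L = L1 ++ j :: L2 ∧
      wv A L2 (ee i) = ee j := by
  induction L with
  | nil => exact absurd h (ee_ne_nonpos i)
  | cons j L ih =>
    by_cases h1 : wv A L (ee i) ≤ 0
    · obtain ⟨L1, j', L2, hL, h2⟩ := ih h1
      exact ⟨j :: L1, j', L2, by rw [hL]; rfl, h2⟩
    · have hrt : IsRt A (wv A L (ee i)) := (isRt_ee hA i).wv hA L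
      have hpos : 0 ≤ wv A L (ee i) := (hrt.pos_or_neg hA).resolve_right h1
      refine ⟨[], j, L, rfl, ?_⟩
      by_contra hne
      have h3 := hrt.sv_nonneg hA hpos j hne
      rw [wv_cons, Module.End.mul_apply] at h
      have h4 : sv A j (wv A L (ee i)) = 0 := le_antisymm h h3
      exact (hrt.sv hA j).ne_zero h4

/-- conjugation of a simple reflection -/
theorem wv_sv_of_eq (hA : SimplyLaced A) {L : List (Fin l)} {i j : Fin l}
    (h : wv A L (ee i) = ee j) : wv A L * sv A i = sv A j * wv A L := by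
  apply LinearMap.ext
  intro v
  rw [Module.End.mul_apply, Module.End.mul_apply, sv_apply, sv_apply, map_sub, map_smul, h]
  congr 2
  rw [← bil_ee_left, ← bil_ee_left, ← h, bil_wv hA]

theorem delete (hA : SimplyLaced A) (i : Fin l) (L : List (Fin l)) (h : wv A L (ee i) ≤ 0) :
    ∃ M : List (Fin l), M.length < L.length ∧ wv A L * sv A i = wv A M := by
  obtain ⟨L1, j, L2, rfl, h2⟩ := exchange hA i L h
  refine ⟨L1 ++ L2, by simp, ?_⟩
  rw [wv_append, wv_cons, wv_append, mul_assoc, mul_assoc, wv_sv_of_eq hA h2, ← mul_assoc (sv A j),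
    sv_mul_sv hA, one_mul]

/-- a non-trivial element of the Weyl group sends some simple root to a negative root -/
theorem exists_neg (hA : SimplyLaced A) (L : List (Fin l)) (h : wv A L ≠ 1) :
    ∃ i, wv A L (ee i) ≤ 0 := by
  -- minimal word
  classical
  have hex : ∃ n, ∃ M : List (Fin l), wv A M = wv A L ∧ M.length = n := ⟨_, L, rfl, rfl⟩
  obtain ⟨M, hM, hlen⟩ := Nat.find_spec hex
  have hmin : ∀ M' : List (Fin l), wv A M' = wv A L → M.length ≤ M'.length := by
    intro M' hM'
    rw [hlen]
    exact Nat.find_min' hex ⟨M', hM', rfl⟩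
  rcases List.eq_nil_or_concat M with h0 | ⟨M', i, h1⟩
  · rw [h0] at hM
    exact absurd hM.symm h
  · refine ⟨i, ?_⟩
    rw [List.concat_eq_append] at h1
    rw [h1] at hM
    have hM2 : wv A M' * sv A i = wv A L := by
      rw [← hM, wv_append, wv_cons, wv_nil, mul_one]
    have h3 : ¬ wv A M' (ee i) ≤ 0 := by
      intro h4
      obtain ⟨M'', h5, h6⟩ := delete hA i M' h4
      have := hmin M'' (by rw [← h6, hM2])
      rw [h1] at this
      simp at this
      omega
    have h4 : 0 ≤ wv A M' (ee i) := (((isRt_ee hA i).wv hA M').pos_or_neg hA).resolve_right h3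
    rw [← hM2, Module.End.mul_apply, sv_ee hA, map_neg]
    exact neg_nonpos.2 h4

/-- every positive root is conjugate to a simple root -/
theorem conj_simple (hA : SimplyLaced A) (v : Fin l → ℤ) (h : IsRt A v) (hv : 0 ≤ v) :
    ∃ (L : List (Fin l)) (i : Fin l), wv A L v = ee i := by
  have key : ∀ (n : ℕ) (v : Fin l → ℤ), IsRt A v → 0 ≤ v → ∑ i, v i ≤ n →
      ∃ (L : List (Fin l)) (i : Fin l), wv A L v = ee i := by
    intro n
    induction n with
    | zero =>
      intro v h hv hn
      exfalso
      apply h.ne_zero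
      have h1 : ∑ i, v i = 0 := le_antisymm (by exact_mod_cast hn) (sum_nonneg fun i _ => hv i)
      funext i
      exact (sum_eq_zero_iff_of_nonneg fun i _ => hv i).1 h1 i (mem_univ i)
    | succ n ih =>
      intro v h hv hn
      have h1 : ∃ i, 0 < v i * (A *ᵥ v) i := by
        by_contra hcon
        push Not at hcon
        have h2 : bil A v v ≤ 0 := by
          rw [bil, dotProduct]
          exact sum_nonpos fun i _ => hcon i
        have h3 : bil A v v = 2 := h
        omega
      obtain ⟨i, hi⟩ := h1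
      have hvi : 0 ≤ v i := hv i
      have hAi : 0 < (A *ᵥ v) i := by
        by_contra hcon
        push Not at hcon
        nlinarith
      by_cases hne : v = ee i
      · exact ⟨[], i, by rw [wv_nil]; exact hne⟩
      · have hs := h.sv_nonneg hA hv i hne
        have hsum : ∑ k, sv A i v k = ∑ k, v k - (A *ᵥ v) i := by
          have : ∀ k, sv A i v k = v k - (A *ᵥ v) i * ee i k := fun k => rfl
          simp_rw [this]
          rw [sum_sub_distrib, ← mul_sum]
          congr 1
          rw [ee, Finset.sum_pi_single']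
          simp
        obtain ⟨L, j, hL⟩ := ih (sv A i v) (h.sv hA i) hs (by rw [hsum]; push_cast at hn; omega)
        exact ⟨L ++ [i], j, by rw [wv_append, wv_cons, wv_nil, mul_one, Module.End.mul_apply, hL]⟩
  exact key (∑ i, v i).toNat v h hv (by rw [Int.toNat_of_nonneg (sum_nonneg fun i _ => hv i)])

theorem det_ne_zero (hA : SimplyLaced A) : A.det ≠ 0 := by
  intro h
  obtain ⟨v, hv, h1⟩ := Matrix.exists_mulVec_eq_zero_iff.2 h
  have := bil_pos hA v hv
  rw [bil, h1, dotProduct_zero] at this
  exact lt_irrefl _ this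

theorem cauchy (hA : SimplyLaced A) (v u : Fin l → ℤ) :
    bil A v u ^ 2 ≤ bil A v v * bil A u u := by
  rcases eq_or_ne u 0 with h | h
  · subst h
    simp [bil]
  · have hu := bil_pos hA u h
    have h1 := bil_nonneg hA ((bil A u u) • v - (bil A v u) • u)
    rw [bil_sub_left, bil_sub_right, bil_sub_right, bil_smul_left, bil_smul_left, bil_smul_right,
      bil_smul_right, bil_smul_left, bil_smul_left, bil_smul_right, bil_smul_right,
      bil_comm hA u v] at h1
    have h2 : 0 ≤ bil A u u * (bil A v v * bil A u u - bil A v u ^ 2) := by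
      nlinarith
    have h3 := nonneg_of_mul_nonneg_right h2 hu
    linarith

theorem finite_roots (hA : SimplyLaced A) : {v : Fin l → ℤ | IsRt A v}.Finite := by
  classical
  set u : Fin l → (Fin l → ℤ) := fun i => A.adjugate *ᵥ ee i with hu
  have hAu : ∀ i, A *ᵥ (u i) = A.det • ee i := by
    intro i
    rw [hu, Matrix.mulVec_mulVec, Matrix.mul_adjugate, Matrix.smul_mulVec, Matrix.one_mulVec]
  have hbil : ∀ (v : Fin l → ℤ) i, bil A v (u i) = A.det * v i := by
    intro v i
    rw [bil, hAu, dotProduct_smul, smul_eq_mul, ee, dotProduct_single, mul_one]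
  apply (Set.finite_Icc (fun i => -(2 * bil A (u i) (u i))) (fun i => 2 * bil A (u i) (u i))).subset
  intro v hv
  have hv2 : bil A v v = 2 := hv
  have hb : ∀ i, |v i| ≤ 2 * bil A (u i) (u i) := by
    intro i
    have h1 := cauchy hA v (u i)
    rw [hbil, hv2] at h1
    have h2 : (1 : ℤ) ≤ A.det ^ 2 := by
      have : 0 < A.det ^ 2 := by
        have := det_ne_zero hA
        positivity
      omega
    have h3 : v i ^ 2 ≤ (A.det * v i) ^ 2 := by
      rw [mul_pow]
      nlinarith [sq_nonneg (v i)]
    have h4 : |v i| ≤ v i ^ 2 := by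
      rw [← sq_abs]
      rcases eq_or_ne (v i) 0 with h0 | h0
      · rw [h0]; simp
      · have : 1 ≤ |v i| := Int.one_le_abs h0
        nlinarith
    linarith
  exact ⟨fun i => (abs_le.1 (hb i)).1, fun i => (abs_le.1 (hb i)).2⟩

/-- the positive roots as a finset of integer vectors -/
noncomputable def posRts (hA : SimplyLaced A) : Finset (Fin l → ℤ) :=
  ((finite_roots hA).subset
    (fun v (h : v ∈ {v : Fin l → ℤ | IsRt A v ∧ 0 ≤ v}) => h.1)).toFinset

theorem mem_posRts (hA : SimplyLaced A) (v : Fin l → ℤ) :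
    v ∈ posRts hA ↔ IsRt A v ∧ 0 ≤ v := by
  simp [posRts]

/-- every regular functional is conjugate to a dominant one -/
theorem exists_dominant (hA : SimplyLaced A) {F : Type*} [AddCommGroup F] [LinearOrder F]
    [IsOrderedAddMonoid F] (φ : (Fin l → ℤ) →+ F)
    (hφ : ∀ b, IsRt A b → φ b ≠ 0) : ∃ L : List (Fin l), ∀ i, 0 < φ (wv A L (ee i)) := by
  classical
  let N : List (Fin l) → ℕ := fun L => ((posRts hA).filter (fun b => φ (wv A L b) < 0)).card
  obtain ⟨L, hL⟩ : ∃ L, ∀ M, N L ≤ N M := by
    have hex : ∃ n, ∃ L, N L = n := ⟨_, [], rfl⟩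
    obtain ⟨L, hL⟩ := Nat.find_spec hex
    exact ⟨L, fun M => by rw [hL]; exact Nat.find_min' hex ⟨M, rfl⟩⟩
  refine ⟨L, fun i => ?_⟩
  by_contra hcon
  have hneg : φ (wv A L (ee i)) < 0 :=
    lt_of_le_of_ne (not_lt.1 hcon) (hφ _ ((isRt_ee hA i).wv hA L))
  have hlt : N (L ++ [i]) < N L := by
    have hmem : ee i ∈ (posRts hA).filter (fun b => φ (wv A L b) < 0) := by
      rw [mem_filter, mem_posRts]
      refine ⟨⟨isRt_ee hA i, ?_⟩, hneg⟩
      intro k
      by_cases hk : k = i
      · subst hk; simp [ee]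
      · simp [ee, hk]
    have hwv : ∀ b, wv A (L ++ [i]) b = wv A L (sv A i b) := by
      intro b
      rw [wv_append, wv_cons, wv_nil, mul_one, Module.End.mul_apply]
    have hle : N (L ++ [i]) ≤
        (((posRts hA).filter (fun b => φ (wv A L b) < 0)).erase (ee i)).card := by
      apply card_le_card_of_injOn (fun b => sv A i b)
      · intro b hb
        rw [mem_coe, mem_filter, mem_posRts, hwv] at hb
        obtain ⟨⟨hb1, hb2⟩, hb3⟩ := hb
        have hbne : b ≠ ee i := by
          rintro rfl
          rw [sv_ee hA, map_neg, map_neg] at hb3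
          exact absurd (neg_pos.2 hneg) (not_lt.2 hb3.le)
        rw [mem_coe, mem_erase, mem_filter, mem_posRts]
        refine ⟨?_, ⟨hb1.sv hA i, hb1.sv_nonneg hA hb2 i hbne⟩, hb3⟩
        intro h1
        have h1' : sv A i b = ee i := h1
        have h2 := sv_sv hA i b
        rw [h1', sv_ee hA] at h2
        have h3 := hb2 i
        rw [← h2] at h3
        simp [ee] at h3
      · intro b _ c _ hbc
        have h1 : sv A i b = sv A i c := hbc
        rw [← sv_sv hA i b, h1, sv_sv hA]
    exact lt_of_le_of_lt hle (card_erase_lt_of_mem hmem)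
  exact absurd (hL (L ++ [i])) (not_le.2 hlt)

/-- the Weyl group acts freely on the regular functionals -/
theorem free_action (hA : SimplyLaced A) {F : Type*} [AddCommGroup F] [LinearOrder F]
    [IsOrderedAddMonoid F] (φ : (Fin l → ℤ) →+ F)
    (hφ : ∀ b, IsRt A b → φ b ≠ 0) (L : List (Fin l)) (hL : ∀ v, φ (wv A L v) = φ v) :
    wv A L = 1 := by
  obtain ⟨M, hM⟩ := exists_dominant hA φ hφ
  by_contra hne
  have hne2 : wv A (M.reverse ++ L ++ M) ≠ 1 := by
    intro h
    apply hne
    rw [wv_append, wv_append] at h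
    have h1 : wv A M * (wv A M.reverse * wv A L * wv A M) * wv A M.reverse = wv A L := by
      rw [← mul_assoc, ← mul_assoc, wv_mul_reverse hA, one_mul, mul_assoc, wv_mul_reverse hA,
        mul_one]
    rw [← h1, h, mul_one, wv_mul_reverse hA]
  obtain ⟨i, hi⟩ := exists_neg hA _ hne2
  have h1 : φ (wv A M (wv A (M.reverse ++ L ++ M) (ee i))) = φ (wv A M (ee i)) := by
    rw [← Module.End.mul_apply, wv_append, wv_append, ← mul_assoc, ← mul_assoc, wv_mul_reverse hA,
      one_mul, Module.End.mul_apply, hL]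
  have h2 : φ (wv A M (wv A (M.reverse ++ L ++ M) (ee i))) ≤ 0 := by
    have h3 : ∀ v : Fin l → ℤ, v ≤ 0 → φ (wv A M v) ≤ 0 := by
      intro v hv
      have h4 : v = ∑ k, v k • ee k := by
        funext m
        simp [ee, Finset.sum_apply, Pi.single_apply]
      rw [h4, map_sum, map_sum]
      apply sum_nonpos
      intro k _
      rw [map_zsmul, map_zsmul]
      have h5 : (0 : F) ≤ (-(v k)) • φ (wv A M (ee k)) :=
        zsmul_nonneg (hM k).le (neg_nonneg.2 (hv k))
      rw [neg_smul] at h5
      exact neg_nonneg.1 h5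
    exact h3 _ hi
  rw [h1] at h2
  exact absurd (hM i) (not_lt.2 h2)

/-- the linear functional on `ℚ^l` attached to a lattice vector -/
def fn (v : Fin l → ℤ) : (Fin l → ℚ) →ₗ[ℚ] ℚ := ∑ j, (v j : ℚ) • LinearMap.proj j

theorem fn_apply (v : Fin l → ℤ) (x : Fin l → ℚ) : fn v x = ∑ j, (v j : ℚ) * x j := by
  simp [fn, LinearMap.sum_apply]

/-- pairing with a rational point -/
def pr (x : Fin l → ℚ) : (Fin l → ℤ) →+ ℚ where
  toFun v := fn v x
  map_zero' := by simp [fn_apply]
  map_add' v w := by simp [fn_apply, add_mul, sum_add_distrib]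

theorem pr_apply (x : Fin l → ℚ) (v : Fin l → ℤ) : pr x v = fn v x := rfl

theorem exists_regular_on (hA : SimplyLaced A) (n : Fin l → ℤ)
    (hn : ∀ b, IsRt A b → ∃ k m, b k * n m ≠ b m * n k) :
    ∃ x : Fin l → ℚ, fn n x = 0 ∧ ∀ b, IsRt A b → fn b x ≠ 0 := by
  classical
  let H : Submodule ℚ (Fin l → ℚ) := LinearMap.ker (fn n)
  let s : Finset (Subspace ℚ H) :=
    (finite_roots hA).toFinset.image (fun b => LinearMap.ker ((fn b) ∘ₗ H.subtype))
  have htop : (⊤ : Subspace ℚ H) ∉ s := by
    intro h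
    rw [mem_image] at h
    obtain ⟨b, hb, hker⟩ := h
    have hb' : IsRt A b := by simpa using hb
    obtain ⟨k, m, hkm⟩ := hn b hb'
    let x : Fin l → ℚ := (n m : ℚ) • Pi.single k 1 - (n k : ℚ) • Pi.single m 1
    have hfx : ∀ v : Fin l → ℤ, fn v x = v k * n m - v m * n k := by
      intro v
      rw [map_sub, map_smul, map_smul, fn_apply, fn_apply]
      simp [Pi.single_apply]
      ring
    have hx : x ∈ H := by
      rw [LinearMap.mem_ker, hfx]
      ring
    have h1 : (⟨x, hx⟩ : H) ∈ LinearMap.ker ((fn b) ∘ₗ H.subtype) := by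
      rw [hker]
      trivial
    rw [LinearMap.mem_ker, LinearMap.comp_apply, Submodule.subtype_apply, hfx] at h1
    apply hkm
    have h2 : ((b k : ℚ)) * n m = b m * n k := by linarith
    exact_mod_cast h2
  have h1 := Subspace.biUnion_ne_univ_of_top_notMem htop
  obtain ⟨x, hx⟩ := (Set.ne_univ_iff_exists_notMem _).1 h1
  refine ⟨x, x.2, fun b hb h0 => hx ?_⟩
  rw [Set.mem_iUnion₂]
  refine ⟨LinearMap.ker ((fn b) ∘ₗ H.subtype), ?_, ?_⟩
  · rw [mem_image]
    exact ⟨b, by simpa using hb, rfl⟩
  · rw [SetLike.mem_coe, LinearMap.mem_ker]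
    exact h0

theorem ext_ee {f g : Module.End ℤ (Fin l → ℤ)} (h : ∀ i, f (ee i) = g (ee i)) : f = g := by
  apply LinearMap.pi_ext
  intro i x
  have : (Pi.single i x : Fin l → ℤ) = x • ee i := by
    rw [ee, ← Pi.single_smul, smul_eq_mul, mul_one]
  rw [this, map_smul, map_smul, h]

/-- an element of the Weyl group which acts as a reflection (all `w v - v` proportional to a fixed
complex vector) is attached to a root. -/
theorem reflection_root (hA : SimplyLaced A) (L : List (Fin l)) (hL : wv A L ≠ 1)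
    (q : Fin l → ℂ) (h : ∀ j, ∃ c : ℂ, ∀ k, (((wv A L (ee j) - ee j) k : ℤ) : ℂ) = c * q k) :
    ∃ b : Fin l → ℤ, IsRt A b ∧ 0 ≤ b ∧ ∃ c : ℂ, c ≠ 0 ∧ ∀ k, ((b k : ℤ) : ℂ) = c * q k := by
  choose c hc using h
  obtain ⟨j, hj⟩ : ∃ j, wv A L (ee j) ≠ ee j := by
    by_contra hcon
    push Not at hcon
    exact hL (ext_ee (fun i => by rw [hcon i]; rfl))
  set n : Fin l → ℤ := wv A L (ee j) - ee j with hn
  have hn0 : n ≠ 0 := sub_ne_zero.2 hj
  obtain ⟨m0, hm0⟩ : ∃ m, n m ≠ 0 := by
    by_contra hcon
    push Not at hcon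
    exact hn0 (funext hcon)
  have hcj : c j ≠ 0 := by
    intro h0
    have h1 := hc j m0
    rw [h0, zero_mul] at h1
    exact hm0 (by exact_mod_cast h1)
  have hqm0 : q m0 ≠ 0 := by
    intro h0
    have h1 := hc j m0
    rw [h0, mul_zero] at h1
    exact hm0 (by exact_mod_cast h1)
  -- proportional root
  have hex : ∃ b, IsRt A b ∧ ∀ k m, b k * n m = b m * n k := by
    by_contra hcon
    push Not at hcon
    obtain ⟨x, hx0, hx⟩ := exists_regular_on hA n hcon
    apply hL
    apply free_action hA (pr x) (fun b hb => hx b hb)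
    have hj' : ∀ i, pr x (wv A L (ee i)) = pr x (ee i) := by
      intro i
      have h1 : pr x (n m0 • (wv A L (ee i) - ee i)) = 0 := by
        have h2 : n m0 • (wv A L (ee i) - ee i) = (wv A L (ee i) - ee i) m0 • n := by
          funext k
          rw [Pi.smul_apply, Pi.smul_apply, smul_eq_mul, smul_eq_mul]
          have h3 := hc j m0
          have h4 := hc i k
          have h5 := hc i m0
          have h6 := hc j k
          have h7 : ((n m0 * (wv A L (ee i) - ee i) k : ℤ) : ℂ)
              = (((wv A L (ee i) - ee i) m0 * n k : ℤ) : ℂ) := by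
            rw [Int.cast_mul, Int.cast_mul, h4, h5, hn, h3, h6]
            ring
          exact_mod_cast h7
        rw [h2, map_zsmul, pr_apply x n, hx0, smul_zero]
      rw [map_zsmul, zsmul_eq_mul, map_sub] at h1
      have h2 : ((n m0 : ℤ) : ℚ) ≠ 0 := by exact_mod_cast hm0
      rcases mul_eq_zero.1 h1 with h3 | h3
      · exact absurd h3 h2
      · exact sub_eq_zero.1 h3
    intro v
    have h4 : v = ∑ k, v k • ee k := by
      funext m
      simp [ee, Finset.sum_apply, Pi.single_apply]
    rw [h4, map_sum, map_sum, map_sum]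
    apply sum_congr rfl
    intro k _
    rw [map_zsmul, map_zsmul, map_zsmul, hj']
  have hfin : ∀ b, IsRt A b → (∀ k m, b k * n m = b m * n k) →
      ∃ c : ℂ, c ≠ 0 ∧ ∀ k, ((b k : ℤ) : ℂ) = c * q k := by
    intro b hb hbn
    have hk : ∀ k, ((b k : ℤ) : ℂ) = ((b m0 : ℤ) : ℂ) / q m0 * q k := by
      intro k
      have h1 : ((b k * n m0 : ℤ) : ℂ) = ((b m0 * n k : ℤ) : ℂ) := by
        rw [hbn k m0]
      rw [Int.cast_mul, Int.cast_mul, hn, hc j m0, hc j k] at h1
      field_simp
      have h2 : c j * (((b k : ℤ) : ℂ) * q m0) = c j * (((b m0 : ℤ) : ℂ) * q k) := by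
        linear_combination h1
      exact mul_left_cancel₀ hcj h2
    refine ⟨_, ?_, hk⟩
    intro h0
    apply hb.ne_zero
    funext k
    have := hk k
    rw [h0, zero_mul] at this
    exact_mod_cast this
  obtain ⟨b, hb, hbn⟩ := hex
  rcases hb.pos_or_neg hA with h1 | h1
  · obtain ⟨c, hc0, hc1⟩ := hfin b hb hbn
    exact ⟨b, hb, h1, c, hc0, hc1⟩
  · have hbn' : ∀ k m, (-b) k * n m = (-b) m * n k := by
      intro k m
      rw [Pi.neg_apply, Pi.neg_apply, neg_mul, neg_mul, hbn k m]
    obtain ⟨c, hc0, hc1⟩ := hfin (-b) hb.neg hbn'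
    exact ⟨-b, hb.neg, neg_nonneg.2 h1, c, hc0, hc1⟩

/-- the pointwise stabiliser of a simple wall -/
theorem eq_one_or_sv (hA : SimplyLaced A) (i : Fin l) (L : List (Fin l))
    (h : ∀ j, ∃ c : ℤ, wv A L (ee j) = ee j + c • ee i) : wv A L = 1 ∨ wv A L = sv A i := by
  have key : ∀ (L : List (Fin l)), (∀ j, ∃ c : ℤ, wv A L (ee j) = ee j + c • ee i) →
      wv A L (ee i) = ee i → wv A L = 1 := by
    intro L h hi
    apply ext_ee
    intro j
    obtain ⟨c, hc⟩ := h j
    have h1 := bil_wv hA L (ee j) (ee i)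
    rw [hc, hi, bil_add_left, bil_smul_left, bil_ee_ee, bil_ee_ee, hA.diag] at h1
    have h2 : c = 0 := by omega
    rw [hc, h2, zero_smul, add_zero]
    rfl
  obtain ⟨c, hc⟩ := h i
  have h1 := bil_wv hA L (ee i) (ee i)
  have h2 : ee i + c • ee i = (1 + c) • ee i := by rw [add_smul, one_smul]
  rw [hc, h2, bil_smul_left, bil_smul_right, bil_ee_ee, hA.diag] at h1
  have h3 : (1 + c) * (1 + c) = 1 := by linarith
  rcases mul_self_eq_one_iff.1 h3 with h4 | h4
  · left
    apply key L h
    rw [hc, h2, h4, one_smul]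
  · right
    have h5 : wv A (L ++ [i]) = 1 := by
      apply key
      · intro j
        obtain ⟨c', hc'⟩ := h j
        refine ⟨c' + A i j, ?_⟩
        rw [wv_append, wv_cons, wv_nil, mul_one, Module.End.mul_apply, sv_apply, map_sub, map_zsmul,
          hc', mulVec_ee, hc, h2, h4]
        rw [add_smul, smul_smul]
        module
      · rw [wv_append, wv_cons, wv_nil, mul_one, Module.End.mul_apply, sv_ee hA, map_neg, hc, h2, h4,
          neg_smul, one_smul, neg_neg]
    rw [wv_append, wv_cons, wv_nil, mul_one] at h5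
    calc wv A L = wv A L * (sv A i * sv A i) := by rw [sv_mul_sv hA, mul_one]
      _ = sv A i := by rw [← mul_assoc, h5, one_mul]

end Lattice

end Pool.Agent.LS
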