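import Pool.Agent.LS.WRdef

/-!
# The Weyl group acting on the whole polynomial ring
-/

namespace Pool.Agent.LS

open MvPolynomial Finset Matrix

section WR

variable {l : ℕ} {A : Matrix (Fin l) (Fin l) ℤ}

/-- `linR v n` is `lin v` at level `n` -/
theorem linR_eq_rename (v : Fin l → ℤ) (n : ℕ) :
    linR v n = rename (fun j => (j, n)) (lin v) := by
  rw [linR, lin, map_sum]
  apply sum_congr rfl
  intro j _
  rw [map_mul, rename_C, rename_X]

theorem reflR_rename (i : Fin l) (n : ℕ) (f : MvPolynomial (Fin l) ℂ) :
    reflR A i (rename (fun j => (j, n)) f) = rename (fun j => (j, n)) (refl A i f) := by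
  have h : (reflR A i).comp (rename (fun j : Fin l => (j, n)))
      = (rename (fun j : Fin l => (j, n))).comp (refl A i) := by
    apply MvPolynomial.algHom_ext
    intro j
    rw [AlgHom.comp_apply, AlgHom.comp_apply, rename_X, reflR_X, refl_X, map_sub, map_mul, rename_C,
      rename_X, rename_X]
  exact DFunLike.congr_fun h f

theorem reflR_linR (i : Fin l) (v : Fin l → ℤ) (n : ℕ) :
    reflR A i (linR v n) = linR (sv A i v) n := by
  rw [linR_eq_rename, reflR_rename, refl_lin, linR_eq_rename]

theorem linR_ee (i : Fin l) (n : ℕ) : linR (ee i) n = X (i, n) := by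
  rw [linR_eq_rename, lin_ee, rename_X]

theorem linR_sub (v w : Fin l → ℤ) (n : ℕ) : linR (v - w) n = linR v n - linR w n := by
  rw [linR_eq_rename, lin_sub, map_sub, ← linR_eq_rename, ← linR_eq_rename]

theorem linR_smul (c : ℤ) (v : Fin l → ℤ) (n : ℕ) : linR (c • v) n = C (c : ℂ) * linR v n := by
  rw [linR_eq_rename, lin_smul, map_mul, rename_C, ← linR_eq_rename]

theorem wR_C (L : List (Fin l)) (c : ℂ) : wR A L (C c) = C c := by
  rw [wR, aeval_C]; rfl

theorem wR_nil : wR A [] = AlgHom.id ℂ _ := by
  apply MvPolynomial.algHom_ext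
  rintro ⟨i, n⟩
  rw [wR_X, wv_nil, Module.End.one_apply, linR_ee]
  rfl

theorem wR_cons (i : Fin l) (L : List (Fin l)) (f : MvPolynomial (Fin l × ℕ) ℂ) :
    wR A (i :: L) f = reflR A i (wR A L f) := by
  have h : wR A (i :: L) = (reflR A i).comp (wR A L) := by
    apply MvPolynomial.algHom_ext
    rintro ⟨j, n⟩
    rw [AlgHom.comp_apply, wR_X, wR_X, reflR_linR, wv_cons, Module.End.mul_apply]
  rw [h]
  rfl

theorem wR_append (L M : List (Fin l)) (f : MvPolynomial (Fin l × ℕ) ℂ) :
    wR A (L ++ M) f = wR A L (wR A M f) := by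
  induction L with
  | nil => rw [List.nil_append, wR_nil]; rfl
  | cons i L ih => rw [List.cons_append, wR_cons, wR_cons, ih]

theorem wR_single (i : Fin l) (f : MvPolynomial (Fin l × ℕ) ℂ) :
    wR A [i] f = reflR A i f := by
  rw [wR_cons, wR_nil]; rfl

theorem wR_linR (L : List (Fin l)) (v : Fin l → ℤ) (n : ℕ) :
    wR A L (linR v n) = linR (wv A L v) n := by
  induction L with
  | nil => rw [wR_nil, wv_nil, Module.End.one_apply]; rfl
  | cons i L ih => rw [wR_cons, ih, reflR_linR, wv_cons, Module.End.mul_apply]

/-- compatibility with the action on `Sym(h)` -/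
theorem wR_iS (hA : SimplyLaced A) (L : List (Fin l)) (s : MvPolynomial (Fin l) ℂ) :
    wR A L (iS l s) = iS l (wp hA L s) := by
  have h : (wR A L).comp (iS l) = (iS l).comp ((wp hA L : MvPolynomial (Fin l) ℂ ≃ₐ[ℂ] _) :
      MvPolynomial (Fin l) ℂ →ₐ[ℂ] MvPolynomial (Fin l) ℂ) := by
    apply MvPolynomial.algHom_ext
    intro j
    rw [AlgHom.comp_apply, AlgHom.comp_apply, iS_X, wR_X]
    show _ = iS l (wp hA L (X j))
    rw [wp_X, linR_eq_rename]
    rfl
  exact DFunLike.congr_fun h s

/-- an element of the Weyl group sending `α_i` to `α_k` sends `G_i` into `G_k` -/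
theorem wR_mem_Gsub (hA : SimplyLaced A) (L : List (Fin l)) (i k : Fin l)
    (h : wv A L (ee i) = ee k) (f : MvPolynomial (Fin l × ℕ) ℂ) (hf : f ∈ Gsub A i) :
    wR A L f ∈ Gsub A k := by
  have hk : ∀ n, wR A L (X (i, n)) = X (k, n) := by
    intro n
    rw [wR_X, h, linR_ee]
  rw [Gsub] at hf
  induction hf using Algebra.adjoin_induction with
  | mem x hx =>
    rcases hx with (rfl | ⟨n, rfl⟩) | ⟨jn, rfl⟩
    · rw [map_pow, hk]
      exact Algebra.subset_adjoin (Or.inl (Or.inl rfl))
    · rw [map_mul, hk, hk]
      exact Algebra.subset_adjoin (Or.inl (Or.inr ⟨n, rfl⟩))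
    · show wR A L (X jn - C ((A i jn.1 : ℂ) / 2) * X (i, jn.2)) ∈ Gsub A k
      obtain ⟨j, n⟩ := jn
      rw [map_sub, map_mul, wR_C, hk, wR_X]
      -- the linear form `v - (1/2)(α_k, v) α_k`
      set v := wv A L (ee j) with hv
      have hb : (A i j : ℤ) = ∑ m, A k m * v m := by
        have h1 : bil A (ee i) (ee j) = bil A (ee k) v := by
          rw [← h, hv, bil_wv hA]
        rw [bil_ee_ee, bil_ee_left] at h1
        rw [h1]; rfl
      have h2 : linR v n - C ((A i j : ℂ) / 2) * X (k, n)
          = ∑ m, C ((v m : ℤ) : ℂ) * (X (m, n) - C ((A k m : ℂ) / 2) * X (k, n)) := by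
        have h3 : ((A i j : ℤ) : ℂ) = ∑ m, (A k m : ℂ) * (v m : ℂ) := by
          rw [hb]; push_cast; rfl
        rw [h3, sum_div, map_sum, sum_mul, linR, ← sum_sub_distrib]
        apply sum_congr rfl
        intro m _
        rw [show (A k m : ℂ) * (v m : ℂ) / 2 = (v m : ℂ) * ((A k m : ℂ) / 2) by ring, C_mul]
        ring
      rw [h2]
      apply Subalgebra.sum_mem
      intro m _
      apply Subalgebra.mul_mem
      · exact Subalgebra.algebraMap_mem _ _
      · exact Algebra.subset_adjoin (Or.inr ⟨(m, n), rfl⟩)
  | algebraMap r =>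
    rw [algebraMap_eq, wR_C]
    exact Subalgebra.algebraMap_mem _ _
  | add x y _ _ h1 h2 => rw [map_add]; exact Subalgebra.add_mem _ h1 h2
  | mul x y _ _ h1 h2 => rw [map_mul]; exact Subalgebra.mul_mem _ h1 h2

/-- **consistency** -/
theorem consist (hA : SimplyLaced A) (z : Fin l → MvPolynomial (Fin l × ℕ) ℂ)
    (w : Fin l → Fin l → MvPolynomial (Fin l × ℕ) ℂ)
    (hwi : ∀ i j, i ≠ j → reflR A i (w i j) = w i j)
    (hwj : ∀ i j, i ≠ j → reflR A j (w i j) = w i j)
    (hzi : ∀ i j, i ≠ j → w i j - z i ∈ Gsub A i)
    (hzj : ∀ i j, i ≠ j → w i j - z j ∈ Gsub A j)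
    (L : List (Fin l)) (i k : Fin l) (h : wv A L (ee i) = ee k) :
    wR A L (z i) - z k ∈ Gsub A k := by
  suffices key : ∀ (n : ℕ) (L : List (Fin l)) (i : Fin l), L.length ≤ n → wv A L (ee i) = ee k →
      wR A L (z i) - z k ∈ Gsub A k from key L.length L i le_rfl h
  intro n
  induction n using Nat.strong_induction_on with
  | _ n ih =>
    intro L i hn h
    by_cases hone : wv A L = 1
    · rw [hone, Module.End.one_apply] at h
      have hik : i = k := by
        by_contra hne
        have := congrFun h i
        rw [ee, ee, Pi.single_eq_same, Pi.single_eq_of_ne hne] at this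
        exact one_ne_zero this
      subst hik
      have : wR A L = wR A [] := wR_congr (by rw [hone, wv_nil])
      rw [this, wR_nil]
      show z i - z i ∈ _
      rw [sub_self]
      exact Subalgebra.zero_mem _
    · obtain ⟨j, hj⟩ := exists_neg hA L hone
      have hij : i ≠ j := by
        rintro rfl
        rw [h] at hj
        exact ee_ne_nonpos k hj
      obtain ⟨L', hL'len, hL'⟩ := delete hA j L hj
      have hLL' : wv A L = wv A (L' ++ [j]) := by
        rw [wv_append, wv_cons, wv_nil, mul_one, ← hL', mul_assoc, sv_mul_sv hA, mul_one]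
      rcases hA.off i j hij with h0 | h1
      · -- commuting case
        have hsji : sv A j (ee i) = ee i := by
          rw [sv_apply, mulVec_ee, hA.symm, h0, zero_smul, sub_zero]
        have hL'i : wv A L' (ee i) = ee k := by
          rw [← hL', Module.End.mul_apply, hsji, h]
        have h3 := ih L'.length (by omega) L' i le_rfl hL'i
        have h4 : wR A L (z i) = wR A L' (reflR A j (z i)) := by
          rw [wR_congr hLL', wR_append, wR_single]
        have h5 : reflR A j (z i) - z i ∈ Gsub A i := by
          have h6 : reflR A j (w i j - z i) ∈ Gsub A i := by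
            have := wR_mem_Gsub hA [j] i i (by rw [wv_cons, wv_nil, mul_one, hsji]) _ (hzi i j hij)
            rwa [wR_single] at this
          have h7 := Subalgebra.sub_mem _ (hzi i j hij) h6
          rw [map_sub, hwj i j hij] at h7
          have h8 : w i j - z i - (w i j - reflR A j (z i)) = reflR A j (z i) - z i := by ring
          rwa [h8] at h7
        have h9 := wR_mem_Gsub hA L' i k hL'i _ h5
        rw [map_sub, ← h4] at h9
        have h10 := Subalgebra.add_mem _ h9 h3
        rwa [sub_add_sub_cancel] at h10
      · -- braid case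
        have hsji : sv A j (ee i) = ee i + ee j := by
          rw [sv_apply, mulVec_ee, hA.symm, h1]; simp
        have hsij : sv A i (ee j) = ee j + ee i := by
          rw [sv_apply, mulVec_ee, h1]; simp
        have hsji' : sv A i (ee i + ee j) = ee j := by
          rw [map_add, sv_ee hA, hsij]; abel
        have hL'i : wv A L' (ee i) = ee k + wv A L (ee j) := by
          rw [← hL', Module.End.mul_apply, hsji, map_add, h]
        have hrt : IsRt A (wv A L' (ee i)) := (isRt_ee hA i).wv hA L'
        have hrj : IsRt A (wv A L (ee j)) := (isRt_ee hA j).wv hA L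
        have hle : wv A L' (ee i) ≤ 0 := by
          rcases hrt.pos_or_neg hA with hp | hp
          · exfalso
            rw [hL'i] at hp
            have hz : ∀ m, m ≠ k → wv A L (ee j) m = 0 := by
              intro m hm
              have h3 := hp m
              have h4 := hj m
              rw [Pi.zero_apply, Pi.add_apply, ee, Pi.single_eq_of_ne hm, zero_add] at h3
              rw [Pi.zero_apply] at h4
              exact le_antisymm h4 h3
            have hkk : (ee k : Fin l → ℤ) k = 1 := Pi.single_eq_same k 1
            have hk1 : 0 ≤ (ee k : Fin l → ℤ) k + wv A L (ee j) k := hp k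
            have hk2 : wv A L (ee j) k ≤ 0 := hj k
            rw [hkk] at hk1
            have hk3 : wv A L (ee j) k = 0 ∨ wv A L (ee j) k = -1 := by omega
            rcases hk3 with hk3 | hk3
            · apply hrj.ne_zero
              funext m
              by_cases hm : m = k
              · rw [hm, hk3]; rfl
              · rw [hz m hm]; rfl
            · apply hrt.ne_zero
              rw [hL'i]
              funext m
              rw [Pi.add_apply]
              by_cases hm : m = k
              · rw [hm, hk3, ee, Pi.single_eq_same]; rfl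
              · rw [hz m hm, ee, Pi.single_eq_of_ne hm]; rfl
          · exact hp
        obtain ⟨M, hMlen, hM⟩ := delete hA i L' hle
        have hMj : wv A M (ee j) = ee k := by
          rw [← hM, Module.End.mul_apply, hsij, add_comm, ← hsji, ← Module.End.mul_apply, ← hL',
            mul_assoc, sv_mul_sv hA, mul_one, h]
        have h3 := ih M.length (by omega) M j le_rfl hMj
        have hLM : wv A L = wv A (M ++ [i] ++ [j]) := by
          rw [hLL', wv_append, wv_append, wv_append, ← hM]
          rw [wv_cons, wv_nil, mul_one, wv_cons, wv_nil, mul_one, mul_assoc (wv A L'), sv_mul_sv hA,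
            mul_one]
        have h4 : wR A L (w i j) = wR A M (w i j) := by
          rw [wR_congr hLM, wR_append, wR_append, wR_single, wR_single, hwj i j hij, hwi i j hij]
        have h5 := wR_mem_Gsub hA L i k h _ (hzi i j hij)
        have h6 := wR_mem_Gsub hA M j k hMj _ (hzj i j hij)
        rw [map_sub] at h5 h6
        rw [h4] at h5
        have h7 := Subalgebra.sub_mem _ (Subalgebra.add_mem _ h6 h3) h5
        have h8 : wR A M (w i j) - wR A M (z j) + (wR A M (z j) - z k)
            - (wR A M (w i j) - wR A L (z i)) = wR A L (z i) - z k := by ring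
        rwa [h8] at h7

/-- every positive root is conjugate to a simple root by reflections in its support -/
theorem conj_simple' (hA : SimplyLaced A) (v : Fin l → ℤ) (h : IsRt A v) (hv : 0 ≤ v) :
    ∃ (L : List (Fin l)) (i : Fin l), wv A L v = ee i ∧ (∀ a ∈ L, v a ≠ 0) ∧ v i ≠ 0 := by
  have key : ∀ (n : ℕ) (v : Fin l → ℤ), IsRt A v → 0 ≤ v → ∑ i, v i ≤ n →
      ∃ (L : List (Fin l)) (i : Fin l), wv A L v = ee i ∧ (∀ a ∈ L, v a ≠ 0) ∧ v i ≠ 0 := by
    intro n
    induction n with
    | zero =>
      intro v h hv hn
      exfalso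
      apply h.ne_zero
      have h1 : ∑ i, v i = 0 := le_antisymm (by exact_mod_cast hn) (sum_nonneg fun i _ => hv i)
      funext i
      exact (sum_eq_zero_iff_of_nonneg fun i _ => hv i).1 h1 i (mem_univ i)
    | succ n ih =>
      intro v h hv hn
      have h1 : ∃ i, 0 < v i * (A *ᵥ v) i := by
        by_contra hcon
        push Not at hcon
        have h2 : bil A v v ≤ 0 := by
          rw [bil, dotProduct]
          exact sum_nonpos fun i _ => hcon i
        have h3 : bil A v v = 2 := h
        omega
      obtain ⟨i, hi⟩ := h1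
      have hvi : 0 ≤ v i := hv i
      have hvi0 : v i ≠ 0 := by
        intro h0
        rw [h0, zero_mul] at hi
        exact lt_irrefl _ hi
      have hAi : 0 < (A *ᵥ v) i := by
        by_contra hcon
        push Not at hcon
        nlinarith
      by_cases hne : v = ee i
      · exact ⟨[], i, by rw [wv_nil]; exact hne, by simp, hvi0⟩
      · have hs := h.sv_nonneg hA hv i hne
        have hsum : ∑ k, sv A i v k = ∑ k, v k - (A *ᵥ v) i := by
          have : ∀ k, sv A i v k = v k - (A *ᵥ v) i * ee i k := fun k => rfl
          simp_rw [this]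
          rw [sum_sub_distrib, ← mul_sum]
          congr 1
          rw [ee, Finset.sum_pi_single']
          simp
        have hsupp : ∀ a, sv A i v a ≠ 0 → v a ≠ 0 := by
          intro a ha
          by_cases hai : a = i
          · rw [hai]; exact hvi0
          · rwa [sv_apply_ne hai] at ha
        obtain ⟨L, j, hL, hL2, hj⟩ :=
          ih (sv A i v) (h.sv hA i) hs (by rw [hsum]; push_cast at hn; omega)
        refine ⟨L ++ [i], j, by rw [wv_append, wv_cons, wv_nil, mul_one, Module.End.mul_apply, hL],
          ?_, hsupp j hj⟩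
        intro a ha
        rcases List.mem_append.1 ha with h5 | h5
        · exact hsupp a (hL2 a h5)
        · rw [List.mem_singleton.1 h5]; exact hvi0
  exact key (∑ i, v i).toNat v h hv (by rw [Int.toNat_of_nonneg (sum_nonneg fun i _ => hv i)])

end WR

end Pool.Agent.LS
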