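import Pool.Agent.LS.W
import Pool.Agent.LS.Frame

/-!
# The Weyl group acting on the whole polynomial ring: definitions
-/

namespace Pool.Agent.LS

open MvPolynomial Finset Matrix

section WRdef

variable {l : ℕ}

/-- the inclusion of `Sym(h)` (level `0`) in the ring of symbols -/
noncomputable def iS (l : ℕ) : MvPolynomial (Fin l) ℂ →ₐ[ℂ] MvPolynomial (Fin l × ℕ) ℂ :=
  rename (fun i => (i, 0))

theorem iS_X (i : Fin l) : iS l (X i) = X (i, 0) := by
  rw [iS, rename_X]

theorem iS_C (c : ℂ) : iS l (C c) = C c := by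
  rw [iS, rename_C]

theorem iS_P {A : Matrix (Fin l) (Fin l) ℤ} (B : BasicInvariants A) (j : Fin l) :
    iS l (B.P j) = P0 B j := rfl

theorem iS_injective (l : ℕ) : Function.Injective (iS l) := by
  apply rename_injective
  intro i j h
  exact (Prod.mk.inj h).1

/-- the linear form `v` at level `n` -/
noncomputable def linR (v : Fin l → ℤ) (n : ℕ) : MvPolynomial (Fin l × ℕ) ℂ :=
  ∑ j, C ((v j : ℤ) : ℂ) * X (j, n)

/-- a word in the simple reflections acting on the ring of symbols -/
noncomputable def wR (A : Matrix (Fin l) (Fin l) ℤ) (L : List (Fin l)) :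
    MvPolynomial (Fin l × ℕ) ℂ →ₐ[ℂ] MvPolynomial (Fin l × ℕ) ℂ :=
  aeval (fun a => linR (wv A L (ee a.1)) a.2)

theorem wR_X (A : Matrix (Fin l) (Fin l) ℤ) (L : List (Fin l)) (a : Fin l × ℕ) :
    wR A L (X a) = linR (wv A L (ee a.1)) a.2 := by
  rw [wR, aeval_X]

theorem wR_congr {A : Matrix (Fin l) (Fin l) ℤ} {L L' : List (Fin l)} (h : wv A L = wv A L') :
    wR A L = wR A L' := by
  rw [wR, wR, h]

end WRdef

end Pool.Agent.LS
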